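import Mathlib

set_option autoImplicit false

open MeasureTheory
open scoped Topology

namespace Pool.Agent.Helper985.PS

/-- Physical space `ℝ³`. -/
abbrev E3 : Type := EuclideanSpace ℝ (Fin 3)

/-- Spinors, `ℂ²`. -/
abbrev C2 : Type := EuclideanSpace ℂ (Fin 2)

/-- smoothness of class `C^∞` -/
abbrev SM : WithTop ℕ∞ := ((⊤ : ℕ∞) : WithTop ℕ∞)

/-- The photon momentum `(2π/L) n` belonging to the integer vector `n`. -/
noncomputable def waveVector (L : ℝ) (n : Fin 3 → ℤ) : E3 :=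
  WithLp.toLp 2 (fun i => (2 * Real.pi / L) * (n i : ℝ))

/-- Photon momenta `k ∈ (2π/L)ℤ³` with `0 < |k| < Λ`, indexed by integer vectors. -/
def Momentum (L Λ : ℝ) : Type :=
  {n : Fin 3 → ℤ // 0 < ‖waveVector L n‖ ∧ ‖waveVector L n‖ < Λ}

/-- Photon modes: a momentum and one of the two polarisation indices. -/
abbrev Mode (L Λ : ℝ) : Type := Momentum L Λ × Fin 2

/-- The momentum `k` of a mode. -/
noncomputable def Mode.k {L Λ : ℝ} (m : Mode L Λ) : E3 := waveVector L m.1.1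

/-- There are only finitely many modes. -/
instance instFiniteMomentum (L Λ : ℝ) : Finite (Momentum L Λ) := by
  rcases eq_or_ne L 0 with h | h
  · have : IsEmpty (Momentum L Λ) := by
      refine ⟨fun n => ?_⟩
      have h1 := n.2.1
      have h2 : waveVector L n.1 = 0 := by
        ext i
        simp [waveVector, h]
      rw [h2] at h1
      simp at h1
    infer_instance
  · have hc : (0 : ℝ) < |2 * Real.pi / L| := by
      have := Real.pi_pos
      positivity
    obtain ⟨N, hN⟩ := exists_nat_gt (Λ / |2 * Real.pi / L|)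
    have hfin : Set.Finite (Set.Icc (fun _ : Fin 3 => (-(N : ℤ))) (fun _ => (N : ℤ))) :=
      Set.finite_Icc _ _
    have hsub : ∀ n : Momentum L Λ,
        n.1 ∈ Set.Icc (fun _ : Fin 3 => (-(N : ℤ))) (fun _ => (N : ℤ)) := by
      intro n
      have key : ∀ i, |(n.1 i : ℝ)| < N := by
        intro i
        have h1 : ‖(waveVector L n.1) i‖ ≤ ‖waveVector L n.1‖ := PiLp.norm_apply_le _ i
        have h2 : ‖(waveVector L n.1) i‖ = |2 * Real.pi / L| * |(n.1 i : ℝ)| := by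
          simp [waveVector, abs_mul, abs_div]
        have h3 := n.2.2
        rw [h2] at h1
        have h4 : |(n.1 i : ℝ)| < Λ / |2 * Real.pi / L| := by
          rw [lt_div_iff₀ hc, mul_comm]
          exact lt_of_le_of_lt h1 h3
        exact h4.trans hN
      constructor
      · intro i
        have := (abs_lt.mp (key i)).1
        have h5 : (-(N : ℤ) : ℝ) < (n.1 i : ℝ) := by push_cast; exact this
        have h6 : -(N : ℤ) < n.1 i := by exact_mod_cast h5
        exact h6.le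
      · intro i
        have := (abs_lt.mp (key i)).2
        have h6 : n.1 i < (N : ℤ) := by exact_mod_cast this
        exact h6.le
    have : Finite (Set.Icc (fun _ : Fin 3 => (-(N : ℤ))) (fun _ => (N : ℤ))) := hfin
    exact Finite.of_injective (fun n : Momentum L Λ =>
      (⟨n.1, hsub n⟩ : Set.Icc (fun _ : Fin 3 => (-(N : ℤ))) (fun _ => (N : ℤ))))
      (fun a b hab => Subtype.ext (by simpa using hab))

noncomputable instance instFintypeMomentum (L Λ : ℝ) : Fintype (Momentum L Λ) :=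
  Fintype.ofFinite _

noncomputable instance instDecidableEqMomentum (L Λ : ℝ) : DecidableEq (Momentum L Λ) :=
  Classical.decEq _

/-- Admissible polarisation vectors: for every momentum `k` the two vectors `ε_1(k), ε_2(k)` are
orthonormal and orthogonal to `k`. -/
structure IsPolarisation {L Λ : ℝ} (pol : Mode L Λ → E3) : Prop where
  orthonormal : ∀ (n : Momentum L Λ) (μ ν : Fin 2),
    inner ℝ (pol (n, μ)) (pol (n, ν)) = if μ = ν then (1 : ℝ) else 0
  transverse : ∀ m : Mode L Λ, inner ℝ (pol m) m.k = (0 : ℝ)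

/-- The real mode functions `V^{-1/2} (cos k·x + sin k·x) ε`, `V = L³`: an orthonormal basis of
the transverse real vector fields on the box with Fourier modes `0 < |k| < Λ`. -/
noncomputable def modeFn {L Λ : ℝ} (pol : Mode L Λ → E3) (m : Mode L Λ) (x : E3) : E3 :=
  ((Real.cos (inner ℝ m.k x) + Real.sin (inner ℝ m.k x)) / Real.sqrt (L ^ 3)) • pol m

section general

variable {ι : Type} [Fintype ι]

/-- The vector potential with amplitudes `q`: `A_q(x) = ∑ₘ qₘ eₘ(x)`. -/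
noncomputable def vecPot (e : ι → E3 → E3) (q : ι → ℝ) (x : E3) : E3 := ∑ m, q m • e m x

/-- `σ·v` for a real vector `v`, with the Pauli matrices `σ`. -/
noncomputable def sigma (v : E3) : Matrix (Fin 2) (Fin 2) ℂ :=
  !![(v 2 : ℂ), (v 0 : ℂ) - Complex.I * (v 1 : ℂ);
    (v 0 : ℂ) + Complex.I * (v 1 : ℂ), -(v 2 : ℂ)]

/-- the action of `σ·v` on spinors -/
noncomputable def sg (v : E3) (s : C2) : C2 := WithLp.toLp 2 ((sigma v).mulVec s.ofLp)

/-- coordinate vectors -/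
noncomputable def ee (j : Fin 3) : E3 := EuclideanSpace.single j (1 : ℝ)

/-- `σ·(p + √α A_q(x)) Ψ` with `p = -i∇ₓ`, for wave functions of the electron position `x` and
the field amplitudes `q` -/
noncomputable def pauli (α : ℝ) (e : ι → E3 → E3) (Ψ : E3 × (ι → ℝ) → C2) (p : E3 × (ι → ℝ)) :
    C2 :=
  (∑ j : Fin 3, (-Complex.I) • sg (ee j) (fderiv ℝ Ψ p (ee j, 0))) +
    ((Real.sqrt α : ℝ) : ℂ) • sg (vecPot e p.2 p.1) (Ψ p)

/-- The quadratic form of `½ (σ·(p + √α A))² + ½ ∑ₘ (-∂²/∂qₘ² + ωₘ² qₘ² - ωₘ)`. -/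
noncomputable def form [DecidableEq ι] (α : ℝ) (ω : ι → ℝ) (e : ι → E3 → E3)
    (Ψ : E3 × (ι → ℝ) → C2) : ℝ :=
  (1 / 2) * (∫ p, ‖pauli α e Ψ p‖ ^ 2) +
    (1 / 2) * (∫ p, ∑ m, (‖fderiv ℝ Ψ p (0, Pi.single m 1)‖ ^ 2 +
      ω m ^ 2 * p.2 m ^ 2 * ‖Ψ p‖ ^ 2)) -
    (1 / 2) * (∑ m, ω m) * ∫ p, ‖Ψ p‖ ^ 2

/-- `σ·(p + √α A_{q}(x)) χ` in a classical field -/
noncomputable def pauli0 (α : ℝ) (e : ι → E3 → E3) (q : ι → ℝ) (χ : E3 → C2) (x : E3) : C2 :=
  (∑ j : Fin 3, (-Complex.I) • sg (ee j) (fderiv ℝ χ x (ee j))) +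
    ((Real.sqrt α : ℝ) : ℂ) • sg (vecPot e q x) (χ x)

end general

/-! ### the ring -/

/-- distance to the axis -/
noncomputable def rho (y : E3) : ℝ := Real.sqrt (y 0 ^ 2 + y 1 ^ 2)

/-- squared distance to the unit ring -/
noncomputable def D2 (y : E3) : ℝ := (rho y - 1) ^ 2 + y 2 ^ 2

/-- the unit ring -/
noncomputable def gam (s : ℝ) : E3 := WithLp.toLp 2 ![Real.cos s, Real.sin s, 0]

/-- its tangent -/
noncomputable def tau (s : ℝ) : E3 := WithLp.toLp 2 ![-Real.sin s, Real.cos s, 0]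

/-- the mean circulation along the unit ring -/
noncomputable def circ (u : E3 → E3) : ℝ :=
  (1 / (2 * Real.pi)) * ∫ s in (0 : ℝ)..(2 * Real.pi), inner ℝ (u (gam s)) (tau s)

/-- `z₂ = 2 i (y₀ + i y₁) / (1 + |y|²)` -/
noncomputable def z2 (y : E3) : ℂ :=
  2 * Complex.I * ((y 0 : ℂ) + Complex.I * (y 1 : ℂ)) / ((1 + ‖y‖ ^ 2 : ℝ) : ℂ)

/-- the zero modes `(1+|y|²)^{-3/2} z₂^N (1 + i σ·y) |↑⟩` -/
noncomputable def hopf (N : ℕ) (y : E3) : C2 :=
  ((((1 + ‖y‖ ^ 2) ^ (-(3 / 2) : ℝ) : ℝ) : ℂ) * z2 y ^ N) •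
    (WithLp.toLp 2 ![1 + Complex.I * (y 2 : ℂ), Complex.I * (y 0 : ℂ) - (y 1 : ℂ)] : C2)

/-- the Loss-Yau field `n(y)/(1+|y|²)` -/
noncomputable def afield (y : E3) : E3 :=
  WithLp.toLp 2 ![(2 * y 2 * y 0 - 2 * y 1) / (1 + ‖y‖ ^ 2) ^ 2,
    (2 * y 2 * y 1 + 2 * y 0) / (1 + ‖y‖ ^ 2) ^ 2,
    (1 - ‖y‖ ^ 2 + 2 * y 2 ^ 2) / (1 + ‖y‖ ^ 2) ^ 2]

/-- squared norm of the circulation functional -/
noncomputable def circSq {L Λ : ℝ} (pol : Mode L Λ → E3) (R : ℝ) : ℝ :=
  ∑ m, circ (fun y => modeFn pol m (R • y)) ^ 2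

/-! ### Fock space -/

/-- Finite-particle vectors of the photon Fock space with modes `M`: the polynomial `p` stands
for the vector `p(a*) |0⟩`, a polynomial in the creation operators applied to the vacuum. -/
def Fock (M : Type) : Type := MvPolynomial M ℂ

noncomputable instance (M : Type) : AddCommGroup (Fock M) :=
  inferInstanceAs (AddCommGroup (MvPolynomial M ℂ))

noncomputable instance (M : Type) : Module ℂ (Fock M) :=
  inferInstanceAs (Module ℂ (MvPolynomial M ℂ))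

/-- The polynomial `p` representing a Fock vector `p(a*) |0⟩`. -/
def Fock.poly {M : Type} (v : Fock M) : MvPolynomial M ℂ := v

/-- The coefficient of the monomial `∏ₘ (a*ₘ)^(nₘ) |0⟩` in a Fock vector. -/
noncomputable def Fock.coeff {M : Type} (n : M →₀ ℕ) (v : Fock M) : ℂ :=
  MvPolynomial.coeff n v.poly

/-- The Fock space inner product: the vectors `∏ₘ (a*ₘ)^(nₘ) |0⟩` are orthogonal with squared
norm `∏ₘ nₘ!`. -/
noncomputable def fockInner {M : Type} (u v : Fock M) : ℂ :=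
  ∑ n ∈ u.poly.support,
    (starRingEnd ℂ) (Fock.coeff n u) * Fock.coeff n v * ((n.prod fun _ j => (j.factorial : ℂ)))

theorem fockInner_eq_sum {M : Type} (u v : Fock M) (S : Finset (M →₀ ℕ))
    (hS : u.poly.support ⊆ S) :
    fockInner u v = ∑ n ∈ S,
      (starRingEnd ℂ) (Fock.coeff n u) * Fock.coeff n v *
        ((n.prod fun _ j => (j.factorial : ℂ))) := by
  unfold fockInner
  apply Finset.sum_subset hS
  intro n _ hn
  have : Fock.coeff n u = 0 := by
    unfold Fock.coeff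
    exact MvPolynomial.notMem_support_iff.mp hn
  rw [this]; simp

theorem factorial_prod_conj {M : Type} (n : M →₀ ℕ) :
    (starRingEnd ℂ) (n.prod fun _ j => (j.factorial : ℂ)) = n.prod fun _ j => (j.factorial : ℂ) := by
  unfold Finsupp.prod
  rw [map_prod]
  simp

theorem factorial_prod_eq {M : Type} (n : M →₀ ℕ) :
    (n.prod fun _ j => (j.factorial : ℂ)) = ((n.prod fun _ j => (j.factorial : ℝ) : ℝ) : ℂ) := by
  unfold Finsupp.prod
  simp

theorem factorial_prod_pos {M : Type} (n : M →₀ ℕ) :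
    0 < (n.prod fun _ j => (j.factorial : ℝ)) := by
  unfold Finsupp.prod
  apply Finset.prod_pos
  intro i _
  show (0 : ℝ) < ((n i).factorial : ℝ)
  exact_mod_cast Nat.factorial_pos _

theorem Fock.coeff_add {M : Type} (n : M →₀ ℕ) (u v : Fock M) :
    Fock.coeff n (u + v) = Fock.coeff n u + Fock.coeff n v :=
  MvPolynomial.coeff_add n u v

theorem Fock.coeff_smul {M : Type} (n : M →₀ ℕ) (c : ℂ) (u : Fock M) :
    Fock.coeff n (c • u) = c * Fock.coeff n u :=
  MvPolynomial.coeff_smul n c u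

theorem fockInner_self {M : Type} (u : Fock M) :
    fockInner u u = ((∑ n ∈ u.poly.support,
      ‖Fock.coeff n u‖ ^ 2 * (n.prod fun _ j => (j.factorial : ℝ)) : ℝ) : ℂ) := by
  unfold fockInner
  push_cast
  apply Finset.sum_congr rfl
  intro n _
  rw [← factorial_prod_eq, ← Complex.mul_conj', mul_comm (Fock.coeff n u)]

/-- The Fock space inner product, packaged. -/
@[instance_reducible]
noncomputable def fockCore (M : Type) : InnerProductSpace.Core ℂ (Fock M) where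
  inner := fockInner
  conj_inner_symm u v := by
    classical
    rw [fockInner_eq_sum u v (u.poly.support ∪ v.poly.support)
        Finset.subset_union_left,
      fockInner_eq_sum v u (u.poly.support ∪ v.poly.support)
        Finset.subset_union_right, map_sum]
    apply Finset.sum_congr rfl
    intro n _
    rw [map_mul, map_mul, factorial_prod_conj]
    simp only [Complex.conj_conj]
    ring
  re_inner_nonneg u := by
    rw [fockInner_self]
    simp only [RCLike.re_to_complex, Complex.ofReal_re]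
    apply Finset.sum_nonneg
    intro n _
    exact mul_nonneg (by positivity) (factorial_prod_pos n).le
  add_left u v w := by
    classical
    rw [fockInner_eq_sum (u + v) w (u.poly.support ∪ v.poly.support)
        (MvPolynomial.support_add),
      fockInner_eq_sum u w (u.poly.support ∪ v.poly.support)
        Finset.subset_union_left,
      fockInner_eq_sum v w (u.poly.support ∪ v.poly.support)
        Finset.subset_union_right, ← Finset.sum_add_distrib]
    apply Finset.sum_congr rfl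
    intro n _
    rw [Fock.coeff_add, map_add]
    ring
  smul_left u v c := by
    rw [fockInner_eq_sum (c • u) v u.poly.support (MvPolynomial.support_smul),
      fockInner_eq_sum u v u.poly.support (Finset.Subset.refl _), Finset.mul_sum]
    apply Finset.sum_congr rfl
    intro n _
    rw [Fock.coeff_smul, map_mul]
    ring
  definite u hu := by
    rw [fockInner_self] at hu
    have h0 : (∑ n ∈ u.poly.support,
      ‖Fock.coeff n u‖ ^ 2 * (n.prod fun _ j => (j.factorial : ℝ)) : ℝ) = 0 := by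
      exact_mod_cast hu
    rw [Finset.sum_eq_zero_iff_of_nonneg] at h0
    · apply MvPolynomial.ext
      intro n
      by_cases hn : n ∈ u.poly.support
      · have h1 := h0 n hn
        have h2 := (factorial_prod_pos n).ne'
        have h3 : ‖Fock.coeff n u‖ ^ 2 = 0 := by
          rcases mul_eq_zero.mp h1 with h | h
          · exact h
          · exact absurd h h2
        have h4 : Fock.coeff n u = 0 := by simpa using h3
        exact h4
      · exact MvPolynomial.notMem_support_iff.mp hn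
    · intro n _
      exact mul_nonneg (by positivity) (factorial_prod_pos n).le

noncomputable instance (M : Type) : NormedAddCommGroup (Fock M) :=
  (fockCore M).toNormedAddCommGroup

noncomputable instance (M : Type) : InnerProductSpace ℂ (Fock M) :=
  InnerProductSpace.ofCore (fockCore M).toCore

/-- The vacuum vector `|0⟩`. -/
noncomputable def vacuum (M : Type) : Fock M := (1 : MvPolynomial M ℂ)

/-- The creation operator `a*ₘ`. -/
noncomputable def cr {M : Type} (m : M) : Fock M →ₗ[ℂ] Fock M :=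
  LinearMap.mulLeft ℂ (MvPolynomial.X m : MvPolynomial M ℂ)

/-- The annihilation operator `aₘ`. -/
noncomputable def an {M : Type} (m : M) : Fock M →ₗ[ℂ] Fock M :=
  (MvPolynomial.pderiv m : Derivation ℂ (MvPolynomial M ℂ) (MvPolynomial M ℂ)).toLinearMap

/-- The `i`-th component of the quantised vector potential at `x ∈ ℝ³`, for a field in a cube of
side `L` with ultraviolet cutoff `Λ` and polarisation vectors `pol`:
`A(x) = ∑_{k,μ} ε_μ(k) / √(2V|k|) (e^{ik·x} a_μ(k) + e^{-ik·x} a*_μ(k))` with `V = L³`. -/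
noncomputable def vectorPotential (L Λ : ℝ) (pol : Mode L Λ → E3) (i : Fin 3) (x : E3)
    (v : Fock (Mode L Λ)) : Fock (Mode L Λ) :=
  ∑ᶠ m : Mode L Λ, ((pol m i / Real.sqrt (2 * L ^ 3 * ‖m.k‖) : ℝ) : ℂ) •
    (Complex.exp (Complex.I * ((inner ℝ m.k x : ℝ) : ℂ)) • an m v +
      Complex.exp (-(Complex.I * ((inner ℝ m.k x : ℝ) : ℂ))) • cr m v)

/-- The field energy `H_f = ∑_{k,μ} |k| a*_μ(k) a_μ(k)`. -/
noncomputable def fieldEnergy (L Λ : ℝ) (v : Fock (Mode L Λ)) : Fock (Mode L Λ) :=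
  ∑ᶠ m : Mode L Λ, ((‖m.k‖ : ℝ) : ℂ) • cr m (an m v)

/-- Wave functions of one electron with spin and the photon field: two spin components, each a
function of the electron position with values in Fock space. -/
abbrev WaveFunction (M : Type) : Type := Fin 2 → E3 → Fock M

/-- The `i`-th component of `p + √α A(x)`, where `p = -i∇`, acting on one spin component. -/
noncomputable def velocity (α L Λ : ℝ) (pol : Mode L Λ → E3) (i : Fin 3)
    (Ψ : E3 → Fock (Mode L Λ)) : E3 → Fock (Mode L Λ) :=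
  fun x => (-Complex.I) • fderiv ℝ Ψ x (EuclideanSpace.single i (1 : ℝ)) +
    ((Real.sqrt α : ℝ) : ℂ) • vectorPotential L Λ pol i x (Ψ x)

/-- The Pauli matrices `σ₁, σ₂, σ₃`. -/
noncomputable def pauliMatrix : Fin 3 → Matrix (Fin 2) (Fin 2) ℂ :=
  ![!![0, 1; 1, 0], !![0, -Complex.I; Complex.I, 0], !![1, 0; 0, -1]]

/-- The operator `σ·(p + √α A(x))`. -/
noncomputable def pauliOp (α L Λ : ℝ) (pol : Mode L Λ → E3) (Ψ : WaveFunction (Mode L Λ)) :
    WaveFunction (Mode L Λ) :=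
  fun s x => ∑ i : Fin 3, ∑ t : Fin 2, pauliMatrix i s t • velocity α L Λ pol i (Ψ t) x

/-- The Pauli Hamiltonian `H = ½ (σ·(p + √α A(x)))² + H_f`. -/
noncomputable def hamiltonian (α L Λ : ℝ) (pol : Mode L Λ → E3)
    (Ψ : WaveFunction (Mode L Λ)) : WaveFunction (Mode L Λ) :=
  fun s x => (1 / 2 : ℂ) • pauliOp α L Λ pol (pauliOp α L Λ pol Ψ) s x +
    fieldEnergy L Λ (Ψ s x)

/-- Admissible states: smooth compactly supported functions of the electron position with values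
in a finite-dimensional space of finite-particle vectors. -/
structure IsState {M : Type} (Ψ : WaveFunction M) : Prop where
  smooth : ∀ s, ContDiff ℝ SM (Ψ s)
  compact : ∀ s, HasCompactSupport (Ψ s)
  finite : ∃ E : Submodule ℂ (Fock M), FiniteDimensional ℂ E ∧ ∀ s x, Ψ s x ∈ E

/-- The inner product `⟨Φ, Ψ⟩` of the Hilbert space `L²(ℝ³; ℂ²) ⊗ 𝓕`. -/
noncomputable def braket {M : Type} (Φ Ψ : WaveFunction M) : ℂ :=
  ∫ x, ∑ s, inner ℂ (Φ s x) (Ψ s x)

/-- The energies `⟨Ψ, H Ψ⟩ / ⟨Ψ, Ψ⟩` of the nonzero states `Ψ`. -/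
def energies (α L Λ : ℝ) (pol : Mode L Λ → E3) : Set ℝ :=
  {e : ℝ | ∃ Ψ : WaveFunction (Mode L Λ), IsState Ψ ∧ Ψ ≠ 0 ∧
    e = (braket Ψ (hamiltonian α L Λ pol Ψ)).re / (braket Ψ Ψ).re}

/-- The self-energy `E₀ = inf ⟨Ψ, H Ψ⟩ / ⟨Ψ, Ψ⟩` over nonzero `Ψ`. -/
noncomputable def groundEnergy (α L Λ : ℝ) (pol : Mode L Λ → E3) : ℝ :=
  sInf (energies α L Λ pol)

/-- the trial state `F(q-q₀) e^{-i ∑ (q-q₀)ₘ θₘ(x)} χ(x)` -/
noncomputable def trial {ι : Type} [Fintype ι] (χ : E3 → C2) (θ : ι → E3 → ℝ) (q0 : ι → ℝ)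
    (F : (ι → ℝ) → ℝ) (p : E3 × (ι → ℝ)) : C2 :=
  (((F (p.2 - q0) : ℝ) : ℂ) *
    Complex.exp (-Complex.I * ((∑ m, (p.2 m - q0 m) * θ m p.1 : ℝ) : ℂ))) • χ p.1

/-- the weight matrix -/
noncomputable def Wm {L Λ : ℝ} (pol : Mode L Λ → E3) (R : ℝ) :
    Matrix (Mode L Λ) (Mode L Λ) ℝ :=
  fun m n => ∫ y, ((1 + ‖y‖ / R) ^ 8)⁻¹ * inner ℝ (modeFn pol m y) (modeFn pol n y)

/-- the smeared ring -/
noncomputable def ringU (R Λ : ℝ) (y : E3) : ℝ :=
  ∫ s in (0 : ℝ)..(2 * Real.pi), ((1 + Λ * ‖R • gam s - y‖) ^ 8)⁻¹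

/-- density of the form norm -/
noncomputable def fn {ι : Type} [Fintype ι] [DecidableEq ι] {V : Type} [NormedAddCommGroup V]
    [NormedSpace ℝ V] (D : E3 × (ι → ℝ) → V) (p : E3 × (ι → ℝ)) : ℝ :=
  ‖D p‖ ^ 2 + ∑ j : Fin 3, ‖fderiv ℝ D p (ee j, 0)‖ ^ 2 +
    ∑ m, (‖fderiv ℝ D p (0, Pi.single m 1)‖ ^ 2 + p.2 m ^ 2 * ‖D p‖ ^ 2)

/-- a Schroedinger representation of Fock space (without density) -/
structure IsHermite0 {ι : Type} [Fintype ι] [DecidableEq ι] (ω : ι → ℝ)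
    (J : Fock ι →ₗ[ℂ] ((ι → ℝ) → ℂ)) : Prop where
  smooth : ∀ p, ContDiff ℝ SM (J p)
  decay : ∀ p, ∃ C c : ℝ, 0 < c ∧ ∀ q, ‖J p q‖ ≤ C * Real.exp (-c * ∑ m, q m ^ 2)
  ddecay : ∀ p m, ∃ C c : ℝ, 0 < c ∧
    ∀ q, ‖fderiv ℝ (J p) q (Pi.single m 1)‖ ≤ C * Real.exp (-c * ∑ m, q m ^ 2)
  crea : ∀ p m q, ((Real.sqrt (ω m) * q m : ℝ) : ℂ) * J p q -
    ((1 / Real.sqrt (ω m) : ℝ) : ℂ) * fderiv ℝ (J p) q (Pi.single m 1) =
      ((Real.sqrt 2 : ℝ) : ℂ) * J (cr m p) q
  anni : ∀ p m q, ((Real.sqrt (ω m) * q m : ℝ) : ℂ) * J p q +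
    ((1 / Real.sqrt (ω m) : ℝ) : ℂ) * fderiv ℝ (J p) q (Pi.single m 1) =
      ((Real.sqrt 2 : ℝ) : ℂ) * J (an m p) q
  isom : ∀ p r, ∫ q, (starRingEnd ℂ) (J p q) * J r q = inner ℂ p r
  vac : ∃ C : ℝ, 0 < C ∧ ∀ q, J (vacuum ι) q =
    ((C * Real.exp (-(1 / 2) * ∑ m, ω m * q m ^ 2) : ℝ) : ℂ)

/-- density of the representation -/
def IsDense {ι : Type} [Fintype ι] (J : Fock ι →ₗ[ℂ] ((ι → ℝ) → ℂ)) : Prop :=
  ∀ f : (ι → ℝ) → ℂ, Continuous f → HasCompactSupport f → ∀ ε : ℝ, 0 < ε →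
    ∃ p, ∫ q, ‖f q - J p q‖ ^ 2 ≤ ε

/-- the Schroedinger representation in which the vector potential is a multiplication operator -/
structure IsRep {L Λ : ℝ} (pol : Mode L Λ → E3)
    (J : Fock (Mode L Λ) →ₗ[ℂ] ((Mode L Λ → ℝ) → ℂ)) : Prop where
  smooth : ∀ p, ContDiff ℝ SM (J p)
  decay : ∀ p, ∃ C c : ℝ, 0 < c ∧ ∀ q, ‖J p q‖ ≤ C * Real.exp (-c * ∑ m, q m ^ 2)
  ddecay : ∀ p m, ∃ C c : ℝ, 0 < c ∧
    ∀ q, ‖fderiv ℝ (J p) q (Pi.single m 1)‖ ≤ C * Real.exp (-c * ∑ m, q m ^ 2)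
  isom : ∀ p r, ∫ q, (starRingEnd ℂ) (J p q) * J r q = inner ℂ p r
  field : ∀ (i : Fin 3) (x : E3) p q, J (vectorPotential L Λ pol i x p) q =
    ((vecPot (modeFn pol) q x i : ℝ) : ℂ) * J p q
  energy : ∀ p r, (inner ℂ p (fieldEnergy L Λ r) : ℂ) =
    (1 / 2) * (∫ q, ∑ m : Mode L Λ,
      ((starRingEnd ℂ) (fderiv ℝ (J p) q (Pi.single m 1)) * fderiv ℝ (J r) q (Pi.single m 1) +
        ((‖m.k‖ ^ 2 * q m ^ 2 : ℝ) : ℂ) * ((starRingEnd ℂ) (J p q) * J r q))) -
    (1 / 2) * ((∑ m : Mode L Λ, ‖m.k‖ : ℝ) : ℂ) * inner ℂ p r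
  approx : ∀ Ψ : E3 × (Mode L Λ → ℝ) → ℂ, ContDiff ℝ SM Ψ → HasCompactSupport Ψ →
    ∀ ε : ℝ, 0 < ε → ∃ (r : ℕ) (c : Fin r → E3 → ℂ) (P : Fin r → Fock (Mode L Λ)),
      (∀ j, ContDiff ℝ SM (c j)) ∧ (∀ j, HasCompactSupport (c j)) ∧
      Integrable (fn (fun p : E3 × (Mode L Λ → ℝ) => Ψ p - ∑ j, c j p.1 * J (P j) p.2)) ∧
      ∫ p, fn (fun p : E3 × (Mode L Λ → ℝ) => Ψ p - ∑ j, c j p.1 * J (P j) p.2) p ≤ ε

end Pool.Agent.Helper985.PS
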