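import Pool.Agent.Helper985.PS.Defs

set_option autoImplicit false

open MeasureTheory
open scoped Topology

namespace Pool.Agent.Helper985.PS


theorem smooth_modeFn {L Λ : ℝ} (pol : Mode L Λ → E3) (m : Mode L Λ) :
    ContDiff ℝ SM (modeFn pol m) := by
  unfold modeFn
  have h : ContDiff ℝ SM (fun x : E3 => (inner ℝ m.k x : ℝ)) := contDiff_const.inner ℝ contDiff_id
  have h1 : ContDiff ℝ SM (fun x : E3 => (Real.cos (inner ℝ m.k x) + Real.sin (inner ℝ m.k x))
      / Real.sqrt (L ^ 3)) :=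
    ((Real.contDiff_cos.comp h).add (Real.contDiff_sin.comp h)).div_const _
  exact h1.smul contDiff_const

theorem norm_modeFn_sq {L Λ : ℝ} (hL : 0 < L) (pol : Mode L Λ → E3) (hp : IsPolarisation pol)
    (m : Mode L Λ) (x : E3) : ‖modeFn pol m x‖ ^ 2 ≤ 2 / L ^ 3 := by
  have hn : ‖pol m‖ ^ 2 = 1 := by
    have h := hp.orthonormal m.1 m.2 m.2
    rw [if_pos rfl] at h
    rw [← real_inner_self_eq_norm_sq]
    exact h
  have hL3 : (0 : ℝ) < L ^ 3 := by positivity
  unfold modeFn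
  rw [norm_smul, mul_pow, hn, mul_one, Real.norm_eq_abs, sq_abs, div_pow, Real.sq_sqrt hL3.le]
  apply div_le_div_of_nonneg_right _ hL3.le
  have h1 := Real.sin_sq_add_cos_sq (inner ℝ m.k x)
  nlinarith [sq_nonneg (Real.cos (inner ℝ m.k x) - Real.sin (inner ℝ m.k x))]

end Pool.Agent.Helper985.PS
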