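import Pool.Agent.Helper985.PS.M_card_mode
import Pool.Agent.Helper985.PS.M_modefn
import Pool.Agent.Helper985.PS.Defs

set_option autoImplicit false

open MeasureTheory
open scoped Topology

namespace Pool.Agent.Helper985.PS







theorem Wm_aux_weight_eq {R : ℝ} (y : E3) (hR : 0 < R) :
    ((1 + ‖y‖ / R) ^ 8)⁻¹ = (1 + ‖R⁻¹ • y‖) ^ (-(8 : ℝ)) := by
  have h1 : ‖R⁻¹ • y‖ = ‖y‖ / R := by
    rw [norm_smul, norm_inv, Real.norm_of_nonneg hR.le, div_eq_inv_mul]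
  rw [h1, Real.rpow_neg (by positivity)]
  congr 1
  rw [← Real.rpow_natCast]
  norm_num

theorem Wm_aux_int0 : Integrable (fun y : E3 => (1 + ‖y‖) ^ (-(8 : ℝ))) := by
  apply integrable_one_add_norm
  rw [finrank_euclideanSpace_fin]
  norm_num

theorem Wm_aux_int {R : ℝ} (hR : 0 < R) : Integrable (fun y : E3 => ((1 + ‖y‖ / R) ^ 8)⁻¹) := by
  have h := Wm_aux_int0.comp_smul (R := R⁻¹) (inv_ne_zero hR.ne')
  refine h.congr (Filter.Eventually.of_forall fun y => ?_)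
  exact (Wm_aux_weight_eq y hR).symm

theorem Wm_aux_val {R : ℝ} (hR : 0 < R) : ∫ y : E3, ((1 + ‖y‖ / R) ^ 8)⁻¹ =
    R ^ 3 * ∫ y : E3, (1 + ‖y‖) ^ (-(8 : ℝ)) := by
  have h := MeasureTheory.Measure.integral_comp_inv_smul_of_nonneg (volume : Measure E3)
    (fun y : E3 => (1 + ‖y‖) ^ (-(8 : ℝ))) hR.le
  rw [finrank_euclideanSpace_fin, smul_eq_mul] at h
  rw [← h]
  refine integral_congr_ae (Filter.Eventually.of_forall fun y => ?_)
  exact Wm_aux_weight_eq y hR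

theorem Wm_aux_inner {L Λ : ℝ} (hL : 0 < L) (pol : Mode L Λ → E3) (hp : IsPolarisation pol)
    (m n : Mode L Λ) (y : E3) : |inner ℝ (modeFn pol m y) (modeFn pol n y)| ≤ 2 / L ^ 3 := by
  have h1 := norm_modeFn_sq hL pol hp m y
  have h2 := norm_modeFn_sq hL pol hp n y
  have h3 := abs_real_inner_le_norm (modeFn pol m y) (modeFn pol n y)
  have h4 : 0 ≤ (‖modeFn pol m y‖ - ‖modeFn pol n y‖) ^ 2 := sq_nonneg _
  nlinarith

theorem Wm_aux_integrable {L Λ R : ℝ} (hL : 0 < L) (hR : 0 < R) (pol : Mode L Λ → E3)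
    (hp : IsPolarisation pol) (m n : Mode L Λ) :
    Integrable (fun y : E3 => ((1 + ‖y‖ / R) ^ 8)⁻¹ *
      inner ℝ (modeFn pol m y) (modeFn pol n y)) := by
  have hc : Continuous (fun y : E3 => ((1 + ‖y‖ / R) ^ 8)⁻¹ *
      inner ℝ (modeFn pol m y) (modeFn pol n y)) := by
    refine Continuous.mul ?_ ?_
    · refine Continuous.inv₀ (by fun_prop) fun y => ?_
      positivity
    · exact (smooth_modeFn pol m).continuous.inner (smooth_modeFn pol n).continuous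
  refine ((Wm_aux_int hR).const_mul (2 / L ^ 3)).mono' hc.aestronglyMeasurable
    (Filter.Eventually.of_forall fun y => ?_)
  rw [norm_mul, Real.norm_of_nonneg (by positivity : (0:ℝ) ≤ ((1 + ‖y‖ / R) ^ 8)⁻¹), mul_comm]
  refine mul_le_mul_of_nonneg_right ?_ (by positivity)
  exact Wm_aux_inner hL pol hp m n y

theorem Wm_form {L Λ R : ℝ} (hL : 0 < L) (hR : 0 < R) (pol : Mode L Λ → E3)
    (hp : IsPolarisation pol) (v : Mode L Λ → ℝ) :
    v ⬝ᵥ ((Wm pol R).mulVec v) =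
      ∫ y, ((1 + ‖y‖ / R) ^ 8)⁻¹ * ‖vecPot (modeFn pol) v y‖ ^ 2 := by
  have h1 : ∀ y : E3, ((1 + ‖y‖ / R) ^ 8)⁻¹ * ‖vecPot (modeFn pol) v y‖ ^ 2 =
      ∑ m, ∑ n, v m * v n * (((1 + ‖y‖ / R) ^ 8)⁻¹ *
        inner ℝ (modeFn pol m y) (modeFn pol n y)) := by
    intro y
    unfold vecPot
    rw [← real_inner_self_eq_norm_sq, sum_inner, Finset.mul_sum]
    refine Finset.sum_congr rfl fun m _ => ?_
    rw [inner_sum, Finset.mul_sum]
    refine Finset.sum_congr rfl fun n _ => ?_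
    rw [real_inner_smul_left, real_inner_smul_right]
    ring
  simp only [h1]
  rw [integral_finset_sum _ (fun m _ => integrable_finset_sum _ fun n _ =>
    (Wm_aux_integrable hL hR pol hp m n).const_mul _)]
  unfold dotProduct
  refine Finset.sum_congr rfl fun m _ => ?_
  rw [integral_finset_sum _ (fun n _ => (Wm_aux_integrable hL hR pol hp m n).const_mul _)]
  unfold Matrix.mulVec dotProduct
  rw [Finset.mul_sum]
  refine Finset.sum_congr rfl fun n _ => ?_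
  rw [integral_const_mul]
  unfold Wm
  ring

theorem Wm_trace : ∃ C : ℝ, 0 < C ∧ ∀ (L Λ R : ℝ), 0 < L → 1 ≤ L * Λ → 0 < R →
    ∀ (pol : Mode L Λ → E3), IsPolarisation pol → (Wm pol R).trace ≤ C * (Λ * R) ^ 3 := by
  obtain ⟨C, hC, hcard⟩ := card_mode
  have hC0 : 0 ≤ ∫ y : E3, (1 + ‖y‖) ^ (-(8 : ℝ)) :=
    integral_nonneg fun y => Real.rpow_nonneg (by positivity) _
  refine ⟨2 * C * (∫ y : E3, (1 + ‖y‖) ^ (-(8 : ℝ))) + 1, by positivity, ?_⟩
  intro L Λ R hL hLΛ hR pol hp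
  have hΛ : 0 < Λ := by
    by_contra h
    push Not at h
    nlinarith [mul_nonneg hL.le (neg_nonneg.2 h)]
  have h1 : (Wm pol R).trace ≤ (Fintype.card (Mode L Λ) : ℝ) *
      ((2 / L ^ 3) * (R ^ 3 * ∫ y : E3, (1 + ‖y‖) ^ (-(8 : ℝ)))) := by
    unfold Matrix.trace
    rw [← nsmul_eq_mul, ← Finset.card_univ, ← Finset.sum_const]
    refine Finset.sum_le_sum fun m _ => ?_
    rw [Matrix.diag_apply]
    unfold Wm
    rw [← Wm_aux_val hR, ← integral_const_mul]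
    refine integral_mono (Wm_aux_integrable hL hR pol hp m m)
      ((Wm_aux_int hR).const_mul _) fun y => ?_
    simp only
    rw [mul_comm (2 / L ^ 3)]
    refine mul_le_mul_of_nonneg_left ?_ (by positivity)
    exact (le_abs_self _).trans (Wm_aux_inner hL pol hp m m y)
  refine h1.trans ?_
  have h2 : (Fintype.card (Mode L Λ) : ℝ) *
      ((2 / L ^ 3) * (R ^ 3 * ∫ y : E3, (1 + ‖y‖) ^ (-(8 : ℝ)))) ≤
      (C * (L * Λ) ^ 3) * ((2 / L ^ 3) * (R ^ 3 * ∫ y : E3, (1 + ‖y‖) ^ (-(8 : ℝ)))) :=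
    mul_le_mul_of_nonneg_right (hcard L Λ hL hLΛ) (by positivity)
  refine h2.trans ?_
  have h3 : (C * (L * Λ) ^ 3) * ((2 / L ^ 3) * (R ^ 3 * ∫ y : E3, (1 + ‖y‖) ^ (-(8 : ℝ)))) =
      2 * C * (∫ y : E3, (1 + ‖y‖) ^ (-(8 : ℝ))) * (Λ * R) ^ 3 := by
    field_simp
  rw [h3]
  nlinarith [pow_pos (mul_pos hΛ hR) 3]

end Pool.Agent.Helper985.PS
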