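import Pool.Agent.Helper985.PS.Defs

set_option autoImplicit false

open MeasureTheory
open scoped Topology

namespace Pool.Agent.Helper985.PS









namespace ApproxForm

set_option linter.unusedSectionVars false


/-- monomial vectors -/
noncomputable def mon {ι : Type} (n : ι →₀ ℕ) : Fock ι :=
  (MvPolynomial.monomial n (1 : ℂ) : MvPolynomial ι ℂ)

theorem cr_mon {ι : Type} (m : ι) (n : ι →₀ ℕ) : cr m (mon n) = mon (n + Finsupp.single m 1) := by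
  show (MvPolynomial.X m * MvPolynomial.monomial n (1 : ℂ) : MvPolynomial ι ℂ) =
    MvPolynomial.monomial (n + Finsupp.single m 1) (1 : ℂ)
  rw [MvPolynomial.X, MvPolynomial.monomial_mul, one_mul, add_comm]

theorem an_mon {ι : Type} (m : ι) (n : ι →₀ ℕ) :
    an m (mon n) = (n m : ℂ) • mon (n - Finsupp.single m 1) := by
  show (MvPolynomial.pderiv m (MvPolynomial.monomial n (1 : ℂ)) : MvPolynomial ι ℂ) =
    (n m : ℂ) • (MvPolynomial.monomial (n - Finsupp.single m 1) (1 : ℂ) : MvPolynomial ι ℂ)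
  rw [MvPolynomial.pderiv_monomial, MvPolynomial.smul_monomial]
  simp

/-- vectors with at most `N` particles -/
noncomputable def VN (ι : Type) (N : ℕ) : Submodule ℂ (Fock ι) :=
  Submodule.span ℂ ((fun n : ι →₀ ℕ => mon n) '' {n | Finsupp.degree n ≤ N})

theorem mon_mem {ι : Type} (N : ℕ) (n : ι →₀ ℕ) (h : Finsupp.degree n ≤ N) : mon n ∈ VN ι N :=
  Submodule.subset_span ⟨n, h, rfl⟩

theorem VN_mono {ι : Type} {N K : ℕ} (h : N ≤ K) : VN ι N ≤ VN ι K :=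
  Submodule.span_mono (Set.image_mono (fun _ hn => le_trans hn h))

theorem VN_cr {ι : Type} (N : ℕ) (m : ι) (r : Fock ι) (hr : r ∈ VN ι N) : cr m r ∈ VN ι (N + 1) := by
  have : VN ι N ≤ (VN ι (N + 1)).comap (cr m) := by
    refine Submodule.span_le.2 ?_
    rintro _ ⟨n, hn, rfl⟩
    show cr m (mon n) ∈ VN ι (N + 1)
    rw [cr_mon]
    apply mon_mem
    rw [map_add, Finsupp.degree_single]
    have : Finsupp.degree n ≤ N := hn
    omega
  exact this hr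

theorem VN_an {ι : Type} (N : ℕ) (m : ι) (r : Fock ι) (hr : r ∈ VN ι (N + 1)) :
    an m r ∈ VN ι N := by
  have : VN ι (N + 1) ≤ (VN ι N).comap (an m) := by
    refine Submodule.span_le.2 ?_
    rintro _ ⟨n, hn, rfl⟩
    show an m (mon n) ∈ VN ι N
    rw [an_mon]
    by_cases h0 : n m = 0
    · rw [h0]; simp
    · apply Submodule.smul_mem
      apply mon_mem
      have h1 : Finsupp.single m 1 ≤ n := by
        rw [Finsupp.single_le_iff]; omega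
      have h2 : Finsupp.degree (n - Finsupp.single m 1) + Finsupp.degree (Finsupp.single m 1) =
          Finsupp.degree n := by
        rw [← map_add, tsub_add_cancel_of_le h1]
      rw [Finsupp.degree_single] at h2
      have : Finsupp.degree n ≤ N + 1 := hn
      omega
  exact this hr

theorem exists_VN {ι : Type} (p : Fock ι) : ∃ K, p ∈ VN ι K := by
  refine ⟨p.poly.support.sup Finsupp.degree, ?_⟩
  have h : p = ∑ n ∈ p.poly.support, (MvPolynomial.coeff n p.poly) • mon n := by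
    have h1 := MvPolynomial.support_sum_monomial_coeff p.poly
    refine Eq.trans h1.symm ?_
    refine Finset.sum_congr rfl fun n _ => ?_
    show (MvPolynomial.monomial n (MvPolynomial.coeff n p.poly) : MvPolynomial ι ℂ) =
      (MvPolynomial.coeff n p.poly) • (MvPolynomial.monomial n (1 : ℂ) : MvPolynomial ι ℂ)
    rw [MvPolynomial.smul_monomial]; simp
  rw [h]
  refine Submodule.sum_mem _ fun n hn => Submodule.smul_mem _ _ ?_
  apply mon_mem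
  rw [← h]
  exact Finset.le_sup (f := Finsupp.degree) hn

instance VN_fin {ι : Type} [Finite ι] (N : ℕ) : FiniteDimensional ℂ (VN ι N) :=
  FiniteDimensional.span_of_finite ℂ ((Finsupp.finite_of_degree_le N).image _)

theorem gauss_int {ι : Type} [Fintype ι] (c : ℝ) (hc : 0 < c) :
    Integrable (fun q : ι → ℝ => Real.exp (-c * ∑ m, q m ^ 2)) := by
  have h := Integrable.fintype_prod (μ := fun _ : ι => (volume : Measure ℝ))
    (f := fun (_ : ι) (x : ℝ) => Real.exp (-c * x ^ 2))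
    (fun _ => integrable_exp_neg_mul_sq hc)
  refine (h.congr (Filter.Eventually.of_forall fun q => ?_))
  simp only
  rw [← Real.exp_sum, Finset.mul_sum]

theorem memLp_of_decay {ι : Type} [Fintype ι] (f : (ι → ℝ) → ℂ) (hf : Continuous f)
    (C c : ℝ) (hc : 0 < c) (h : ∀ q, ‖f q‖ ≤ C * Real.exp (-c * ∑ m, q m ^ 2)) :
    MemLp f 2 := by
  have hm : AEStronglyMeasurable f volume := hf.aestronglyMeasurable
  rw [memLp_two_iff_integrable_sq_norm hm]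
  have h1 := (gauss_int (ι := ι) (2 * c) (by positivity)).const_mul (C ^ 2)
  refine h1.mono' (hf.norm.pow 2).aestronglyMeasurable (Filter.Eventually.of_forall fun q => ?_)
  have h2 := h q
  rw [Real.norm_eq_abs, abs_of_nonneg (by positivity)]
  calc ‖f q‖ ^ 2 ≤ (C * Real.exp (-c * ∑ m, q m ^ 2)) ^ 2 := by
        exact pow_le_pow_left₀ (norm_nonneg _) h2 2
    _ = C ^ 2 * Real.exp (-(2 * c) * ∑ m, q m ^ 2) := by
        rw [mul_pow, ← Real.exp_nat_mul]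
        congr 2
        push_cast
        ring

section
variable {ι : Type} [Fintype ι] [DecidableEq ι] {ω : ι → ℝ} {J : Fock ι →ₗ[ℂ] ((ι → ℝ) → ℂ)}

theorem memLp_J (hJ : IsHermite0 ω J) (p : Fock ι) : MemLp (J p) 2 := by
  obtain ⟨C, c, hc, h⟩ := hJ.decay p
  exact memLp_of_decay _ (hJ.smooth p).continuous C c hc h

theorem memLp_cs (f : (ι → ℝ) → ℂ) (hf : Continuous f) (hc : HasCompactSupport f) :
    MemLp f 2 := hf.memLp_of_hasCompactSupport hc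

end



section
variable {ι : Type} [Fintype ι]

theorem int_mul (f g : (ι → ℝ) → ℂ) (hf : MemLp f 2) (hg : MemLp g 2) :
    Integrable (fun q => (starRingEnd ℂ) (f q) * g q) := by
  have h := hf.star.integrable_mul hg
  exact h

theorem int_sq {X : Type} [MeasureSpace X] (f : X → ℂ) (hf : MemLp f 2) :
    Integrable (fun q => ‖f q‖ ^ 2) :=
  (memLp_two_iff_integrable_sq_norm hf.1).1 hf

theorem best_approx {J : Fock ι →ₗ[ℂ] ((ι → ℝ) → ℂ)} (hJ2 : ∀ p, MemLp (J p) 2)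
    (f : (ι → ℝ) → ℂ) (hf : MemLp f 2) (V : Submodule ℂ (Fock ι)) (p r : Fock ι) (hp : p ∈ V)
    (hr : r ∈ V) (horth : ∀ s ∈ V, ∫ q, (starRingEnd ℂ) (J s q) * (f q - J p q) = 0) :
    ∫ q, ‖f q - J p q‖ ^ 2 ≤ ∫ q, ‖f q - J r q‖ ^ 2 := by
  have hg : MemLp (fun q => f q - J p q) 2 := hf.sub (hJ2 p)
  have h1 : ∀ q, ‖f q - J r q‖ ^ 2 = ‖f q - J p q‖ ^ 2 +
      (2 * ((starRingEnd ℂ) (J (p - r) q) * (f q - J p q)).re + ‖J (p - r) q‖ ^ 2) := by
    intro q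
    have e : f q - J r q = (f q - J p q) + J (p - r) q := by
      rw [map_sub, Pi.sub_apply]; ring
    rw [e, ← Complex.normSq_eq_norm_sq, ← Complex.normSq_eq_norm_sq, ← Complex.normSq_eq_norm_sq,
      Complex.normSq_add]
    rw [mul_comm ((starRingEnd ℂ) (J (p - r) q))]
    ring
  simp_rw [h1]
  have hi1 := int_sq _ hg
  have hi2 := int_mul _ _ (hJ2 (p - r)) hg
  have hi3 := int_sq _ (hJ2 (p - r))
  have hi2' : Integrable (fun q => 2 * ((starRingEnd ℂ) (J (p - r) q) * (f q - J p q)).re) :=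
    hi2.re.const_mul 2
  have hadd : Integrable (fun q => 2 * ((starRingEnd ℂ) (J (p - r) q) * (f q - J p q)).re +
      ‖J (p - r) q‖ ^ 2) := hi2'.add hi3
  rw [integral_add hi1 hadd, integral_add hi2' hi3, integral_const_mul]
  have h2 : ∫ q, ((starRingEnd ℂ) (J (p - r) q) * (f q - J p q)).re = 0 := by
    have := integral_re hi2
    simp only [RCLike.re_to_complex] at this
    rw [this, horth _ (V.sub_mem hp hr)]
    simp
  rw [h2]
  have h3 : 0 ≤ ∫ q, ‖J (p - r) q‖ ^ 2 := integral_nonneg fun q => by positivity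
  linarith

theorem conv_pt {J : Fock ι →ₗ[ℂ] ((ι → ℝ) → ℂ)} (hJ2 : ∀ p, MemLp (J p) 2) (hd : IsDense J)
    (f : (ι → ℝ) → ℂ) (hf : Continuous f) (hfc : HasCompactSupport f) (M : ℕ → ℕ)
    (hM : Filter.Tendsto M Filter.atTop Filter.atTop) (p : ℕ → Fock ι)
    (hp : ∀ N, p N ∈ VN ι (M N))
    (horth : ∀ N, ∀ s ∈ VN ι (M N), ∫ q, (starRingEnd ℂ) (J s q) * (f q - J (p N) q) = 0) :
    Filter.Tendsto (fun N => ∫ q, ‖f q - J (p N) q‖ ^ 2) Filter.atTop (𝓝 0) := by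
  have hf2 : MemLp f 2 := hf.memLp_of_hasCompactSupport hfc
  rw [Metric.tendsto_atTop]
  intro ε hε
  obtain ⟨r, hr⟩ := hd f hf hfc (ε / 2) (by positivity)
  obtain ⟨K, hK⟩ := exists_VN r
  obtain ⟨N0, hN0⟩ := Filter.eventually_atTop.1 (hM.eventually_ge_atTop K)
  refine ⟨N0, fun N hN => ?_⟩
  have h1 := best_approx hJ2 f hf2 (VN ι (M N)) (p N) r (hp N) (VN_mono (hN0 N hN) hK) (horth N)
  have h2 : 0 ≤ ∫ q, ‖f q - J (p N) q‖ ^ 2 := integral_nonneg fun q => by positivity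
  rw [Real.dist_eq, sub_zero, abs_of_nonneg h2]
  linarith

theorem memLp_prod (c : E3 → ℂ) (hc : Continuous c) (hcc : HasCompactSupport c)
    (g : (ι → ℝ) → ℂ) (hg : MemLp g 2) :
    MemLp (fun p : E3 × (ι → ℝ) => c p.1 * g p.2) 2 := by
  have hc2 : MemLp c 2 := hc.memLp_of_hasCompactSupport hcc
  have h1 := (int_sq c hc2).mul_prod (int_sq g hg)
  have hm : AEStronglyMeasurable (fun p : E3 × (ι → ℝ) => c p.1 * g p.2)
      (volume : Measure (E3 × (ι → ℝ))) :=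
    (hc2.1.comp_fst (ν := (volume : Measure (ι → ℝ)))).mul (hg.1.comp_snd (μ := (volume : Measure E3)))
  rw [memLp_two_iff_integrable_sq_norm hm]
  refine h1.congr (Filter.Eventually.of_forall fun p => ?_)
  simp only [norm_mul, mul_pow]

theorem memLp_key {J : Fock ι →ₗ[ℂ] ((ι → ℝ) → ℂ)} (hJ2 : ∀ p, MemLp (J p) 2)
    (F : E3 × (ι → ℝ) → ℂ) (hF : Continuous F) (hFc : HasCompactSupport F)
    (d : ℕ) (c : Fin d → E3 → ℂ) (hc : ∀ i, Continuous (c i)) (hcc : ∀ i, HasCompactSupport (c i))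
    (P : Fin d → Fock ι) :
    MemLp (fun p : E3 × (ι → ℝ) => F p - ∑ i, c i p.1 * J (P i) p.2) 2 := by
  have h1 : MemLp F 2 := hF.memLp_of_hasCompactSupport hFc
  have h2 : MemLp (fun p : E3 × (ι → ℝ) => ∑ i, c i p.1 * J (P i) p.2) 2 :=
    memLp_finsetSum _ fun i _ => memLp_prod (c i) (hc i) (hcc i) _ (hJ2 _)
  exact h1.sub h2

theorem slice_cs (F : E3 × (ι → ℝ) → ℂ) (hFc : HasCompactSupport F) (x : E3) :
    HasCompactSupport (fun q => F (x, q)) := by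
  refine HasCompactSupport.of_support_subset_isCompact (hFc.isCompact.image continuous_snd) ?_
  intro q hq
  exact ⟨(x, q), subset_tsupport _ hq, rfl⟩

theorem key_conv {J : Fock ι →ₗ[ℂ] ((ι → ℝ) → ℂ)} (hJ2 : ∀ p, MemLp (J p) 2) (hd : IsDense J)
    (F : E3 × (ι → ℝ) → ℂ) (hF : Continuous F) (hFc : HasCompactSupport F)
    (d : ℕ → ℕ) (c : ∀ N, Fin (d N) → E3 → ℂ) (hc : ∀ N i, Continuous (c N i))
    (hcc : ∀ N i, HasCompactSupport (c N i))
    (P : ∀ N, Fin (d N) → Fock ι) (M : ℕ → ℕ) (hM : Filter.Tendsto M Filter.atTop Filter.atTop)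
    (hP : ∀ N i, P N i ∈ VN ι (M N))
    (horth : ∀ N x, ∀ s ∈ VN ι (M N),
      ∫ q, (starRingEnd ℂ) (J s q) * (F (x, q) - ∑ i, c N i x * J (P N i) q) = 0) :
    Filter.Tendsto (fun N => ∫ p : E3 × (ι → ℝ), ‖F p - ∑ i, c N i p.1 * J (P N i) p.2‖ ^ 2)
      Filter.atTop (𝓝 0) := by
  have hint : ∀ N, Integrable (fun p : E3 × (ι → ℝ) =>
      ‖F p - ∑ i, c N i p.1 * J (P N i) p.2‖ ^ 2) := fun N =>
    int_sq _ (memLp_key hJ2 F hF hFc (d N) (c N) (hc N) (hcc N) (P N))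
  have hfub : ∀ N, ∫ p : E3 × (ι → ℝ), ‖F p - ∑ i, c N i p.1 * J (P N i) p.2‖ ^ 2 =
      ∫ x : E3, ∫ q : ι → ℝ, ‖F (x, q) - ∑ i, c N i x * J (P N i) q‖ ^ 2 := by
    intro N
    exact integral_prod _ (hint N)
  simp_rw [hfub]
  have hFint : Integrable (fun p : E3 × (ι → ℝ) => ‖F p‖ ^ 2) :=
    int_sq _ (hF.memLp_of_hasCompactSupport hFc)
  have hpx : ∀ N x, ∀ q, J (∑ i, c N i x • P N i) q = ∑ i, c N i x * J (P N i) q := by
    intro N x q
    rw [map_sum, Finset.sum_apply]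
    refine Finset.sum_congr rfl fun i _ => ?_
    rw [map_smul, Pi.smul_apply, smul_eq_mul]
  have hmem : ∀ N x, ∑ i, c N i x • P N i ∈ VN ι (M N) := fun N x =>
    Submodule.sum_mem _ fun i _ => Submodule.smul_mem _ _ (hP N i)
  have hcont : ∀ x, Continuous (fun q => F (x, q)) := fun x => by fun_prop
  have key := tendsto_integral_of_dominated_convergence
    (μ := (volume : Measure E3))
    (F := fun N x => ∫ q : ι → ℝ, ‖F (x, q) - ∑ i, c N i x * J (P N i) q‖ ^ 2)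
    (f := fun _ => (0 : ℝ)) (fun x => ∫ q : ι → ℝ, ‖F (x, q)‖ ^ 2)
    (fun N => (Integrable.integral_prod_left (hint N)).1)
    (Integrable.integral_prod_left hFint)
    (fun N => Filter.Eventually.of_forall fun x => by
      have h1 := best_approx hJ2 (fun q => F (x, q))
        ((hcont x).memLp_of_hasCompactSupport (slice_cs F hFc x)) (VN ι (M N))
        (∑ i, c N i x • P N i) 0 (hmem N x) (Submodule.zero_mem _) (by
          intro s hs
          simp_rw [hpx]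
          exact horth N x s hs)
      simp_rw [hpx] at h1
      rw [Real.norm_eq_abs, abs_of_nonneg (integral_nonneg fun q => by positivity)]
      simpa using h1)
    (Filter.Eventually.of_forall fun x => by
      have h1 := conv_pt hJ2 hd (fun q => F (x, q)) (hcont x) (slice_cs F hFc x) M hM
        (fun N => ∑ i, c N i x • P N i) (fun N => hmem N x) (by
          intro N s hs
          simp_rw [hpx]
          exact horth N x s hs)
      simp_rw [hpx] at h1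
      exact h1)
  simpa using key

end



section
variable {ι : Type} [Fintype ι]

/-- a coefficient function -/
noncomputable def coef (w : (ι → ℝ) → ℂ) (Ψ : E3 × (ι → ℝ) → ℂ) (x : E3) : ℂ :=
  ∫ q, w q * Ψ (x, q)

theorem coef_contDiff (w : (ι → ℝ) → ℂ) (hw : Continuous w) (Ψ : E3 × (ι → ℝ) → ℂ)
    (hΨ : ContDiff ℝ SM Ψ) (hc : HasCompactSupport Ψ) : ContDiff ℝ SM (coef w Ψ) := by
  have h := contDiffOn_convolution_right_with_param (𝕜 := ℝ) (μ := (volume : Measure (ι → ℝ)))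
    (f := w) (n := ⊤) (ContinuousLinearMap.mul ℝ ℂ)
    (g := fun (x : E3) (t : ι → ℝ) => Ψ (x, -t)) (s := Set.univ)
    (k := (fun p : E3 × (ι → ℝ) => -p.2) '' tsupport Ψ) isOpen_univ
    (hc.isCompact.image (by fun_prop))
    (by
      intro x t _ ht
      by_contra hne
      apply ht
      refine ⟨(x, -t), subset_tsupport _ hne, ?_⟩
      simp)
    hw.locallyIntegrable
    (by
      apply ContDiff.contDiffOn
      have h1 : ContDiff ℝ SM (fun p : E3 × (ι → ℝ) => (p.1, -p.2)) := by fun_prop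
      exact hΨ.comp h1)
  rw [Set.univ_prod_univ, contDiffOn_univ] at h
  have h2 : ContDiff ℝ SM (fun x : E3 => (x, (0 : ι → ℝ))) := by fun_prop
  have h3 := h.comp h2
  convert h3 using 1
  funext x
  simp [coef, convolution]

theorem coef_cs (w : (ι → ℝ) → ℂ) (Ψ : E3 × (ι → ℝ) → ℂ)
    (hc : HasCompactSupport Ψ) : HasCompactSupport (coef w Ψ) := by
  refine HasCompactSupport.of_support_subset_isCompact (hc.isCompact.image continuous_fst) ?_
  intro x hx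
  by_contra hne
  apply hx
  have : ∀ q, Ψ (x, q) = 0 := by
    intro q
    by_contra h0
    exact hne ⟨(x, q), subset_tsupport _ h0, rfl⟩
  simp [coef, this]

theorem coef_fderiv (w : (ι → ℝ) → ℂ) (hw : Continuous w) (Ψ : E3 × (ι → ℝ) → ℂ)
    (hΨ : ContDiff ℝ SM Ψ) (hc : HasCompactSupport Ψ) (x v : E3) :
    fderiv ℝ (coef w Ψ) x v = coef w (fun p => fderiv ℝ Ψ p (v, 0)) x := by
  have hd : Differentiable ℝ Ψ := hΨ.differentiable (by simp [SM])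
  have hfc : Continuous (fderiv ℝ Ψ) := hΨ.continuous_fderiv (by simp [SM])
  have hfcs : HasCompactSupport (fderiv ℝ Ψ) := hc.fderiv (𝕜 := ℝ)
  obtain ⟨C, hC⟩ := hfcs.exists_bound_of_continuous hfc
  set K : Set (ι → ℝ) := Prod.snd '' tsupport Ψ with hK
  have hKc : IsCompact K := hc.isCompact.image continuous_snd
  have hzero : ∀ x q, q ∉ K → fderiv ℝ Ψ (x, q) = 0 := by
    intro x q hq
    by_contra hne
    apply hq
    exact ⟨(x, q), support_fderiv_subset ℝ hne, rfl⟩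
  let F' : E3 → (ι → ℝ) → (E3 →L[ℝ] ℂ) := fun x q =>
    w q • (fderiv ℝ Ψ (x, q)).comp (ContinuousLinearMap.inl ℝ E3 (ι → ℝ))
  have hF'c : ∀ x, Continuous (F' x) := by
    intro x
    have h1 : Continuous (fun q : ι → ℝ => fderiv ℝ Ψ (x, q)) := hfc.comp (by fun_prop)
    exact hw.smul (h1.clm_comp continuous_const)
  set B : (ι → ℝ) → ℝ := K.indicator (fun q => ‖w q‖ * (C * ‖ContinuousLinearMap.inl ℝ E3 (ι → ℝ)‖))
    with hB
  have hBint : Integrable B := by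
    rw [hB, integrable_indicator_iff hKc.measurableSet]
    exact (Continuous.continuousOn (by fun_prop)).integrableOn_compact hKc
  have hbound : ∀ q x, ‖F' x q‖ ≤ B q := by
    intro q x
    by_cases hq : q ∈ K
    · rw [hB, Set.indicator_of_mem hq]
      simp only [F']
      rw [norm_smul]
      refine mul_le_mul_of_nonneg_left ?_ (norm_nonneg _)
      refine (ContinuousLinearMap.opNorm_comp_le _ _).trans ?_
      exact mul_le_mul_of_nonneg_right (hC _) (norm_nonneg _)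
    · rw [hB, Set.indicator_of_notMem hq]
      simp only [F']
      rw [hzero x q hq, ContinuousLinearMap.zero_comp]
      have h0 : w q • (0 : E3 →L[ℝ] ℂ) = 0 := by
        ext v
        rw [ContinuousLinearMap.smul_apply, ContinuousLinearMap.zero_apply]
        exact mul_zero _
      rw [h0, norm_zero]
  have hmain : HasFDerivAt (fun x => ∫ q, w q * Ψ (x, q)) (∫ q, F' x q) x := by
    refine hasFDerivAt_integral_of_dominated_of_fderiv_le (F' := F') (bound := B)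
      (s := Set.univ) Filter.univ_mem ?_ ?_ ?_ ?_ hBint ?_
    · refine Filter.Eventually.of_forall fun x => ?_
      have hcont : Continuous (fun q => w q * Ψ (x, q)) := hw.mul (hd.continuous.comp (by fun_prop))
      exact hcont.aestronglyMeasurable
    · have hcont : Continuous (fun q => w q * Ψ (x, q)) := hw.mul (hd.continuous.comp (by fun_prop))
      exact hcont.integrable_of_hasCompactSupport (slice_cs Ψ hc x).mul_left
    · exact (hF'c x).aestronglyMeasurable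
    · exact Filter.Eventually.of_forall fun q x _ => hbound q x
    · refine Filter.Eventually.of_forall fun q x _ => ?_
      have h1 : HasFDerivAt (fun x : E3 => (x, q)) (ContinuousLinearMap.inl ℝ E3 (ι → ℝ)) x :=
        hasFDerivAt_prodMk_left x q
      have h2 := (hd (x, q)).hasFDerivAt.comp x h1
      exact h2.const_mul (w q)
  have hint : Integrable (F' x) := hBint.mono' (hF'c x).aestronglyMeasurable
    (Filter.Eventually.of_forall fun q => hbound q x)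
  have h3 : fderiv ℝ (coef w Ψ) x = ∫ q, F' x q := hmain.fderiv
  rw [h3, ContinuousLinearMap.integral_apply hint]
  simp only [coef, F']
  refine integral_congr_ae (Filter.Eventually.of_forall fun q => ?_)
  simp

end



section
variable {ι : Type} [Fintype ι] [DecidableEq ι] {ω : ι → ℝ} {J : Fock ι →ₗ[ℂ] ((ι → ℝ) → ℂ)}

/-- an orthonormal basis of the vectors with at most `N` particles -/
noncomputable def eb (ι : Type) [Fintype ι] (N : ℕ)
    (i : Fin (Module.finrank ℂ (VN ι N))) : Fock ι :=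
  ((stdOrthonormalBasis ℂ (VN ι N) i : VN ι N) : Fock ι)

theorem eb_mem (N : ℕ) (i : Fin (Module.finrank ℂ (VN ι N))) : eb ι N i ∈ VN ι N :=
  (stdOrthonormalBasis ℂ (VN ι N) i).2

theorem eb_inner (N : ℕ) (i k : Fin (Module.finrank ℂ (VN ι N))) :
    inner ℂ (eb ι N i) (eb ι N k) = if i = k then (1 : ℂ) else 0 := by
  have h := (orthonormal_iff_ite.1 (stdOrthonormalBasis ℂ (VN ι N)).orthonormal) i k
  rw [Submodule.coe_inner] at h
  exact h

theorem eb_span (N : ℕ) (s : Fock ι) (hs : s ∈ VN ι N) :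
    ∃ a : Fin (Module.finrank ℂ (VN ι N)) → ℂ, s = ∑ i, a i • eb ι N i := by
  have h := (stdOrthonormalBasis ℂ (VN ι N)).sum_repr ⟨s, hs⟩
  refine ⟨fun i => (stdOrthonormalBasis ℂ (VN ι N)).repr ⟨s, hs⟩ i, ?_⟩
  have h2 := congrArg (fun v : VN ι N => (v : Fock ι)) h
  simp only [Submodule.coe_sum, Submodule.coe_smul] at h2
  exact h2.symm

theorem J_sum (J : Fock ι →ₗ[ℂ] ((ι → ℝ) → ℂ)) {d : ℕ} (a : Fin d → ℂ) (P : Fin d → Fock ι)
    (q : ι → ℝ) : J (∑ i, a i • P i) q = ∑ i, a i * J (P i) q := by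
  rw [map_sum, Finset.sum_apply]
  refine Finset.sum_congr rfl fun i _ => ?_
  rw [map_smul, Pi.smul_apply, smul_eq_mul]

theorem orth_basic (hJ : IsHermite0 ω J) (N : ℕ) (f : (ι → ℝ) → ℂ) (hf : MemLp f 2)
    (s : Fock ι) (hs : s ∈ VN ι N) :
    ∫ q, (starRingEnd ℂ) (J s q) *
      (f q - ∑ i, (∫ q', (starRingEnd ℂ) (J (eb ι N i) q') * f q') * J (eb ι N i) q) = 0 := by
  have hJ2 : ∀ p, MemLp (J p) 2 := fun p => memLp_J hJ p
  set c : Fin (Module.finrank ℂ (VN ι N)) → ℂ :=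
    fun i => ∫ q', (starRingEnd ℂ) (J (eb ι N i) q') * f q' with hc
  change ∫ q, (starRingEnd ℂ) (J s q) * (f q - ∑ i, c i * J (eb ι N i) q) = 0
  have hg : MemLp (fun q => f q - ∑ i, c i * J (eb ι N i) q) 2 := by
    refine hf.sub ?_
    have : (fun q => ∑ i, c i * J (eb ι N i) q) = J (∑ i, c i • eb ι N i) := by
      funext q
      rw [J_sum]
    rw [this]
    exact hJ2 _
  have hk : ∀ k, ∫ q, (starRingEnd ℂ) (J (eb ι N k) q) *
      (f q - ∑ i, c i * J (eb ι N i) q) = 0 := by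
    intro k
    have e1 : ∀ q, (starRingEnd ℂ) (J (eb ι N k) q) * (f q - ∑ i, c i * J (eb ι N i) q) =
        (starRingEnd ℂ) (J (eb ι N k) q) * f q -
          ∑ i, c i * ((starRingEnd ℂ) (J (eb ι N k) q) * J (eb ι N i) q) := by
      intro q
      rw [mul_sub, Finset.mul_sum]
      congr 1
      refine Finset.sum_congr rfl fun i _ => ?_
      ring
    simp_rw [e1]
    rw [integral_sub (int_mul _ _ (hJ2 _) hf)
      (integrable_finsetSum _ fun i _ => (int_mul _ _ (hJ2 _) (hJ2 _)).const_mul _),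
      integral_finsetSum _ fun i _ => (int_mul _ _ (hJ2 _) (hJ2 _)).const_mul _]
    simp_rw [integral_const_mul, hJ.isom, eb_inner]
    simp [hc]
  obtain ⟨a, ha⟩ := eb_span N s hs
  have e2 : ∀ q, (starRingEnd ℂ) (J s q) * (f q - ∑ i, c i * J (eb ι N i) q) =
      ∑ k, (starRingEnd ℂ) (a k) * ((starRingEnd ℂ) (J (eb ι N k) q) *
        (f q - ∑ i, c i * J (eb ι N i) q)) := by
    intro q
    rw [ha, J_sum, map_sum, Finset.sum_mul]
    refine Finset.sum_congr rfl fun k _ => ?_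
    rw [map_mul, mul_assoc]
  simp_rw [e2]
  rw [integral_finsetSum _ fun k _ => (int_mul _ _ (hJ2 _) hg).const_mul _]
  simp_rw [integral_const_mul, hk]
  simp

theorem fderiv_conj (g : (ι → ℝ) → ℂ) (hg : Differentiable ℝ g) (q v : ι → ℝ) :
    fderiv ℝ (fun q => (starRingEnd ℂ) (g q)) q v = (starRingEnd ℂ) (fderiv ℝ g q v) := by
  have h := (Complex.conjCLE.toContinuousLinearMap.hasFDerivAt (x := g q)).comp q
    (hg q).hasFDerivAt
  have h2 : fderiv ℝ (fun q => (starRingEnd ℂ) (g q)) q =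
      (Complex.conjCLE.toContinuousLinearMap).comp (fderiv ℝ g q) := h.fderiv
  rw [h2]
  simp

theorem qJ (hω : ∀ m, 0 < ω m) (hJ : IsHermite0 ω J) (m : ι) (s : Fock ι) (q : ι → ℝ) :
    ((Real.sqrt (ω m) * q m : ℝ) : ℂ) * J s q =
      J ((((Real.sqrt 2 : ℝ) : ℂ) / 2) • (cr m s + an m s)) q := by
  have h1 := hJ.crea s m q
  have h2 := hJ.anni s m q
  rw [map_smul, map_add, Pi.smul_apply, Pi.add_apply, smul_eq_mul]
  linear_combination (1 / 2 : ℂ) * h1 + (1 / 2 : ℂ) * h2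

theorem dJ (hω : ∀ m, 0 < ω m) (hJ : IsHermite0 ω J) (m : ι) (s : Fock ι) (q : ι → ℝ) :
    ((1 / Real.sqrt (ω m) : ℝ) : ℂ) * fderiv ℝ (J s) q (Pi.single m 1) =
      J ((((Real.sqrt 2 : ℝ) : ℂ) / 2) • (an m s - cr m s)) q := by
  have h1 := hJ.crea s m q
  have h2 := hJ.anni s m q
  rw [map_smul, map_sub, Pi.smul_apply, Pi.sub_apply, smul_eq_mul]
  linear_combination (-1 / 2 : ℂ) * h1 + (1 / 2 : ℂ) * h2

theorem dJ' (hω : ∀ m, 0 < ω m) (hJ : IsHermite0 ω J) (m : ι) (s : Fock ι) :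
    (fun q => fderiv ℝ (J s) q (Pi.single m 1)) =
      J ((((Real.sqrt (ω m) : ℝ) : ℂ) * (((Real.sqrt 2 : ℝ) : ℂ) / 2)) • (an m s - cr m s)) := by
  funext q
  have h := dJ hω hJ m s q
  have h0 : ((Real.sqrt (ω m) : ℝ) : ℂ) ≠ 0 := by
    exact_mod_cast (Real.sqrt_pos.2 (hω m)).ne'
  rw [mul_smul, map_smul, Pi.smul_apply, ← h, smul_eq_mul, ← mul_assoc]
  push_cast
  rw [mul_one_div_cancel h0, one_mul]

/-- the adjoint relations -/
theorem adj (hω : ∀ m, 0 < ω m) (hJ : IsHermite0 ω J) (m : ι) (s : Fock ι) (f : (ι → ℝ) → ℂ)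
    (hf : Differentiable ℝ f) (hf2 : MemLp f 2)
    (hfd : MemLp (fun q => fderiv ℝ f q (Pi.single m 1)) 2)  (σ : ℝ) (T : Fock ι →ₗ[ℂ] Fock ι)
    (hT : ∀ q, ((Real.sqrt (ω m) * q m : ℝ) : ℂ) * J s q -
      ((σ * (1 / Real.sqrt (ω m)) : ℝ) : ℂ) * fderiv ℝ (J s) q (Pi.single m 1) =
      ((Real.sqrt 2 : ℝ) : ℂ) * J (T s) q) :
    ∫ q, (starRingEnd ℂ) (J s q) * (((Real.sqrt (ω m) * q m : ℝ) : ℂ) * f q +
      ((σ * (1 / Real.sqrt (ω m)) : ℝ) : ℂ) * fderiv ℝ f q (Pi.single m 1)) =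
    ((Real.sqrt 2 : ℝ) : ℂ) * ∫ q, (starRingEnd ℂ) (J (T s) q) * f q := by
  have hJ2 : ∀ p, MemLp (J p) 2 := fun p => memLp_J hJ p
  have hJd : Differentiable ℝ (J s) := (hJ.smooth s).differentiable (by simp [SM])
  have hJs : MemLp (fun q => fderiv ℝ (J s) q (Pi.single m 1)) 2 := by
    rw [dJ' hω hJ m s]
    exact hJ2 _
  have hcd : Differentiable ℝ (fun q => (starRingEnd ℂ) (J s q)) := by
    intro q
    exact ((Complex.conjCLE.toContinuousLinearMap.hasFDerivAt (x := J s q)).comp q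
      (hJd q).hasFDerivAt).differentiableAt
  have ibp := integral_mul_fderiv_eq_neg_fderiv_mul_of_integrable
    (μ := (volume : Measure (ι → ℝ))) (f := fun q => (starRingEnd ℂ) (J s q)) (g := f)
    (v := Pi.single m 1)
    (by
      simp_rw [fderiv_conj (J s) hJd]
      exact int_mul _ _ hJs hf2)
    (int_mul _ _ (hJ2 s) hfd) (int_mul _ _ (hJ2 s) hf2) (fun q _ => hcd q) (fun q _ => hf q)
  simp_rw [fderiv_conj (J s) hJd] at ibp
  have hq : (fun q => ((Real.sqrt (ω m) * q m : ℝ) : ℂ) * J s q) =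
      J ((((Real.sqrt 2 : ℝ) : ℂ) / 2) • (cr m s + an m s)) := by
    funext q
    exact qJ hω hJ m s q
  have hqi : Integrable (fun q => (starRingEnd ℂ) (((Real.sqrt (ω m) * q m : ℝ) : ℂ) * J s q) * f q) := by
    have := int_mul _ _ (hJ2 ((((Real.sqrt 2 : ℝ) : ℂ) / 2) • (cr m s + an m s))) hf2
    rw [← hq] at this
    exact this
  have e1 : ∀ q, (starRingEnd ℂ) (J s q) * (((Real.sqrt (ω m) * q m : ℝ) : ℂ) * f q +
      ((σ * (1 / Real.sqrt (ω m)) : ℝ) : ℂ) * fderiv ℝ f q (Pi.single m 1)) =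
      (starRingEnd ℂ) (((Real.sqrt (ω m) * q m : ℝ) : ℂ) * J s q) * f q +
      ((σ * (1 / Real.sqrt (ω m)) : ℝ) : ℂ) *
        ((starRingEnd ℂ) (J s q) * fderiv ℝ f q (Pi.single m 1)) := by
    intro q
    rw [map_mul, Complex.conj_ofReal]
    ring
  simp_rw [e1]
  rw [integral_add hqi ((int_mul _ _ (hJ2 s) hfd).const_mul _), integral_const_mul, ibp, mul_neg,
    ← integral_const_mul, ← sub_eq_add_neg, ← integral_sub hqi
      ((int_mul _ _ hJs hf2).const_mul _), ← integral_const_mul]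
  refine integral_congr_ae (Filter.Eventually.of_forall fun q => ?_)
  simp only
  have h := congrArg (starRingEnd ℂ) (hT q)
  rw [map_sub, map_mul (starRingEnd ℂ) ((σ * (1 / Real.sqrt (ω m)) : ℝ) : ℂ),
    map_mul (starRingEnd ℂ) ((Real.sqrt 2 : ℝ) : ℂ), Complex.conj_ofReal, Complex.conj_ofReal] at h
  linear_combination (f q) * h

end



section
variable {ι : Type} [Fintype ι]

/-- the coefficients of the projection -/
noncomputable def cc (J : Fock ι →ₗ[ℂ] ((ι → ℝ) → ℂ)) (Ψ : E3 × (ι → ℝ) → ℂ) (N : ℕ)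
    (i : Fin (Module.finrank ℂ (VN ι (N + 1)))) : E3 → ℂ :=
  coef (fun q => (starRingEnd ℂ) (J (eb ι (N + 1) i) q)) Ψ

/-- the residual of the projection -/
noncomputable def DD (J : Fock ι →ₗ[ℂ] ((ι → ℝ) → ℂ)) (Ψ : E3 × (ι → ℝ) → ℂ) (N : ℕ)
    (p : E3 × (ι → ℝ)) : ℂ :=
  Ψ p - ∑ i, cc J Ψ N i p.1 * J (eb ι (N + 1) i) p.2

theorem slice_fderiv (D : E3 × (ι → ℝ) → ℂ) (hD : Differentiable ℝ D) (x : E3) (q v : ι → ℝ) :
    fderiv ℝ (fun q => D (x, q)) q v = fderiv ℝ D (x, q) (0, v) := by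
  have h1 : HasFDerivAt (fun q : ι → ℝ => (x, q)) (ContinuousLinearMap.inr ℝ E3 (ι → ℝ)) q :=
    hasFDerivAt_prodMk_right x q
  have h2 := (hD (x, q)).hasFDerivAt.comp q h1
  have h3 : fderiv ℝ (fun q => D (x, q)) q =
      (fderiv ℝ D (x, q)).comp (ContinuousLinearMap.inr ℝ E3 (ι → ℝ)) := h2.fderiv
  rw [h3]
  simp

theorem dir_cs (Ψ : E3 × (ι → ℝ) → ℂ) (hc : HasCompactSupport Ψ) (w : E3 × (ι → ℝ)) :
    HasCompactSupport (fun p => fderiv ℝ Ψ p w) := hc.fderiv_apply (𝕜 := ℝ) w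

theorem dir_smooth (Ψ : E3 × (ι → ℝ) → ℂ) (hΨ : ContDiff ℝ SM Ψ) (w : E3 × (ι → ℝ)) :
    ContDiff ℝ SM (fun p => fderiv ℝ Ψ p w) := by
  have h : ContDiff ℝ SM (fderiv ℝ Ψ) := hΨ.fderiv_right (by simp [SM])
  exact h.clm_apply contDiff_const

end

section
variable {ι : Type} [Fintype ι] [DecidableEq ι] {ω : ι → ℝ} {J : Fock ι →ₗ[ℂ] ((ι → ℝ) → ℂ)}

theorem w_cont (hJ : IsHermite0 ω J) (s : Fock ι) :
    Continuous (fun q => (starRingEnd ℂ) (J s q)) :=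
  Complex.continuous_conj.comp (hJ.smooth s).continuous

theorem cc_smooth (hJ : IsHermite0 ω J) (Ψ : E3 × (ι → ℝ) → ℂ) (hΨ : ContDiff ℝ SM Ψ)
    (hΨc : HasCompactSupport Ψ) (N : ℕ) (i : Fin (Module.finrank ℂ (VN ι (N + 1)))) :
    ContDiff ℝ SM (cc J Ψ N i) := coef_contDiff _ (w_cont hJ _) Ψ hΨ hΨc

theorem DD_smooth (hJ : IsHermite0 ω J) (Ψ : E3 × (ι → ℝ) → ℂ) (hΨ : ContDiff ℝ SM Ψ)
    (hΨc : HasCompactSupport Ψ) (N : ℕ) : ContDiff ℝ SM (DD J Ψ N) := by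
  refine hΨ.sub (ContDiff.sum fun i _ => ?_)
  exact ((cc_smooth hJ Ψ hΨ hΨc N i).comp contDiff_fst).mul ((hJ.smooth _).comp contDiff_snd)

theorem DD_fderiv (hJ : IsHermite0 ω J) (Ψ : E3 × (ι → ℝ) → ℂ) (hΨ : ContDiff ℝ SM Ψ)
    (hΨc : HasCompactSupport Ψ) (N : ℕ) (p w : E3 × (ι → ℝ)) :
    fderiv ℝ (DD J Ψ N) p w = fderiv ℝ Ψ p w -
      ∑ i, (cc J Ψ N i p.1 * fderiv ℝ (J (eb ι (N + 1) i)) p.2 w.2 +
        J (eb ι (N + 1) i) p.2 * fderiv ℝ (cc J Ψ N i) p.1 w.1) := by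
  have hd : Differentiable ℝ Ψ := hΨ.differentiable (by simp [SM])
  have hcd : ∀ i, Differentiable ℝ (cc J Ψ N i) := fun i =>
    (cc_smooth hJ Ψ hΨ hΨc N i).differentiable (by simp [SM])
  have hJd : ∀ s, Differentiable ℝ (J s) := fun s => (hJ.smooth s).differentiable (by simp [SM])
  have h1 : ∀ i, HasFDerivAt (fun p : E3 × (ι → ℝ) => cc J Ψ N i p.1 * J (eb ι (N + 1) i) p.2)
      (cc J Ψ N i p.1 • (fderiv ℝ (J (eb ι (N + 1) i)) p.2).comp
        (ContinuousLinearMap.snd ℝ E3 (ι → ℝ)) +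
       J (eb ι (N + 1) i) p.2 • (fderiv ℝ (cc J Ψ N i) p.1).comp
        (ContinuousLinearMap.fst ℝ E3 (ι → ℝ))) p := by
    intro i
    exact ((hcd i p.1).hasFDerivAt.comp p hasFDerivAt_fst).mul
      ((hJd _ p.2).hasFDerivAt.comp p hasFDerivAt_snd)
  have h2 : HasFDerivAt (DD J Ψ N) _ p :=
    (hd p).hasFDerivAt.sub (HasFDerivAt.fun_sum (u := Finset.univ) fun i _ => h1 i)
  rw [h2.fderiv]
  simp

theorem DD_fst (hJ : IsHermite0 ω J) (Ψ : E3 × (ι → ℝ) → ℂ) (hΨ : ContDiff ℝ SM Ψ)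
    (hΨc : HasCompactSupport Ψ) (N : ℕ) (p : E3 × (ι → ℝ)) (v : E3) :
    fderiv ℝ (DD J Ψ N) p (v, 0) = DD J (fun p => fderiv ℝ Ψ p (v, 0)) N p := by
  rw [DD_fderiv hJ Ψ hΨ hΨc]
  unfold DD
  congr 1
  refine Finset.sum_congr rfl fun i _ => ?_
  have h := coef_fderiv (fun q => (starRingEnd ℂ) (J (eb ι (N + 1) i) q)) (w_cont hJ _) Ψ hΨ hΨc
    p.1 v
  simp only [map_zero, mul_zero, zero_add]
  unfold cc
  rw [h, mul_comm]

theorem DD_snd (hJ : IsHermite0 ω J) (Ψ : E3 × (ι → ℝ) → ℂ) (hΨ : ContDiff ℝ SM Ψ)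
    (hΨc : HasCompactSupport Ψ) (N : ℕ) (p : E3 × (ι → ℝ)) (v : ι → ℝ) :
    fderiv ℝ (DD J Ψ N) p (0, v) = fderiv ℝ Ψ p (0, v) -
      ∑ i, cc J Ψ N i p.1 * fderiv ℝ (J (eb ι (N + 1) i)) p.2 v := by
  rw [DD_fderiv hJ Ψ hΨ hΨc]
  simp

theorem DD_orth (hJ : IsHermite0 ω J) (Ψ : E3 × (ι → ℝ) → ℂ) (hΨ : Continuous Ψ)
    (hΨc : HasCompactSupport Ψ) (N : ℕ) (x : E3) (s : Fock ι) (hs : s ∈ VN ι (N + 1)) :
    ∫ q, (starRingEnd ℂ) (J s q) * DD J Ψ N (x, q) = 0 := by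
  have hcont : Continuous (fun q => Ψ (x, q)) := by fun_prop
  exact orth_basic hJ (N + 1) (fun q => Ψ (x, q))
    (hcont.memLp_of_hasCompactSupport (slice_cs Ψ hΨc x)) s hs

/-- convergence of the residuals -/
theorem DD_conv (hJ : IsHermite0 ω J) (hd : IsDense J) (Ψ : E3 × (ι → ℝ) → ℂ)
    (hΨ : ContDiff ℝ SM Ψ) (hΨc : HasCompactSupport Ψ) :
    Filter.Tendsto (fun N => ∫ p, ‖DD J Ψ N p‖ ^ 2) Filter.atTop (𝓝 0) := by
  refine key_conv (fun p => memLp_J hJ p) hd Ψ hΨ.continuous hΨc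
    (fun N => Module.finrank ℂ (VN ι (N + 1))) (fun N i => cc J Ψ N i)
    (fun N i => (cc_smooth hJ Ψ hΨ hΨc N i).continuous) (fun N i => coef_cs _ Ψ hΨc)
    (fun N i => eb ι (N + 1) i) (fun N => N + 1) (Filter.tendsto_add_atTop_nat 1)
    (fun N i => eb_mem (N + 1) i) (fun N x s hs => DD_orth hJ Ψ hΨ.continuous hΨc N x s hs)

theorem DD_memLp (hJ : IsHermite0 ω J) (Ψ : E3 × (ι → ℝ) → ℂ)
    (hΨ : ContDiff ℝ SM Ψ) (hΨc : HasCompactSupport Ψ) (N : ℕ) : MemLp (DD J Ψ N) 2 :=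
  memLp_key (fun p => memLp_J hJ p) Ψ hΨ.continuous hΨc _ (fun i => cc J Ψ N i)
    (fun i => (cc_smooth hJ Ψ hΨ hΨc N i).continuous) (fun i => coef_cs _ Ψ hΨc)
    (fun i => eb ι (N + 1) i)

/-- the ladder operators applied to a function -/
noncomputable def lad (ω : ι → ℝ) (m : ι) (σ : ℝ) (D : E3 × (ι → ℝ) → ℂ) (p : E3 × (ι → ℝ)) : ℂ :=
  ((Real.sqrt (ω m) * p.2 m : ℝ) : ℂ) * D p +
    ((σ * (1 / Real.sqrt (ω m)) : ℝ) : ℂ) * fderiv ℝ D p (0, Pi.single m 1)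

theorem lad_cont (m : ι) (σ : ℝ) (Ψ : E3 × (ι → ℝ) → ℂ) (hΨ : ContDiff ℝ SM Ψ) :
    Continuous (lad ω m σ Ψ) := by
  have h1 : Continuous Ψ := hΨ.continuous
  have h2 : Continuous (fun p => fderiv ℝ Ψ p (0, Pi.single m 1)) := (dir_smooth Ψ hΨ _).continuous
  unfold lad
  have h3 : Continuous (fun p : E3 × (ι → ℝ) => ((Real.sqrt (ω m) * p.2 m : ℝ) : ℂ)) := by fun_prop
  exact (h3.mul h1).add (continuous_const.mul h2)

theorem lad_cs (m : ι) (σ : ℝ) (Ψ : E3 × (ι → ℝ) → ℂ) (hΨc : HasCompactSupport Ψ) :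
    HasCompactSupport (lad ω m σ Ψ) := by
  unfold lad
  have h1 : HasCompactSupport (fun p : E3 × (ι → ℝ) => ((Real.sqrt (ω m) * p.2 m : ℝ) : ℂ) * Ψ p) :=
    hΨc.mul_left
  have h2 : HasCompactSupport (fun p : E3 × (ι → ℝ) => ((σ * (1 / Real.sqrt (ω m)) : ℝ) : ℂ) *
      fderiv ℝ Ψ p (0, Pi.single m 1)) := (dir_cs Ψ hΨc _).mul_left
  exact h1.add h2

theorem lad_eq (hJ : IsHermite0 ω J) (Ψ : E3 × (ι → ℝ) → ℂ)
    (hΨ : ContDiff ℝ SM Ψ) (hΨc : HasCompactSupport Ψ) (N : ℕ) (m : ι) (σ : ℝ)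
    (T' : Fock ι →ₗ[ℂ] Fock ι)
    (hT' : ∀ s q, ((Real.sqrt (ω m) * q m : ℝ) : ℂ) * J s q +
      ((σ * (1 / Real.sqrt (ω m)) : ℝ) : ℂ) * fderiv ℝ (J s) q (Pi.single m 1) =
      ((Real.sqrt 2 : ℝ) : ℂ) * J (T' s) q) (p : E3 × (ι → ℝ)) :
    lad ω m σ Ψ p - ∑ i, cc J Ψ N i p.1 * J (((Real.sqrt 2 : ℝ) : ℂ) • T' (eb ι (N + 1) i)) p.2 =
      lad ω m σ (DD J Ψ N) p := by
  unfold lad
  rw [DD_snd hJ Ψ hΨ hΨc]
  unfold DD
  have e : ∀ i, cc J Ψ N i p.1 * J (((Real.sqrt 2 : ℝ) : ℂ) • T' (eb ι (N + 1) i)) p.2 =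
      ((Real.sqrt (ω m) * p.2 m : ℝ) : ℂ) * (cc J Ψ N i p.1 * J (eb ι (N + 1) i) p.2) +
      ((σ * (1 / Real.sqrt (ω m)) : ℝ) : ℂ) *
        (cc J Ψ N i p.1 * fderiv ℝ (J (eb ι (N + 1) i)) p.2 (Pi.single m 1)) := by
    intro i
    rw [map_smul, Pi.smul_apply, smul_eq_mul, ← hT']
    ring
  simp_rw [e]
  rw [Finset.sum_add_distrib, ← Finset.mul_sum, ← Finset.mul_sum]
  ring

theorem lad_orth (hω : ∀ m, 0 < ω m) (hJ : IsHermite0 ω J) (Ψ : E3 × (ι → ℝ) → ℂ)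
    (hΨ : ContDiff ℝ SM Ψ) (hΨc : HasCompactSupport Ψ) (N : ℕ) (m : ι) (σ : ℝ)
    (T : Fock ι →ₗ[ℂ] Fock ι)
    (hT : ∀ s q, ((Real.sqrt (ω m) * q m : ℝ) : ℂ) * J s q -
      ((σ * (1 / Real.sqrt (ω m)) : ℝ) : ℂ) * fderiv ℝ (J s) q (Pi.single m 1) =
      ((Real.sqrt 2 : ℝ) : ℂ) * J (T s) q) (x : E3) (s : Fock ι) (hs : T s ∈ VN ι (N + 1)) :
    ∫ q, (starRingEnd ℂ) (J s q) * lad ω m σ (DD J Ψ N) (x, q) = 0 := by
  have hDs := DD_smooth hJ Ψ hΨ hΨc N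
  have hDd : Differentiable ℝ (DD J Ψ N) := hDs.differentiable (by simp [SM])
  have hcont : Continuous (fun q => Ψ (x, q)) := by
    have := hΨ.continuous
    fun_prop
  have hcont2 : Continuous (fun q => fderiv ℝ Ψ (x, q) (0, Pi.single m 1)) := by
    have := (dir_smooth Ψ hΨ (0, Pi.single m 1)).continuous
    exact this.comp (by fun_prop)
  have hdS : Differentiable ℝ (fun q => DD J Ψ N (x, q)) :=
    hDd.comp (by fun_prop)
  have hS2 : MemLp (fun q => DD J Ψ N (x, q)) 2 := by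
    unfold DD
    refine (hcont.memLp_of_hasCompactSupport (slice_cs Ψ hΨc x)).sub ?_
    exact memLp_finsetSum _ fun i _ => (memLp_J hJ (eb ι (N + 1) i)).const_mul (cc J Ψ N i x)
  have hSd2 : MemLp (fun q => fderiv ℝ (fun q => DD J Ψ N (x, q)) q (Pi.single m 1)) 2 := by
    have e : (fun q => fderiv ℝ (fun q => DD J Ψ N (x, q)) q (Pi.single m 1)) =
        fun q => fderiv ℝ Ψ (x, q) (0, Pi.single m 1) -
          ∑ i, cc J Ψ N i x * fderiv ℝ (J (eb ι (N + 1) i)) q (Pi.single m 1) := by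
      funext q
      rw [slice_fderiv _ hDd, DD_snd hJ Ψ hΨ hΨc]
    rw [e]
    refine (hcont2.memLp_of_hasCompactSupport
      (slice_cs (fun p => fderiv ℝ Ψ p (0, Pi.single m 1)) (dir_cs Ψ hΨc _) x)).sub ?_
    refine memLp_finsetSum _ fun i _ => MemLp.const_mul ?_ _
    rw [dJ' hω hJ m]
    exact memLp_J hJ _
  have h := adj hω hJ m s (fun q => DD J Ψ N (x, q)) hdS hS2 hSd2 σ T (hT s)
  rw [DD_orth hJ Ψ hΨ.continuous hΨc N x (T s) hs, mul_zero] at h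
  simp_rw [slice_fderiv _ hDd] at h
  exact h

theorem lad_conv (hω : ∀ m, 0 < ω m) (hJ : IsHermite0 ω J) (hd : IsDense J)
    (Ψ : E3 × (ι → ℝ) → ℂ)
    (hΨ : ContDiff ℝ SM Ψ) (hΨc : HasCompactSupport Ψ) (m : ι) (σ : ℝ)
    (T T' : Fock ι →ₗ[ℂ] Fock ι)
    (hT : ∀ s q, ((Real.sqrt (ω m) * q m : ℝ) : ℂ) * J s q -
      ((σ * (1 / Real.sqrt (ω m)) : ℝ) : ℂ) * fderiv ℝ (J s) q (Pi.single m 1) =
      ((Real.sqrt 2 : ℝ) : ℂ) * J (T s) q)
    (hT' : ∀ s q, ((Real.sqrt (ω m) * q m : ℝ) : ℂ) * J s q +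
      ((σ * (1 / Real.sqrt (ω m)) : ℝ) : ℂ) * fderiv ℝ (J s) q (Pi.single m 1) =
      ((Real.sqrt 2 : ℝ) : ℂ) * J (T' s) q)
    (M : ℕ → ℕ) (hM : Filter.Tendsto M Filter.atTop Filter.atTop)
    (hTM : ∀ N s, s ∈ VN ι (M N) → T s ∈ VN ι (N + 1))
    (hTM' : ∀ N s, s ∈ VN ι (N + 1) → T' s ∈ VN ι (M N)) :
    Filter.Tendsto (fun N => ∫ p, ‖lad ω m σ (DD J Ψ N) p‖ ^ 2) Filter.atTop (𝓝 0) := by
  have h := key_conv (fun p => memLp_J hJ p) hd (lad ω m σ Ψ) (lad_cont m σ Ψ hΨ)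
    (lad_cs m σ Ψ hΨc)
    (fun N => Module.finrank ℂ (VN ι (N + 1))) (fun N i => cc J Ψ N i)
    (fun N i => (cc_smooth hJ Ψ hΨ hΨc N i).continuous) (fun N i => coef_cs _ Ψ hΨc)
    (fun N i => ((Real.sqrt 2 : ℝ) : ℂ) • T' (eb ι (N + 1) i)) M hM
    (fun N i => Submodule.smul_mem _ _ (hTM' N _ (eb_mem (N + 1) i)))
    (fun N x s hs => by
      have := lad_orth hω hJ Ψ hΨ hΨc N m σ T hT x s (hTM N s hs)
      rw [← this]
      refine integral_congr_ae (Filter.Eventually.of_forall fun q => ?_)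
      simp only
      rw [← lad_eq hJ Ψ hΨ hΨc N m σ T' hT' (x, q)])
  refine h.congr fun N => ?_
  refine integral_congr_ae (Filter.Eventually.of_forall fun p => ?_)
  simp only
  rw [← lad_eq hJ Ψ hΨ hΨc N m σ T' hT' p]

theorem lad_memLp (hJ : IsHermite0 ω J)
    (Ψ : E3 × (ι → ℝ) → ℂ)
    (hΨ : ContDiff ℝ SM Ψ) (hΨc : HasCompactSupport Ψ) (N : ℕ) (m : ι) (σ : ℝ)
    (T' : Fock ι →ₗ[ℂ] Fock ι)
    (hT' : ∀ s q, ((Real.sqrt (ω m) * q m : ℝ) : ℂ) * J s q +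
      ((σ * (1 / Real.sqrt (ω m)) : ℝ) : ℂ) * fderiv ℝ (J s) q (Pi.single m 1) =
      ((Real.sqrt 2 : ℝ) : ℂ) * J (T' s) q) :
    MemLp (lad ω m σ (DD J Ψ N)) 2 := by
  have h := memLp_key (fun p => memLp_J hJ p) (lad ω m σ Ψ) (lad_cont m σ Ψ hΨ)
    (lad_cs m σ Ψ hΨc) _ (fun i => cc J Ψ N i)
    (fun i => (cc_smooth hJ Ψ hΨ hΨc N i).continuous) (fun i => coef_cs _ Ψ hΨc)
    (fun i => ((Real.sqrt 2 : ℝ) : ℂ) • T' (eb ι (N + 1) i))
  have e : (fun p : E3 × (ι → ℝ) => lad ω m σ Ψ p - ∑ i, cc J Ψ N i p.1 *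
      J (((Real.sqrt 2 : ℝ) : ℂ) • T' (eb ι (N + 1) i)) p.2) = lad ω m σ (DD J Ψ N) := by
    funext p
    exact lad_eq hJ Ψ hΨ hΨc N m σ T' hT' p
  rw [e] at h
  exact h

end



theorem fn_bound {ι : Type} [Fintype ι] [DecidableEq ι] (ω : ι → ℝ) (hω : ∀ m, 0 < ω m)
    (D : E3 × (ι → ℝ) → ℂ) (p : E3 × (ι → ℝ)) :
    fn D p ≤ ‖D p‖ ^ 2 + ∑ j : Fin 3, ‖fderiv ℝ D p (ee j, 0)‖ ^ 2 +
      ∑ m, ((ω m + 1 / ω m) / 2) * (‖lad ω m 1 D p‖ ^ 2 + ‖lad ω m (-1) D p‖ ^ 2) := by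
  unfold fn
  refine add_le_add_right (Finset.sum_le_sum fun m _ => ?_) _
  set a : ℂ := ((Real.sqrt (ω m) * p.2 m : ℝ) : ℂ) * D p with ha
  set b : ℂ := ((1 / Real.sqrt (ω m) : ℝ) : ℂ) * fderiv ℝ D p (0, Pi.single m 1) with hb
  have h1 : lad ω m 1 D p = a + b := by
    unfold lad
    rw [one_mul]
  have h2 : lad ω m (-1) D p = a - b := by
    unfold lad
    rw [ha, hb]
    push_cast
    ring
  rw [h1, h2]
  have hpar : ‖a + b‖ ^ 2 + ‖a - b‖ ^ 2 = 2 * (‖a‖ ^ 2 + ‖b‖ ^ 2) := by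
    have := parallelogram_law_with_norm ℝ a b
    nlinarith [this]
  rw [hpar]
  have hs : Real.sqrt (ω m) ^ 2 = ω m := Real.sq_sqrt (hω m).le
  have hna : ‖a‖ ^ 2 = ω m * (p.2 m ^ 2 * ‖D p‖ ^ 2) := by
    rw [ha, norm_mul, mul_pow, Complex.norm_real, Real.norm_eq_abs, sq_abs, mul_pow, hs]
    ring
  have hnb : ‖b‖ ^ 2 = (1 / ω m) * ‖fderiv ℝ D p (0, Pi.single m 1)‖ ^ 2 := by
    rw [hb, norm_mul, mul_pow, Complex.norm_real, Real.norm_eq_abs, sq_abs, div_pow, hs, one_pow]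
  rw [hna, hnb]
  have hpos := hω m
  have hA : 0 ≤ p.2 m ^ 2 * ‖D p‖ ^ 2 := by positivity
  have hB : 0 ≤ ‖fderiv ℝ D p (0, Pi.single m 1)‖ ^ 2 := by positivity
  have e : (ω m + 1 / ω m) / 2 * (2 * (ω m * (p.2 m ^ 2 * ‖D p‖ ^ 2) +
      1 / ω m * ‖fderiv ℝ D p (0, Pi.single m 1)‖ ^ 2)) =
      (‖fderiv ℝ D p (0, Pi.single m 1)‖ ^ 2 + p.2 m ^ 2 * ‖D p‖ ^ 2) +
      (ω m ^ 2 * (p.2 m ^ 2 * ‖D p‖ ^ 2) +
        (1 / ω m) ^ 2 * ‖fderiv ℝ D p (0, Pi.single m 1)‖ ^ 2) := by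
    field_simp
    ring
  rw [e]
  have : 0 ≤ ω m ^ 2 * (p.2 m ^ 2 * ‖D p‖ ^ 2) +
        (1 / ω m) ^ 2 * ‖fderiv ℝ D p (0, Pi.single m 1)‖ ^ 2 := by positivity
  linarith


end ApproxForm

open ApproxForm

/-- approximation in the form norm -/
theorem approx_form {ι : Type} [Fintype ι] [DecidableEq ι] (ω : ι → ℝ) (hω : ∀ m, 0 < ω m)
    (J : Fock ι →ₗ[ℂ] ((ι → ℝ) → ℂ)) (hJ : IsHermite0 ω J) (hd : IsDense J)
    (Ψ : E3 × (ι → ℝ) → ℂ) (hΨ : ContDiff ℝ SM Ψ) (hΨc : HasCompactSupport Ψ) (ε : ℝ)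
    (hε : 0 < ε) :
    ∃ (r : ℕ) (c : Fin r → E3 → ℂ) (P : Fin r → Fock ι),
      (∀ j, ContDiff ℝ SM (c j)) ∧ (∀ j, HasCompactSupport (c j)) ∧
      Integrable (fn (fun p : E3 × (ι → ℝ) => Ψ p - ∑ j, c j p.1 * J (P j) p.2)) ∧
      ∫ p, fn (fun p : E3 × (ι → ℝ) => Ψ p - ∑ j, c j p.1 * J (P j) p.2) p ≤ ε := by
  -- the comparison function
  let G : ℕ → E3 × (ι → ℝ) → ℝ := fun N p =>
    ‖DD J Ψ N p‖ ^ 2 + ∑ j : Fin 3, ‖fderiv ℝ (DD J Ψ N) p (ee j, 0)‖ ^ 2 +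
      ∑ m, ((ω m + 1 / ω m) / 2) * (‖lad ω m 1 (DD J Ψ N) p‖ ^ 2 +
        ‖lad ω m (-1) (DD J Ψ N) p‖ ^ 2)
  have hT1 : ∀ m, ∀ s q, ((Real.sqrt (ω m) * q m : ℝ) : ℂ) * J s q -
      ((1 * (1 / Real.sqrt (ω m)) : ℝ) : ℂ) * fderiv ℝ (J s) q (Pi.single m 1) =
      ((Real.sqrt 2 : ℝ) : ℂ) * J (cr m s) q := by
    intro m s q
    rw [one_mul]
    exact hJ.crea s m q
  have hT1' : ∀ m, ∀ s q, ((Real.sqrt (ω m) * q m : ℝ) : ℂ) * J s q +
      ((1 * (1 / Real.sqrt (ω m)) : ℝ) : ℂ) * fderiv ℝ (J s) q (Pi.single m 1) =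
      ((Real.sqrt 2 : ℝ) : ℂ) * J (an m s) q := by
    intro m s q
    rw [one_mul]
    exact hJ.anni s m q
  have hT2 : ∀ m, ∀ s q, ((Real.sqrt (ω m) * q m : ℝ) : ℂ) * J s q -
      ((-1 * (1 / Real.sqrt (ω m)) : ℝ) : ℂ) * fderiv ℝ (J s) q (Pi.single m 1) =
      ((Real.sqrt 2 : ℝ) : ℂ) * J (an m s) q := by
    intro m s q
    rw [← hJ.anni s m q]
    push_cast
    ring
  have hT2' : ∀ m, ∀ s q, ((Real.sqrt (ω m) * q m : ℝ) : ℂ) * J s q +
      ((-1 * (1 / Real.sqrt (ω m)) : ℝ) : ℂ) * fderiv ℝ (J s) q (Pi.single m 1) =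
      ((Real.sqrt 2 : ℝ) : ℂ) * J (cr m s) q := by
    intro m s q
    rw [← hJ.crea s m q]
    push_cast
    ring
  have i0 : ∀ N, Integrable (fun p => ‖DD J Ψ N p‖ ^ 2) := fun N =>
    int_sq _ (DD_memLp hJ Ψ hΨ hΨc N)
  have i1 : ∀ N (j : Fin 3), Integrable (fun p => ‖fderiv ℝ (DD J Ψ N) p (ee j, 0)‖ ^ 2) := by
    intro N j
    simp_rw [DD_fst hJ Ψ hΨ hΨc]
    exact int_sq _ (DD_memLp hJ _ (dir_smooth Ψ hΨ _) (dir_cs Ψ hΨc _) N)
  have i2 : ∀ N m, Integrable (fun p => ‖lad ω m 1 (DD J Ψ N) p‖ ^ 2) := fun N m =>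
    int_sq _ (lad_memLp hJ Ψ hΨ hΨc N m 1 (an m) (hT1' m))
  have i3 : ∀ N m, Integrable (fun p => ‖lad ω m (-1) (DD J Ψ N) p‖ ^ 2) := fun N m =>
    int_sq _ (lad_memLp hJ Ψ hΨ hΨc N m (-1) (cr m) (hT2' m))
  have l0 := DD_conv hJ hd Ψ hΨ hΨc
  have l1 : ∀ j : Fin 3, Filter.Tendsto
      (fun N => ∫ p, ‖fderiv ℝ (DD J Ψ N) p (ee j, 0)‖ ^ 2) Filter.atTop (𝓝 0) := by
    intro j
    simp_rw [DD_fst hJ Ψ hΨ hΨc]
    exact DD_conv hJ hd _ (dir_smooth Ψ hΨ _) (dir_cs Ψ hΨc _)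
  have l2 : ∀ m, Filter.Tendsto
      (fun N => ∫ p, ‖lad ω m 1 (DD J Ψ N) p‖ ^ 2) Filter.atTop (𝓝 0) := fun m =>
    lad_conv hω hJ hd Ψ hΨ hΨc m 1 (cr m) (an m) (hT1 m) (hT1' m) (fun N => N)
      Filter.tendsto_id (fun N s hs => VN_cr N m s hs) (fun N s hs => VN_an N m s hs)
  have l3 : ∀ m, Filter.Tendsto
      (fun N => ∫ p, ‖lad ω m (-1) (DD J Ψ N) p‖ ^ 2) Filter.atTop (𝓝 0) := fun m =>
    lad_conv hω hJ hd Ψ hΨ hΨc m (-1) (an m) (cr m) (hT2 m) (hT2' m) (fun N => N + 1 + 1)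
      (Filter.tendsto_add_atTop_nat 2) (fun N s hs => VN_an (N + 1) m s hs)
      (fun N s hs => VN_cr (N + 1) m s hs)
  have i4 : ∀ N m, Integrable (fun p => ((ω m + 1 / ω m) / 2) *
      (‖lad ω m 1 (DD J Ψ N) p‖ ^ 2 + ‖lad ω m (-1) (DD J Ψ N) p‖ ^ 2)) := fun N m =>
    ((i2 N m).add (i3 N m)).const_mul _
  have i5 : ∀ N, Integrable (fun p => ∑ j : Fin 3, ‖fderiv ℝ (DD J Ψ N) p (ee j, 0)‖ ^ 2) :=
    fun N => integrable_finsetSum _ fun j _ => i1 N j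
  have i6 : ∀ N, Integrable (fun p => ∑ m, ((ω m + 1 / ω m) / 2) *
      (‖lad ω m 1 (DD J Ψ N) p‖ ^ 2 + ‖lad ω m (-1) (DD J Ψ N) p‖ ^ 2)) :=
    fun N => integrable_finsetSum _ fun m _ => i4 N m
  have hGint : ∀ N, Integrable (G N) := fun N => ((i0 N).add (i5 N)).add (i6 N)
  have hGval : ∀ N, (∫ p, G N p) = (∫ p, ‖DD J Ψ N p‖ ^ 2) +
      (∑ j : Fin 3, (∫ p, ‖fderiv ℝ (DD J Ψ N) p (ee j, 0)‖ ^ 2)) +
      (∑ m, ((ω m + 1 / ω m) / 2) * ((∫ p, ‖lad ω m 1 (DD J Ψ N) p‖ ^ 2) +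
        (∫ p, ‖lad ω m (-1) (DD J Ψ N) p‖ ^ 2))) := by
    intro N
    have e1 : (∫ p, G N p) = (∫ p, (‖DD J Ψ N p‖ ^ 2 +
        ∑ j : Fin 3, ‖fderiv ℝ (DD J Ψ N) p (ee j, 0)‖ ^ 2)) +
        (∫ p, ∑ m, ((ω m + 1 / ω m) / 2) * (‖lad ω m 1 (DD J Ψ N) p‖ ^ 2 +
          ‖lad ω m (-1) (DD J Ψ N) p‖ ^ 2)) := integral_add ((i0 N).add (i5 N)) (i6 N)
    rw [e1, integral_add (i0 N) (i5 N), integral_finsetSum _ fun j _ => i1 N j,
      integral_finsetSum _ fun m _ => i4 N m]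
    congr 1
    refine Finset.sum_congr rfl fun m _ => ?_
    rw [integral_const_mul, integral_add (i2 N m) (i3 N m)]
  have hGlim : Filter.Tendsto (fun N => ∫ p, G N p) Filter.atTop (𝓝 0) := by
    simp_rw [hGval]
    have h1 := (l0.add (tendsto_finsetSum Finset.univ fun j _ => l1 j)).add
      (tendsto_finsetSum Finset.univ fun m _ =>
        ((l2 m).add (l3 m)).const_mul ((ω m + 1 / ω m) / 2))
    simpa using h1
  obtain ⟨N, hN⟩ := (hGlim.eventually (gt_mem_nhds hε)).exists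
  have hDs := DD_smooth hJ Ψ hΨ hΨc N
  have hfc : Continuous (fn (DD J Ψ N)) := by
    have h1 : Continuous (DD J Ψ N) := hDs.continuous
    have h2 : ∀ w, Continuous (fun p => fderiv ℝ (DD J Ψ N) p w) := fun w =>
      (dir_smooth _ hDs w).continuous
    unfold fn
    refine ((h1.norm.pow 2).add (continuous_finsetSum _ fun j _ => (h2 _).norm.pow 2)).add
      (continuous_finsetSum _ fun m _ => ((h2 _).norm.pow 2).add (Continuous.mul ?_ (h1.norm.pow 2)))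
    fun_prop
  have hfn0 : ∀ p, 0 ≤ fn (DD J Ψ N) p := by
    intro p
    unfold fn
    positivity
  have hfni : Integrable (fn (DD J Ψ N)) := by
    refine (hGint N).mono' hfc.aestronglyMeasurable (Filter.Eventually.of_forall fun p => ?_)
    rw [Real.norm_eq_abs, abs_of_nonneg (hfn0 p)]
    exact fn_bound ω hω _ p
  have hle : ∫ p, fn (DD J Ψ N) p ≤ ε :=
    (integral_mono hfni (hGint N) (fun p => fn_bound ω hω _ p)).trans hN.le
  refine ⟨Module.finrank ℂ (VN ι (N + 1)), fun i => cc J Ψ N i, fun i => eb ι (N + 1) i,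
    fun i => cc_smooth hJ Ψ hΨ hΨc N i, fun i => coef_cs _ Ψ hΨc, ?_, ?_⟩
  · exact hfni
  · exact hle


end Pool.Agent.Helper985.PS
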