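import Pool.Agent.Helper985.PS.M_exists_kernel
import Pool.Agent.Helper985.PS.M_modefn
import Pool.Agent.Helper985.PS.Defs

set_option autoImplicit false

open MeasureTheory
open scoped Topology

namespace Pool.Agent.Helper985.PS





theorem band_sup_wt_int : Integrable (fun z : E3 => ((1 + ‖z‖) ^ 8)⁻¹) := by
  have h := integrable_one_add_norm (E := E3) (μ := volume) (r := 8) (by simp; norm_num)
  refine h.congr (Filter.Eventually.of_forall fun z => ?_)
  have h0 : (0:ℝ) < 1 + ‖z‖ := by positivity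
  simp only
  rw [Real.rpow_neg h0.le]
  norm_cast

theorem band_sup_wt_cont : Continuous (fun z : E3 => ((1 + ‖z‖) ^ 8)⁻¹) := by
  refine Continuous.inv₀ (by fun_prop) ?_
  intro z
  positivity

theorem band_sup_wt_mass : 0 < ∫ z : E3, ((1 + ‖z‖) ^ 8)⁻¹ := by
  refine (integral_pos_iff_support_of_nonneg (fun z => ?_) band_sup_wt_int).mpr ?_
  · show 0 ≤ ((1 + ‖z‖) ^ 8)⁻¹
    positivity
  · have : Function.support (fun z : E3 => ((1 + ‖z‖) ^ 8)⁻¹) = Set.univ := by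
      ext z
      simp only [Function.mem_support, Set.mem_univ, iff_true]
      positivity
    rw [this]
    exact Measure.measure_univ_pos.mpr (NeZero.ne _)

theorem band_sup_int_mul (f : E3 → ℝ) (hf : Continuous f) (M : ℝ) (hM : ∀ z, |f z| ≤ M) :
    Integrable (fun z : E3 => ((1 + ‖z‖) ^ 8)⁻¹ * f z) := by
  refine Integrable.mono' (band_sup_wt_int.mul_const M)
    (band_sup_wt_cont.mul hf).aestronglyMeasurable (Filter.Eventually.of_forall fun z => ?_)
  have h0 : (0:ℝ) ≤ ((1 + ‖z‖) ^ 8)⁻¹ := by positivity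
  rw [Real.norm_eq_abs, abs_mul, abs_of_nonneg h0]
  exact mul_le_mul_of_nonneg_left (hM z) h0

theorem band_sup_CS (f : E3 → ℝ) (hf : Continuous f) (M : ℝ) (hM : ∀ z, |f z| ≤ M) :
    (∫ z : E3, ((1 + ‖z‖) ^ 8)⁻¹ * f z) ^ 2 ≤
      (∫ z : E3, ((1 + ‖z‖) ^ 8)⁻¹) * (∫ z : E3, ((1 + ‖z‖) ^ 8)⁻¹ * f z ^ 2) := by
  have hW := band_sup_wt_mass
  set W := ∫ z : E3, ((1 + ‖z‖) ^ 8)⁻¹ with hWdef
  have h1 := band_sup_int_mul f hf M hM
  have hM0 : 0 ≤ M := le_trans (abs_nonneg _) (hM 0)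
  have h2 := band_sup_int_mul (fun z => f z ^ 2) (hf.pow 2) (M ^ 2) (fun z => by
    rw [abs_pow]
    exact pow_le_pow_left₀ (abs_nonneg _) (hM z) 2)
  set P := ∫ z : E3, ((1 + ‖z‖) ^ 8)⁻¹ * f z with hP
  set S := ∫ z : E3, ((1 + ‖z‖) ^ 8)⁻¹ * f z ^ 2 with hS
  have h3 : 0 ≤ ∫ z : E3, ((1 + ‖z‖) ^ 8)⁻¹ * (f z - P / W) ^ 2 :=
    integral_nonneg (fun z => by positivity)
  have h4 : ∫ z : E3, ((1 + ‖z‖) ^ 8)⁻¹ * (f z - P / W) ^ 2 =
      S - 2 * (P / W) * P + (P / W) ^ 2 * W := by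
    have e1 : ∀ z : E3, ((1 + ‖z‖) ^ 8)⁻¹ * (f z - P / W) ^ 2 =
        (((1 + ‖z‖) ^ 8)⁻¹ * f z ^ 2 - 2 * (P / W) * (((1 + ‖z‖) ^ 8)⁻¹ * f z)) +
          (P / W) ^ 2 * ((1 + ‖z‖) ^ 8)⁻¹ := by
      intro z; ring
    simp_rw [e1]
    have i1 : Integrable (fun z : E3 => ((1 + ‖z‖) ^ 8)⁻¹ * f z ^ 2 -
        2 * (P / W) * (((1 + ‖z‖) ^ 8)⁻¹ * f z)) := h2.sub (h1.const_mul _)
    have i2 : Integrable (fun z : E3 => (P / W) ^ 2 * ((1 + ‖z‖) ^ 8)⁻¹) :=
      band_sup_wt_int.const_mul _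
    rw [integral_add i1 i2, integral_sub h2 (h1.const_mul _), integral_const_mul, integral_const_mul]
  rw [h4] at h3
  have h5 : S - 2 * (P / W) * P + (P / W) ^ 2 * W = S - P ^ 2 / W := by
    field_simp
    ring
  rw [h5] at h3
  have h6 : P ^ 2 / W ≤ S := by linarith
  rw [div_le_iff₀ hW] at h6
  linarith

theorem band_sup_change (g : E3 → ℝ) (Λ : ℝ) (hΛ : 0 < Λ) (x : E3) :
    ∫ z : E3, g (x - Λ⁻¹ • z) = Λ ^ 3 * ∫ y : E3, g y := by
  have h1 := Measure.integral_comp_smul (μ := (volume : Measure E3)) (fun u : E3 => g (x - u)) (Λ⁻¹)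
  rw [h1, integral_sub_left_eq_self g volume x]
  simp only [smul_eq_mul, finrank_euclideanSpace, Fintype.card_fin]
  congr 1
  rw [inv_pow, inv_inv, abs_of_pos (by positivity)]

/-- weighted bound for convolution type integrals -/
theorem band_sup_main (K : E3 → ℝ) (hKc : Continuous K) (C : ℝ) (hC : 0 ≤ C)
    (hK : ∀ z, |K z| ≤ C * ((1 + ‖z‖) ^ 16)⁻¹) (A : E3 → E3) (hA : Continuous A) (M : ℝ)
    (hM : ∀ y, ‖A y‖ ≤ M) (Λ : ℝ) (hΛ : 0 < Λ) (x : E3) :
    ‖∫ z, K z • A (x - Λ⁻¹ • z)‖ ^ 2 ≤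
      C ^ 2 * (∫ z : E3, ((1 + ‖z‖) ^ 8)⁻¹) * Λ ^ 3 *
        (∫ y, ((1 + Λ * ‖x - y‖) ^ 8)⁻¹ * ‖A y‖ ^ 2) := by
  have hK8 : ∀ z, |K z| ≤ C * ((1 + ‖z‖) ^ 8)⁻¹ := by
    intro z
    refine (hK z).trans (mul_le_mul_of_nonneg_left ?_ hC)
    apply inv_anti₀ (by positivity)
    exact pow_le_pow_right₀ (by linarith [norm_nonneg z]) (by norm_num)
  have hAc : Continuous (fun z : E3 => ‖A (x - Λ⁻¹ • z)‖) := by fun_prop
  have hAb : ∀ z : E3, |‖A (x - Λ⁻¹ • z)‖| ≤ M := by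
    intro z; rw [abs_norm]; exact hM _
  have h1 : ‖∫ z, K z • A (x - Λ⁻¹ • z)‖ ≤
      C * ∫ z : E3, ((1 + ‖z‖) ^ 8)⁻¹ * ‖A (x - Λ⁻¹ • z)‖ := by
    rw [← integral_const_mul]
    refine norm_integral_le_of_norm_le ((band_sup_int_mul _ hAc M hAb).const_mul C)
      (Filter.Eventually.of_forall fun z => ?_)
    rw [norm_smul, Real.norm_eq_abs, ← mul_assoc]
    exact mul_le_mul_of_nonneg_right (hK8 z) (norm_nonneg _)
  have h2 := band_sup_CS _ hAc M hAb
  have h3 : ∫ z : E3, ((1 + ‖z‖) ^ 8)⁻¹ * ‖A (x - Λ⁻¹ • z)‖ ^ 2 =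
      Λ ^ 3 * ∫ y, ((1 + Λ * ‖x - y‖) ^ 8)⁻¹ * ‖A y‖ ^ 2 := by
    rw [← band_sup_change (fun y => ((1 + Λ * ‖x - y‖) ^ 8)⁻¹ * ‖A y‖ ^ 2) Λ hΛ x]
    congr 1
    funext z
    have : Λ * ‖x - (x - Λ⁻¹ • z)‖ = ‖z‖ := by
      rw [sub_sub_cancel, norm_smul, Real.norm_eq_abs, abs_of_pos (by positivity)]
      field_simp
    rw [this]
  calc ‖∫ z, K z • A (x - Λ⁻¹ • z)‖ ^ 2
      ≤ (C * ∫ z : E3, ((1 + ‖z‖) ^ 8)⁻¹ * ‖A (x - Λ⁻¹ • z)‖) ^ 2 :=
        pow_le_pow_left₀ (norm_nonneg _) h1 2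
    _ = C ^ 2 * (∫ z : E3, ((1 + ‖z‖) ^ 8)⁻¹ * ‖A (x - Λ⁻¹ • z)‖) ^ 2 := by ring
    _ ≤ C ^ 2 * ((∫ z : E3, ((1 + ‖z‖) ^ 8)⁻¹) *
        ∫ z : E3, ((1 + ‖z‖) ^ 8)⁻¹ * ‖A (x - Λ⁻¹ • z)‖ ^ 2) :=
        mul_le_mul_of_nonneg_left h2 (by positivity)
    _ = _ := by rw [h3]; ring

theorem band_sup_int_bdd (K : E3 → ℝ) (hKc : Continuous K) (C : ℝ) (hC : 0 ≤ C)
    (hK : ∀ z, |K z| ≤ C * ((1 + ‖z‖) ^ 16)⁻¹) (g : E3 → ℝ) (hg : Continuous g)
    (hg1 : ∀ z, |g z| ≤ 1) : Integrable (fun z => K z * g z) := by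
  refine Integrable.mono' (band_sup_wt_int.const_mul C) (hKc.mul hg).aestronglyMeasurable
    (Filter.Eventually.of_forall fun z => ?_)
  rw [Real.norm_eq_abs, abs_mul]
  have h1 : |K z| ≤ C * ((1 + ‖z‖) ^ 8)⁻¹ := by
    refine (hK z).trans (mul_le_mul_of_nonneg_left ?_ hC)
    apply inv_anti₀ (by positivity)
    exact pow_le_pow_right₀ (by linarith [norm_nonneg z]) (by norm_num)
  calc |K z| * |g z| ≤ |K z| * 1 := mul_le_mul_of_nonneg_left (hg1 z) (abs_nonneg _)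
    _ ≤ _ := by rw [mul_one]; exact h1

theorem band_sup_scalar (K : E3 → ℝ) (hKc : Continuous K) (C : ℝ) (hC : 0 ≤ C)
    (hK : ∀ z, |K z| ≤ C * ((1 + ‖z‖) ^ 16)⁻¹) (k : E3) (a Ic Is : ℝ)
    (hc : ∫ z, K z * Real.cos (inner ℝ k z) = Ic) (hs : ∫ z, K z * Real.sin (inner ℝ k z) = Is) :
    Integrable (fun z => K z * (Real.cos (a - inner ℝ k z) + Real.sin (a - inner ℝ k z))) ∧
    ∫ z, K z * (Real.cos (a - inner ℝ k z) + Real.sin (a - inner ℝ k z)) =
      (Real.cos a + Real.sin a) * Ic + (Real.sin a - Real.cos a) * Is := by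
  have ic := band_sup_int_bdd K hKc C hC hK (fun z => Real.cos (inner ℝ k z)) (by fun_prop)
    (fun z => Real.abs_cos_le_one _)
  have is := band_sup_int_bdd K hKc C hC hK (fun z => Real.sin (inner ℝ k z)) (by fun_prop)
    (fun z => Real.abs_sin_le_one _)
  have he : (fun z => K z * (Real.cos (a - inner ℝ k z) + Real.sin (a - inner ℝ k z))) =
      fun z => (Real.cos a + Real.sin a) * (K z * Real.cos (inner ℝ k z)) +
        (Real.sin a - Real.cos a) * (K z * Real.sin (inner ℝ k z)) := by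
    funext z
    rw [Real.cos_sub, Real.sin_sub]
    ring
  rw [he]
  refine ⟨(ic.const_mul _).add (is.const_mul _), ?_⟩
  rw [integral_add (ic.const_mul _) (is.const_mul _), integral_const_mul, integral_const_mul, hc, hs]

/-- the convolution of a kernel with the vector potential -/
theorem band_sup_conv (K : E3 → ℝ) (hKc : Continuous K) (C : ℝ) (hC : 0 ≤ C)
    (hK : ∀ z, |K z| ≤ C * ((1 + ‖z‖) ^ 16)⁻¹) {L Λ : ℝ} (Ic Is : E3 → ℝ)
    (hc : ∀ k : E3, ‖k‖ ≤ 1 → ∫ z, K z * Real.cos (inner ℝ k z) = Ic k)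
    (hs : ∀ k : E3, ‖k‖ ≤ 1 → ∫ z, K z * Real.sin (inner ℝ k z) = Is k)
    (hΛ : 0 < Λ) (pol : Mode L Λ → E3) (v : Mode L Λ → ℝ) (x : E3) :
    ∫ z, K z • vecPot (modeFn pol) v (x - Λ⁻¹ • z) =
      ∑ m, ((Real.cos (inner ℝ m.k x) + Real.sin (inner ℝ m.k x)) * Ic (Λ⁻¹ • m.k) +
        (Real.sin (inner ℝ m.k x) - Real.cos (inner ℝ m.k x)) * Is (Λ⁻¹ • m.k)) •
          ((v m / Real.sqrt (L ^ 3)) • pol m) := by
  have hk : ∀ m : Mode L Λ, ‖Λ⁻¹ • m.k‖ ≤ 1 := by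
    intro m
    rw [norm_smul, Real.norm_eq_abs, abs_of_pos (by positivity)]
    have : ‖m.k‖ < Λ := m.1.2.2
    rw [inv_mul_le_iff₀ hΛ, mul_one]
    exact this.le
  have hsc := fun m : Mode L Λ => band_sup_scalar K hKc C hC hK (Λ⁻¹ • m.k) (inner ℝ m.k x)
    (Ic (Λ⁻¹ • m.k)) (Is (Λ⁻¹ • m.k)) (hc _ (hk m)) (hs _ (hk m))
  have he : ∀ z : E3, K z • vecPot (modeFn pol) v (x - Λ⁻¹ • z) =
      ∑ m, (K z * (Real.cos (inner ℝ m.k x - inner ℝ (Λ⁻¹ • m.k) z) +
        Real.sin (inner ℝ m.k x - inner ℝ (Λ⁻¹ • m.k) z))) • ((v m / Real.sqrt (L ^ 3)) • pol m) := by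
    intro z
    unfold vecPot modeFn
    rw [Finset.smul_sum]
    refine Finset.sum_congr rfl fun m _ => ?_
    have h1 : (inner ℝ m.k (x - Λ⁻¹ • z) : ℝ) = inner ℝ m.k x - inner ℝ (Λ⁻¹ • m.k) z := by
      rw [inner_sub_right, inner_smul_right, real_inner_smul_left]
    rw [h1]
    simp only [smul_smul]
    congr 1
    ring
  simp_rw [he]
  rw [integral_finsetSum]
  · refine Finset.sum_congr rfl fun m _ => ?_
    rw [integral_smul_const, (hsc m).2]
  · intro m _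
    exact (hsc m).1.smul_const _

theorem band_sup_fderiv {L Λ : ℝ} (pol : Mode L Λ → E3) (v : Mode L Λ → ℝ) (x w : E3) :
    fderiv ℝ (vecPot (modeFn pol) v) x w =
      ∑ m, ((inner ℝ m.k w : ℝ) * (Real.cos (inner ℝ m.k x) - Real.sin (inner ℝ m.k x))) •
          ((v m / Real.sqrt (L ^ 3)) • pol m) := by
  have h1 : ∀ m : Mode L Λ, HasFDerivAt (fun y : E3 =>
      Real.cos (inner ℝ m.k y) + Real.sin (inner ℝ m.k y))
      (-Real.sin (inner ℝ m.k x) • innerSL ℝ m.k + Real.cos (inner ℝ m.k x) • innerSL ℝ m.k) x := by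
    intro m
    have h : HasFDerivAt (fun y : E3 => (inner ℝ m.k y : ℝ)) (innerSL ℝ m.k) x :=
      (innerSL ℝ m.k).hasFDerivAt
    exact h.cos.add h.sin
  have h2 : HasFDerivAt (vecPot (modeFn pol) v)
      (∑ m : Mode L Λ, ((-Real.sin (inner ℝ m.k x) • innerSL ℝ m.k +
        Real.cos (inner ℝ m.k x) • innerSL ℝ m.k).smulRight ((v m / Real.sqrt (L ^ 3)) • pol m))) x := by
    have he : vecPot (modeFn pol) v = fun y => ∑ m : Mode L Λ,
        (Real.cos (inner ℝ m.k y) + Real.sin (inner ℝ m.k y)) • ((v m / Real.sqrt (L ^ 3)) • pol m) := by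
      funext y
      unfold vecPot modeFn
      refine Finset.sum_congr rfl fun m _ => ?_
      simp only [smul_smul]
      congr 1
      ring
    rw [he]
    refine HasFDerivAt.fun_sum fun m _ => ?_
    exact (h1 m).smul_const _
  rw [h2.fderiv]
  simp only [ContinuousLinearMap.sum_apply, ContinuousLinearMap.smulRight_apply,
    ContinuousLinearMap.add_apply, ContinuousLinearMap.smul_apply, innerSL_apply_apply, smul_eq_mul]
  refine Finset.sum_congr rfl fun m _ => ?_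
  congr 1
  ring

theorem band_sup_bdd {L Λ : ℝ} (pol : Mode L Λ → E3) (v : Mode L Λ → ℝ) :
    ∃ M : ℝ, ∀ y, ‖vecPot (modeFn pol) v y‖ ≤ M := by
  refine ⟨∑ m, |v m| * (2 / Real.sqrt (L ^ 3) * ‖pol m‖), fun y => ?_⟩
  unfold vecPot modeFn
  refine (norm_sum_le _ _).trans (Finset.sum_le_sum fun m _ => ?_)
  rw [norm_smul, norm_smul, Real.norm_eq_abs, Real.norm_eq_abs]
  refine mul_le_mul_of_nonneg_left (mul_le_mul_of_nonneg_right ?_ (norm_nonneg _)) (abs_nonneg _)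
  rw [abs_div, abs_of_nonneg (Real.sqrt_nonneg _)]
  refine div_le_div_of_nonneg_right ?_ (Real.sqrt_nonneg _)
  refine (abs_add_le _ _).trans ?_
  have := Real.abs_cos_le_one (inner ℝ m.k y)
  have := Real.abs_sin_le_one (inner ℝ m.k y)
  linarith

theorem band_sup_cont {L Λ : ℝ} (pol : Mode L Λ → E3) (v : Mode L Λ → ℝ) :
    Continuous (vecPot (modeFn pol) v) := by
  unfold vecPot modeFn
  fun_prop

/-- local sup bounds for band-limited fields -/
theorem band_sup : ∃ C : ℝ, 0 < C ∧ ∀ (L Λ : ℝ), 0 < L → 0 < Λ →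
    ∀ (pol : Mode L Λ → E3) (v : Mode L Λ → ℝ) (x : E3),
      ‖vecPot (modeFn pol) v x‖ ^ 2 ≤
        C * Λ ^ 3 * (∫ y, ((1 + Λ * ‖x - y‖) ^ 8)⁻¹ * ‖vecPot (modeFn pol) v y‖ ^ 2) ∧
      ‖fderiv ℝ (vecPot (modeFn pol) v) x‖ ^ 2 ≤
        C * Λ ^ 5 * (∫ y, ((1 + Λ * ‖x - y‖) ^ 8)⁻¹ * ‖vecPot (modeFn pol) v y‖ ^ 2) := by
  obtain ⟨K, C, hC, hKs, hK, hK', hrep⟩ := exists_kernel
  refine ⟨C ^ 2 * (∫ z : E3, ((1 + ‖z‖) ^ 8)⁻¹), mul_pos (by positivity) band_sup_wt_mass, ?_⟩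
  intro L Λ hL hΛ pol v x
  have hKc : Continuous K := hKs.continuous
  have hKd : Differentiable ℝ K := hKs.differentiable (by simp)
  obtain ⟨M, hM⟩ := band_sup_bdd pol v
  have hA := band_sup_cont pol v
  constructor
  · have h1 : ∫ z, K z • vecPot (modeFn pol) v (x - Λ⁻¹ • z) = vecPot (modeFn pol) v x := by
      rw [band_sup_conv K hKc C hC.le hK (fun _ => 1) (fun _ => 0) (fun k hk => (hrep k hk).1)
        (fun k hk => (hrep k hk).2) hΛ pol v x]
      unfold vecPot modeFn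
      refine Finset.sum_congr rfl fun m _ => ?_
      simp only [smul_smul]
      congr 1
      ring
    have h2 := band_sup_main K hKc C hC.le hK (vecPot (modeFn pol) v) hA M hM Λ hΛ x
    rw [h1] at h2
    exact h2
  · -- derivative
    set I := ∫ y, ((1 + Λ * ‖x - y‖) ^ 8)⁻¹ * ‖vecPot (modeFn pol) v y‖ ^ 2 with hI
    have hI0 : 0 ≤ I := integral_nonneg (fun y => by positivity)
    set W := ∫ z : E3, ((1 + ‖z‖) ^ 8)⁻¹ with hW
    have hW0 : 0 < W := band_sup_wt_mass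
    have hK'c : Continuous (fderiv ℝ K) := hKs.continuous_fderiv (by simp)
    have key : ∀ w : E3, ‖fderiv ℝ (vecPot (modeFn pol) v) x w‖ ^ 2 ≤
        (C ^ 2 * W * Λ ^ 5 * I) * ‖w‖ ^ 2 := by
      intro w
      have hwc : Continuous (fun z => fderiv ℝ K z w) := by fun_prop
      have hwb : ∀ z, |fderiv ℝ K z w| ≤ (C * ‖w‖) * ((1 + ‖z‖) ^ 16)⁻¹ := by
        intro z
        have := (fderiv ℝ K z).le_opNorm w
        rw [Real.norm_eq_abs] at this
        calc |fderiv ℝ K z w| ≤ ‖fderiv ℝ K z‖ * ‖w‖ := this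
          _ ≤ (C * ((1 + ‖z‖) ^ 16)⁻¹) * ‖w‖ := mul_le_mul_of_nonneg_right (hK' z) (norm_nonneg _)
          _ = _ := by ring
      have hC' : 0 ≤ C * ‖w‖ := by positivity
      have hcosd : ∀ k z : E3, HasFDerivAt (fun y : E3 => Real.cos (inner ℝ k y))
          (-Real.sin (inner ℝ k z) • innerSL ℝ k) z := by
        intro k z
        have h : HasFDerivAt (fun y : E3 => (inner ℝ k y : ℝ)) (innerSL ℝ k) z :=
          (innerSL ℝ k).hasFDerivAt
        exact h.cos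
      have hsind : ∀ k z : E3, HasFDerivAt (fun y : E3 => Real.sin (inner ℝ k y))
          (Real.cos (inner ℝ k z) • innerSL ℝ k) z := by
        intro k z
        have h : HasFDerivAt (fun y : E3 => (inner ℝ k y : ℝ)) (innerSL ℝ k) z :=
          (innerSL ℝ k).hasFDerivAt
        exact h.sin
      have ic := fun k : E3 => band_sup_int_bdd K hKc C hC.le hK (fun z => Real.cos (inner ℝ k z))
        (by fun_prop) (fun z => Real.abs_cos_le_one _)
      have is := fun k : E3 => band_sup_int_bdd K hKc C hC.le hK (fun z => Real.sin (inner ℝ k z))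
        (by fun_prop) (fun z => Real.abs_sin_le_one _)
      have icw := fun k : E3 => band_sup_int_bdd (fun z => fderiv ℝ K z w) hwc _ hC' hwb
        (fun z => Real.cos (inner ℝ k z)) (by fun_prop) (fun z => Real.abs_cos_le_one _)
      have isw := fun k : E3 => band_sup_int_bdd (fun z => fderiv ℝ K z w) hwc _ hC' hwb
        (fun z => Real.sin (inner ℝ k z)) (by fun_prop) (fun z => Real.abs_sin_le_one _)
      have hc : ∀ k : E3, ‖k‖ ≤ 1 → ∫ z, fderiv ℝ K z w * Real.cos (inner ℝ k z) = 0 := by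
        intro k hk
        have e1 : ∀ z : E3, fderiv ℝ (fun y : E3 => Real.cos (inner ℝ k y)) z w =
            -(inner ℝ k w : ℝ) * Real.sin (inner ℝ k z) := by
          intro z
          rw [(hcosd k z).fderiv]
          simp only [ContinuousLinearMap.smul_apply, innerSL_apply_apply, smul_eq_mul]
          ring
        have e2 : ∀ z : E3, K z * (-(inner ℝ k w : ℝ) * Real.sin (inner ℝ k z)) =
            -(inner ℝ k w : ℝ) * (K z * Real.sin (inner ℝ k z)) := by intro z; ring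
        have h := integral_mul_fderiv_eq_neg_fderiv_mul_of_integrable (μ := (volume : Measure E3))
          (f := K) (g := fun y : E3 => Real.cos (inner ℝ k y)) (v := w)
          (icw k) (by simp_rw [e1, e2]; exact (is k).const_mul _) (ic k) (fun z _ => hKd z)
          (fun z _ => (hcosd k z).differentiableAt)
        simp_rw [e1, e2] at h
        rw [integral_const_mul, (hrep k hk).2, mul_zero] at h
        linarith
      have hs : ∀ k : E3, ‖k‖ ≤ 1 → ∫ z, fderiv ℝ K z w * Real.sin (inner ℝ k z) =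
          -(inner ℝ k w : ℝ) := by
        intro k hk
        have e1 : ∀ z : E3, fderiv ℝ (fun y : E3 => Real.sin (inner ℝ k y)) z w =
            (inner ℝ k w : ℝ) * Real.cos (inner ℝ k z) := by
          intro z
          rw [(hsind k z).fderiv]
          simp only [ContinuousLinearMap.smul_apply, innerSL_apply_apply, smul_eq_mul]
          ring
        have e2 : ∀ z : E3, K z * ((inner ℝ k w : ℝ) * Real.cos (inner ℝ k z)) =
            (inner ℝ k w : ℝ) * (K z * Real.cos (inner ℝ k z)) := by intro z; ring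
        have h := integral_mul_fderiv_eq_neg_fderiv_mul_of_integrable (μ := (volume : Measure E3))
          (f := K) (g := fun y : E3 => Real.sin (inner ℝ k y)) (v := w)
          (isw k) (by simp_rw [e1, e2]; exact (ic k).const_mul _) (is k) (fun z _ => hKd z)
          (fun z _ => (hsind k z).differentiableAt)
        simp_rw [e1, e2] at h
        rw [integral_const_mul, (hrep k hk).1, mul_one] at h
        linarith
      have h1 : fderiv ℝ (vecPot (modeFn pol) v) x w =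
          Λ • ∫ z, (fderiv ℝ K z w) • vecPot (modeFn pol) v (x - Λ⁻¹ • z) := by
        rw [band_sup_conv (fun z => fderiv ℝ K z w) hwc _ hC' hwb (fun _ => 0)
          (fun k => -(inner ℝ k w : ℝ)) hc hs hΛ pol v x, band_sup_fderiv, Finset.smul_sum]
        refine Finset.sum_congr rfl fun m _ => ?_
        rw [real_inner_smul_left]
        simp only [smul_smul]
        congr 1
        field_simp
        ring
      have h2 := band_sup_main (fun z => fderiv ℝ K z w) hwc _ hC' hwb (vecPot (modeFn pol) v) hA M hM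
        Λ hΛ x
      rw [h1, norm_smul, Real.norm_eq_abs, abs_of_pos hΛ, mul_pow]
      calc Λ ^ 2 * ‖∫ z, (fderiv ℝ K z w) • vecPot (modeFn pol) v (x - Λ⁻¹ • z)‖ ^ 2
          ≤ Λ ^ 2 * ((C * ‖w‖) ^ 2 * W * Λ ^ 3 * I) := mul_le_mul_of_nonneg_left h2 (by positivity)
        _ = _ := by ring
    have hB : 0 ≤ C ^ 2 * W * Λ ^ 5 * I := by positivity
    have hop : ‖fderiv ℝ (vecPot (modeFn pol) v) x‖ ≤ Real.sqrt (C ^ 2 * W * Λ ^ 5 * I) := by
      refine ContinuousLinearMap.opNorm_le_bound _ (Real.sqrt_nonneg _) fun w => ?_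
      refine le_of_sq_le_sq ?_ (by positivity)
      rw [mul_pow, Real.sq_sqrt hB]
      exact key w
    calc ‖fderiv ℝ (vecPot (modeFn pol) v) x‖ ^ 2 ≤ Real.sqrt (C ^ 2 * W * Λ ^ 5 * I) ^ 2 :=
          pow_le_pow_left₀ (norm_nonneg _) hop 2
      _ = _ := Real.sq_sqrt hB

end Pool.Agent.Helper985.PS
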