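import Pool.Agent.Helper985.PS.M_Wm_basic
import Pool.Agent.Helper985.PS.M_band_sup
import Pool.Agent.Helper985.PS.M_modefn
import Pool.Agent.Helper985.PS.Defs

set_option autoImplicit false

open MeasureTheory
open scoped Topology

namespace Pool.Agent.Helper985.PS









theorem aux28275_wint (c : ℝ) (hc : 0 < c) (x : E3) :
    Integrable (fun y : E3 => ((1 + c * ‖x - y‖) ^ 8)⁻¹) := by
  have h0 : Integrable (fun y : E3 => (1 + ‖y‖) ^ (-(8 : ℝ))) := by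
    apply integrable_one_add_norm
    simp
    norm_num
  have h1 : Integrable (fun y : E3 => ((1 + ‖y‖) ^ 8)⁻¹) := by
    refine h0.congr (Filter.Eventually.of_forall fun y => ?_)
    have hy : (0 : ℝ) ≤ 1 + ‖y‖ := by positivity
    simp only
    rw [Real.rpow_neg hy]
    congr 1
    exact_mod_cast Real.rpow_natCast (1 + ‖y‖) 8
  have h2 := h1.comp_smul (R := c) hc.ne'
  have h3 : Integrable (fun y : E3 => ((1 + c * ‖y‖) ^ 8)⁻¹) := by
    refine h2.congr (Filter.Eventually.of_forall fun y => ?_)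
    simp only [norm_smul, Real.norm_eq_abs, abs_of_pos hc]
  exact h3.comp_sub_left x

theorem aux28275_cont {L Λ : ℝ} (pol : Mode L Λ → E3) (v : Mode L Λ → ℝ) :
    Continuous (fun y => vecPot (modeFn pol) v y) := by
  unfold vecPot
  refine continuous_finsetSum _ fun m _ => ?_
  exact (smooth_modeFn pol m).continuous.const_smul (v m)

theorem aux28275_bd {L Λ : ℝ} (hL : 0 < L) (pol : Mode L Λ → E3) (hp : IsPolarisation pol)
    (v : Mode L Λ → ℝ) :
    ∃ K : ℝ, 0 ≤ K ∧ ∀ y, ‖vecPot (modeFn pol) v y‖ ^ 2 ≤ K := by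
  refine ⟨(∑ m, |v m| * Real.sqrt (2 / L ^ 3)) ^ 2, by positivity, fun y => ?_⟩
  apply pow_le_pow_left₀ (norm_nonneg _)
  unfold vecPot
  refine (norm_sum_le _ _).trans (Finset.sum_le_sum fun m _ => ?_)
  rw [norm_smul, Real.norm_eq_abs]
  refine mul_le_mul_of_nonneg_left ?_ (abs_nonneg _)
  exact Real.le_sqrt_of_sq_le (norm_modeFn_sq hL pol hp m y)

theorem aux28275_int {L Λ : ℝ} (hL : 0 < L) (pol : Mode L Λ → E3) (hp : IsPolarisation pol)
    (v : Mode L Λ → ℝ) (c : ℝ) (hc : 0 < c) (x : E3) :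
    Integrable (fun y : E3 => ((1 + c * ‖x - y‖) ^ 8)⁻¹ * ‖vecPot (modeFn pol) v y‖ ^ 2) := by
  obtain ⟨K, hK, hb⟩ := aux28275_bd hL pol hp v
  have hc' := aux28275_cont pol v
  refine Integrable.mono' ((aux28275_wint c hc x).mul_const K) ?_ ?_
  · refine ((aux28275_wint c hc x).aestronglyMeasurable).mul ?_
    exact (hc'.norm.pow 2).aestronglyMeasurable
  · refine Filter.Eventually.of_forall fun y => ?_
    have h1 : 0 ≤ ((1 + c * ‖x - y‖) ^ 8)⁻¹ := by positivity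
    rw [Real.norm_eq_abs, abs_of_nonneg (by positivity)]
    exact mul_le_mul_of_nonneg_left (hb y) h1

/-- sup of the gradient in the ball of radius `2R` -/
theorem band_ball : ∃ C : ℝ, 0 < C ∧ ∀ (L Λ R : ℝ), 0 < L → 0 < Λ → 0 < R → 1 ≤ Λ * R →
    ∀ (pol : Mode L Λ → E3), IsPolarisation pol → ∀ (v : Mode L Λ → ℝ) (x : E3), ‖x‖ ≤ 2 * R →
      ‖fderiv ℝ (vecPot (modeFn pol) v) x‖ ^ 2 ≤ C * Λ ^ 5 * (v ⬝ᵥ ((Wm pol R).mulVec v)) := by
  obtain ⟨C, hC, h⟩ := band_sup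
  refine ⟨C * 3 ^ 8, by positivity, ?_⟩
  intro L Λ R hL hΛ hR hΛR pol hp v x hx
  rw [Wm_form hL hR pol hp v]
  refine (h L Λ hL hΛ pol v x).2.trans ?_
  have hi1 := aux28275_int hL pol hp v Λ hΛ x
  have hi2 := aux28275_int hL pol hp v (1 / R) (by positivity) 0
  have hi3 : Integrable (fun y : E3 =>
      ((1 + ‖y‖ / R) ^ 8)⁻¹ * ‖vecPot (modeFn pol) v y‖ ^ 2) := by
    refine hi2.congr (Filter.Eventually.of_forall fun y => ?_)
    have e1 : 1 / R * ‖(0 : E3) - y‖ = ‖y‖ / R := by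
      rw [zero_sub, norm_neg]; ring
    simp only [e1]
  have hmain : (∫ y, ((1 + Λ * ‖x - y‖) ^ 8)⁻¹ * ‖vecPot (modeFn pol) v y‖ ^ 2) ≤
      3 ^ 8 * ∫ y, ((1 + ‖y‖ / R) ^ 8)⁻¹ * ‖vecPot (modeFn pol) v y‖ ^ 2 := by
    rw [← integral_const_mul]
    refine integral_mono hi1 (hi3.const_mul _) fun y => ?_
    have hw : ((1 + Λ * ‖x - y‖) ^ 8)⁻¹ ≤ 3 ^ 8 * ((1 + ‖y‖ / R) ^ 8)⁻¹ := by
      have h1 : 1 + ‖y‖ / R ≤ 3 * (1 + Λ * ‖x - y‖) := by
        have h2 : ‖y‖ ≤ ‖x‖ + ‖x - y‖ := by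
          have := norm_sub_le x (x - y)
          simpa using this
        have h3 : ‖y‖ / R ≤ 2 + ‖x - y‖ / R := by
          rw [div_le_iff₀ hR, add_mul, div_mul_cancel₀ _ hR.ne']
          linarith
        have h4 : ‖x - y‖ / R ≤ Λ * ‖x - y‖ := by
          rw [div_le_iff₀ hR]
          have := mul_le_mul_of_nonneg_right hΛR (norm_nonneg (x - y))
          nlinarith
        have h5 : 0 ≤ Λ * ‖x - y‖ := by positivity
        linarith
      have h0 : 0 < 1 + ‖y‖ / R := by positivity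
      have h00 : 0 < 1 + Λ * ‖x - y‖ := by positivity
      rw [← div_eq_mul_inv, inv_eq_one_div, div_le_div_iff₀ (by positivity) (by positivity),
        one_mul, ← mul_pow]
      exact pow_le_pow_left₀ h0.le h1 8
    have := mul_le_mul_of_nonneg_right hw (sq_nonneg ‖vecPot (modeFn pol) v y‖)
    simpa [mul_assoc] using this
  calc C * Λ ^ 5 * (∫ y, ((1 + Λ * ‖x - y‖) ^ 8)⁻¹ * ‖vecPot (modeFn pol) v y‖ ^ 2)
      ≤ C * Λ ^ 5 * (3 ^ 8 * ∫ y, ((1 + ‖y‖ / R) ^ 8)⁻¹ * ‖vecPot (modeFn pol) v y‖ ^ 2) :=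
        mul_le_mul_of_nonneg_left hmain (by positivity)
    _ = _ := by ring

end Pool.Agent.Helper985.PS
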