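import Pool.Agent.Helper985.PS.Defs

set_option autoImplicit false

open MeasureTheory
open scoped Topology

namespace Pool.Agent.Helper985.PS


/-- auxiliary: finite sums of scalar functions times vectors -/
noncomputable def bhNF (M : Type) : Submodule ℂ (E3 → Fock M) :=
  Submodule.span ℂ {f | ∃ (c : E3 → ℂ) (v : Fock M), ContDiff ℝ SM c ∧ HasCompactSupport c ∧
    f = fun x => c x • v}

theorem bh_smooth {M : Type} {f : E3 → Fock M} (hf : f ∈ bhNF M) : ContDiff ℝ SM f := by
  refine Submodule.span_induction (p := fun f _ => ContDiff ℝ SM f) ?_ ?_ ?_ ?_ hf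
  · rintro _ ⟨c, v, hc, _, rfl⟩
    exact hc.smul contDiff_const
  · exact contDiff_const
  · intro f g _ _ hf hg
    exact hf.add hg
  · intro a f _ hf
    exact contDiff_const.smul hf

theorem bh_compact {M : Type} {f : E3 → Fock M} (hf : f ∈ bhNF M) : HasCompactSupport f := by
  refine Submodule.span_induction (p := fun f _ => HasCompactSupport f) ?_ ?_ ?_ ?_ hf
  · rintro _ ⟨c, v, _, hc, rfl⟩
    exact hc.smul_right
  · exact HasCompactSupport.zero
  · intro f g _ _ hf hg
    exact hf.add hg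
  · intro a f _ hf
    exact hf.smul_left (f := fun _ => a)

theorem bh_lin {M : Type} (T : Fock M →ₗ[ℂ] Fock M) {f : E3 → Fock M} (hf : f ∈ bhNF M) :
    (fun x => T (f x)) ∈ bhNF M := by
  refine Submodule.span_induction (p := fun f _ => (fun x => T (f x)) ∈ bhNF M) ?_ ?_ ?_ ?_ hf
  · rintro _ ⟨c, v, h1, hc, rfl⟩
    refine Submodule.subset_span ⟨c, T v, h1, hc, ?_⟩
    funext x
    exact T.map_smul _ _
  · have e : (fun x => T ((0 : E3 → Fock M) x)) = 0 := by
      funext x
      exact T.map_zero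
    rw [e]
    exact (bhNF M).zero_mem
  · intro f g _ _ hf hg
    have e : (fun x => T ((f + g) x)) = (fun x => T (f x)) + (fun x => T (g x)) := by
      funext x
      exact T.map_add _ _
    rw [e]
    exact (bhNF M).add_mem hf hg
  · intro a f _ hf
    have e : (fun x => T ((a • f) x)) = a • (fun x => T (f x)) := by
      funext x
      exact T.map_smul _ _
    rw [e]
    exact (bhNF M).smul_mem a hf

theorem bh_mul {M : Type} {g : E3 → ℂ} (hg : ContDiff ℝ SM g) {f : E3 → Fock M}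
    (hf : f ∈ bhNF M) : (fun x => g x • f x) ∈ bhNF M := by
  refine Submodule.span_induction (p := fun f _ => (fun x => g x • f x) ∈ bhNF M) ?_ ?_ ?_ ?_ hf
  · rintro _ ⟨c, v, h1, hc, rfl⟩
    refine Submodule.subset_span ⟨fun x => g x * c x, v, hg.mul h1, hc.mul_left, ?_⟩
    funext x
    exact smul_smul _ _ _
  · have e : (fun x => g x • ((0 : E3 → Fock M) x)) = 0 := by
      funext x
      exact smul_zero _
    rw [e]
    exact (bhNF M).zero_mem
  · intro f h _ _ hf hh
    have e : (fun x => g x • ((f + h) x)) = (fun x => g x • (f x)) + (fun x => g x • (h x)) := by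
      funext x
      exact smul_add _ _ _
    rw [e]
    exact (bhNF M).add_mem hf hh
  · intro a f _ hf
    have e : (fun x => g x • ((a • f) x)) = a • (fun x => g x • (f x)) := by
      funext x
      exact smul_comm (g x) a (f x)
    rw [e]
    exact (bhNF M).smul_mem a hf

theorem bh_diff {M : Type} {f : E3 → Fock M} (hf : f ∈ bhNF M) : Differentiable ℝ f :=
  (bh_smooth hf).differentiable (by simp [SM])

theorem bh_deriv {M : Type} {f : E3 → Fock M} (hf : f ∈ bhNF M) (v : E3) :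
    (fun x => fderiv ℝ f x v) ∈ bhNF M := by
  refine Submodule.span_induction (p := fun f _ => (fun x => fderiv ℝ f x v) ∈ bhNF M)
    ?_ ?_ ?_ ?_ hf
  · rintro _ ⟨c, w, h1, hc, rfl⟩
    refine Submodule.subset_span ⟨fun x => fderiv ℝ c x v, w, ?_, ?_, ?_⟩
    · exact (h1.fderiv_right (m := SM) (by simp [SM])).clm_apply contDiff_const
    · exact hc.fderiv_apply ℝ v
    · funext x
      rw [fderiv_smul_const ((h1.differentiable (by simp [SM])) x)]
      rfl
  · have e : (fun x => fderiv ℝ (0 : E3 → Fock M) x v) = 0 := by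
      funext x
      simp
    rw [e]
    exact (bhNF M).zero_mem
  · intro f g hf' hg' hf hg
    have e : (fun x => fderiv ℝ (f + g) x v) = (fun x => fderiv ℝ f x v) +
        (fun x => fderiv ℝ g x v) := by
      funext x
      rw [fderiv_add (bh_diff hf' x) (bh_diff hg' x)]
      rfl
    rw [e]
    exact (bhNF M).add_mem hf hg
  · intro a f hf' hf
    have e : (fun x => fderiv ℝ (a • f) x v) = a • (fun x => fderiv ℝ f x v) := by
      funext x
      rw [fderiv_const_smul (bh_diff hf' x)]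
      rfl
    rw [e]
    exact (bhNF M).smul_mem a hf

theorem bh_of_state {M : Type} {Ψ : WaveFunction M} (h : IsState Ψ) (s : Fin 2) :
    Ψ s ∈ bhNF M := by
  obtain ⟨E, hE, hv⟩ := h.finite
  let b := Module.finBasis ℂ E
  have key : Ψ s = ∑ j, (fun x => (b.coord j (E.orthogonalProjectionOnto (Ψ s x))) •
      ((b j : E) : Fock M)) := by
    funext x
    rw [Finset.sum_apply]
    have h1 : ((E.orthogonalProjectionOnto (Ψ s x) : E) : Fock M) = Ψ s x :=
      Submodule.starProjection_eq_self_iff.2 (hv s x)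
    have h2 := b.sum_repr (E.orthogonalProjectionOnto (Ψ s x))
    have h3 := congrArg (fun z : E => (z : Fock M)) h2
    simp only [Submodule.coe_sum, Submodule.coe_smul] at h3
    rw [h1] at h3
    exact h3.symm
  rw [key]
  refine Submodule.sum_mem _ fun j _ => Submodule.subset_span ⟨_, _, ?_, ?_, rfl⟩
  · have h1 : ContDiff ℝ SM (fun x => ((LinearMap.toContinuousLinearMap (b.coord j)).comp
      E.orthogonalProjectionOnto) (Ψ s x)) :=
      (ContinuousLinearMap.restrictScalars ℝ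
        ((LinearMap.toContinuousLinearMap (b.coord j)).comp
          E.orthogonalProjectionOnto)).contDiff.comp (h.smooth s)
    exact h1
  · exact (h.compact s).comp_left (g := fun u => b.coord j (E.orthogonalProjectionOnto u))
      (by simp)

theorem bh_inner_mono {M : Type} (n : M →₀ ℕ) (a : ℂ) (v : Fock M) :
    (inner ℂ (show Fock M from (MvPolynomial.monomial n a : MvPolynomial M ℂ)) v : ℂ) =
      (starRingEnd ℂ) a * Fock.coeff n v * (n.prod fun _ j => (j.factorial : ℂ)) := by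
  classical
  change fockInner _ v = _
  rw [fockInner_eq_sum _ v {n} (MvPolynomial.support_monomial_subset), Finset.sum_singleton]
  congr 2
  congr 1
  exact (MvPolynomial.coeff_monomial n n a).trans (if_pos rfl)

theorem bh_fact {M : Type} (n : M →₀ ℕ) (m : M) (hm : n m ≠ 0) :
    (n m : ℂ) * ((n - Finsupp.single m 1).prod fun _ j => (j.factorial : ℂ)) =
      (n.prod fun _ j => (j.factorial : ℂ)) := by
  classical
  have hg : ∀ i : M, (fun (_ : M) (j : ℕ) => (j.factorial : ℂ)) i 0 = 1 := by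
    intro i
    simp
  rw [← Finsupp.mul_prod_erase' n m (fun (_ : M) (j : ℕ) => (j.factorial : ℂ)) hg,
    ← Finsupp.mul_prod_erase' (n - Finsupp.single m 1) m
      (fun (_ : M) (j : ℕ) => (j.factorial : ℂ)) hg]
  have he : Finsupp.erase m (n - Finsupp.single m 1) = Finsupp.erase m n := by
    ext i
    by_cases hi : i = m
    · subst hi
      simp
    · rw [Finsupp.erase_ne hi, Finsupp.erase_ne hi, Finsupp.tsub_apply,
        Finsupp.single_eq_of_ne hi]
      simp
  rw [he]
  have h1 : (n - Finsupp.single m 1 : M →₀ ℕ) m = n m - 1 := by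
    rw [Finsupp.tsub_apply, Finsupp.single_eq_same]
  rw [h1, ← mul_assoc]
  congr 1
  rw [← Nat.cast_mul, Nat.mul_factorial_pred hm]

theorem bh_adj {M : Type} (m : M) (u v : Fock M) :
    (inner ℂ (an m u) v : ℂ) = inner ℂ u (cr m v) := by
  classical
  refine MvPolynomial.induction_on' (P := fun u : MvPolynomial M ℂ =>
    (inner ℂ (an m (show Fock M from u)) v : ℂ) = inner ℂ (show Fock M from u) (cr m v)) u ?_ ?_
  · intro n a
    have h1 : an m (show Fock M from (MvPolynomial.monomial n a : MvPolynomial M ℂ)) =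
        (show Fock M from (MvPolynomial.monomial (n - Finsupp.single m 1) (a * (n m : ℂ)) :
          MvPolynomial M ℂ)) := MvPolynomial.pderiv_monomial
    rw [h1, bh_inner_mono, bh_inner_mono]
    have h2 : Fock.coeff n (cr m v) = if m ∈ n.support then
        Fock.coeff (n - Finsupp.single m 1) v else 0 := MvPolynomial.coeff_X_mul' n m _
    rw [h2]
    by_cases hm : n m = 0
    · rw [if_neg (by simpa using hm), hm]
      simp
    · rw [if_pos (by simpa using hm), ← bh_fact n m hm, map_mul]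
      have h3 : (starRingEnd ℂ) (n m : ℂ) = (n m : ℂ) := by simp
      rw [h3]
      ring
  · intro p q hp hq
    have h1 : an m (show Fock M from (p + q : MvPolynomial M ℂ)) =
        an m (show Fock M from p) + an m (show Fock M from q) := (an m).map_add _ _
    have h2 : (show Fock M from (p + q : MvPolynomial M ℂ)) =
        (show Fock M from p) + (show Fock M from q) := rfl
    rw [h1, inner_add_left, hp, hq]
    exact (inner_add_left _ _ _).symm

theorem bh_adj' {M : Type} (m : M) (u v : Fock M) :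
    (inner ℂ (cr m u) v : ℂ) = inner ℂ u (an m v) := by
  rw [← inner_conj_symm, ← bh_adj, inner_conj_symm]

theorem bh_vp {L Λ : ℝ} (pol : Mode L Λ → E3) (i : Fin 3) (x : E3) (v : Fock (Mode L Λ)) :
    vectorPotential L Λ pol i x v =
      ∑ m : Mode L Λ, ((pol m i / Real.sqrt (2 * L ^ 3 * ‖m.k‖) : ℝ) : ℂ) •
        (Complex.exp (Complex.I * ((inner ℝ m.k x : ℝ) : ℂ)) • an m v +
          Complex.exp (-(Complex.I * ((inner ℝ m.k x : ℝ) : ℂ))) • cr m v) := by
  unfold vectorPotential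
  exact finsum_eq_sum_of_fintype _

theorem bh_exp_conj (t : ℝ) : (starRingEnd ℂ) (Complex.exp (Complex.I * (t : ℂ))) =
    Complex.exp (-(Complex.I * (t : ℂ))) := by
  rw [← Complex.exp_conj]
  simp

theorem bh_exp_conj' (t : ℝ) : (starRingEnd ℂ) (Complex.exp (-(Complex.I * (t : ℂ)))) =
    Complex.exp (Complex.I * (t : ℂ)) := by
  rw [← bh_exp_conj, Complex.conj_conj]

theorem bh_vp_symm {L Λ : ℝ} (pol : Mode L Λ → E3) (i : Fin 3) (x : E3)
    (u v : Fock (Mode L Λ)) :
    (inner ℂ (vectorPotential L Λ pol i x u) v : ℂ) =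
      inner ℂ u (vectorPotential L Λ pol i x v) := by
  rw [bh_vp, bh_vp, sum_inner, inner_sum]
  refine Finset.sum_congr rfl fun m _ => ?_
  rw [inner_smul_left, inner_smul_right, inner_add_left, inner_add_right, inner_smul_left,
    inner_smul_left, inner_smul_right, inner_smul_right, Complex.conj_ofReal, bh_exp_conj,
    bh_exp_conj', bh_adj, bh_adj']
  ring

theorem bh_vp_mem {L Λ : ℝ} (pol : Mode L Λ → E3) (i : Fin 3) {f : E3 → Fock (Mode L Λ)}
    (hf : f ∈ bhNF (Mode L Λ)) : (fun x => vectorPotential L Λ pol i x (f x)) ∈ bhNF _ := by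
  have e : (fun x => vectorPotential L Λ pol i x (f x)) =
      ∑ m : Mode L Λ, (((pol m i / Real.sqrt (2 * L ^ 3 * ‖m.k‖) : ℝ) : ℂ) •
        ((fun x => Complex.exp (Complex.I * ((inner ℝ m.k x : ℝ) : ℂ)) • an m (f x)) +
          (fun x => Complex.exp (-(Complex.I * ((inner ℝ m.k x : ℝ) : ℂ))) • cr m (f x)))) := by
    funext x
    rw [bh_vp, Finset.sum_apply]
    rfl
  rw [e]
  have hs : ∀ m : Mode L Λ, ContDiff ℝ SM
      (fun x : E3 => Complex.I * ((inner ℝ m.k x : ℝ) : ℂ)) := by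
    intro m
    refine contDiff_const.mul ?_
    exact Complex.ofRealCLM.contDiff.comp (contDiff_const.inner ℝ contDiff_id)
  refine Submodule.sum_mem _ fun m _ => Submodule.smul_mem _ _ (Submodule.add_mem _ ?_ ?_)
  · exact bh_mul (hs m).cexp (bh_lin (an m) hf)
  · exact bh_mul (hs m).neg.cexp (bh_lin (cr m) hf)

theorem bh_vel_mem {α L Λ : ℝ} (pol : Mode L Λ → E3) (i : Fin 3) {f : E3 → Fock (Mode L Λ)}
    (hf : f ∈ bhNF (Mode L Λ)) : velocity α L Λ pol i f ∈ bhNF _ := by
  have e : velocity α L Λ pol i f =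
      (-Complex.I) • (fun x => fderiv ℝ f x (EuclideanSpace.single i (1 : ℝ))) +
      ((Real.sqrt α : ℝ) : ℂ) • (fun x => vectorPotential L Λ pol i x (f x)) := rfl
  rw [e]
  exact Submodule.add_mem _ (Submodule.smul_mem _ _ (bh_deriv hf _))
    (Submodule.smul_mem _ _ (bh_vp_mem pol i hf))

theorem bh_int {M : Type} {f g : E3 → Fock M} (hf : f ∈ bhNF M) (hg : g ∈ bhNF M) :
    Integrable (fun x => (inner ℂ (f x) (g x) : ℂ)) := by
  refine Continuous.integrable_of_hasCompactSupport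
    ((bh_smooth hf).continuous.inner (bh_smooth hg).continuous) ?_
  refine (bh_compact hf).mono ?_
  intro x hx
  rw [Function.mem_support] at hx ⊢
  intro h0
  apply hx
  rw [h0, inner_zero_left]

theorem bh_parts {M : Type} {f g : E3 → Fock M} (hf : f ∈ bhNF M) (hg : g ∈ bhNF M) (v : E3) :
    ∫ x, (inner ℂ (f x) (fderiv ℝ g x v) : ℂ) = - ∫ x, (inner ℂ (fderiv ℝ f x v) (g x) : ℂ) := by
  have hi1 := bh_int hf (bh_deriv hg v)
  have hi2 := bh_int (bh_deriv hf v) hg
  have hd : ∀ x, fderiv ℝ (fun t => (inner ℂ (f t) (g t) : ℂ)) x v =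
      inner ℂ (f x) (fderiv ℝ g x v) + inner ℂ (fderiv ℝ f x v) (g x) := fun x =>
    fderiv_inner_apply ℂ (bh_diff hf x) (bh_diff hg x) v
  have h0 := integral_mul_fderiv_eq_neg_fderiv_mul_of_integrable (μ := (volume : Measure E3))
    (f := fun _ : E3 => (1 : ℂ)) (g := fun t => (inner ℂ (f t) (g t) : ℂ)) (v := v)
    (by simp) (by
      simp only [one_mul]
      rw [funext hd]
      exact hi1.add hi2) (by
      simp only [one_mul]
      exact bh_int hf hg) (fun x _ => differentiableAt_const _)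
      (fun x _ => (bh_diff hf x).inner ℂ (bh_diff hg x))
  simp only [one_mul] at h0
  rw [funext hd, integral_add hi1 hi2] at h0
  simp at h0
  exact eq_neg_of_add_eq_zero_left h0

theorem bh_vel_symm {α L Λ : ℝ} (pol : Mode L Λ → E3) (i : Fin 3) {f g : E3 → Fock (Mode L Λ)}
    (hf : f ∈ bhNF (Mode L Λ)) (hg : g ∈ bhNF (Mode L Λ)) :
    ∫ x, (inner ℂ (f x) (velocity α L Λ pol i g x) : ℂ) =
      ∫ x, (inner ℂ (velocity α L Λ pol i f x) (g x) : ℂ) := by
  have e1 : ∀ x, (inner ℂ (f x) (velocity α L Λ pol i g x) : ℂ) =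
      (-Complex.I) * inner ℂ (f x) (fderiv ℝ g x (EuclideanSpace.single i (1 : ℝ))) +
      ((Real.sqrt α : ℝ) : ℂ) * inner ℂ (f x) (vectorPotential L Λ pol i x (g x)) := by
    intro x
    unfold velocity
    rw [inner_add_right, inner_smul_right, inner_smul_right]
  have e2 : ∀ x, (inner ℂ (velocity α L Λ pol i f x) (g x) : ℂ) =
      Complex.I * inner ℂ (fderiv ℝ f x (EuclideanSpace.single i (1 : ℝ))) (g x) +
      ((Real.sqrt α : ℝ) : ℂ) * inner ℂ (f x) (vectorPotential L Λ pol i x (g x)) := by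
    intro x
    unfold velocity
    rw [inner_add_left, inner_smul_left, inner_smul_left, bh_vp_symm, Complex.conj_ofReal]
    simp
  rw [funext e1, funext e2, integral_add ((bh_int hf (bh_deriv hg _)).const_mul _)
    ((bh_int hf (bh_vp_mem pol i hg)).const_mul _), integral_add
    ((bh_int (bh_deriv hf _) hg).const_mul _) ((bh_int hf (bh_vp_mem pol i hg)).const_mul _)]
  congr 1
  rw [integral_const_mul, integral_const_mul, bh_parts hf hg]
  ring

theorem bh_pauli_mem {α L Λ : ℝ} (pol : Mode L Λ → E3) {Ψ : WaveFunction (Mode L Λ)}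
    (hΨ : ∀ s, Ψ s ∈ bhNF (Mode L Λ)) (s : Fin 2) : pauliOp α L Λ pol Ψ s ∈ bhNF _ := by
  have e : pauliOp α L Λ pol Ψ s =
      ∑ i : Fin 3, ∑ t : Fin 2, pauliMatrix i s t • velocity α L Λ pol i (Ψ t) := by
    funext x
    unfold pauliOp
    simp only [Finset.sum_apply, Pi.smul_apply]
  rw [e]
  exact Submodule.sum_mem _ fun i _ => Submodule.sum_mem _ fun t _ =>
    Submodule.smul_mem _ _ (bh_vel_mem pol i (hΨ t))

theorem bh_pauli_herm (i : Fin 3) (s t : Fin 2) :
    (starRingEnd ℂ) (pauliMatrix i s t) = pauliMatrix i t s := by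
  fin_cases i <;> fin_cases s <;> fin_cases t <;> simp [pauliMatrix]

theorem bh_pauli_symm {α L Λ : ℝ} (pol : Mode L Λ → E3) {Φ Ψ : WaveFunction (Mode L Λ)}
    (hΦ : ∀ s, Φ s ∈ bhNF (Mode L Λ)) (hΨ : ∀ s, Ψ s ∈ bhNF (Mode L Λ)) :
    braket Φ (pauliOp α L Λ pol Ψ) = braket (pauliOp α L Λ pol Φ) Ψ := by
  unfold braket
  have e1 : ∀ x, ∑ s, (inner ℂ (Φ s x) (pauliOp α L Λ pol Ψ s x) : ℂ) =
      ∑ s : Fin 2, ∑ i : Fin 3, ∑ t : Fin 2, pauliMatrix i s t *
        inner ℂ (Φ s x) (velocity α L Λ pol i (Ψ t) x) := by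
    intro x
    refine Finset.sum_congr rfl fun s _ => ?_
    unfold pauliOp
    rw [inner_sum]
    refine Finset.sum_congr rfl fun i _ => ?_
    rw [inner_sum]
    refine Finset.sum_congr rfl fun t _ => ?_
    rw [inner_smul_right]
  have e2 : ∀ x, ∑ t, (inner ℂ (pauliOp α L Λ pol Φ t x) (Ψ t x) : ℂ) =
      ∑ t : Fin 2, ∑ i : Fin 3, ∑ s : Fin 2, pauliMatrix i s t *
        inner ℂ (velocity α L Λ pol i (Φ s) x) (Ψ t x) := by
    intro x
    refine Finset.sum_congr rfl fun t _ => ?_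
    unfold pauliOp
    rw [sum_inner]
    refine Finset.sum_congr rfl fun i _ => ?_
    rw [sum_inner]
    refine Finset.sum_congr rfl fun s _ => ?_
    rw [inner_smul_left, bh_pauli_herm]
  have i1 : ∀ (s : Fin 2) (i : Fin 3) (t : Fin 2), Integrable (fun x => pauliMatrix i s t *
        (inner ℂ (Φ s x) (velocity α L Λ pol i (Ψ t) x) : ℂ)) := fun s i t =>
    (bh_int (hΦ s) (bh_vel_mem pol i (hΨ t))).const_mul _
  have i2 : ∀ (s : Fin 2) (i : Fin 3) (t : Fin 2), Integrable (fun x => pauliMatrix i s t *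
        (inner ℂ (velocity α L Λ pol i (Φ s) x) (Ψ t x) : ℂ)) := fun s i t =>
    (bh_int (bh_vel_mem pol i (hΦ s)) (hΨ t)).const_mul _
  have f1 : ∫ x, ∑ s : Fin 2, ∑ i : Fin 3, ∑ t : Fin 2, pauliMatrix i s t *
        (inner ℂ (Φ s x) (velocity α L Λ pol i (Ψ t) x) : ℂ) =
      ∑ s : Fin 2, ∑ i : Fin 3, ∑ t : Fin 2, pauliMatrix i s t *
        ∫ x, (inner ℂ (Φ s x) (velocity α L Λ pol i (Ψ t) x) : ℂ) := by
    rw [integral_finsetSum _ fun s _ => integrable_finsetSum _ fun i _ =>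
      integrable_finsetSum _ fun t _ => i1 s i t]
    refine Finset.sum_congr rfl fun s _ => ?_
    rw [integral_finsetSum _ fun i _ => integrable_finsetSum _ fun t _ => i1 s i t]
    refine Finset.sum_congr rfl fun i _ => ?_
    rw [integral_finsetSum _ fun t _ => i1 s i t]
    refine Finset.sum_congr rfl fun t _ => ?_
    rw [integral_const_mul]
  have f2 : ∫ x, ∑ t : Fin 2, ∑ i : Fin 3, ∑ s : Fin 2, pauliMatrix i s t *
        (inner ℂ (velocity α L Λ pol i (Φ s) x) (Ψ t x) : ℂ) =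
      ∑ t : Fin 2, ∑ i : Fin 3, ∑ s : Fin 2, pauliMatrix i s t *
        ∫ x, (inner ℂ (velocity α L Λ pol i (Φ s) x) (Ψ t x) : ℂ) := by
    rw [integral_finsetSum _ fun t _ => integrable_finsetSum _ fun i _ =>
      integrable_finsetSum _ fun s _ => i2 s i t]
    refine Finset.sum_congr rfl fun t _ => ?_
    rw [integral_finsetSum _ fun i _ => integrable_finsetSum _ fun s _ => i2 s i t]
    refine Finset.sum_congr rfl fun i _ => ?_
    rw [integral_finsetSum _ fun s _ => i2 s i t]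
    refine Finset.sum_congr rfl fun s _ => ?_
    rw [integral_const_mul]
  rw [funext e1, funext e2, f1, f2]
  have g1 : ∀ (s : Fin 2) (i : Fin 3) (t : Fin 2),
      ∫ x, (inner ℂ (Φ s x) (velocity α L Λ pol i (Ψ t) x) : ℂ) =
        ∫ x, (inner ℂ (velocity α L Λ pol i (Φ s) x) (Ψ t x) : ℂ) := fun s i t =>
    bh_vel_symm pol i (hΦ s) (hΨ t)
  simp only [g1]
  rw [Finset.sum_comm]
  conv_rhs => rw [Finset.sum_comm]
  refine Finset.sum_congr rfl fun i _ => ?_
  rw [Finset.sum_comm]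

theorem bh_int_sum {M : Type} {Φ Ψ : WaveFunction M}
    (hΦ : ∀ s, Φ s ∈ bhNF M) (hΨ : ∀ s, Ψ s ∈ bhNF M) :
    Integrable (fun x => ∑ s, (inner ℂ (Φ s x) (Ψ s x) : ℂ)) :=
  integrable_finsetSum _ fun s _ => bh_int (hΦ s) (hΨ s)

theorem bh_re {M : Type} {Φ Ψ : WaveFunction M}
    (hΦ : ∀ s, Φ s ∈ bhNF M) (hΨ : ∀ s, Ψ s ∈ bhNF M) :
    (braket Φ Ψ).re = ∫ x, ∑ s, (inner ℂ (Φ s x) (Ψ s x) : ℂ).re := by
  unfold braket
  have h := integral_re (bh_int_sum hΦ hΨ)
  have e : ∀ x, ∑ s, (inner ℂ (Φ s x) (Ψ s x) : ℂ).re =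
      RCLike.re (∑ s, (inner ℂ (Φ s x) (Ψ s x) : ℂ)) := by
    intro x
    rw [RCLike.re_to_complex, Complex.re_sum]
  rw [funext e]
  exact h.symm

theorem bh_self_re {M : Type} {Ψ : WaveFunction M} (hΨ : ∀ s, Ψ s ∈ bhNF M) :
    (braket Ψ Ψ).re = ∫ x, ∑ s, ‖Ψ s x‖ ^ 2 := by
  rw [bh_re hΨ hΨ]
  congr 1
  funext x
  refine Finset.sum_congr rfl fun s _ => ?_
  exact inner_self_eq_norm_sq (𝕜 := ℂ) (Ψ s x)

/-- the field energy as a linear map -/
noncomputable def bhFE (L Λ : ℝ) : Fock (Mode L Λ) →ₗ[ℂ] Fock (Mode L Λ) :=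
  ∑ m : Mode L Λ, ((‖m.k‖ : ℝ) : ℂ) • (cr m ∘ₗ an m)

theorem bhFE_apply (L Λ : ℝ) (v : Fock (Mode L Λ)) : bhFE L Λ v = fieldEnergy L Λ v := by
  unfold bhFE fieldEnergy
  rw [finsum_eq_sum_of_fintype, LinearMap.sum_apply]
  rfl

/-- the quadratic form of the Hamiltonian -/
theorem braket_hamiltonian {α L Λ : ℝ} (hL : 0 < L) (pol : Mode L Λ → E3)
    (Ψ : WaveFunction (Mode L Λ)) (hΨ : IsState Ψ) :
    (braket Ψ (hamiltonian α L Λ pol Ψ)).re =
      (1 / 2) * (∫ x, ∑ s, ‖pauliOp α L Λ pol Ψ s x‖ ^ 2) +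
        ∫ x, ∑ s, (inner ℂ (Ψ s x) (fieldEnergy L Λ (Ψ s x)) : ℂ).re := by
  have h0 : ∀ s, Ψ s ∈ bhNF (Mode L Λ) := bh_of_state hΨ
  have h1 : ∀ s, pauliOp α L Λ pol Ψ s ∈ bhNF (Mode L Λ) := bh_pauli_mem pol h0
  have h2 : ∀ s, pauliOp α L Λ pol (pauliOp α L Λ pol Ψ) s ∈ bhNF (Mode L Λ) :=
    bh_pauli_mem pol h1
  have h3 : ∀ s, (fun s x => fieldEnergy L Λ (Ψ s x) : WaveFunction (Mode L Λ)) s ∈
      bhNF (Mode L Λ) := by
    intro s
    have := bh_lin (bhFE L Λ) (h0 s)
    have e : (fun x => bhFE L Λ (Ψ s x)) = fun x => fieldEnergy L Λ (Ψ s x) :=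
      funext fun x => bhFE_apply L Λ _
    rw [e] at this
    exact this
  have e1 : braket Ψ (hamiltonian α L Λ pol Ψ) =
      (1 / 2 : ℂ) * braket Ψ (pauliOp α L Λ pol (pauliOp α L Λ pol Ψ)) +
        braket Ψ (fun s x => fieldEnergy L Λ (Ψ s x)) := by
    unfold braket
    rw [← integral_const_mul, ← integral_add ((bh_int_sum h0 h2).const_mul _)
      (bh_int_sum h0 h3)]
    congr 1
    funext x
    rw [Finset.mul_sum, ← Finset.sum_add_distrib]
    refine Finset.sum_congr rfl fun s _ => ?_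
    unfold hamiltonian
    rw [inner_add_right, inner_smul_right]
  rw [e1, bh_pauli_symm pol h0 h1, Complex.add_re, bh_re h0 h3, ← bh_self_re h1]
  congr 1
  simp [Complex.mul_re]

theorem fieldEnergy_nonneg {L Λ : ℝ} (v : Fock (Mode L Λ)) :
    0 ≤ (inner ℂ v (fieldEnergy L Λ v) : ℂ).re := by
  unfold fieldEnergy
  rw [finsum_eq_sum_of_fintype, inner_sum, Complex.re_sum]
  refine Finset.sum_nonneg fun m _ => ?_
  rw [inner_smul_right, ← bh_adj, Complex.re_ofReal_mul]
  refine mul_nonneg (norm_nonneg _) ?_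
  exact inner_self_nonneg (𝕜 := ℂ) (x := an m v)

theorem energies_nonneg {α L Λ : ℝ} (hL : 0 < L) (pol : Mode L Λ → E3) (e : ℝ)
    (he : e ∈ energies α L Λ pol) : 0 ≤ e := by
  obtain ⟨Ψ, hΨ, _, rfl⟩ := he
  rw [braket_hamiltonian hL pol Ψ hΨ, bh_self_re (bh_of_state hΨ)]
  refine div_nonneg (add_nonneg (mul_nonneg (by norm_num) ?_) ?_) ?_
  · exact integral_nonneg fun x => Finset.sum_nonneg fun s _ => sq_nonneg _
  · exact integral_nonneg fun x => Finset.sum_nonneg fun s _ => fieldEnergy_nonneg _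
  · exact integral_nonneg fun x => Finset.sum_nonneg fun s _ => sq_nonneg _

end Pool.Agent.Helper985.PS
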