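import Pool.Agent.Helper985.PS.Defs

set_option autoImplicit false

open MeasureTheory
open scoped Topology

namespace Pool.Agent.Helper985.PS


theorem card_mode_bound (L Λ : ℝ) (hL : 0 < L) (n : Momentum L Λ) (i : Fin 3) :
    |(n.1 i : ℝ)| < L * Λ := by
  have hpi := Real.pi_gt_three
  have h1 : ‖(waveVector L n.1) i‖ ≤ ‖waveVector L n.1‖ := PiLp.norm_apply_le _ i
  have h2 : ‖(waveVector L n.1) i‖ = |2 * Real.pi / L| * |(n.1 i : ℝ)| := by
    simp [waveVector, abs_mul, abs_div]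
  have h3 := n.2.2
  rw [h2, abs_of_pos (by positivity)] at h1
  have h4 : 2 * Real.pi / L * |(n.1 i : ℝ)| < Λ := lt_of_le_of_lt h1 h3
  have h5 : 2 * Real.pi * |(n.1 i : ℝ)| < L * Λ := by
    have := mul_lt_mul_of_pos_left h4 hL
    calc 2 * Real.pi * |(n.1 i : ℝ)| = L * (2 * Real.pi / L * |(n.1 i : ℝ)|) := by
          field_simp
      _ < L * Λ := this
  have h6 : 0 ≤ |(n.1 i : ℝ)| := abs_nonneg _
  nlinarith

/-- number of modes -/
theorem card_mode : ∃ C : ℝ, 0 < C ∧ ∀ L Λ : ℝ, 0 < L → 1 ≤ L * Λ →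
    (Fintype.card (Mode L Λ) : ℝ) ≤ C * (L * Λ) ^ 3 := by
  refine ⟨54, by norm_num, fun L Λ hL hLΛ => ?_⟩
  set N : ℕ := ⌊L * Λ⌋₊ with hN
  have hNle : (N : ℝ) ≤ L * Λ := Nat.floor_le (by linarith)
  have key : ∀ (n : Momentum L Λ) (i : Fin 3), n.1 i ∈ Finset.Icc (-(N : ℤ)) (N : ℤ) := by
    intro n i
    have h := card_mode_bound L Λ hL n i
    have h1 : ((n.1 i).natAbs : ℝ) ≤ L * Λ := by
      have : ((n.1 i).natAbs : ℝ) = |(n.1 i : ℝ)| := by
        rw [Nat.cast_natAbs]; push_cast; rfl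
      rw [this]; exact h.le
    have h2 : (n.1 i).natAbs ≤ N := Nat.le_floor h1
    rw [Finset.mem_Icc]
    omega
  have hcard : Fintype.card (Momentum L Λ) ≤ (2 * N + 1) ^ 3 := by
    have hinj : Function.Injective (fun (n : Momentum L Λ) =>
        (fun i => (⟨n.1 i, key n i⟩ : Finset.Icc (-(N : ℤ)) (N : ℤ)) :
          Fin 3 → Finset.Icc (-(N : ℤ)) (N : ℤ))) := by
      intro a b hab
      apply Subtype.ext
      funext i
      have := congrFun hab i
      simpa using congrArg Subtype.val this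
    have h := Fintype.card_le_of_injective _ hinj
    refine h.trans (le_of_eq ?_)
    rw [Fintype.card_fun, Fintype.card_coe, Int.card_Icc, Fintype.card_fin]
    congr 1
    omega
  have hm : Fintype.card (Mode L Λ) = Fintype.card (Momentum L Λ) * 2 := by
    rw [Fintype.card_prod, Fintype.card_fin]
  rw [hm]
  push_cast
  have h3 : (Fintype.card (Momentum L Λ) : ℝ) ≤ (2 * (N : ℝ) + 1) ^ 3 := by
    exact_mod_cast hcard
  have h4 : (2 * (N : ℝ) + 1) ^ 3 ≤ (3 * (L * Λ)) ^ 3 := by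
    apply pow_le_pow_left₀ (by positivity)
    linarith
  nlinarith

end Pool.Agent.Helper985.PS
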