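import Pool.Agent.Helper985.PS.M_modefn
import Pool.Agent.Helper985.PS.Defs

set_option autoImplicit false

open MeasureTheory
open scoped Topology

namespace Pool.Agent.Helper985.PS




theorem mode_orthonormal_inner (L : ℝ) (n : Fin 3 → ℤ) (y : E3) :
    inner ℝ (waveVector L n) y = ∑ i, (2 * Real.pi / L) * (n i : ℝ) * y i := by
  simp only [PiLp.inner_apply, waveVector]
  refine Finset.sum_congr rfl fun i _ => ?_
  simp [mul_comm]

theorem mode_orthonormal_one {L : ℝ} (hL : 0 < L) (n : ℤ) :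
    ∫ t in Set.Ico (0 : ℝ) L, Complex.exp ((((2 * Real.pi / L) * (n : ℝ) * t : ℝ) : ℂ) * Complex.I) =
      if n = 0 then (L : ℂ) else 0 := by
  rw [integral_Ico_eq_integral_Ioc, ← intervalIntegral.integral_of_le hL.le]
  split_ifs with h
  · subst h
    simp
  · have hLc : (L : ℂ) ≠ 0 := by exact_mod_cast hL.ne'
    have hc : ((((2 * Real.pi / L) * (n : ℝ) : ℝ) : ℂ) * Complex.I) ≠ 0 := by
      refine mul_ne_zero ?_ Complex.I_ne_zero
      have h2 : (2 * Real.pi / L) * (n : ℝ) ≠ 0 := by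
        have h1 : (n : ℝ) ≠ 0 := by exact_mod_cast h
        have := Real.pi_pos
        positivity
      exact_mod_cast h2
    have h3 := integral_exp_mul_complex (a := 0) (b := L) hc
    have h4 : ∀ t : ℝ, Complex.exp ((((2 * Real.pi / L) * (n : ℝ) * t : ℝ) : ℂ) * Complex.I) =
        Complex.exp (((((2 * Real.pi / L) * (n : ℝ) : ℝ) : ℂ) * Complex.I) * t) := by
      intro t
      congr 1
      push_cast
      ring
    simp only [h4]
    rw [h3]
    have h5 : ((((2 * Real.pi / L) * (n : ℝ) : ℝ) : ℂ) * Complex.I) * (L : ℂ) =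
        n * (2 * Real.pi * Complex.I) := by
      push_cast
      field_simp
    rw [h5, Complex.exp_int_mul_two_pi_mul_I]
    simp

theorem mode_orthonormal_pre (L : ℝ) :
    (WithLp.toLp 2 : (Fin 3 → ℝ) → E3) ⁻¹' {y : E3 | ∀ i, 0 ≤ y i ∧ y i < L} =
      Set.univ.pi (fun _ => Set.Ico (0 : ℝ) L) := by
  ext x
  simp [Set.mem_pi]

theorem mode_orthonormal_vol (L : ℝ) :
    volume {y : E3 | ∀ i, 0 ≤ y i ∧ y i < L} ≠ ⊤ := by
  have hmeas : MeasurableSet {y : E3 | ∀ i, 0 ≤ y i ∧ y i < L} := by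
    have : {y : E3 | ∀ i, 0 ≤ y i ∧ y i < L} = ⋂ i, {y : E3 | 0 ≤ y i ∧ y i < L} := by
      ext y; simp
    rw [this]
    refine MeasurableSet.iInter fun i => ?_
    have hm : Measurable (fun y : E3 => y i) := by fun_prop
    exact hm measurableSet_Ico
  have h := (PiLp.volume_preserving_toLp (Fin 3)).measure_preimage hmeas.nullMeasurableSet
  rw [mode_orthonormal_pre] at h
  rw [← h, volume_pi, Measure.pi_pi]
  simp only [Real.volume_Ico, Finset.prod_const]
  exact ENNReal.pow_ne_top ENNReal.ofReal_ne_top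

theorem mode_orthonormal_exp {L : ℝ} (hL : 0 < L) (n : Fin 3 → ℤ) :
    ∫ y in {y : E3 | ∀ i, 0 ≤ y i ∧ y i < L},
      Complex.exp (((inner ℝ (waveVector L n) y : ℝ) : ℂ) * Complex.I) =
      if n = 0 then ((L ^ 3 : ℝ) : ℂ) else 0 := by
  have hemb : MeasurableEmbedding (WithLp.toLp 2 : (Fin 3 → ℝ) → E3) :=
    (MeasurableEquiv.toLp 2 (Fin 3 → ℝ)).measurableEmbedding
  rw [← (PiLp.volume_preserving_toLp (Fin 3)).setIntegral_preimage_emb hemb, mode_orthonormal_pre,
    volume_pi, Measure.restrict_pi_pi]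
  have h1 : ∀ x : Fin 3 → ℝ,
      Complex.exp (((inner ℝ (waveVector L n) (WithLp.toLp 2 x) : ℝ) : ℂ) * Complex.I) =
      ∏ i, Complex.exp ((((2 * Real.pi / L) * (n i : ℝ) * x i : ℝ) : ℂ) * Complex.I) := by
    intro x
    rw [← Complex.exp_sum, mode_orthonormal_inner, ← Finset.sum_mul]
    congr 2
    push_cast
    rfl
  simp only [h1]
  rw [integral_fintype_prod_eq_prod (fun i (t : ℝ) =>
    Complex.exp ((((2 * Real.pi / L) * (n i : ℝ) * t : ℝ) : ℂ) * Complex.I))]
  simp only [mode_orthonormal_one hL]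
  split_ifs with h
  · subst h
    simp
  · obtain ⟨i, hi⟩ : ∃ i, n i ≠ 0 := by
      by_contra hcon
      rw [not_exists] at hcon
      exact h (funext fun i => not_not.1 (hcon i))
    exact Finset.prod_eq_zero (Finset.mem_univ i) (if_neg hi)

theorem mode_orthonormal_int {L : ℝ} (f : E3 → ℂ) (hf : Continuous f) (hb : ∀ y, ‖f y‖ ≤ 1) :
    IntegrableOn f {y : E3 | ∀ i, 0 ≤ y i ∧ y i < L} :=
  Measure.integrableOn_of_bounded (mode_orthonormal_vol L) hf.aestronglyMeasurable
    (Filter.Eventually.of_forall hb)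

theorem mode_orthonormal_intR {L : ℝ} (f : E3 → ℝ) (hf : Continuous f) (hb : ∀ y, ‖f y‖ ≤ 1) :
    IntegrableOn f {y : E3 | ∀ i, 0 ≤ y i ∧ y i < L} :=
  Measure.integrableOn_of_bounded (mode_orthonormal_vol L) hf.aestronglyMeasurable
    (Filter.Eventually.of_forall hb)

theorem mode_orthonormal_cos {L : ℝ} (hL : 0 < L) (n : Fin 3 → ℤ) :
    ∫ y in {y : E3 | ∀ i, 0 ≤ y i ∧ y i < L}, Real.cos (inner ℝ (waveVector L n) y) =
      if n = 0 then L ^ 3 else 0 := by
  have h := integral_re (mode_orthonormal_int (L := L)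
    (fun y : E3 => Complex.exp (((inner ℝ (waveVector L n) y : ℝ) : ℂ) * Complex.I))
    (by fun_prop) (fun y => by rw [Complex.norm_exp_ofReal_mul_I]))
  rw [mode_orthonormal_exp hL] at h
  have h2 : ∀ y : E3, RCLike.re (Complex.exp (((inner ℝ (waveVector L n) y : ℝ) : ℂ) * Complex.I)) =
      Real.cos (inner ℝ (waveVector L n) y) := by
    intro y
    exact Complex.exp_ofReal_mul_I_re _
  simp only [h2] at h
  rw [h]
  split_ifs <;> simp [← Complex.ofReal_pow]

theorem mode_orthonormal_sin {L : ℝ} (hL : 0 < L) (n : Fin 3 → ℤ) :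
    ∫ y in {y : E3 | ∀ i, 0 ≤ y i ∧ y i < L}, Real.sin (inner ℝ (waveVector L n) y) = 0 := by
  have h := integral_im (mode_orthonormal_int (L := L)
    (fun y : E3 => Complex.exp (((inner ℝ (waveVector L n) y : ℝ) : ℂ) * Complex.I))
    (by fun_prop) (fun y => by rw [Complex.norm_exp_ofReal_mul_I]))
  rw [mode_orthonormal_exp hL] at h
  have h2 : ∀ y : E3, RCLike.im (Complex.exp (((inner ℝ (waveVector L n) y : ℝ) : ℂ) * Complex.I)) =
      Real.sin (inner ℝ (waveVector L n) y) := by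
    intro y
    exact Complex.exp_ofReal_mul_I_im _
  simp only [h2] at h
  rw [h]
  split_ifs <;> simp [← Complex.ofReal_pow]

theorem mode_orthonormal_cas {L Λ : ℝ} (m m' : Mode L Λ) (y : E3) :
    (Real.cos (inner ℝ m.k y) + Real.sin (inner ℝ m.k y)) *
      (Real.cos (inner ℝ m'.k y) + Real.sin (inner ℝ m'.k y)) =
    Real.cos (inner ℝ (waveVector L (m.1.1 - m'.1.1)) y) +
      Real.sin (inner ℝ (waveVector L (m.1.1 + m'.1.1)) y) := by
  have h1 : inner ℝ (waveVector L (m.1.1 - m'.1.1)) y = inner ℝ m.k y - inner ℝ m'.k y := by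
    simp only [Mode.k, mode_orthonormal_inner, ← Finset.sum_sub_distrib]
    refine Finset.sum_congr rfl fun i _ => ?_
    rw [Pi.sub_apply]
    push_cast
    ring
  have h2 : inner ℝ (waveVector L (m.1.1 + m'.1.1)) y = inner ℝ m.k y + inner ℝ m'.k y := by
    simp only [Mode.k, mode_orthonormal_inner, ← Finset.sum_add_distrib]
    refine Finset.sum_congr rfl fun i _ => ?_
    rw [Pi.add_apply]
    push_cast
    ring
  rw [h1, h2, Real.cos_sub, Real.sin_add]
  ring

/-- orthonormality of the modes on the box -/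
theorem mode_orthonormal {L Λ : ℝ} (hL : 0 < L) (pol : Mode L Λ → E3) (hp : IsPolarisation pol)
    (v : Mode L Λ → ℝ) :
    ∫ y in {y : E3 | ∀ i, 0 ≤ y i ∧ y i < L}, ‖vecPot (modeFn pol) v y‖ ^ 2 = ∑ m, v m ^ 2 := by
  have hL3 : (0 : ℝ) < L ^ 3 := by positivity
  have hexp : ∀ y : E3, ‖vecPot (modeFn pol) v y‖ ^ 2 =
      ∑ m : Mode L Λ, ∑ m' : Mode L Λ, (v m * v m' * (inner ℝ (pol m) (pol m') / L ^ 3)) *
        (Real.cos (inner ℝ (waveVector L (m.1.1 - m'.1.1)) y) +
          Real.sin (inner ℝ (waveVector L (m.1.1 + m'.1.1)) y)) := by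
    intro y
    rw [← real_inner_self_eq_norm_sq, vecPot, sum_inner]
    refine Finset.sum_congr rfl fun m _ => ?_
    rw [inner_sum]
    refine Finset.sum_congr rfl fun m' _ => ?_
    rw [← mode_orthonormal_cas, real_inner_smul_left, real_inner_smul_right, modeFn, modeFn,
      real_inner_smul_left, real_inner_smul_right]
    have hs : Real.sqrt (L ^ 3) * Real.sqrt (L ^ 3) = L ^ 3 := Real.mul_self_sqrt hL3.le
    have hs0 : Real.sqrt (L ^ 3) ≠ 0 := (Real.sqrt_pos.2 hL3).ne'
    generalize Real.sqrt (L ^ 3) = s at hs hs0 ⊢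
    rw [← hs]
    field_simp
  simp only [hexp]
  have hc : ∀ n : Fin 3 → ℤ, IntegrableOn (fun y : E3 => Real.cos (inner ℝ (waveVector L n) y))
      {y : E3 | ∀ i, 0 ≤ y i ∧ y i < L} := fun n =>
    mode_orthonormal_intR _ (by fun_prop) (fun y => Real.abs_cos_le_one _)
  have hsn : ∀ n : Fin 3 → ℤ, IntegrableOn (fun y : E3 => Real.sin (inner ℝ (waveVector L n) y))
      {y : E3 | ∀ i, 0 ≤ y i ∧ y i < L} := fun n =>
    mode_orthonormal_intR _ (by fun_prop) (fun y => Real.abs_sin_le_one _)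
  have hterm : ∀ m m' : Mode L Λ, IntegrableOn (fun y : E3 =>
      (v m * v m' * (inner ℝ (pol m) (pol m') / L ^ 3)) *
        (Real.cos (inner ℝ (waveVector L (m.1.1 - m'.1.1)) y) +
          Real.sin (inner ℝ (waveVector L (m.1.1 + m'.1.1)) y)))
      {y : E3 | ∀ i, 0 ≤ y i ∧ y i < L} := fun m m' =>
    ((hc _).add (hsn _)).const_mul _
  rw [integral_finset_sum _ (fun m _ => integrable_finset_sum _ (fun m' _ => hterm m m'))]
  refine Finset.sum_congr rfl fun m _ => ?_
  rw [integral_finset_sum _ (fun m' _ => hterm m m')]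
  have hval : ∀ m' : Mode L Λ, (∫ y in {y : E3 | ∀ i, 0 ≤ y i ∧ y i < L},
      (v m * v m' * (inner ℝ (pol m) (pol m') / L ^ 3)) *
        (Real.cos (inner ℝ (waveVector L (m.1.1 - m'.1.1)) y) +
          Real.sin (inner ℝ (waveVector L (m.1.1 + m'.1.1)) y))) =
      (v m * v m' * (inner ℝ (pol m) (pol m') / L ^ 3)) *
        (if m.1.1 - m'.1.1 = 0 then L ^ 3 else 0) := by
    intro m'
    rw [integral_const_mul, integral_add (hc _) (hsn _), mode_orthonormal_cos hL,
      mode_orthonormal_sin hL, add_zero]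
  simp only [hval]
  rw [Finset.sum_eq_single m]
  · obtain ⟨n, μ⟩ := m
    rw [hp.orthonormal n μ μ, if_pos rfl, sub_self, if_pos rfl]
    field_simp
  · intro m' _ hne
    by_cases h : m.1.1 - m'.1.1 = 0
    · have h1 : m.1 = m'.1 := Subtype.ext (sub_eq_zero.1 h)
      obtain ⟨n, μ⟩ := m
      obtain ⟨n', ν⟩ := m'
      simp only at h1
      subst h1
      have h2 : μ ≠ ν := by
        intro h3
        exact hne (by rw [h3])
      rw [hp.orthonormal n μ ν, if_neg h2]
      simp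
    · rw [if_neg h, mul_zero]
  · intro h
    exact absurd (Finset.mem_univ m) h

end Pool.Agent.Helper985.PS
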