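import Pool.Agent.Helper985.PS.Defs

set_option autoImplicit false

open MeasureTheory
open scoped Topology

namespace Pool.Agent.Helper985.PS




theorem ringAux_normsq (R s : ℝ) (y : E3) :
    ‖R • gam s - y‖ ^ 2 = (R * Real.cos s - y 0) ^ 2 + (R * Real.sin s - y 1) ^ 2 + y 2 ^ 2 := by
  rw [EuclideanSpace.real_norm_sq_eq, Fin.sum_univ_three]
  simp [gam]

theorem ringAux_norm_gam (s : ℝ) : ‖gam s‖ = 1 := by
  have h : ‖gam s‖ ^ 2 = 1 := by
    rw [EuclideanSpace.real_norm_sq_eq, Fin.sum_univ_three]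
    simp [gam]
  have h0 := norm_nonneg (gam s)
  nlinarith

theorem ringAux_alg (R r c : ℝ) (hR : 0 ≤ R) (hr : 0 ≤ r) (h1 : -1 ≤ c) (h2 : c ≤ 1) :
    R ^ 2 * ((1 - c) / 2) ≤ R ^ 2 + r ^ 2 - 2 * R * r * c := by
  rcases le_total 0 c with hc | hc
  · have e1 : R ^ 2 + r ^ 2 - 2 * R * r * c = (r - R * c) ^ 2 + R ^ 2 * ((1 - c) * (1 + c)) := by
      ring
    rw [e1]
    have e2 : R ^ 2 * ((1 - c) / 2) ≤ R ^ 2 * ((1 - c) * (1 + c)) := by
      apply mul_le_mul_of_nonneg_left _ (sq_nonneg R)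
      nlinarith
    nlinarith [sq_nonneg (r - R * c)]
  · have e1 : 0 ≤ -(2 * R * r * c) := by
      have : 0 ≤ R * r := mul_nonneg hR hr
      nlinarith
    have e2 : R ^ 2 * ((1 - c) / 2) ≤ R ^ 2 * 1 := by
      apply mul_le_mul_of_nonneg_left _ (sq_nonneg R)
      linarith
    nlinarith [sq_nonneg r]

theorem ringAux_polar (y : E3) : ∃ r s0 : ℝ, 0 ≤ r ∧ y 0 = r * Real.cos s0 ∧ y 1 = r * Real.sin s0 := by
  refine ⟨‖(⟨y 0, y 1⟩ : ℂ)‖, Complex.arg ⟨y 0, y 1⟩, norm_nonneg _, ?_, ?_⟩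
  · rw [Complex.norm_mul_cos_arg]
  · rw [Complex.norm_mul_sin_arg]

theorem ringAux_dist (R : ℝ) (hR : 0 ≤ R) (y : E3) (r s0 : ℝ) (hr : 0 ≤ r)
    (h0 : y 0 = r * Real.cos s0) (h1 : y 1 = r * Real.sin s0) (s : ℝ) :
    R * |Real.sin ((s - s0) / 2)| ≤ ‖R • gam s - y‖ := by
  apply le_of_sq_le_sq _ (norm_nonneg _)
  rw [ringAux_normsq, h0, h1, mul_pow, sq_abs]
  have hc : Real.cos (s - s0) = 1 - 2 * Real.sin ((s - s0) / 2) ^ 2 := by
    have := Real.cos_two_mul ((s - s0) / 2)
    have h3 := Real.sin_sq_add_cos_sq ((s - s0) / 2)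
    have h4 : 2 * ((s - s0) / 2) = s - s0 := by ring
    rw [h4] at this
    rw [this]; linarith
  have hsub := Real.cos_sub s s0
  have key := ringAux_alg R r (Real.cos (s - s0)) hR hr (Real.neg_one_le_cos _) (Real.cos_le_one _)
  have e1 : (1 - Real.cos (s - s0)) / 2 = Real.sin ((s - s0) / 2) ^ 2 := by rw [hc]; ring
  rw [e1] at key
  have hs := Real.sin_sq_add_cos_sq s
  have hs0 := Real.sin_sq_add_cos_sq s0
  have e2 : (R * Real.cos s - r * Real.cos s0) ^ 2 + (R * Real.sin s - r * Real.sin s0) ^ 2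
      = R ^ 2 * (Real.sin s ^ 2 + Real.cos s ^ 2) + r ^ 2 * (Real.sin s0 ^ 2 + Real.cos s0 ^ 2)
        - 2 * R * r * (Real.cos s * Real.cos s0 + Real.sin s * Real.sin s0) := by ring
  rw [e2, hs, hs0, ← hsub]
  nlinarith [sq_nonneg (y 2)]

theorem ringAux_continuous (R Λ : ℝ) (hΛ : 0 ≤ Λ) : Continuous (ringU R Λ) := by
  unfold ringU
  apply intervalIntegral.continuous_parametric_intervalIntegral_of_continuous'
  have hg : Continuous gam := by
    unfold gam
    apply (PiLp.continuous_toLp 2 _).comp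
    apply continuous_pi
    intro i
    fin_cases i
    · simpa using Real.continuous_cos
    · simpa using Real.continuous_sin
    · simpa using continuous_const
  apply Continuous.inv₀
  · apply Continuous.pow
    apply Continuous.add continuous_const
    apply Continuous.mul continuous_const
    apply Continuous.norm
    exact ((hg.comp continuous_snd).const_smul R).sub continuous_fst
  · rintro ⟨y, s⟩
    have : 0 < 1 + Λ * ‖R • gam s - y‖ := by positivity
    exact (pow_pos this 8).ne'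

theorem ringAux_cont_int (R Λ : ℝ) (hΛ : 0 ≤ Λ) (y : E3) :
    Continuous (fun s : ℝ => ((1 + Λ * ‖R • gam s - y‖) ^ 8)⁻¹) := by
  have hg : Continuous gam := by
    unfold gam
    apply (PiLp.continuous_toLp 2 _).comp
    apply continuous_pi
    intro i
    fin_cases i
    · simpa using Real.continuous_cos
    · simpa using Real.continuous_sin
    · simpa using continuous_const
  apply Continuous.inv₀
  · apply Continuous.pow
    apply Continuous.add continuous_const
    apply Continuous.mul continuous_const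
    apply Continuous.norm
    exact (hg.const_smul R).sub continuous_const
  · intro s
    have : 0 < 1 + Λ * ‖R • gam s - y‖ := by positivity
    exact (pow_pos this 8).ne'

/-- the comparison function -/
noncomputable def ringAuxQ (K u : ℝ) : ℝ := ((1 + K * |Real.sin (u / 2)|) ^ 8)⁻¹

theorem ringAuxQ_cont (K : ℝ) (hK : 0 ≤ K) : Continuous (ringAuxQ K) := by
  unfold ringAuxQ
  apply Continuous.inv₀
  · fun_prop
  · intro s
    have : 0 < 1 + K * |Real.sin (s / 2)| := by positivity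
    exact (pow_pos this 8).ne'

theorem ringAuxQ_periodic (K : ℝ) : Function.Periodic (ringAuxQ K) (2 * Real.pi) := by
  intro u
  unfold ringAuxQ
  have : (u + 2 * Real.pi) / 2 = u / 2 + Real.pi := by ring
  rw [this, Real.sin_add_pi, abs_neg]

theorem ringAuxQ_even (K u : ℝ) : ringAuxQ K (-u) = ringAuxQ K u := by
  unfold ringAuxQ
  rw [neg_div, Real.sin_neg, abs_neg]

theorem ringAuxQ_half (K : ℝ) (hK : 0 < K) :
    ∫ u in (0 : ℝ)..Real.pi, ringAuxQ K u ≤ Real.pi / K := by
  have hpi := Real.pi_pos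
  have hcont2 : ContinuousOn (fun u : ℝ => ((1 + K * u / Real.pi) ^ 2)⁻¹) (Set.Icc 0 Real.pi) := by
    apply ContinuousOn.inv₀
    · fun_prop
    · intro u hu
      have : 0 < 1 + K * u / Real.pi := by
        have := hu.1
        positivity
      exact (pow_pos this 2).ne'
  have step1 : ∫ u in (0 : ℝ)..Real.pi, ringAuxQ K u ≤
      ∫ u in (0 : ℝ)..Real.pi, ((1 + K * u / Real.pi) ^ 2)⁻¹ := by
    apply intervalIntegral.integral_mono_on hpi.le
    · exact (ringAuxQ_cont K hK.le).intervalIntegrable _ _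
    · apply ContinuousOn.intervalIntegrable
      rw [Set.uIcc_of_le hpi.le]
      exact hcont2
    · intro u hu
      have h1 : 0 < 1 + K * u / Real.pi := by
        have := hu.1
        positivity
      have hsin : u / Real.pi ≤ |Real.sin (u / 2)| := by
        have := Real.mul_le_sin (x := u / 2) (by linarith [hu.1]) (by linarith [hu.2])
        have e : 2 / Real.pi * (u / 2) = u / Real.pi := by field_simp
        rw [e] at this
        exact this.trans (le_abs_self _)
      have h2 : 1 + K * u / Real.pi ≤ 1 + K * |Real.sin (u / 2)| := by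
        have := mul_le_mul_of_nonneg_left hsin hK.le
        have e : K * (u / Real.pi) = K * u / Real.pi := by ring
        rw [e] at this
        linarith
      unfold ringAuxQ
      apply inv_anti₀ (pow_pos h1 2)
      calc (1 + K * u / Real.pi) ^ 2 ≤ (1 + K * |Real.sin (u / 2)|) ^ 2 :=
            pow_le_pow_left₀ h1.le h2 2
        _ ≤ (1 + K * |Real.sin (u / 2)|) ^ 8 := by
            apply pow_le_pow_right₀ _ (by norm_num)
            have : 0 ≤ K * |Real.sin (u / 2)| := by positivity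
            linarith
  have step2 : ∫ u in (0 : ℝ)..Real.pi, ((1 + K * u / Real.pi) ^ 2)⁻¹ =
      Real.pi / (1 + K * Real.pi / Real.pi) - 0 / (1 + K * 0 / Real.pi) := by
    apply intervalIntegral.integral_eq_sub_of_hasDerivAt (f := fun u : ℝ => u / (1 + K * u / Real.pi))
    · intro u hu
      rw [Set.uIcc_of_le hpi.le] at hu
      have h1 : 0 < 1 + K * u / Real.pi := by
        have := hu.1
        positivity
      have hd : HasDerivAt (fun u : ℝ => 1 + K * u / Real.pi) (K * 1 / Real.pi) u := by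
        exact (((hasDerivAt_id u).const_mul K).div_const Real.pi).const_add 1
      have := (hasDerivAt_id u).div hd h1.ne'
      have e : (1 * (1 + K * u / Real.pi) - id u * (K * 1 / Real.pi)) / (1 + K * u / Real.pi) ^ 2 =
          ((1 + K * u / Real.pi) ^ 2)⁻¹ := by
        have e2 : (1 * (1 + K * u / Real.pi) - id u * (K * 1 / Real.pi)) = 1 := by
          rw [id]
          ring
        rw [e2, one_div]
      rw [← e]
      exact this
    · apply ContinuousOn.intervalIntegrable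
      rw [Set.uIcc_of_le hpi.le]
      exact hcont2
  refine step1.trans ?_
  rw [step2]
  have e : K * Real.pi / Real.pi = K := by field_simp
  rw [e, zero_div, sub_zero]
  apply div_le_div_of_nonneg_left hpi.le hK
  linarith

theorem ringAuxQ_full (K s0 : ℝ) (hK : 0 < K) :
    ∫ s in (0 : ℝ)..(2 * Real.pi), ringAuxQ K (s - s0) ≤ 2 * Real.pi / K := by
  have hpi := Real.pi_pos
  rw [intervalIntegral.integral_comp_sub_right (fun u => ringAuxQ K u) s0]
  have h1 := (ringAuxQ_periodic K).intervalIntegral_add_eq (0 - s0) (-Real.pi)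
  have e1 : 0 - s0 + 2 * Real.pi = 2 * Real.pi - s0 := by ring
  have e2 : -Real.pi + 2 * Real.pi = Real.pi := by ring
  rw [e1, e2] at h1
  rw [h1]
  have hint : ∀ a b : ℝ, IntervalIntegrable (ringAuxQ K) volume a b :=
    fun a b => (ringAuxQ_cont K hK.le).intervalIntegrable _ _
  rw [← intervalIntegral.integral_add_adjacent_intervals (hint (-Real.pi) 0) (hint 0 Real.pi)]
  have e3 : ∫ u in (-Real.pi)..0, ringAuxQ K u = ∫ u in (0 : ℝ)..Real.pi, ringAuxQ K u := by
    have := intervalIntegral.integral_comp_neg (a := (0 : ℝ)) (b := Real.pi) (fun u => ringAuxQ K u)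
    rw [neg_zero] at this
    rw [← this]
    apply intervalIntegral.integral_congr
    intro u _
    exact ringAuxQ_even K u
  rw [e3]
  have := ringAuxQ_half K hK
  have e4 : 2 * Real.pi / K = Real.pi / K + Real.pi / K := by ring
  rw [e4]
  linarith

theorem ringAux_bound (R Λ : ℝ) (hR : 0 < R) (hΛ : 0 < Λ) (y : E3) :
    ringU R Λ y ≤ 2 * Real.pi / (Λ * R) := by
  obtain ⟨r, s0, hr, h0, h1⟩ := ringAux_polar y
  have hpi := Real.pi_pos
  have hK : 0 < Λ * R := mul_pos hΛ hR
  refine le_trans ?_ (ringAuxQ_full (Λ * R) s0 hK)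
  unfold ringU
  apply intervalIntegral.integral_mono_on (by positivity)
  · exact (ringAux_cont_int R Λ hΛ.le y).intervalIntegrable _ _
  · exact ((ringAuxQ_cont (Λ * R) hK.le).comp (continuous_sub_right s0)).intervalIntegrable _ _
  · intro s _
    unfold ringAuxQ
    have hd := ringAux_dist R hR.le y r s0 hr h0 h1 s
    have hpos : 0 < 1 + Λ * R * |Real.sin ((s - s0) / 2)| := by positivity
    apply inv_anti₀ (pow_pos hpos 8)
    apply pow_le_pow_left₀ hpos.le
    have := mul_le_mul_of_nonneg_left hd hΛ.le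
    nlinarith


theorem ringAux_far (R Λ : ℝ) (hR : 0 < R) (hΛ : 0 < Λ) (hK : 1 ≤ Λ * R) (y : E3) (t : ℝ)
    (ht : 1 ≤ t) (hy : 4 * R * t ≤ ‖y‖) :
    ringU R Λ y ≤ 2 * Real.pi / (Λ * R) * ((1 + t) ^ 6)⁻¹ := by
  have hpi := Real.pi_pos
  have h1 : ∫ s in (0 : ℝ)..(2 * Real.pi), ((1 + Λ * ‖R • gam s - y‖) ^ 8)⁻¹ ≤
      ∫ s in (0 : ℝ)..(2 * Real.pi), (1 / (Λ * R) * ((1 + t) ^ 6)⁻¹) := by
    apply intervalIntegral.integral_mono_on (by positivity)
    · exact (ringAux_cont_int R Λ hΛ.le y).intervalIntegrable _ _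
    · exact continuous_const.intervalIntegrable _ _
    · intro s _
      have hn : ‖R • gam s‖ = R := by
        rw [norm_smul, ringAux_norm_gam, mul_one, Real.norm_of_nonneg hR.le]
      have hd : ‖y‖ - R ≤ ‖R • gam s - y‖ := by
        have := norm_sub_norm_le y (R • gam s)
        rw [hn, norm_sub_rev] at this
        exact this
      have hd2 : 3 * R * t ≤ ‖R • gam s - y‖ := by nlinarith
      have hd3 : 3 * (Λ * R) * t ≤ Λ * ‖R • gam s - y‖ := by
        have := mul_le_mul_of_nonneg_left hd2 hΛ.le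
        nlinarith
      have h2t : 1 + t ≤ 3 * t := by linarith
      have h3 : 0 ≤ 3 * (Λ * R) * t := by positivity
      have h4 : Λ * R * (1 + t) ^ 6 ≤ (1 + Λ * ‖R • gam s - y‖) ^ 8 := by
        have hKt : 3 * t ≤ 3 * (Λ * R) * t := by nlinarith
        have a1 : (3 * t) ≤ 1 + Λ * ‖R • gam s - y‖ := by linarith
        have a2 : Λ * R ≤ 1 + Λ * ‖R • gam s - y‖ := by nlinarith
        have a3 : 1 ≤ 1 + Λ * ‖R • gam s - y‖ := by linarith
        have a4 : 1 + t ≤ 1 + Λ * ‖R • gam s - y‖ := h2t.trans a1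
        calc Λ * R * (1 + t) ^ 6 ≤ (1 + Λ * ‖R • gam s - y‖) * (1 + Λ * ‖R • gam s - y‖) ^ 6 := by
              apply mul_le_mul a2 (pow_le_pow_left₀ (by linarith) a4 6) (by positivity) (by linarith)
          _ = (1 + Λ * ‖R • gam s - y‖) ^ 7 := by ring
          _ ≤ (1 + Λ * ‖R • gam s - y‖) ^ 8 := pow_le_pow_right₀ a3 (by norm_num)
      have h5 : 1 / (Λ * R) * ((1 + t) ^ 6)⁻¹ = (Λ * R * (1 + t) ^ 6)⁻¹ := by
        rw [mul_inv, one_div]
      rw [h5]
      exact inv_anti₀ (by positivity) h4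
  unfold ringU
  refine h1.trans ?_
  rw [intervalIntegral.integral_const]
  simp only [sub_zero, smul_eq_mul]
  apply le_of_eq
  ring

/-- one dimensional weight -/
noncomputable def ringAuxW (k : ℤ) : ℝ := ((1 + |(k : ℝ)|) ^ 2)⁻¹

theorem ringAuxW_nonneg (k : ℤ) : 0 ≤ ringAuxW k := by unfold ringAuxW; positivity

theorem ringAuxW_summable : Summable ringAuxW := by
  have h : Summable (fun n : ℕ => ((1 + (n : ℝ)) ^ 2)⁻¹) := by
    have h0 := (summable_nat_add_iff (f := fun n : ℕ => ((n : ℝ) ^ 2)⁻¹) 1).2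
      (Real.summable_nat_pow_inv.2 (by norm_num))
    refine h0.congr ?_
    intro n
    push_cast
    rw [add_comm]
  apply Summable.of_nat_of_neg
  · refine h.congr ?_
    intro n
    unfold ringAuxW
    simp
  · refine h.congr ?_
    intro n
    unfold ringAuxW
    simp

/-- three dimensional weight -/
noncomputable def ringAuxW3 (m : Fin 3 → ℤ) : ℝ :=
  ringAuxW (m 0) * (ringAuxW (m 1) * ringAuxW (m 2))

def ringAuxEquiv : (Fin 3 → ℤ) ≃ ℤ × (ℤ × ℤ) where
  toFun m := (m 0, (m 1, m 2))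
  invFun p := ![p.1, p.2.1, p.2.2]
  left_inv m := by
    ext i
    fin_cases i <;> rfl
  right_inv p := by
    rcases p with ⟨a, b, c⟩
    rfl

theorem ringAuxW3_summable : Summable ringAuxW3 := by
  have h2 : Summable (fun p : ℤ × ℤ => ringAuxW p.1 * ringAuxW p.2) :=
    ringAuxW_summable.mul_of_nonneg ringAuxW_summable ringAuxW_nonneg ringAuxW_nonneg
  have h3 : Summable (fun p : ℤ × (ℤ × ℤ) => ringAuxW p.1 * (ringAuxW p.2.1 * ringAuxW p.2.2)) :=
    ringAuxW_summable.mul_of_nonneg h2 ringAuxW_nonneg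
      (fun p => mul_nonneg (ringAuxW_nonneg _) (ringAuxW_nonneg _))
  exact (ringAuxEquiv.summable_iff (f := fun p : ℤ × (ℤ × ℤ) =>
    ringAuxW p.1 * (ringAuxW p.2.1 * ringAuxW p.2.2))).2 h3

theorem ringAux_norm_coord (z : E3) (i : Fin 3) : |z i| ≤ ‖z‖ := by
  have := PiLp.norm_apply_le z i
  simpa using this

theorem ringAux_term (L Λ R : ℝ) (hR : 0 < R) (hΛ : 0 < Λ) (hK : 1 ≤ Λ * R) (hL : 8 * R ≤ L)
    (z : E3) (hz : ∀ i, |z i| ≤ L / 2) (m : Fin 3 → ℤ) :
    ringU R Λ (z + WithLp.toLp 2 (fun i => L * (m i : ℝ))) ≤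
      2 * Real.pi / (Λ * R) * ringAuxW3 m := by
  have hpi := Real.pi_pos
  have hLpos : 0 < L := by linarith
  -- the largest coordinate
  obtain ⟨j, hj⟩ : ∃ j : Fin 3, ∀ i, |(m i : ℝ)| ≤ |(m j : ℝ)| := Finite.exists_max _
  by_cases h0 : m j = 0
  · have hall : ∀ i, m i = 0 := by
      intro i
      have := hj i
      rw [h0] at this
      simp only [Int.cast_zero, abs_zero] at this
      have h2 := abs_nonpos_iff.1 this
      exact_mod_cast h2
    have hW : ringAuxW3 m = 1 := by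
      unfold ringAuxW3 ringAuxW
      rw [hall 0, hall 1, hall 2]
      norm_num
    rw [hW, mul_one]
    exact ringAux_bound R Λ hR hΛ _
  · have ht : 1 ≤ |(m j : ℝ)| := by
      have : (1 : ℤ) ≤ |m j| := Int.one_le_abs h0
      exact_mod_cast this
    have hnorm : 4 * R * |(m j : ℝ)| ≤ ‖z + WithLp.toLp 2 (fun i => L * (m i : ℝ))‖ := by
      refine le_trans ?_ (ringAux_norm_coord _ j)
      have e : (z + WithLp.toLp 2 (fun i => L * (m i : ℝ)) : E3) j = z j + L * (m j : ℝ) := by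
        simp
      rw [e]
      have h1 : |L * (m j : ℝ)| - |z j| ≤ |z j + L * (m j : ℝ)| := by
        have := abs_sub_abs_le_abs_sub (L * (m j : ℝ)) (-(z j))
        rw [abs_neg, sub_neg_eq_add, add_comm (L * (m j : ℝ))] at this
        exact this
      rw [abs_mul, abs_of_pos hLpos] at h1
      have h2 := hz j
      nlinarith
    refine (ringAux_far R Λ hR hΛ hK _ _ ht hnorm).trans ?_
    apply mul_le_mul_of_nonneg_left _ (by positivity)
    unfold ringAuxW3 ringAuxW
    rw [← mul_inv, ← mul_inv]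
    apply inv_anti₀ (by positivity)
    have b : ∀ i, (1 + |(m i : ℝ)|) ^ 2 ≤ (1 + |(m j : ℝ)|) ^ 2 := fun i =>
      pow_le_pow_left₀ (by positivity) (by linarith [hj i]) 2
    calc (1 + |(m 0 : ℝ)|) ^ 2 * ((1 + |(m 1 : ℝ)|) ^ 2 * (1 + |(m 2 : ℝ)|) ^ 2)
        ≤ (1 + |(m j : ℝ)|) ^ 2 * ((1 + |(m j : ℝ)|) ^ 2 * (1 + |(m j : ℝ)|) ^ 2) := by
          apply mul_le_mul (b 0) _ (by positivity) (by positivity)
          exact mul_le_mul (b 1) (b 2) (by positivity) (by positivity)
      _ = (1 + |(m j : ℝ)|) ^ 6 := by ring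

theorem ringAux_nonneg (R Λ : ℝ) (hΛ : 0 < Λ) (y : E3) : 0 ≤ ringU R Λ y := by
  unfold ringU
  apply intervalIntegral.integral_nonneg (by positivity)
  intro s _
  positivity

theorem ringU_sum : ∃ C : ℝ, 0 < C ∧ ∀ (L Λ R : ℝ), 0 < R → 0 < Λ → 1 ≤ Λ * R → 8 * R ≤ L →
    Continuous (ringU R Λ) ∧
    ∀ y : E3, Summable (fun n : Fin 3 → ℤ =>
        ringU R Λ (y + WithLp.toLp 2 (fun i => L * (n i : ℝ)))) ∧
      ∑' n : Fin 3 → ℤ, ringU R Λ (y + WithLp.toLp 2 (fun i => L * (n i : ℝ))) ≤ C / (Λ * R) := by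
  have hpi := Real.pi_pos
  have hS0 : 0 ≤ ∑' m, ringAuxW3 m := tsum_nonneg (fun m =>
    mul_nonneg (ringAuxW_nonneg _) (mul_nonneg (ringAuxW_nonneg _) (ringAuxW_nonneg _)))
  refine ⟨2 * Real.pi * (∑' m, ringAuxW3 m) + 1, by positivity, ?_⟩
  intro L Λ R hR hΛ hK hL
  refine ⟨ringAux_continuous R Λ hΛ.le, ?_⟩
  intro y
  have hLpos : 0 < L := by linarith
  have hKpos : 0 < Λ * R := by positivity
  -- nearest lattice point
  set n0 : Fin 3 → ℤ := fun i => -round (y i / L) with hn0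
  set z : E3 := y + WithLp.toLp 2 (fun i => L * (n0 i : ℝ)) with hz
  have hzb : ∀ i, |z i| ≤ L / 2 := by
    intro i
    have e : z i = L * (y i / L - round (y i / L)) := by
      rw [hz]
      simp only [hn0, PiLp.add_apply, Int.cast_neg]
      field_simp
      ring
    rw [e, abs_mul, abs_of_pos hLpos]
    have := abs_sub_round (y i / L)
    nlinarith
  have hfun : ∀ m : Fin 3 → ℤ, y + WithLp.toLp 2 (fun i => L * (((n0 + m) i : ℤ) : ℝ)) =
      z + (WithLp.toLp 2 (fun i => L * (m i : ℝ)) : E3) := by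
    intro m
    ext i
    simp only [hz, PiLp.add_apply, Pi.add_apply, Int.cast_add]
    ring
  have hterm : ∀ m : Fin 3 → ℤ,
      ringU R Λ (y + WithLp.toLp 2 (fun i => L * (((n0 + m) i : ℤ) : ℝ))) ≤
        2 * Real.pi / (Λ * R) * ringAuxW3 m := by
    intro m
    rw [hfun]
    exact ringAux_term L Λ R hR hΛ hK hL z hzb m
  have hmaj : Summable (fun m => 2 * Real.pi / (Λ * R) * ringAuxW3 m) :=
    ringAuxW3_summable.mul_left _
  have hsum : Summable (fun m : Fin 3 → ℤ =>
      ringU R Λ (y + WithLp.toLp 2 (fun i => L * (((n0 + m) i : ℤ) : ℝ)))) :=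
    Summable.of_nonneg_of_le (fun m => ringAux_nonneg R Λ hΛ _) hterm hmaj
  have hsum2 : Summable (fun n : Fin 3 → ℤ =>
      ringU R Λ (y + WithLp.toLp 2 (fun i => L * (n i : ℝ)))) :=
    ((Equiv.addLeft n0).summable_iff (f := fun n : Fin 3 → ℤ =>
      ringU R Λ (y + WithLp.toLp 2 (fun i => L * (n i : ℝ))))).1 hsum
  refine ⟨hsum2, ?_⟩
  have e1 := (Equiv.addLeft n0).tsum_eq (fun n : Fin 3 → ℤ =>
      ringU R Λ (y + WithLp.toLp 2 (fun i => L * (n i : ℝ))))
  rw [← e1]
  have e2 : ∑' m : Fin 3 → ℤ, ringU R Λ (y + WithLp.toLp 2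
      (fun i => L * (((Equiv.addLeft n0) m i : ℤ) : ℝ))) ≤
      ∑' m, 2 * Real.pi / (Λ * R) * ringAuxW3 m :=
    Summable.tsum_le_tsum hterm hsum hmaj
  refine e2.trans ?_
  rw [tsum_mul_left]
  rw [div_mul_eq_mul_div]
  apply div_le_div_of_nonneg_right _ hKpos.le
  linarith

end Pool.Agent.Helper985.PS
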