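import Pool.Agent.Helper985.PS.Defs

set_option autoImplicit false

open MeasureTheory
open scoped Topology

namespace Pool.Agent.Helper985.PS


theorem unfold_periodic_coord (L : ℝ) (n : Fin 3 → ℤ) (y : E3) (i : Fin 3) :
    (y + WithLp.toLp 2 (fun i => L * (n i : ℝ)) : E3) i = y i + L * (n i : ℝ) := rfl

theorem unfold_periodic_meas (a b : Fin 3 → ℝ) :
    MeasurableSet {y : E3 | ∀ i, a i ≤ y i ∧ y i < b i} := by
  have h : {y : E3 | ∀ i, a i ≤ y i ∧ y i < b i} =
      ⋂ i, ({y : E3 | a i ≤ y i} ∩ {y : E3 | y i < b i}) := by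
    ext y
    simp
  rw [h]
  apply MeasurableSet.iInter
  intro i
  have hc : Continuous (fun y : E3 => y i) := by fun_prop
  exact (measurableSet_le measurable_const hc.measurable).inter
    (measurableSet_lt hc.measurable measurable_const)

theorem unfold_periodic_shift (L : ℝ) (n : Fin 3 → ℤ) (F : E3 → ENNReal) :
    ∫⁻ y in {y : E3 | ∀ i, L * (n i : ℝ) ≤ y i ∧ y i < L * (n i : ℝ) + L}, F y =
      ∫⁻ y in {y : E3 | ∀ i, 0 ≤ y i ∧ y i < L},
        F (y + WithLp.toLp 2 (fun i => L * (n i : ℝ))) := by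
  rw [← lintegral_indicator (unfold_periodic_meas _ _),
    ← lintegral_indicator (unfold_periodic_meas (fun _ => 0) (fun _ => L)),
    ← lintegral_add_right_eq_self _ (WithLp.toLp 2 (fun i => L * (n i : ℝ)) : E3)]
  congr 1
  funext y
  by_cases h : ∀ i, 0 ≤ y i ∧ y i < L
  · rw [Set.indicator_of_mem, Set.indicator_of_mem]
    · exact h
    · intro i
      rw [unfold_periodic_coord]
      have := h i
      constructor
      · linarith
      · linarith
  · rw [Set.indicator_of_notMem, Set.indicator_of_notMem]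
    · exact h
    · intro h'
      apply h
      intro i
      have := h' i
      rw [unfold_periodic_coord] at this
      constructor
      · linarith
      · linarith

/-- unfolding an integral of a periodic function -/
theorem unfold_periodic (L : ℝ) (hL : 0 < L) (u g : E3 → ℝ) (hu : Continuous u)
    (hu0 : ∀ y, 0 ≤ u y) (hg : Continuous g) (hg0 : ∀ y, 0 ≤ g y)
    (hper : ∀ (y : E3) (n : Fin 3 → ℤ), g (y + WithLp.toLp 2 (fun i => L * (n i : ℝ))) = g y)
    (B : ℝ) (hB0 : 0 ≤ B)
    (hB : ∀ y : E3, Summable (fun n : Fin 3 → ℤ => u (y + WithLp.toLp 2 (fun i => L * (n i : ℝ)))) ∧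
      ∑' n : Fin 3 → ℤ, u (y + WithLp.toLp 2 (fun i => L * (n i : ℝ))) ≤ B) :
    ∫ y, u y * g y ≤ B * ∫ y in {y : E3 | ∀ i, 0 ≤ y i ∧ y i < L}, g y := by
  set Q : (Fin 3 → ℤ) → Set E3 :=
    fun n => {y : E3 | ∀ i, L * (n i : ℝ) ≤ y i ∧ y i < L * (n i : ℝ) + L} with hQ
  have hQm : ∀ n, MeasurableSet (Q n) := fun n => unfold_periodic_meas _ _
  have hfloor : ∀ (n : Fin 3 → ℤ) (y : E3), y ∈ Q n → ∀ i, n i = ⌊y i / L⌋ := by
    intro n y hy i
    have h1 := hy i
    symm
    rw [Int.floor_eq_iff]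
    constructor
    · rw [le_div_iff₀ hL, mul_comm]
      exact h1.1
    · rw [div_lt_iff₀ hL]
      linarith
  have hQd : Pairwise (Function.onFun Disjoint Q) := by
    intro n m hnm
    rw [Function.onFun, Set.disjoint_left]
    intro y hy hy'
    apply hnm
    funext i
    rw [hfloor n y hy i, hfloor m y hy' i]
  have hQu : ⋃ n, Q n = Set.univ := by
    apply Set.eq_univ_of_forall
    intro y
    rw [Set.mem_iUnion]
    refine ⟨fun i => ⌊y i / L⌋, fun i => ?_⟩
    have h1 := Int.floor_le (y i / L)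
    have h2 := Int.lt_floor_add_one (y i / L)
    rw [le_div_iff₀ hL] at h1
    rw [div_lt_iff₀ hL] at h2
    constructor
    · linarith
    · linarith
  have hmain : ∫⁻ y, ENNReal.ofReal (u y * g y) ≤
      ENNReal.ofReal B * ∫⁻ y in {y : E3 | ∀ i, 0 ≤ y i ∧ y i < L}, ENNReal.ofReal (g y) := by
    calc ∫⁻ y, ENNReal.ofReal (u y * g y)
        = ∫⁻ y in ⋃ n, Q n, ENNReal.ofReal (u y * g y) := by
          rw [hQu, Measure.restrict_univ]
      _ = ∑' n, ∫⁻ y in Q n, ENNReal.ofReal (u y * g y) := lintegral_iUnion hQm hQd _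
      _ = ∑' n : Fin 3 → ℤ, ∫⁻ y in {y : E3 | ∀ i, 0 ≤ y i ∧ y i < L},
            ENNReal.ofReal (u (y + WithLp.toLp 2 (fun i => L * (n i : ℝ))) * g y) := by
          congr 1
          funext n
          rw [hQ]
          simp only
          rw [unfold_periodic_shift]
          congr 1
          funext y
          rw [hper]
      _ = ∫⁻ y in {y : E3 | ∀ i, 0 ≤ y i ∧ y i < L}, ∑' n : Fin 3 → ℤ,
            ENNReal.ofReal (u (y + WithLp.toLp 2 (fun i => L * (n i : ℝ))) * g y) := by
          rw [lintegral_tsum]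
          intro n
          apply Measurable.aemeasurable
          apply Measurable.ennreal_ofReal
          apply Continuous.measurable
          exact (hu.comp (continuous_id.add continuous_const)).mul hg
      _ ≤ ∫⁻ y in {y : E3 | ∀ i, 0 ≤ y i ∧ y i < L}, ENNReal.ofReal B * ENNReal.ofReal (g y) := by
          apply lintegral_mono
          intro y
          simp only
          have h1 : ∀ n : Fin 3 → ℤ,
              ENNReal.ofReal (u (y + WithLp.toLp 2 (fun i => L * (n i : ℝ))) * g y) =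
              ENNReal.ofReal (u (y + WithLp.toLp 2 (fun i => L * (n i : ℝ)))) *
                ENNReal.ofReal (g y) := fun n => ENNReal.ofReal_mul (hu0 _)
          simp only [h1]
          rw [ENNReal.tsum_mul_right]
          apply mul_le_mul_left
          rw [← ENNReal.ofReal_tsum_of_nonneg (fun n => hu0 _) (hB y).1]
          exact ENNReal.ofReal_le_ofReal (hB y).2
      _ = ENNReal.ofReal B * ∫⁻ y in {y : E3 | ∀ i, 0 ≤ y i ∧ y i < L}, ENNReal.ofReal (g y) := by
          rw [lintegral_const_mul]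
          exact hg.measurable.ennreal_ofReal
  have hfin : ∫⁻ y in {y : E3 | ∀ i, 0 ≤ y i ∧ y i < L}, ENNReal.ofReal (g y) ≠ ⊤ := by
    have hK : IsCompact ((WithLp.toLp 2 : (Fin 3 → ℝ) → E3) ''
        (Set.univ.pi fun _ => Set.Icc 0 L)) :=
      (isCompact_univ_pi fun _ => isCompact_Icc).image (PiLp.continuous_toLp 2 _)
    have hsub : {y : E3 | ∀ i, 0 ≤ y i ∧ y i < L} ⊆ (WithLp.toLp 2 : (Fin 3 → ℝ) → E3) ''
        (Set.univ.pi fun _ => Set.Icc 0 L) := by
      intro y hy
      exact ⟨y.ofLp, fun i _ => ⟨(hy i).1, (hy i).2.le⟩, rfl⟩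
    have hint : IntegrableOn g {y : E3 | ∀ i, 0 ≤ y i ∧ y i < L} :=
      (hg.continuousOn.integrableOn_compact hK).mono_set hsub
    exact hint.lintegral_lt_top.ne
  rw [integral_eq_lintegral_of_nonneg_ae (Filter.Eventually.of_forall fun y =>
      mul_nonneg (hu0 y) (hg0 y)) (hu.mul hg).aestronglyMeasurable,
    integral_eq_lintegral_of_nonneg_ae (Filter.Eventually.of_forall fun y => hg0 y)
      hg.aestronglyMeasurable]
  have h2 := ENNReal.toReal_mono (ENNReal.mul_ne_top ENNReal.ofReal_ne_top hfin) hmain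
  rwa [ENNReal.toReal_mul, ENNReal.toReal_ofReal hB0] at h2

end Pool.Agent.Helper985.PS
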