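import Pool.Agent.Helper985.PS.M_band_sup
import Pool.Agent.Helper985.PS.M_mode_orthonormal
import Pool.Agent.Helper985.PS.M_modefn
import Pool.Agent.Helper985.PS.M_ringU_sum
import Pool.Agent.Helper985.PS.M_unfold_periodic
import Pool.Agent.Helper985.PS.Defs

set_option autoImplicit false

open MeasureTheory
open scoped Topology

namespace Pool.Agent.Helper985.PS










theorem cb_cont_gam : Continuous gam := by
  unfold gam
  refine (PiLp.continuous_toLp 2 _).comp ?_
  refine continuous_pi fun i => ?_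
  fin_cases i
  · exact Real.continuous_cos
  · exact Real.continuous_sin
  · exact continuous_const

theorem cb_cont_tau : Continuous tau := by
  unfold tau
  refine (PiLp.continuous_toLp 2 _).comp ?_
  refine continuous_pi fun i => ?_
  fin_cases i
  · exact Real.continuous_sin.neg
  · exact Real.continuous_cos
  · exact continuous_const

theorem cb_norm_tau (s : ℝ) : ‖tau s‖ = 1 := by
  have h : ‖tau s‖ ^ 2 = 1 := by
    rw [EuclideanSpace.norm_sq_eq, Fin.sum_univ_three]
    simp [tau]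
  have h0 := norm_nonneg (tau s)
  nlinarith

theorem cb_norm_gam (s : ℝ) : ‖gam s‖ = 1 := by
  have h : ‖gam s‖ ^ 2 = 1 := by
    rw [EuclideanSpace.norm_sq_eq, Fin.sum_univ_three]
    simp [gam]
  have h0 := norm_nonneg (gam s)
  nlinarith

theorem cb_per {L Λ : ℝ} (hL : 0 < L) (pol : Mode L Λ → E3) (m : Mode L Λ) (y : E3)
    (n : Fin 3 → ℤ) :
    modeFn pol m (y + WithLp.toLp 2 (fun i => L * (n i : ℝ))) = modeFn pol m y := by
  unfold modeFn
  have h : inner ℝ m.k (y + WithLp.toLp 2 (fun i => L * (n i : ℝ))) =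
      inner ℝ m.k y + ((∑ i, m.1.1 i * n i : ℤ) : ℝ) * (2 * Real.pi) := by
    rw [inner_add_right]
    congr 1
    unfold Mode.k waveVector
    rw [PiLp.inner_apply]
    push_cast
    rw [Finset.sum_mul]
    refine Finset.sum_congr rfl fun i _ => ?_
    simp
    field_simp
  rw [h, Real.cos_add_int_mul_two_pi, Real.sin_add_int_mul_two_pi]

theorem cb_int (Λ : ℝ) (hΛ : 0 < Λ) : Integrable (fun y : E3 => ((1 + Λ * ‖y‖) ^ 8)⁻¹) := by
  have h := integrable_one_add_norm (E := E3) (μ := volume) (r := 8) (by simp; norm_num)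
  set c := min 1 Λ with hc'
  have hc : 0 < c := lt_min one_pos hΛ
  have hcont : Continuous (fun y : E3 => ((1 + Λ * ‖y‖) ^ 8)⁻¹) := by
    refine Continuous.inv₀ (by fun_prop) (fun y => ?_)
    positivity
  refine (h.const_mul ((c ^ 8)⁻¹)).mono' hcont.aestronglyMeasurable
    (Filter.Eventually.of_forall fun y => ?_)
  rw [Real.norm_of_nonneg (by positivity), Real.rpow_neg (by positivity)]
  have : (1 + ‖y‖) ^ (8 : ℝ) = (1 + ‖y‖) ^ 8 := by exact_mod_cast Real.rpow_natCast _ 8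
  rw [this, ← mul_inv]
  apply inv_anti₀ (by positivity)
  rw [← mul_pow]
  apply pow_le_pow_left₀ (by positivity)
  have h1 : c ≤ 1 := min_le_left _ _
  have h2 : c ≤ Λ := min_le_right _ _
  nlinarith [norm_nonneg y]

theorem cb_dom {R Λ : ℝ} (hR : 0 < R) (hΛ : 0 < Λ) (s : ℝ) (y : E3) :
    ((1 + Λ * ‖R • gam s - y‖) ^ 8)⁻¹ ≤ (1 + Λ * R) ^ 8 * ((1 + Λ * ‖y‖) ^ 8)⁻¹ := by
  have h1 : ‖y‖ ≤ ‖R • gam s - y‖ + R := by
    have h2 : ‖R • gam s‖ = R := by
      rw [norm_smul, cb_norm_gam, mul_one, Real.norm_of_nonneg hR.le]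
    have h3 : y = R • gam s - (R • gam s - y) := by abel
    calc ‖y‖ = ‖R • gam s - (R • gam s - y)‖ := by rw [← h3]
      _ ≤ ‖R • gam s‖ + ‖R • gam s - y‖ := norm_sub_le _ _
      _ = ‖R • gam s - y‖ + R := by rw [h2, add_comm]
  have h0 := norm_nonneg (R • gam s - y)
  have h4 : 1 + Λ * ‖y‖ ≤ (1 + Λ * R) * (1 + Λ * ‖R • gam s - y‖) := by
    have h5 : Λ * ‖y‖ ≤ Λ * (‖R • gam s - y‖ + R) := mul_le_mul_of_nonneg_left h1 hΛ.le
    have h6 : 0 ≤ (Λ * R) * (Λ * ‖R • gam s - y‖) := by positivity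
    nlinarith
  have h7 : (1 + Λ * ‖y‖) ^ 8 ≤ (1 + Λ * R) ^ 8 * (1 + Λ * ‖R • gam s - y‖) ^ 8 := by
    rw [← mul_pow]
    exact pow_le_pow_left₀ (by positivity) h4 8
  have h8 : 0 < (1 + Λ * ‖y‖) ^ 8 := by positivity
  have h9 : 0 < (1 + Λ * ‖R • gam s - y‖) ^ 8 := by positivity
  rw [← div_eq_mul_inv, inv_eq_one_div, div_le_div_iff₀ h9 h8]
  linarith

theorem cb_fub {R Λ : ℝ} (hR : 0 < R) (hΛ : 0 < Λ) (g : E3 → ℝ) (hg : Continuous g) (Bg : ℝ)
    (hg0 : ∀ y, 0 ≤ g y) (hgB : ∀ y, g y ≤ Bg) :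
    IntervalIntegrable (fun s => ∫ y, ((1 + Λ * ‖R • gam s - y‖) ^ 8)⁻¹ * g y) volume 0
      (2 * Real.pi) ∧
    ∫ s in (0 : ℝ)..(2 * Real.pi), (∫ y, ((1 + Λ * ‖R • gam s - y‖) ^ 8)⁻¹ * g y) =
      ∫ y, ringU R Λ y * g y := by
  have hpi : (0 : ℝ) ≤ 2 * Real.pi := by positivity
  have hcont : Continuous (fun z : ℝ × E3 => ((1 + Λ * ‖R • gam z.1 - z.2‖) ^ 8)⁻¹ * g z.2) := by
    have h1 : Continuous (fun z : ℝ × E3 => gam z.1) := cb_cont_gam.comp continuous_fst
    refine Continuous.mul (Continuous.inv₀ (by fun_prop) (fun z => ?_)) (hg.comp continuous_snd)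
    positivity
  have hint : Integrable (fun z : ℝ × E3 => ((1 + Λ * ‖R • gam z.1 - z.2‖) ^ 8)⁻¹ * g z.2)
      ((volume.restrict (Set.Ioc 0 (2 * Real.pi))).prod volume) := by
    have h1 : Integrable (fun _ : ℝ => (1 : ℝ)) (volume.restrict (Set.Ioc 0 (2 * Real.pi))) :=
      integrable_const 1
    have h2 : Integrable (fun y : E3 => Bg * ((1 + Λ * R) ^ 8 * ((1 + Λ * ‖y‖) ^ 8)⁻¹)) :=
      ((cb_int Λ hΛ).const_mul _).const_mul _
    refine (h1.mul_prod h2).mono' hcont.aestronglyMeasurable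
      (Filter.Eventually.of_forall fun z => ?_)
    rw [Real.norm_of_nonneg (mul_nonneg (by positivity) (hg0 _)), one_mul, mul_comm]
    exact mul_le_mul (hgB _) (cb_dom hR hΛ _ _) (by positivity) ((hg0 z.2).trans (hgB _))
  constructor
  · rw [intervalIntegrable_iff_integrableOn_Ioc_of_le hpi]
    exact hint.integral_prod_left
  · rw [intervalIntegral.integral_of_le hpi]
    rw [integral_integral_swap hint]
    refine integral_congr_ae (Filter.Eventually.of_forall fun y => ?_)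
    simp only
    unfold ringU
    rw [intervalIntegral.integral_of_le hpi, ← integral_mul_const]

theorem cb_cs (f : ℝ → ℝ) (hf : Continuous f) :
    (∫ s in (0 : ℝ)..(2 * Real.pi), f s) ^ 2 ≤
      2 * Real.pi * ∫ s in (0 : ℝ)..(2 * Real.pi), f s ^ 2 := by
  have hpi : (0 : ℝ) < 2 * Real.pi := by positivity
  set I := ∫ s in (0 : ℝ)..(2 * Real.pi), f s with hI
  set J := ∫ s in (0 : ℝ)..(2 * Real.pi), f s ^ 2 with hJ
  have h1 : 0 ≤ ∫ s in (0 : ℝ)..(2 * Real.pi), (f s - I / (2 * Real.pi)) ^ 2 :=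
    intervalIntegral.integral_nonneg hpi.le (fun s _ => sq_nonneg _)
  have h2 : ∫ s in (0 : ℝ)..(2 * Real.pi), (f s - I / (2 * Real.pi)) ^ 2 =
      J - I ^ 2 / (2 * Real.pi) := by
    have e : ∀ s, (f s - I / (2 * Real.pi)) ^ 2 =
        f s ^ 2 - (2 * (I / (2 * Real.pi))) * f s + (I / (2 * Real.pi)) ^ 2 := by
      intro s; ring
    simp_rw [e]
    rw [intervalIntegral.integral_add, intervalIntegral.integral_sub,
      intervalIntegral.integral_const_mul, intervalIntegral.integral_const, ← hI, ← hJ]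
    · rw [smul_eq_mul]
      field_simp
      ring
    · exact (hf.pow 2).intervalIntegrable _ _
    · exact (continuous_const.mul hf).intervalIntegrable _ _
    · exact ((hf.pow 2).sub (continuous_const.mul hf)).intervalIntegrable _ _
    · exact continuous_const.intervalIntegrable _ _
  rw [h2] at h1
  have h3 : I ^ 2 / (2 * Real.pi) ≤ J := by linarith
  rw [div_le_iff₀ hpi] at h3
  linarith

/-- the circulation is one soft collective mode -/
theorem circ_bound : ∃ C : ℝ, 0 < C ∧ ∀ (L Λ R : ℝ), 0 < R → 0 < Λ → 1 ≤ Λ * R → 8 * R ≤ L →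
    ∀ (pol : Mode L Λ → E3), IsPolarisation pol → circSq pol R ≤ C * Λ ^ 2 / R := by
  obtain ⟨C1, hC1, hband⟩ := band_sup
  obtain ⟨C2, hC2, hring⟩ := ringU_sum
  refine ⟨C1 * C2, by positivity, ?_⟩
  intro L Λ R hR hΛ hΛR hL8 pol hpol
  have hL : 0 < L := by linarith
  have hpi : (0 : ℝ) < 2 * Real.pi := by positivity
  have hpi1 : (1 : ℝ) ≤ 2 * Real.pi := by have := Real.pi_gt_three; linarith
  set v : Mode L Λ → ℝ := fun m => circ (fun y => modeFn pol m (R • y)) with hv
  set A : E3 → E3 := vecPot (modeFn pol) v with hA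
  have hAdef : ∀ y, A y = ∑ m, v m • modeFn pol m y := fun y => rfl
  have hmc : ∀ m, Continuous (modeFn pol m) := fun m => (smooth_modeFn pol m).continuous
  have hAc : Continuous A := by
    have : A = fun y => ∑ m, v m • modeFn pol m y := rfl
    rw [this]
    refine continuous_finsetSum _ fun m _ => ?_
    have := hmc m
    fun_prop
  have hSdef : circSq pol R = ∑ m, v m ^ 2 := rfl
  set S := circSq pol R with hS
  have hS0 : 0 ≤ S := by rw [hSdef]; exact Finset.sum_nonneg fun m _ => sq_nonneg _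
  -- circulation of A
  have hf : Continuous (fun s => inner ℝ (A (R • gam s)) (tau s)) :=
    (hAc.comp (cb_cont_gam.const_smul R)).inner cb_cont_tau
  have hcirc : (∫ s in (0 : ℝ)..(2 * Real.pi), inner ℝ (A (R • gam s)) (tau s)) =
      2 * Real.pi * S := by
    have e : ∀ s, inner ℝ (A (R • gam s)) (tau s) =
        ∑ m, v m * inner ℝ (modeFn pol m (R • gam s)) (tau s) := by
      intro s
      rw [hAdef, sum_inner]
      refine Finset.sum_congr rfl fun m _ => ?_
      rw [real_inner_smul_left]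
    simp_rw [e]
    rw [intervalIntegral.integral_finsetSum]
    · rw [hSdef, Finset.mul_sum]
      refine Finset.sum_congr rfl fun m _ => ?_
      rw [intervalIntegral.integral_const_mul]
      have : v m = (1 / (2 * Real.pi)) *
          ∫ s in (0 : ℝ)..(2 * Real.pi), inner ℝ (modeFn pol m (R • gam s)) (tau s) := rfl
      have h2 : ∫ s in (0 : ℝ)..(2 * Real.pi), inner ℝ (modeFn pol m (R • gam s)) (tau s) =
          2 * Real.pi * v m := by
        rw [this]; field_simp
      rw [h2]; ring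
    · intro m _
      exact (continuous_const.mul
        (((hmc m).comp (cb_cont_gam.const_smul R)).inner cb_cont_tau)).intervalIntegrable _ _
  have hcs := cb_cs _ hf
  rw [hcirc] at hcs
  -- bound of ‖A‖²
  set g : E3 → ℝ := fun y => ‖A y‖ ^ 2 with hg
  have hgc : Continuous g := hAc.norm.pow 2
  have hg0 : ∀ y, 0 ≤ g y := fun y => sq_nonneg _
  set Bg : ℝ := (∑ m, |v m| * Real.sqrt (2 / L ^ 3)) ^ 2 with hBg
  have hgB : ∀ y, g y ≤ Bg := by
    intro y
    rw [hg, hBg]
    apply pow_le_pow_left₀ (norm_nonneg _)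
    rw [hAdef]
    refine (norm_sum_le _ _).trans (Finset.sum_le_sum fun m _ => ?_)
    rw [norm_smul, Real.norm_eq_abs]
    apply mul_le_mul_of_nonneg_left _ (abs_nonneg _)
    apply Real.le_sqrt_of_sq_le
    exact norm_modeFn_sq hL pol hpol m y
  obtain ⟨hfi, hfe⟩ := cb_fub hR hΛ g hgc Bg hg0 hgB
  have hJ : ∫ s in (0 : ℝ)..(2 * Real.pi), (inner ℝ (A (R • gam s)) (tau s)) ^ 2 ≤
      C1 * Λ ^ 3 * ∫ y, ringU R Λ y * g y := by
    rw [← hfe, ← intervalIntegral.integral_const_mul]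
    apply intervalIntegral.integral_mono_on hpi.le ((hf.pow 2).intervalIntegrable _ _)
      (hfi.const_mul _)
    intro s _
    have h1 : |inner ℝ (A (R • gam s)) (tau s)| ≤ ‖A (R • gam s)‖ := by
      have := abs_real_inner_le_norm (A (R • gam s)) (tau s)
      rwa [cb_norm_tau, mul_one] at this
    calc (inner ℝ (A (R • gam s)) (tau s)) ^ 2 = |inner ℝ (A (R • gam s)) (tau s)| ^ 2 := by
          rw [sq_abs]
      _ ≤ ‖A (R • gam s)‖ ^ 2 := pow_le_pow_left₀ (abs_nonneg _) h1 2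
      _ ≤ _ := (hband L Λ hL hΛ pol v (R • gam s)).1
  obtain ⟨hrc, hrs⟩ := hring L Λ R hR hΛ hΛR hL8
  have hr0 : ∀ y, 0 ≤ ringU R Λ y := by
    intro y
    unfold ringU
    exact intervalIntegral.integral_nonneg hpi.le (fun s _ => by positivity)
  have hper : ∀ (y : E3) (n : Fin 3 → ℤ),
      g (y + WithLp.toLp 2 (fun i => L * (n i : ℝ))) = g y := by
    intro y n
    simp only [hg, hAdef, cb_per hL pol]
  have hU := unfold_periodic L hL (ringU R Λ) g hrc hr0 hgc hg0 hper (C2 / (Λ * R))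
    (by positivity) hrs
  have hbox : ∫ y in {y : E3 | ∀ i, 0 ≤ y i ∧ y i < L}, g y = S :=
    mode_orthonormal hL pol hpol v
  rw [hbox] at hU
  have hmain : S ^ 2 ≤ (C1 * C2 * Λ ^ 2 / R) * S := by
    have h1 : (2 * Real.pi) ^ 2 * S ^ 2 ≤
        2 * Real.pi * (C1 * Λ ^ 3 * (C2 / (Λ * R) * S)) := by
      calc (2 * Real.pi) ^ 2 * S ^ 2 = (2 * Real.pi * S) ^ 2 := by ring
        _ ≤ _ := hcs
        _ ≤ 2 * Real.pi * (C1 * Λ ^ 3 * ∫ y, ringU R Λ y * g y) :=
            mul_le_mul_of_nonneg_left hJ hpi.le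
        _ ≤ _ := by
            apply mul_le_mul_of_nonneg_left _ hpi.le
            exact mul_le_mul_of_nonneg_left hU (by positivity)
    have e : C1 * Λ ^ 3 * (C2 / (Λ * R) * S) = (C1 * C2 * Λ ^ 2 / R) * S := by
      field_simp
    rw [e] at h1
    have h2 : 0 ≤ (C1 * C2 * Λ ^ 2 / R) * S := by positivity
    have h3 : 2 * Real.pi * (2 * Real.pi * S ^ 2) ≤
        2 * Real.pi * ((C1 * C2 * Λ ^ 2 / R) * S) := by
      calc _ = (2 * Real.pi) ^ 2 * S ^ 2 := by ring
        _ ≤ _ := h1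
    have h4 := le_of_mul_le_mul_left h3 hpi
    have h5 : S ^ 2 ≤ 2 * Real.pi * S ^ 2 := by
      have := sq_nonneg S
      nlinarith
    linarith
  rcases hS0.eq_or_lt with h | h
  · rw [← h]; positivity
  · have : S * S ≤ (C1 * C2 * Λ ^ 2 / R) * S := by rw [← sq]; exact hmain
    exact le_of_mul_le_mul_right this h

end Pool.Agent.Helper985.PS
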