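import Pool.Agent.Helper985.PS.M_fourier_series
import Pool.Agent.Helper985.PS.M_modefn
import Pool.Agent.Helper985.PS.Defs

set_option autoImplicit false

open MeasureTheory
open scoped Topology

namespace Pool.Agent.Helper985.PS






theorem h714_partial (l : ℝ) (hl : 8 ≤ l) (N : ℕ) :
    ∑ m ∈ Finset.range N, 1 / (l + m) ^ 2 ≤ 1 / (l - 1) - 1 / (l + N - 1) := by
  induction N with
  | zero => simp
  | succ N ih =>
    rw [Finset.sum_range_succ]
    have hN : (0 : ℝ) ≤ (N : ℝ) := Nat.cast_nonneg N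
    have h1 : 1 / (l + N) ^ 2 ≤ 1 / (l + N - 1) - 1 / (l + (N + 1 : ℕ) - 1) := by
      push_cast
      have e : 1 / (l + N - 1) - 1 / (l + (N + 1) - 1) = 1 / ((l + N - 1) * (l + N)) := by
        have h2 : l + N - 1 ≠ 0 := by linarith
        have h3 : l + N ≠ 0 := by linarith
        have h4 : l + (N + 1) - 1 = l + N := by ring
        rw [h4]
        field_simp
        ring
      rw [e]
      apply one_div_le_one_div_of_le
      · apply mul_pos <;> linarith
      · nlinarith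
    linarith

theorem h714_partial' (l : ℝ) (hl : 8 ≤ l) (N : ℕ) (f : ℕ → ℝ) (hf : ∀ m, f m ≤ l ^ 2 * (1 / (l + m) ^ 2)) :
    ∑ m ∈ Finset.range N, f m ≤ 2 * l := by
  have h1 : ∑ m ∈ Finset.range N, f m ≤ ∑ m ∈ Finset.range N, l ^ 2 * (1 / (l + m) ^ 2) :=
    Finset.sum_le_sum fun m _ => hf m
  rw [← Finset.mul_sum] at h1
  have h2 := h714_partial l hl N
  have hN : (0 : ℝ) ≤ (N : ℝ) := Nat.cast_nonneg N
  have h3 : 0 ≤ 1 / (l + N - 1) := by
    apply div_nonneg zero_le_one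
    linarith
  have h4 : l ^ 2 * (1 / (l - 1)) ≤ 2 * l := by
    rw [mul_one_div, div_le_iff₀ (by linarith)]
    nlinarith
  have h5 : l ^ 2 * ∑ m ∈ Finset.range N, 1 / (l + m) ^ 2 ≤ l ^ 2 * (1 / (l - 1)) := by
    apply mul_le_mul_of_nonneg_left _ (sq_nonneg l)
    linarith
  linarith

theorem h714_one (l : ℝ) (hl : 8 ≤ l) (s : Finset ℤ) :
    ∑ m ∈ s, ((1 + (2 * Real.pi / l) * |(m : ℝ)|) ^ 2)⁻¹ ≤ 4 * l := by
  have hl0 : 0 < l := by linarith
  have hpt : ∀ x : ℝ, 0 ≤ x → ((1 + (2 * Real.pi / l) * x) ^ 2)⁻¹ ≤ l ^ 2 * (1 / (l + x) ^ 2) := by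
    intro x hx
    have h1 : l ^ 2 * (1 / (l + x) ^ 2) = ((1 + x / l) ^ 2)⁻¹ := by
      have : l + x ≠ 0 := by linarith
      field_simp
    rw [h1]
    apply inv_anti₀
    · positivity
    · apply pow_le_pow_left₀ (by positivity)
      have h2 : x / l ≤ 2 * Real.pi / l * x := by
        rw [div_mul_eq_mul_div]
        apply div_le_div_of_nonneg_right _ hl0.le
        nlinarith [Real.pi_gt_three]
      linarith
  have hnn : ∀ x : ℝ, 0 ≤ ((1 + (2 * Real.pi / l) * |x|) ^ 2)⁻¹ := fun x => by positivity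
  set f : ℤ → ℝ := fun m => ((1 + (2 * Real.pi / l) * |(m : ℝ)|) ^ 2)⁻¹ with hf
  have b1 : ∀ N, ∑ m ∈ Finset.range N, f (m : ℤ) ≤ 2 * l := by
    intro N
    apply h714_partial' l hl N (fun m : ℕ => f (m : ℤ))
    intro m
    simp only [hf, Int.cast_natCast]
    rw [abs_of_nonneg (Nat.cast_nonneg m)]
    exact hpt m (Nat.cast_nonneg m)
  have b2 : ∀ N, ∑ m ∈ Finset.range N, f (-((m : ℤ) + 1)) ≤ 2 * l := by
    intro N
    apply h714_partial' l hl N (fun m : ℕ => f (-((m : ℤ) + 1)))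
    intro m
    simp only [hf]
    have hm : (0 : ℝ) ≤ (m : ℝ) := Nat.cast_nonneg m
    have e : |((-((m : ℤ) + 1) : ℤ) : ℝ)| = (m : ℝ) + 1 := by
      push_cast
      rw [abs_neg, abs_of_nonneg (by linarith)]
    rw [e]
    refine (hpt _ (by linarith)).trans ?_
    apply mul_le_mul_of_nonneg_left _ (sq_nonneg l)
    apply one_div_le_one_div_of_le
    · positivity
    · apply pow_le_pow_left₀ (by linarith)
      linarith
  have s1 : Summable (fun m : ℕ => f (m : ℤ)) := summable_of_sum_range_le (fun m => hnn _) b1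
  have s2 : Summable (fun m : ℕ => f (-((m : ℤ) + 1))) := summable_of_sum_range_le (fun m => hnn _) b2
  have t1 : ∑' m : ℕ, f (m : ℤ) ≤ 2 * l := Real.tsum_le_of_sum_range_le (fun m => hnn _) b1
  have t2 : ∑' m : ℕ, f (-((m : ℤ) + 1)) ≤ 2 * l := Real.tsum_le_of_sum_range_le (fun m => hnn _) b2
  have hs := HasSum.of_nat_of_neg_add_one s1.hasSum s2.hasSum
  have := sum_le_hasSum s (fun m _ => hnn _) hs
  linarith

theorem h714_three (l : ℝ) (hl : 8 ≤ l) (s : Finset (Fin 3 → ℤ)) :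
    ∑ n ∈ s, ((1 + ‖waveVector l n‖) ^ 6)⁻¹ ≤ 64 * l ^ 3 := by
  classical
  have hl0 : 0 < l := by linarith
  have hpi := Real.pi_pos
  set g : ℤ → ℝ := fun m => ((1 + (2 * Real.pi / l) * |(m : ℝ)|) ^ 2)⁻¹ with hg
  have hgn : ∀ m, 0 ≤ g m := fun m => by positivity
  have hpt : ∀ n : Fin 3 → ℤ, ((1 + ‖waveVector l n‖) ^ 6)⁻¹ ≤ ∏ i, g (n i) := by
    intro n
    have h1 : ∀ i, (1 + (2 * Real.pi / l) * |(n i : ℝ)|) ≤ 1 + ‖waveVector l n‖ := by
      intro i
      have h1 : ‖(waveVector l n) i‖ ≤ ‖waveVector l n‖ := PiLp.norm_apply_le _ i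
      have h2 : ‖(waveVector l n) i‖ = (2 * Real.pi / l) * |(n i : ℝ)| := by
        simp only [waveVector, Real.norm_eq_abs, abs_mul]
        rw [abs_of_nonneg (by positivity : (0 : ℝ) ≤ 2 * Real.pi / l)]
      linarith
    simp only [hg]
    rw [Finset.prod_inv_distrib]
    apply inv_anti₀
    · apply Finset.prod_pos
      intro i _
      positivity
    · have h2 : ∏ i : Fin 3, (1 + (2 * Real.pi / l) * |(n i : ℝ)|) ^ 2 ≤ ∏ i : Fin 3, (1 + ‖waveVector l n‖) ^ 2 := by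
        apply Finset.prod_le_prod
        · intro i _
          positivity
        · intro i _
          exact pow_le_pow_left₀ (by positivity) (h1 i) 2
      refine h2.trans (le_of_eq ?_)
      rw [Finset.prod_const, Finset.card_univ, Fintype.card_fin, ← pow_mul]
  have h1 : ∑ n ∈ s, ((1 + ‖waveVector l n‖) ^ 6)⁻¹ ≤ ∑ n ∈ s, ∏ i, g (n i) :=
    Finset.sum_le_sum fun n _ => hpt n
  have hsub : s ⊆ Fintype.piFinset (fun i => s.image (fun n => n i)) := by
    intro n hn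
    rw [Fintype.mem_piFinset]
    intro i
    exact Finset.mem_image_of_mem (fun n : Fin 3 → ℤ => n i) hn
  have h2 : ∑ n ∈ s, ∏ i, g (n i) ≤ ∑ n ∈ Fintype.piFinset (fun i => s.image (fun n => n i)), ∏ i, g (n i) :=
    Finset.sum_le_sum_of_subset_of_nonneg hsub (fun n _ _ => Finset.prod_nonneg fun i _ => hgn _)
  have h3 := Finset.prod_univ_sum (fun i : Fin 3 => s.image (fun n => n i)) (fun _ m => g m)
  rw [← h3] at h2
  have h4 : ∏ i : Fin 3, ∑ j ∈ s.image (fun n => n i), g j ≤ ∏ _i : Fin 3, (4 * l) := by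
    apply Finset.prod_le_prod
    · intro i _
      exact Finset.sum_nonneg fun j _ => hgn j
    · intro i _
      exact h714_one l hl _
  rw [Finset.prod_const, Finset.card_univ, Fintype.card_fin] at h4
  have h5 : (4 * l) ^ 3 = 64 * l ^ 3 := by ring
  linarith

theorem h714_summable (l : ℝ) (hl : 8 ≤ l) : Summable (fun n : Fin 3 → ℤ => ((1 + ‖waveVector l n‖) ^ 6)⁻¹) :=
  summable_of_sum_le (fun n => by positivity) (h714_three l hl)

theorem h714_wv_neg (l : ℝ) (n : Fin 3 → ℤ) : waveVector l (-n) = - waveVector l n := by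
  ext i
  simp [waveVector]

theorem h714_scalar (f : E3 → ℝ) (hf : ContDiff ℝ SM f) (hs : ∀ y : E3, 4 ≤ ‖y‖ → f y = 0) :
    ∃ C : ℝ, 0 < C ∧ ∀ l : ℝ, 8 ≤ l → ∃ d : (Fin 3 → ℤ) → ℝ,
      (∀ n, |d n| ≤ C / l ^ 3 * ((1 + ‖waveVector l n‖) ^ 20)⁻¹) ∧
      (∀ y : E3, ‖y‖ ≤ 4 → HasSum (fun n => (Real.cos (inner ℝ (waveVector l n) y) +
        Real.sin (inner ℝ (waveVector l n) y)) * d n) (f y)) := by
  obtain ⟨C, hC, h⟩ := fourier_series f hf hs
  refine ⟨2 * C, by positivity, fun l hl => ?_⟩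
  obtain ⟨c, hc1, hc2, hc3⟩ := h l hl
  have hl0 : 0 < l := by linarith
  have hb : ∀ n, ‖c n‖ ≤ C / l ^ 3 * ((1 + ‖waveVector l n‖) ^ 6)⁻¹ := by
    intro n
    refine (hc1 n).trans ?_
    apply mul_le_mul_of_nonneg_left _ (by positivity)
    apply inv_anti₀ (by positivity)
    apply pow_le_pow_right₀ _ (by norm_num)
    linarith [norm_nonneg (waveVector l n)]
  refine ⟨fun n => (c n).re - (c n).im, ?_, ?_⟩
  · intro n
    have h1 := Complex.abs_re_le_norm (c n)
    have h2 := Complex.abs_im_le_norm (c n)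
    have h3 : |(c n).re - (c n).im| ≤ |(c n).re| + |(c n).im| := abs_sub _ _
    have h4 := hc1 n
    calc |(c n).re - (c n).im| ≤ 2 * ‖c n‖ := by linarith
      _ ≤ 2 * (C / l ^ 3 * ((1 + ‖waveVector l n‖) ^ 20)⁻¹) := by linarith
      _ = _ := by ring
  · intro y hy
    set θ : (Fin 3 → ℤ) → ℝ := fun n => inner ℝ (waveVector l n) y with hθ
    have hθn : ∀ n, θ (-n) = - θ n := by
      intro n
      simp only [hθ]
      rw [h714_wv_neg, inner_neg_left]
    have h1 : HasSum (fun n => (c n).re * Real.cos (θ n) - (c n).im * Real.sin (θ n)) (f y) := by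
      have := Complex.reCLM.hasSum (hc3 y hy)
      simp only [Complex.reCLM_apply, Complex.ofReal_re] at this
      convert this using 2
      rename_i n
      rw [mul_comm Complex.I, Complex.mul_re, Complex.exp_ofReal_mul_I_re, Complex.exp_ofReal_mul_I_im]
    have hsum : Summable (fun n => (c n).re * Real.sin (θ n) - (c n).im * Real.cos (θ n)) := by
      apply Summable.of_norm_bounded (g := fun n => 2 * (C / l ^ 3) * ((1 + ‖waveVector l n‖) ^ 6)⁻¹)
        ((h714_summable l hl).mul_left _)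
      intro n
      have a1 := Complex.abs_re_le_norm (c n)
      have a2 := Complex.abs_im_le_norm (c n)
      have a3 := Real.abs_sin_le_one (θ n)
      have a4 := Real.abs_cos_le_one (θ n)
      rw [Real.norm_eq_abs]
      have a5 : |(c n).re * Real.sin (θ n) - (c n).im * Real.cos (θ n)| ≤
          |(c n).re| * |Real.sin (θ n)| + |(c n).im| * |Real.cos (θ n)| := by
        rw [← abs_mul, ← abs_mul]
        exact abs_sub _ _
      have a6 : |(c n).re| * |Real.sin (θ n)| ≤ ‖c n‖ * 1 :=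
        mul_le_mul a1 a3 (abs_nonneg _) (norm_nonneg _)
      have a7 : |(c n).im| * |Real.cos (θ n)| ≤ ‖c n‖ * 1 :=
        mul_le_mul a2 a4 (abs_nonneg _) (norm_nonneg _)
      have := hb n
      linarith
    have h2 : HasSum (fun n => (c n).re * Real.sin (θ n) - (c n).im * Real.cos (θ n)) 0 := by
      obtain ⟨S, hS⟩ := hsum
      have hS2 : HasSum (fun n => -((c n).re * Real.sin (θ n) - (c n).im * Real.cos (θ n))) S := by
        have := (Equiv.neg (Fin 3 → ℤ)).hasSum_iff.2 hS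
        convert this using 2
        rename_i n
        simp only [Function.comp, Equiv.neg_apply]
        rw [hθn, hc2, Complex.conj_re, Complex.conj_im, Real.sin_neg, Real.cos_neg]
        ring
      have h0 : S = 0 := by
        have := hS.neg.unique hS2
        linarith
      rwa [h0] at hS
    have h3 := h1.add h2
    rw [add_zero] at h3
    convert h3 using 2
    ring


theorem h714_vector (a : E3 → E3) (ha : ContDiff ℝ SM a) (hs : ∀ y : E3, 4 ≤ ‖y‖ → a y = 0) :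
    ∃ C : ℝ, 0 < C ∧ ∀ l : ℝ, 8 ≤ l → ∃ D : (Fin 3 → ℤ) → E3,
      (∀ n, ‖D n‖ ≤ C / l ^ 3 * ((1 + ‖waveVector l n‖) ^ 20)⁻¹) ∧
      (∀ y : E3, ‖y‖ ≤ 4 → HasSum (fun n => (Real.cos (inner ℝ (waveVector l n) y) +
        Real.sin (inner ℝ (waveVector l n) y)) • D n) (a y)) := by
  have h := fun j : Fin 3 => h714_scalar (fun y => a y j)
    ((contDiff_euclidean.1 ha) j) (fun y hy => by simp [hs y hy])
  choose C hC h using h
  refine ⟨∑ j, C j, Finset.sum_pos (fun j _ => hC j) Finset.univ_nonempty, fun l hl => ?_⟩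
  choose d hd1 hd2 using fun j => h j l hl
  have hl0 : 0 < l := by linarith
  refine ⟨fun n => WithLp.toLp 2 (fun j => d j n), ?_, ?_⟩
  · intro n
    have h1 : ‖(WithLp.toLp 2 (fun j => d j n) : E3)‖ ≤ ∑ j, |d j n| := by
      rw [EuclideanSpace.norm_eq]
      apply Real.sqrt_le_iff.2
      refine ⟨Finset.sum_nonneg fun j _ => abs_nonneg _, ?_⟩
      simp only [Real.norm_eq_abs]
      rw [Fin.sum_univ_three, Fin.sum_univ_three]
      have := abs_nonneg (d 0 n)
      have := abs_nonneg (d 1 n)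
      have := abs_nonneg (d 2 n)
      nlinarith [mul_nonneg (abs_nonneg (d 0 n)) (abs_nonneg (d 1 n)),
        mul_nonneg (abs_nonneg (d 0 n)) (abs_nonneg (d 2 n)), mul_nonneg (abs_nonneg (d 1 n)) (abs_nonneg (d 2 n))]
    refine h1.trans ?_
    rw [Finset.sum_div, Finset.sum_mul]
    exact Finset.sum_le_sum fun j _ => hd1 j n
  · intro y hy
    have h1 : HasSum (fun n => fun j : Fin 3 => (Real.cos (inner ℝ (waveVector l n) y) +
        Real.sin (inner ℝ (waveVector l n) y)) * d j n) (fun j => a y j) := by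
      rw [Pi.hasSum]
      intro j
      exact hd2 j y hy
    have h2 := ((EuclideanSpace.equiv (Fin 3) ℝ).symm : (Fin 3 → ℝ) →L[ℝ] E3).hasSum h1
    convert h2 using 1
    · funext n
      ext j
      simp
    · ext j
      simp

theorem h714_decomp (e0 e1 K v : E3) (h00 : inner ℝ e0 e0 = (1 : ℝ)) (h11 : inner ℝ e1 e1 = (1 : ℝ))
    (h01 : inner ℝ e0 e1 = (0 : ℝ)) (h0K : inner ℝ e0 K = (0 : ℝ)) (h1K : inner ℝ e1 K = (0 : ℝ)) (hK : 0 < ‖K‖) :
    v = (inner ℝ e0 v : ℝ) • e0 + (inner ℝ e1 v : ℝ) • e1 + ((inner ℝ K v : ℝ) / ‖K‖ ^ 2) • K := by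
  have n0 : ‖e0‖ = 1 := by
    have h : ‖e0‖ ^ 2 = 1 := by rw [← real_inner_self_eq_norm_sq]; exact h00
    exact (pow_left_inj₀ (norm_nonneg _) zero_le_one two_ne_zero).1 (by rw [h, one_pow])
  have n1 : ‖e1‖ = 1 := by
    have h : ‖e1‖ ^ 2 = 1 := by rw [← real_inner_self_eq_norm_sq]; exact h11
    exact (pow_left_inj₀ (norm_nonneg _) zero_le_one two_ne_zero).1 (by rw [h, one_pow])
  have nK : ‖‖K‖⁻¹ • K‖ = 1 := by
    rw [norm_smul, norm_inv, norm_norm, inv_mul_cancel₀ hK.ne']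
  have h10 : inner ℝ e1 e0 = (0 : ℝ) := by rw [real_inner_comm]; exact h01
  have hK0 : inner ℝ K e0 = (0 : ℝ) := by rw [real_inner_comm]; exact h0K
  have hK1 : inner ℝ K e1 = (0 : ℝ) := by rw [real_inner_comm]; exact h1K
  have hon : Orthonormal ℝ ![e0, e1, ‖K‖⁻¹ • K] := by
    constructor
    · intro i
      fin_cases i
      · exact n0
      · exact n1
      · exact nK
    · intro i j hij
      fin_cases i <;> fin_cases j <;>
        simp [h01, h10, h0K, h1K, hK0, hK1, inner_smul_left, inner_smul_right] at hij ⊢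
  have hcard : Fintype.card (Fin 3) = Module.finrank ℝ E3 := by simp
  have hb : ⇑(basisOfOrthonormalOfCardEqFinrank hon hcard) = ![e0, e1, ‖K‖⁻¹ • K] :=
    coe_basisOfOrthonormalOfCardEqFinrank hon hcard
  set b := (basisOfOrthonormalOfCardEqFinrank hon hcard).toOrthonormalBasis (by rw [hb]; exact hon) with hbd
  have hb' : ⇑b = ![e0, e1, ‖K‖⁻¹ • K] := by
    rw [hbd, Module.Basis.coe_toOrthonormalBasis, hb]
  have h := b.sum_repr' v
  rw [hb', Fin.sum_univ_three] at h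
  simp only [Matrix.cons_val_zero, Matrix.cons_val_one, Matrix.cons_val] at h
  refine h.symm.trans ?_
  congr 1
  rw [inner_smul_left, smul_smul]
  congr 1
  simp only [conj_trivial]
  field_simp

theorem h714_grad {ι : Type*} (s : Finset ι) (R : ℝ) (D0 : E3) (K : ι → E3) (α : ι → ℝ) :
    ContDiff ℝ SM (fun x : E3 => R⁻¹ * (inner ℝ D0 x + ∑ n ∈ s, α n * (Real.sin (inner ℝ (K n) x) - Real.cos (inner ℝ (K n) x)))) ∧
    ∀ x : E3, gradient (fun x : E3 => R⁻¹ * (inner ℝ D0 x + ∑ n ∈ s, α n * (Real.sin (inner ℝ (K n) x) - Real.cos (inner ℝ (K n) x)))) x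
      = R⁻¹ • (D0 + ∑ n ∈ s, (α n * (Real.cos (inner ℝ (K n) x) + Real.sin (inner ℝ (K n) x))) • K n) := by
  have hin : ∀ v : E3, ContDiff ℝ SM (fun x : E3 => (inner ℝ v x : ℝ)) := fun v =>
    (innerSL ℝ v).contDiff
  constructor
  · apply ContDiff.mul contDiff_const
    apply ContDiff.add (hin _)
    apply ContDiff.sum
    intro n _
    apply ContDiff.mul contDiff_const
    exact (Real.contDiff_sin.comp (hin _)).sub (Real.contDiff_cos.comp (hin _))
  · intro x
    apply HasGradientAt.gradient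
    rw [hasGradientAt_iff_hasFDerivAt]
    have h1 : ∀ v : E3, HasFDerivAt (fun x : E3 => (inner ℝ v x : ℝ)) (innerSL ℝ v) x := fun v =>
      (innerSL ℝ v).hasFDerivAt
    have h2 : ∀ n ∈ s, HasFDerivAt (fun x : E3 => α n * (Real.sin (inner ℝ (K n) x) - Real.cos (inner ℝ (K n) x)))
        (α n • (Real.cos (inner ℝ (K n) x) • innerSL ℝ (K n) - (-Real.sin (inner ℝ (K n) x)) • innerSL ℝ (K n))) x := by
      intro n _
      exact (((h1 (K n)).sin).sub ((h1 (K n)).cos)).const_mul (α n)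
    have h3 := ((h1 D0).add (HasFDerivAt.fun_sum h2)).const_mul R⁻¹
    refine h3.congr_fderiv ?_
    ext y
    simp only [map_smul, map_add, map_sum, _root_.smul_apply, _root_.add_apply,
      _root_.sum_apply, _root_.sub_apply, innerSL_apply_apply,
      InnerProductSpace.toDual_apply_apply, smul_eq_mul]
    congr 1
    congr 1
    apply Finset.sum_congr rfl
    intro n _
    ring


theorem h714_wv_div (L R : ℝ) (n : Fin 3 → ℤ) : waveVector (L / R) n = R • waveVector L n := by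
  ext i
  simp only [waveVector, PiLp.smul_apply, smul_eq_mul]
  rw [div_div_eq_mul_div]
  ring

/-- the index set: zero and the momenta -/
noncomputable def h714F (L Λ : ℝ) : Finset (Fin 3 → ℤ) := by
  classical
  exact insert 0 ((Finset.univ : Finset (Momentum L Λ)).image (fun n : Momentum L Λ => n.1))

theorem h714_wv_zero (L : ℝ) : waveVector L 0 = 0 := by
  ext i
  simp [waveVector]

theorem h714_sumF {L Λ : ℝ} (u : (Fin 3 → ℤ) → E3) :
    ∑ n ∈ h714F L Λ, u n = u 0 + ∑ n : Momentum L Λ, u n.1 := by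
  classical
  unfold h714F
  rw [Finset.sum_insert, Finset.sum_image]
  · intro x _ y _ hxy
    exact Subtype.ext hxy
  · intro h
    rw [Finset.mem_image] at h
    obtain ⟨n, _, hn⟩ := h
    have := n.2.1
    rw [hn, h714_wv_zero, norm_zero] at this
    exact lt_irrefl _ this

theorem h714_notF {L Λ : ℝ} (hL : 0 < L) (n : Fin 3 → ℤ) (hn : n ∉ h714F L Λ) : Λ ≤ ‖waveVector L n‖ := by
  classical
  unfold h714F at hn
  rw [Finset.mem_insert, not_or, Finset.mem_image] at hn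
  by_contra hlt
  push Not at hlt
  by_cases h0 : ‖waveVector L n‖ = 0
  · apply hn.1
    funext i
    have h1 : waveVector L n = 0 := norm_eq_zero.1 h0
    have h2 : (waveVector L n) i = 0 := by rw [h1]; rfl
    simp only [waveVector] at h2
    rcases mul_eq_zero.1 h2 with h3 | h3
    · have := Real.pi_pos
      have : 0 < 2 * Real.pi / L := by positivity
      linarith
    · exact_mod_cast h3
  · exact hn.2 ⟨⟨n, lt_of_le_of_ne (norm_nonneg _) (Ne.symm h0), hlt⟩, Finset.mem_univ _, rfl⟩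

theorem h714_tail (L Λ R C : ℝ) (hC : 0 < C) (hR : 0 < R) (hL : 8 * R ≤ L) (hΛ : 1 ≤ Λ * R)
    (D : (Fin 3 → ℤ) → E3) (hD : ∀ n, ‖D n‖ ≤ C / (L / R) ^ 3 * ((1 + ‖waveVector (L / R) n‖) ^ 20)⁻¹)
    (g : (Fin 3 → ℤ) → ℝ) (hg : ∀ n, |g n| ≤ 2) (v : E3) (hs : HasSum (fun n => g n • D n) v) :
    ‖v - ∑ n ∈ h714F L Λ, g n • D n‖ ≤ 128 * C * ((Λ * R) ^ 12)⁻¹ := by
  classical
  have hl : 8 ≤ L / R := (le_div_iff₀ hR).2 hL
  have hL0 : 0 < L := by linarith
  set l := L / R with hldef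
  have hl0 : 0 < l := by linarith
  have hlim : Filter.Tendsto (fun s : Finset (Fin 3 → ℤ) => ‖∑ n ∈ s, g n • D n - ∑ n ∈ h714F L Λ, g n • D n‖)
      Filter.atTop (nhds ‖v - ∑ n ∈ h714F L Λ, g n • D n‖) := by
    have h1 : Filter.Tendsto (fun s : Finset (Fin 3 → ℤ) => ∑ n ∈ s, g n • D n) Filter.atTop (nhds v) := hs
    exact (h1.sub_const _).norm
  apply le_of_tendsto hlim
  filter_upwards [Filter.eventually_ge_atTop (h714F L Λ)] with s hsF
  rw [← Finset.sum_sdiff hsF, add_sub_cancel_right]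
  refine (norm_sum_le _ _).trans ?_
  have hterm : ∀ n ∈ s \ h714F L Λ, ‖g n • D n‖ ≤ 2 * (C / l ^ 3) * ((Λ * R) ^ 12)⁻¹ * ((1 + ‖waveVector l n‖) ^ 6)⁻¹ := by
    intro n hn
    have hn' := h714_notF hL0 n (Finset.mem_sdiff.1 hn).2
    have hw : ‖waveVector l n‖ = R * ‖waveVector L n‖ := by
      rw [hldef, h714_wv_div, norm_smul, Real.norm_of_nonneg hR.le]
    have h1 : Λ * R ≤ 1 + ‖waveVector l n‖ := by
      rw [hw]
      nlinarith
    set P := 1 + ‖waveVector l n‖ with hP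
    have hP1 : 1 ≤ P := by linarith
    have h2 : (P ^ 20)⁻¹ ≤ ((Λ * R) ^ 12)⁻¹ * (P ^ 6)⁻¹ := by
      rw [← mul_inv]
      apply inv_anti₀ (by positivity)
      have h3 : (Λ * R) ^ 12 ≤ P ^ 12 := pow_le_pow_left₀ (by linarith) h1 12
      have h4 : P ^ 12 * P ^ 6 ≤ P ^ 20 := by
        rw [← pow_add]
        exact pow_le_pow_right₀ hP1 (by norm_num)
      calc (Λ * R) ^ 12 * P ^ 6 ≤ P ^ 12 * P ^ 6 := mul_le_mul_of_nonneg_right h3 (by positivity)
        _ ≤ P ^ 20 := h4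
    rw [norm_smul, Real.norm_eq_abs]
    calc |g n| * ‖D n‖ ≤ 2 * (C / l ^ 3 * (P ^ 20)⁻¹) :=
          mul_le_mul (hg n) (hD n) (norm_nonneg _) (by norm_num)
      _ ≤ 2 * (C / l ^ 3 * (((Λ * R) ^ 12)⁻¹ * (P ^ 6)⁻¹)) := by
          apply mul_le_mul_of_nonneg_left _ (by norm_num)
          apply mul_le_mul_of_nonneg_left h2 (by positivity)
      _ = _ := by ring
  refine (Finset.sum_le_sum hterm).trans ?_
  rw [← Finset.mul_sum]
  have h3 := h714_three l hl (s \ h714F L Λ)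
  have h5 : 0 ≤ 2 * (C / l ^ 3) * ((Λ * R) ^ 12)⁻¹ := by
    have : 0 < Λ * R := by linarith
    positivity
  refine (mul_le_mul_of_nonneg_left h3 h5).trans (le_of_eq ?_)
  field_simp
  ring

theorem h714_energy (L Λ R C : ℝ) (hC : 0 < C) (hR : 0 < R) (hL : 8 * R ≤ L)
    (D : (Fin 3 → ℤ) → E3) (hD : ∀ n, ‖D n‖ ≤ C / (L / R) ^ 3 * ((1 + ‖waveVector (L / R) n‖) ^ 20)⁻¹)
    (pol : Mode L Λ → E3) (hp : IsPolarisation pol) :
    ∑ m : Mode L Λ, ‖m.k‖ ^ 2 * (R⁻¹ * Real.sqrt (L ^ 3) * inner ℝ (pol m) (D m.1.1)) ^ 2 ≤ 128 * C ^ 2 / R := by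
  classical
  have hl : 8 ≤ L / R := (le_div_iff₀ hR).2 hL
  have hL0 : 0 < L := by linarith
  have hlR : L = (L / R) * R := by field_simp
  set l := L / R with hldef
  have hl0 : 0 < l := by linarith
  have hterm : ∀ m : Mode L Λ, ‖m.k‖ ^ 2 * (R⁻¹ * Real.sqrt (L ^ 3) * inner ℝ (pol m) (D m.1.1)) ^ 2 ≤
      (C ^ 2 / (R * l ^ 3)) * ((1 + ‖waveVector l m.1.1‖) ^ 6)⁻¹ := by
    intro m
    have hpn : ‖pol m‖ = 1 := by
      have h1 : ‖pol m‖ ^ 2 = 1 := by
        rw [← real_inner_self_eq_norm_sq]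
        have := hp.orthonormal m.1 m.2 m.2
        simpa using this
      exact (pow_left_inj₀ (norm_nonneg _) zero_le_one two_ne_zero).1 (by rw [h1, one_pow])
    have h1 : |inner ℝ (pol m) (D m.1.1)| ≤ ‖D m.1.1‖ := by
      have := abs_real_inner_le_norm (pol m) (D m.1.1)
      rwa [hpn, one_mul] at this
    have h2 : (inner ℝ (pol m) (D m.1.1) : ℝ) ^ 2 ≤ ‖D m.1.1‖ ^ 2 := by
      rw [← sq_abs]
      exact pow_le_pow_left₀ (abs_nonneg _) h1 2
    have hw : ‖waveVector l m.1.1‖ = R * ‖m.k‖ := by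
      rw [hldef, h714_wv_div, norm_smul, Real.norm_of_nonneg hR.le]
      rfl
    have hk : ‖m.k‖ = ‖waveVector l m.1.1‖ / R := by
      rw [hw]
      field_simp
    have hD' := hD m.1.1
    set Q := ‖waveVector l m.1.1‖ with hQ
    have hQ0 : 0 ≤ Q := norm_nonneg _
    have h3 : ‖D m.1.1‖ ^ 2 ≤ (C / l ^ 3 * ((1 + Q) ^ 20)⁻¹) ^ 2 := pow_le_pow_left₀ (norm_nonneg _) hD' 2
    have h4 : Q ^ 2 * (((1 + Q) ^ 20)⁻¹) ^ 2 ≤ ((1 + Q) ^ 6)⁻¹ := by
      have h5 : Q ^ 2 ≤ (1 + Q) ^ 2 := pow_le_pow_left₀ hQ0 (by linarith) 2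
      have h6 : (1 + Q) ^ 2 * (((1 + Q) ^ 20)⁻¹) ^ 2 = ((1 + Q) ^ 38)⁻¹ := by
        have : (1 + Q) ≠ 0 := by linarith
        field_simp
      have h7 : ((1 + Q) ^ 38)⁻¹ ≤ ((1 + Q) ^ 6)⁻¹ := by
        apply inv_anti₀ (by positivity)
        exact pow_le_pow_right₀ (by linarith) (by norm_num)
      calc Q ^ 2 * (((1 + Q) ^ 20)⁻¹) ^ 2 ≤ (1 + Q) ^ 2 * (((1 + Q) ^ 20)⁻¹) ^ 2 :=
            mul_le_mul_of_nonneg_right h5 (by positivity)
        _ = ((1 + Q) ^ 38)⁻¹ := h6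
        _ ≤ _ := h7
    have hsq : (Real.sqrt (L ^ 3)) ^ 2 = L ^ 3 := Real.sq_sqrt (by positivity)
    calc ‖m.k‖ ^ 2 * (R⁻¹ * Real.sqrt (L ^ 3) * inner ℝ (pol m) (D m.1.1)) ^ 2
        = (Q / R) ^ 2 * (R⁻¹ ^ 2 * L ^ 3) * (inner ℝ (pol m) (D m.1.1)) ^ 2 := by
          rw [hk, mul_pow, mul_pow, hsq]
          ring
      _ ≤ (Q / R) ^ 2 * (R⁻¹ ^ 2 * L ^ 3) * (C / l ^ 3 * ((1 + Q) ^ 20)⁻¹) ^ 2 := by
          apply mul_le_mul_of_nonneg_left (h2.trans h3) (by positivity)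
      _ = (C ^ 2 / (R * l ^ 3)) * (Q ^ 2 * (((1 + Q) ^ 20)⁻¹) ^ 2) := by
          rw [hlR]
          have : (1 + Q) ≠ 0 := by linarith
          field_simp
      _ ≤ _ := mul_le_mul_of_nonneg_left h4 (by positivity)
  refine (Finset.sum_le_sum fun m _ => hterm m).trans ?_
  rw [Fintype.sum_prod_type]
  simp only [Finset.sum_const, Finset.card_univ, Fintype.card_fin]
  have h3 : ∑ n : Momentum L Λ, ((1 + ‖waveVector l n.1‖) ^ 6)⁻¹ ≤ 64 * l ^ 3 := by
    have h := h714_three l hl ((Finset.univ : Finset (Momentum L Λ)).image (fun n : Momentum L Λ => n.1))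
    rw [Finset.sum_image] at h
    · exact h
    · intro x _ y _ hxy
      exact Subtype.ext hxy
  simp only [nsmul_eq_mul]
  rw [← Finset.mul_sum, ← Finset.mul_sum]
  calc ((2 : ℕ) : ℝ) * (C ^ 2 / (R * l ^ 3) * ∑ i : Momentum L Λ, ((1 + ‖waveVector l i.1‖) ^ 6)⁻¹)
      ≤ ((2 : ℕ) : ℝ) * (C ^ 2 / (R * l ^ 3) * (64 * l ^ 3)) := by
        apply mul_le_mul_of_nonneg_left _ (by norm_num)
        apply mul_le_mul_of_nonneg_left h3 (by positivity)
    _ = 128 * C ^ 2 / R := by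
        push_cast
        field_simp
        norm_num

theorem h714_ident (L Λ R : ℝ) (hL0 : 0 < L)
    (D : (Fin 3 → ℤ) → E3) (pol : Mode L Λ → E3) (hp : IsPolarisation pol) (x : E3) :
    vecPot (modeFn pol) (fun m : Mode L Λ => R⁻¹ * Real.sqrt (L ^ 3) * inner ℝ (pol m) (D m.1.1)) x +
      R⁻¹ • (D 0 + ∑ n : Momentum L Λ, ((inner ℝ (waveVector L n.1) (D n.1) / ‖waveVector L n.1‖ ^ 2) *
        (Real.cos (inner ℝ (waveVector L n.1) x) + Real.sin (inner ℝ (waveVector L n.1) x))) • waveVector L n.1) =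
    R⁻¹ • ∑ n ∈ h714F L Λ, (Real.cos (inner ℝ (waveVector L n) x) + Real.sin (inner ℝ (waveVector L n) x)) • D n := by
  classical
  rw [h714_sumF, h714_wv_zero, inner_zero_left, Real.cos_zero, Real.sin_zero, add_zero, one_smul]
  unfold vecPot
  rw [Fintype.sum_prod_type]
  rw [smul_add, smul_add, Finset.smul_sum, Finset.smul_sum]
  rw [add_left_comm, ← Finset.sum_add_distrib]
  congr 1
  apply Finset.sum_congr rfl
  intro n _
  rw [Fin.sum_univ_two]
  have hs : Real.sqrt (L ^ 3) ≠ 0 := (Real.sqrt_pos.2 (by positivity)).ne'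
  have hd := h714_decomp (pol (n, 0)) (pol (n, 1)) (waveVector L n.1) (D n.1)
    (by simpa using hp.orthonormal n 0 0) (by simpa using hp.orthonormal n 1 1)
    (by simpa using hp.orthonormal n 0 1) (hp.transverse (n, 0)) (hp.transverse (n, 1)) n.2.1
  conv_rhs => rw [hd]
  have hm : ∀ μ : Fin 2, (R⁻¹ * Real.sqrt (L ^ 3) * inner ℝ (pol (n, μ)) (D n.1)) • modeFn pol (n, μ) x =
      (R⁻¹ * (Real.cos (inner ℝ (waveVector L n.1) x) + Real.sin (inner ℝ (waveVector L n.1) x)) *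
        inner ℝ (pol (n, μ)) (D n.1)) • pol (n, μ) := by
    intro μ
    unfold modeFn Mode.k
    rw [smul_smul]
    congr 1
    field_simp
  rw [hm 0, hm 1]
  module

/-- a classical field of the form `R⁻¹ a(x/R)` is a sum of modes up to a gradient and a small
error -/
theorem classical (a : E3 → E3) (ha : ContDiff ℝ SM a) (hs : ∀ y : E3, 4 ≤ ‖y‖ → a y = 0) :
    ∃ C : ℝ, 0 < C ∧ ∀ (L Λ R : ℝ), 0 < R → 8 * R ≤ L → 1 ≤ Λ * R →
      ∀ (pol : Mode L Λ → E3), IsPolarisation pol →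
      ∃ (c : Mode L Λ → ℝ) (lam : E3 → ℝ), ContDiff ℝ SM lam ∧
        (∑ m, ‖m.k‖ ^ 2 * c m ^ 2 ≤ C / R) ∧
        ∀ x : E3, ‖x‖ ≤ 4 * R →
          ‖R⁻¹ • a (R⁻¹ • x) - vecPot (modeFn pol) c x - gradient lam x‖ ≤
            C / R * ((Λ * R) ^ 12)⁻¹ := by
  obtain ⟨C, hC, h⟩ := h714_vector a ha hs
  refine ⟨128 * C + 128 * C ^ 2, by positivity, ?_⟩
  intro L Λ R hR hL hΛ pol hp
  have hl : 8 ≤ L / R := (le_div_iff₀ hR).2 hL
  have hL0 : 0 < L := by linarith
  obtain ⟨D, hD1, hD2⟩ := h (L / R) hl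
  obtain ⟨g1, g2⟩ := h714_grad (Finset.univ : Finset (Momentum L Λ)) R (D 0) (fun n => waveVector L n.1)
    (fun n => inner ℝ (waveVector L n.1) (D n.1) / ‖waveVector L n.1‖ ^ 2)
  refine ⟨fun m => R⁻¹ * Real.sqrt (L ^ 3) * inner ℝ (pol m) (D m.1.1), _, g1, ?_, ?_⟩
  · refine (h714_energy L Λ R C hC hR hL D hD1 pol hp).trans ?_
    apply div_le_div_of_nonneg_right _ hR.le
    linarith
  · intro x hx
    rw [g2 x, sub_sub, h714_ident L Λ R hL0 D pol hp x, ← smul_sub, norm_smul, norm_inv, Real.norm_of_nonneg hR.le]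
    have hy : ‖R⁻¹ • x‖ ≤ 4 := by
      rw [norm_smul, norm_inv, Real.norm_of_nonneg hR.le, inv_mul_le_iff₀ hR]
      linarith
    have hin : ∀ n, (inner ℝ (waveVector (L / R) n) (R⁻¹ • x) : ℝ) = inner ℝ (waveVector L n) x := by
      intro n
      rw [h714_wv_div, inner_smul_left, inner_smul_right]
      simp only [conj_trivial]
      field_simp
    have hsum := hD2 _ hy
    simp only [hin] at hsum
    have ht := h714_tail L Λ R C hC hR hL hΛ D hD1
      (fun n => Real.cos (inner ℝ (waveVector L n) x) + Real.sin (inner ℝ (waveVector L n) x)) (by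
        intro n
        refine (abs_add_le _ _).trans ?_
        have := Real.abs_cos_le_one (inner ℝ (waveVector L n) x)
        have := Real.abs_sin_le_one (inner ℝ (waveVector L n) x)
        linarith) _ hsum
    have hpos : 0 ≤ ((Λ * R) ^ 12)⁻¹ := by
      have : 0 < Λ * R := by linarith
      positivity
    calc R⁻¹ * ‖a (R⁻¹ • x) - ∑ n ∈ h714F L Λ, (Real.cos (inner ℝ (waveVector L n) x) +
          Real.sin (inner ℝ (waveVector L n) x)) • D n‖
        ≤ R⁻¹ * (128 * C * ((Λ * R) ^ 12)⁻¹) := mul_le_mul_of_nonneg_left ht (by positivity)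
      _ ≤ R⁻¹ * ((128 * C + 128 * C ^ 2) * ((Λ * R) ^ 12)⁻¹) := by
          apply mul_le_mul_of_nonneg_left _ (by positivity)
          apply mul_le_mul_of_nonneg_right _ hpos
          nlinarith
      _ = (128 * C + 128 * C ^ 2) / R * ((Λ * R) ^ 12)⁻¹ := by ring

end Pool.Agent.Helper985.PS
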