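import Pool.Agent.Helper985.PS.Defs

set_option autoImplicit false

open MeasureTheory
open scoped Topology

namespace Pool.Agent.Helper985.PS


lemma exists_cutoff_rho_sq (y : E3) : rho y ^ 2 = y 0 ^ 2 + y 1 ^ 2 := Real.sq_sqrt (by positivity)

/-- a cutoff around the ring -/
theorem exists_cutoff : ∃ (η : E3 → ℝ) (C : ℝ), 0 < C ∧ ContDiff ℝ SM η ∧
    (∀ y, 0 ≤ η y ∧ η y ≤ 1) ∧ (∀ y, D2 y ≤ 1 / 64 → η y = 1) ∧ (∀ y, 1 / 16 ≤ D2 y → η y = 0) ∧
    (∀ y, ‖fderiv ℝ η y‖ ≤ C) ∧ HasCompactSupport η := by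
  set η : E3 → ℝ := fun y => 1 - Real.smoothTransition ((D2 y - 1 / 64) * (64 / 3)) with hη
  have h0 : ∀ y, 1 / 16 ≤ D2 y → η y = 0 := by
    intro y hy
    simp only [hη]
    rw [Real.smoothTransition.one_of_one_le (by linarith), sub_self]
  have h1 : ∀ y, D2 y ≤ 1 / 64 → η y = 1 := by
    intro y hy
    simp only [hη]
    rw [Real.smoothTransition.zero_of_nonpos (by linarith), sub_zero]
  have hc : ∀ i : Fin 3, ContDiff ℝ SM (fun y : E3 => y i) := fun i => by fun_prop
  have hsm : ContDiff ℝ SM η := by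
    rw [contDiff_iff_contDiffAt]
    intro y
    by_cases hy : y 0 ^ 2 + y 1 ^ 2 = 0
    · have hopen : IsOpen {z : E3 | z 0 ^ 2 + z 1 ^ 2 < 9 / 16} := by
        refine isOpen_lt ?_ continuous_const
        exact (((hc 0).continuous).pow 2).add (((hc 1).continuous).pow 2)
      have hmem : y ∈ {z : E3 | z 0 ^ 2 + z 1 ^ 2 < 9 / 16} := by
        show y 0 ^ 2 + y 1 ^ 2 < 9 / 16
        rw [hy]; norm_num
      have hev : η =ᶠ[𝓝 y] fun _ => (0 : ℝ) := by
        filter_upwards [hopen.mem_nhds hmem] with z hz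
        apply h0
        have hr : rho z < 3 / 4 := by
          have h2 := exists_cutoff_rho_sq z
          have hz' : z 0 ^ 2 + z 1 ^ 2 < 9 / 16 := hz
          nlinarith [Real.sqrt_nonneg (z 0 ^ 2 + z 1 ^ 2)]
        unfold D2
        nlinarith [sq_nonneg (z 2)]
      exact contDiffAt_const.congr_of_eventuallyEq hev
    · have hrho : ContDiffAt ℝ SM rho y := by
        have h2 : ContDiffAt ℝ SM (fun z : E3 => z 0 ^ 2 + z 1 ^ 2) y :=
          (((hc 0).pow 2).add ((hc 1).pow 2)).contDiffAt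
        exact h2.sqrt hy
      have hD : ContDiffAt ℝ SM D2 y := by
        unfold D2
        exact ((hrho.sub contDiffAt_const).pow 2).add (((hc 2).pow 2).contDiffAt)
      have h3 : ContDiffAt ℝ SM (fun z => (D2 z - 1 / 64) * (64 / 3)) y :=
        (hD.sub contDiffAt_const).mul contDiffAt_const
      exact contDiffAt_const.sub ((Real.smoothTransition.contDiff (n := ⊤)).contDiffAt.comp y h3)
  have hcs : HasCompactSupport η := by
    refine HasCompactSupport.intro (isCompact_closedBall (0 : E3) 2) fun y hy => ?_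
    apply h0
    by_contra hD
    push Not at hD
    apply hy
    rw [mem_closedBall_zero_iff]
    have hn : ‖y‖ ^ 2 = y 0 ^ 2 + y 1 ^ 2 + y 2 ^ 2 := by
      rw [EuclideanSpace.norm_sq_eq]
      simp [Fin.sum_univ_three]
    unfold D2 at hD
    have h2 := exists_cutoff_rho_sq y
    have h3 : rho y < 5 / 4 := by nlinarith [sq_nonneg (y 2)]
    have h4 : 0 ≤ rho y := Real.sqrt_nonneg _
    have h5 : y 2 ^ 2 < 1 / 16 := by nlinarith [sq_nonneg (rho y - 1)]
    nlinarith [norm_nonneg y]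
  obtain ⟨C, hC⟩ := (hsm.continuous_fderiv (by simp)).bounded_above_of_compact_support (hcs.fderiv ℝ)
  refine ⟨η, max C 1, by positivity, hsm, fun y => ⟨?_, ?_⟩, h1, h0, fun y => (hC y).trans (le_max_left _ _), hcs⟩
  · have := Real.smoothTransition.le_one ((D2 y - 1 / 64) * (64 / 3))
    simp only [hη]; linarith
  · have := Real.smoothTransition.nonneg ((D2 y - 1 / 64) * (64 / 3))
    simp only [hη]; linarith

end Pool.Agent.Helper985.PS
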