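import Pool.Agent.Helper985.PS.Defs

set_option autoImplicit false

open MeasureTheory
open scoped Topology

namespace Pool.Agent.Helper985.PS



section gaugeaux

theorem g_gam_eq (s : ℝ) : gam s = Real.cos s • (EuclideanSpace.single 0 1 : E3) +
    Real.sin s • (EuclideanSpace.single 1 1 : E3) := by
  ext i
  fin_cases i <;> simp [gam]

theorem g_tau_eq (s : ℝ) : tau s = (-Real.sin s) • (EuclideanSpace.single 0 1 : E3) +
    Real.cos s • (EuclideanSpace.single 1 1 : E3) := by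
  ext i
  fin_cases i <;> simp [tau]

theorem g_gam_deriv (s : ℝ) : HasDerivAt gam (tau s) s := by
  have h : gam = fun s => Real.cos s • (EuclideanSpace.single 0 1 : E3) +
    Real.sin s • (EuclideanSpace.single 1 1 : E3) := by
    funext s; exact g_gam_eq s
  rw [h, g_tau_eq]
  exact ((Real.hasDerivAt_cos s).smul_const _).add ((Real.hasDerivAt_sin s).smul_const _)

theorem g_gam_smooth : ContDiff ℝ SM gam := by
  have h : gam = fun s => Real.cos s • (EuclideanSpace.single 0 1 : E3) +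
    Real.sin s • (EuclideanSpace.single 1 1 : E3) := by
    funext s; exact g_gam_eq s
  rw [h]
  exact (Real.contDiff_cos.smul contDiff_const).add (Real.contDiff_sin.smul contDiff_const)

theorem g_tau_smooth : ContDiff ℝ SM tau := by
  have h : tau = fun s => (-Real.sin s) • (EuclideanSpace.single 0 1 : E3) +
    Real.cos s • (EuclideanSpace.single 1 1 : E3) := by
    funext s; exact g_tau_eq s
  rw [h]
  exact (Real.contDiff_sin.neg.smul contDiff_const).add (Real.contDiff_cos.smul contDiff_const)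

theorem g_gam_norm (s : ℝ) : ‖gam s‖ = 1 := by
  rw [EuclideanSpace.norm_eq]
  simp [gam, Fin.sum_univ_three]

theorem g_tau_norm (s : ℝ) : ‖tau s‖ = 1 := by
  rw [EuclideanSpace.norm_eq]
  simp [tau, Fin.sum_univ_three]

noncomputable def gI (u : E3 → E3) (s : ℝ) : ℝ := inner ℝ (u (gam s)) (tau s) - circ u

noncomputable def gP (u : E3 → E3) (t : ℝ) : ℝ := ∫ s in (0 : ℝ)..t, gI u s

theorem gI_smooth (u : E3 → E3) (hu : ContDiff ℝ SM u) : ContDiff ℝ SM (gI u) := by
  unfold gI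
  exact ((hu.comp g_gam_smooth).inner ℝ g_tau_smooth).sub contDiff_const

theorem gP_deriv (u : E3 → E3) (hu : ContDiff ℝ SM u) (t : ℝ) :
    HasDerivAt (gP u) (gI u t) t := by
  have hc : Continuous (gI u) := (gI_smooth u hu).continuous
  exact intervalIntegral.integral_hasDerivAt_right (hc.intervalIntegrable _ _)
    (hc.stronglyMeasurableAtFilter _ _) hc.continuousAt

theorem gP_smooth (u : E3 → E3) (hu : ContDiff ℝ SM u) : ContDiff ℝ SM (gP u) := by
  have hd : deriv (gP u) = gI u := by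
    funext t; exact (gP_deriv u hu t).deriv
  refine contDiff_infty_iff_deriv.2 ⟨fun t => (gP_deriv u hu t).differentiableAt, ?_⟩
  rw [hd]
  exact gI_smooth u hu

theorem g_gam_per (s : ℝ) : gam (s + 2 * Real.pi) = gam s := by
  simp [gam]

theorem g_tau_per (s : ℝ) : tau (s + 2 * Real.pi) = tau s := by
  simp [tau]

theorem gI_per (u : E3 → E3) : Function.Periodic (gI u) (2 * Real.pi) := by
  intro s
  simp only [gI, g_gam_per, g_tau_per]

theorem gI_int (u : E3 → E3) (hu : ContDiff ℝ SM u) :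
    ∫ s in (0 : ℝ)..(2 * Real.pi), gI u s = 0 := by
  have hc : Continuous (fun s => inner ℝ (u (gam s)) (tau s)) :=
    ((hu.comp g_gam_smooth).inner ℝ g_tau_smooth).continuous
  have h1 : ∫ s in (0 : ℝ)..(2 * Real.pi), gI u s =
      (∫ s in (0 : ℝ)..(2 * Real.pi), inner ℝ (u (gam s)) (tau s)) -
      ∫ s in (0 : ℝ)..(2 * Real.pi), circ u := by
    unfold gI
    exact intervalIntegral.integral_sub (hc.intervalIntegrable _ _)
      (continuous_const.intervalIntegrable _ _)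
  rw [h1, intervalIntegral.integral_const]
  simp only [circ, smul_eq_mul, sub_zero]
  have := Real.pi_pos
  field_simp
  ring

theorem gP_per (u : E3 → E3) (hu : ContDiff ℝ SM u) : Function.Periodic (gP u) (2 * Real.pi) := by
  intro t
  have hc : Continuous (gI u) := (gI_smooth u hu).continuous
  have h1 : gP u (t + 2 * Real.pi) = gP u t + ∫ s in t..(t + 2 * Real.pi), gI u s := by
    unfold gP
    exact (intervalIntegral.integral_add_adjacent_intervals (hc.intervalIntegrable _ _)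
      (hc.intervalIntegrable _ _)).symm
  have h2 : ∫ s in t..(t + 2 * Real.pi), gI u s = ∫ s in (0 : ℝ)..(0 + 2 * Real.pi), gI u s :=
    (gI_per u).intervalIntegral_add_eq t 0
  rw [h1, h2, zero_add, gI_int u hu, add_zero]

noncomputable def gG (u : E3 → E3) (y : E3) (t : ℝ) : ℝ := inner ℝ (y - gam t) (u (gam t)) + gP u t

theorem gG_eq (u : E3 → E3) (hu : ContDiff ℝ SM u) (y : E3) (t t' : ℝ)
    (h1 : Real.cos t = Real.cos t') (h2 : Real.sin t = Real.sin t') : gG u y t = gG u y t' := by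
  have h3 : gam t = gam t' := by simp [gam, h1, h2]
  have h4 := Real.Angle.cos_sin_inj h1 h2
  rw [Real.Angle.angle_eq_iff_two_pi_dvd_sub] at h4
  obtain ⟨k, hk⟩ := h4
  have h5 : t = t' + k * (2 * Real.pi) := by linarith
  have h6 : gP u t = gP u t' := by
    rw [h5]; exact (gP_per u hu).int_mul k t'
  simp only [gG, h3, h6]

noncomputable def gz (y : E3) : ℂ := (y 0 : ℂ) + (y 1 : ℂ) * Complex.I

theorem gz_re (y : E3) : (gz y).re = y 0 := by simp [gz]
theorem gz_im (y : E3) : (gz y).im = y 1 := by simp [gz]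

theorem gz_norm (y : E3) : ‖gz y‖ = rho y := by
  rw [Complex.norm_def, Complex.normSq_apply, gz_re, gz_im, rho]
  congr 1; ring

theorem gz_smooth : ContDiff ℝ SM gz := by
  have h : ∀ i : Fin 3, ContDiff ℝ SM (fun y : E3 => y i) := fun i =>
    (EuclideanSpace.proj (𝕜 := ℝ) i : E3 →L[ℝ] ℝ).contDiff
  have h2 : ∀ i : Fin 3, ContDiff ℝ SM (fun y : E3 => ((y i : ℝ) : ℂ)) := fun i =>
    Complex.ofRealCLM.contDiff.comp (h i)
  exact (h2 0).add ((h2 1).mul contDiff_const)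

theorem g_arg_smooth (z : ℂ) (hz : z ∈ Complex.slitPlane) : ContDiffAt ℝ SM Complex.arg z := by
  have h : Complex.arg = fun w => Complex.imCLM (Complex.log w) := by
    funext w; simp [Complex.log_im]
  rw [h]
  have h1 : ContDiffAt ℝ SM Complex.log z := (Complex.contDiffAt_log hz).restrict_scalars ℝ
  exact Complex.imCLM.contDiff.contDiffAt.comp z h1

theorem g_chart (y : E3) (hy : 0 < rho y) : ∃ θ : E3 → ℝ, ContDiffAt ℝ SM θ y ∧
    ∀ y', Real.cos (θ y') * rho y' = y' 0 ∧ Real.sin (θ y') * rho y' = y' 1 := by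
  have hz : gz y ≠ 0 := by
    rw [← norm_pos_iff, gz_norm]; exact hy
  rcases Complex.mem_slitPlane_or_neg_mem_slitPlane hz with h | h
  · refine ⟨fun y' => Complex.arg (gz y'), ?_, fun y' => ⟨?_, ?_⟩⟩
    · exact (g_arg_smooth _ h).comp y gz_smooth.contDiffAt
    · have := Complex.norm_mul_cos_arg (gz y')
      rw [gz_norm, gz_re] at this
      linarith
    · have := Complex.norm_mul_sin_arg (gz y')
      rw [gz_norm, gz_im] at this
      linarith
  · refine ⟨fun y' => Complex.arg (-gz y') + Real.pi, ?_, fun y' => ⟨?_, ?_⟩⟩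
    · exact ((g_arg_smooth _ h).comp y gz_smooth.neg.contDiffAt).add contDiffAt_const
    · have := Complex.norm_mul_cos_arg (-gz y')
      rw [norm_neg, gz_norm, Complex.neg_re, gz_re] at this
      rw [Real.cos_add_pi]
      linarith
    · have := Complex.norm_mul_sin_arg (-gz y')
      rw [norm_neg, gz_norm, Complex.neg_im, gz_im] at this
      rw [Real.sin_add_pi]
      linarith

theorem g_arg_chart (u : E3 → E3) (hu : ContDiff ℝ SM u) (y : E3) (θ : ℝ) (hy : 0 < rho y)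
    (h1 : Real.cos θ * rho y = y 0) (h2 : Real.sin θ * rho y = y 1) :
    gG u y (Complex.arg (gz y)) = gG u y θ := by
  apply gG_eq u hu
  · have := Complex.norm_mul_cos_arg (gz y)
    rw [gz_norm, gz_re] at this
    have h3 : rho y * Real.cos (gz y).arg = rho y * Real.cos θ := by rw [this]; linarith
    exact mul_left_cancel₀ hy.ne' h3
  · have := Complex.norm_mul_sin_arg (gz y)
    rw [gz_norm, gz_im] at this
    have h3 : rho y * Real.sin (gz y).arg = rho y * Real.sin θ := by rw [this]; linarith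
    exact mul_left_cancel₀ hy.ne' h3

noncomputable def gE (y : E3) : ℝ := (y 0 ^ 2 + y 1 ^ 2 - 1) ^ 2 + y 2 ^ 2

noncomputable def gη (y : E3) : ℝ := Real.smoothTransition (3 - 6 * gE y)

noncomputable def gT (u : E3 → E3) (y : E3) : ℝ := gη y * gG u y (Complex.arg (gz y))

theorem gE_smooth : ContDiff ℝ SM gE := by
  have h : ∀ i : Fin 3, ContDiff ℝ SM (fun y : E3 => y i) := fun i =>
    (EuclideanSpace.proj (𝕜 := ℝ) i : E3 →L[ℝ] ℝ).contDiff
  exact ((((h 0).pow 2).add ((h 1).pow 2)).sub contDiff_const).pow 2 |>.add ((h 2).pow 2)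

theorem gη_smooth : ContDiff ℝ SM gη := by
  exact Real.smoothTransition.contDiff.comp (contDiff_const.sub (contDiff_const.mul gE_smooth))

theorem gη_zero (y : E3) (h : 1 / 2 ≤ gE y) : gη y = 0 :=
  Real.smoothTransition.zero_of_nonpos (by linarith)

theorem gη_one (y : E3) (h : gE y ≤ 1 / 3) : gη y = 1 :=
  Real.smoothTransition.one_of_one_le (by linarith)

theorem rho_sq (y : E3) : rho y ^ 2 = y 0 ^ 2 + y 1 ^ 2 := by
  rw [rho, Real.sq_sqrt (by positivity)]

theorem rho_nonneg (y : E3) : 0 ≤ rho y := Real.sqrt_nonneg _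

theorem rho_cont : Continuous rho := by
  have h : ∀ i : Fin 3, Continuous (fun y : E3 => y i) := fun i =>
    (EuclideanSpace.proj (𝕜 := ℝ) i : E3 →L[ℝ] ℝ).continuous
  exact (((h 0).pow 2).add ((h 1).pow 2)).sqrt

theorem gT_smooth (u : E3 → E3) (hu : ContDiff ℝ SM u) : ContDiff ℝ SM (gT u) := by
  rw [contDiff_iff_contDiffAt]
  intro y
  rcases (rho_nonneg y).lt_or_eq with hy | hy
  · obtain ⟨θ, hθ, hc⟩ := g_chart y hy
    have hev : gT u =ᶠ[𝓝 y] fun y' => gη y' * gG u y' (θ y') := by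
      have : ∀ᶠ y' in 𝓝 y, 0 < rho y' := rho_cont.continuousAt.eventually (lt_mem_nhds hy)
      filter_upwards [this] with y' hy'
      rw [gT, g_arg_chart u hu y' (θ y') hy' (hc y').1 (hc y').2]
    refine ContDiffAt.congr_of_eventuallyEq ?_ hev
    refine gη_smooth.contDiffAt.mul ?_
    unfold gG
    have h1 : ContDiffAt ℝ SM (fun y' => gam (θ y')) y := g_gam_smooth.contDiffAt.comp y hθ
    have h2 : ContDiffAt ℝ SM (fun y' => u (gam (θ y'))) y := hu.contDiffAt.comp y h1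
    exact ((contDiffAt_id.sub h1).inner ℝ h2).add ((gP_smooth u hu).contDiffAt.comp y hθ)
  · have h0 : y 0 ^ 2 + y 1 ^ 2 = 0 := by rw [← rho_sq, ← hy]; ring
    have hE : 1 / 2 < gE y := by
      rw [gE, h0]; nlinarith [sq_nonneg (y 2)]
    have hev : gT u =ᶠ[𝓝 y] fun _ => (0 : ℝ) := by
      have : ∀ᶠ y' in 𝓝 y, 1 / 2 < gE y' :=
        gE_smooth.continuous.continuousAt.eventually (lt_mem_nhds hE)
      filter_upwards [this] with y' hy'
      rw [gT, gη_zero y' hy'.le, zero_mul]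
    exact contDiffAt_const.congr_of_eventuallyEq hev

theorem g_diff_sq (y : E3) (t : ℝ) (h1 : Real.cos t * rho y = y 0) (h2 : Real.sin t * rho y = y 1) :
    ‖y - gam t‖ ^ 2 = D2 y := by
  rw [EuclideanSpace.norm_eq, Real.sq_sqrt (by positivity), Fin.sum_univ_three, D2]
  simp only [gam, Real.norm_eq_abs, sq_abs]
  simp only [PiLp.sub_apply, Matrix.cons_val_zero, Matrix.cons_val_one, Matrix.cons_val]
  rw [← h1, ← h2]
  have := Real.sin_sq_add_cos_sq t
  have h3 : Real.sin t ^ 2 = 1 - Real.cos t ^ 2 := by linarith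
  ring_nf
  rw [h3]
  ring

theorem gcirc_bound (u : E3 → E3) (hu : ContDiff ℝ SM u) (S : ℝ)
    (hS : ∀ z : E3, ‖z‖ ≤ 2 → ‖u z‖ ≤ S) : |circ u| ≤ S := by
  have hpi := Real.pi_pos
  have h1 : ∀ s : ℝ, ‖(inner ℝ (u (gam s)) (tau s) : ℝ)‖ ≤ S := by
    intro s
    calc ‖(inner ℝ (u (gam s)) (tau s) : ℝ)‖ ≤ ‖u (gam s)‖ * ‖tau s‖ := norm_inner_le_norm _ _
      _ = ‖u (gam s)‖ := by rw [g_tau_norm, mul_one]
      _ ≤ S := hS _ (by rw [g_gam_norm]; norm_num)
  have h2 := intervalIntegral.norm_integral_le_of_norm_le_const (a := (0 : ℝ)) (b := 2 * Real.pi)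
    (f := fun s => (inner ℝ (u (gam s)) (tau s) : ℝ)) (C := S) (fun s _ => h1 s)
  rw [circ, abs_mul, abs_of_pos (by positivity : (0 : ℝ) < 1 / (2 * Real.pi))]
  rw [Real.norm_eq_abs, sub_zero, abs_of_pos (by positivity : (0 : ℝ) < 2 * Real.pi)] at h2
  rw [one_div, inv_mul_le_iff₀ (by positivity)]
  linarith

theorem gP_bound (u : E3 → E3) (hu : ContDiff ℝ SM u) (S : ℝ)
    (hS : ∀ z : E3, ‖z‖ ≤ 2 → ‖u z‖ ≤ S) (t : ℝ) (ht : |t| ≤ Real.pi) :
    |gP u t| ≤ 2 * S * Real.pi := by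
  have hS0 : 0 ≤ S := (norm_nonneg _).trans (hS 0 (by simp))
  have h1 : ∀ s : ℝ, ‖gI u s‖ ≤ 2 * S := by
    intro s
    have h3 : ‖(inner ℝ (u (gam s)) (tau s) : ℝ)‖ ≤ S := by
      calc ‖(inner ℝ (u (gam s)) (tau s) : ℝ)‖ ≤ ‖u (gam s)‖ * ‖tau s‖ := norm_inner_le_norm _ _
        _ = ‖u (gam s)‖ := by rw [g_tau_norm, mul_one]
        _ ≤ S := hS _ (by rw [g_gam_norm]; norm_num)
    have h4 := gcirc_bound u hu S hS
    rw [gI]
    calc ‖(inner ℝ (u (gam s)) (tau s) : ℝ) - circ u‖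
        ≤ ‖(inner ℝ (u (gam s)) (tau s) : ℝ)‖ + ‖circ u‖ := norm_sub_le _ _
      _ ≤ S + S := add_le_add h3 (by rw [Real.norm_eq_abs]; exact h4)
      _ = 2 * S := by ring
  have h2 := intervalIntegral.norm_integral_le_of_norm_le_const (a := (0 : ℝ)) (b := t)
    (f := gI u) (C := 2 * S) (fun s _ => h1 s)
  rw [sub_zero, Real.norm_eq_abs] at h2
  exact h2.trans (mul_le_mul_of_nonneg_left ht (by positivity))

theorem g_pos_of_gE (y : E3) (h : gE y < 1 / 2) : 1 / 2 < rho y ∧ D2 y ≤ gE y := by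
  have h0 := rho_nonneg y
  have h1 : gE y = (rho y ^ 2 - 1) ^ 2 + y 2 ^ 2 := by rw [gE, rho_sq]
  refine ⟨?_, ?_⟩
  · by_contra hc
    push Not at hc
    have h2 : rho y ^ 2 ≤ 1 / 4 := by nlinarith
    nlinarith [sq_nonneg (y 2)]
  · rw [h1, D2]
    have : (rho y ^ 2 - 1) ^ 2 = (rho y - 1) ^ 2 * (rho y + 1) ^ 2 := by ring
    rw [this]
    have h3 : 1 ≤ (rho y + 1) ^ 2 := by nlinarith
    nlinarith [sq_nonneg (rho y - 1)]

theorem gT_bound (u : E3 → E3) (hu : ContDiff ℝ SM u) (S : ℝ)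
    (hS : ∀ z : E3, ‖z‖ ≤ 2 → ‖u z‖ ≤ S) (y : E3) : |gT u y| ≤ 10 * S := by
  have hS0 : 0 ≤ S := (norm_nonneg _).trans (hS 0 (by simp))
  rcases lt_or_ge (gE y) (1 / 2) with h | h
  · obtain ⟨hr, hD⟩ := g_pos_of_gE y h
    have hr0 : 0 < rho y := by linarith
    have hη1 : |gη y| ≤ 1 := by
      rw [gη, abs_of_nonneg (Real.smoothTransition.nonneg _)]
      exact Real.smoothTransition.le_one _
    have c1 : Real.cos (gz y).arg * rho y = y 0 := by
      have := Complex.norm_mul_cos_arg (gz y)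
      rw [gz_norm, gz_re] at this
      linarith
    have c2 : Real.sin (gz y).arg * rho y = y 1 := by
      have := Complex.norm_mul_sin_arg (gz y)
      rw [gz_norm, gz_im] at this
      linarith
    have h1 : ‖y - gam (gz y).arg‖ ≤ 1 := by
      have := g_diff_sq y _ c1 c2
      nlinarith [norm_nonneg (y - gam (gz y).arg)]
    have h2 : |(inner ℝ (y - gam (gz y).arg) (u (gam (gz y).arg)) : ℝ)| ≤ S := by
      calc |(inner ℝ (y - gam (gz y).arg) (u (gam (gz y).arg)) : ℝ)|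
          ≤ ‖y - gam (gz y).arg‖ * ‖u (gam (gz y).arg)‖ := abs_real_inner_le_norm _ _
        _ ≤ 1 * S := mul_le_mul h1 (hS _ (by rw [g_gam_norm]; norm_num)) (norm_nonneg _)
            (by norm_num)
        _ = S := one_mul S
    have h3 := gP_bound u hu S hS (gz y).arg (Complex.abs_arg_le_pi _)
    have h4 : |gG u y (gz y).arg| ≤ S + 2 * S * Real.pi := by
      rw [gG]
      exact (abs_add_le _ _).trans (add_le_add h2 h3)
    rw [gT, abs_mul]
    have h5 : Real.pi ≤ 4 := Real.pi_le_four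
    calc |gη y| * |gG u y (gz y).arg| ≤ 1 * (S + 2 * S * Real.pi) :=
          mul_le_mul hη1 h4 (abs_nonneg _) (by norm_num)
      _ ≤ 10 * S := by nlinarith
  · rw [gT, gη_zero y h, zero_mul, abs_zero]
    positivity

theorem g_chart_deriv (y : E3) (hy : 0 < rho y) : ∃ θ : E3 → ℝ, ∃ L : E3 →L[ℝ] ℝ,
    HasFDerivAt θ L y ∧ (∀ h, L h * rho y = inner ℝ h (tau (θ y))) ∧
    ∀ y', Real.cos (θ y') * rho y' = y' 0 ∧ Real.sin (θ y') * rho y' = y' 1 := by
  obtain ⟨θ, hθ, hc⟩ := g_chart y hy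
  have hd : DifferentiableAt ℝ θ y := hθ.differentiableAt (by simp)
  refine ⟨θ, fderiv ℝ θ y, hd.hasFDerivAt, ?_, hc⟩
  intro h
  have hp : ∀ i : Fin 3, HasFDerivAt (fun y : E3 => y i) (EuclideanSpace.proj (𝕜 := ℝ) i : E3 →L[ℝ] ℝ) y :=
    fun i => (EuclideanSpace.proj (𝕜 := ℝ) i : E3 →L[ℝ] ℝ).hasFDerivAt
  have hs := hd.hasFDerivAt.sin
  have hcs := hd.hasFDerivAt.cos
  have hz : (fun y' : E3 => y' 0 * Real.sin (θ y') - y' 1 * Real.cos (θ y')) = fun _ => (0 : ℝ) := by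
    funext y'
    rw [← (hc y').1, ← (hc y').2]; ring
  have h1 := ((hp 0).mul hs).sub ((hp 1).mul hcs)
  have h2 : HasFDerivAt (fun y' : E3 => y' 0 * Real.sin (θ y') - y' 1 * Real.cos (θ y'))
      (0 : E3 →L[ℝ] ℝ) y := by rw [hz]; exact hasFDerivAt_const _ _
  have h3 := congrArg (fun T : E3 →L[ℝ] ℝ => T h) (h1.unique h2)
  simp only [ContinuousLinearMap.sub_apply, ContinuousLinearMap.add_apply,
    ContinuousLinearMap.smul_apply, smul_eq_mul, ContinuousLinearMap.zero_apply] at h3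
  have hpr : ∀ i : Fin 3, (EuclideanSpace.proj (𝕜 := ℝ) i : E3 →L[ℝ] ℝ) h = h i := fun i => rfl
  rw [hpr, hpr] at h3
  have h4 : (inner ℝ h (tau (θ y)) : ℝ) = - Real.sin (θ y) * h 0 + Real.cos (θ y) * h 1 := by
    rw [PiLp.inner_apply]
    simp [Fin.sum_univ_three, tau]
  rw [h4]
  have e0 := (hc y).1
  have e1 := (hc y).2
  have hsc := Real.sin_sq_add_cos_sq (θ y)
  have h5 : fderiv ℝ θ y h * rho y * (Real.sin (θ y) ^ 2 + Real.cos (θ y) ^ 2) =
      - Real.sin (θ y) * h 0 + Real.cos (θ y) * h 1 := by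
    have : fderiv ℝ θ y h * rho y * (Real.sin (θ y) ^ 2 + Real.cos (θ y) ^ 2) =
      fderiv ℝ θ y h * (Real.sin (θ y) * (Real.sin (θ y) * rho y) +
        Real.cos (θ y) * (Real.cos (θ y) * rho y)) := by ring
    rw [this, e0, e1]
    linear_combination h3
  rw [hsc, mul_one] at h5
  exact h5

theorem gT_grad (u : E3 → E3) (hu : ContDiff ℝ SM u) (S : ℝ)
    (hS : ∀ z : E3, ‖z‖ ≤ 2 → ‖fderiv ℝ u z‖ ≤ S) (y : E3) (hy : D2 y ≤ 1 / 16) :
    ‖u y - gradient (gT u) y‖ ≤ 10 * (Real.sqrt (D2 y) * S + |circ u|) := by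
  have hS0 : 0 ≤ S := (norm_nonneg _).trans (hS 0 (by simp))
  have hD0 : 0 ≤ D2 y := by rw [D2]; positivity
  have hr1 : (rho y - 1) ^ 2 ≤ 1 / 16 := by rw [D2] at hy; nlinarith [sq_nonneg (y 2)]
  have hr2 : 3 / 4 ≤ rho y := by nlinarith
  have hr3 : rho y ≤ 5 / 4 := by nlinarith
  have hr0 : 0 < rho y := by linarith
  have hE : gE y < 1 / 3 := by
    have h1 : gE y = (rho y ^ 2 - 1) ^ 2 + y 2 ^ 2 := by rw [gE, rho_sq]
    have h2 : (rho y ^ 2 - 1) ^ 2 = (rho y - 1) ^ 2 * (rho y + 1) ^ 2 := by ring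
    have h3 : (rho y + 1) ^ 2 ≤ 81 / 16 := by nlinarith
    have h4 : (rho y - 1) ^ 2 * (rho y + 1) ^ 2 ≤ (rho y - 1) ^ 2 * (81 / 16) :=
      mul_le_mul_of_nonneg_left h3 (sq_nonneg _)
    rw [h1, h2]
    rw [D2] at hy
    nlinarith [sq_nonneg (y 2)]
  obtain ⟨θ, L, hL, hLh, hc⟩ := g_chart_deriv y hr0
  set t := θ y with ht
  have hev : gT u =ᶠ[𝓝 y] fun y' => gG u y' (θ y') := by
    have h1 : ∀ᶠ y' in 𝓝 y, 0 < rho y' := rho_cont.continuousAt.eventually (lt_mem_nhds hr0)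
    have h2 : ∀ᶠ y' in 𝓝 y, gE y' < 1 / 3 :=
      gE_smooth.continuous.continuousAt.eventually (gt_mem_nhds hE)
    filter_upwards [h1, h2] with y' h1' h2'
    rw [gT, g_arg_chart u hu y' (θ y') h1' (hc y').1 (hc y').2, gη_one y' h2'.le, one_mul]
  have hdu : Differentiable ℝ u := hu.differentiable (by simp)
  have hgθ : HasFDerivAt (fun y' => gam (θ y')) (L.smulRight (tau t)) y := by
    have h1 : HasFDerivAt gam (ContinuousLinearMap.toSpanSingleton ℝ (tau t)) (θ y) :=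
      (g_gam_deriv t).hasFDerivAt
    refine (h1.comp y hL).congr_fderiv ?_
    ext v
    simp
  have huθ : HasFDerivAt (fun y' => u (gam (θ y')))
      ((fderiv ℝ u (gam t)).comp (L.smulRight (tau t))) y :=
    (hdu (gam t)).hasFDerivAt.comp y hgθ
  have hPθ : HasFDerivAt (fun y' => gP u (θ y')) ((gI u t) • L) y :=
    (gP_deriv u hu t).comp_hasFDerivAt y hL
  have hin := ((hasFDerivAt_id (𝕜 := ℝ) y).sub hgθ).inner ℝ huθ
  have hG := hin.add hPθ
  set b : ℝ := inner ℝ (y - gam t) (fderiv ℝ u (gam t) (tau t)) - circ u with hb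
  set g : E3 := u (gam t) + (b / rho y) • tau t with hg
  have hgrad : HasGradientAt (gT u) g y := by
    rw [hasGradientAt_iff_hasFDerivAt]
    refine (HasFDerivAt.congr_of_eventuallyEq ?_ hev)
    refine HasFDerivAt.congr_fderiv hG ?_
    ext h
    simp only [InnerProductSpace.toDual_apply_apply, hg, inner_add_left, inner_smul_left]
    simp [fderivInnerCLM_apply, gI, hb, inner_sub_left, inner_smul_right, inner_smul_left]
    rw [← ht]
    have i1 : (inner ℝ (tau t) h : ℝ) = L h * rho y := by rw [hLh h, real_inner_comm]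
    have i2 : (inner ℝ h (u (gam t)) : ℝ) = inner ℝ (u (gam t)) h := real_inner_comm _ _
    have i3 : (inner ℝ (tau t) (u (gam t)) : ℝ) = inner ℝ (u (gam t)) (tau t) :=
      real_inner_comm _ _
    rw [i1, i2, i3]
    field_simp
    ring
  rw [hgrad.gradient]
  obtain ⟨c1, c2⟩ := hc y
  have hn : ‖y - gam t‖ = Real.sqrt (D2 y) := by
    rw [← g_diff_sq y t c1 c2, Real.sqrt_sq (norm_nonneg _)]
  have hsq : Real.sqrt (D2 y) ≤ 1 / 4 := by
    rw [Real.sqrt_le_left (by norm_num)]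
    linarith
  have hyn : ‖y‖ ≤ 2 := by
    calc ‖y‖ = ‖(y - gam t) + gam t‖ := by rw [sub_add_cancel]
      _ ≤ ‖y - gam t‖ + ‖gam t‖ := norm_add_le _ _
      _ ≤ 2 := by rw [hn, g_gam_norm]; linarith
  have hmv : ‖u y - u (gam t)‖ ≤ S * ‖y - gam t‖ := by
    refine Convex.norm_image_sub_le_of_norm_fderiv_le (𝕜 := ℝ) (s := Metric.closedBall (0 : E3) 2)
      (fun x _ => hdu x) (fun x hx => hS x (by simpa using hx)) (convex_closedBall _ _) ?_ ?_
    · simp [g_gam_norm]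
    · simpa using hyn
  have hbb : |b| ≤ ‖y - gam t‖ * S + |circ u| := by
    have h1 : |(inner ℝ (y - gam t) (fderiv ℝ u (gam t) (tau t)) : ℝ)| ≤ ‖y - gam t‖ * S := by
      calc |(inner ℝ (y - gam t) (fderiv ℝ u (gam t) (tau t)) : ℝ)|
          ≤ ‖y - gam t‖ * ‖fderiv ℝ u (gam t) (tau t)‖ := abs_real_inner_le_norm _ _
        _ ≤ ‖y - gam t‖ * (‖fderiv ℝ u (gam t)‖ * ‖tau t‖) :=
            mul_le_mul_of_nonneg_left (ContinuousLinearMap.le_opNorm _ _) (norm_nonneg _)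
        _ ≤ ‖y - gam t‖ * S := by
            rw [g_tau_norm, mul_one]
            exact mul_le_mul_of_nonneg_left (hS _ (by rw [g_gam_norm]; norm_num)) (norm_nonneg _)
    rw [hb]
    calc |(inner ℝ (y - gam t) (fderiv ℝ u (gam t) (tau t)) : ℝ) - circ u|
        ≤ |(inner ℝ (y - gam t) (fderiv ℝ u (gam t) (tau t)) : ℝ)| + |circ u| := abs_sub _ _
      _ ≤ _ := by linarith
  have hbr : ‖(b / rho y) • tau t‖ ≤ 4 / 3 * (‖y - gam t‖ * S + |circ u|) := by
    rw [norm_smul, g_tau_norm, mul_one, Real.norm_eq_abs, abs_div, abs_of_pos hr0,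
      div_le_iff₀ hr0]
    have h0 : 0 ≤ ‖y - gam t‖ * S + |circ u| := by positivity
    nlinarith
  have hfin : u y - g = (u y - u (gam t)) - (b / rho y) • tau t := by
    rw [hg]; abel
  rw [hfin]
  have h1 := norm_sub_le (u y - u (gam t)) ((b / rho y) • tau t)
  rw [hn] at hmv hbr
  have h2 : 0 ≤ Real.sqrt (D2 y) * S := by positivity
  have h3 := abs_nonneg (circ u)
  nlinarith

theorem gT_lin (ι : Type) [Fintype ι] (c : ι → ℝ) (u : ι → E3 → E3)
    (hu : ∀ m, ContDiff ℝ SM (u m)) :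
    gT (fun y => ∑ m, c m • u m y) = fun y => ∑ m, c m * gT (u m) y := by
  have hcont : ∀ m, Continuous (fun s => (inner ℝ (u m (gam s)) (tau s) : ℝ)) := fun m =>
    (((hu m).comp g_gam_smooth).inner ℝ g_tau_smooth).continuous
  have hin : ∀ s, (inner ℝ (∑ m, c m • u m (gam s)) (tau s) : ℝ) =
      ∑ m, c m * inner ℝ (u m (gam s)) (tau s) := by
    intro s
    rw [sum_inner]
    refine Finset.sum_congr rfl fun m _ => ?_
    rw [inner_smul_left]; simp
  have hcirc : circ (fun y => ∑ m, c m • u m y) = ∑ m, c m * circ (u m) := by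
    unfold circ
    simp only [hin]
    rw [intervalIntegral.integral_finset_sum
      (fun m _ => ((hcont m).const_mul (c m)).intervalIntegrable _ _)]
    rw [Finset.mul_sum]
    refine Finset.sum_congr rfl fun m _ => ?_
    rw [intervalIntegral.integral_const_mul]
    ring
  have hI : ∀ s, gI (fun y => ∑ m, c m • u m y) s = ∑ m, c m * gI (u m) s := by
    intro s
    simp only [gI, hin, hcirc, mul_sub, Finset.sum_sub_distrib]
  have hP : ∀ t, gP (fun y => ∑ m, c m • u m y) t = ∑ m, c m * gP (u m) t := by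
    intro t
    unfold gP
    simp only [hI]
    rw [intervalIntegral.integral_finset_sum
      (fun m _ => (((gI_smooth (u m) (hu m)).continuous).const_mul (c m)).intervalIntegrable _ _)]
    refine Finset.sum_congr rfl fun m _ => ?_
    rw [intervalIntegral.integral_const_mul]
  funext y
  simp only [gT, gG, hP]
  rw [inner_sum, ← Finset.sum_add_distrib, Finset.mul_sum]
  refine Finset.sum_congr rfl fun m _ => ?_
  rw [inner_smul_right]
  ring

end gaugeaux
theorem exists_gauge : ∃ (Θ : (E3 → E3) → E3 → ℝ) (C : ℝ), 0 < C ∧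
    (∀ (ι : Type) [Fintype ι] (c : ι → ℝ) (u : ι → E3 → E3), (∀ m, ContDiff ℝ SM (u m)) →
      Θ (fun y => ∑ m, c m • u m y) = fun y => ∑ m, c m * Θ (u m) y) ∧
    (∀ u : E3 → E3, ContDiff ℝ SM u → ContDiff ℝ SM (Θ u)) ∧
    (∀ u : E3 → E3, ContDiff ℝ SM u → ∀ S : ℝ, (∀ z, ‖z‖ ≤ 2 → ‖u z‖ ≤ S) →
      ∀ y, |Θ u y| ≤ C * S) ∧
    (∀ u : E3 → E3, ContDiff ℝ SM u → ∀ S : ℝ, (∀ z, ‖z‖ ≤ 2 → ‖fderiv ℝ u z‖ ≤ S) →
      ∀ y, D2 y ≤ 1 / 16 → ‖u y - gradient (Θ u) y‖ ≤ C * (Real.sqrt (D2 y) * S + |circ u|)) := by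
  refine ⟨gT, 10, by norm_num, ?_, ?_, ?_, ?_⟩
  · intro ι _ c u hu
    exact gT_lin ι c u hu
  · intro u hu
    exact gT_smooth u hu
  · intro u hu S hS y
    exact gT_bound u hu S hS y
  · intro u hu S hS y hy
    exact gT_grad u hu S hS y hy

end Pool.Agent.Helper985.PS
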