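import Pool.Agent.Helper985.PS.Defs

set_option autoImplicit false

open MeasureTheory
open scoped Topology

namespace Pool.Agent.Helper985.PS


theorem hl_exp (p0 p1 k v : E3) (h00 : inner ℝ p0 p0 = (1 : ℝ)) (h11 : inner ℝ p1 p1 = (1 : ℝ))
    (h01 : inner ℝ p0 p1 = (0 : ℝ)) (hk : 0 < ‖k‖) (h0k : inner ℝ p0 k = (0 : ℝ))
    (h1k : inner ℝ p1 k = (0 : ℝ)) (hv : inner ℝ v k = (0 : ℝ)) :
    v = (inner ℝ p0 v : ℝ) • p0 + (inner ℝ p1 v : ℝ) • p1 := by
  have h10 : inner ℝ p1 p0 = (0 : ℝ) := by rw [real_inner_comm]; exact h01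
  have hk0 : inner ℝ k p0 = (0 : ℝ) := by rw [real_inner_comm]; exact h0k
  have hk1 : inner ℝ k p1 = (0 : ℝ) := by rw [real_inner_comm]; exact h1k
  have hkv : inner ℝ k v = (0 : ℝ) := by rw [real_inner_comm]; exact hv
  have hkk : ‖k‖⁻¹ * (‖k‖⁻¹ * inner ℝ k k) = (1 : ℝ) := by
    rw [real_inner_self_eq_norm_sq]
    field_simp
  have hon : Orthonormal ℝ ![p0, p1, (‖k‖)⁻¹ • k] := by
    rw [orthonormal_iff_ite]
    intro i j
    fin_cases i <;> fin_cases j
    · simpa using h00
    · simpa using h01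
    · simp [inner_smul_right, h0k]
    · simpa using h10
    · simpa using h11
    · simp [inner_smul_right, h1k]
    · simp [inner_smul_left, hk0]
    · simp [inner_smul_left, hk1]
    · have : inner ℝ (‖k‖⁻¹ • k) (‖k‖⁻¹ • k) = (1 : ℝ) := by
        rw [inner_smul_left, inner_smul_right]
        simpa using hkk
      simpa using this
  have hcard : Fintype.card (Fin 3) = Module.finrank ℝ E3 := by simp
  have hbon : Orthonormal ℝ (basisOfOrthonormalOfCardEqFinrank hon hcard) := by
    rw [coe_basisOfOrthonormalOfCardEqFinrank]; exact hon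
  have hrep := ((basisOfOrthonormalOfCardEqFinrank hon hcard).toOrthonormalBasis hbon).sum_repr' v
  rw [Module.Basis.coe_toOrthonormalBasis, coe_basisOfOrthonormalOfCardEqFinrank, Fin.sum_univ_three] at hrep
  simp only [Matrix.cons_val_zero, Matrix.cons_val_one, Matrix.cons_val] at hrep
  rw [inner_smul_left, hkv, mul_zero, zero_smul, add_zero] at hrep
  exact hrep.symm

theorem hl_wv {L : ℝ} (n : Fin 3 → ℤ) : waveVector L (-n) = - waveVector L n := by
  ext i
  simp [waveVector]

/-- negation of momenta -/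
noncomputable def ng {L Λ : ℝ} (n : Momentum L Λ) : Momentum L Λ :=
  ⟨-n.1, by rw [hl_wv, norm_neg]; exact n.2⟩

theorem ng_ng {L Λ : ℝ} (n : Momentum L Λ) : ng (ng n) = n := by
  apply Subtype.ext
  simp [ng]

theorem ng_ne {L Λ : ℝ} (n : Momentum L Λ) : ng n ≠ n := by
  intro h
  have h1 : -n.1 = n.1 := congrArg Subtype.val h
  have h2 : n.1 = 0 := by
    funext i
    have := congrFun h1 i
    simp only [Pi.neg_apply] at this
    simp only [Pi.zero_apply]
    omega
  have h3 := n.2.1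
  rw [h2] at h3
  have h4 : waveVector L 0 = 0 := by
    ext i
    simp [waveVector]
  rw [h4, norm_zero] at h3
  exact lt_irrefl _ h3

theorem ng_k {L Λ : ℝ} (n : Momentum L Λ) (μ ν : Fin 2) : Mode.k (ng n, μ) = - Mode.k (n, ν) := hl_wv n.1

/-- expansion of transverse vectors -/
theorem hl_exp' {L Λ : ℝ} (pol : Mode L Λ → E3) (hp : IsPolarisation pol) (n : Momentum L Λ) (μ : Fin 2) :
    pol (n, μ) = (inner ℝ (pol (ng n, 0)) (pol (n, μ)) : ℝ) • pol (ng n, 0) +
      (inner ℝ (pol (ng n, 1)) (pol (n, μ)) : ℝ) • pol (ng n, 1) := by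
  refine hl_exp _ _ (Mode.k (ng n, 0)) _ ?_ ?_ ?_ (ng n).2.1 (hp.transverse (ng n, 0)) (hp.transverse (ng n, 1)) ?_
  · simpa using hp.orthonormal (ng n) 0 0
  · simpa using hp.orthonormal (ng n) 1 1
  · simpa using hp.orthonormal (ng n) 0 1
  · rw [ng_k n 0 μ, inner_neg_right, hp.transverse (n, μ), neg_zero]

theorem hl_orth {L Λ : ℝ} (pol : Mode L Λ → E3) (hp : IsPolarisation pol) (n : Momentum L Λ) (μ ρ : Fin 2) :
    ∑ ν : Fin 2, (inner ℝ (pol (n, μ)) (pol (ng n, ν)) : ℝ) * inner ℝ (pol (n, ρ)) (pol (ng n, ν)) =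
      if μ = ρ then (1 : ℝ) else 0 := by
  rw [← hp.orthonormal n μ ρ]
  conv_rhs => rw [hl_exp' pol hp n ρ]
  rw [inner_add_right, inner_smul_right, inner_smul_right, Fin.sum_univ_two,
    real_inner_comm (pol (n, ρ)) (pol (ng n, 0)), real_inner_comm (pol (n, ρ)) (pol (ng n, 1))]
  ring

open Complex in
/-- the matrix -/
noncomputable def hartU {L Λ : ℝ} (pol : Mode L Λ → E3) : Matrix (Mode L Λ) (Mode L Λ) ℂ := fun m n =>
  if m.1 = n.1 then (if m.2 = n.2 then (1 - I) / 2 else 0)
  else if n.1 = ng m.1 then (1 + I) / 2 * ((inner ℝ (pol m) (pol n) : ℝ) : ℂ) else 0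

open Complex in
theorem hartU1 {L Λ : ℝ} (pol : Mode L Λ → E3) (n : Momentum L Λ) (μ ν : Fin 2) :
    hartU pol (n, μ) (n, ν) = if μ = ν then (1 - I) / 2 else 0 := by
  simp [hartU]

open Complex in
theorem hartU2 {L Λ : ℝ} (pol : Mode L Λ → E3) (n : Momentum L Λ) (μ ν : Fin 2) :
    hartU pol (n, μ) (ng n, ν) = (1 + I) / 2 * ((inner ℝ (pol (n, μ)) (pol (ng n, ν)) : ℝ) : ℂ) := by
  simp [hartU, (ng_ne n).symm]

open Complex in
theorem hartU2' {L Λ : ℝ} (pol : Mode L Λ → E3) (n : Momentum L Λ) (μ ν : Fin 2) :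
    hartU pol (ng n, μ) (n, ν) = (1 + I) / 2 * ((inner ℝ (pol (ng n, μ)) (pol (n, ν)) : ℝ) : ℂ) := by
  simp [hartU, ng_ne n, ng_ng]

theorem hartU0 {L Λ : ℝ} (pol : Mode L Λ → E3) (n n' : Momentum L Λ) (μ ν : Fin 2) (h1 : n' ≠ n)
    (h2 : n' ≠ ng n) : hartU pol (n, μ) (n', ν) = 0 := by
  simp [hartU, h1.symm, h2]

theorem hl_sum {L Λ : ℝ} (n : Momentum L Λ) (g : Momentum L Λ → ℂ) (h : ∀ n', n' ≠ n → n' ≠ ng n → g n' = 0) :
    ∑ n', g n' = g n + g (ng n) :=
  Finset.sum_eq_add_of_mem n (ng n) (Finset.mem_univ _) (Finset.mem_univ _) (ng_ne n).symm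
    (fun c _ hc => h c hc.1 hc.2)

/-- the unitary relating plane waves to the functions `cos + sin` -/
theorem exists_hartley {L Λ : ℝ} (hL : 0 < L) (pol : Mode L Λ → E3) (hp : IsPolarisation pol) :
    ∃ U : Matrix (Mode L Λ) (Mode L Λ) ℂ, U * U.conjTranspose = 1 ∧
      (∀ m n, U m n ≠ 0 → ‖m.k‖ = ‖n.k‖) ∧
      ∀ (n : Mode L Λ) (x : E3) (i : Fin 3),
        ∑ m : Mode L Λ, ((pol m i : ℝ) : ℂ) *
          Complex.exp (Complex.I * ((inner ℝ m.k x : ℝ) : ℂ)) * U m n =
        ((pol n i * (Real.cos (inner ℝ n.k x) + Real.sin (inner ℝ n.k x)) : ℝ) : ℂ) := by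
  refine ⟨hartU pol, ?_, ?_, ?_⟩
  · ext m m''
    obtain ⟨n, μ⟩ := m
    obtain ⟨n'', ρ⟩ := m''
    rw [Matrix.mul_apply, Fintype.sum_prod_type, hl_sum n]
    · simp only [Matrix.conjTranspose_apply]
      by_cases h1 : n'' = n
      · subst h1
        simp only [hartU1, hartU2]
        have hO := hl_orth pol hp n'' μ ρ
        rw [Fin.sum_univ_two] at hO
        rw [Fin.sum_univ_two, Fin.sum_univ_two, Matrix.one_apply]
        have hO' := congrArg (fun t : ℝ => (t : ℂ)) hO
        push_cast at hO'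
        have hI : Complex.I * Complex.I = -1 := Complex.I_mul_I
        have hst1 : star ((1 - Complex.I) / 2) = (1 + Complex.I) / 2 := by
          simp
        have e1 : ∀ t : ℝ, star ((1 + Complex.I) / 2 * (t : ℂ)) = (1 - Complex.I) / 2 * (t : ℂ) := by
          intro t
          simp [sub_eq_add_neg]
        rw [e1, e1]
        have hS : (if μ = 0 then (1 - Complex.I) / 2 else 0) * star (if ρ = 0 then (1 - Complex.I) / 2 else 0) +
            (if μ = 1 then (1 - Complex.I) / 2 else 0) * star (if ρ = 1 then (1 - Complex.I) / 2 else 0) =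
            (1 / 2 : ℂ) * (if μ = ρ then 1 else 0) := by
          fin_cases μ <;> fin_cases ρ <;> simp <;> linear_combination (-1 / 4 : ℂ) * hI
        rw [hS]
        have hR : (if ((n'', μ) : Mode L Λ) = (n'', ρ) then (1 : ℂ) else 0) = if μ = ρ then 1 else 0 := by
          simp
        rw [hR]
        have hO2 : ((if μ = ρ then (1 : ℝ) else 0 : ℝ) : ℂ) = if μ = ρ then (1 : ℂ) else 0 := by
          split_ifs <;> simp
        rw [hO2] at hO'
        linear_combination (1 / 2 : ℂ) * hO' - (1 / 4 : ℂ) * ((inner ℝ (pol (n'', μ)) (pol (ng n'', 0)) : ℝ) *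
          (inner ℝ (pol (n'', ρ)) (pol (ng n'', 0)) : ℝ) + (inner ℝ (pol (n'', μ)) (pol (ng n'', 1)) : ℝ) *
          (inner ℝ (pol (n'', ρ)) (pol (ng n'', 1)) : ℝ)) * hI
      · by_cases h2 : n'' = ng n
        · subst h2
          simp only [hartU1, hartU2, hartU2']
          have hne : ((n, μ) : Mode L Λ) ≠ (ng n, ρ) := fun h => (ng_ne n) (congrArg Prod.fst h).symm
          rw [Fin.sum_univ_two, Fin.sum_univ_two, Matrix.one_apply, if_neg hne]
          have hI : Complex.I * Complex.I = -1 := Complex.I_mul_I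
          have e1 : ∀ t : ℝ, star ((1 + Complex.I) / 2 * (t : ℂ)) = (1 - Complex.I) / 2 * (t : ℂ) := by
            intro t
            simp [sub_eq_add_neg]
          simp only [e1]
          fin_cases μ <;> fin_cases ρ <;> simp
          · rw [real_inner_comm (pol (n, 0)) (pol (ng n, 0))]; ring_nf; simp
          · rw [real_inner_comm (pol (n, 0)) (pol (ng n, 1))]; ring_nf; simp
          · rw [real_inner_comm (pol (n, 1)) (pol (ng n, 0))]; ring_nf; simp
          · rw [real_inner_comm (pol (n, 1)) (pol (ng n, 1))]; ring_nf; simp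
        · have hne : ((n, μ) : Mode L Λ) ≠ (n'', ρ) := fun h => h1 (congrArg Prod.fst h).symm
          rw [Matrix.one_apply, if_neg hne]
          have h3 : ng n ≠ n'' := fun h => h2 h.symm
          have h4 : ng n ≠ ng n'' := by
            intro h
            have := congrArg ng h
            rw [ng_ng, ng_ng] at this
            exact h1 this.symm
          have h5 : n ≠ n'' := fun h => h1 h.symm
          have h6 : n ≠ ng n'' := by
            intro h
            have := congrArg ng h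
            rw [ng_ng] at this
            exact h2 this.symm
          simp [hartU0 pol n'' n _ _ h5 h6, hartU0 pol n'' (ng n) _ _ h3 h4]
    · intro n' h1 h2
      refine Finset.sum_eq_zero fun ν _ => ?_
      rw [hartU0 pol n n' μ ν h1 h2, zero_mul]
  · rintro ⟨n, μ⟩ ⟨n', ν⟩ h
    by_cases h1 : n' = n
    · subst h1; rfl
    · by_cases h2 : n' = ng n
      · subst h2
        rw [ng_k n ν μ, norm_neg]
      · exact absurd (hartU0 pol n n' μ ν h1 h2) h
  · rintro ⟨n, ν⟩ x i
    rw [Fintype.sum_prod_type, hl_sum n]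
    · simp only [hartU1, hartU2']
      rw [Fin.sum_univ_two, Fin.sum_univ_two]
      have hexp := congrArg (fun v : E3 => v i) (hl_exp' pol hp n ν)
      simp only [PiLp.add_apply, PiLp.smul_apply, smul_eq_mul] at hexp
      have hexp' := congrArg (fun t : ℝ => (t : ℂ)) hexp
      push_cast at hexp'
      rw [ng_k n 0 ν, ng_k n 1 ν]
      have hk : ∀ μ : Fin 2, Mode.k (n, μ) = Mode.k (n, ν) := fun _ => rfl
      rw [hk 0, hk 1]
      set θ : ℝ := inner ℝ (Mode.k (n, ν)) x with hθ
      have hinn : inner ℝ (-Mode.k (n, ν)) x = -θ := by rw [inner_neg_left]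
      rw [hinn]
      have hS : ((pol (n, 0) i : ℝ) : ℂ) * Complex.exp (Complex.I * (θ : ℂ)) * (if (0 : Fin 2) = ν then (1 - Complex.I) / 2 else 0) +
          ((pol (n, 1) i : ℝ) : ℂ) * Complex.exp (Complex.I * (θ : ℂ)) * (if (1 : Fin 2) = ν then (1 - Complex.I) / 2 else 0) =
          ((pol (n, ν) i : ℝ) : ℂ) * Complex.exp (Complex.I * (θ : ℂ)) * ((1 - Complex.I) / 2) := by
        fin_cases ν <;> simp
      rw [hS]
      have hE1 : Complex.exp (Complex.I * (θ : ℂ)) = Complex.cos θ + Complex.sin θ * Complex.I := by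
        rw [mul_comm, Complex.exp_mul_I]
      have hE2 : Complex.exp (Complex.I * ((-θ : ℝ) : ℂ)) = Complex.cos θ - Complex.sin θ * Complex.I := by
        rw [mul_comm, Complex.exp_mul_I]
        push_cast
        rw [Complex.cos_neg, Complex.sin_neg]
        ring
      rw [hE1, hE2]
      push_cast
      have hI : Complex.I * Complex.I = -1 := Complex.I_mul_I
      linear_combination (-(Complex.cos θ - Complex.sin θ * Complex.I) * ((1 + Complex.I) / 2)) * hexp' +
        (-((pol (n, ν) i : ℝ) : ℂ) * Complex.sin θ) * hI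
    · intro n' h1 h2
      refine Finset.sum_eq_zero fun μ _ => ?_
      have h3 : n ≠ ng n' := by
        intro h
        have := congrArg ng h
        rw [ng_ng] at this
        exact h2 this.symm
      rw [hartU0 pol n' n μ ν (fun h => h1 h.symm) h3, mul_zero]

end Pool.Agent.Helper985.PS
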