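import Pool.Agent.Helper985.PS.Defs

set_option autoImplicit false

open MeasureTheory
open scoped Topology

namespace Pool.Agent.Helper985.PS




/-- growth slower than every Gaussian -/
def HerSubG (f : ℝ → ℝ) : Prop := ∀ a : ℝ, 0 < a → ∃ C : ℝ, 0 ≤ C ∧ ∀ t, |f t| ≤ C * Real.exp (a * t ^ 2)

theorem HerSubG.poly (Q : Polynomial ℝ) : HerSubG (fun t => Q.eval t) := by
  induction Q using Polynomial.induction_on' with
  | add p q hp hq =>
    intro a ha
    obtain ⟨C, hC, h1⟩ := hp a ha
    obtain ⟨D, hD, h2⟩ := hq a ha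
    refine ⟨C + D, by positivity, fun t => ?_⟩
    simp only [Polynomial.eval_add]
    refine (abs_add_le _ _).trans ?_
    have := h1 t
    have := h2 t
    simp only at *
    linarith
  | monomial n c =>
    induction n with
    | zero =>
      intro a ha
      refine ⟨|c|, abs_nonneg _, fun t => ?_⟩
      simp only [Polynomial.monomial_zero_left, Polynomial.eval_C]
      have h1 : 1 ≤ Real.exp (a * t ^ 2) := Real.one_le_exp (by positivity)
      nlinarith [abs_nonneg c]
    | succ n ih =>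
      intro a ha
      obtain ⟨C, hC, h1⟩ := ih (a / 2) (by positivity)
      refine ⟨(1 + 2 / a) * C, by positivity, fun t => ?_⟩
      have h2 := h1 t
      simp only [Polynomial.eval_monomial] at h2 ⊢
      have h3 : |t| ≤ (1 + 2 / a) * Real.exp (a / 2 * t ^ 2) := by
        have h4 : a / 2 * t ^ 2 + 1 ≤ Real.exp (a / 2 * t ^ 2) := Real.add_one_le_exp _
        have h5 : |t| ≤ 1 + t ^ 2 := by
          rw [← sq_abs]; nlinarith [sq_nonneg (|t| - 1), abs_nonneg t]
        have h6 : 1 + t ^ 2 ≤ (1 + 2 / a) * (a / 2 * t ^ 2 + 1) := by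
          have h7 : 2 / a * (a / 2 * t ^ 2) = t ^ 2 := by field_simp
          have h8 : 0 < 2 / a := by positivity
          nlinarith [mul_nonneg ha.le (sq_nonneg t)]
        have h9 : (1 + 2 / a) * (a / 2 * t ^ 2 + 1) ≤ (1 + 2 / a) * Real.exp (a / 2 * t ^ 2) := by
          gcongr
        linarith
      have e : c * t ^ (n + 1) = (c * t ^ n) * t := by ring
      rw [e, abs_mul]
      have e2 : Real.exp (a * t ^ 2) = Real.exp (a / 2 * t ^ 2) * Real.exp (a / 2 * t ^ 2) := by
        rw [← Real.exp_add]; congr 1; ring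
      calc |c * t ^ n| * |t| ≤ (C * Real.exp (a / 2 * t ^ 2)) *
            ((1 + 2 / a) * Real.exp (a / 2 * t ^ 2)) := by gcongr
        _ = _ := by rw [e2]; ring

theorem her_bound (Q : Polynomial ℝ) {b : ℝ} (hb : 0 < b) :
    ∃ C : ℝ, 0 ≤ C ∧ ∀ t, |Q.eval t * Real.exp (-b * t ^ 2)| ≤ C * Real.exp (-(b / 2) * t ^ 2) := by
  obtain ⟨C, hC, h⟩ := HerSubG.poly Q (b / 2) (by positivity)
  refine ⟨C, hC, fun t => ?_⟩
  rw [abs_mul, abs_of_pos (Real.exp_pos _)]
  have h1 := h t
  simp only at h1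
  have e : Real.exp (-(b / 2) * t ^ 2) = Real.exp (b / 2 * t ^ 2) * Real.exp (-b * t ^ 2) := by
    rw [← Real.exp_add]; congr 1; ring
  rw [e, ← mul_assoc]
  gcongr

theorem her_int (Q : Polynomial ℝ) {b : ℝ} (hb : 0 < b) :
    Integrable (fun t => Q.eval t * Real.exp (-b * t ^ 2)) := by
  obtain ⟨C, hC, h⟩ := her_bound Q hb
  refine ((integrable_exp_neg_mul_sq (b := b / 2) (by positivity)).const_mul C).mono' ?_
    (Filter.Eventually.of_forall fun t => ?_)
  · have h1 : Continuous (fun t => Q.eval t * Real.exp (-b * t ^ 2)) := by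
      have := Q.continuous
      fun_prop
    exact h1.aestronglyMeasurable
  · exact h t

/-- Hermite polynomials -/
noncomputable def herP (w : ℝ) : ℕ → Polynomial ℝ
  | 0 => Polynomial.C (Real.sqrt (Real.sqrt (w / Real.pi)))
  | k + 1 => Polynomial.C (1 / Real.sqrt 2) *
      (Polynomial.C (2 * Real.sqrt w) * (Polynomial.X * herP w k) -
        Polynomial.C (1 / Real.sqrt w) * Polynomial.derivative (herP w k))

/-- Hermite functions -/
noncomputable def herf (w : ℝ) (k : ℕ) (t : ℝ) : ℝ := (herP w k).eval t * Real.exp (-(w / 2) * t ^ 2)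

/-- derivatives of Hermite functions -/
noncomputable def herg (w : ℝ) (k : ℕ) (t : ℝ) : ℝ :=
  (Polynomial.derivative (herP w k) - Polynomial.C w * (Polynomial.X * herP w k)).eval t *
    Real.exp (-(w / 2) * t ^ 2)

theorem herf_deriv (w : ℝ) (k : ℕ) (t : ℝ) : HasDerivAt (herf w k) (herg w k t) t := by
  have h1 : HasDerivAt (fun t => (herP w k).eval t) ((Polynomial.derivative (herP w k)).eval t) t :=
    (herP w k).hasDerivAt t
  have h2 : HasDerivAt (fun t : ℝ => Real.exp (-(w / 2) * t ^ 2))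
      (Real.exp (-(w / 2) * t ^ 2) * (-(w / 2) * (2 * t))) t := by
    have h3 : HasDerivAt (fun t : ℝ => -(w / 2) * t ^ 2) (-(w / 2) * (2 * t)) t := by
      have := (hasDerivAt_pow 2 t).const_mul (-(w / 2))
      simpa using this
    exact h3.exp
  have h4 := h1.mul h2
  refine h4.congr_deriv ?_
  unfold herg
  simp only [Polynomial.eval_sub, Polynomial.eval_mul, Polynomial.eval_C, Polynomial.eval_X]
  ring

theorem herP_deriv0 (w : ℝ) : Polynomial.derivative (herP w 0) = 0 := by
  simp [herP]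

theorem herP_deriv {w : ℝ} (hw : 0 < w) (k : ℕ) : Polynomial.derivative (herP w (k + 1)) =
    Polynomial.C (Real.sqrt 2 * Real.sqrt w * (k + 1)) * herP w k := by
  have hs : 0 < Real.sqrt w := Real.sqrt_pos.2 hw
  have h2 : 0 < Real.sqrt 2 := Real.sqrt_pos.2 (by norm_num)
  have hs2 : Real.sqrt w * Real.sqrt w = w := Real.mul_self_sqrt hw.le
  have h22 : Real.sqrt 2 * Real.sqrt 2 = 2 := Real.mul_self_sqrt (by norm_num)
  induction k with
  | zero =>
    apply Polynomial.funext
    intro t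
    simp only [herP, Polynomial.derivative_mul, Polynomial.derivative_C, Polynomial.derivative_sub,
      Polynomial.derivative_X, Polynomial.eval_mul, Polynomial.eval_add, Polynomial.eval_sub,
      Polynomial.eval_C, Polynomial.eval_X]
    simp
    field_simp
    nlinarith
  | succ k ih =>
    have ih' := congrArg Polynomial.derivative ih
    apply Polynomial.funext
    intro t
    have e1 := congrArg (Polynomial.eval t) ih
    have e2 := congrArg (Polynomial.eval t) ih'
    rw [Polynomial.derivative_C_mul] at e2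
    simp only [Polynomial.eval_mul, Polynomial.eval_C] at e1 e2
    have e3 : (herP w (k + 1)).eval t = 1 / Real.sqrt 2 * (2 * Real.sqrt w * (t * (herP w k).eval t) -
        1 / Real.sqrt w * (Polynomial.derivative (herP w k)).eval t) := by
      simp only [herP, Polynomial.eval_mul, Polynomial.eval_sub, Polynomial.eval_C, Polynomial.eval_X]
    have e4 : (Polynomial.derivative (herP w (k + 1 + 1))).eval t =
        1 / Real.sqrt 2 * (2 * Real.sqrt w * ((herP w (k + 1)).eval t +
          t * (Polynomial.derivative (herP w (k + 1))).eval t) -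
        1 / Real.sqrt w * (Polynomial.derivative (Polynomial.derivative (herP w (k + 1)))).eval t) := by
      rw [herP]
      simp only [Polynomial.derivative_mul, Polynomial.derivative_sub,
        Polynomial.derivative_X, Polynomial.eval_mul, Polynomial.eval_add, Polynomial.eval_sub,
        Polynomial.eval_C, Polynomial.eval_X, one_mul, Polynomial.derivative_C, zero_mul, zero_add]
    rw [e4, e1, e2, Polynomial.eval_mul, Polynomial.eval_C]
    set p := (herP w k).eval t
    set p' := (Polynomial.derivative (herP w k)).eval t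
    set P1 := (herP w (k + 1)).eval t
    have e5 : 2 * Real.sqrt w * (t * p) - 1 / Real.sqrt w * p' = Real.sqrt 2 * P1 := by
      rw [e3]; field_simp
    have e6 : 1 / Real.sqrt 2 * Real.sqrt 2 = 1 := by field_simp
    have e7 : 1 / Real.sqrt 2 * 2 = Real.sqrt 2 := by
      field_simp; nlinarith
    push_cast
    linear_combination (1 / Real.sqrt 2 * (Real.sqrt 2 * Real.sqrt w * (k + 1))) * e5 +
      (Real.sqrt w * P1) * e7 + (Real.sqrt 2 * Real.sqrt w * (k + 1) * P1) * e6

theorem herf_cr {w : ℝ} (hw : 0 < w) (k : ℕ) (t : ℝ) :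
    Real.sqrt w * t * herf w k t - 1 / Real.sqrt w * herg w k t = Real.sqrt 2 * herf w (k + 1) t := by
  have hs : 0 < Real.sqrt w := Real.sqrt_pos.2 hw
  have h2 : 0 < Real.sqrt 2 := Real.sqrt_pos.2 (by norm_num)
  have hs2 : Real.sqrt w * Real.sqrt w = w := Real.mul_self_sqrt hw.le
  unfold herf herg
  rw [herP]
  simp only [Polynomial.eval_mul, Polynomial.eval_sub, Polynomial.eval_C, Polynomial.eval_X]
  set p := (herP w k).eval t
  set p' := (Polynomial.derivative (herP w k)).eval t
  set E := Real.exp (-(w / 2) * t ^ 2)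
  have e1 : Real.sqrt 2 * (1 / Real.sqrt 2) = 1 := by field_simp
  have e2 : 1 / Real.sqrt w * w = Real.sqrt w := by
    field_simp; nlinarith
  linear_combination (t * p * E) * e2 -
    ((2 * Real.sqrt w * (t * p) - 1 / Real.sqrt w * p') * E) * e1

theorem herf_an {w : ℝ} (hw : 0 < w) (k : ℕ) (t : ℝ) :
    Real.sqrt w * t * herf w k t + 1 / Real.sqrt w * herg w k t =
      Real.sqrt 2 * (k * herf w (k - 1) t) := by
  have hs : 0 < Real.sqrt w := Real.sqrt_pos.2 hw
  have hs2 : Real.sqrt w * Real.sqrt w = w := Real.mul_self_sqrt hw.le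
  unfold herf herg
  simp only [Polynomial.eval_mul, Polynomial.eval_sub, Polynomial.eval_C, Polynomial.eval_X]
  have e2 : 1 / Real.sqrt w * w = Real.sqrt w := by
    field_simp; nlinarith
  have e3 : 1 / Real.sqrt w * Real.sqrt w = 1 := by field_simp
  cases k with
  | zero =>
    rw [herP_deriv0]
    simp only [Polynomial.eval_zero, Nat.cast_zero]
    linear_combination (-(t * (herP w 0).eval t * Real.exp (-(w / 2) * t ^ 2))) * e2
  | succ k =>
    rw [herP_deriv hw, Polynomial.eval_mul, Polynomial.eval_C, Nat.add_sub_cancel]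
    push_cast
    linear_combination (-(t * (herP w (k + 1)).eval t * Real.exp (-(w / 2) * t ^ 2))) * e2 +
      (Real.sqrt 2 * (k + 1) * (herP w k).eval t * Real.exp (-(w / 2) * t ^ 2)) * e3

theorem herf_int {w : ℝ} (hw : 0 < w) (j k : ℕ) : Integrable (fun t => herf w j t * herf w k t) := by
  refine (her_int (herP w j * herP w k) hw).congr (Filter.Eventually.of_forall fun t => ?_)
  simp only [herf, Polynomial.eval_mul]
  have e : Real.exp (-w * t ^ 2) = Real.exp (-(w / 2) * t ^ 2) * Real.exp (-(w / 2) * t ^ 2) := by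
    rw [← Real.exp_add]; congr 1; ring
  rw [e]; ring

theorem herg_int {w : ℝ} (hw : 0 < w) (j k : ℕ) : Integrable (fun t => herg w j t * herf w k t) := by
  refine (her_int ((Polynomial.derivative (herP w j) - Polynomial.C w * (Polynomial.X * herP w j)) *
    herP w k) hw).congr (Filter.Eventually.of_forall fun t => ?_)
  unfold herf herg
  beta_reduce
  rw [Polynomial.eval_mul]
  have e : Real.exp (-w * t ^ 2) = Real.exp (-(w / 2) * t ^ 2) * Real.exp (-(w / 2) * t ^ 2) := by
    rw [← Real.exp_add]; congr 1; ring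
  rw [e]; ring

theorem herf_step {w : ℝ} (hw : 0 < w) (j k : ℕ) :
    ∫ t, herf w j t * herf w (k + 1) t = j * ∫ t, herf w (j - 1) t * herf w k t := by
  have h2 : 0 < Real.sqrt 2 := Real.sqrt_pos.2 (by norm_num)
  have h1 : ∫ t, (herf w j t * herg w k t + herg w j t * herf w k t) = 0 := by
    have hd : ∀ t, HasDerivAt (fun t => herf w j t * herf w k t)
        (herf w j t * herg w k t + herg w j t * herf w k t) t := by
      intro t
      have := (herf_deriv w j t).mul (herf_deriv w k t)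
      refine this.congr_deriv ?_
      ring
    refine integral_eq_zero_of_hasDerivAt_of_integrable hd ?_ (herf_int hw j k)
    refine Integrable.add ?_ (herg_int hw j k)
    exact (herg_int hw k j).congr (Filter.Eventually.of_forall fun t => mul_comm _ _)
  have h3 : ∀ t, Real.sqrt 2 * (herf w j t * herf w (k + 1) t) -
      Real.sqrt 2 * (j * (herf w (j - 1) t * herf w k t)) =
      -(1 / Real.sqrt w) * (herf w j t * herg w k t + herg w j t * herf w k t) := by
    intro t
    linear_combination (-herf w j t) * herf_cr hw k t + (herf w k t) * herf_an hw j t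
  have h4 : ∫ t, (Real.sqrt 2 * (herf w j t * herf w (k + 1) t) -
      Real.sqrt 2 * (j * (herf w (j - 1) t * herf w k t))) = 0 := by
    simp only [h3]
    rw [integral_const_mul, h1, mul_zero]
  rw [integral_sub ((herf_int hw j (k + 1)).const_mul _)
    (((herf_int hw (j - 1) k).const_mul _).const_mul _), integral_const_mul, integral_const_mul,
    integral_const_mul] at h4
  have h5 : Real.sqrt 2 * ((∫ t, herf w j t * herf w (k + 1) t) -
      j * ∫ t, herf w (j - 1) t * herf w k t) = 0 := by linarith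
  rcases mul_eq_zero.1 h5 with h6 | h6
  · exact absurd h6 h2.ne'
  · linarith

theorem herf_orth {w : ℝ} (hw : 0 < w) (k : ℕ) : ∀ j : ℕ,
    ∫ t, herf w j t * herf w k t = if j = k then (k.factorial : ℝ) else 0 := by
  induction k with
  | zero =>
    intro j
    cases j with
    | zero =>
      have h0 : ∀ t, herf w 0 t * herf w 0 t = Real.sqrt (w / Real.pi) * Real.exp (-w * t ^ 2) := by
        intro t
        simp only [herf, herP, Polynomial.eval_C]
        have e : Real.exp (-w * t ^ 2) =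
            Real.exp (-(w / 2) * t ^ 2) * Real.exp (-(w / 2) * t ^ 2) := by
          rw [← Real.exp_add]; congr 1; ring
        have e2 : Real.sqrt (Real.sqrt (w / Real.pi)) * Real.sqrt (Real.sqrt (w / Real.pi)) =
            Real.sqrt (w / Real.pi) := Real.mul_self_sqrt (Real.sqrt_nonneg _)
        rw [e]
        linear_combination (Real.exp (-(w / 2) * t ^ 2) * Real.exp (-(w / 2) * t ^ 2)) * e2
      simp only [h0]
      rw [integral_const_mul, integral_gaussian, ← Real.sqrt_mul (by positivity)]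
      have hpi := Real.pi_pos
      have : w / Real.pi * (Real.pi / w) = 1 := by field_simp
      rw [this]
      simp
    | succ j =>
      have h1 := herf_step hw 0 j
      rw [Nat.cast_zero, zero_mul] at h1
      rw [if_neg (by omega)]
      rw [← h1]
      exact integral_congr_ae (Filter.Eventually.of_forall fun t => mul_comm _ _)
  | succ k ih =>
    intro j
    rw [herf_step hw, ih]
    by_cases h : j = k + 1
    · subst h
      rw [if_pos rfl, if_pos (by omega), Nat.factorial_succ]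
      push_cast; ring
    · rw [if_neg h]
      by_cases h0 : j = 0
      · subst h0; simp
      · rw [if_neg (by omega), mul_zero]

theorem herf_smooth (w : ℝ) (k : ℕ) : ContDiff ℝ ((⊤ : ℕ∞) : WithTop ℕ∞) (herf w k) := by
  unfold herf
  have h1 : ContDiff ℝ ((⊤ : ℕ∞) : WithTop ℕ∞) (fun t => (herP w k).eval t) := by
    simp only [Polynomial.eval_eq_sum_range]
    fun_prop
  exact h1.mul (by fun_prop)

theorem herf_decay {w a : ℝ} (ha : 0 < a) (haw : a ≤ w / 4) (k : ℕ) :
    ∃ C : ℝ, 0 ≤ C ∧ ∀ t, |herf w k t| ≤ C * Real.exp (-a * t ^ 2) := by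
  have hw : 0 < w := by linarith
  obtain ⟨C, hC, h⟩ := her_bound (herP w k) (b := w / 2) (by positivity)
  refine ⟨C, hC, fun t => (h t).trans ?_⟩
  have h1 : Real.exp (-(w / 2 / 2) * t ^ 2) ≤ Real.exp (-a * t ^ 2) := by
    apply Real.exp_le_exp.2
    nlinarith [sq_nonneg t]
  gcongr

section multi

variable {ι : Type} [Fintype ι] [DecidableEq ι]

/-- Hermite functions of several variables -/
noncomputable def herF (ω : ι → ℝ) (n : ι → ℕ) (q : ι → ℝ) : ℝ := ∏ m, herf (ω m) (n m) (q m)

omit [DecidableEq ι] in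
theorem herF_smooth (ω : ι → ℝ) (n : ι → ℕ) : ContDiff ℝ ((⊤ : ℕ∞) : WithTop ℕ∞) (herF ω n) := by
  unfold herF
  refine contDiff_prod fun m _ => ?_
  exact (herf_smooth (ω m) (n m)).comp (contDiff_apply ℝ ℝ m)

omit [DecidableEq ι] in
theorem herF_decay (ω : ι → ℝ) {a : ℝ} (ha : 0 < a) (haw : ∀ m, a ≤ ω m / 4) (n : ι → ℕ) :
    ∃ C : ℝ, 0 ≤ C ∧ ∀ q, |herF ω n q| ≤ C * Real.exp (-a * ∑ m, q m ^ 2) := by
  have h1 : ∀ m, ∃ C : ℝ, 0 ≤ C ∧ ∀ t, |herf (ω m) (n m) t| ≤ C * Real.exp (-a * t ^ 2) :=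
    fun m => herf_decay ha (haw m) (n m)
  choose C hC h using h1
  refine ⟨∏ m, C m, Finset.prod_nonneg fun m _ => hC m, fun q => ?_⟩
  unfold herF
  rw [Finset.abs_prod, Finset.mul_sum, Real.exp_sum, ← Finset.prod_mul_distrib]
  exact Finset.prod_le_prod (fun m _ => abs_nonneg _) (fun m _ => h m (q m))

theorem herF_fderiv (ω : ι → ℝ) (n : ι → ℕ) (q : ι → ℝ) (m : ι) :
    fderiv ℝ (herF ω n) q (Pi.single m 1) =
      (∏ j ∈ Finset.univ.erase m, herf (ω j) (n j) (q j)) * herg (ω m) (n m) (q m) := by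
  have h1 : ∀ i ∈ (Finset.univ : Finset ι), HasFDerivAt (fun q : ι → ℝ => herf (ω i) (n i) (q i))
      (herg (ω i) (n i) (q i) • (ContinuousLinearMap.proj (R := ℝ) (φ := fun _ : ι => ℝ) i)) q := by
    intro i _
    exact (herf_deriv (ω i) (n i) (q i)).comp_hasFDerivAt q
      (ContinuousLinearMap.proj (R := ℝ) (φ := fun _ : ι => ℝ) i).hasFDerivAt
  have h2 := HasFDerivAt.finsetProd h1
  have h3 : fderiv ℝ (herF ω n) q = _ := h2.fderiv
  rw [h3]
  simp only [_root_.sum_apply, _root_.smul_apply, ContinuousLinearMap.proj_apply, smul_eq_mul]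
  rw [Finset.sum_eq_single m]
  · rw [Pi.single_eq_same, mul_one]
  · intro i _ hi
    rw [Pi.single_eq_of_ne hi, mul_zero, mul_zero]
  · intro h; exact absurd (Finset.mem_univ m) h

theorem herF_split (ω : ι → ℝ) (n : ι → ℕ) (q : ι → ℝ) (m : ι) :
    herF ω n q = (∏ j ∈ Finset.univ.erase m, herf (ω j) (n j) (q j)) * herf (ω m) (n m) (q m) := by
  unfold herF
  rw [mul_comm, Finset.mul_prod_erase Finset.univ (fun j => herf (ω j) (n j) (q j)) (Finset.mem_univ m)]

theorem herF_upd (ω : ι → ℝ) (n n' : ι → ℕ) (q : ι → ℝ) (m : ι) (h : ∀ j, j ≠ m → n' j = n j) :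
    herF ω n' q = (∏ j ∈ Finset.univ.erase m, herf (ω j) (n j) (q j)) * herf (ω m) (n' m) (q m) := by
  rw [herF_split ω n' q m]
  congr 1
  refine Finset.prod_congr rfl fun j hj => ?_
  rw [h j (Finset.ne_of_mem_erase hj)]

theorem herF_cr (ω : ι → ℝ) (hω : ∀ m, 0 < ω m) (n n' : ι → ℕ) (q : ι → ℝ) (m : ι)
    (h : ∀ j, j ≠ m → n' j = n j) (hm : n' m = n m + 1) :
    Real.sqrt (ω m) * q m * herF ω n q - 1 / Real.sqrt (ω m) * fderiv ℝ (herF ω n) q (Pi.single m 1) =
      Real.sqrt 2 * herF ω n' q := by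
  rw [herF_fderiv, herF_split ω n q m, herF_upd ω n n' q m h, hm]
  linear_combination (∏ j ∈ Finset.univ.erase m, herf (ω j) (n j) (q j)) *
    herf_cr (hω m) (n m) (q m)

theorem herF_an (ω : ι → ℝ) (hω : ∀ m, 0 < ω m) (n n' : ι → ℕ) (q : ι → ℝ) (m : ι)
    (h : ∀ j, j ≠ m → n' j = n j) (hm : n' m = n m - 1) :
    Real.sqrt (ω m) * q m * herF ω n q + 1 / Real.sqrt (ω m) * fderiv ℝ (herF ω n) q (Pi.single m 1) =
      Real.sqrt 2 * (n m * herF ω n' q) := by
  rw [herF_fderiv, herF_split ω n q m, herF_upd ω n n' q m h, hm]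
  linear_combination (∏ j ∈ Finset.univ.erase m, herf (ω j) (n j) (q j)) *
    herf_an (hω m) (n m) (q m)

omit [DecidableEq ι] in
theorem herF_int (ω : ι → ℝ) (hω : ∀ m, 0 < ω m) (n k : ι → ℕ) :
    Integrable (fun q => herF ω n q * herF ω k q) := by
  have h1 : (fun q => herF ω n q * herF ω k q) =
      fun q : ι → ℝ => ∏ m, (herf (ω m) (n m) (q m) * herf (ω m) (k m) (q m)) := by
    funext q
    unfold herF
    rw [Finset.prod_mul_distrib]
  rw [h1]
  exact Integrable.fintype_prod (f := fun m t => herf (ω m) (n m) t * herf (ω m) (k m) t)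
    (fun m => herf_int (hω m) (n m) (k m))

omit [DecidableEq ι] in
theorem herF_orth (ω : ι → ℝ) (hω : ∀ m, 0 < ω m) (n k : ι → ℕ) :
    ∫ q, herF ω n q * herF ω k q = if n = k then ∏ m, ((k m).factorial : ℝ) else 0 := by
  have h1 : (fun q => herF ω n q * herF ω k q) =
      fun q : ι → ℝ => ∏ m, (herf (ω m) (n m) (q m) * herf (ω m) (k m) (q m)) := by
    funext q
    unfold herF
    rw [Finset.prod_mul_distrib]
  rw [h1, integral_fintype_prod_volume_eq_prod
    (fun m t => herf (ω m) (n m) t * herf (ω m) (k m) t)]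
  have h2 : ∀ m, ∫ t, herf (ω m) (n m) t * herf (ω m) (k m) t =
      if n m = k m then ((k m).factorial : ℝ) else 0 := fun m => herf_orth (hω m) (k m) (n m)
  simp only [h2]
  split_ifs with h
  · subst h
    simp
  · obtain ⟨m, hm⟩ := Function.ne_iff.1 h
    exact Finset.prod_eq_zero (Finset.mem_univ m) (by rw [if_neg hm])

/-- the Schroedinger representation on polynomials -/
noncomputable def herJ (ω : ι → ℝ) : MvPolynomial ι ℂ →ₗ[ℂ] ((ι → ℝ) → ℂ) :=
  (MvPolynomial.basisMonomials ι ℂ).constr ℂ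
    (fun (n : ι →₀ ℕ) (q : ι → ℝ) => ((herF ω n q : ℝ) : ℂ))

omit [DecidableEq ι] in
theorem herJ_mon (ω : ι → ℝ) (n : ι →₀ ℕ) (a : ℂ) :
    herJ ω (MvPolynomial.monomial n a) = fun q => a * ((herF ω n q : ℝ) : ℂ) := by
  have h1 : (MvPolynomial.monomial n a : MvPolynomial ι ℂ) =
      a • (MvPolynomial.basisMonomials ι ℂ n) := by
    rw [MvPolynomial.coe_basisMonomials, MvPolynomial.smul_monomial, smul_eq_mul, mul_one]
  rw [h1, LinearMap.map_smul]
  unfold herJ
  rw [Module.Basis.constr_basis]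
  rfl

omit [DecidableEq ι] in
theorem herJ_smooth (ω : ι → ℝ) (p : MvPolynomial ι ℂ) :
    ContDiff ℝ ((⊤ : ℕ∞) : WithTop ℕ∞) (herJ ω p) := by
  induction p using MvPolynomial.induction_on' with
  | monomial n a =>
    rw [herJ_mon]
    exact contDiff_const.mul (Complex.ofRealCLM.contDiff.comp (herF_smooth ω n))
  | add p q hp hq =>
    rw [map_add]
    exact hp.add hq

omit [DecidableEq ι] in
theorem herJ_decay (ω : ι → ℝ) {a : ℝ} (ha : 0 < a) (haw : ∀ m, a ≤ ω m / 4)
    (p : MvPolynomial ι ℂ) :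
    ∃ C : ℝ, 0 ≤ C ∧ ∀ q, ‖herJ ω p q‖ ≤ C * Real.exp (-a * ∑ m, q m ^ 2) := by
  induction p using MvPolynomial.induction_on' with
  | monomial n b =>
    obtain ⟨C, hC, h⟩ := herF_decay ω ha haw n
    refine ⟨‖b‖ * C, by positivity, fun q => ?_⟩
    rw [herJ_mon]
    show ‖b * ((herF ω n q : ℝ) : ℂ)‖ ≤ _
    rw [norm_mul, Complex.norm_real, Real.norm_eq_abs, mul_assoc]
    exact mul_le_mul_of_nonneg_left (h q) (norm_nonneg _)
  | add p r hp hr =>
    obtain ⟨C, hC, h⟩ := hp
    obtain ⟨D, hD, h'⟩ := hr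
    refine ⟨C + D, by positivity, fun q => ?_⟩
    rw [map_add]
    show ‖herJ ω p q + herJ ω r q‖ ≤ _
    have := h q
    have := h' q
    have := norm_add_le (herJ ω p q) (herJ ω r q)
    linarith

omit [DecidableEq ι] in
theorem herJ_fderiv (ω : ι → ℝ) (n : ι →₀ ℕ) (a : ℂ) (q v : ι → ℝ) :
    fderiv ℝ (herJ ω (MvPolynomial.monomial n a)) q v =
      a * ((fderiv ℝ (herF ω n) q v : ℝ) : ℂ) := by
  rw [herJ_mon]
  have h1 : HasFDerivAt (herF ω n) (fderiv ℝ (herF ω n) q) q :=
    ((herF_smooth ω n).differentiable (by simp) q).hasFDerivAt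
  have h2 := ((Complex.ofRealCLM.hasFDerivAt (x := herF ω n q)).comp q h1).const_mul a
  have h3 : fderiv ℝ (fun q => a * ((herF ω n q : ℝ) : ℂ)) q = _ := h2.fderiv
  rw [h3]
  rfl

theorem herJ_cr (ω : ι → ℝ) (hω : ∀ m, 0 < ω m) (p : MvPolynomial ι ℂ) (m : ι) (q : ι → ℝ) :
    ((Real.sqrt (ω m) * q m : ℝ) : ℂ) * herJ ω p q -
    ((1 / Real.sqrt (ω m) : ℝ) : ℂ) * fderiv ℝ (herJ ω p) q (Pi.single m 1) =
      ((Real.sqrt 2 : ℝ) : ℂ) * herJ ω (MvPolynomial.X m * p) q := by
  induction p using MvPolynomial.induction_on' with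
  | monomial n a =>
    have h1 : (MvPolynomial.X m * MvPolynomial.monomial n a : MvPolynomial ι ℂ) =
        MvPolynomial.monomial (Finsupp.single m 1 + n) a := by
      rw [MvPolynomial.X, MvPolynomial.monomial_mul, one_mul]
    rw [h1, herJ_fderiv, herJ_mon, herJ_mon]
    have h2 := herF_cr ω hω n ((Finsupp.single m 1 + n : ι →₀ ℕ) : ι → ℕ) q m
      (fun j hj => by
        rw [Finsupp.add_apply, Finsupp.single_eq_of_ne hj, zero_add])
      (by rw [Finsupp.add_apply, Finsupp.single_eq_same, add_comm])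
    have h3 := congrArg Complex.ofReal h2
    push_cast at h3 ⊢
    linear_combination a * h3
  | add p r hp hr =>
    have hpd : DifferentiableAt ℝ (herJ ω p) q := (herJ_smooth ω p).differentiable (by simp) q
    have hrd : DifferentiableAt ℝ (herJ ω r) q := (herJ_smooth ω r).differentiable (by simp) q
    rw [mul_add, map_add, map_add, fderiv_add hpd hrd]
    simp only [Pi.add_apply, _root_.add_apply]
    linear_combination hp + hr

theorem herJ_an (ω : ι → ℝ) (hω : ∀ m, 0 < ω m) (p : MvPolynomial ι ℂ) (m : ι) (q : ι → ℝ) :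
    ((Real.sqrt (ω m) * q m : ℝ) : ℂ) * herJ ω p q +
    ((1 / Real.sqrt (ω m) : ℝ) : ℂ) * fderiv ℝ (herJ ω p) q (Pi.single m 1) =
      ((Real.sqrt 2 : ℝ) : ℂ) * herJ ω (MvPolynomial.pderiv m p) q := by
  induction p using MvPolynomial.induction_on' with
  | monomial n a =>
    rw [MvPolynomial.pderiv_monomial, herJ_fderiv, herJ_mon, herJ_mon]
    have h2 := herF_an ω hω n ((n - Finsupp.single m 1 : ι →₀ ℕ) : ι → ℕ) q m
      (fun j hj => by
        rw [Finsupp.tsub_apply, Finsupp.single_eq_of_ne hj, tsub_zero])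
      (by rw [Finsupp.tsub_apply, Finsupp.single_eq_same])
    have h3 := congrArg Complex.ofReal h2
    push_cast at h3 ⊢
    linear_combination a * h3
  | add p r hp hr =>
    have hpd : DifferentiableAt ℝ (herJ ω p) q := (herJ_smooth ω p).differentiable (by simp) q
    have hrd : DifferentiableAt ℝ (herJ ω r) q := (herJ_smooth ω r).differentiable (by simp) q
    rw [map_add, map_add, map_add, fderiv_add hpd hrd]
    simp only [Pi.add_apply, _root_.add_apply]
    linear_combination hp + hr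

omit [DecidableEq ι] in
theorem herJ_sum (ω : ι → ℝ) (p : MvPolynomial ι ℂ) (q : ι → ℝ) :
    herJ ω p q = ∑ n ∈ p.support, MvPolynomial.coeff n p * ((herF ω n q : ℝ) : ℂ) := by
  conv_lhs => rw [← MvPolynomial.support_sum_monomial_coeff p]
  rw [map_sum, Finset.sum_apply]
  refine Finset.sum_congr rfl fun n _ => ?_
  rw [herJ_mon]

omit [DecidableEq ι] in
theorem herJ_isom (ω : ι → ℝ) (hω : ∀ m, 0 < ω m) (p r : MvPolynomial ι ℂ) :
    ∫ q, (starRingEnd ℂ) (herJ ω p q) * herJ ω r q =
      ∑ n ∈ p.support, (starRingEnd ℂ) (MvPolynomial.coeff n p) * MvPolynomial.coeff n r *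
        (n.prod fun _ j => (j.factorial : ℂ)) := by
  classical
  have h1 : ∀ q, (starRingEnd ℂ) (herJ ω p q) * herJ ω r q =
      ∑ n ∈ p.support, ∑ k ∈ r.support, ((starRingEnd ℂ) (MvPolynomial.coeff n p) *
        MvPolynomial.coeff k r) * ((herF ω n q * herF ω k q : ℝ) : ℂ) := by
    intro q
    rw [herJ_sum, herJ_sum, map_sum, Finset.sum_mul_sum]
    refine Finset.sum_congr rfl fun n _ => Finset.sum_congr rfl fun k _ => ?_
    rw [map_mul, Complex.conj_ofReal]
    push_cast
    ring
  have hint : ∀ (n k : ι →₀ ℕ) (c : ℂ),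
      Integrable (fun q : ι → ℝ => c * ((herF ω n q * herF ω k q : ℝ) : ℂ)) := by
    intro n k c
    exact ((herF_int ω hω n k).ofReal).const_mul c
  simp only [h1]
  rw [integral_finsetSum _ (fun n _ => integrable_finsetSum _ fun k _ => hint n k _)]
  refine Finset.sum_congr rfl fun n hn => ?_
  rw [integral_finsetSum _ (fun k _ => hint n k _)]
  simp only [integral_const_mul, integral_complex_ofReal, herF_orth ω hω]
  have h2 : (n.prod fun _ j => (j.factorial : ℂ)) = ∏ m, ((n m).factorial : ℂ) := by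
    rw [Finsupp.prod_fintype]
    intro i; simp
  rw [h2, Finset.sum_eq_single n]
  · rw [if_pos rfl]
    push_cast
    ring
  · intro k _ hk
    rw [if_neg (fun h => hk (DFunLike.coe_injective h).symm)]
    simp
  · intro hn'
    rw [MvPolynomial.notMem_support_iff.1 hn']
    simp

theorem herJ_ddecay (ω : ι → ℝ) (hω : ∀ m, 0 < ω m) {a : ℝ} (ha : 0 < a)
    (haw : ∀ m, a ≤ ω m / 4) (p : MvPolynomial ι ℂ) (m : ι) :
    ∃ C c : ℝ, 0 < c ∧ ∀ q, ‖fderiv ℝ (herJ ω p) q (Pi.single m 1)‖ ≤
      C * Real.exp (-c * ∑ m, q m ^ 2) := by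
  obtain ⟨C, hC, h⟩ := herJ_decay ω ha haw (MvPolynomial.X m * p)
  obtain ⟨D, hD, h'⟩ := herJ_decay ω ha haw (MvPolynomial.pderiv m p)
  have hs : 0 < Real.sqrt (ω m) := Real.sqrt_pos.2 (hω m)
  refine ⟨Real.sqrt (ω m) * Real.sqrt 2 / 2 * (C + D), a, ha, fun q => ?_⟩
  have h1 := herJ_cr ω hω p m q
  have h2 := herJ_an ω hω p m q
  have h3 : fderiv ℝ (herJ ω p) q (Pi.single m 1) =
      ((Real.sqrt (ω m) * Real.sqrt 2 / 2 : ℝ) : ℂ) *
        (herJ ω (MvPolynomial.pderiv m p) q - herJ ω (MvPolynomial.X m * p) q) := by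
    have h4 : ((Real.sqrt (ω m) : ℝ) : ℂ) * ((1 / Real.sqrt (ω m) : ℝ) : ℂ) = 1 := by
      rw [← Complex.ofReal_mul, mul_one_div_cancel hs.ne', Complex.ofReal_one]
    push_cast at h1 h2 h4 ⊢
    linear_combination ((Real.sqrt (ω m) : ℂ) / 2) * (h2 - h1) -
      (fderiv ℝ (herJ ω p) q (Pi.single m 1)) * h4
  show ‖fderiv ℝ (herJ ω p) q (Pi.single m 1)‖ ≤ _
  rw [h3, norm_mul, Complex.norm_real, Real.norm_of_nonneg (by positivity), mul_assoc]
  have h5 := norm_sub_le (herJ ω (MvPolynomial.pderiv m p) q) (herJ ω (MvPolynomial.X m * p) q)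
  have h6 := h q
  have h7 := h' q
  apply mul_le_mul_of_nonneg_left _ (by positivity)
  linarith

end multi

theorem exists_hermite0 {ι : Type} [Fintype ι] [DecidableEq ι] (ω : ι → ℝ) (hω : ∀ m, 0 < ω m) :
    ∃ J : Fock ι →ₗ[ℂ] ((ι → ℝ) → ℂ), IsHermite0 ω J := by
  obtain ⟨a, ha, haw⟩ : ∃ a : ℝ, 0 < a ∧ ∀ m, a ≤ ω m / 4 := by
    rcases isEmpty_or_nonempty ι with h | h
    · exact ⟨1, one_pos, fun m => (h.false m).elim⟩
    · obtain ⟨m, hm⟩ := Finite.exists_min ω
      exact ⟨ω m / 4, by have := hω m; positivity, fun m' => by have := hm m'; linarith⟩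
  refine ⟨herJ ω, ⟨fun p => herJ_smooth ω p, fun p => ?_, fun p m => ?_, fun p m q => ?_,
    fun p m q => ?_, fun p r => ?_, ?_⟩⟩
  · obtain ⟨C, -, h⟩ := herJ_decay ω ha haw p
    exact ⟨C, a, ha, h⟩
  · exact herJ_ddecay ω hω ha haw p m
  · exact herJ_cr ω hω p m q
  · exact herJ_an ω hω p m q
  · exact herJ_isom ω hω p r
  · refine ⟨∏ m, Real.sqrt (Real.sqrt (ω m / Real.pi)), Finset.prod_pos fun m _ => ?_, fun q => ?_⟩
    · have := hω m
      have := Real.pi_pos
      positivity
    · have h1 : herJ ω (MvPolynomial.monomial 0 1) q = ((herF ω 0 q : ℝ) : ℂ) := by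
        rw [herJ_mon]
        show 1 * _ = _
        rw [one_mul]
        rfl
      have h2 : herF ω 0 q = (∏ m, Real.sqrt (Real.sqrt (ω m / Real.pi))) *
          Real.exp (-(1 / 2) * ∑ m, ω m * q m ^ 2) := by
        unfold herF herf
        simp only [Pi.zero_apply, herP, Polynomial.eval_C]
        rw [Finset.prod_mul_distrib, Finset.mul_sum, Real.exp_sum]
        congr 1
        refine Finset.prod_congr rfl fun m _ => ?_
        congr 1
        ring
      rw [← h2]
      exact h1

end Pool.Agent.Helper985.PS
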