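import Pool.Agent.Helper985.PS.Defs

set_option autoImplicit false

open MeasureTheory
open scoped Topology

namespace Pool.Agent.Helper985.PS


open scoped FourierTransform SchwartzMap in
theorem exists_kernel_aux : ∃ F : SchwartzMap E3 ℂ, ∀ k : E3, ‖k‖ ≤ 1 →
    ∫ y, Complex.exp (((-(inner ℝ k y) : ℝ) : ℂ) * Complex.I) * F y = 1 := by
  let φ : ContDiffBump (0 : E3) := ⟨1, 2, one_pos, one_lt_two⟩
  let g : E3 → ℂ := fun x => ((φ x : ℝ) : ℂ)
  have hg1 : HasCompactSupport g :=
    φ.hasCompactSupport.comp_left (g := fun r : ℝ => (r : ℂ)) (by simp)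
  have hg2 : ContDiff ℝ ((⊤ : ℕ∞) : WithTop ℕ∞) g := Complex.ofRealCLM.contDiff.comp φ.contDiff
  let Φ : SchwartzMap E3 ℂ := hg1.toSchwartzMap hg2
  refine ⟨𝓕⁻ Φ, fun k hk => ?_⟩
  have h1 : 𝓕 (𝓕⁻ Φ) = Φ := FourierTransform.fourier_fourierInv_eq Φ
  have h2 := congrArg (fun f : SchwartzMap E3 ℂ => f ((1 / (2 * Real.pi)) • k)) h1
  simp only [SchwartzMap.fourier_coe, Real.fourier_eq'] at h2
  have hpi : 0 < Real.pi := Real.pi_pos
  have h3 : Φ ((1 / (2 * Real.pi)) • k) = 1 := by
    show ((φ ((1 / (2 * Real.pi)) • k) : ℝ) : ℂ) = 1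
    rw [φ.one_of_mem_closedBall]
    · simp
    · rw [Metric.mem_closedBall, dist_zero_right, norm_smul, Real.norm_of_nonneg (by positivity)]
      show 1 / (2 * Real.pi) * ‖k‖ ≤ 1
      have h4 : 1 / (2 * Real.pi) ≤ 1 := by
        rw [div_le_one (by positivity)]
        nlinarith [Real.pi_gt_three]
      calc 1 / (2 * Real.pi) * ‖k‖ ≤ 1 * 1 :=
            mul_le_mul h4 hk (norm_nonneg _) zero_le_one
        _ = 1 := one_mul 1
  rw [h3] at h2
  rw [← h2]
  refine integral_congr_ae (Filter.Eventually.of_forall fun y => ?_)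
  show _ = _ • _
  rw [smul_eq_mul]
  rw [real_inner_smul_right, real_inner_comm]
  field_simp

theorem exists_kernel_int (F : SchwartzMap E3 ℂ) (k : E3) :
    Integrable (fun y => Complex.exp (((-(inner ℝ k y) : ℝ) : ℂ) * Complex.I) * F y) := by
  refine (F.integrable (μ := volume)).norm.mono' ?_ (Filter.Eventually.of_forall fun y => ?_)
  · have hc : Continuous (fun y : E3 => Complex.exp (((-(inner ℝ k y) : ℝ) : ℂ) * Complex.I) * F y) := by
      refine Continuous.mul ?_ F.continuous
      have : Continuous (fun y : E3 => (inner ℝ k y : ℝ)) := continuous_const.inner continuous_id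
      fun_prop
    exact hc.aestronglyMeasurable
  · rw [norm_mul, Complex.norm_exp_ofReal_mul_I, one_mul]

/-- a Schwartz-type reproducing kernel -/
theorem exists_kernel : ∃ (K : E3 → ℝ) (C : ℝ), 0 < C ∧ ContDiff ℝ SM K ∧
    (∀ y, |K y| ≤ C * ((1 + ‖y‖) ^ 16)⁻¹) ∧ (∀ y, ‖fderiv ℝ K y‖ ≤ C * ((1 + ‖y‖) ^ 16)⁻¹) ∧
    (∀ k : E3, ‖k‖ ≤ 1 → (∫ y, K y * Real.cos (inner ℝ k y) = 1) ∧
      (∫ y, K y * Real.sin (inner ℝ k y) = 0)) := by
  obtain ⟨F, hF⟩ := exists_kernel_aux
  have hsem : ∀ n ≤ 1, ∀ y : E3, (1 + ‖y‖) ^ 16 * ‖iteratedFDeriv ℝ n F y‖ ≤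
      2 ^ 16 * (Finset.Iic ((16, 1) : ℕ × ℕ)).sup (fun m => SchwartzMap.seminorm ℝ m.1 m.2) F :=
    fun n hn y => SchwartzMap.one_add_le_sup_seminorm_apply (𝕜 := ℝ) (m := (16, 1)) (k := 16)
      (n := n) le_rfl hn F y
  set C : ℝ := 2 ^ 16 * (Finset.Iic ((16, 1) : ℕ × ℕ)).sup
    (fun m => SchwartzMap.seminorm ℝ m.1 m.2) F with hC
  have hC0 : 0 ≤ C := by
    have := hsem 0 (by norm_num) 0
    exact le_trans (by positivity) this
  have hdiff : Differentiable ℝ F := F.differentiable
  refine ⟨fun y => (F y).re, C + 1, by linarith, ?_, ?_, ?_, ?_⟩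
  · exact Complex.reCLM.contDiff.comp (F.smooth ⊤)
  · intro y
    have h1 := hsem 0 (by norm_num) y
    rw [norm_iteratedFDeriv_zero] at h1
    have h2 : 0 < (1 + ‖y‖) ^ 16 := by positivity
    rw [le_mul_inv_iff₀ h2]
    have h3 : |(F y).re| ≤ ‖F y‖ := Complex.abs_re_le_norm _
    calc |(F y).re| * (1 + ‖y‖) ^ 16 ≤ ‖F y‖ * (1 + ‖y‖) ^ 16 :=
          mul_le_mul_of_nonneg_right h3 h2.le
      _ = (1 + ‖y‖) ^ 16 * ‖F y‖ := mul_comm _ _
      _ ≤ C := h1
      _ ≤ C + 1 := by linarith
  · intro y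
    have h1 := hsem 1 le_rfl y
    rw [norm_iteratedFDeriv_one] at h1
    have h2 : 0 < (1 + ‖y‖) ^ 16 := by positivity
    rw [le_mul_inv_iff₀ h2]
    have h4 : fderiv ℝ (fun y => (F y).re) y = Complex.reCLM.comp (fderiv ℝ F y) := by
      exact (Complex.reCLM.hasFDerivAt.comp y (hdiff y).hasFDerivAt).fderiv
    have h3 : ‖fderiv ℝ (fun y => (F y).re) y‖ ≤ ‖fderiv ℝ F y‖ := by
      rw [h4]
      refine (ContinuousLinearMap.opNorm_comp_le _ _).trans ?_
      rw [Complex.reCLM_norm, one_mul]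
    calc ‖fderiv ℝ (fun y => (F y).re) y‖ * (1 + ‖y‖) ^ 16 ≤ ‖fderiv ℝ F y‖ * (1 + ‖y‖) ^ 16 :=
          mul_le_mul_of_nonneg_right h3 h2.le
      _ = (1 + ‖y‖) ^ 16 * ‖fderiv ℝ F y‖ := mul_comm _ _
      _ ≤ C := h1
      _ ≤ C + 1 := by linarith
  · intro k hk
    have hA := hF k hk
    have hB := hF (-k) (by rwa [norm_neg])
    have iA := exists_kernel_int F k
    have iB := exists_kernel_int F (-k)
    have hcos : ∫ y, F y * ((Real.cos (inner ℝ k y) : ℝ) : ℂ) = 1 := by
      have e : ∀ y, F y * ((Real.cos (inner ℝ k y) : ℝ) : ℂ) =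
          (1 / 2 : ℂ) * (Complex.exp (((-(inner ℝ k y) : ℝ) : ℂ) * Complex.I) * F y +
            Complex.exp (((-(inner ℝ (-k) y) : ℝ) : ℂ) * Complex.I) * F y) := by
        intro y
        rw [Complex.ofReal_cos, Complex.cos, inner_neg_left]
        push_cast
        ring_nf
      simp_rw [e]
      rw [integral_const_mul, integral_add iA iB, hA, hB]
      norm_num
    have hsin : ∫ y, F y * ((Real.sin (inner ℝ k y) : ℝ) : ℂ) = 0 := by
      have e : ∀ y, F y * ((Real.sin (inner ℝ k y) : ℝ) : ℂ) =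
          (Complex.I / 2 : ℂ) * (Complex.exp (((-(inner ℝ k y) : ℝ) : ℂ) * Complex.I) * F y -
            Complex.exp (((-(inner ℝ (-k) y) : ℝ) : ℂ) * Complex.I) * F y) := by
        intro y
        rw [Complex.ofReal_sin, Complex.sin, inner_neg_left]
        push_cast
        ring_nf
      simp_rw [e]
      rw [integral_const_mul, integral_sub iA iB, hA, hB]
      norm_num
    have icos : Integrable (fun y => F y * ((Real.cos (inner ℝ k y) : ℝ) : ℂ)) := by
      refine (F.integrable (μ := volume)).norm.mono' ?_ (Filter.Eventually.of_forall fun y => ?_)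
      · have : Continuous (fun y : E3 => (inner ℝ k y : ℝ)) := continuous_const.inner continuous_id
        have hc : Continuous (fun y => F y * ((Real.cos (inner ℝ k y) : ℝ) : ℂ)) := by
          refine F.continuous.mul ?_
          fun_prop
        exact hc.aestronglyMeasurable
      · rw [norm_mul, Complex.norm_real, Real.norm_eq_abs]
        exact mul_le_of_le_one_right (norm_nonneg _) (Real.abs_cos_le_one _)
    have isin : Integrable (fun y => F y * ((Real.sin (inner ℝ k y) : ℝ) : ℂ)) := by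
      refine (F.integrable (μ := volume)).norm.mono' ?_ (Filter.Eventually.of_forall fun y => ?_)
      · have : Continuous (fun y : E3 => (inner ℝ k y : ℝ)) := continuous_const.inner continuous_id
        have hc : Continuous (fun y => F y * ((Real.sin (inner ℝ k y) : ℝ) : ℂ)) := by
          refine F.continuous.mul ?_
          fun_prop
        exact hc.aestronglyMeasurable
      · rw [norm_mul, Complex.norm_real, Real.norm_eq_abs]
        exact mul_le_of_le_one_right (norm_nonneg _) (Real.abs_sin_le_one _)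
    constructor
    · have h1 := Complex.reCLM.integral_comp_comm icos
      rw [hcos] at h1
      have h2 : ∀ y, Complex.reCLM (F y * ((Real.cos (inner ℝ k y) : ℝ) : ℂ)) =
          (F y).re * Real.cos (inner ℝ k y) := by
        intro y
        rw [Complex.reCLM_apply, Complex.mul_re, Complex.ofReal_re, Complex.ofReal_im]
        ring
      simp_rw [h2] at h1
      rw [h1]
      simp
    · have h1 := Complex.reCLM.integral_comp_comm isin
      rw [hsin] at h1
      have h2 : ∀ y, Complex.reCLM (F y * ((Real.sin (inner ℝ k y) : ℝ) : ℂ)) =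
          (F y).re * Real.sin (inner ℝ k y) := by
        intro y
        rw [Complex.reCLM_apply, Complex.mul_re, Complex.ofReal_re, Complex.ofReal_im]
        ring
      simp_rw [h2] at h1
      rw [h1]
      simp


end Pool.Agent.Helper985.PS
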