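import Pool.Agent.Helper985.PS.Defs

set_option autoImplicit false

open MeasureTheory
open scoped Topology

namespace Pool.Agent.Helper985.PS


section es
variable {M : Type} [Fintype M] [DecidableEq M]

theorem es_mono (n : M →₀ ℕ) (a : ℂ) (r : Fock M) :
    fockInner (M := M) (MvPolynomial.monomial n a : MvPolynomial M ℂ) r =
      (starRingEnd ℂ) a * MvPolynomial.coeff n r.poly *
        (n.prod fun _ j => (j.factorial : ℂ)) := by
  have h := fockInner_eq_sum (M := M) (MvPolynomial.monomial n a : MvPolynomial M ℂ) r {n}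
    (MvPolynomial.support_monomial_subset)
  rw [h, Finset.sum_singleton]
  have h2 : Fock.coeff (M := M) n (MvPolynomial.monomial n a : MvPolynomial M ℂ) = a := by
    show MvPolynomial.coeff n (MvPolynomial.monomial n a : MvPolynomial M ℂ) = a
    rw [MvPolynomial.coeff_monomial, if_pos rfl]
  rw [h2]
  rfl

theorem es_fact (n : M →₀ ℕ) (m : M) :
    ((n + Finsupp.single m 1).prod fun _ j => (j.factorial : ℂ)) =
      ((n m : ℂ) + 1) * (n.prod fun _ j => (j.factorial : ℂ)) := by
  rw [Finsupp.prod_fintype _ _ (fun i => by simp), Finsupp.prod_fintype _ _ (fun i => by simp),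
    ← Finset.mul_prod_erase _ _ (Finset.mem_univ m),
    ← Finset.mul_prod_erase Finset.univ (fun i => ((n i).factorial : ℂ)) (Finset.mem_univ m)]
  have h1 : ∀ i ∈ Finset.univ.erase m, ((((n + Finsupp.single m 1 : M →₀ ℕ)) i).factorial : ℂ) =
      ((n i).factorial : ℂ) := by
    intro i hi
    have : ((n + Finsupp.single m 1 : M →₀ ℕ)) i = n i := by
      rw [Finsupp.add_apply, Finsupp.single_apply, if_neg (fun h => (Finset.mem_erase.mp hi).1 h.symm),
        add_zero]
    rw [this]
  rw [Finset.prod_congr rfl h1]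
  have h2 : ((n + Finsupp.single m 1 : M →₀ ℕ)) m = n m + 1 := by
    rw [Finsupp.add_apply, Finsupp.single_eq_same]
  rw [h2, Nat.factorial_succ]
  push_cast
  ring

theorem es_inner (p r : Fock M) : (inner ℂ p r : ℂ) = fockInner p r := rfl

theorem es_crm (m : M) (u : M →₀ ℕ) (a : ℂ) :
    (cr m (MvPolynomial.monomial u a : MvPolynomial M ℂ) : Fock M) =
      (MvPolynomial.monomial (u + Finsupp.single m 1) a : MvPolynomial M ℂ) := by
  have h1 : (MvPolynomial.X m * MvPolynomial.monomial u a : MvPolynomial M ℂ) =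
      MvPolynomial.monomial (u + Finsupp.single m 1) a := by
    rw [MvPolynomial.monomial_add_single, pow_one, mul_comm]
  exact h1

theorem es_adj (m : M) (p r : Fock M) : (inner ℂ (cr m p) r : ℂ) = inner ℂ p (an m r) := by
  refine MvPolynomial.induction_on' (P := fun p : MvPolynomial M ℂ =>
    (@inner ℂ (Fock M) _ (cr m p) r : ℂ) = @inner ℂ (Fock M) _ p (an m r)) p ?_ ?_
  · intro u a
    have h2 : MvPolynomial.coeff u (Fock.poly (an m r)) =
        MvPolynomial.coeff (u + Finsupp.single m 1) r.poly * (u m + 1) :=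
      MvPolynomial.coeff_pderiv r.poly u
    refine Eq.trans (es_inner (M := M) (cr m (MvPolynomial.monomial u a : MvPolynomial M ℂ)) r)
      (Eq.trans ?_ (es_inner (M := M) (MvPolynomial.monomial u a : MvPolynomial M ℂ)
        (an m r)).symm)
    rw [es_crm, es_mono, es_mono, es_fact, h2]
    ring
  · intro p q hp hq
    have e1 : (@inner ℂ (Fock M) _ (cr m (p + q : MvPolynomial M ℂ)) r : ℂ) =
        @inner ℂ (Fock M) _ (cr m p) r + @inner ℂ (Fock M) _ (cr m q) r := by
      have e2 : cr m (p + q : MvPolynomial M ℂ) = cr m p + cr m q :=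
        LinearMap.map_add (cr m) p q
      rw [e2]
      exact inner_add_left (𝕜 := ℂ) (E := Fock M) _ _ _
    have e3 : (@inner ℂ (Fock M) _ (p + q : MvPolynomial M ℂ) (an m r) : ℂ) =
        @inner ℂ (Fock M) _ p (an m r) + @inner ℂ (Fock M) _ q (an m r) :=
      inner_add_left (𝕜 := ℂ) (E := Fock M) _ _ _
    exact e1.trans ((congrArg₂ (· + ·) hp hq).trans e3.symm)

/-- the substitution -/
noncomputable def esφ (U : Matrix M M ℂ) : MvPolynomial M ℂ →ₐ[ℂ] MvPolynomial M ℂ :=
  MvPolynomial.aeval (fun m => ∑ n, (starRingEnd ℂ) (U m n) • (MvPolynomial.X n : MvPolynomial M ℂ))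

theorem esφ_X (U : Matrix M M ℂ) (m : M) : esφ U (MvPolynomial.X m) =
    ∑ n, (starRingEnd ℂ) (U m n) • (MvPolynomial.X n : MvPolynomial M ℂ) :=
  MvPolynomial.aeval_X _ _

theorem esφ_C (U : Matrix M M ℂ) (a : ℂ) : esφ U (MvPolynomial.C a) = MvPolynomial.C a := by
  show MvPolynomial.aeval _ (MvPolynomial.C a) = _
  rw [MvPolynomial.aeval_C]
  rfl

theorem es_pd (U : Matrix M M ℂ) (k n : M) :
    MvPolynomial.pderiv n (esφ U (MvPolynomial.X k)) = MvPolynomial.C ((starRingEnd ℂ) (U k n)) := by
  rw [esφ_X, map_sum]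
  rw [Finset.sum_eq_single n]
  · rw [Derivation.map_smul, MvPolynomial.pderiv_X_self, MvPolynomial.smul_eq_C_mul, mul_one]
  · intro l _ hl
    rw [Derivation.map_smul, MvPolynomial.pderiv_X_of_ne hl, smul_zero]
  · intro h
    exact absurd (Finset.mem_univ n) h

theorem es_an (U : Matrix M M ℂ) (hδ : ∀ m k, ∑ n, U m n * (starRingEnd ℂ) (U k n) =
    if m = k then 1 else 0) (m : M) (p : MvPolynomial M ℂ) :
    esφ U (MvPolynomial.pderiv m p) = ∑ n, U m n • MvPolynomial.pderiv n (esφ U p) := by
  induction p using MvPolynomial.induction_on with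
  | C a =>
    rw [MvPolynomial.pderiv_C, map_zero, esφ_C]
    simp only [MvPolynomial.pderiv_C, smul_zero, Finset.sum_const_zero]
  | add p q hp hq =>
    simp only [map_add, smul_add, Finset.sum_add_distrib, hp, hq]
  | mul_X p k hp =>
    rw [MvPolynomial.pderiv_mul, map_add, map_mul, map_mul, hp]
    have h1 : esφ U (MvPolynomial.pderiv m (MvPolynomial.X k)) =
        MvPolynomial.C (if m = k then 1 else 0) := by
      by_cases hmk : m = k
      · rw [hmk, MvPolynomial.pderiv_X_self, map_one, if_pos rfl, MvPolynomial.C_1]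
      · rw [MvPolynomial.pderiv_X_of_ne (fun h => hmk h.symm), map_zero, if_neg hmk,
          MvPolynomial.C_0]
    rw [h1, ← hδ m k, map_mul]
    simp only [MvPolynomial.pderiv_mul, es_pd, smul_add, Finset.sum_add_distrib]
    congr 1
    · rw [Finset.sum_mul]
      apply Finset.sum_congr rfl
      intro n _
      rw [smul_mul_assoc]
    · rw [map_sum, Finset.mul_sum]
      apply Finset.sum_congr rfl
      intro n _
      rw [MvPolynomial.C_mul, MvPolynomial.smul_eq_C_mul]
      ring

theorem es_c0 (U : Matrix M M ℂ) (p : MvPolynomial M ℂ) :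
    MvPolynomial.constantCoeff (esφ U p) = MvPolynomial.constantCoeff p := by
  induction p using MvPolynomial.induction_on with
  | C a => rw [esφ_C]
  | add p q hp hq => rw [map_add, map_add, map_add, hp, hq]
  | mul_X p k hp =>
    rw [map_mul, map_mul, map_mul, hp, esφ_X, map_sum, MvPolynomial.constantCoeff_X, mul_zero]
    have : ∑ n, MvPolynomial.constantCoeff ((starRingEnd ℂ) (U k n) •
        (MvPolynomial.X n : MvPolynomial M ℂ)) = 0 := by
      apply Finset.sum_eq_zero
      intro n _
      rw [MvPolynomial.smul_eq_C_mul, map_mul, MvPolynomial.constantCoeff_X, mul_zero]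
    rw [this, mul_zero]

theorem es_surj (U : Matrix M M ℂ) (hδ : ∀ m k, ∑ n, U n m * (starRingEnd ℂ) (U n k) =
    if m = k then 1 else 0) : Function.Surjective (esφ U) := by
  intro p
  refine ⟨MvPolynomial.aeval (fun m => ∑ n, U n m • (MvPolynomial.X n : MvPolynomial M ℂ)) p, ?_⟩
  induction p using MvPolynomial.induction_on with
  | C a =>
    rw [MvPolynomial.aeval_C]
    exact esφ_C U a
  | add p q hp hq => rw [map_add, map_add, hp, hq]
  | mul_X p m hp =>
    rw [map_mul, map_mul, hp, MvPolynomial.aeval_X, map_sum]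
    congr 1
    have h1 : ∀ n, esφ U (U n m • (MvPolynomial.X n : MvPolynomial M ℂ)) =
        ∑ k, (U n m * (starRingEnd ℂ) (U n k)) • (MvPolynomial.X k : MvPolynomial M ℂ) := by
      intro n
      rw [map_smul, esφ_X, Finset.smul_sum]
      apply Finset.sum_congr rfl
      intro k _
      rw [smul_smul]
    simp only [h1]
    rw [Finset.sum_comm]
    simp only [← Finset.sum_smul, hδ]
    simp

end es

/-- unitary substitution in Fock space -/
theorem exists_subst {M : Type} [Fintype M] [DecidableEq M] (U : Matrix M M ℂ)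
    (hU : U * U.conjTranspose = 1) :
    ∃ v : Fock M →ₗ[ℂ] Fock M, Function.Surjective v ∧
      (∀ p r, inner ℂ (v p) (v r) = (inner ℂ p r : ℂ)) ∧
      (∀ m p, v (cr m p) = ∑ n, (starRingEnd ℂ) (U m n) • cr n (v p)) ∧
      (∀ m p, v (an m p) = ∑ n, U m n • an n (v p)) := by
  have hδ1 : ∀ m k, ∑ n, U m n * (starRingEnd ℂ) (U k n) = if m = k then 1 else 0 := by
    intro m k
    have h := congrFun (congrFun hU m) k
    rw [Matrix.mul_apply, Matrix.one_apply] at h
    exact h
  have hU2 : U.conjTranspose * U = 1 := mul_eq_one_comm.mp hU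
  have hδ2 : ∀ m k, ∑ n, U n m * (starRingEnd ℂ) (U n k) = if m = k then 1 else 0 := by
    intro m k
    have h := congrFun (congrFun hU2 k) m
    rw [Matrix.mul_apply, Matrix.one_apply] at h
    have h2 : ∑ n, U n m * (starRingEnd ℂ) (U n k) = ∑ n, U.conjTranspose k n * U n m := by
      apply Finset.sum_congr rfl
      intro n _
      rw [Matrix.conjTranspose_apply, mul_comm]
      rfl
    rw [h2, h]
    simp only [eq_comm]
  obtain ⟨v, hv⟩ : ∃ v : Fock M →ₗ[ℂ] Fock M, ∀ p : MvPolynomial M ℂ, v p = esφ U p :=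
    ⟨(esφ U).toLinearMap, fun p => rfl⟩
  have hcr : ∀ m p, v (cr m p) = ∑ n, (starRingEnd ℂ) (U m n) • cr n (v p) := by
    intro m p
    have h1 : v (cr m p) = esφ U (MvPolynomial.X m * p.poly) := hv _
    have h2 : esφ U (MvPolynomial.X m * p.poly) = ∑ n, (starRingEnd ℂ) (U m n) •
        (MvPolynomial.X n * esφ U p.poly) := by
      rw [map_mul, esφ_X, Finset.sum_mul]
      apply Finset.sum_congr rfl
      intro n _
      rw [smul_mul_assoc]
    have h3 : v p = esφ U p.poly := hv _
    rw [h1, h2, h3]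
    rfl
  have han : ∀ m p, v (an m p) = ∑ n, U m n • an n (v p) := by
    intro m p
    have h1 : v (an m p) = esφ U (MvPolynomial.pderiv m p.poly) := hv _
    have h3 : v p = esφ U p.poly := hv _
    rw [h1, es_an U hδ1, h3]
    rfl
  refine ⟨v, ?_, ?_, hcr, han⟩
  · intro p
    obtain ⟨q, hq⟩ := es_surj U hδ2 p.poly
    exact ⟨q, (hv q).trans hq⟩
  · intro p
    refine MvPolynomial.induction_on (motive := fun p : MvPolynomial M ℂ =>
      ∀ r : Fock M, @inner ℂ (Fock M) _ (v p) (v r) = (@inner ℂ (Fock M) _ p r : ℂ)) p ?_ ?_ ?_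
    · intro a r
      have h1 : v (MvPolynomial.C a : MvPolynomial M ℂ) = (MvPolynomial.C a : MvPolynomial M ℂ) :=
        (hv _).trans (esφ_C U a)
      rw [h1]
      show fockInner (M := M) (MvPolynomial.monomial 0 a : MvPolynomial M ℂ) (v r) =
        fockInner (M := M) (MvPolynomial.monomial 0 a : MvPolynomial M ℂ) r
      rw [es_mono, es_mono]
      have h2 : MvPolynomial.coeff 0 (v r).poly = MvPolynomial.coeff 0 r.poly := by
        have h3 : (v r).poly = esφ U r.poly := hv _
        rw [h3]
        exact es_c0 U r.poly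
      rw [h2]
    · intro p q hp hq r
      have e1 : v (p + q : MvPolynomial M ℂ) = v p + v q := LinearMap.map_add v p q
      rw [e1]
      have e2 : (@inner ℂ (Fock M) _ (v p + v q) (v r) : ℂ) =
          @inner ℂ (Fock M) _ (v p) (v r) + @inner ℂ (Fock M) _ (v q) (v r) :=
        inner_add_left (𝕜 := ℂ) (E := Fock M) _ _ _
      have e3 : (@inner ℂ (Fock M) _ (p + q : MvPolynomial M ℂ) r : ℂ) =
          @inner ℂ (Fock M) _ p r + @inner ℂ (Fock M) _ q r :=
        inner_add_left (𝕜 := ℂ) (E := Fock M) _ _ _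
      exact e2.trans ((congrArg₂ (· + ·) (hp r) (hq r)).trans e3.symm)
    · intro p m hp r
      have e1 : (p * MvPolynomial.X m : MvPolynomial M ℂ) = cr m p :=
        mul_comm p (MvPolynomial.X m)
      have e2 : v (cr m p) = ∑ n, (starRingEnd ℂ) (U m n) • cr n (v p) := hcr m p
      have e3 : (@inner ℂ (Fock M) _ (cr m p) r : ℂ) = @inner ℂ (Fock M) _ p (an m r) :=
        es_adj m p r
      have e4 : (@inner ℂ (Fock M) _ p (an m r) : ℂ) =
          @inner ℂ (Fock M) _ (v p) (∑ n, U m n • an n (v r)) := by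
        rw [← han m r]
        exact (hp _).symm
      have e5 : (@inner ℂ (Fock M) _ (∑ n, (starRingEnd ℂ) (U m n) • cr n (v p)) (v r) : ℂ) =
          @inner ℂ (Fock M) _ (v p) (∑ n, U m n • an n (v r)) := by
        rw [sum_inner, inner_sum]
        apply Finset.sum_congr rfl
        intro n _
        rw [inner_smul_left, inner_smul_right, es_adj, Complex.conj_conj]
      have e6 : (@inner ℂ (Fock M) _ (v (cr m p)) (v r) : ℂ) = @inner ℂ (Fock M) _ (cr m p) r := by
        rw [e2, e3, e4]
        exact e5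
      exact (congrArg (fun z : Fock M => (@inner ℂ (Fock M) _ (v z) (v r) : ℂ)) e1).trans
        (e6.trans (congrArg (fun z : Fock M => (@inner ℂ (Fock M) _ z r : ℂ)) e1).symm)

end Pool.Agent.Helper985.PS
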