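import Pool.Agent.Helper985.PS.Defs

set_option autoImplicit false

open MeasureTheory
open scoped Topology

namespace Pool.Agent.Helper985.PS






theorem hdAux_inj_real {ι : Type} [Fintype ι] (k : (ι → ℝ) → ℝ) (hk : Integrable k)
    (h : ∀ L : StrongDual ℝ (ι → ℝ), ∫ q, Complex.exp ((L q : ℂ) * Complex.I) * (k q : ℂ) = 0) :
    k =ᵐ[volume] 0 := by
  have m1 : AEMeasurable (fun q => ENNReal.ofReal (k q)) volume := hk.1.aemeasurable.ennreal_ofReal
  have m2 : AEMeasurable (fun q => ENNReal.ofReal (-k q)) volume :=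
    hk.1.aemeasurable.neg.ennreal_ofReal
  have f1 : IsFiniteMeasure ((volume : Measure (ι → ℝ)).withDensity
      (fun q => ENNReal.ofReal (k q))) := isFiniteMeasure_withDensity_ofReal hk.2
  have f2 : IsFiniteMeasure ((volume : Measure (ι → ℝ)).withDensity
      (fun q => ENNReal.ofReal (-k q))) := isFiniteMeasure_withDensity_ofReal hk.neg.2
  have hexpm : ∀ L : StrongDual ℝ (ι → ℝ), Continuous
      (fun q : ι → ℝ => Complex.exp ((L q : ℂ) * Complex.I)) := by
    intro L
    fun_prop
  have hexpn : ∀ (L : StrongDual ℝ (ι → ℝ)) (q : ι → ℝ),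
      ‖Complex.exp ((L q : ℂ) * Complex.I)‖ = 1 := fun L q => Complex.norm_exp_ofReal_mul_I _
  have heq : (volume : Measure (ι → ℝ)).withDensity (fun q => ENNReal.ofReal (k q)) =
      (volume : Measure (ι → ℝ)).withDensity (fun q => ENNReal.ofReal (-k q)) := by
    apply Measure.ext_of_charFunDual
    funext L
    rw [charFunDual_apply, charFunDual_apply]
    rw [integral_withDensity_eq_integral_toReal_smul₀ m1 (by simp),
      integral_withDensity_eq_integral_toReal_smul₀ m2 (by simp)]
    rw [← sub_eq_zero, ← integral_sub]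
    · rw [← h L]
      apply integral_congr_ae
      filter_upwards with q
      rw [← sub_smul]
      have : (ENNReal.ofReal (k q)).toReal - (ENNReal.ofReal (-k q)).toReal = k q := by
        rw [ENNReal.toReal_ofReal', ENNReal.toReal_ofReal']
        rcases le_total 0 (k q) with h0 | h0
        · rw [max_eq_left h0, max_eq_right (by linarith)]; ring
        · rw [max_eq_right h0, max_eq_left (by linarith)]; ring
      rw [this, Complex.real_smul, mul_comm]
    · apply Integrable.mono' hk.norm
      · exact (m1.ennreal_toReal.aestronglyMeasurable).smul (hexpm L).aestronglyMeasurable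
      · filter_upwards with q
        rw [norm_smul, hexpn, mul_one, ENNReal.toReal_ofReal', Real.norm_eq_abs, Real.norm_eq_abs,
          abs_of_nonneg (le_max_right _ _)]
        exact max_le (le_abs_self _) (abs_nonneg _)
    · apply Integrable.mono' hk.norm
      · exact (m2.ennreal_toReal.aestronglyMeasurable).smul (hexpm L).aestronglyMeasurable
      · filter_upwards with q
        rw [norm_smul, hexpn, mul_one, ENNReal.toReal_ofReal', Real.norm_eq_abs, Real.norm_eq_abs,
          abs_of_nonneg (le_max_right _ _)]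
        exact max_le (neg_le_abs _) (abs_nonneg _)
  have h2 := (withDensity_eq_iff_of_sigmaFinite m1 m2).1 heq
  filter_upwards [h2] with q hq
  rcases le_total 0 (k q) with h0 | h0
  · rw [ENNReal.ofReal_eq_zero.2 (by linarith : -k q ≤ 0)] at hq
    have := ENNReal.ofReal_eq_zero.1 hq
    simp only [Pi.zero_apply]
    linarith
  · rw [ENNReal.ofReal_eq_zero.2 h0] at hq
    have := ENNReal.ofReal_eq_zero.1 hq.symm
    simp only [Pi.zero_apply]
    linarith


theorem hdAux_inj {ι : Type} [Fintype ι] (k : (ι → ℝ) → ℂ) (hk : Integrable k)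
    (h : ∀ L : StrongDual ℝ (ι → ℝ), ∫ q, Complex.exp ((L q : ℂ) * Complex.I) * k q = 0) :
    k =ᵐ[volume] 0 := by
  have hexpm : ∀ L : StrongDual ℝ (ι → ℝ), Continuous
      (fun q : ι → ℝ => Complex.exp ((L q : ℂ) * Complex.I)) := by
    intro L
    fun_prop
  have hexpn : ∀ (L : StrongDual ℝ (ι → ℝ)) (q : ι → ℝ),
      ‖Complex.exp ((L q : ℂ) * Complex.I)‖ = 1 := fun L q => Complex.norm_exp_ofReal_mul_I _
  have hint : ∀ (L : StrongDual ℝ (ι → ℝ)) (f : (ι → ℝ) → ℂ), Integrable f →
      Integrable (fun q => Complex.exp ((L q : ℂ) * Complex.I) * f q) := by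
    intro L f hf
    apply Integrable.mono' hf.norm
    · exact (hexpm L).aestronglyMeasurable.mul hf.1
    · filter_upwards with q
      rw [norm_mul, hexpn, one_mul]
  have hconj : ∀ L : StrongDual ℝ (ι → ℝ),
      ∫ q, Complex.exp ((L q : ℂ) * Complex.I) * (starRingEnd ℂ) (k q) = 0 := by
    intro L
    have h1 := h (-L)
    have h2 := congrArg (starRingEnd ℂ) h1
    rw [← integral_conj, map_zero] at h2
    rw [← h2]
    apply integral_congr_ae
    filter_upwards with q
    rw [map_mul, ← Complex.exp_conj]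
    congr 2
    simp
  have hkc : Integrable (fun q => (starRingEnd ℂ) (k q)) := by
    apply Integrable.mono' hk.norm
    · exact (Complex.continuous_conj.comp_aestronglyMeasurable hk.1)
    · filter_upwards with q
      rw [RCLike.norm_conj]
  have hre : (fun q => (k q).re) =ᵐ[volume] 0 := by
    apply hdAux_inj_real _ hk.re
    intro L
    have e : ∀ q, Complex.exp ((L q : ℂ) * Complex.I) * (((k q).re : ℝ) : ℂ) =
        (1 / 2 : ℂ) * (Complex.exp ((L q : ℂ) * Complex.I) * k q +
          Complex.exp ((L q : ℂ) * Complex.I) * (starRingEnd ℂ) (k q)) := by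
      intro q
      have := Complex.add_conj (k q)
      rw [← mul_add, this]
      push_cast
      ring
    change ∫ q, Complex.exp ((L q : ℂ) * Complex.I) * (((k q).re : ℝ) : ℂ) = 0
    rw [integral_congr_ae (Filter.Eventually.of_forall e), integral_const_mul,
      integral_add (hint L _ hk) (hint L _ hkc), h L, hconj L]
    simp
  have him : (fun q => (k q).im) =ᵐ[volume] 0 := by
    apply hdAux_inj_real _ hk.im
    intro L
    have e : ∀ q, Complex.exp ((L q : ℂ) * Complex.I) * (((k q).im : ℝ) : ℂ) =
        (-(Complex.I / 2) : ℂ) * (Complex.exp ((L q : ℂ) * Complex.I) * k q -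
          Complex.exp ((L q : ℂ) * Complex.I) * (starRingEnd ℂ) (k q)) := by
      intro q
      have := Complex.sub_conj (k q)
      rw [← mul_sub, this]
      push_cast
      linear_combination (Complex.exp ((L q : ℂ) * Complex.I) * ((k q).im : ℂ)) * Complex.I_sq
    change ∫ q, Complex.exp ((L q : ℂ) * Complex.I) * (((k q).im : ℝ) : ℂ) = 0
    rw [integral_congr_ae (Filter.Eventually.of_forall e), integral_const_mul,
      integral_sub (hint L _ hk) (hint L _ hkc), h L, hconj L]
    simp
  filter_upwards [hre, him] with q h1 h2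
  exact Complex.ext (by simpa using h1) (by simpa using h2)

theorem hdAux_moment {ι : Type} [Fintype ι] (k : (ι → ℝ) → ℂ) (hkm : AEStronglyMeasurable k)
    (hk : ∀ c : ℝ, Integrable (fun q => Real.exp (c * ‖q‖) * ‖k q‖))
    (L : StrongDual ℝ (ι → ℝ)) (h : ∀ n : ℕ, ∫ q, ((L q : ℝ) : ℂ) ^ n * k q = 0) :
    ∫ q, Complex.exp ((L q : ℂ) * Complex.I) * k q = 0 := by
  have key : HasSum (fun n : ℕ => ∫ q, (((L q : ℂ) * Complex.I) ^ n / (n.factorial : ℂ)) * k q)
      (∫ q, Complex.exp ((L q : ℂ) * Complex.I) * k q) := by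
    apply hasSum_integral_of_dominated_convergence
      (fun n q => (‖L‖ * ‖q‖) ^ n / (n.factorial : ℝ) * ‖k q‖)
    · intro n
      apply AEStronglyMeasurable.mul _ hkm
      apply Continuous.aestronglyMeasurable
      fun_prop
    · intro n
      filter_upwards with q
      rw [norm_mul, norm_div, norm_pow, norm_mul, Complex.norm_I, mul_one, Complex.norm_natCast,
        Complex.norm_real]
      gcongr
      exact L.le_opNorm q
    · filter_upwards with q
      exact (Real.summable_pow_div_factorial (‖L‖ * ‖q‖)).mul_right _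
    · have : (fun q : ι → ℝ => ∑' n : ℕ, (‖L‖ * ‖q‖) ^ n / (n.factorial : ℝ) * ‖k q‖) =
          fun q => Real.exp (‖L‖ * ‖q‖) * ‖k q‖ := by
        funext q
        rw [tsum_mul_right, Real.exp_eq_exp_ℝ, NormedSpace.exp_eq_tsum_div]
      rw [this]
      exact hk _
    · filter_upwards with q
      apply HasSum.mul_right
      rw [Complex.exp_eq_exp_ℂ]
      exact NormedSpace.expSeries_div_hasSum_exp _
  have hz : ∀ n : ℕ, ∫ q, (((L q : ℂ) * Complex.I) ^ n / (n.factorial : ℂ)) * k q = 0 := by
    intro n
    have e : ∀ q, (((L q : ℂ) * Complex.I) ^ n / (n.factorial : ℂ)) * k q =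
        (Complex.I ^ n / (n.factorial : ℂ)) * (((L q : ℝ) : ℂ) ^ n * k q) := by
      intro q
      rw [mul_pow]
      ring
    rw [integral_congr_ae (Filter.Eventually.of_forall e), integral_const_mul, h n, mul_zero]
  simp only [hz] at key
  exact (key.unique hasSum_zero)

theorem hdAux_gauss {ι : Type} [Fintype ι] (a : ι → ℝ) (ha : ∀ m, 0 < a m) :
    Integrable (fun q : ι → ℝ => Real.exp (-(∑ m, a m * q m ^ 2))) := by
  have h := MeasureTheory.Integrable.fintype_prod (μ := fun _ : ι => (volume : Measure ℝ))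
    (f := fun m => fun x : ℝ => Real.exp (-(a m) * x ^ 2))
    (fun m => integrable_exp_neg_mul_sq (ha m))
  refine h.congr ?_
  filter_upwards with q
  rw [← Real.exp_sum]
  congr 1
  rw [← Finset.sum_neg_distrib]
  apply Finset.sum_congr rfl
  intro m _
  ring

theorem hdAux_mulq {ι : Type} [Fintype ι] [DecidableEq ι] (ω : ι → ℝ) (hω : ∀ m, 0 < ω m)
    (J : Fock ι →ₗ[ℂ] ((ι → ℝ) → ℂ)) (hJ : IsHermite0 ω J) (p : Fock ι)
    (L : StrongDual ℝ (ι → ℝ)) :
    ∃ p' : Fock ι, ∀ q, J p' q = ((L q : ℝ) : ℂ) * J p q := by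
  have hm : ∀ m : ι, ∃ r : Fock ι, ∀ q : ι → ℝ, J r q = ((q m : ℝ) : ℂ) * J p q := by
    intro m
    refine ⟨((Real.sqrt 2 / (2 * Real.sqrt (ω m)) : ℝ) : ℂ) • (cr m p + an m p), fun q => ?_⟩
    rw [map_smul, map_add]
    simp only [Pi.smul_apply, Pi.add_apply, smul_eq_mul]
    have h1 := hJ.crea p m q
    have h2 := hJ.anni p m q
    have hs : Real.sqrt (ω m) ≠ 0 := (Real.sqrt_pos.2 (hω m)).ne'
    have h3 : ((Real.sqrt 2 : ℝ) : ℂ) * (J (cr m p) q + J (an m p) q) =
        2 * (((Real.sqrt (ω m) * q m : ℝ) : ℂ) * J p q) := by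
      rw [mul_add, ← h1, ← h2]
      ring
    have h4 : ((Real.sqrt 2 / (2 * Real.sqrt (ω m)) : ℝ) : ℂ) =
        ((1 / (2 * Real.sqrt (ω m)) : ℝ) : ℂ) * ((Real.sqrt 2 : ℝ) : ℂ) := by
      rw [← Complex.ofReal_mul]
      congr 1
      ring
    rw [h4, mul_assoc, h3]
    have h5 : ((1 / (2 * Real.sqrt (ω m)) : ℝ) : ℂ) * (2 * (((Real.sqrt (ω m) * q m : ℝ) : ℂ) * J p q))
        = ((1 / (2 * Real.sqrt (ω m)) * 2 * (Real.sqrt (ω m) * q m) : ℝ) : ℂ) * J p q := by
      push_cast
      ring
    rw [h5]
    congr 2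
    field_simp
  choose r hr using hm
  refine ⟨∑ m, ((L (Pi.single m 1) : ℝ) : ℂ) • r m, fun q => ?_⟩
  rw [map_sum, Finset.sum_apply]
  have hL : L q = ∑ m, q m * L (Pi.single m 1) := by
    conv_lhs => rw [pi_eq_sum_univ' q]
    rw [map_sum]
    apply Finset.sum_congr rfl
    intro m _
    rw [map_smul, smul_eq_mul]
  rw [hL]
  push_cast
  rw [Finset.sum_mul]
  apply Finset.sum_congr rfl
  intro m _
  rw [map_smul, Pi.smul_apply, smul_eq_mul, hr m q]
  ring

theorem hermite_dense {ι : Type} [Fintype ι] [DecidableEq ι] (ω : ι → ℝ) (hω : ∀ m, 0 < ω m)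
    (J : Fock ι →ₗ[ℂ] ((ι → ℝ) → ℂ)) (hJ : IsHermite0 ω J) : IsDense J := by
  intro f hf hfc ε hε
  -- square integrability of the representing functions
  have hmem : ∀ p, MemLp (J p) 2 (volume : Measure (ι → ℝ)) := by
    intro p
    have hc : Continuous (J p) := (hJ.smooth p).continuous
    rw [memLp_two_iff_integrable_sq_norm hc.aestronglyMeasurable]
    obtain ⟨C, c, hcpos, hdec⟩ := hJ.decay p
    have hg := (hdAux_gauss (fun _ : ι => 2 * c) (fun _ => by positivity)).const_mul (C ^ 2)
    apply Integrable.mono' hg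
    · exact (hc.norm.pow 2).aestronglyMeasurable
    · filter_upwards with q
      rw [Real.norm_eq_abs, abs_of_nonneg (by positivity)]
      have h1 := hdec q
      have h2 : ‖J p q‖ ^ 2 ≤ (C * Real.exp (-c * ∑ m, q m ^ 2)) ^ 2 :=
        pow_le_pow_left₀ (norm_nonneg _) h1 2
      refine h2.trans (le_of_eq ?_)
      rw [mul_pow, ← Real.exp_nat_mul]
      congr 2
      rw [← Finset.mul_sum]
      push_cast
      ring
  let JL : Fock ι →ₗ[ℂ] Lp ℂ 2 (volume : Measure (ι → ℝ)) :=
    { toFun := fun p => (hmem p).toLp (J p)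
      map_add' := by
        intro a b
        rw [← MemLp.toLp_add]
        apply MemLp.toLp_congr
        rw [map_add]
      map_smul' := by
        intro c a
        rw [RingHom.id_apply, ← MemLp.toLp_const_smul]
        apply MemLp.toLp_congr
        rw [map_smul] }
  obtain ⟨C, hC, hvac⟩ := hJ.vac
  -- the orthogonal complement of the range is trivial
  have horth : (LinearMap.range JL)ᗮ = ⊥ := by
    rw [Submodule.eq_bot_iff]
    intro g hg
    rw [Submodule.mem_orthogonal] at hg
    set G : (ι → ℝ) → ℝ := fun q => C * Real.exp (-(1 / 2) * ∑ m, ω m * q m ^ 2) with hG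
    have hGc : Continuous G := by
      rw [hG]
      fun_prop
    have hGpos : ∀ q, 0 < G q := fun q => by rw [hG]; positivity
    have hgm : MemLp (g : (ι → ℝ) → ℂ) 2 volume := Lp.memLp g
    set k : (ι → ℝ) → ℂ := fun q => ((G q : ℝ) : ℂ) * g q with hk
    have hkm : AEStronglyMeasurable k volume := by
      apply AEStronglyMeasurable.mul _ hgm.1
      exact (Complex.continuous_ofReal.comp hGc).aestronglyMeasurable
    have hkexp : ∀ c : ℝ, Integrable (fun q => Real.exp (c * ‖q‖) * ‖k q‖) := by
      intro c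
      have hB : MemLp (fun q : ι → ℝ => Real.exp (c * ‖q‖) * G q) 2 volume := by
        have hcont : Continuous (fun q : ι → ℝ => Real.exp (c * ‖q‖) * G q) := by fun_prop
        rw [memLp_two_iff_integrable_sq_norm hcont.aestronglyMeasurable]
        have hg2 := (hdAux_gauss (fun m : ι => ω m / 2) (fun m => by
          have := hω m; positivity)).const_mul ((C * Real.exp (∑ m, c ^ 2 / ω m)) ^ 2)
        apply Integrable.mono' hg2
        · exact (hcont.norm.pow 2).aestronglyMeasurable
        · filter_upwards with q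
          rw [Real.norm_eq_abs, abs_of_nonneg (by positivity)]
          have hpos : 0 < Real.exp (c * ‖q‖) * G q := mul_pos (Real.exp_pos _) (hGpos q)
          rw [Real.norm_eq_abs, abs_of_pos hpos]
          have hq : c * ‖q‖ ≤ ∑ m, (c ^ 2 / ω m + ω m / 4 * q m ^ 2) := by
            have h1 : ‖q‖ ≤ ∑ m, |q m| := by
              rw [pi_norm_le_iff_of_nonneg (Finset.sum_nonneg fun _ _ => abs_nonneg _)]
              intro i
              rw [Real.norm_eq_abs]
              exact Finset.single_le_sum (f := fun m => |q m|) (fun _ _ => abs_nonneg _)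
                (Finset.mem_univ i)
            have h2 : c * ‖q‖ ≤ |c| * ∑ m, |q m| :=
              (mul_le_mul_of_nonneg_right (le_abs_self c) (norm_nonneg _)).trans
                (mul_le_mul_of_nonneg_left h1 (abs_nonneg _))
            refine h2.trans ?_
            rw [Finset.mul_sum]
            apply Finset.sum_le_sum
            intro m _
            have hw := hω m
            have h3 : 0 ≤ (|c| / Real.sqrt (ω m) - Real.sqrt (ω m) / 2 * |q m|) ^ 2 := sq_nonneg _
            have h4 : Real.sqrt (ω m) ^ 2 = ω m := Real.sq_sqrt hw.le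
            have h5 : Real.sqrt (ω m) ≠ 0 := (Real.sqrt_pos.2 hw).ne'
            have h6 : (|c| / Real.sqrt (ω m) - Real.sqrt (ω m) / 2 * |q m|) ^ 2 =
                c ^ 2 / ω m + ω m / 4 * q m ^ 2 - |c| * |q m| := by
              rw [sub_sq, div_pow, h4, sq_abs, mul_pow, sq_abs, div_pow, h4]
              field_simp
              ring
            rw [h6] at h3
            linarith
          have hle : Real.exp (c * ‖q‖) * G q ≤ C * Real.exp (∑ m, c ^ 2 / ω m) *
              Real.exp (-(∑ m, ω m / 4 * q m ^ 2)) := by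
            rw [hG]
            simp only
            have e1 : Real.exp (c * ‖q‖) * (C * Real.exp (-(1 / 2) * ∑ m, ω m * q m ^ 2)) =
                C * Real.exp (c * ‖q‖ + -(1 / 2) * ∑ m, ω m * q m ^ 2) := by
              rw [Real.exp_add]; ring
            rw [e1, mul_assoc, ← Real.exp_add]
            apply mul_le_mul_of_nonneg_left _ hC.le
            apply Real.exp_le_exp.2
            rw [Finset.sum_add_distrib] at hq
            have e2 : ∑ m, ω m / 4 * q m ^ 2 = 1 / 4 * ∑ m, ω m * q m ^ 2 := by
              rw [Finset.mul_sum]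
              apply Finset.sum_congr rfl
              intro m _
              ring
            rw [e2] at hq ⊢
            linarith
          refine (pow_le_pow_left₀ hpos.le hle 2).trans (le_of_eq ?_)
          rw [mul_pow, ← Real.exp_nat_mul]
          congr 2
          rw [mul_neg, Finset.mul_sum]
          congr 1
          apply Finset.sum_congr rfl
          intro m _
          push_cast
          ring
      have hint := hB.integrable_mul hgm.norm
      refine hint.congr ?_
      filter_upwards with q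
      simp only [Pi.mul_apply]
      rw [hk]
      simp only [norm_mul, Complex.norm_real, Real.norm_eq_abs, abs_of_pos (hGpos q)]
      ring
    have hkint : Integrable k := by
      have h0 := hkexp 0
      simp only [zero_mul, Real.exp_zero, one_mul] at h0
      exact (integrable_norm_iff hkm).1 h0
    have hzero : k =ᵐ[volume] 0 := by
      apply hdAux_inj k hkint
      intro L
      apply hdAux_moment k hkm hkexp L
      intro n
      have hpn : ∀ n : ℕ, ∃ p, ∀ q, J p q = ((L q : ℝ) : ℂ) ^ n * ((G q : ℝ) : ℂ) := by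
        intro n
        induction n with
        | zero => exact ⟨vacuum ι, fun q => by rw [hvac q, pow_zero, one_mul]⟩
        | succ n ih =>
          obtain ⟨p, hp⟩ := ih
          obtain ⟨p', hp'⟩ := hdAux_mulq ω hω J hJ p L
          exact ⟨p', fun q => by rw [hp' q, hp q, pow_succ]; ring⟩
      obtain ⟨p, hp⟩ := hpn n
      have h1 := hg (JL p) ⟨p, rfl⟩
      rw [L2.inner_def] at h1
      rw [← h1]
      apply integral_congr_ae
      filter_upwards [(hmem p).coeFn_toLp] with q hq
      have e : (JL p : (ι → ℝ) → ℂ) q = J p q := hq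
      rw [e, hp q, RCLike.inner_apply, hk]
      simp only [map_mul, map_pow, Complex.conj_ofReal]
      ring
    have hg0 : (g : (ι → ℝ) → ℂ) =ᵐ[volume] 0 := by
      filter_upwards [hzero] with q hq
      rw [hk] at hq
      simp only [Pi.zero_apply, mul_eq_zero, Complex.ofReal_eq_zero] at hq
      rcases hq with h | h
      · exact absurd h (hGpos q).ne'
      · exact h
    exact (Lp.eq_zero_iff_ae_eq_zero).2 hg0
  have hdense : (LinearMap.range JL).topologicalClosure = ⊤ :=
    (Submodule.topologicalClosure_eq_top_iff).2 horth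
  have hfm : MemLp f 2 (volume : Measure (ι → ℝ)) := hf.memLp_of_hasCompactSupport hfc
  have hcl : hfm.toLp f ∈ closure ((LinearMap.range JL : Submodule ℂ _) :
      Set (Lp ℂ 2 (volume : Measure (ι → ℝ)))) := by
    rw [← Submodule.topologicalClosure_coe, hdense]
    trivial
  obtain ⟨b, ⟨p, rfl⟩, hb⟩ := Metric.mem_closure_iff.1 hcl (Real.sqrt ε) (Real.sqrt_pos.2 hε)
  refine ⟨p, ?_⟩
  have hsub : MemLp (f - J p) 2 (volume : Measure (ι → ℝ)) := hfm.sub (hmem p)
  have h1 : hfm.toLp f - JL p = hsub.toLp (f - J p) := by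
    exact (MemLp.toLp_sub hfm (hmem p)).symm
  rw [dist_eq_norm, h1] at hb
  have h2 : ‖hsub.toLp (f - J p)‖ ^ 2 = ∫ q, ‖f q - J p q‖ ^ 2 := by
    have h3 : inner ℂ (hsub.toLp (f - J p)) (hsub.toLp (f - J p)) =
        ((‖hsub.toLp (f - J p)‖ ^ 2 : ℝ) : ℂ) := by
      rw [inner_self_eq_norm_sq_to_K]
      simp
    rw [L2.inner_def] at h3
    have h4 : ∫ q, inner ℂ ((hsub.toLp (f - J p)) q) ((hsub.toLp (f - J p)) q) =
        ((∫ q, ‖f q - J p q‖ ^ 2 : ℝ) : ℂ) := by
      rw [← integral_complex_ofReal]
      apply integral_congr_ae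
      filter_upwards [hsub.coeFn_toLp] with q hq
      rw [hq, inner_self_eq_norm_sq_to_K]
      simp
    rw [h4] at h3
    exact_mod_cast h3.symm
  rw [← h2]
  have h5 := Real.sq_sqrt hε.le
  have h6 := norm_nonneg (hsub.toLp (f - J p))
  nlinarith

end Pool.Agent.Helper985.PS
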