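import Pool.Agent.Helper985.PS.M_approx_form
import Pool.Agent.Helper985.PS.M_exists_hartley
import Pool.Agent.Helper985.PS.M_exists_hermite0
import Pool.Agent.Helper985.PS.M_exists_subst
import Pool.Agent.Helper985.PS.M_hermite_dense
import Pool.Agent.Helper985.PS.Defs

set_option autoImplicit false

open MeasureTheory
open scoped Topology

namespace Pool.Agent.Helper985.PS















theorem exists_rep_int {ι : Type} [Fintype ι] (c : ℝ) (hc : 0 < c) :
    Integrable (fun q : ι → ℝ => Real.exp (-c * ∑ m, q m ^ 2)) := by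
  have h : (fun q : ι → ℝ => Real.exp (-c * ∑ m, q m ^ 2)) =
      fun q => ∏ m, Real.exp (-c * q m ^ 2) := by
    ext q
    rw [← Real.exp_sum, Finset.mul_sum]
  rw [h]
  exact Integrable.fintype_prod (f := fun _ t => Real.exp (-c * t ^ 2))
    (fun m => integrable_exp_neg_mul_sq hc)

section herm

variable {ι : Type} [Fintype ι] [DecidableEq ι] {ω : ι → ℝ}
    {H : Fock ι →ₗ[ℂ] ((ι → ℝ) → ℂ)}

theorem exists_rep_prod (hH : IsHermite0 ω H) (a b : Fock ι) :
    Integrable (fun q => (starRingEnd ℂ) (H a q) * H b q) := by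
  obtain ⟨C, c, hc, h1⟩ := hH.decay a
  obtain ⟨C', c', hc', h2⟩ := hH.decay b
  refine Integrable.mono' ((exists_rep_int (ι := ι) (c + c') (by positivity)).const_mul (C * C'))
    ?_ ?_
  · exact ((Complex.continuous_conj.comp (hH.smooth a).continuous).mul
      (hH.smooth b).continuous).aestronglyMeasurable
  · refine Filter.Eventually.of_forall fun q => ?_
    rw [norm_mul, RCLike.norm_conj]
    calc ‖H a q‖ * ‖H b q‖ ≤ (C * Real.exp (-c * ∑ m, q m ^ 2)) *
          (C' * Real.exp (-c' * ∑ m, q m ^ 2)) :=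
          mul_le_mul (h1 q) (h2 q) (norm_nonneg _) ((norm_nonneg _).trans (h1 q))
      _ = C * C' * Real.exp (-(c + c') * ∑ m, q m ^ 2) := by
        rw [mul_mul_mul_comm, ← Real.exp_add]
        ring_nf

theorem exists_rep_D (hω : ∀ m, 0 < ω m) (hH : IsHermite0 ω H) (s : Fock ι) (m : ι) (q : ι → ℝ) :
    fderiv ℝ (H s) q (Pi.single m 1) =
      ((Real.sqrt (ω m) / Real.sqrt 2 : ℝ) : ℂ) * (H (an m s) q - H (cr m s) q) := by
  have h1 := hH.crea s m q
  have h2 := hH.anni s m q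
  have h3 : ((Real.sqrt (ω m) : ℝ) : ℂ) ≠ 0 := by
    exact_mod_cast (Real.sqrt_pos.2 (hω m)).ne'
  have h4 : ((Real.sqrt 2 : ℝ) : ℂ) ≠ 0 := by
    exact_mod_cast (Real.sqrt_pos.2 (by norm_num : (0 : ℝ) < 2)).ne'
  have h5 : ((Real.sqrt 2 : ℝ) : ℂ) * ((Real.sqrt 2 : ℝ) : ℂ) = 2 := by
    exact_mod_cast Real.mul_self_sqrt (by norm_num : (0 : ℝ) ≤ 2)
  push_cast at h1 h2 ⊢
  generalize fderiv ℝ (H s) q (Pi.single m 1) = X at *
  generalize ((Real.sqrt (ω m) : ℝ) : ℂ) = a at *
  generalize ((Real.sqrt 2 : ℝ) : ℂ) = b at *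
  generalize H (an m s) q = P at *
  generalize H (cr m s) q = R at *
  have h6 : 2 * (1 / a * X) = b * (P - R) := by linear_combination h2 - h1
  have h7 : 2 * X = a * b * (P - R) := by
    have : 2 * X = a * (2 * (1 / a * X)) := by field_simp
    rw [this, h6]; ring
  rw [div_mul_eq_mul_div, eq_div_iff h4]
  have h8 : 2 * (X * b) = 2 * (a * (P - R)) := by
    linear_combination b * h7 + a * (P - R) * h5
  exact mul_left_cancel₀ two_ne_zero h8

theorem exists_rep_Q (hω : ∀ m, 0 < ω m) (hH : IsHermite0 ω H) (s : Fock ι) (m : ι) (q : ι → ℝ) :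
    ((q m : ℝ) : ℂ) * H s q =
      ((1 / (Real.sqrt 2 * Real.sqrt (ω m)) : ℝ) : ℂ) * (H (an m s) q + H (cr m s) q) := by
  have h1 := hH.crea s m q
  have h2 := hH.anni s m q
  have h3 : ((Real.sqrt (ω m) : ℝ) : ℂ) ≠ 0 := by
    exact_mod_cast (Real.sqrt_pos.2 (hω m)).ne'
  have h4 : ((Real.sqrt 2 : ℝ) : ℂ) ≠ 0 := by
    exact_mod_cast (Real.sqrt_pos.2 (by norm_num : (0 : ℝ) < 2)).ne'
  have h5 : ((Real.sqrt 2 : ℝ) : ℂ) * ((Real.sqrt 2 : ℝ) : ℂ) = 2 := by
    exact_mod_cast Real.mul_self_sqrt (by norm_num : (0 : ℝ) ≤ 2)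
  push_cast at h1 h2 ⊢
  generalize fderiv ℝ (H s) q (Pi.single m 1) = X at *
  generalize ((Real.sqrt (ω m) : ℝ) : ℂ) = a at *
  generalize ((Real.sqrt 2 : ℝ) : ℂ) = b at *
  generalize H (an m s) q = P at *
  generalize H (cr m s) q = R at *
  generalize H s q = S at *
  generalize ((q m : ℝ) : ℂ) = t at *
  have h6 : 2 * (a * t * S) = b * (P + R) := by linear_combination h2 + h1
  rw [div_mul_eq_mul_div, one_mul, eq_div_iff (mul_ne_zero h4 h3)]
  have h8 : b * (t * S * (b * a)) = b * (P + R) := by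
    linear_combination h6 + t * S * a * h5
  exact mul_left_cancel₀ h4 h8

/-- integration by parts -/
theorem exists_rep_ibp (hω : ∀ m, 0 < ω m) (hH : IsHermite0 ω H) (s t : Fock ι) (m : ι) :
    (inner ℂ s (an m t) : ℂ) - inner ℂ s (cr m t) = inner ℂ (cr m s) t - inner ℂ (an m s) t := by
  have hκ : ((Real.sqrt (ω m) / Real.sqrt 2 : ℝ) : ℂ) ≠ 0 := by
    have : 0 < Real.sqrt (ω m) / Real.sqrt 2 :=
      div_pos (Real.sqrt_pos.2 (hω m)) (Real.sqrt_pos.2 (by norm_num))
    exact_mod_cast this.ne'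
  have hdiff : ∀ a, Differentiable ℝ (H a) := fun a => (hH.smooth a).differentiable (by simp)
  have hfd : ∀ q, fderiv ℝ (fun q => (starRingEnd ℂ) (H s q)) q (Pi.single m 1) =
      (starRingEnd ℂ) (fderiv ℝ (H s) q (Pi.single m 1)) := by
    intro q
    have h := ((hdiff s q).hasFDerivAt.star).fderiv
    have h' : (fun q => (starRingEnd ℂ) (H s q)) = fun q => star (H s q) := rfl
    rw [h', h]
    rfl
  have hdc : Differentiable ℝ (fun q => (starRingEnd ℂ) (H s q)) := fun q =>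
    ((hdiff s q).hasFDerivAt.star).differentiableAt
  have e1 : (fun q => (starRingEnd ℂ) (H s q) * fderiv ℝ (H t) q (Pi.single m 1)) =
      fun q => ((Real.sqrt (ω m) / Real.sqrt 2 : ℝ) : ℂ) *
        ((starRingEnd ℂ) (H s q) * H (an m t) q - (starRingEnd ℂ) (H s q) * H (cr m t) q) := by
    ext q
    rw [exists_rep_D hω hH]
    ring
  have e2 : (fun q => fderiv ℝ (fun q => (starRingEnd ℂ) (H s q)) q (Pi.single m 1) * H t q) =
      fun q => ((Real.sqrt (ω m) / Real.sqrt 2 : ℝ) : ℂ) *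
        ((starRingEnd ℂ) (H (an m s) q) * H t q - (starRingEnd ℂ) (H (cr m s) q) * H t q) := by
    ext q
    rw [hfd, exists_rep_D hω hH, map_mul, map_sub, Complex.conj_ofReal]
    ring
  have hI1 : Integrable (fun q => (starRingEnd ℂ) (H s q) * H (an m t) q -
      (starRingEnd ℂ) (H s q) * H (cr m t) q) :=
    (exists_rep_prod hH s (an m t)).sub (exists_rep_prod hH s (cr m t))
  have hI2 : Integrable (fun q => (starRingEnd ℂ) (H (an m s) q) * H t q -
      (starRingEnd ℂ) (H (cr m s) q) * H t q) :=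
    (exists_rep_prod hH (an m s) t).sub (exists_rep_prod hH (cr m s) t)
  have key := integral_mul_fderiv_eq_neg_fderiv_mul_of_integrable
    (μ := (volume : Measure (ι → ℝ))) (f := fun q => (starRingEnd ℂ) (H s q)) (g := H t)
    (v := Pi.single m 1) (by rw [e2]; exact hI2.const_mul _) (by rw [e1]; exact hI1.const_mul _)
    (exists_rep_prod hH s t) (fun x _ => hdc x) (fun x _ => hdiff t x)
  rw [e1, e2, integral_const_mul, integral_const_mul,
    integral_sub (exists_rep_prod hH s (an m t)) (exists_rep_prod hH s (cr m t)),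
    integral_sub (exists_rep_prod hH (an m s) t) (exists_rep_prod hH (cr m s) t),
    hH.isom, hH.isom, hH.isom, hH.isom] at key
  have h9 := mul_left_cancel₀ hκ (key.trans (mul_neg _ _).symm)
  rw [h9]
  ring

theorem exists_rep_sym (hω : ∀ m, 0 < ω m) (hH : IsHermite0 ω H) (s t : Fock ι) (m : ι) :
    (inner ℂ s (an m t) : ℂ) + inner ℂ s (cr m t) = inner ℂ (an m s) t + inner ℂ (cr m s) t := by
  have hκ : ((1 / (Real.sqrt 2 * Real.sqrt (ω m)) : ℝ) : ℂ) ≠ 0 := by
    have : 0 < 1 / (Real.sqrt 2 * Real.sqrt (ω m)) :=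
      div_pos one_pos (mul_pos (Real.sqrt_pos.2 (by norm_num)) (Real.sqrt_pos.2 (hω m)))
    exact_mod_cast this.ne'
  have e1 : ∫ q, ((1 / (Real.sqrt 2 * Real.sqrt (ω m)) : ℝ) : ℂ) *
        ((starRingEnd ℂ) (H s q) * H (an m t) q + (starRingEnd ℂ) (H s q) * H (cr m t) q) =
      ∫ q, ((1 / (Real.sqrt 2 * Real.sqrt (ω m)) : ℝ) : ℂ) *
        ((starRingEnd ℂ) (H (an m s) q) * H t q + (starRingEnd ℂ) (H (cr m s) q) * H t q) := by
    congr 1
    ext q
    have h1 := exists_rep_Q hω hH s m q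
    have h2 := exists_rep_Q hω hH t m q
    have h3 := congrArg (starRingEnd ℂ) h1
    rw [map_mul, map_mul, map_add, Complex.conj_ofReal, Complex.conj_ofReal] at h3
    linear_combination (H t q) * h3 - (starRingEnd ℂ) (H s q) * h2
  rw [integral_const_mul, integral_const_mul,
    integral_add (exists_rep_prod hH s (an m t)) (exists_rep_prod hH s (cr m t)),
    integral_add (exists_rep_prod hH (an m s) t) (exists_rep_prod hH (cr m s) t),
    hH.isom, hH.isom, hH.isom, hH.isom] at e1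
  exact mul_left_cancel₀ hκ e1

theorem exists_rep_adj (hω : ∀ m, 0 < ω m) (hH : IsHermite0 ω H) (s t : Fock ι) (m : ι) :
    (inner ℂ s (cr m t) : ℂ) = inner ℂ (an m s) t := by
  have h1 := exists_rep_ibp hω hH s t m
  have h2 := exists_rep_sym hω hH s t m
  have h3 : (2 : ℂ) * inner ℂ s (cr m t) = 2 * inner ℂ (an m s) t := by
    linear_combination h2 - h1
  exact mul_left_cancel₀ two_ne_zero h3

theorem exists_rep_adj' (hω : ∀ m, 0 < ω m) (hH : IsHermite0 ω H) (s t : Fock ι) (m : ι) :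
    (inner ℂ s (an m t) : ℂ) = inner ℂ (cr m s) t := by
  have h1 := exists_rep_ibp hω hH s t m
  have h2 := exists_rep_sym hω hH s t m
  have h3 : (2 : ℂ) * inner ℂ s (an m t) = 2 * inner ℂ (cr m s) t := by
    linear_combination h2 + h1
  exact mul_left_cancel₀ two_ne_zero h3

theorem exists_rep_comm (m : ι) (s : Fock ι) : an m (cr m s) = s + cr m (an m s) := by
  have h : (MvPolynomial.pderiv m) ((MvPolynomial.X m : MvPolynomial ι ℂ) * s.poly) =
      s.poly + (MvPolynomial.X m : MvPolynomial ι ℂ) * MvPolynomial.pderiv m s.poly := by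
    rw [MvPolynomial.pderiv_mul, MvPolynomial.pderiv_X_self, one_mul]
  exact h

theorem exists_rep_energy (hω : ∀ m, 0 < ω m) (hH : IsHermite0 ω H) (s u : Fock ι) :
    ∑ m, (ω m : ℂ) * inner ℂ s (cr m (an m u)) =
    (1 / 2) * (∫ q, ∑ m, ((starRingEnd ℂ) (fderiv ℝ (H s) q (Pi.single m 1)) *
        fderiv ℝ (H u) q (Pi.single m 1) +
        ((ω m ^ 2 * q m ^ 2 : ℝ) : ℂ) * ((starRingEnd ℂ) (H s q) * H u q))) -
    (1 / 2) * ((∑ m, ω m : ℝ) : ℂ) * inner ℂ s u := by
  have e1 : (fun q : ι → ℝ => ∑ m, ((starRingEnd ℂ) (fderiv ℝ (H s) q (Pi.single m 1)) *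
        fderiv ℝ (H u) q (Pi.single m 1) +
        ((ω m ^ 2 * q m ^ 2 : ℝ) : ℂ) * ((starRingEnd ℂ) (H s q) * H u q))) =
      fun q => ∑ m, (ω m : ℂ) * ((starRingEnd ℂ) (H (an m s) q) * H (an m u) q +
        (starRingEnd ℂ) (H (cr m s) q) * H (cr m u) q) := by
    ext q
    refine Finset.sum_congr rfl fun m _ => ?_
    have h1 := exists_rep_Q hω hH s m q
    have h2 := exists_rep_Q hω hH u m q
    have h3 := congrArg (starRingEnd ℂ) h1
    rw [map_mul, map_mul, map_add, Complex.conj_ofReal, Complex.conj_ofReal] at h3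
    rw [exists_rep_D hω hH, exists_rep_D hω hH, map_mul, map_sub, Complex.conj_ofReal]
    have k1 : ((Real.sqrt (ω m) / Real.sqrt 2 : ℝ) : ℂ) * ((Real.sqrt (ω m) / Real.sqrt 2 : ℝ) : ℂ)
        = (ω m : ℂ) / 2 := by
      rw [← Complex.ofReal_mul, div_mul_div_comm, Real.mul_self_sqrt (hω m).le,
        Real.mul_self_sqrt (by norm_num)]
      push_cast
      rfl
    have k2 : (ω m : ℂ) ^ 2 * (((1 / (Real.sqrt 2 * Real.sqrt (ω m)) : ℝ) : ℂ) *
        ((1 / (Real.sqrt 2 * Real.sqrt (ω m)) : ℝ) : ℂ)) = (ω m : ℂ) / 2 := by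
      rw [← Complex.ofReal_mul, div_mul_div_comm, mul_mul_mul_comm, Real.mul_self_sqrt (hω m).le,
        Real.mul_self_sqrt (by norm_num)]
      have : (ω m : ℂ) ≠ 0 := by exact_mod_cast (hω m).ne'
      push_cast
      field_simp
    have k3 : ((ω m ^ 2 * q m ^ 2 : ℝ) : ℂ) * ((starRingEnd ℂ) (H s q) * H u q) =
        (ω m : ℂ) ^ 2 * (((q m : ℝ) : ℂ) * (starRingEnd ℂ) (H s q)) *
          (((q m : ℝ) : ℂ) * H u q) := by
      push_cast
      ring
    rw [k3, h3, h2]
    linear_combination (((starRingEnd ℂ) (H (an m s) q) - (starRingEnd ℂ) (H (cr m s) q)) *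
      (H (an m u) q - H (cr m u) q)) * k1 + (((starRingEnd ℂ) (H (an m s) q) +
      (starRingEnd ℂ) (H (cr m s) q)) * (H (an m u) q + H (cr m u) q)) * k2
  rw [e1, integral_finsetSum]
  · have e2 : ∀ m, ∫ q : ι → ℝ, (ω m : ℂ) * ((starRingEnd ℂ) (H (an m s) q) * H (an m u) q +
        (starRingEnd ℂ) (H (cr m s) q) * H (cr m u) q) =
        (ω m : ℂ) * (inner ℂ (an m s) (an m u) + inner ℂ (cr m s) (cr m u)) := by
      intro m
      rw [integral_const_mul, integral_add (exists_rep_prod hH _ _) (exists_rep_prod hH _ _),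
        hH.isom, hH.isom]
    have e3 : ∀ m, (inner ℂ (cr m s) (cr m u) : ℂ) = inner ℂ s u + inner ℂ s (cr m (an m u)) := by
      intro m
      rw [← exists_rep_adj' hω hH, exists_rep_comm]
      exact inner_add_right _ _ _
    have e4 : ∀ m, (inner ℂ (an m s) (an m u) : ℂ) = inner ℂ s (cr m (an m u)) := by
      intro m
      rw [exists_rep_adj hω hH]
    simp only [e2, e3, e4]
    push_cast
    rw [Finset.mul_sum, Finset.mul_sum, Finset.sum_mul, ← Finset.sum_sub_distrib]
    refine Finset.sum_congr rfl fun m _ => ?_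
    ring
  · intro m _
    exact ((exists_rep_prod hH _ _).add (exists_rep_prod hH _ _)).const_mul _

end herm

theorem exists_rep {L Λ : ℝ} (hL : 0 < L) (pol : Mode L Λ → E3) (hp : IsPolarisation pol) :
    ∃ J : Fock (Mode L Λ) →ₗ[ℂ] ((Mode L Λ → ℝ) → ℂ), IsRep pol J := by
  obtain ⟨ω, hωd⟩ : ∃ ω : Mode L Λ → ℝ, ω = fun m => ‖m.k‖ := ⟨_, rfl⟩
  have hω : ∀ m, 0 < ω m := by
    intro m
    rw [hωd]
    exact m.1.2.1
  obtain ⟨H, hH⟩ := exists_hermite0 ω hω
  obtain ⟨U, hU1, hU2, hU3⟩ := exists_hartley hL pol hp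
  obtain ⟨v, hvs, hvi, hvc, hva⟩ := exists_subst U hU1
  have hU4 : U.conjTranspose * U = 1 := mul_eq_one_comm.1 hU1
  refine ⟨H ∘ₗ v, ?_, ?_, ?_, ?_, ?_, ?_, ?_⟩
  · exact fun p => hH.smooth (v p)
  · exact fun p => hH.decay (v p)
  · exact fun p m => hH.ddecay (v p) m
  · intro p r
    have := hH.isom (v p) (v r)
    rw [hvi] at this
    exact this
  · intro i x p q
    -- the coefficients
    have hG : ∀ n : Mode L Λ, ∑ m : Mode L Λ, ((pol m i / Real.sqrt (2 * L ^ 3 * ‖m.k‖) : ℝ) : ℂ) *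
        (Complex.exp (Complex.I * ((inner ℝ m.k x : ℝ) : ℂ)) * U m n) =
        ((pol n i * (Real.cos (inner ℝ n.k x) + Real.sin (inner ℝ n.k x)) /
          Real.sqrt (2 * L ^ 3 * ‖n.k‖) : ℝ) : ℂ) := by
      intro n
      rw [Complex.ofReal_div, ← hU3 n x i, Finset.sum_div]
      refine Finset.sum_congr rfl fun m _ => ?_
      by_cases h0 : U m n = 0
      · rw [h0]; simp
      · rw [hU2 m n h0]
        push_cast
        ring
    have hG' : ∀ n : Mode L Λ, ∑ m : Mode L Λ, ((pol m i / Real.sqrt (2 * L ^ 3 * ‖m.k‖) : ℝ) : ℂ) *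
        (Complex.exp (-(Complex.I * ((inner ℝ m.k x : ℝ) : ℂ))) * (starRingEnd ℂ) (U m n)) =
        ((pol n i * (Real.cos (inner ℝ n.k x) + Real.sin (inner ℝ n.k x)) /
          Real.sqrt (2 * L ^ 3 * ‖n.k‖) : ℝ) : ℂ) := by
      intro n
      have h1 := congrArg (starRingEnd ℂ) (hG n)
      rw [map_sum, Complex.conj_ofReal] at h1
      rw [← h1]
      refine Finset.sum_congr rfl fun m _ => ?_
      rw [map_mul, map_mul, Complex.conj_ofReal, ← Complex.exp_conj, map_mul, Complex.conj_I,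
        Complex.conj_ofReal, neg_mul]
    have h1 : (H ∘ₗ v) (vectorPotential L Λ pol i x p) q =
        ∑ m : Mode L Λ, ((pol m i / Real.sqrt (2 * L ^ 3 * ‖m.k‖) : ℝ) : ℂ) *
        (Complex.exp (Complex.I * ((inner ℝ m.k x : ℝ) : ℂ)) *
          (∑ n, U m n * H (an n (v p)) q) +
        Complex.exp (-(Complex.I * ((inner ℝ m.k x : ℝ) : ℂ))) *
          (∑ n, (starRingEnd ℂ) (U m n) * H (cr n (v p)) q)) := by
      unfold vectorPotential
      rw [finsum_eq_sum_of_fintype, map_sum, Finset.sum_apply]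
      refine Finset.sum_congr rfl fun m _ => ?_
      rw [map_smul, map_add, map_smul, map_smul, LinearMap.comp_apply, LinearMap.comp_apply,
        hvc, hva, map_sum, map_sum]
      simp only [map_smul, Pi.smul_apply, Pi.add_apply, Finset.sum_apply, smul_eq_mul]
    have h2 : (H ∘ₗ v) (vectorPotential L Λ pol i x p) q =
        ∑ n : Mode L Λ, ((pol n i * (Real.cos (inner ℝ n.k x) + Real.sin (inner ℝ n.k x)) /
          Real.sqrt (2 * L ^ 3 * ‖n.k‖) : ℝ) : ℂ) *
            (H (an n (v p)) q + H (cr n (v p)) q) := by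
      rw [h1]
      have h3 : ∀ m : Mode L Λ, ((pol m i / Real.sqrt (2 * L ^ 3 * ‖m.k‖) : ℝ) : ℂ) *
        (Complex.exp (Complex.I * ((inner ℝ m.k x : ℝ) : ℂ)) *
          (∑ n, U m n * H (an n (v p)) q) +
        Complex.exp (-(Complex.I * ((inner ℝ m.k x : ℝ) : ℂ))) *
          (∑ n, (starRingEnd ℂ) (U m n) * H (cr n (v p)) q)) =
          ∑ n, ((((pol m i / Real.sqrt (2 * L ^ 3 * ‖m.k‖) : ℝ) : ℂ) *
        (Complex.exp (Complex.I * ((inner ℝ m.k x : ℝ) : ℂ)) * U m n)) * H (an n (v p)) q +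
          (((pol m i / Real.sqrt (2 * L ^ 3 * ‖m.k‖) : ℝ) : ℂ) *
        (Complex.exp (-(Complex.I * ((inner ℝ m.k x : ℝ) : ℂ))) * (starRingEnd ℂ) (U m n))) *
          H (cr n (v p)) q) := by
        intro m
        rw [Finset.mul_sum, Finset.mul_sum, ← Finset.sum_add_distrib, Finset.mul_sum]
        refine Finset.sum_congr rfl fun n _ => ?_
        ring
      simp only [h3]
      rw [Finset.sum_comm]
      refine Finset.sum_congr rfl fun n _ => ?_
      rw [Finset.sum_add_distrib, ← Finset.sum_mul, ← Finset.sum_mul, hG, hG', ← mul_add]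
    rw [h2]
    unfold vecPot
    rw [WithLp.ofLp_sum, Finset.sum_apply, Complex.ofReal_sum, Finset.sum_mul]
    refine Finset.sum_congr rfl fun n _ => ?_
    have h4 := exists_rep_Q hω hH (v p) n q
    have hn : 0 < ‖n.k‖ := n.1.2.1
    have h5 : (H ∘ₗ v) p q = H (v p) q := rfl
    have h6 : ω n = ‖n.k‖ := by rw [hωd]
    rw [h6] at h4
    have h7 : (q n • modeFn pol n x).ofLp i = q n * ((Real.cos (inner ℝ n.k x) +
        Real.sin (inner ℝ n.k x)) / Real.sqrt (L ^ 3) * pol n i) := by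
      simp [modeFn]
    rw [h7, h5, Complex.ofReal_mul, mul_right_comm (((q n : ℝ) : ℂ)), h4]
    have h8 : Real.sqrt (2 * L ^ 3 * ‖n.k‖) = Real.sqrt (L ^ 3) *
        (Real.sqrt 2 * Real.sqrt ‖n.k‖) := by
      rw [Real.sqrt_mul (by positivity), Real.sqrt_mul (by norm_num)]
      ring
    rw [h8]
    have h9 : ((Real.sqrt (L ^ 3) : ℝ) : ℂ) ≠ 0 := by
      exact_mod_cast (Real.sqrt_pos.2 (by positivity)).ne'
    have h10 : ((Real.sqrt 2 * Real.sqrt ‖n.k‖ : ℝ) : ℂ) ≠ 0 := by
      have : 0 < Real.sqrt 2 * Real.sqrt ‖n.k‖ :=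
        mul_pos (Real.sqrt_pos.2 (by norm_num)) (Real.sqrt_pos.2 hn)
      exact_mod_cast this.ne'
    generalize H (an n (v p)) q + H (cr n (v p)) q = S
    generalize Real.sqrt 2 * Real.sqrt ‖n.k‖ = a at *
    generalize Real.sqrt (L ^ 3) = b at *
    push_cast
    field_simp
  · intro p r
    have h1 : v (fieldEnergy L Λ r) = ∑ n : Mode L Λ, (ω n : ℂ) • cr n (an n (v r)) := by
      unfold fieldEnergy
      rw [finsum_eq_sum_of_fintype, map_sum]
      have h2 : ∀ m : Mode L Λ, v (((‖m.k‖ : ℝ) : ℂ) • cr m (an m r)) =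
          ∑ n, ∑ n', (((‖m.k‖ : ℝ) : ℂ) * ((starRingEnd ℂ) (U m n) * U m n')) •
            cr n (an n' (v r)) := by
        intro m
        rw [map_smul, hvc, hva, Finset.smul_sum]
        refine Finset.sum_congr rfl fun n _ => ?_
        rw [map_sum, Finset.smul_sum, Finset.smul_sum]
        refine Finset.sum_congr rfl fun n' _ => ?_
        rw [map_smul, smul_smul, smul_smul, mul_assoc]
      simp only [h2]
      rw [Finset.sum_comm]
      refine Finset.sum_congr rfl fun n _ => ?_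
      rw [Finset.sum_comm]
      have h3 : ∀ n', ∑ m : Mode L Λ, (((‖m.k‖ : ℝ) : ℂ) * ((starRingEnd ℂ) (U m n) * U m n')) •
            cr n (an n' (v r)) = (if n = n' then (ω n : ℂ) else 0) • cr n (an n' (v r)) := by
        intro n'
        rw [← Finset.sum_smul]
        congr 1
        have h4 : ∀ m : Mode L Λ, ((‖m.k‖ : ℝ) : ℂ) * ((starRingEnd ℂ) (U m n) * U m n') =
            (ω n : ℂ) * (U.conjTranspose n m * U m n') := by
          intro m
          rw [Matrix.conjTranspose_apply]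
          by_cases h0 : U m n = 0
          · rw [h0]; simp
          · rw [hU2 m n h0, hωd]
            rfl
        simp only [h4]
        rw [← Finset.mul_sum, ← Matrix.mul_apply, hU4, Matrix.one_apply]
        split_ifs <;> simp
      simp only [h3]
      simp
    have h5 : (inner ℂ p (fieldEnergy L Λ r) : ℂ) =
        ∑ m, (ω m : ℂ) * inner ℂ (v p) (cr m (an m (v r))) := by
      rw [← hvi, h1, inner_sum]
      refine Finset.sum_congr rfl fun m _ => ?_
      exact inner_smul_right _ _ _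
    rw [h5, exists_rep_energy hω hH, hvi, hωd]
    rfl
  · intro Ψ hΨ hΨc ε hε
    obtain ⟨r, c, P, h1, h2, h3, h4⟩ := approx_form ω hω H hH (hermite_dense ω hω H hH) Ψ hΨ hΨc ε hε
    choose P' hP' using fun j => hvs (P j)
    have h5 : (fun p : E3 × (Mode L Λ → ℝ) => Ψ p - ∑ j, c j p.1 * (H ∘ₗ v) (P' j) p.2) =
        (fun p : E3 × (Mode L Λ → ℝ) => Ψ p - ∑ j, c j p.1 * H (P j) p.2) := by
      ext p
      congr 1
      refine Finset.sum_congr rfl fun j _ => ?_
      rw [LinearMap.comp_apply, hP']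
    refine ⟨r, c, P', h1, h2, ?_, ?_⟩
    · rw [h5]; exact h3
    · rw [h5]; exact h4

end Pool.Agent.Helper985.PS
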