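import Pool.Agent.Helper985.PS.M_pauli
import Pool.Agent.Helper985.PS.Defs

set_option autoImplicit false

open MeasureTheory
open scoped Topology

namespace Pool.Agent.Helper985.PS









theorem form_close_B {X : Type} [MeasurableSpace X] {μ : Measure X} (F F' f : X → ℝ)
    (hF : Integrable F μ) (hf : Integrable f μ) (hF' : AEStronglyMeasurable F' μ) (s K : ℝ)
    (h : ∀ x, |F' x - F x| ≤ s * F x + K * f x) :
    |(∫ x, F' x ∂μ) - ∫ x, F x ∂μ| ≤ s * (∫ x, F x ∂μ) + K * ∫ x, f x ∂μ := by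
  have h1 : Integrable (fun x => s * F x + K * f x) μ := (hF.const_mul s).add (hf.const_mul K)
  have h2 : Integrable (fun x => F' x - F x) μ := by
    refine h1.mono' (hF'.sub hF.aestronglyMeasurable) (Filter.Eventually.of_forall fun x => ?_)
    rw [Real.norm_eq_abs]
    exact h x
  have h3 : Integrable F' μ := by
    have := h2.add hF
    refine this.congr (Filter.Eventually.of_forall fun x => ?_)
    simp
  rw [← integral_sub h3 hF]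
  calc |∫ x, F' x - F x ∂μ| ≤ ∫ x, |F' x - F x| ∂μ := abs_integral_le_integral_abs
    _ ≤ ∫ x, (s * F x + K * f x) ∂μ := integral_mono h2.abs h1 h
    _ = _ := by
      rw [integral_add (hF.const_mul s) (hf.const_mul K), integral_const_mul, integral_const_mul]

theorem form_close_pt {V : Type} [NormedAddCommGroup V] (u d : V) (s : ℝ) (hs : 0 < s) :
    |‖u - d‖ ^ 2 - ‖u‖ ^ 2| ≤ s * ‖u‖ ^ 2 + (1 / s + 1) * ‖d‖ ^ 2 := by
  have h1 : |‖u - d‖ - ‖u‖| ≤ ‖d‖ := by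
    have := abs_norm_sub_norm_le (u - d) u
    have h2 : ‖u - d - u‖ = ‖d‖ := by
      rw [show u - d - u = -d by abel, norm_neg]
    rwa [h2] at this
  have h2 : ‖u - d‖ ≤ ‖u‖ + ‖d‖ := norm_sub_le u d
  have h3 : ‖u - d‖ ^ 2 - ‖u‖ ^ 2 = (‖u - d‖ - ‖u‖) * (‖u - d‖ + ‖u‖) := by ring
  have h4 : 2 * (‖u‖ * ‖d‖) ≤ s * ‖u‖ ^ 2 + (1 / s) * ‖d‖ ^ 2 := by
    have h5 : s * ‖u‖ ^ 2 + (1 / s) * ‖d‖ ^ 2 - 2 * (‖u‖ * ‖d‖) = (s * ‖u‖ - ‖d‖) ^ 2 / s := by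
      field_simp
      ring
    have h6 : 0 ≤ (s * ‖u‖ - ‖d‖) ^ 2 / s := by positivity
    linarith
  rw [h3, abs_mul, abs_of_nonneg (by positivity : 0 ≤ ‖u - d‖ + ‖u‖)]
  calc |‖u - d‖ - ‖u‖| * (‖u - d‖ + ‖u‖) ≤ ‖d‖ * ((‖u‖ + ‖d‖) + ‖u‖) :=
        mul_le_mul h1 (by linarith) (by positivity) (norm_nonneg _)
    _ ≤ _ := by nlinarith

theorem form_close_sg {X : Type} [TopologicalSpace X] {v : X → E3} {s : X → C2}
    (hv : Continuous v) (hs : Continuous s) : Continuous fun x => sg (v x) (s x) := by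
  unfold sg sigma
  refine (PiLp.continuous_toLp 2 _).comp (Continuous.matrix_mulVec ?_ ?_)
  · have hc : ∀ k : Fin 3, Continuous fun x => ((v x) k : ℂ) := fun k =>
      Complex.continuous_ofReal.comp ((EuclideanSpace.proj k).continuous.comp hv)
    have h0 := hc 0
    have h1 := hc 1
    have h2 := hc 2
    refine continuous_pi fun i => continuous_pi fun j => ?_
    fin_cases i <;> fin_cases j
    · simp only [Fin.zero_eta, Fin.isValue, Matrix.of_apply, Matrix.cons_val', Matrix.cons_val_zero,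
        Matrix.cons_val_fin_one]
      fun_prop
    · simp
      fun_prop
    · simp
      fun_prop
    · simp
      fun_prop
  · exact (PiLp.continuous_ofLp 2 _).comp hs

theorem form_close_vecPot {ι : Type} [Fintype ι] (e : ι → E3 → E3)
    (he : ∀ m, Continuous (e m)) :
    Continuous (fun p : E3 × (ι → ℝ) => vecPot e p.2 p.1) := by
  unfold vecPot
  refine continuous_finsetSum _ fun m _ => ?_
  exact ((continuous_apply m).comp continuous_snd).smul ((he m).comp continuous_fst)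

theorem form_close_fd {ι : Type} [Fintype ι] {Ψ : E3 × (ι → ℝ) → C2} (hΨ : ContDiff ℝ SM Ψ)
    (w : E3 × (ι → ℝ)) : Continuous (fun p => fderiv ℝ Ψ p w) :=
  (hΨ.continuous_fderiv (by simp)).clm_apply continuous_const

theorem form_close_pauli {ι : Type} [Fintype ι] (α : ℝ) (e : ι → E3 → E3)
    (he : ∀ m, Continuous (e m)) {Ψ : E3 × (ι → ℝ) → C2} (hΨ : ContDiff ℝ SM Ψ) :
    Continuous (pauli α e Ψ) := by
  unfold pauli
  refine (continuous_finsetSum _ fun j _ => ?_).add ?_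
  · have h1 := form_close_sg (continuous_const (y := ee j)) (form_close_fd hΨ (ee j, 0))
    exact h1.const_smul (-Complex.I : ℂ)
  · have h1 := form_close_sg (form_close_vecPot e he) hΨ.continuous
    exact h1.const_smul ((Real.sqrt α : ℝ) : ℂ)

theorem form_close_sum {ι : Type} [Fintype ι] [DecidableEq ι] (ω : ι → ℝ)
    {Ψ : E3 × (ι → ℝ) → C2} (hΨ : ContDiff ℝ SM Ψ) :
    Continuous (fun p : E3 × (ι → ℝ) => ∑ m, (‖fderiv ℝ Ψ p (0, Pi.single m 1)‖ ^ 2 +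
      ω m ^ 2 * p.2 m ^ 2 * ‖Ψ p‖ ^ 2)) := by
  refine continuous_finsetSum _ fun m _ => ?_
  have h1 := form_close_fd hΨ ((0 : E3), (Pi.single m 1 : ι → ℝ))
  have h2 := hΨ.continuous
  have h3 : Continuous (fun p : E3 × (ι → ℝ) => p.2 m) := (continuous_apply m).comp continuous_snd
  exact (h1.norm.pow 2).add ((continuous_const.mul (h3.pow 2)).mul (h2.norm.pow 2))

theorem form_close_ee (j : Fin 3) : ‖ee j‖ = 1 := by
  unfold ee
  simp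

theorem form_close_pauli_le {ι : Type} [Fintype ι] [DecidableEq ι] (α : ℝ) (e : ι → E3 → E3)
    (C : ℝ) (hC : ∀ m x, ‖e m x‖ ≤ C) (D : E3 × (ι → ℝ) → C2) (p : E3 × (ι → ℝ)) :
    ‖pauli α e D p‖ ^ 2 ≤ 4 * (1 + |α| * C ^ 2 * Fintype.card ι) * fn D p := by
  have h1 : ‖pauli α e D p‖ ≤ (∑ j : Fin 3, ‖fderiv ℝ D p (ee j, 0)‖) +
      Real.sqrt α * (‖vecPot e p.2 p.1‖ * ‖D p‖) := by
    unfold pauli
    refine (norm_add_le _ _).trans (add_le_add ?_ ?_)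
    · refine (norm_sum_le _ _).trans (Finset.sum_le_sum fun j _ => ?_)
      rw [norm_smul, norm_sg, form_close_ee]
      simp
    · rw [norm_smul, norm_sg, Complex.norm_real, Real.norm_eq_abs,
        abs_of_nonneg (Real.sqrt_nonneg α)]
  have h2 : ‖vecPot e p.2 p.1‖ ^ 2 ≤ C ^ 2 * Fintype.card ι * ∑ m, p.2 m ^ 2 := by
    have h3 : ‖vecPot e p.2 p.1‖ ≤ ∑ m, |p.2 m| * C := by
      unfold vecPot
      refine (norm_sum_le _ _).trans (Finset.sum_le_sum fun m _ => ?_)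
      rw [norm_smul, Real.norm_eq_abs]
      exact mul_le_mul_of_nonneg_left (hC m _) (abs_nonneg _)
    have h4 : (∑ m, |p.2 m| * C) = C * ∑ m, |p.2 m| := by
      rw [Finset.mul_sum]
      exact Finset.sum_congr rfl fun m _ => mul_comm _ _
    rw [h4] at h3
    calc ‖vecPot e p.2 p.1‖ ^ 2 ≤ (C * ∑ m, |p.2 m|) ^ 2 := pow_le_pow_left₀ (norm_nonneg _) h3 2
      _ = C ^ 2 * (∑ m, |p.2 m|) ^ 2 := by ring
      _ ≤ C ^ 2 * (Fintype.card ι * ∑ m, |p.2 m| ^ 2) := by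
          refine mul_le_mul_of_nonneg_left ?_ (sq_nonneg C)
          exact sq_sum_le_card_mul_sum_sq
      _ = _ := by
          simp only [sq_abs]
          ring
  have hα : Real.sqrt α ^ 2 ≤ |α| := by
    rcases le_or_gt 0 α with h | h
    · rw [Real.sq_sqrt h, abs_of_nonneg h]
    · rw [Real.sqrt_eq_zero_of_nonpos h.le]
      simp
  have h5 : ‖pauli α e D p‖ ^ 2 ≤ 4 * ((∑ j : Fin 3, ‖fderiv ℝ D p (ee j, 0)‖ ^ 2) +
      Real.sqrt α ^ 2 * (‖vecPot e p.2 p.1‖ ^ 2 * ‖D p‖ ^ 2)) := by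
    refine (pow_le_pow_left₀ (norm_nonneg _) h1 2).trans ?_
    simp only [Fin.sum_univ_three]
    generalize ‖fderiv ℝ D p (ee 0, 0)‖ = a
    generalize ‖fderiv ℝ D p (ee 1, 0)‖ = b
    generalize ‖fderiv ℝ D p (ee 2, 0)‖ = c
    have h6 : Real.sqrt α ^ 2 * (‖vecPot e p.2 p.1‖ ^ 2 * ‖D p‖ ^ 2) =
        (Real.sqrt α * (‖vecPot e p.2 p.1‖ * ‖D p‖)) ^ 2 := by ring
    rw [h6]
    generalize Real.sqrt α * (‖vecPot e p.2 p.1‖ * ‖D p‖) = d
    nlinarith [sq_nonneg (a - b), sq_nonneg (a - c), sq_nonneg (a - d), sq_nonneg (b - c),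
      sq_nonneg (b - d), sq_nonneg (c - d)]
  have h7 : Real.sqrt α ^ 2 * (‖vecPot e p.2 p.1‖ ^ 2 * ‖D p‖ ^ 2) ≤
      |α| * C ^ 2 * Fintype.card ι * ((∑ m, p.2 m ^ 2) * ‖D p‖ ^ 2) := by
    calc Real.sqrt α ^ 2 * (‖vecPot e p.2 p.1‖ ^ 2 * ‖D p‖ ^ 2) ≤
        |α| * ((C ^ 2 * Fintype.card ι * ∑ m, p.2 m ^ 2) * ‖D p‖ ^ 2) :=
          mul_le_mul hα (mul_le_mul_of_nonneg_right h2 (sq_nonneg _)) (by positivity)
            (abs_nonneg _)
      _ = _ := by ring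
  have h8 : (∑ j : Fin 3, ‖fderiv ℝ D p (ee j, 0)‖ ^ 2) + (∑ m, p.2 m ^ 2) * ‖D p‖ ^ 2 ≤
      fn D p := by
    unfold fn
    rw [Finset.sum_add_distrib, Finset.sum_mul]
    have a1 : 0 ≤ ‖D p‖ ^ 2 := sq_nonneg _
    have a2 : 0 ≤ ∑ m, ‖fderiv ℝ D p (0, Pi.single m 1)‖ ^ 2 :=
      Finset.sum_nonneg fun m _ => sq_nonneg _
    linarith
  have b1 : 0 ≤ ∑ j : Fin 3, ‖fderiv ℝ D p (ee j, 0)‖ ^ 2 :=
    Finset.sum_nonneg fun m _ => sq_nonneg _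
  have b2 : 0 ≤ (∑ m, p.2 m ^ 2) * ‖D p‖ ^ 2 :=
    mul_nonneg (Finset.sum_nonneg fun m _ => sq_nonneg _) (sq_nonneg _)
  have b3 : 0 ≤ |α| * C ^ 2 * (Fintype.card ι : ℝ) := by positivity
  have h9 : (∑ j : Fin 3, ‖fderiv ℝ D p (ee j, 0)‖ ^ 2) +
      |α| * C ^ 2 * Fintype.card ι * ((∑ m, p.2 m ^ 2) * ‖D p‖ ^ 2) ≤
      (1 + |α| * C ^ 2 * Fintype.card ι) *
        ((∑ j : Fin 3, ‖fderiv ℝ D p (ee j, 0)‖ ^ 2) + (∑ m, p.2 m ^ 2) * ‖D p‖ ^ 2) := by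
    nlinarith [mul_nonneg b3 b1]
  have h10 := mul_le_mul_of_nonneg_left h8 (by linarith : 0 ≤ 1 + |α| * C ^ 2 * (Fintype.card ι : ℝ))
  linarith

theorem form_close_sum_le {ι : Type} [Fintype ι] [DecidableEq ι] (ω : ι → ℝ)
    (D : E3 × (ι → ℝ) → C2) (p : E3 × (ι → ℝ)) :
    ∑ m, (‖fderiv ℝ D p (0, Pi.single m 1)‖ ^ 2 + ω m ^ 2 * p.2 m ^ 2 * ‖D p‖ ^ 2) ≤
      (1 + ∑ m, ω m ^ 2) * fn D p := by
  have hω : ∀ m, ω m ^ 2 ≤ ∑ m, ω m ^ 2 := fun m =>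
    Finset.single_le_sum (f := fun m => ω m ^ 2) (fun i _ => sq_nonneg _) (Finset.mem_univ m)
  have hω0 : 0 ≤ ∑ m, ω m ^ 2 := Finset.sum_nonneg fun m _ => sq_nonneg _
  have h1 : ∑ m, (‖fderiv ℝ D p (0, Pi.single m 1)‖ ^ 2 + ω m ^ 2 * p.2 m ^ 2 * ‖D p‖ ^ 2) ≤
      ∑ m, (1 + ∑ m, ω m ^ 2) * (‖fderiv ℝ D p (0, Pi.single m 1)‖ ^ 2 +
        p.2 m ^ 2 * ‖D p‖ ^ 2) := by
    refine Finset.sum_le_sum fun m _ => ?_
    have a1 : 0 ≤ ‖fderiv ℝ D p (0, Pi.single m 1)‖ ^ 2 := sq_nonneg _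
    have a2 : 0 ≤ p.2 m ^ 2 * ‖D p‖ ^ 2 := by positivity
    have a3 := mul_le_mul_of_nonneg_right (hω m) a2
    nlinarith [mul_nonneg hω0 a1]
  rw [← Finset.mul_sum] at h1
  refine h1.trans (mul_le_mul_of_nonneg_left ?_ (by linarith))
  unfold fn
  have b1 : 0 ≤ ∑ j : Fin 3, ‖fderiv ℝ D p (ee j, 0)‖ ^ 2 :=
    Finset.sum_nonneg fun m _ => sq_nonneg _
  have b2 : 0 ≤ ‖D p‖ ^ 2 := sq_nonneg _
  linarith

theorem form_close_fn_nonneg {ι : Type} [Fintype ι] [DecidableEq ι]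
    (D : E3 × (ι → ℝ) → C2) (p : E3 × (ι → ℝ)) : ‖D p‖ ^ 2 ≤ fn D p ∧ 0 ≤ fn D p := by
  unfold fn
  have b1 : 0 ≤ ∑ j : Fin 3, ‖fderiv ℝ D p (ee j, 0)‖ ^ 2 :=
    Finset.sum_nonneg fun m _ => sq_nonneg _
  have b2 : 0 ≤ ‖D p‖ ^ 2 := sq_nonneg _
  have b3 : 0 ≤ ∑ m, (‖fderiv ℝ D p (0, Pi.single m 1)‖ ^ 2 + p.2 m ^ 2 * ‖D p‖ ^ 2) :=
    Finset.sum_nonneg fun m _ => by positivity
  constructor <;> linarith

/-- continuity of the form -/
theorem form_close {ι : Type} [Fintype ι] [DecidableEq ι] (α : ℝ) (ω : ι → ℝ) (e : ι → E3 → E3)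
    (he : ∀ m, Continuous (e m)) (hb : ∃ C : ℝ, ∀ m x, ‖e m x‖ ≤ C)
    (Ψ : E3 × (ι → ℝ) → C2) (hΨ : ContDiff ℝ SM Ψ) (hΨc : HasCompactSupport Ψ) (δ : ℝ)
    (hδ : 0 < δ) :
    ∃ ε : ℝ, 0 < ε ∧ ∀ Φ : E3 × (ι → ℝ) → C2, ContDiff ℝ SM Φ →
      Integrable (fn (fun p => Ψ p - Φ p)) → ∫ p, fn (fun p => Ψ p - Φ p) p ≤ ε →
      |form α ω e Φ - form α ω e Ψ| ≤ δ ∧ |(∫ p, ‖Φ p‖ ^ 2) - ∫ p, ‖Ψ p‖ ^ 2| ≤ δ := by
  obtain ⟨C, hC⟩ := hb
  have hz : ∀ x, x ∉ tsupport Ψ → Ψ x = 0 ∧ fderiv ℝ Ψ x = 0 := fun x hx =>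
    ⟨image_eq_zero_of_notMem_tsupport hx, fderiv_of_notMem_tsupport ℝ hx⟩
  have hsg0 : ∀ v : E3, sg v (0 : C2) = 0 := by
    intro v
    have := sg_smul_right v 0 0
    simpa using this
  -- integrability of the pieces for Ψ
  have i0 : Integrable (fun p => ‖Ψ p‖ ^ 2) := by
    have hc : Continuous (fun p => ‖Ψ p‖ ^ 2) := hΨ.continuous.norm.pow 2
    refine hc.integrable_of_hasCompactSupport ?_
    refine HasCompactSupport.intro hΨc fun x hx => ?_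
    rw [(hz x hx).1]
    simp
  have i1 : Integrable (fun p => ‖pauli α e Ψ p‖ ^ 2) := by
    have hc : Continuous (fun p => ‖pauli α e Ψ p‖ ^ 2) := (form_close_pauli α e he hΨ).norm.pow 2
    refine hc.integrable_of_hasCompactSupport ?_
    refine HasCompactSupport.intro hΨc fun x hx => ?_
    unfold pauli
    rw [(hz x hx).1, (hz x hx).2]
    simp [hsg0]
  have i2 : Integrable (fun p : E3 × (ι → ℝ) => ∑ m, (‖fderiv ℝ Ψ p (0, Pi.single m 1)‖ ^ 2 +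
      ω m ^ 2 * p.2 m ^ 2 * ‖Ψ p‖ ^ 2)) := by
    refine (form_close_sum ω hΨ).integrable_of_hasCompactSupport ?_
    refine HasCompactSupport.intro hΨc fun x hx => ?_
    rw [(hz x hx).1, (hz x hx).2]
    simp
  obtain ⟨U0, hU0⟩ : ∃ U0, U0 = ∫ p, ‖Ψ p‖ ^ 2 := ⟨_, rfl⟩
  obtain ⟨U1, hU1⟩ : ∃ U1, U1 = ∫ p, ‖pauli α e Ψ p‖ ^ 2 := ⟨_, rfl⟩
  obtain ⟨U2, hU2⟩ : ∃ U2, U2 = ∫ p : E3 × (ι → ℝ), ∑ m, (‖fderiv ℝ Ψ p (0, Pi.single m 1)‖ ^ 2 +
      ω m ^ 2 * p.2 m ^ 2 * ‖Ψ p‖ ^ 2) := ⟨_, rfl⟩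
  have p0 : 0 ≤ U0 := by rw [hU0]; exact integral_nonneg fun p => sq_nonneg _
  have p1 : 0 ≤ U1 := by rw [hU1]; exact integral_nonneg fun p => sq_nonneg _
  have p2 : 0 ≤ U2 := by
    rw [hU2]; exact integral_nonneg fun p => Finset.sum_nonneg fun m _ => by positivity
  obtain ⟨C1, hC1⟩ : ∃ C1, C1 = 4 * (1 + |α| * C ^ 2 * (Fintype.card ι : ℝ)) := ⟨_, rfl⟩
  obtain ⟨C2', hC2⟩ : ∃ C2', C2' = 1 + ∑ m, ω m ^ 2 := ⟨_, rfl⟩
  have q1 : 0 ≤ C1 := by rw [hC1]; positivity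
  have q2 : 0 ≤ C2' := by
    rw [hC2]
    have : 0 ≤ ∑ m, ω m ^ 2 := Finset.sum_nonneg fun m _ => sq_nonneg _
    linarith
  obtain ⟨W, hW⟩ : ∃ W, W = 1 + |∑ m, ω m| := ⟨_, rfl⟩
  have hW1 : 1 ≤ W := by rw [hW]; linarith [abs_nonneg (∑ m, ω m)]
  obtain ⟨U, hU⟩ : ∃ U, U = U0 + U1 + U2 := ⟨_, rfl⟩
  obtain ⟨K, hK⟩ : ∃ K, K = 1 + C1 + C2' := ⟨_, rfl⟩
  have hU' : 0 ≤ U := by rw [hU]; positivity
  have hK' : 0 < K := by rw [hK]; positivity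
  obtain ⟨s, hs⟩ : ∃ s, s = δ / (2 * W * (U + 1)) := ⟨_, rfl⟩
  have hs0 : 0 < s := by rw [hs]; positivity
  obtain ⟨ε, hε⟩ : ∃ ε, ε = δ / (2 * W * (1 / s + 1) * K) := ⟨_, rfl⟩
  have hε0 : 0 < ε := by rw [hε]; positivity
  have hfin : W * (s * U + (1 / s + 1) * K * ε) ≤ δ := by
    have e1 : W * (s * U) ≤ δ / 2 := by
      have : W * (s * U) = (δ / 2) * (U / (U + 1)) := by
        rw [hs]; field_simp
      rw [this]
      have h3 : U / (U + 1) ≤ 1 := by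
        rw [div_le_one (by linarith)]; linarith
      nlinarith
    have e2 : W * ((1 / s + 1) * K * ε) = δ / 2 := by
      rw [hε]; field_simp
    nlinarith
  refine ⟨ε, hε0, fun Φ hΦ hint hle => ?_⟩
  have hdΨ : Differentiable ℝ Ψ := hΨ.differentiable (by simp)
  have hdΦ : Differentiable ℝ Φ := hΦ.differentiable (by simp)
  have hD : ∀ p, fderiv ℝ (fun p => Ψ p - Φ p) p = fderiv ℝ Ψ p - fderiv ℝ Φ p := fun p =>
    fderiv_fun_sub (hdΨ p) (hdΦ p)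
  -- the three estimates
  have t0 : |(∫ p, ‖Φ p‖ ^ 2) - U0| ≤ s * U0 + (1 / s + 1) * ε := by
    have := form_close_B (fun p => ‖Ψ p‖ ^ 2) (fun p => ‖Φ p‖ ^ 2) _ i0 hint
      (((hΦ.continuous.norm.pow 2 : Continuous (fun p => ‖Φ p‖ ^ 2))).aestronglyMeasurable) s (1 / s + 1) (fun p => by
        have h1 := form_close_pt (Ψ p) (Ψ p - Φ p) s hs0
        rw [sub_sub_cancel] at h1
        refine h1.trans (add_le_add le_rfl ?_)
        exact mul_le_mul_of_nonneg_left (form_close_fn_nonneg (fun p => Ψ p - Φ p) p).1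
          (by positivity))
    rw [← hU0] at this
    refine this.trans (add_le_add le_rfl ?_)
    exact mul_le_mul_of_nonneg_left hle (by positivity)
  have t1 : |(∫ p, ‖pauli α e Φ p‖ ^ 2) - U1| ≤ s * U1 + (1 / s + 1) * C1 * ε := by
    have := form_close_B (fun p => ‖pauli α e Ψ p‖ ^ 2) (fun p => ‖pauli α e Φ p‖ ^ 2) _ i1 hint
      (((form_close_pauli α e he hΦ).norm.pow 2 :
        Continuous (fun p => ‖pauli α e Φ p‖ ^ 2)).aestronglyMeasurable) s ((1 / s + 1) * C1)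
      (fun p => by
        have h0 : pauli α e (fun p => Ψ p - Φ p) p = pauli α e Ψ p - pauli α e Φ p := by
          have hsub : ∀ (v : E3) (a b : C2), sg v (a - b) = sg v a - sg v b := by
            intro v a b
            have e1 := sg_add_right v (a - b) b
            rw [sub_add_cancel] at e1
            rw [e1]; abel
          unfold pauli
          rw [hD p]
          simp only [sub_apply, hsub, smul_sub, Finset.sum_sub_distrib]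
          abel
        have h1 := form_close_pt (pauli α e Ψ p) (pauli α e (fun p => Ψ p - Φ p) p) s hs0
        have h2 : pauli α e Ψ p - pauli α e (fun p => Ψ p - Φ p) p = pauli α e Φ p := by
          rw [h0]; abel
        rw [h2] at h1
        refine h1.trans (add_le_add le_rfl ?_)
        rw [mul_assoc]
        refine mul_le_mul_of_nonneg_left ?_ (by positivity)
        rw [hC1]
        exact form_close_pauli_le α e C hC (fun p => Ψ p - Φ p) p)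
    rw [← hU1] at this
    refine this.trans (add_le_add le_rfl ?_)
    exact mul_le_mul_of_nonneg_left hle (by positivity)
  have t2 : |(∫ p : E3 × (ι → ℝ), ∑ m, (‖fderiv ℝ Φ p (0, Pi.single m 1)‖ ^ 2 +
      ω m ^ 2 * p.2 m ^ 2 * ‖Φ p‖ ^ 2)) - U2| ≤ s * U2 + (1 / s + 1) * C2' * ε := by
    have := form_close_B (fun p : E3 × (ι → ℝ) => ∑ m, (‖fderiv ℝ Ψ p (0, Pi.single m 1)‖ ^ 2 +
      ω m ^ 2 * p.2 m ^ 2 * ‖Ψ p‖ ^ 2)) (fun p : E3 × (ι → ℝ) =>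
      ∑ m, (‖fderiv ℝ Φ p (0, Pi.single m 1)‖ ^ 2 +
      ω m ^ 2 * p.2 m ^ 2 * ‖Φ p‖ ^ 2)) _ i2 hint
      ((form_close_sum ω hΦ).aestronglyMeasurable) s ((1 / s + 1) * C2')
      (fun p => by
        have h3 : ∀ m, |(‖fderiv ℝ Φ p (0, Pi.single m 1)‖ ^ 2 +
            ω m ^ 2 * p.2 m ^ 2 * ‖Φ p‖ ^ 2) - (‖fderiv ℝ Ψ p (0, Pi.single m 1)‖ ^ 2 +
            ω m ^ 2 * p.2 m ^ 2 * ‖Ψ p‖ ^ 2)| ≤
            s * (‖fderiv ℝ Ψ p (0, Pi.single m 1)‖ ^ 2 +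
            ω m ^ 2 * p.2 m ^ 2 * ‖Ψ p‖ ^ 2) + (1 / s + 1) *
            (‖fderiv ℝ (fun p => Ψ p - Φ p) p (0, Pi.single m 1)‖ ^ 2 +
            ω m ^ 2 * p.2 m ^ 2 * ‖(fun p => Ψ p - Φ p) p‖ ^ 2) := by
          intro m
          have g1 := form_close_pt (fderiv ℝ Ψ p (0, Pi.single m 1))
            (fderiv ℝ (fun p => Ψ p - Φ p) p (0, Pi.single m 1)) s hs0
          have g2 : fderiv ℝ Ψ p (0, Pi.single m 1) -
              fderiv ℝ (fun p => Ψ p - Φ p) p (0, Pi.single m 1) =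
              fderiv ℝ Φ p (0, Pi.single m 1) := by
            rw [hD p, sub_apply]; abel
          rw [g2] at g1
          have g3 := form_close_pt (Ψ p) (Ψ p - Φ p) s hs0
          rw [sub_sub_cancel] at g3
          have g4 : 0 ≤ ω m ^ 2 * p.2 m ^ 2 := by positivity
          have g5 := mul_le_mul_of_nonneg_left g3 g4
          have g6 : |ω m ^ 2 * p.2 m ^ 2 * (‖Φ p‖ ^ 2 - ‖Ψ p‖ ^ 2)| ≤
              ω m ^ 2 * p.2 m ^ 2 * (s * ‖Ψ p‖ ^ 2 + (1 / s + 1) * ‖Ψ p - Φ p‖ ^ 2) := by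
            rw [abs_mul, abs_of_nonneg g4]
            exact g5
          have g7 : (‖fderiv ℝ Φ p (0, Pi.single m 1)‖ ^ 2 +
            ω m ^ 2 * p.2 m ^ 2 * ‖Φ p‖ ^ 2) - (‖fderiv ℝ Ψ p (0, Pi.single m 1)‖ ^ 2 +
            ω m ^ 2 * p.2 m ^ 2 * ‖Ψ p‖ ^ 2) = (‖fderiv ℝ Φ p (0, Pi.single m 1)‖ ^ 2 -
            ‖fderiv ℝ Ψ p (0, Pi.single m 1)‖ ^ 2) +
            ω m ^ 2 * p.2 m ^ 2 * (‖Φ p‖ ^ 2 - ‖Ψ p‖ ^ 2) := by ring
          rw [g7]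
          refine (abs_add_le _ _).trans ((add_le_add g1 g6).trans (le_of_eq ?_))
          ring
        rw [← Finset.sum_sub_distrib]
        refine (Finset.abs_sum_le_sum_abs _ _).trans ((Finset.sum_le_sum fun m _ => h3 m).trans ?_)
        rw [Finset.sum_add_distrib, ← Finset.mul_sum, ← Finset.mul_sum]
        refine add_le_add le_rfl ?_
        rw [mul_assoc]
        refine mul_le_mul_of_nonneg_left ?_ (by positivity)
        rw [hC2]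
        exact form_close_sum_le ω (fun p => Ψ p - Φ p) p)
    rw [← hU2] at this
    refine this.trans (add_le_add le_rfl ?_)
    exact mul_le_mul_of_nonneg_left hle (by positivity)
  have hsε : 0 < 1 / s + 1 := by positivity
  have n0 : 0 ≤ s * U0 + (1 / s + 1) * ε := by positivity
  have n1 : 0 ≤ s * U1 + (1 / s + 1) * C1 * ε := by positivity
  have n2 : 0 ≤ s * U2 + (1 / s + 1) * C2' * ε := by positivity
  have htot : s * U + (1 / s + 1) * K * ε = (s * U0 + (1 / s + 1) * ε) +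
      (s * U1 + (1 / s + 1) * C1 * ε) + (s * U2 + (1 / s + 1) * C2' * ε) := by
    rw [hU, hK]; ring
  constructor
  · unfold form
    rw [← hU0, ← hU1, ← hU2]
    obtain ⟨X0, hX0⟩ : ∃ X0, X0 = ∫ p, ‖Φ p‖ ^ 2 := ⟨_, rfl⟩
    obtain ⟨X1, hX1⟩ : ∃ X1, X1 = ∫ p, ‖pauli α e Φ p‖ ^ 2 := ⟨_, rfl⟩
    obtain ⟨X2, hX2⟩ : ∃ X2, X2 = ∫ p : E3 × (ι → ℝ),
      ∑ m, (‖fderiv ℝ Φ p (0, Pi.single m 1)‖ ^ 2 +
      ω m ^ 2 * p.2 m ^ 2 * ‖Φ p‖ ^ 2) := ⟨_, rfl⟩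
    rw [← hX0] at t0
    rw [← hX1] at t1
    rw [← hX2] at t2
    rw [← hX0, ← hX1, ← hX2]
    have e1 : 1 / 2 * X1 + 1 / 2 * X2 - 1 / 2 * (∑ m, ω m) * X0 -
        (1 / 2 * U1 + 1 / 2 * U2 - 1 / 2 * (∑ m, ω m) * U0) =
        1 / 2 * (X1 - U1) + 1 / 2 * (X2 - U2) - 1 / 2 * ((∑ m, ω m) * (X0 - U0)) := by ring
    rw [e1]
    have e2 : |(∑ m, ω m) * (X0 - U0)| ≤ W * (s * U0 + (1 / s + 1) * ε) := by
      rw [abs_mul]
      exact mul_le_mul (by rw [hW]; linarith) t0 (abs_nonneg _) (by linarith)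
    have e3 : s * U1 + (1 / s + 1) * C1 * ε ≤ W * (s * U1 + (1 / s + 1) * C1 * ε) := by
      nlinarith
    have e4 : s * U2 + (1 / s + 1) * C2' * ε ≤ W * (s * U2 + (1 / s + 1) * C2' * ε) := by
      nlinarith
    have e5 : 0 ≤ W * (s * U0 + (1 / s + 1) * ε) := by positivity
    have e6 : W * (s * U + (1 / s + 1) * K * ε) = W * (s * U0 + (1 / s + 1) * ε) +
      W * (s * U1 + (1 / s + 1) * C1 * ε) + W * (s * U2 + (1 / s + 1) * C2' * ε) := by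
      rw [htot]; ring
    rw [abs_le] at t1 t2 e2 ⊢
    constructor <;> linarith [t1.1, t1.2, t2.1, t2.2, e2.1, e2.2]
  · rw [← hU0]
    refine t0.trans ?_
    have : s * U + (1 / s + 1) * K * ε ≤ W * (s * U + (1 / s + 1) * K * ε) := by
      have h0 : 0 ≤ s * U + (1 / s + 1) * K * ε := by rw [htot]; positivity
      nlinarith
    linarith

end Pool.Agent.Helper985.PS
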