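import Pool.Agent.Helper985.PS.Defs

set_option autoImplicit false

open MeasureTheory
open scoped Topology

namespace Pool.Agent.Helper985.PS


/-- representative in the cube of a point of the torus -/
noncomputable def fsRep (t : UnitAddTorus (Fin 3)) : E3 :=
  WithLp.toLp 2 (fun i => ((AddCircle.equivIoc (1 : ℝ) (-1/2) (t i)).1 : ℝ))

/-- the periodised function -/
noncomputable def fsPer (f : E3 → ℝ) (l : ℝ) (t : UnitAddTorus (Fin 3)) : ℂ :=
  ((f (l • fsRep t) : ℝ) : ℂ)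

theorem fs_rep_abs (t : UnitAddTorus (Fin 3)) (i : Fin 3) : |fsRep t i| = ‖t i‖ := by
  have h1 := (AddCircle.equivIoc (1 : ℝ) (-1/2) (t i)).2
  have h2 : ((fsRep t i : ℝ) : UnitAddCircle) = t i := by
    show (((AddCircle.equivIoc (1 : ℝ) (-1/2) (t i)).1 : ℝ) : AddCircle (1 : ℝ)) = t i
    exact AddCircle.coe_equivIoc (p := (1 : ℝ)) (a := -1/2) (y := t i)
  have h3 : |fsRep t i| ≤ |(1 : ℝ)| / 2 := by
    have h4 : fsRep t i = ((AddCircle.equivIoc (1 : ℝ) (-1/2) (t i)).1 : ℝ) := rfl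
    rw [h4, abs_le, abs_one]
    constructor
    · linarith [h1.1]
    · linarith [h1.2]
  have h5 := (AddCircle.norm_coe_eq_abs_iff (p := (1 : ℝ)) one_ne_zero (x := fsRep t i)).2 h3
  rw [← h5, h2]

theorem fs_norm_ge (v : E3) (i : Fin 3) : |v i| ≤ ‖v‖ := by
  have := PiLp.norm_apply_le v i
  rwa [Real.norm_eq_abs] at this

theorem fs_zero (f : E3 → ℝ) (hs : ∀ y : E3, 4 ≤ ‖y‖ → f y = 0) (l : ℝ) (hl : 8 ≤ l)
    (t : UnitAddTorus (Fin 3)) (i : Fin 3) (ht : 1 / 2 ≤ ‖t i‖) : fsPer f l t = 0 := by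
  unfold fsPer
  rw [hs, Complex.ofReal_zero]
  have h1 := fs_norm_ge (l • fsRep t) i
  have h2 : (l • fsRep t) i = l * fsRep t i := rfl
  rw [h2, abs_mul, fs_rep_abs, abs_of_nonneg (by linarith : (0 : ℝ) ≤ l)] at h1
  nlinarith

theorem fs_rep_coe (x : Fin 3 → ℝ) (hx : ∀ i, x i ∈ Set.Ioc (-1/2 : ℝ) (-1/2 + 1)) :
    fsRep (fun i => ((x i : ℝ) : UnitAddCircle)) = WithLp.toLp 2 x := by
  unfold fsRep
  congr 1
  funext i
  rw [AddCircle.equivIoc_coe_eq (hx i)]

theorem fs_per_coe (f : E3 → ℝ) (hs : ∀ y : E3, 4 ≤ ‖y‖ → f y = 0) (l : ℝ) (hl : 8 ≤ l)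
    (x : Fin 3 → ℝ) (hx : ∀ i, |x i| ≤ 1 / 2) :
    fsPer f l (fun i => ((x i : ℝ) : UnitAddCircle)) = ((f (l • WithLp.toLp 2 x) : ℝ) : ℂ) := by
  by_cases h : ∃ i, |x i| = 1 / 2
  · obtain ⟨i, hi⟩ := h
    have h1 : ‖((x i : ℝ) : UnitAddCircle)‖ = |x i| :=
      (AddCircle.norm_coe_eq_abs_iff (p := (1 : ℝ)) one_ne_zero (x := x i)).2
        (by rw [abs_one]; exact hx i)
    rw [fs_zero f hs l hl _ i (by rw [h1, hi])]
    rw [hs, Complex.ofReal_zero]
    have h3 := fs_norm_ge (l • (WithLp.toLp 2 x : E3)) i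
    have h2 : (l • (WithLp.toLp 2 x : E3)) i = l * x i := rfl
    rw [h2, abs_mul, hi, abs_of_nonneg (by linarith : (0 : ℝ) ≤ l)] at h3
    linarith
  · push Not at h
    unfold fsPer
    rw [fs_rep_coe]
    intro i
    have h1 := lt_of_le_of_ne (hx i) (h i)
    rw [abs_lt] at h1
    constructor <;> linarith [h1.1, h1.2]

theorem fs_cs (f : E3 → ℝ) (hs : ∀ y : E3, 4 ≤ ‖y‖ → f y = 0) : HasCompactSupport f := by
  apply HasCompactSupport.of_support_subset_isCompact (isCompact_closedBall (0 : E3) 4)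
  intro y hy
  rw [Metric.mem_closedBall, dist_zero_right]
  by_contra h
  exact hy (hs y (not_le.1 h).le)

theorem fs_cont (f : E3 → ℝ) (hf : Continuous f) (hs : ∀ y : E3, 4 ≤ ‖y‖ → f y = 0) (l : ℝ)
    (hl : 8 ≤ l) : Continuous (fsPer f l) := by
  rw [continuous_iff_continuousAt]
  intro t
  by_cases h : ∃ i, t i = ((-1/2 : ℝ) : UnitAddCircle)
  · obtain ⟨i, hi⟩ := h
    have hti : ‖t i‖ = 1 / 2 := by
      rw [hi, (AddCircle.norm_coe_eq_abs_iff (p := (1 : ℝ)) one_ne_zero (x := (-1/2 : ℝ))).2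
        (by norm_num [abs_of_nonneg, abs_div])]
      norm_num [abs_div]
    have h0 : fsPer f l t = 0 := fs_zero f hs l hl t i hti.ge
    have huc := (fs_cs f hs).uniformContinuous_of_continuous hf
    rw [ContinuousAt, h0, Metric.tendsto_nhds]
    intro ε hε
    obtain ⟨δ, hδ, hδ'⟩ := Metric.uniformContinuous_iff.1 huc ε hε
    have hc : Continuous (fun t' : UnitAddTorus (Fin 3) => ‖t' i‖) :=
      (continuous_apply i).norm
    have hlim := hc.tendsto t
    rw [hti] at hlim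
    have hη : 0 < min δ 1 / l := div_pos (lt_min hδ one_pos) (by linarith)
    filter_upwards [hlim.eventually (lt_mem_nhds (show 1 / 2 - min δ 1 / l < 1 / 2 by linarith))]
      with t' ht'
    rw [dist_zero_right]
    unfold fsPer
    rw [Complex.norm_real]
    set y : E3 := l • fsRep t' with hy
    by_cases hy4 : 4 ≤ ‖y‖
    · rw [hs y hy4, norm_zero]
      exact hε
    · push Not at hy4
      have h1 := fs_norm_ge y i
      have h2 : y i = l * fsRep t' i := rfl
      rw [h2, abs_mul, fs_rep_abs, abs_of_nonneg (by linarith : (0 : ℝ) ≤ l)] at h1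
      have hl0 : 0 < l := by linarith
      have h3 : l * (1 / 2 - min δ 1 / l) < l * ‖t' i‖ := mul_lt_mul_of_pos_left ht' hl0
      have h4 : l * (1 / 2 - min δ 1 / l) = l / 2 - min δ 1 := by
        field_simp
      have h5 : 4 - min δ 1 < ‖y‖ := by linarith
      have h6 : min δ 1 ≤ 1 := min_le_right _ _
      have h7 : min δ 1 ≤ δ := min_le_left _ _
      have hy0 : 0 < ‖y‖ := by linarith
      set z : E3 := (4 / ‖y‖) • y with hz
      have hz1 : ‖z‖ = 4 := by
        rw [hz, norm_smul, Real.norm_of_nonneg (by positivity)]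
        field_simp
      have hd : dist y z < δ := by
        rw [dist_comm, dist_eq_norm]
        have : z - y = (4 / ‖y‖ - 1) • y := by
          rw [hz, sub_smul, one_smul]
        rw [this, norm_smul, Real.norm_of_nonneg]
        · have : (4 / ‖y‖ - 1) * ‖y‖ = 4 - ‖y‖ := by field_simp
          rw [this]
          linarith
        · rw [sub_nonneg, one_le_div hy0]
          exact hy4.le
      have h8 := hδ' hd
      rw [hs z hz1.ge, dist_zero_right] at h8
      exact h8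
  · push Not at h
    have h1 : ContinuousAt fsRep t := by
      unfold fsRep
      apply (PiLp.continuous_toLp 2 (fun _ : Fin 3 => ℝ)).continuousAt.comp
      rw [continuousAt_pi]
      intro i
      have h2 := AddCircle.continuousAt_equivIoc (1 : ℝ) (-1/2) (x := t i) (h i)
      have h2' : ContinuousAt (fun t : UnitAddTorus (Fin 3) =>
          AddCircle.equivIoc (1 : ℝ) (-1/2) (t i)) t :=
        ContinuousAt.comp (f := fun t : UnitAddTorus (Fin 3) => t i) h2 (continuousAt_apply i t)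
      exact continuous_subtype_val.continuousAt.comp h2'
    have h3 : ContinuousAt (fun t => f (l • fsRep t)) t :=
      hf.continuousAt.comp (h1.const_smul l)
    exact Complex.continuous_ofReal.continuousAt.comp h3


theorem fs_mf (n : Fin 3 → ℤ) (x : Fin 3 → ℝ) :
    UnitAddTorus.mFourier n (fun i => ((x i : ℝ) : UnitAddCircle))
      = Complex.exp (2 * Real.pi * Complex.I * ∑ i, (n i : ℂ) * (x i : ℂ)) := by
  show ∏ i : Fin 3, fourier (n i) ((x i : ℝ) : UnitAddCircle) = _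
  rw [Finset.mul_sum, Complex.exp_sum]
  refine Finset.prod_congr rfl fun i _ => ?_
  rw [fourier_coe_apply]
  congr 1
  simp only [Complex.ofReal_one, div_one]
  ring

open scoped FourierTransform in
theorem fs_coeff (f : E3 → ℝ) (hs : ∀ y : E3, 4 ≤ ‖y‖ → f y = 0) (l : ℝ)
    (hl : 8 ≤ l) (n : Fin 3 → ℤ) : UnitAddTorus.mFourierCoeff (fsPer f l) n
      = ((1 / l ^ 3 : ℝ) : ℂ) *
        𝓕 (fun y : E3 => ((f y : ℝ) : ℂ)) (WithLp.toLp 2 (fun i => (n i : ℝ) / l)) := by
  have hl0 : 0 < l := by linarith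
  rw [UnitAddTorus.mFourierCoeff_eq_integral _ n (fun _ => -1/2)]
  set w : E3 := WithLp.toLp 2 (fun i => (n i : ℝ) / l) with hw
  set h : E3 → ℂ := fun z => Complex.exp (↑(-2 * Real.pi * inner ℝ z w) * Complex.I) •
    ((f z : ℝ) : ℂ) with hh
  have e1 : ∫ (x : Fin 3 → ℝ) in {x : Fin 3 → ℝ | ∀ i, x i ∈ Set.Ioc (-1/2 : ℝ) (-1/2 + 1)},
      UnitAddTorus.mFourier (-n) (fun i => ((x i : ℝ) : UnitAddCircle)) •
        fsPer f l (fun i => ((x i : ℝ) : UnitAddCircle))
      = ∫ (x : Fin 3 → ℝ) in {x : Fin 3 → ℝ | ∀ i, x i ∈ Set.Ioc (-1/2 : ℝ) (-1/2 + 1)},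
        h (l • WithLp.toLp 2 x) := by
    apply setIntegral_congr_fun
    · exact MeasurableSet.univ_pi' (fun i => measurableSet_Ioc)
    · intro x hx
      have hx' : ∀ i, |x i| ≤ 1 / 2 := by
        intro i
        rw [abs_le]
        constructor <;> linarith [(hx i).1, (hx i).2]
      simp only
      rw [fs_per_coe f hs l hl x hx', fs_mf, hh]
      simp only
      congr 2
      have : inner ℝ (l • (WithLp.toLp 2 x : E3)) w = ∑ i, (n i : ℝ) * x i := by
        rw [PiLp.inner_apply]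
        refine Finset.sum_congr rfl fun i _ => ?_
        show inner ℝ (l * x i) ((n i : ℝ) / l) = _
        simp only [RCLike.inner_apply, conj_trivial]
        field_simp
      rw [this]
      push_cast
      simp only [Pi.neg_apply, Int.cast_neg, neg_mul, Finset.sum_neg_distrib]
      ring
  rw [e1]
  rw [setIntegral_eq_integral_of_forall_compl_eq_zero]
  · have e2 := (PiLp.volume_preserving_toLp (Fin 3)).integral_comp
      (MeasurableEquiv.toLp 2 (Fin 3 → ℝ)).measurableEmbedding (fun y : E3 => h (l • y))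
    rw [e2, Measure.integral_comp_smul, Real.fourier_eq']
    rw [finrank_euclideanSpace_fin, abs_of_pos (by positivity)]
    rw [hh, Complex.real_smul, one_div]
  · intro x hx
    have : ∃ i, ¬ (x i ∈ Set.Ioc (-1/2 : ℝ) (-1/2 + 1)) := by
      by_contra hcon
      push Not at hcon
      exact hx hcon
    obtain ⟨i, hi⟩ := this
    have hxi : 1 / 2 ≤ |x i| := by
      by_contra hlt
      push Not at hlt
      rw [abs_lt] at hlt
      exact hi ⟨by linarith [hlt.1], by linarith [hlt.2]⟩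
    rw [hh]
    simp only
    rw [hs, Complex.ofReal_zero, smul_zero]
    have h3 := fs_norm_ge (l • (WithLp.toLp 2 x : E3)) i
    have h2 : (l • (WithLp.toLp 2 x : E3)) i = l * x i := rfl
    rw [h2, abs_mul, abs_of_nonneg hl0.le] at h3
    nlinarith

open scoped FourierTransform SchwartzMap in
theorem fs_decay (f : E3 → ℝ) (hf : ContDiff ℝ SM f) (hs : ∀ y : E3, 4 ≤ ‖y‖ → f y = 0) :
    ∃ C : ℝ, 0 < C ∧ ∀ w : E3,
      ‖𝓕 (fun y : E3 => ((f y : ℝ) : ℂ)) w‖ ≤ C * ((1 + ‖w‖) ^ 20)⁻¹ := by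
  have h1 : HasCompactSupport (fun y : E3 => ((f y : ℝ) : ℂ)) :=
    (fs_cs f hs).comp_left Complex.ofReal_zero
  have h2 : ContDiff ℝ SM (fun y : E3 => ((f y : ℝ) : ℂ)) := Complex.ofRealCLM.contDiff.comp hf
  set g : 𝓢(E3, ℂ) := h1.toSchwartzMap h2 with hg
  have key := fun w : E3 => SchwartzMap.one_add_le_sup_seminorm_apply (𝕜 := ℝ) (m := (20, 0))
    (k := 20) (n := 0) le_rfl le_rfl (𝓕 g) w
  set K := 2 ^ 20 * (Finset.Iic ((20, 0) : ℕ × ℕ)).sup
    (fun m => SchwartzMap.seminorm ℝ m.1 m.2) (𝓕 g) with hK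
  refine ⟨|K| + 1, by positivity, fun w => ?_⟩
  have h3 := key w
  rw [norm_iteratedFDeriv_zero] at h3
  have h4 : (𝓕 g) w = 𝓕 (fun y : E3 => ((f y : ℝ) : ℂ)) w := by
    rw [SchwartzMap.fourier_coe]
    rfl
  rw [h4] at h3
  have h5 : 0 < (1 + ‖w‖) ^ 20 := by positivity
  rw [← div_eq_mul_inv, le_div_iff₀ h5, mul_comm]
  exact h3.trans ((le_abs_self _).trans (by linarith))


theorem fs_wv (l : ℝ) (n : Fin 3 → ℤ) :
    waveVector l n = (2 * Real.pi) • (WithLp.toLp 2 (fun i => (n i : ℝ) / l) : E3) := by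
  ext i
  show (2 * Real.pi / l) * (n i : ℝ) = (2 * Real.pi) * ((n i : ℝ) / l)
  ring

theorem fs_sum1 : Summable (fun m : ℤ => ((1 + |(m : ℝ)|) ^ 2)⁻¹) := by
  have h : Summable (fun n : ℕ => ((1 + (n : ℝ)) ^ 2)⁻¹) := by
    have h1 := (summable_nat_add_iff 1).2 (Real.summable_one_div_nat_pow.2 (by norm_num : 1 < 2))
    refine h1.congr fun n => ?_
    push_cast
    rw [one_div, add_comm]
  apply Summable.of_nat_of_neg
  · refine h.congr fun n => ?_
    simp
  · refine h.congr fun n => ?_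
    simp

theorem fs_sum3 (l : ℝ) (hl : 8 ≤ l) :
    Summable (fun n : Fin 3 → ℤ => ((1 + ‖waveVector l n‖) ^ 20)⁻¹) := by
  have hl0 : 0 < l := by linarith
  set δ : ℝ := min 1 (2 * Real.pi / l) with hδ
  have hδ0 : 0 < δ := lt_min one_pos (by positivity)
  set a : ℤ → ℝ := fun m => ((1 + |(m : ℝ)|) ^ 2)⁻¹ with ha
  have hsum : Summable (fun p : ℤ × ℤ × ℤ => a p.1 * (a p.2.1 * a p.2.2)) := by
    have h0 : ∀ m, 0 ≤ a m := fun m => by rw [ha]; positivity
    have h2 : Summable (fun p : ℤ × ℤ => a p.1 * a p.2) :=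
      fs_sum1.mul_of_nonneg fs_sum1 h0 h0
    exact fs_sum1.mul_of_nonneg h2 h0 (fun p => mul_nonneg (h0 _) (h0 _))
  set e : (Fin 3 → ℤ) → ℤ × ℤ × ℤ := fun n => (n 0, n 1, n 2) with he
  have hinj : Function.Injective e := by
    intro n m h
    rw [he] at h
    simp only [Prod.mk.injEq] at h
    funext i
    fin_cases i
    · exact h.1
    · exact h.2.1
    · exact h.2.2
  have h3 := (hsum.comp_injective hinj).mul_left ((δ ^ 6)⁻¹)
  refine Summable.of_nonneg_of_le (fun n => by positivity) (fun n => ?_) h3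
  have hb : ∀ i, δ * (1 + |(n i : ℝ)|) ≤ 1 + ‖waveVector l n‖ := by
    intro i
    have h1 := fs_norm_ge (waveVector l n) i
    have h2 : (waveVector l n) i = (2 * Real.pi / l) * (n i : ℝ) := rfl
    rw [h2, abs_mul, abs_of_pos (by positivity)] at h1
    have h4 : δ ≤ 1 := min_le_left _ _
    have h5 : δ ≤ 2 * Real.pi / l := min_le_right _ _
    have h6 : δ * |(n i : ℝ)| ≤ (2 * Real.pi / l) * |(n i : ℝ)| :=
      mul_le_mul_of_nonneg_right h5 (abs_nonneg _)
    rw [mul_add, mul_one]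
    linarith
  set N : ℝ := 1 + ‖waveVector l n‖ with hN
  have hN1 : 1 ≤ N := by
    rw [hN]
    linarith [norm_nonneg (waveVector l n)]
  have hN0 : 0 < N := by linarith
  have hpos : ∀ i, 0 < δ * (1 + |(n i : ℝ)|) := fun i => by positivity
  have h7 : (δ * (1 + |(n 0 : ℝ)|)) ^ 2 * ((δ * (1 + |(n 1 : ℝ)|)) ^ 2 *
      (δ * (1 + |(n 2 : ℝ)|)) ^ 2) ≤ N ^ 2 * (N ^ 2 * N ^ 2) := by
    have g : ∀ i, (δ * (1 + |(n i : ℝ)|)) ^ 2 ≤ N ^ 2 := fun i =>
      pow_le_pow_left₀ (hpos i).le (hb i) 2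
    exact mul_le_mul (g 0) (mul_le_mul (g 1) (g 2) (by positivity) (by positivity))
      (by positivity) (by positivity)
  have h8 : N ^ 2 * (N ^ 2 * N ^ 2) ≤ N ^ 20 := by
    have : N ^ 2 * (N ^ 2 * N ^ 2) = N ^ 6 := by ring
    rw [this]
    exact pow_le_pow_right₀ hN1 (by norm_num)
  have h9 := inv_anti₀ (by positivity) (h7.trans h8)
  refine h9.trans (le_of_eq ?_)
  simp only [Function.comp, ha, he]
  rw [← mul_inv, ← mul_inv, ← mul_inv]
  congr 1
  ring

/-- Fourier series of a smooth function supported in the box -/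
theorem fourier_series (f : E3 → ℝ) (hf : ContDiff ℝ SM f) (hs : ∀ y : E3, 4 ≤ ‖y‖ → f y = 0) :
    ∃ C : ℝ, 0 < C ∧ ∀ l : ℝ, 8 ≤ l → ∃ c : (Fin 3 → ℤ) → ℂ,
      (∀ n, ‖c n‖ ≤ C / l ^ 3 * ((1 + ‖waveVector l n‖) ^ 20)⁻¹) ∧
      (∀ n, c (-n) = starRingEnd ℂ (c n)) ∧
      (∀ y : E3, ‖y‖ ≤ 4 → HasSum (fun n => c n * Complex.exp (Complex.I * ((inner ℝ (waveVector l n) y : ℝ) : ℂ)))
        ((f y : ℝ) : ℂ)) := by
  obtain ⟨C, hC, hdec⟩ := fs_decay f hf hs
  refine ⟨(2 * Real.pi) ^ 20 * C, by positivity, fun l hl => ?_⟩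
  have hl0 : 0 < l := by linarith
  have hbound : ∀ n, ‖UnitAddTorus.mFourierCoeff (fsPer f l) n‖ ≤
      (2 * Real.pi) ^ 20 * C / l ^ 3 * ((1 + ‖waveVector l n‖) ^ 20)⁻¹ := by
    intro n
    rw [fs_coeff f hs l hl n, norm_mul, Complex.norm_real, Real.norm_of_nonneg (by positivity)]
    set w : E3 := WithLp.toLp 2 (fun i => (n i : ℝ) / l) with hw
    have h1 := hdec w
    have h2 : ‖waveVector l n‖ = 2 * Real.pi * ‖w‖ := by
      rw [fs_wv l, norm_smul, Real.norm_of_nonneg (by positivity)]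
    have h3 : ((1 + ‖w‖) ^ 20)⁻¹ ≤ (2 * Real.pi) ^ 20 * ((1 + ‖waveVector l n‖) ^ 20)⁻¹ := by
      have hp : 1 ≤ 2 * Real.pi := by linarith [Real.pi_gt_three]
      have h4 : 1 + ‖waveVector l n‖ ≤ 2 * Real.pi * (1 + ‖w‖) := by
        rw [h2]
        nlinarith [norm_nonneg w]
      have h5 : (1 + ‖waveVector l n‖) ^ 20 ≤ (2 * Real.pi) ^ 20 * (1 + ‖w‖) ^ 20 := by
        rw [← mul_pow]
        exact pow_le_pow_left₀ (by positivity) h4 20
      rw [← div_eq_mul_inv, inv_eq_one_div, div_le_div_iff₀ (by positivity) (by positivity)]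
      linarith
    calc 1 / l ^ 3 * ‖FourierTransform.fourier (fun y : E3 => ((f y : ℝ) : ℂ)) w‖
        ≤ 1 / l ^ 3 * (C * ((2 * Real.pi) ^ 20 * ((1 + ‖waveVector l n‖) ^ 20)⁻¹)) := by
          refine mul_le_mul_of_nonneg_left (h1.trans ?_) (by positivity)
          exact mul_le_mul_of_nonneg_left h3 hC.le
      _ = _ := by ring
  refine ⟨UnitAddTorus.mFourierCoeff (fsPer f l), hbound, ?_, ?_⟩
  · intro n
    unfold UnitAddTorus.mFourierCoeff
    rw [← integral_conj]
    refine integral_congr_ae (Filter.Eventually.of_forall fun t => ?_)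
    simp only [smul_eq_mul, map_mul, UnitAddTorus.mFourier_neg, neg_neg, Complex.conj_conj]
    congr 1
    unfold fsPer
    rw [Complex.conj_ofReal]
  · intro y hy
    set F : C(UnitAddTorus (Fin 3), ℂ) := ⟨fsPer f l, fs_cont f hf.continuous hs l hl⟩ with hF
    have hsm : Summable (UnitAddTorus.mFourierCoeff F) := by
      refine Summable.of_norm_bounded ((fs_sum3 l hl).mul_left ((2 * Real.pi) ^ 20 * C / l ^ 3)) ?_
      exact hbound
    set x : Fin 3 → ℝ := fun i => y i / l with hx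
    have h1 := UnitAddTorus.hasSum_mFourier_series_apply_of_summable hsm
      (fun i => ((x i : ℝ) : UnitAddCircle))
    have hx2 : ∀ i, |x i| ≤ 1 / 2 := by
      intro i
      have h2 := fs_norm_ge y i
      rw [hx]
      simp only
      rw [abs_div, abs_of_pos hl0, div_le_iff₀ hl0]
      linarith
    have h3 : F (fun i => ((x i : ℝ) : UnitAddCircle)) = ((f y : ℝ) : ℂ) := by
      show fsPer f l (fun i => ((x i : ℝ) : UnitAddCircle)) = _
      rw [fs_per_coe f hs l hl x hx2]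
      congr 2
      ext i
      show l * (y i / l) = y i
      field_simp
    rw [h3] at h1
    convert h1 using 1
    funext n
    rw [smul_eq_mul, fs_mf]
    have h4 : inner ℝ (waveVector l n) y = 2 * Real.pi * ∑ i, (n i : ℝ) * x i := by
      rw [PiLp.inner_apply, Finset.mul_sum]
      refine Finset.sum_congr rfl fun i _ => ?_
      show inner ℝ ((2 * Real.pi / l) * (n i : ℝ)) (y i) = _
      simp only [RCLike.inner_apply, conj_trivial]
      rw [hx]
      ring
    rw [h4]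
    congr 2
    push_cast
    ring

end Pool.Agent.Helper985.PS
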