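import Pool.Agent.Helper985.PS.Defs

set_option autoImplicit false

open MeasureTheory
open scoped Topology

namespace Pool.Agent.Helper985.PS


theorem trace_ineq {ι : Type} [Fintype ι] [DecidableEq ι] (ω : ι → ℝ) (hω : ∀ m, 0 < ω m)
    (T : Matrix ι ι ℝ) (hT : T.PosSemidef) :
    (Matrix.diagonal ω + T).PosDef ∧
    ∑ m, ω m ^ 2 * (Matrix.diagonal ω + T)⁻¹ m m ≤ ∑ m, ω m := by
  have hD : (Matrix.diagonal ω).PosDef := Matrix.PosDef.diagonal hω
  have hPD : (Matrix.diagonal ω + T).PosDef := hD.add_posSemidef hT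
  refine ⟨hPD, Finset.sum_le_sum fun m _ => ?_⟩
  have hdet : IsUnit (Matrix.diagonal ω + T).det := hPD.det_pos.ne'.isUnit
  obtain ⟨x, hx⟩ : ∃ x : ι → ℝ, x = (Matrix.diagonal ω + T)⁻¹.mulVec (Pi.single m 1) := ⟨_, rfl⟩
  have hxm : x m = (Matrix.diagonal ω + T)⁻¹ m m := by
    rw [hx]; simp
  have hΓx : (Matrix.diagonal ω + T).mulVec x = Pi.single m 1 := by
    rw [hx, Matrix.mulVec_mulVec, Matrix.mul_nonsing_inv _ hdet, Matrix.one_mulVec]
  have h1 : dotProduct x ((Matrix.diagonal ω + T).mulVec x) = x m := by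
    rw [hΓx]; simp
  have h2 : 0 ≤ dotProduct x (T.mulVec x) := by
    have := hT.dotProduct_mulVec_nonneg x
    simpa using this
  have h3 : ω m * x m ^ 2 ≤ dotProduct x ((Matrix.diagonal ω).mulVec x) := by
    unfold dotProduct
    have h4 : ∀ i, x i * (Matrix.diagonal ω).mulVec x i = ω i * x i ^ 2 := by
      intro i
      rw [Matrix.mulVec_diagonal]
      ring
    rw [Finset.sum_congr rfl (fun i _ => h4 i)]
    exact Finset.single_le_sum (f := fun i => ω i * x i ^ 2)
      (fun i _ => mul_nonneg (hω i).le (sq_nonneg _)) (Finset.mem_univ m)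
  rw [Matrix.add_mulVec, dotProduct_add] at h1
  have h5 : ω m * x m ^ 2 ≤ x m := by linarith
  rw [← hxm]
  have hωm := hω m
  by_cases hc : x m ≤ 0
  · have : ω m ^ 2 * x m ≤ 0 := mul_nonpos_of_nonneg_of_nonpos (sq_nonneg _) hc
    linarith
  · push Not at hc
    have h6 : ω m * x m ≤ 1 := by
      by_contra hcon
      push Not at hcon
      nlinarith
    nlinarith

end Pool.Agent.Helper985.PS
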