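import Pool.Agent.Helper985.PS.M_gauss_matrix
import Pool.Agent.Helper985.PS.M_trace_ineq
import Pool.Agent.Helper985.PS.Defs

set_option autoImplicit false

open MeasureTheory
open scoped Topology

namespace Pool.Agent.Helper985.PS




theorem gaussF_Q {ι : Type} [Fintype ι] [DecidableEq ι] (Γ : Matrix ι ι ℝ) (hs : Γ.IsSymm) :
    ContDiff ℝ SM (fun q : ι → ℝ => q ⬝ᵥ (Γ.mulVec q)) ∧
    ∀ q v : ι → ℝ, HasDerivAt (fun t : ℝ => (q + t • v) ⬝ᵥ (Γ.mulVec (q + t • v)))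
      (2 * (v ⬝ᵥ (Γ.mulVec q))) 0 := by
  have hc : ContDiff ℝ SM (fun q : ι → ℝ => q ⬝ᵥ (Γ.mulVec q)) := by
    unfold Matrix.mulVec dotProduct
    fun_prop
  refine ⟨hc, fun q v => ?_⟩
  have e : (fun t : ℝ => (q + t • v) ⬝ᵥ (Γ.mulVec (q + t • v))) = fun t =>
      q ⬝ᵥ (Γ.mulVec q) + t * (2 * (v ⬝ᵥ (Γ.mulVec q))) + t^2 * (v ⬝ᵥ (Γ.mulVec v)) := by
    funext t
    rw [Matrix.mulVec_add, Matrix.mulVec_smul]
    simp only [add_dotProduct, dotProduct_add, smul_dotProduct, dotProduct_smul, smul_eq_mul]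
    have : q ⬝ᵥ Γ.mulVec v = v ⬝ᵥ Γ.mulVec q := by
      rw [Matrix.dotProduct_mulVec, ← Matrix.mulVec_transpose, hs.eq, dotProduct_comm]
    rw [this]; ring
  rw [e]
  have h := (((hasDerivAt_const (0:ℝ) (q ⬝ᵥ (Γ.mulVec q))).add
    ((hasDerivAt_id (0:ℝ)).mul_const (2 * (v ⬝ᵥ (Γ.mulVec q))))).add
    ((hasDerivAt_pow 2 (0:ℝ)).mul_const (v ⬝ᵥ (Γ.mulVec v))))
  convert! h using 1
  simp

theorem gaussF_deriv {ι : Type} [Fintype ι] [DecidableEq ι] (Γ : Matrix ι ι ℝ) (hs : Γ.IsSymm)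
    (χ : (ι → ℝ) → ℝ) (hχ : ContDiff ℝ SM χ) (c x : ℝ) (q v : ι → ℝ) :
    fderiv ℝ (fun q : ι → ℝ => c * (χ (x • q) * Real.exp (-(1/2) * (q ⬝ᵥ (Γ.mulVec q))))) q v =
      c * (x * fderiv ℝ χ (x • q) v * Real.exp (-(1/2) * (q ⬝ᵥ (Γ.mulVec q))) -
        χ (x • q) * (v ⬝ᵥ (Γ.mulVec q)) * Real.exp (-(1/2) * (q ⬝ᵥ (Γ.mulVec q)))) := by
  obtain ⟨hQ, hQd⟩ := gaussF_Q Γ hs
  have hd : DifferentiableAt ℝ
      (fun q : ι → ℝ => c * (χ (x • q) * Real.exp (-(1/2) * (q ⬝ᵥ (Γ.mulVec q))))) q := by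
    have h1 : Differentiable ℝ χ := hχ.differentiable (by simp)
    have h2 : Differentiable ℝ (fun q : ι → ℝ => q ⬝ᵥ (Γ.mulVec q)) := hQ.differentiable (by simp)
    have h3 : Differentiable ℝ (fun q : ι → ℝ => χ (x • q)) := h1.comp (by fun_prop)
    exact ((h3.mul ((h2.const_mul _).exp)).const_mul c) q
  have h1 := hd.hasFDerivAt.hasLineDerivAt v
  unfold HasLineDerivAt at h1
  have hχd : HasDerivAt (fun t : ℝ => χ (x • (q + t • v))) (x * fderiv ℝ χ (x • q) v) 0 := by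
    have h2 : HasFDerivAt χ (fderiv ℝ χ (x • q)) (x • q) :=
      ((hχ.differentiable (by simp)) _).hasFDerivAt
    have h3 := h2.hasLineDerivAt (x • v)
    unfold HasLineDerivAt at h3
    rw [map_smul, smul_eq_mul] at h3
    convert! h3 using 2
    rw [smul_add, smul_comm]
  have hed : HasDerivAt (fun t : ℝ => Real.exp (-(1/2) * ((q + t • v) ⬝ᵥ (Γ.mulVec (q + t • v)))))
      (Real.exp (-(1/2) * (q ⬝ᵥ (Γ.mulVec q))) * (-(1/2) * (2 * (v ⬝ᵥ (Γ.mulVec q))))) 0 := by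
    have h3 := ((hQd q v).const_mul (-(1/2))).exp
    simpa using h3
  have h4 := (hχd.mul hed).const_mul c
  have h5 := h1.unique h4
  rw [h5]
  simp only [zero_smul, add_zero]
  ring
theorem gaussF_alg1 (x K a b ch : ℝ) (hx : 0 < x) (h5 : ch ^ 2 ≤ 1) (h6 : a ^ 2 ≤ K ^ 2) :
    (x * a - ch * b) ^ 2 ≤ (1 + x) * b ^ 2 + (x + x ^ 2) * K ^ 2 := by
  have h9 : (x * a - ch * b) ^ 2 + x * (a + ch * b) ^ 2 = (1 + x) * (ch * b) ^ 2 +
      (x + x ^ 2) * a ^ 2 := by ring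
  have h9' : 0 ≤ x * (a + ch * b) ^ 2 := by positivity
  have h10 : (ch * b) ^ 2 ≤ b ^ 2 := by
    rw [mul_pow]
    exact mul_le_of_le_one_left (sq_nonneg b) h5
  have h11 : (1 + x) * (ch * b) ^ 2 ≤ (1 + x) * b ^ 2 :=
    mul_le_mul_of_nonneg_left h10 (by positivity)
  have h12 : (x + x ^ 2) * a ^ 2 ≤ (x + x ^ 2) * K ^ 2 :=
    mul_le_mul_of_nonneg_left h6 (by positivity)
  linarith

theorem gaussF_alg2 (x K a b ch Φ W c N ω q : ℝ) (hx : 0 < x) (hN : 0 < N) (h5 : ch ^ 2 ≤ 1)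
    (h6 : a ^ 2 ≤ K ^ 2) (hΦW : Φ ^ 2 = W) (hW0 : 0 < W) (hc2 : c ^ 2 = 1 / N)
    (hle : (c * (ch * Φ)) ^ 2 ≤ (1 / N) * W) :
    (c * (x * a * Φ - ch * b * Φ)) ^ 2 + ω ^ 2 * q ^ 2 * (c * (ch * Φ)) ^ 2 ≤
      (1 / N) * ((1 + x) * (b ^ 2 * W) + (x + x ^ 2) * K ^ 2 * W + ω ^ 2 * (q ^ 2 * W)) := by
  have h7 : (x * a * Φ - ch * b * Φ) ^ 2 ≤
      (1 + x) * (b ^ 2 * W) + (x + x ^ 2) * K ^ 2 * W := by
    have e : (x * a * Φ - ch * b * Φ) ^ 2 = (x * a - ch * b) ^ 2 * W := by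
      rw [← hΦW]; ring
    rw [e]
    have := mul_le_mul_of_nonneg_right (gaussF_alg1 x K a b ch hx h5 h6) hW0.le
    calc _ ≤ _ := this
      _ = _ := by ring
  have h13 := mul_le_mul_of_nonneg_left hle (by positivity : 0 ≤ ω ^ 2 * q ^ 2)
  have h14 : (c * (x * a * Φ - ch * b * Φ)) ^ 2 ≤
      (1 / N) * ((1 + x) * (b ^ 2 * W) + (x + x ^ 2) * K ^ 2 * W) := by
    rw [mul_pow, hc2]
    exact mul_le_mul_of_nonneg_left h7 (by positivity)
  calc _ ≤ (1 / N) * ((1 + x) * (b ^ 2 * W) + (x + x ^ 2) * K ^ 2 * W) +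
      ω ^ 2 * q ^ 2 * ((1 / N) * W) := add_le_add h14 h13
    _ = _ := by ring

theorem gaussF_qf {ι : Type} [Fintype ι] [DecidableEq ι] (G : Matrix ι ι ℝ) (y : ι → ℝ) :
    y ⬝ᵥ (G.mulVec y) ≤ (∑ i, ∑ j, |G i j|) * ∑ m, y m ^ 2 := by
  have e : y ⬝ᵥ (G.mulVec y) = ∑ i, ∑ j, y i * (G i j * y j) := by
    unfold Matrix.mulVec dotProduct
    simp only [Finset.mul_sum]
  rw [e, Finset.sum_mul]
  refine Finset.sum_le_sum fun i _ => ?_
  rw [Finset.sum_mul]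
  refine Finset.sum_le_sum fun j _ => ?_
  have h2 : y i ^ 2 ≤ ∑ m, y m ^ 2 :=
    Finset.single_le_sum (f := fun m => y m ^ 2) (fun m _ => sq_nonneg _) (Finset.mem_univ i)
  have h3 : y j ^ 2 ≤ ∑ m, y m ^ 2 :=
    Finset.single_le_sum (f := fun m => y m ^ 2) (fun m _ => sq_nonneg _) (Finset.mem_univ j)
  have h4 : |y i * y j| ≤ ∑ m, y m ^ 2 := by
    have h5 : 2 * (y i * y j) ≤ y i ^ 2 + y j ^ 2 := by nlinarith [sq_nonneg (y i - y j)]
    have h6 : -(2 * (y i * y j)) ≤ y i ^ 2 + y j ^ 2 := by nlinarith [sq_nonneg (y i + y j)]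
    rw [abs_le]
    constructor <;> linarith
  calc y i * (G i j * y j) ≤ |y i * (G i j * y j)| := le_abs_self _
    _ = |G i j| * |y i * y j| := by rw [← abs_mul]; congr 1; ring
    _ ≤ _ := mul_le_mul_of_nonneg_left h4 (abs_nonneg _)

theorem gaussF_int {E : Type} [MeasureSpace E] {f1 f2 f3 : E → ℝ} (h1 : Integrable f1)
    (h2 : Integrable f2) (h3 : Integrable f3) (a b c d : ℝ) :
    Integrable (fun q => d * (a * f1 q + b * f2 q + c * f3 q)) ∧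
    ∫ q, d * (a * f1 q + b * f2 q + c * f3 q) =
      d * (a * (∫ q, f1 q) + b * (∫ q, f2 q) + c * (∫ q, f3 q)) := by
  have k1 : Integrable (fun q => a * f1 q) := h1.const_mul a
  have k2 : Integrable (fun q => b * f2 q) := h2.const_mul b
  have k3 : Integrable (fun q => c * f3 q) := h3.const_mul c
  have k12 : Integrable (fun q => a * f1 q + b * f2 q) := k1.add k2
  have k123 : Integrable (fun q => a * f1 q + b * f2 q + c * f3 q) := k12.add k3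
  refine ⟨k123.const_mul d, ?_⟩
  rw [integral_const_mul, integral_add k12 k3, integral_add k1 k2, integral_const_mul,
    integral_const_mul, integral_const_mul]

theorem gaussF_sum {ι : Type} [Fintype ι] (r u k : ℝ) (g w : ι → ℝ) :
    ∑ m, r * (u * ((1/2) * g m) + k + (1/2) * w m) =
      r * (u * ((1/2) * ∑ m, g m) + (Fintype.card ι : ℝ) * k + (1/2) * ∑ m, w m) := by
  rw [← Finset.mul_sum, Finset.sum_add_distrib, Finset.sum_add_distrib, Finset.sum_const,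
    Finset.card_univ, nsmul_eq_mul, ← Finset.mul_sum, ← Finset.mul_sum, ← Finset.mul_sum]

/-- a squeezed state of the field, cut off to compact support -/
theorem gaussF {ι : Type} [Fintype ι] [DecidableEq ι] (ω : ι → ℝ) (hω : ∀ m, 0 < ω m)
    (T : Matrix ι ι ℝ) (hT : T.PosSemidef) (ε : ℝ) (hε : 0 < ε) :
    ∃ F : (ι → ℝ) → ℝ, ContDiff ℝ SM F ∧ HasCompactSupport F ∧ (∀ q, F (-q) = F q) ∧
      (∫ q, F q ^ 2 = 1) ∧
      (∫ q, ∑ m, ((fderiv ℝ F q (Pi.single m 1)) ^ 2 + ω m ^ 2 * q m ^ 2 * F q ^ 2) ≤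
        ∑ m, ω m + (1 / 2) * T.trace + ε) ∧
      (∀ y : ι → ℝ, ∫ q, (∑ m, y m * q m) ^ 2 * F q ^ 2 ≤
        (1 / 2) * (y ⬝ᵥ ((Matrix.diagonal ω + T)⁻¹.mulVec y)) + ε * ∑ m, y m ^ 2) := by
  classical
  obtain ⟨hΓ, htr⟩ := trace_ineq ω hω T hT
  set Γ : Matrix ι ι ℝ := Matrix.diagonal ω + T with hΓd
  have hs : Γ.IsSymm := by
    have := hΓ.isHermitian
    unfold Matrix.IsHermitian at this
    rwa [Matrix.conjTranspose_eq_transpose_of_trivial] at this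
  obtain ⟨hZ, hG⟩ := gauss_matrix Γ hΓ
  obtain ⟨hQ, -⟩ := gaussF_Q Γ hs
  obtain ⟨W, hW⟩ : ∃ W : (ι → ℝ) → ℝ, W = fun q => Real.exp (-(q ⬝ᵥ (Γ.mulVec q))) := ⟨_, rfl⟩
  have hWq : ∀ q, Real.exp (-(q ⬝ᵥ (Γ.mulVec q))) = W q := fun q => by rw [hW]
  simp only [hWq] at hZ hG
  obtain ⟨Z, hZd⟩ : ∃ Z : ℝ, Z = ∫ q, W q := ⟨_, rfl⟩
  rw [← hZd] at hZ hG
  have hWint : Integrable W := by
    by_contra h
    rw [hZd, integral_undef h] at hZ
    exact lt_irrefl _ hZ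
  have hW0 : ∀ q, 0 < W q := fun q => by rw [hW]; exact Real.exp_pos _
  have hWc : Continuous W := by
    rw [hW]; exact Real.continuous_exp.comp hQ.continuous.neg
  obtain ⟨Φ, hΦ⟩ : ∃ Φ : (ι → ℝ) → ℝ, Φ = fun q => Real.exp (-(1/2) * (q ⬝ᵥ (Γ.mulVec q))) :=
    ⟨_, rfl⟩
  have hΦW : ∀ q, Φ q ^ 2 = W q := by
    intro q
    rw [hΦ, hW]
    simp only
    rw [← Real.exp_nat_mul]
    congr 1
    push_cast
    ring
  let χ : ContDiffBump (0 : ι → ℝ) := ⟨1, 2, one_pos, one_lt_two⟩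
  have hχ0 : χ (0 : ι → ℝ) = 1 := χ.one_of_mem_closedBall (by
    rw [Metric.mem_closedBall, dist_self]; exact χ.rIn_pos.le)
  have hχs : ContDiff ℝ SM χ := χ.contDiff
  obtain ⟨K, hK⟩ : ∃ K, ∀ q, ‖fderiv ℝ χ q‖ ≤ K :=
    (hχs.continuous_fderiv (by simp)).bounded_above_of_compact_support
      (χ.hasCompactSupport.fderiv ℝ)
  have hK0 : 0 ≤ K := (norm_nonneg _).trans (hK 0)
  obtain ⟨N, hNd⟩ : ∃ N : ℝ → ℝ, N = fun x => ∫ q, χ (x • q) ^ 2 * W q := ⟨_, rfl⟩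
  have hχW : ∀ x : ℝ, ∀ q, χ (x • q) ^ 2 * W q ≤ W q := fun x q => by
    have h1 : χ (x • q) ^ 2 ≤ 1 := pow_le_one₀ χ.nonneg χ.le_one
    nlinarith [hW0 q]
  have hχWc : ∀ x : ℝ, Continuous (fun q => χ (x • q) ^ 2 * W q) := fun x =>
    ((χ.continuous.comp (continuous_const_smul x)).pow 2).mul hWc
  have hχWi : ∀ x : ℝ, Integrable (fun q => χ (x • q) ^ 2 * W q) := fun x =>
    hWint.mono' (hχWc x).aestronglyMeasurable (Filter.Eventually.of_forall fun q => by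
      rw [Real.norm_of_nonneg (mul_nonneg (sq_nonneg _) (hW0 q).le)]; exact hχW x q)
  have hx0 := tendsto_one_div_add_atTop_nhds_zero_nat (𝕜 := ℝ)
  have hNt : Filter.Tendsto (fun n : ℕ => N (1 / ((n:ℝ) + 1))) Filter.atTop (𝓝 Z) := by
    rw [hNd, hZd]
    refine tendsto_integral_of_dominated_convergence W
      (fun n => (hχWc _).aestronglyMeasurable) hWint
      (fun n => Filter.Eventually.of_forall fun q => by
        rw [Real.norm_of_nonneg (mul_nonneg (sq_nonneg _) (hW0 q).le)]; exact hχW _ q)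
      (Filter.Eventually.of_forall fun q => ?_)
    have h1 : Filter.Tendsto (fun n : ℕ => (1 / ((n:ℝ) + 1)) • q) Filter.atTop (𝓝 0) := by
      have := hx0.smul_const q
      rwa [zero_smul] at this
    have h2 := (χ.continuous.tendsto 0).comp h1
    rw [hχ0] at h2
    have h3 := (h2.pow 2).mul_const (W q)
    simpa using h3
  obtain ⟨A, hA⟩ : ∃ A : ℝ, A = (1/2) * Γ.trace := ⟨_, rfl⟩
  obtain ⟨B, hB⟩ : ∃ B : ℝ, B = (Fintype.card ι : ℝ) * K ^ 2 := ⟨_, rfl⟩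
  obtain ⟨D, hD⟩ : ∃ D : ℝ, D = (1/2) * ∑ m, ω m ^ 2 * Γ⁻¹ m m := ⟨_, rfl⟩
  obtain ⟨C, hC⟩ : ∃ C : ℝ, C = ∑ i, ∑ j, |Γ⁻¹ i j| := ⟨_, rfl⟩
  have hAD : A + D ≤ ∑ m, ω m + (1/2) * T.trace := by
    have h1 : Γ.trace = ∑ m, ω m + T.trace := by
      rw [hΓd, Matrix.trace_add, Matrix.trace_diagonal]
    rw [hA, hD, h1]
    linarith
  have hT1 : Filter.Tendsto (fun n : ℕ => (Z / N (1 / ((n:ℝ) + 1))) *
      ((1 + 1 / ((n:ℝ) + 1)) * A + (1 / ((n:ℝ) + 1) + (1 / ((n:ℝ) + 1)) ^ 2) * B + D))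
      Filter.atTop (𝓝 ((Z / Z) * ((1 + 0) * A + (0 + 0 ^ 2) * B + D))) :=
    ((tendsto_const_nhds.div hNt hZ.ne')).mul
      ((((tendsto_const_nhds.add hx0).mul_const A).add ((hx0.add (hx0.pow 2)).mul_const B)).add_const D)
  have hT2 : Filter.Tendsto (fun n : ℕ => (Z / N (1 / ((n:ℝ) + 1)) - 1) * (1/2 * C))
      Filter.atTop (𝓝 ((Z / Z - 1) * (1/2 * C))) :=
    ((tendsto_const_nhds.div hNt hZ.ne').sub_const 1).mul_const _
  rw [div_self hZ.ne'] at hT1 hT2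
  have e1 : (1:ℝ) * ((1 + 0) * A + (0 + 0 ^ 2) * B + D) < ∑ m, ω m + (1 / 2) * T.trace + ε := by
    have : (1:ℝ) * ((1 + 0) * A + (0 + 0 ^ 2) * B + D) = A + D := by ring
    rw [this]; linarith
  have e2 : ((1:ℝ) - 1) * (1/2 * C) < ε := by
    rw [sub_self, zero_mul]; exact hε
  obtain ⟨n, ⟨hn1, hn2⟩, hn3⟩ := (((hT1.eventually_lt_const e1).and
    (hT2.eventually_lt_const e2)).and (hNt.eventually_const_lt hZ)).exists
  obtain ⟨x, hx⟩ : ∃ x : ℝ, x = 1 / ((n:ℝ) + 1) := ⟨_, rfl⟩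
  have hxpos : 0 < x := by rw [hx]; positivity
  rw [← hx] at hn1 hn2 hn3
  obtain ⟨c, hc⟩ : ∃ c : ℝ, c = (√(N x))⁻¹ := ⟨_, rfl⟩
  have hc2 : c ^ 2 = 1 / N x := by
    rw [hc, inv_pow, Real.sq_sqrt hn3.le, one_div]
  have hNx : N x = ∫ q, χ (x • q) ^ 2 * W q := by rw [hNd]
  have hFsq : ∀ q, (c * (χ (x • q) * Φ q)) ^ 2 = (1 / N x) * (χ (x • q) ^ 2 * W q) := by
    intro q
    rw [mul_pow, mul_pow, hΦW, hc2]
  have hFsqle : ∀ q, (c * (χ (x • q) * Φ q)) ^ 2 ≤ (1 / N x) * W q := by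
    intro q
    rw [hFsq]
    exact mul_le_mul_of_nonneg_left (hχW x q) (by positivity)
  have hΦs : ContDiff ℝ SM Φ := by
    rw [hΦ]; exact (contDiff_const.mul hQ).exp
  have hχxs : ContDiff ℝ SM (fun q : ι → ℝ => χ (x • q)) :=
    hχs.comp (contDiff_const_smul x)
  -- the y-moment
  have hmom : ∀ y : ι → ℝ, ∫ q, (∑ m, y m * q m) ^ 2 * (c * (χ (x • q) * Φ q)) ^ 2 ≤
      (Z / N x) * ((1/2) * (y ⬝ᵥ (Γ⁻¹.mulVec y))) := by
    intro y
    have h1 := (hG y).1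
    have h2 := (hG y).2
    calc ∫ q, (∑ m, y m * q m) ^ 2 * (c * (χ (x • q) * Φ q)) ^ 2
        ≤ ∫ q, (1 / N x) * ((∑ m, y m * q m) ^ 2 * W q) := by
          refine integral_mono_of_nonneg (Filter.Eventually.of_forall fun q => by positivity)
            (h1.const_mul _) (Filter.Eventually.of_forall fun q => ?_)
          have := mul_le_mul_of_nonneg_left (hFsqle q) (sq_nonneg (∑ m, y m * q m))
          calc _ ≤ _ := this
            _ = _ := by ring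
      _ = (Z / N x) * ((1/2) * (y ⬝ᵥ (Γ⁻¹.mulVec y))) := by
          rw [integral_const_mul, h2]
          ring
  refine ⟨fun q => c * (χ (x • q) * Φ q), ?_, ?_, ?_, ?_, ?_, ?_⟩
  · exact contDiff_const.mul (hχxs.mul hΦs)
  · exact ((χ.hasCompactSupport.comp_smul hxpos.ne').mul_right).mul_left
  · intro q
    have h1 : χ (x • (-q)) = χ (x • q) := by rw [smul_neg, χ.neg]
    have h2 : Φ (-q) = Φ q := by
      rw [hΦ]; simp [Matrix.mulVec_neg]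
    simp only [h1, h2]
  · simp only [hFsq]
    rw [integral_const_mul, ← hNx]
    field_simp
  · have hy1 : ∀ m, (∀ q : ι → ℝ, ∑ k, (Γ m) k * q k = (Γ.mulVec q) m) := fun m q => rfl
    have hΓunit : IsUnit Γ.det := by
      exact isUnit_iff_ne_zero.mpr hΓ.det_pos.ne'
    have hy2 : ∀ m, (Γ m) ⬝ᵥ (Γ⁻¹.mulVec (Γ m)) = Γ m m := by
      intro m
      have h1 : (Γ m) = Γ.mulVec (Pi.single m 1) := by
        funext k
        rw [Matrix.mulVec_single_one]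
        exact (hs.apply k m)
      have h2 : Γ⁻¹.mulVec (Γ m) = Pi.single m 1 := by
        rw [h1, Matrix.mulVec_mulVec, Matrix.nonsing_inv_mul _ hΓunit, Matrix.one_mulVec]
      rw [h2, dotProduct_single_one]
    have hI1 : ∀ m, Integrable (fun q : ι → ℝ => (Γ.mulVec q) m ^ 2 * W q) ∧
        ∫ q : ι → ℝ, (Γ.mulVec q) m ^ 2 * W q = (1/2) * Γ m m * Z := by
      intro m
      have h1 := hG (Γ m)
      rw [hy2 m] at h1
      simpa only [hy1 m] using h1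
    have hI2 : ∀ m, Integrable (fun q : ι → ℝ => q m ^ 2 * W q) ∧
        ∫ q : ι → ℝ, q m ^ 2 * W q = (1/2) * Γ⁻¹ m m * Z := by
      intro m
      have h1 := hG (Pi.single m 1)
      have h2 : ∀ q : ι → ℝ, ∑ k, (Pi.single m (1:ℝ) : ι → ℝ) k * q k = q m := by
        intro q
        have := single_one_dotProduct m q
        exact this
      have h3 : (Pi.single m (1:ℝ) : ι → ℝ) ⬝ᵥ (Γ⁻¹.mulVec (Pi.single m 1)) = Γ⁻¹ m m := by
        rw [single_one_dotProduct, Matrix.mulVec_single_one]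
        rfl
      rw [h3] at h1
      simpa only [h2] using h1
    have hpt : ∀ q m, (fderiv ℝ (fun q : ι → ℝ => c * (χ (x • q) * Φ q)) q (Pi.single m 1)) ^ 2 +
        ω m ^ 2 * q m ^ 2 * (c * (χ (x • q) * Φ q)) ^ 2 ≤
        (1 / N x) * ((1 + x) * ((Γ.mulVec q) m ^ 2 * W q) + (x + x ^ 2) * K ^ 2 * W q +
          ω m ^ 2 * (q m ^ 2 * W q)) := by
      intro q m
      have h1 : fderiv ℝ (fun q : ι → ℝ => c * (χ (x • q) * Φ q)) q (Pi.single m 1) =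
          c * (x * fderiv ℝ χ (x • q) (Pi.single m 1) * Φ q -
            χ (x • q) * ((Γ.mulVec q) m) * Φ q) := by
        have := gaussF_deriv Γ hs χ hχs c x q (Pi.single m 1)
        rw [single_one_dotProduct] at this
        rw [hΦ]
        exact this
      rw [h1]
      have h2 : |fderiv ℝ χ (x • q) (Pi.single m 1)| ≤ K := by
        have h3 := (fderiv ℝ χ (x • q)).le_opNorm (Pi.single m 1)
        rw [Real.norm_eq_abs] at h3
        have h4 : ‖(Pi.single m (1:ℝ) : ι → ℝ)‖ ≤ 1 := by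
          rw [pi_norm_le_iff_of_nonneg zero_le_one]
          intro i
          by_cases h : i = m
          · subst h; simp
          · rw [Pi.single_eq_of_ne h]; simp
        calc _ ≤ _ := h3
          _ ≤ K * 1 := mul_le_mul (hK _) h4 (norm_nonneg _) hK0
          _ = K := mul_one K
      obtain ⟨a, ha⟩ : ∃ a, a = fderiv ℝ χ (x • q) (Pi.single m 1) := ⟨_, rfl⟩
      rw [← ha] at h2 ⊢
      obtain ⟨b, hb⟩ : ∃ b, b = (Γ.mulVec q) m := ⟨_, rfl⟩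
      rw [← hb]
      have h5 : χ (x • q) ^ 2 ≤ 1 := pow_le_one₀ χ.nonneg χ.le_one
      have h6 : a ^ 2 ≤ K ^ 2 := by
        rw [← sq_abs a]; exact pow_le_pow_left₀ (abs_nonneg _) h2 2
      exact gaussF_alg2 x K a b (χ (x • q)) (Φ q) (W q) c (N x) (ω m) (q m) hxpos hn3 h5 h6
        (hΦW q) (hW0 q) hc2 (hFsqle q)
    have hmaj : ∀ m, Integrable (fun q : ι → ℝ => (1 / N x) * ((1 + x) * ((Γ.mulVec q) m ^ 2 * W q) +
        (x + x ^ 2) * K ^ 2 * W q + ω m ^ 2 * (q m ^ 2 * W q))) := fun m =>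
      (gaussF_int (hI1 m).1 hWint (hI2 m).1 (1 + x) ((x + x ^ 2) * K ^ 2) (ω m ^ 2) (1 / N x)).1
    have hmaji : ∀ m, ∫ q : ι → ℝ, (1 / N x) * ((1 + x) * ((Γ.mulVec q) m ^ 2 * W q) +
        (x + x ^ 2) * K ^ 2 * W q + ω m ^ 2 * (q m ^ 2 * W q)) =
        (Z / N x) * ((1 + x) * ((1/2) * Γ m m) + (x + x ^ 2) * K ^ 2 +
          (1/2) * (ω m ^ 2 * Γ⁻¹ m m)) := by
      intro m
      rw [(gaussF_int (hI1 m).1 hWint (hI2 m).1 (1 + x) ((x + x ^ 2) * K ^ 2) (ω m ^ 2)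
        (1 / N x)).2, (hI1 m).2, (hI2 m).2, ← hZd]
      ring
    calc ∫ q, ∑ m, ((fderiv ℝ (fun q : ι → ℝ => c * (χ (x • q) * Φ q)) q (Pi.single m 1)) ^ 2 +
        ω m ^ 2 * q m ^ 2 * (c * (χ (x • q) * Φ q)) ^ 2)
        ≤ ∫ q, ∑ m, (1 / N x) * ((1 + x) * ((Γ.mulVec q) m ^ 2 * W q) +
        (x + x ^ 2) * K ^ 2 * W q + ω m ^ 2 * (q m ^ 2 * W q)) := by
          refine integral_mono_of_nonneg (Filter.Eventually.of_forall fun q =>
            Finset.sum_nonneg fun m _ => by positivity)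
            (integrable_finsetSum _ fun m _ => hmaj m)
            (Filter.Eventually.of_forall fun q => Finset.sum_le_sum fun m _ => hpt q m)
      _ = ∑ m, (Z / N x) * ((1 + x) * ((1/2) * Γ m m) + (x + x ^ 2) * K ^ 2 +
          (1/2) * (ω m ^ 2 * Γ⁻¹ m m)) := by
          rw [integral_finsetSum _ fun m _ => hmaj m]
          exact Finset.sum_congr rfl fun m _ => hmaji m
      _ = (Z / N x) * ((1 + x) * A + (x + x ^ 2) * B + D) := by
          rw [gaussF_sum (Z / N x) (1 + x) ((x + x ^ 2) * K ^ 2) (fun m => Γ m m)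
            (fun m => ω m ^ 2 * Γ⁻¹ m m), hA, hB, hD]
          have : Γ.trace = ∑ m, Γ m m := rfl
          rw [this]
          ring
      _ ≤ _ := hn1.le
  · intro y
    refine (hmom y).trans ?_
    have hC0 : 0 ≤ C := by rw [hC]; positivity
    have h1 : y ⬝ᵥ (Γ⁻¹.mulVec y) ≤ C * ∑ m, y m ^ 2 := by
      rw [hC]; exact gaussF_qf Γ⁻¹ y
    have h2 : 1 ≤ Z / N x := by
      rw [le_div_iff₀ hn3, one_mul, hNx, hZd]
      exact integral_mono (hχWi x) hWint (hχW x)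
    have hS : 0 ≤ ∑ m, y m ^ 2 := Finset.sum_nonneg fun m _ => sq_nonneg _
    have h3 : (Z / N x - 1) * (1/2) * (y ⬝ᵥ (Γ⁻¹.mulVec y)) ≤
        (Z / N x - 1) * (1/2) * (C * ∑ m, y m ^ 2) :=
      mul_le_mul_of_nonneg_left h1 (mul_nonneg (by linarith) (by norm_num))
    have h4 : (Z / N x - 1) * (1/2 * C) * ∑ m, y m ^ 2 ≤ ε * ∑ m, y m ^ 2 :=
      mul_le_mul_of_nonneg_right hn2.le hS
    calc (Z / N x) * ((1/2) * (y ⬝ᵥ (Γ⁻¹.mulVec y))) = (1/2) * (y ⬝ᵥ (Γ⁻¹.mulVec y)) +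
        (Z / N x - 1) * (1/2) * (y ⬝ᵥ (Γ⁻¹.mulVec y)) := by ring
      _ ≤ (1/2) * (y ⬝ᵥ (Γ⁻¹.mulVec y)) + (Z / N x - 1) * (1/2) * (C * ∑ m, y m ^ 2) := by linarith
      _ = (1/2) * (y ⬝ᵥ (Γ⁻¹.mulVec y)) + (Z / N x - 1) * (1/2 * C) * ∑ m, y m ^ 2 := by ring
      _ ≤ _ := by linarith

end Pool.Agent.Helper985.PS
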