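import Pool.Agent.Helper985.PS.Defs

set_option autoImplicit false

open MeasureTheory
open scoped Topology

namespace Pool.Agent.Helper985.PS


theorem gauss_matrix_e0 : Integrable (fun t : ℝ => Real.exp (-t^2)) := by
  have := integrable_exp_neg_mul_sq (b := 1) one_pos
  simpa using this

theorem gauss_matrix_e1 : Integrable (fun t : ℝ => t * Real.exp (-t^2)) := by
  have := integrable_mul_exp_neg_mul_sq (b := 1) one_pos
  simpa using this

theorem gauss_matrix_e2 : Integrable (fun t : ℝ => t * t * Real.exp (-t^2)) := by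
  have h := integrable_rpow_mul_exp_neg_mul_sq (b := 1) one_pos (s := 2) (by norm_num)
  refine h.congr (Filter.Eventually.of_forall fun t => ?_)
  have h2 : t ^ (2 : ℝ) = t * t := by
    rw [show (2 : ℝ) = ((2 : ℕ) : ℝ) by norm_num, Real.rpow_natCast]; ring
  simp only [h2]
  congr 2
  ring

theorem gauss_matrix_i1 : ∫ t : ℝ, t * Real.exp (-t^2) = 0 := by
  have h : ∫ t : ℝ, (-t) * Real.exp (-(-t)^2) = ∫ t : ℝ, t * Real.exp (-t^2) :=
    integral_neg_eq_self (fun t => t * Real.exp (-t^2)) volume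
  have h2 : ∫ t : ℝ, (-t) * Real.exp (-(-t)^2) = -∫ t : ℝ, t * Real.exp (-t^2) := by
    rw [← integral_neg]
    congr 1
    ext t
    rw [neg_sq]
    ring
  linarith

theorem gauss_matrix_i2 :
    ∫ t : ℝ, t * t * Real.exp (-t^2) = 1/2 * ∫ t : ℝ, Real.exp (-t^2) := by
  have h := integral_mul_deriv_eq_deriv_mul_of_integrable (u := fun t : ℝ => t)
    (u' := fun _ => (1 : ℝ)) (v := fun t => -(1/2) * Real.exp (-t^2))
    (v' := fun t => t * Real.exp (-t^2)) (fun x _ => hasDerivAt_id x)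
    (fun x _ => by
      have h1 : HasDerivAt (fun t : ℝ => -t^2) (-(2 * x)) x := by
        have := (hasDerivAt_pow 2 x).fun_neg
        simpa using this
      have h2 := (h1.exp).const_mul (-(1/2) : ℝ)
      convert h2 using 1
      ring)
    (by
      refine gauss_matrix_e2.congr (Filter.Eventually.of_forall fun t => ?_)
      simp only [Pi.mul_apply]; ring)
    (by
      refine (gauss_matrix_e0.const_mul (-(1/2) : ℝ)).congr
        (Filter.Eventually.of_forall fun t => ?_)
      simp only [Pi.mul_apply]; ring)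
    (by
      refine (gauss_matrix_e1.const_mul (-(1/2) : ℝ)).congr
        (Filter.Eventually.of_forall fun t => ?_)
      simp only [Pi.mul_apply]; ring)
  have h3 : ∫ t : ℝ, t * t * Real.exp (-t^2) = ∫ t : ℝ, t * (t * Real.exp (-t^2)) := by
    congr 1; ext t; ring
  have h4 : ∫ t : ℝ, (1 : ℝ) * (-(1/2) * Real.exp (-t^2)) = -(1/2) * ∫ t : ℝ, Real.exp (-t^2) := by
    rw [← integral_const_mul]; congr 1; ext t; ring
  rw [h3, h, h4]
  ring

/-- the one-dimensional factors -/
noncomputable def gauss_matrix_g {ι : Type} [DecidableEq ι] (i j k : ι) (t : ℝ) : ℝ :=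
  (if k = i then t else 1) * (if k = j then t else 1) * Real.exp (-t^2)

theorem gauss_matrix_gint {ι : Type} [DecidableEq ι] (i j k : ι) :
    Integrable (gauss_matrix_g i j k) := by
  unfold gauss_matrix_g
  by_cases h1 : k = i <;> by_cases h2 : k = j
  · simp only [h1, h2, if_true]
    subst h1
    simp only [h2, if_true]
    exact gauss_matrix_e2
  · simp only [if_pos h1, if_neg h2, mul_one]
    exact gauss_matrix_e1
  · simp only [if_neg h1, if_pos h2, one_mul]
    exact gauss_matrix_e1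
  · simp only [if_neg h1, if_neg h2, one_mul]
    exact gauss_matrix_e0

theorem gauss_matrix_prod {ι : Type} [Fintype ι] [DecidableEq ι] (i j : ι) (z : ι → ℝ) :
    z i * z j * Real.exp (-∑ k, z k ^ 2) = ∏ k, gauss_matrix_g i j k (z k) := by
  unfold gauss_matrix_g
  rw [Finset.prod_mul_distrib, Finset.prod_mul_distrib, ← Real.exp_sum]
  simp

theorem gauss_matrix_prod0 {ι : Type} [Fintype ι] (z : ι → ℝ) :
    Real.exp (-∑ k, z k ^ 2) = ∏ k, Real.exp (-(z k)^2) := by
  rw [← Real.exp_sum]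
  simp

theorem gauss_matrix_G {ι : Type} [Fintype ι] :
    ∫ z : ι → ℝ, Real.exp (-∑ k, z k ^ 2) = ∏ k : ι, ∫ t : ℝ, Real.exp (-t^2) := by
  simp_rw [gauss_matrix_prod0]
  exact integral_fintype_prod_volume_eq_prod (fun (_ : ι) (t : ℝ) => Real.exp (-t^2))

theorem gauss_matrix_Gint {ι : Type} [Fintype ι] :
    Integrable (fun z : ι → ℝ => Real.exp (-∑ k, z k ^ 2)) := by
  simp_rw [gauss_matrix_prod0]
  exact Integrable.fintype_prod (fun (_ : ι) => gauss_matrix_e0)

theorem gauss_matrix_pos1 : 0 < ∫ t : ℝ, Real.exp (-t^2) := by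
  have h := integral_gaussian 1
  simp only [neg_mul, one_mul, div_one] at h
  rw [h]
  positivity

theorem gauss_matrix_Gpos {ι : Type} [Fintype ι] :
    0 < ∫ z : ι → ℝ, Real.exp (-∑ k, z k ^ 2) := by
  rw [gauss_matrix_G]
  exact Finset.prod_pos fun _ _ => gauss_matrix_pos1

theorem gauss_matrix_M {ι : Type} [Fintype ι] [DecidableEq ι] (i j : ι) :
    Integrable (fun z : ι → ℝ => z i * z j * Real.exp (-∑ k, z k ^ 2)) ∧
    ∫ z : ι → ℝ, z i * z j * Real.exp (-∑ k, z k ^ 2) =
      if i = j then 1/2 * ∫ z : ι → ℝ, Real.exp (-∑ k, z k ^ 2) else 0 := by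
  simp_rw [gauss_matrix_prod]
  constructor
  · exact Integrable.fintype_prod (fun k => gauss_matrix_gint i j k)
  · rw [integral_fintype_prod_volume_eq_prod (gauss_matrix_g i j), gauss_matrix_G]
    split_ifs with h
    · subst h
      rw [← Finset.mul_prod_erase Finset.univ _ (Finset.mem_univ i),
        ← Finset.mul_prod_erase Finset.univ (fun _ : ι => ∫ t : ℝ, Real.exp (-t^2))
          (Finset.mem_univ i), ← mul_assoc, ← gauss_matrix_i2]
      congr 1
      · simp [gauss_matrix_g]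
      · refine Finset.prod_congr rfl fun k hk => ?_
        have hk' := Finset.ne_of_mem_erase hk
        simp [gauss_matrix_g, hk']
    · refine Finset.prod_eq_zero (Finset.mem_univ i) ?_
      simp only [gauss_matrix_g, if_pos, if_neg h, mul_one]
      exact gauss_matrix_i1

theorem gauss_matrix_std {ι : Type} [Fintype ι] [DecidableEq ι] (w : ι → ℝ) :
    Integrable (fun z : ι → ℝ => (∑ m, w m * z m) ^ 2 * Real.exp (-∑ k, z k ^ 2)) ∧
    ∫ z : ι → ℝ, (∑ m, w m * z m) ^ 2 * Real.exp (-∑ k, z k ^ 2) =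
      1/2 * (w ⬝ᵥ w) * ∫ z : ι → ℝ, Real.exp (-∑ k, z k ^ 2) := by
  have hexp : ∀ z : ι → ℝ, (∑ m, w m * z m) ^ 2 * Real.exp (-∑ k, z k ^ 2) =
      ∑ i, ∑ j, (w i * w j) * (z i * z j * Real.exp (-∑ k, z k ^ 2)) := by
    intro z
    rw [sq, Finset.sum_mul_sum, Finset.sum_mul]
    refine Finset.sum_congr rfl fun i _ => ?_
    rw [Finset.sum_mul]
    refine Finset.sum_congr rfl fun j _ => ?_
    ring
  simp_rw [hexp]
  have hint : ∀ i j, Integrable
      (fun z : ι → ℝ => (w i * w j) * (z i * z j * Real.exp (-∑ k, z k ^ 2))) :=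
    fun i j => (gauss_matrix_M i j).1.const_mul _
  constructor
  · exact integrable_finsetSum _ fun i _ => integrable_finsetSum _ fun j _ => hint i j
  · rw [integral_finsetSum _ fun i _ => integrable_finsetSum _ fun j _ => hint i j]
    rw [dotProduct, Finset.mul_sum, Finset.sum_mul]
    refine Finset.sum_congr rfl fun i _ => ?_
    rw [integral_finsetSum _ fun j _ => hint i j]
    simp_rw [integral_const_mul, (gauss_matrix_M i _).2]
    simp
    ring

theorem gauss_matrix_cov {ι : Type} [Fintype ι] [DecidableEq ι] (A : Matrix ι ι ℝ)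
    (hA : A.det ≠ 0) (F : (ι → ℝ) → ℝ) (hF : Integrable F) :
    Integrable (fun q => F (A.mulVec q)) ∧
    ∫ q, F (A.mulVec q) = |A.det|⁻¹ * ∫ z, F z := by
  have hmap := Real.map_matrix_volume_pi_eq_smul_volume_pi hA
  have hcont : Measurable (Matrix.toLin' A) :=
    (LinearMap.continuous_of_finiteDimensional (Matrix.toLin' A)).measurable
  have hF' : Integrable F (Measure.map (Matrix.toLin' A) volume) := by
    rw [hmap]
    exact hF.smul_measure ENNReal.ofReal_ne_top
  constructor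
  · have := (integrable_map_measure hF'.aestronglyMeasurable hcont.aemeasurable).mp hF'
    refine this.congr (Filter.Eventually.of_forall fun q => ?_)
    simp [Matrix.toLin'_apply]
  · have h := integral_map hcont.aemeasurable hF'.aestronglyMeasurable
    simp only [Matrix.toLin'_apply] at h
    rw [← h, hmap, integral_smul_measure, ENNReal.toReal_ofReal (abs_nonneg _), abs_inv,
      smul_eq_mul]

theorem gauss_matrix {ι : Type} [Fintype ι] [DecidableEq ι] (Γ : Matrix ι ι ℝ) (hΓ : Γ.PosDef) :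
    0 < (∫ q : ι → ℝ, Real.exp (-(q ⬝ᵥ (Γ.mulVec q)))) ∧
    (∀ y : ι → ℝ, Integrable (fun q : ι → ℝ => (∑ m, y m * q m) ^ 2 * Real.exp (-(q ⬝ᵥ (Γ.mulVec q)))) ∧
      ∫ q : ι → ℝ, (∑ m, y m * q m) ^ 2 * Real.exp (-(q ⬝ᵥ (Γ.mulVec q))) =
      (1 / 2) * (y ⬝ᵥ (Γ⁻¹.mulVec y)) * ∫ q : ι → ℝ, Real.exp (-(q ⬝ᵥ (Γ.mulVec q)))) := by
  open scoped MatrixOrder in
  obtain ⟨A, hA⟩ := CStarAlgebra.nonneg_iff_eq_star_mul_self.mp hΓ.posSemidef.nonneg
  have hA' : Γ = A.transpose * A := by
    rw [hA, Matrix.star_eq_conjTranspose, Matrix.conjTranspose_eq_transpose_of_trivial]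
  have hdet : A.det ≠ 0 := by
    intro h0
    have h1 := hΓ.det_pos
    rw [hA', Matrix.det_mul, h0, mul_zero] at h1
    exact lt_irrefl _ h1
  have hunit : IsUnit A.det := isUnit_iff_ne_zero.mpr hdet
  have hq : ∀ q : ι → ℝ, q ⬝ᵥ (Γ.mulVec q) = ∑ k, (A.mulVec q) k ^ 2 := by
    intro q
    rw [hA', ← Matrix.mulVec_mulVec, Matrix.dotProduct_mulVec, Matrix.vecMul_transpose, dotProduct]
    refine Finset.sum_congr rfl fun k _ => ?_
    ring
  simp_rw [hq]
  have hc : 0 < |A.det|⁻¹ := inv_pos.mpr (abs_pos.mpr hdet)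
  obtain ⟨g1, g2⟩ := gauss_matrix_cov A hdet (fun z => Real.exp (-∑ k, z k ^ 2))
    gauss_matrix_Gint
  refine ⟨?_, fun y => ?_⟩
  · rw [g2]
    exact mul_pos hc gauss_matrix_Gpos
  · obtain ⟨s1, s2⟩ := gauss_matrix_std (Matrix.vecMul y A⁻¹)
    obtain ⟨t1, t2⟩ := gauss_matrix_cov A hdet _ s1
    have hw : ∀ q : ι → ℝ, ∑ m, (Matrix.vecMul y A⁻¹) m * (A.mulVec q) m = ∑ m, y m * q m := by
      intro q
      have h1 : (Matrix.vecMul y A⁻¹) ⬝ᵥ (A.mulVec q) = y ⬝ᵥ q := by
        rw [Matrix.dotProduct_mulVec, Matrix.vecMul_vecMul, Matrix.nonsing_inv_mul _ hunit,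
          Matrix.vecMul_one]
      exact h1
    have hww : (Matrix.vecMul y A⁻¹) ⬝ᵥ (Matrix.vecMul y A⁻¹) = y ⬝ᵥ (Γ⁻¹.mulVec y) := by
      rw [hA', Matrix.mul_inv_rev, ← Matrix.mulVec_mulVec, Matrix.dotProduct_mulVec y,
        ← Matrix.transpose_nonsing_inv, Matrix.mulVec_transpose]
    simp only [hw] at t1 t2
    refine ⟨t1, ?_⟩
    rw [t2, s2, g2, hww]
    ring

end Pool.Agent.Helper985.PS
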