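import Pool.Agent.Helper985.PS.Defs

set_option autoImplicit false

open MeasureTheory
open scoped Topology

namespace Pool.Agent.Helper985.PS


theorem sg_c0 (v : E3) (s : C2) : (sg v s) 0 =
    (v 2 : ℂ) * s 0 + ((v 0 : ℂ) - Complex.I * (v 1 : ℂ)) * s 1 := by
  simp [sg, sigma, Matrix.mulVec, dotProduct, Fin.sum_univ_two]

theorem sg_c1 (v : E3) (s : C2) : (sg v s) 1 =
    ((v 0 : ℂ) + Complex.I * (v 1 : ℂ)) * s 0 - (v 2 : ℂ) * s 1 := by
  simp [sg, sigma, Matrix.mulVec, dotProduct, Fin.sum_univ_two]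
  ring

theorem norm_sg (v : E3) (s : C2) : ‖sg v s‖ = ‖v‖ * ‖s‖ := by
  apply (sq_eq_sq₀ (norm_nonneg _) (by positivity)).1
  rw [mul_pow, EuclideanSpace.norm_sq_eq, EuclideanSpace.norm_sq_eq, EuclideanSpace.norm_sq_eq,
    Fin.sum_univ_two, Fin.sum_univ_two, Fin.sum_univ_three, sg_c0, sg_c1]
  simp only [Complex.sq_norm, Complex.normSq_apply, Real.norm_eq_abs, sq_abs, Complex.add_re,
    Complex.add_im, Complex.sub_re, Complex.sub_im, Complex.mul_re, Complex.mul_im,
    Complex.ofReal_re, Complex.ofReal_im, Complex.I_re, Complex.I_im]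
  ring

theorem sg_add (v w : E3) (s : C2) : sg (v + w) s = sg v s + sg w s := by
  ext i
  fin_cases i
  · change (sg (v + w) s) 0 = (sg v s) 0 + (sg w s) 0
    rw [sg_c0, sg_c0, sg_c0]
    simp only [PiLp.add_apply]
    push_cast
    ring
  · change (sg (v + w) s) 1 = (sg v s) 1 + (sg w s) 1
    rw [sg_c1, sg_c1, sg_c1]
    simp only [PiLp.add_apply]
    push_cast
    ring

theorem sg_smul (c : ℝ) (v : E3) (s : C2) : sg (c • v) s = (c : ℂ) • sg v s := by
  ext i
  fin_cases i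
  · change (sg (c • v) s) 0 = (c : ℂ) * (sg v s) 0
    rw [sg_c0, sg_c0]
    simp only [PiLp.smul_apply, smul_eq_mul]
    push_cast
    ring
  · change (sg (c • v) s) 1 = (c : ℂ) * (sg v s) 1
    rw [sg_c1, sg_c1]
    simp only [PiLp.smul_apply, smul_eq_mul]
    push_cast
    ring

theorem sg_add_right (v : E3) (s t : C2) : sg v (s + t) = sg v s + sg v t := by
  ext i
  fin_cases i
  · change (sg v (s + t)) 0 = (sg v s) 0 + (sg v t) 0
    rw [sg_c0, sg_c0, sg_c0]
    simp only [PiLp.add_apply]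
    ring
  · change (sg v (s + t)) 1 = (sg v s) 1 + (sg v t) 1
    rw [sg_c1, sg_c1, sg_c1]
    simp only [PiLp.add_apply]
    ring

theorem sg_smul_right (v : E3) (c : ℂ) (s : C2) : sg v (c • s) = c • sg v s := by
  ext i
  fin_cases i
  · change (sg v (c • s)) 0 = c * (sg v s) 0
    rw [sg_c0, sg_c0]
    simp only [PiLp.smul_apply, smul_eq_mul]
    ring
  · change (sg v (c • s)) 1 = c * (sg v s) 1
    rw [sg_c1, sg_c1]
    simp only [PiLp.smul_apply, smul_eq_mul]
    ring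

/-- `∑ⱼ vⱼ σⱼ = σ·v` -/
theorem sum_sg (v : E3) (s : C2) : ∑ j : Fin 3, (v j : ℂ) • sg (ee j) s = sg v s := by
  have h : v = ∑ j : Fin 3, (v j) • ee j := by
    ext i
    fin_cases i <;> simp [ee, Fin.sum_univ_three]
  conv_rhs => rw [h]
  rw [Fin.sum_univ_three, Fin.sum_univ_three, sg_add, sg_add, sg_smul, sg_smul, sg_smul]

end Pool.Agent.Helper985.PS
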