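import Pool.Agent.Helper985.PS.M_braket_hamiltonian
import Pool.Agent.Helper985.PS.M_pauli
import Pool.Agent.Helper985.PS.Defs

set_option autoImplicit false

open MeasureTheory
open scoped Topology

namespace Pool.Agent.Helper985.PS









/-! ### helper lemmas for `link` -/

theorem lk_gauss {ι : Type} [Fintype ι] (c : ℝ) (hc : 0 < c) :
    Integrable (fun q : ι → ℝ => Real.exp (-c * ∑ m, q m ^ 2)) := by
  have h := Integrable.fintype_prod (f := fun (_ : ι) (x : ℝ) => Real.exp (-c * x ^ 2))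
    (μ := fun _ => (volume : Measure ℝ)) (fun _ => integrable_exp_neg_mul_sq hc)
  refine h.congr (Filter.Eventually.of_forall fun q => ?_)
  show ∏ i, Real.exp (-c * q i ^ 2) = Real.exp (-c * ∑ m, q m ^ 2)
  rw [← Real.exp_sum, Finset.mul_sum]

theorem lk_gauss_bd {ι : Type} [Fintype ι] (f : (ι → ℝ) → ℝ) (hf : Continuous f)
    (h0 : ∀ q, 0 ≤ f q) (C c : ℝ) (hc : 0 < c)
    (h : ∀ q, f q ≤ C * Real.exp (-c * ∑ m, q m ^ 2)) : Integrable f := by
  refine ((lk_gauss c hc).const_mul C).mono' hf.aestronglyMeasurable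
    (Filter.Eventually.of_forall fun q => ?_)
  rw [Real.norm_eq_abs, abs_of_nonneg (h0 q)]
  exact h q

theorem lk_iofReal {X : Type*} [MeasureSpace X] (f : X → ℝ) :
    ∫ q, ((f q : ℝ) : ℂ) = ((∫ q, f q : ℝ) : ℂ) := integral_ofReal (𝕜 := ℂ)

section rep
variable {L Λ : ℝ} {pol : Mode L Λ → E3} {J : Fock (Mode L Λ) →ₗ[ℂ] ((Mode L Λ → ℝ) → ℂ)}

theorem lk_cont (hJ : IsRep pol J) (v : Fock (Mode L Λ)) : Continuous (J v) :=
  (hJ.smooth v).continuous

theorem lk_dcont (hJ : IsRep pol J) (v : Fock (Mode L Λ)) (m : Mode L Λ) :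
    Continuous (fun q => fderiv ℝ (J v) q (Pi.single m 1)) :=
  ((hJ.smooth v).continuous_fderiv (by simp)).clm_apply continuous_const

theorem lk_sq_exp (C c S : ℝ) : (C * Real.exp (-c * S)) ^ 2 = C ^ 2 * Real.exp (-(2 * c) * S) := by
  rw [mul_pow, ← Real.exp_nat_mul]
  congr 2
  push_cast
  ring

theorem lk_int_sq (hJ : IsRep pol J) (v : Fock (Mode L Λ)) :
    Integrable (fun q => ‖J v q‖ ^ 2) := by
  obtain ⟨C, c, hc, h⟩ := hJ.decay v
  refine lk_gauss_bd _ ((lk_cont hJ v).norm.pow 2) (fun q => by positivity) (C ^ 2) (2 * c)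
    (by positivity) (fun q => ?_)
  rw [← lk_sq_exp]
  exact pow_le_pow_left₀ (norm_nonneg _) (h q) 2

theorem lk_int_dsq (hJ : IsRep pol J) (v : Fock (Mode L Λ)) (m : Mode L Λ) :
    Integrable (fun q => ‖fderiv ℝ (J v) q (Pi.single m 1)‖ ^ 2) := by
  obtain ⟨C, c, hc, h⟩ := hJ.ddecay v m
  refine lk_gauss_bd _ ((lk_dcont hJ v m).norm.pow 2) (fun q => by positivity) (C ^ 2) (2 * c)
    (by positivity) (fun q => ?_)
  rw [← lk_sq_exp]
  exact pow_le_pow_left₀ (norm_nonneg _) (h q) 2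

theorem lk_int_q (hJ : IsRep pol J) (v : Fock (Mode L Λ)) (m : Mode L Λ) (a : ℝ) (ha : 0 ≤ a) :
    Integrable (fun q : Mode L Λ → ℝ => a * q m ^ 2 * ‖J v q‖ ^ 2) := by
  obtain ⟨C, c, hc, h⟩ := hJ.decay v
  refine lk_gauss_bd _ ((continuous_const.mul ((continuous_apply m).pow 2)).mul
    ((lk_cont hJ v).norm.pow 2)) (fun q => by positivity) (a * (C ^ 2 * (1 / c))) c hc (fun q => ?_)
  set S := ∑ m, q m ^ 2 with hS
  have h1 : ‖J v q‖ ^ 2 ≤ C ^ 2 * Real.exp (-(2 * c) * S) := by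
    rw [← lk_sq_exp]
    exact pow_le_pow_left₀ (norm_nonneg _) (h q) 2
  have h2 : q m ^ 2 ≤ S := Finset.single_le_sum (f := fun m => q m ^ 2)
    (fun m _ => sq_nonneg (q m)) (Finset.mem_univ m)
  have h3 : S ≤ (1 / c) * Real.exp (c * S) := by
    have h4 := Real.add_one_le_exp (c * S)
    rw [one_div, inv_mul_eq_div, le_div_iff₀ hc]
    linarith
  have h5 : Real.exp (c * S) * Real.exp (-(2 * c) * S) = Real.exp (-c * S) := by
    rw [← Real.exp_add]
    congr 1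
    ring
  have hS0 : 0 ≤ S := Finset.sum_nonneg (fun m _ => sq_nonneg (q m))
  calc a * q m ^ 2 * ‖J v q‖ ^ 2 ≤ a * S * (C ^ 2 * Real.exp (-(2 * c) * S)) := by
        apply mul_le_mul _ h1 (by positivity) (by positivity)
        exact mul_le_mul_of_nonneg_left h2 ha
    _ ≤ a * ((1 / c) * Real.exp (c * S)) * (C ^ 2 * Real.exp (-(2 * c) * S)) := by
        apply mul_le_mul_of_nonneg_right _ (by positivity)
        exact mul_le_mul_of_nonneg_left h3 ha
    _ = a * (C ^ 2 * (1 / c)) * (Real.exp (c * S) * Real.exp (-(2 * c) * S)) := by ring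
    _ = a * (C ^ 2 * (1 / c)) * Real.exp (-c * S) := by rw [h5]

theorem lk_norm (hJ : IsRep pol J) (v : Fock (Mode L Λ)) : ∫ q, ‖J v q‖ ^ 2 = ‖v‖ ^ 2 := by
  have h := hJ.isom v v
  have e : (fun q => (starRingEnd ℂ) (J v q) * J v q) = fun q => (((‖J v q‖ ^ 2 : ℝ)) : ℂ) := by
    funext q
    rw [Complex.conj_mul']
    push_cast
    rfl
  rw [e, lk_iofReal, inner_self_eq_norm_sq_to_K] at h
  apply Complex.ofReal_injective
  rw [h, Complex.ofReal_pow]
  rfl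

theorem lk_energy (hJ : IsRep pol J) (v : Fock (Mode L Λ)) :
    (inner ℂ v (fieldEnergy L Λ v) : ℂ).re =
      (1 / 2) * (∫ q, ∑ m : Mode L Λ, (‖fderiv ℝ (J v) q (Pi.single m 1)‖ ^ 2 +
        ‖m.k‖ ^ 2 * q m ^ 2 * ‖J v q‖ ^ 2)) -
      (1 / 2) * (∑ m : Mode L Λ, ‖m.k‖) * ‖v‖ ^ 2 := by
  have h := hJ.energy v v
  have e : (fun q : Mode L Λ → ℝ => ∑ m : Mode L Λ,
      ((starRingEnd ℂ) (fderiv ℝ (J v) q (Pi.single m 1)) * fderiv ℝ (J v) q (Pi.single m 1) +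
        ((‖m.k‖ ^ 2 * q m ^ 2 : ℝ) : ℂ) * ((starRingEnd ℂ) (J v q) * J v q))) =
      fun q => (((∑ m : Mode L Λ, (‖fderiv ℝ (J v) q (Pi.single m 1)‖ ^ 2 +
        ‖m.k‖ ^ 2 * q m ^ 2 * ‖J v q‖ ^ 2) : ℝ)) : ℂ) := by
    funext q
    rw [Complex.ofReal_sum]
    apply Finset.sum_congr rfl
    intro m _
    rw [Complex.conj_mul', Complex.conj_mul']
    push_cast
    ring
  rw [e, lk_iofReal, inner_self_eq_norm_sq_to_K] at h
  have h2 : (inner ℂ v (fieldEnergy L Λ v) : ℂ) =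
      (((1 / 2) * (∫ q, ∑ m : Mode L Λ, (‖fderiv ℝ (J v) q (Pi.single m 1)‖ ^ 2 +
        ‖m.k‖ ^ 2 * q m ^ 2 * ‖J v q‖ ^ 2)) -
      (1 / 2) * (∑ m : Mode L Λ, ‖m.k‖) * ‖v‖ ^ 2 : ℝ) : ℂ) := by
    rw [h]
    push_cast
    rfl
  rw [h2, Complex.ofReal_re]

end rep

theorem lk_tonelli {ι : Type} [Fintype ι] (f : E3 × (ι → ℝ) → ℝ) (hf0 : ∀ p, 0 ≤ f p)
    (hm : Continuous f) (hi : ∀ x, Integrable (fun q => f (x, q))) :
    ∫ p, f p = ∫ x, ∫ q, f (x, q) := by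
  by_cases h : Integrable f
  · exact integral_prod f h
  · rw [integral_undef h]
    symm
    apply integral_undef
    intro h2
    apply h
    have hms : AEStronglyMeasurable f ((volume : Measure E3).prod (volume : Measure (ι → ℝ))) :=
      hm.aestronglyMeasurable
    refine (integrable_prod_iff hms).2 ⟨Filter.Eventually.of_forall hi, ?_⟩
    refine h2.congr (Filter.Eventually.of_forall fun x => ?_)
    show ∫ q, f (x, q) = ∫ q, ‖f (x, q)‖
    congr 1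
    funext q
    rw [Real.norm_eq_abs, abs_of_nonneg (hf0 _)]


section lk2
variable {L Λ : ℝ} {pol : Mode L Λ → E3} {J : Fock (Mode L Λ) →ₗ[ℂ] ((Mode L Λ → ℝ) → ℂ)}
  {r : ℕ}

theorem lk_J (J : Fock (Mode L Λ) →ₗ[ℂ] ((Mode L Λ → ℝ) → ℂ)) (a : Fin r → ℂ)
    (P : Fin r → Fock (Mode L Λ)) (q : Mode L Λ → ℝ) :
    J (∑ j, a j • P j) q = ∑ j, a j * J (P j) q := by
  rw [map_sum, Finset.sum_apply]
  apply Finset.sum_congr rfl
  intro j _
  rw [map_smul, Pi.smul_apply, smul_eq_mul]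

/-- the wave function -/
noncomputable def lkF (J : Fock (Mode L Λ) →ₗ[ℂ] ((Mode L Λ → ℝ) → ℂ))
    (c : Fin 2 → Fin r → E3 → ℂ) (P : Fin r → Fock (Mode L Λ)) (p : E3 × (Mode L Λ → ℝ)) : C2 :=
  WithLp.toLp 2 (fun s : Fin 2 => ∑ j, c s j p.1 * J (P j) p.2)

theorem lkF_apply (c : Fin 2 → Fin r → E3 → ℂ) (P : Fin r → Fock (Mode L Λ))
    (p : E3 × (Mode L Λ → ℝ)) (s : Fin 2) :
    lkF J c P p s = ∑ j, c s j p.1 * J (P j) p.2 := rfl

theorem lkF_smooth (hJ : IsRep pol J) (c : Fin 2 → Fin r → E3 → ℂ)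
    (P : Fin r → Fock (Mode L Λ)) (hc : ∀ s j, ContDiff ℝ SM (c s j)) :
    ContDiff ℝ SM (lkF J c P) := by
  refine (contDiff_piLp (𝕜 := ℝ) 2).2 (fun s => ?_)
  show ContDiff ℝ SM (fun p : E3 × (Mode L Λ → ℝ) => ∑ j, c s j p.1 * J (P j) p.2)
  apply ContDiff.sum
  intro j _
  exact ((hc s j).comp contDiff_fst).mul ((hJ.smooth (P j)).comp contDiff_snd)

theorem lkF_fderiv (hJ : IsRep pol J) (c : Fin 2 → Fin r → E3 → ℂ)
    (P : Fin r → Fock (Mode L Λ)) (hc : ∀ s j, ContDiff ℝ SM (c s j))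
    (p v : E3 × (Mode L Λ → ℝ)) (s : Fin 2) :
    (fderiv ℝ (lkF J c P) p v) s =
      ∑ j, (fderiv ℝ (c s j) p.1 v.1 * J (P j) p.2 + c s j p.1 * fderiv ℝ (J (P j)) p.2 v.2) := by
  have hd : HasFDerivAt (lkF J c P) (fderiv ℝ (lkF J c P) p) p :=
    (((lkF_smooth hJ c P hc).differentiable (by simp)) p).hasFDerivAt
  let π : C2 →L[ℝ] ℂ := ((EuclideanSpace.proj s : C2 →L[ℂ] ℂ)).restrictScalars ℝ
  have h1 : HasFDerivAt (fun p => ∑ j, c s j p.1 * J (P j) p.2)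
      (π.comp (fderiv ℝ (lkF J c P) p)) p := π.hasFDerivAt.comp p hd
  have hcd : ∀ j, HasFDerivAt (fun p : E3 × (Mode L Λ → ℝ) => c s j p.1)
      ((fderiv ℝ (c s j) p.1).comp (ContinuousLinearMap.fst ℝ E3 (Mode L Λ → ℝ))) p := fun j =>
    ((((hc s j).differentiable (by simp)) p.1).hasFDerivAt).comp p hasFDerivAt_fst
  have hJd : ∀ j, HasFDerivAt (fun p : E3 × (Mode L Λ → ℝ) => J (P j) p.2)
      ((fderiv ℝ (J (P j)) p.2).comp (ContinuousLinearMap.snd ℝ E3 (Mode L Λ → ℝ))) p := fun j =>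
    ((((hJ.smooth (P j)).differentiable (by simp)) p.2).hasFDerivAt).comp p hasFDerivAt_snd
  have h2 := HasFDerivAt.fun_sum (u := Finset.univ) (fun j _ => (hcd j).mul (hJd j))
  have h3 := congrArg (fun f : E3 × (Mode L Λ → ℝ) →L[ℝ] ℂ => f v) (h1.unique h2)
  have h4 : (π.comp (fderiv ℝ (lkF J c P) p)) v = (fderiv ℝ (lkF J c P) p v) s := rfl
  rw [← h4]
  refine h3.trans ?_
  rw [ContinuousLinearMap.sum_apply]
  apply Finset.sum_congr rfl
  intro j _
  simp only [ContinuousLinearMap.add_apply, ContinuousLinearMap.smul_apply,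
    ContinuousLinearMap.comp_apply, ContinuousLinearMap.coe_fst', ContinuousLinearMap.coe_snd',
    smul_eq_mul]
  ring

theorem lk_fderiv_J (hJ : IsRep pol J) (a : Fin r → ℂ)
    (P : Fin r → Fock (Mode L Λ)) (q v : Mode L Λ → ℝ) :
    fderiv ℝ (J (∑ j, a j • P j)) q v = ∑ j, a j * fderiv ℝ (J (P j)) q v := by
  have e : J (∑ j, a j • P j) = fun q => ∑ j, a j * J (P j) q := by
    funext q
    exact lk_J J a P q
  rw [e]
  have h2 := HasFDerivAt.fun_sum (u := Finset.univ) (x := q)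
    (fun j _ => ((((hJ.smooth (P j)).differentiable (by simp)) q).hasFDerivAt).const_mul (a j))
  rw [h2.fderiv, ContinuousLinearMap.sum_apply]
  apply Finset.sum_congr rfl
  intro j _
  simp only [ContinuousLinearMap.smul_apply, smul_eq_mul]

theorem lkF_fderiv_snd (hJ : IsRep pol J) (c : Fin 2 → Fin r → E3 → ℂ)
    (P : Fin r → Fock (Mode L Λ)) (hc : ∀ s j, ContDiff ℝ SM (c s j))
    (p : E3 × (Mode L Λ → ℝ)) (v : Mode L Λ → ℝ) (s : Fin 2) :
    (fderiv ℝ (lkF J c P) p (0, v)) s = fderiv ℝ (J (∑ j, c s j p.1 • P j)) p.2 v := by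
  rw [lkF_fderiv hJ c P hc, lk_fderiv_J hJ]
  simp

theorem lk_fderiv_state (c : Fin r → E3 → ℂ) (P : Fin r → Fock (Mode L Λ))
    (hc : ∀ j, ContDiff ℝ SM (c j)) (x v : E3) :
    fderiv ℝ (fun x => ∑ j, c j x • P j) x v = ∑ j, (fderiv ℝ (c j) x v) • P j := by
  have h2 := HasFDerivAt.fun_sum (u := Finset.univ) (x := x)
    (fun j _ => ((((hc j).differentiable (by simp)) x).hasFDerivAt).smul_const (P j))
  rw [h2.fderiv, ContinuousLinearMap.sum_apply]
  apply Finset.sum_congr rfl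
  intro j _
  rfl

theorem lkF_fderiv_fst (hJ : IsRep pol J) (c : Fin 2 → Fin r → E3 → ℂ)
    (P : Fin r → Fock (Mode L Λ)) (hc : ∀ s j, ContDiff ℝ SM (c s j))
    (p : E3 × (Mode L Λ → ℝ)) (v : E3) (s : Fin 2) :
    (fderiv ℝ (lkF J c P) p (v, 0)) s =
      J (fderiv ℝ (fun x => ∑ j, c s j x • P j) p.1 v) p.2 := by
  rw [lkF_fderiv hJ c P hc, lk_fderiv_state (c s) P (hc s), lk_J]
  simp

theorem lk_sigma (i : Fin 3) : sigma (ee i) = pauliMatrix i := by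
  fin_cases i <;> ext a b <;> fin_cases a <;> fin_cases b <;>
    simp [sigma, ee, pauliMatrix]

theorem lk_sg_apply (i : Fin 3) (w : C2) (s : Fin 2) :
    sg (ee i) w s = ∑ t, pauliMatrix i s t * w t := by
  show (sigma (ee i)).mulVec w.ofLp s = _
  rw [lk_sigma]
  rfl

theorem lk_pauli (α : ℝ) (e : Mode L Λ → E3 → E3) (F : E3 × (Mode L Λ → ℝ) → C2)
    (p : E3 × (Mode L Λ → ℝ)) (s : Fin 2) :
    (pauli α e F p) s = ∑ i : Fin 3, ∑ t : Fin 2, pauliMatrix i s t *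
      ((-Complex.I) * (fderiv ℝ F p (ee i, 0)) t +
        ((Real.sqrt α : ℝ) : ℂ) * (((vecPot e p.2 p.1 i : ℝ) : ℂ) * (F p) t)) := by
  unfold pauli
  rw [← sum_sg]
  rw [PiLp.add_apply, PiLp.smul_apply]
  have h1 : (∑ j : Fin 3, (-Complex.I) • sg (ee j) (fderiv ℝ F p (ee j, 0))) s =
      ∑ j : Fin 3, (-Complex.I) * ∑ t, pauliMatrix j s t * (fderiv ℝ F p (ee j, 0)) t := by
    rw [WithLp.ofLp_sum, Finset.sum_apply]
    apply Finset.sum_congr rfl
    intro j _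
    rw [PiLp.smul_apply, lk_sg_apply, smul_eq_mul]
  have h2 : (∑ j : Fin 3, ((vecPot e p.2 p.1 j : ℝ) : ℂ) • sg (ee j) (F p)) s =
      ∑ j : Fin 3, ((vecPot e p.2 p.1 j : ℝ) : ℂ) * ∑ t, pauliMatrix j s t * (F p) t := by
    rw [WithLp.ofLp_sum, Finset.sum_apply]
    apply Finset.sum_congr rfl
    intro j _
    rw [PiLp.smul_apply, lk_sg_apply, smul_eq_mul]
  rw [h1, h2, smul_eq_mul, Finset.mul_sum, ← Finset.sum_add_distrib]
  apply Finset.sum_congr rfl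
  intro j _
  rw [Finset.mul_sum, Finset.mul_sum, Finset.mul_sum, ← Finset.sum_add_distrib]
  apply Finset.sum_congr rfl
  intro t _
  ring

theorem lk_pauliOp (hJ : IsRep pol J) (α : ℝ) (c : Fin 2 → Fin r → E3 → ℂ)
    (P : Fin r → Fock (Mode L Λ)) (hc : ∀ s j, ContDiff ℝ SM (c s j))
    (p : E3 × (Mode L Λ → ℝ)) (s : Fin 2) :
    J (pauliOp α L Λ pol (fun (s : Fin 2) (x : E3) => ∑ j, c s j x • P j) s p.1) p.2 =
      (pauli α (modeFn pol) (lkF J c P) p) s := by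
  rw [lk_pauli]
  unfold pauliOp
  rw [map_sum, Finset.sum_apply]
  apply Finset.sum_congr rfl
  intro i _
  rw [map_sum, Finset.sum_apply]
  apply Finset.sum_congr rfl
  intro t _
  rw [map_smul, Pi.smul_apply, smul_eq_mul]
  congr 1
  unfold velocity
  rw [map_add, Pi.add_apply, map_smul, Pi.smul_apply, smul_eq_mul, map_smul, Pi.smul_apply,
    smul_eq_mul, hJ.field, lkF_fderiv_fst hJ c P hc, lkF_apply, lk_J]
  rfl

theorem lk_normsq (w : C2) : ‖w‖ ^ 2 = ∑ s, ‖w s‖ ^ 2 := EuclideanSpace.norm_sq_eq w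

end lk2

section lk3
variable {L Λ : ℝ} {pol : Mode L Λ → E3} {J : Fock (Mode L Λ) →ₗ[ℂ] ((Mode L Λ → ℝ) → ℂ)}
  {r : ℕ}

theorem lk_state_smooth (c : Fin r → E3 → ℂ) (P : Fin r → Fock (Mode L Λ))
    (hc : ∀ j, ContDiff ℝ SM (c j)) : ContDiff ℝ SM (fun x => ∑ j, c j x • P j) := by
  apply ContDiff.sum
  intro j _
  exact (hc j).smul contDiff_const

theorem lk_state_supp (c : Fin r → E3 → ℂ) (P : Fin r → Fock (Mode L Λ))
    (hcc : ∀ j, HasCompactSupport (c j)) : HasCompactSupport (fun x => ∑ j, c j x • P j) := by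
  have hK : IsCompact (⋃ j, tsupport (c j)) := isCompact_iUnion hcc
  refine HasCompactSupport.intro hK (fun x hx => ?_)
  apply Finset.sum_eq_zero
  intro j _
  have h1 : x ∉ tsupport (c j) := fun h => hx (Set.mem_iUnion.2 ⟨j, h⟩)
  rw [image_eq_zero_of_notMem_tsupport h1, zero_smul]

theorem lk_isState (c : Fin 2 → Fin r → E3 → ℂ) (P : Fin r → Fock (Mode L Λ))
    (hc : ∀ s j, ContDiff ℝ SM (c s j)) (hcc : ∀ s j, HasCompactSupport (c s j)) :
    IsState (fun (s : Fin 2) (x : E3) => ∑ j, c s j x • P j) where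
  smooth s := lk_state_smooth (c s) P (hc s)
  compact s := lk_state_supp (c s) P (hcc s)
  finite := by
    refine ⟨Submodule.span ℂ (Set.range P), FiniteDimensional.span_of_finite ℂ
      (Set.finite_range P), fun s x => ?_⟩
    apply Submodule.sum_mem
    intro j _
    exact Submodule.smul_mem _ _ (Submodule.subset_span ⟨j, rfl⟩)

theorem lk_vecPot_cont (i : Fin 3) :
    Continuous (fun p : E3 × (Mode L Λ → ℝ) => vecPot (modeFn pol) p.2 p.1 i) := by
  have e : (fun p : E3 × (Mode L Λ → ℝ) => vecPot (modeFn pol) p.2 p.1 i) = fun p =>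
      ∑ m : Mode L Λ, p.2 m * (((Real.cos (inner ℝ m.k p.1) + Real.sin (inner ℝ m.k p.1)) /
        Real.sqrt (L ^ 3)) * pol m i) := by
    funext p
    unfold vecPot
    rw [WithLp.ofLp_sum, Finset.sum_apply]
    apply Finset.sum_congr rfl
    intro m _
    rw [PiLp.smul_apply, smul_eq_mul]
    congr 1
  rw [e]
  apply continuous_finsetSum
  intro m _
  fun_prop

theorem lk_pauli_cont (hJ : IsRep pol J) (α : ℝ) (c : Fin 2 → Fin r → E3 → ℂ)
    (P : Fin r → Fock (Mode L Λ)) (hc : ∀ s j, ContDiff ℝ SM (c s j)) :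
    Continuous (fun p => ‖pauli α (modeFn pol) (lkF J c P) p‖ ^ 2) := by
  have e : (fun p => ‖pauli α (modeFn pol) (lkF J c P) p‖ ^ 2) =
      fun p => ∑ s : Fin 2, ‖(∑ i : Fin 3, ∑ t : Fin 2, pauliMatrix i s t *
      ((-Complex.I) * (fderiv ℝ (lkF J c P) p (ee i, 0)) t +
        ((Real.sqrt α : ℝ) : ℂ) * (((vecPot (modeFn pol) p.2 p.1 i : ℝ) : ℂ) *
          (lkF J c P p) t)))‖ ^ 2 := by
    funext p
    rw [lk_normsq]
    apply Finset.sum_congr rfl
    intro s _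
    rw [lk_pauli]
  rw [e]
  have hF := lkF_smooth hJ c P hc
  apply continuous_finsetSum
  intro s _
  apply Continuous.pow
  apply Continuous.norm
  apply continuous_finsetSum
  intro i _
  apply continuous_finsetSum
  intro t _
  apply Continuous.mul continuous_const
  apply Continuous.add
  · apply Continuous.mul continuous_const
    have h1 : Continuous (fun p => fderiv ℝ (lkF J c P) p (ee i, 0)) :=
      (hF.continuous_fderiv (by simp)).clm_apply continuous_const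
    exact (PiLp.continuous_apply 2 (fun _ : Fin 2 => ℂ) t).comp h1
  · apply Continuous.mul continuous_const
    apply Continuous.mul
    · exact Complex.continuous_ofReal.comp (lk_vecPot_cont i)
    · exact (PiLp.continuous_apply 2 (fun _ : Fin 2 => ℂ) t).comp hF.continuous

theorem lk_mass (hJ : IsRep pol J) (c : Fin 2 → Fin r → E3 → ℂ)
    (P : Fin r → Fock (Mode L Λ)) (hc : ∀ s j, ContDiff ℝ SM (c s j)) :
    ∫ p, ‖lkF J c P p‖ ^ 2 = ∫ x, ∑ s, ‖∑ j, c s j x • P j‖ ^ 2 := by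
  have hF := lkF_smooth hJ c P hc
  have e1 : ∀ p, ‖lkF J c P p‖ ^ 2 = ∑ s, ‖J (∑ j, c s j p.1 • P j) p.2‖ ^ 2 := by
    intro p
    rw [lk_normsq]
    apply Finset.sum_congr rfl
    intro s _
    rw [lkF_apply, lk_J]
  rw [lk_tonelli (fun p => ‖lkF J c P p‖ ^ 2) (fun p => by positivity)
    (hF.continuous.norm.pow 2) (fun x => ?_)]
  · apply integral_congr_ae
    refine Filter.Eventually.of_forall (fun x => ?_)
    show ∫ q, ‖lkF J c P (x, q)‖ ^ 2 = _
    simp only [e1]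
    rw [integral_finsetSum _ (fun s _ => lk_int_sq hJ _)]
    apply Finset.sum_congr rfl
    intro s _
    exact lk_norm hJ _
  · simp only [e1]
    exact integrable_finsetSum _ (fun s _ => lk_int_sq hJ _)

theorem lk_kin (hJ : IsRep pol J) (α : ℝ) (c : Fin 2 → Fin r → E3 → ℂ)
    (P : Fin r → Fock (Mode L Λ)) (hc : ∀ s j, ContDiff ℝ SM (c s j)) :
    ∫ p, ‖pauli α (modeFn pol) (lkF J c P) p‖ ^ 2 =
      ∫ x, ∑ s, ‖pauliOp α L Λ pol (fun (s : Fin 2) (x : E3) => ∑ j, c s j x • P j) s x‖ ^ 2 := by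
  have e1 : ∀ p, ‖pauli α (modeFn pol) (lkF J c P) p‖ ^ 2 =
      ∑ s, ‖J (pauliOp α L Λ pol (fun (s : Fin 2) (x : E3) => ∑ j, c s j x • P j) s p.1)
        p.2‖ ^ 2 := by
    intro p
    rw [lk_normsq]
    apply Finset.sum_congr rfl
    intro s _
    rw [lk_pauliOp hJ α c P hc]
  rw [lk_tonelli _ (fun p => by positivity) (lk_pauli_cont hJ α c P hc) (fun x => ?_)]
  · apply integral_congr_ae
    refine Filter.Eventually.of_forall (fun x => ?_)
    show ∫ q, ‖pauli α (modeFn pol) (lkF J c P) (x, q)‖ ^ 2 = _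
    simp only [e1]
    rw [integral_finsetSum _ (fun s _ => lk_int_sq hJ _)]
    apply Finset.sum_congr rfl
    intro s _
    exact lk_norm hJ _
  · simp only [e1]
    exact integrable_finsetSum _ (fun s _ => lk_int_sq hJ _)

theorem lk_field_int (hJ : IsRep pol J) (v : Fock (Mode L Λ)) :
    Integrable (fun q => ∑ m : Mode L Λ, (‖fderiv ℝ (J v) q (Pi.single m 1)‖ ^ 2 +
        ‖m.k‖ ^ 2 * q m ^ 2 * ‖J v q‖ ^ 2)) :=
  integrable_finsetSum _ (fun m _ => (lk_int_dsq hJ v m).add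
    (lk_int_q hJ v m (‖m.k‖ ^ 2) (by positivity)))

theorem lk_field (hJ : IsRep pol J) (c : Fin 2 → Fin r → E3 → ℂ)
    (P : Fin r → Fock (Mode L Λ)) (hc : ∀ s j, ContDiff ℝ SM (c s j)) :
    ∫ p, ∑ m : Mode L Λ, (‖fderiv ℝ (lkF J c P) p (0, Pi.single m 1)‖ ^ 2 +
      ‖m.k‖ ^ 2 * p.2 m ^ 2 * ‖lkF J c P p‖ ^ 2) =
      ∫ x, ∑ s, ∫ q, ∑ m : Mode L Λ,
        (‖fderiv ℝ (J (∑ j, c s j x • P j)) q (Pi.single m 1)‖ ^ 2 +
        ‖m.k‖ ^ 2 * q m ^ 2 * ‖J (∑ j, c s j x • P j) q‖ ^ 2) := by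
  have hF := lkF_smooth hJ c P hc
  have e1 : ∀ p : E3 × (Mode L Λ → ℝ),
      ∑ m : Mode L Λ, (‖fderiv ℝ (lkF J c P) p (0, Pi.single m 1)‖ ^ 2 +
        ‖m.k‖ ^ 2 * p.2 m ^ 2 * ‖lkF J c P p‖ ^ 2) =
      ∑ s, ∑ m : Mode L Λ, (‖fderiv ℝ (J (∑ j, c s j p.1 • P j)) p.2 (Pi.single m 1)‖ ^ 2 +
        ‖m.k‖ ^ 2 * p.2 m ^ 2 * ‖J (∑ j, c s j p.1 • P j) p.2‖ ^ 2) := by
    intro p
    rw [Finset.sum_comm]
    apply Finset.sum_congr rfl
    intro m _
    rw [lk_normsq, lk_normsq, Finset.mul_sum, ← Finset.sum_add_distrib]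
    apply Finset.sum_congr rfl
    intro s _
    rw [lkF_fderiv_snd hJ c P hc, lkF_apply, lk_J]
  have hcont : Continuous (fun p : E3 × (Mode L Λ → ℝ) =>
      ∑ m : Mode L Λ, (‖fderiv ℝ (lkF J c P) p (0, Pi.single m 1)‖ ^ 2 +
        ‖m.k‖ ^ 2 * p.2 m ^ 2 * ‖lkF J c P p‖ ^ 2)) := by
    apply continuous_finsetSum
    intro m _
    apply Continuous.add
    · exact ((hF.continuous_fderiv (by simp)).clm_apply continuous_const).norm.pow 2
    · exact (continuous_const.mul (((continuous_apply m).comp continuous_snd).pow 2)).mul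
        (hF.continuous.norm.pow 2)
  rw [lk_tonelli _ (fun p => Finset.sum_nonneg (fun m _ => by positivity)) hcont (fun x => ?_)]
  · apply integral_congr_ae
    refine Filter.Eventually.of_forall (fun x => ?_)
    show ∫ q, ∑ m : Mode L Λ, (‖fderiv ℝ (lkF J c P) (x, q) (0, Pi.single m 1)‖ ^ 2 +
        ‖m.k‖ ^ 2 * q m ^ 2 * ‖lkF J c P (x, q)‖ ^ 2) = _
    have e2 : (fun q : Mode L Λ → ℝ =>
        ∑ m : Mode L Λ, (‖fderiv ℝ (lkF J c P) (x, q) (0, Pi.single m 1)‖ ^ 2 +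
        ‖m.k‖ ^ 2 * q m ^ 2 * ‖lkF J c P (x, q)‖ ^ 2)) = fun q =>
        ∑ s, ∑ m : Mode L Λ, (‖fderiv ℝ (J (∑ j, c s j x • P j)) q (Pi.single m 1)‖ ^ 2 +
        ‖m.k‖ ^ 2 * q m ^ 2 * ‖J (∑ j, c s j x • P j) q‖ ^ 2) := by
      funext q
      exact e1 (x, q)
    rw [e2, integral_finsetSum _ (fun s _ => lk_field_int hJ _)]
  · have e2 : (fun q : Mode L Λ → ℝ =>
        ∑ m : Mode L Λ, (‖fderiv ℝ (lkF J c P) (x, q) (0, Pi.single m 1)‖ ^ 2 +
        ‖m.k‖ ^ 2 * q m ^ 2 * ‖lkF J c P (x, q)‖ ^ 2)) = fun q =>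
        ∑ s, ∑ m : Mode L Λ, (‖fderiv ℝ (J (∑ j, c s j x • P j)) q (Pi.single m 1)‖ ^ 2 +
        ‖m.k‖ ^ 2 * q m ^ 2 * ‖J (∑ j, c s j x • P j) q‖ ^ 2) := by
      funext q
      exact e1 (x, q)
    rw [e2]
    exact integrable_finsetSum _ (fun s _ => lk_field_int hJ _)

theorem lk_fe_lin (a : Fin r → ℂ) (P : Fin r → Fock (Mode L Λ)) :
    fieldEnergy L Λ (∑ j, a j • P j) = ∑ j, a j • fieldEnergy L Λ (P j) := by
  unfold fieldEnergy
  simp only [finsum_eq_sum_of_fintype, map_sum, map_smul, Finset.smul_sum]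
  rw [Finset.sum_comm]
  apply Finset.sum_congr rfl
  intro j _
  apply Finset.sum_congr rfl
  intro m _
  rw [smul_comm]

theorem lk_E_int (c : Fin r → E3 → ℂ) (P : Fin r → Fock (Mode L Λ))
    (hc : ∀ j, ContDiff ℝ SM (c j)) (hcc : ∀ j, HasCompactSupport (c j)) :
    Integrable (fun x => (inner ℂ (∑ j, c j x • P j)
      (fieldEnergy L Λ (∑ j, c j x • P j)) : ℂ).re) := by
  have hsup : HasCompactSupport (fun x => (inner ℂ (∑ j, c j x • P j)
      (fieldEnergy L Λ (∑ j, c j x • P j)) : ℂ).re) := by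
    refine (lk_state_supp c P hcc).mono (fun x hx hx0 => hx ?_)
    have h0 : (∑ j, c j x • P j) = 0 := hx0
    show (inner ℂ (∑ j, c j x • P j) (fieldEnergy L Λ (∑ j, c j x • P j)) : ℂ).re = 0
    rw [h0, inner_zero_left, Complex.zero_re]
  refine Continuous.integrable_of_hasCompactSupport ?_ hsup
  have e : (fun x => (inner ℂ (∑ j, c j x • P j)
      (fieldEnergy L Λ (∑ j, c j x • P j)) : ℂ).re) = fun x =>
      (inner ℂ (∑ j, c j x • P j) (∑ j, c j x • fieldEnergy L Λ (P j)) : ℂ).re := by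
    funext x
    rw [lk_fe_lin]
  rw [e]
  apply Complex.continuous_re.comp
  apply Continuous.inner
  · exact continuous_finsetSum _ (fun j _ => (hc j).continuous.smul continuous_const)
  · exact continuous_finsetSum _ (fun j _ => (hc j).continuous.smul continuous_const)

theorem lk_N_int (c : Fin r → E3 → ℂ) (P : Fin r → Fock (Mode L Λ))
    (hc : ∀ j, ContDiff ℝ SM (c j)) (hcc : ∀ j, HasCompactSupport (c j)) :
    Integrable (fun x => ‖∑ j, c j x • P j‖ ^ 2) := by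
  have hsup : HasCompactSupport (fun x => ‖∑ j, c j x • P j‖ ^ 2) := by
    refine (lk_state_supp c P hcc).mono (fun x hx hx0 => hx ?_)
    have h0 : (∑ j, c j x • P j) = 0 := hx0
    show ‖∑ j, c j x • P j‖ ^ 2 = 0
    rw [h0]
    simp
  refine Continuous.integrable_of_hasCompactSupport ?_ hsup
  exact (continuous_finsetSum _ (fun j _ => (hc j).continuous.smul continuous_const)).norm.pow 2

end lk3
/-- the Fock space state corresponding to a finite sum of products -/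
theorem link {α L Λ : ℝ} (hα : 0 ≤ α) (hL : 0 < L) (pol : Mode L Λ → E3)
    (J : Fock (Mode L Λ) →ₗ[ℂ] ((Mode L Λ → ℝ) → ℂ)) (hJ : IsRep pol J) (r : ℕ)
    (c : Fin 2 → Fin r → E3 → ℂ) (P : Fin r → Fock (Mode L Λ))
    (hc : ∀ s j, ContDiff ℝ SM (c s j)) (hcc : ∀ s j, HasCompactSupport (c s j)) :
    IsState (fun (s : Fin 2) (x : E3) => ∑ j, c s j x • P j) ∧
    (braket (fun (s : Fin 2) (x : E3) => ∑ j, c s j x • P j)
      (fun (s : Fin 2) (x : E3) => ∑ j, c s j x • P j)).re =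
      (∫ p : E3 × (Mode L Λ → ℝ),
        ‖(WithLp.toLp 2 (fun s : Fin 2 => ∑ j, c s j p.1 * J (P j) p.2) : C2)‖ ^ 2) ∧
    (braket (fun (s : Fin 2) (x : E3) => ∑ j, c s j x • P j)
      (hamiltonian α L Λ pol (fun (s : Fin 2) (x : E3) => ∑ j, c s j x • P j))).re =
      form α (fun m : Mode L Λ => ‖m.k‖) (modeFn pol) (fun p : E3 × (Mode L Λ → ℝ) =>
        (WithLp.toLp 2 (fun s : Fin 2 => ∑ j, c s j p.1 * J (P j) p.2) : C2)) := by
  have hS := lk_isState c P hc hcc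
  have hmass := lk_mass hJ c P hc
  have hNint : Integrable (fun x => ∑ s, ‖∑ j, c s j x • P j‖ ^ 2) :=
    integrable_finsetSum _ (fun s _ => lk_N_int (c s) P (hc s) (hcc s))
  have hEint : Integrable (fun x => ∑ s, (inner ℂ (∑ j, c s j x • P j)
      (fieldEnergy L Λ (∑ j, c s j x • P j)) : ℂ).re) :=
    integrable_finsetSum _ (fun s _ => lk_E_int (c s) P (hc s) (hcc s))
  refine ⟨hS, ?_, ?_⟩
  · have e : (∫ p : E3 × (Mode L Λ → ℝ),
        ‖(WithLp.toLp 2 (fun s : Fin 2 => ∑ j, c s j p.1 * J (P j) p.2) : C2)‖ ^ 2) =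
        ∫ p, ‖lkF J c P p‖ ^ 2 := rfl
    rw [e, hmass]
    unfold braket
    have e2 : (fun x : E3 => ∑ s : Fin 2, (inner ℂ (∑ j, c s j x • P j)
        (∑ j, c s j x • P j) : ℂ)) =
        fun x => (((∑ s, ‖∑ j, c s j x • P j‖ ^ 2 : ℝ)) : ℂ) := by
      funext x
      rw [Complex.ofReal_sum]
      apply Finset.sum_congr rfl
      intro s _
      rw [inner_self_eq_norm_sq_to_K, Complex.ofReal_pow]
      rfl
    rw [e2, lk_iofReal, Complex.ofReal_re]
  · rw [braket_hamiltonian hL pol _ hS]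
    show _ = form α (fun m : Mode L Λ => ‖m.k‖) (modeFn pol) (lkF J c P)
    unfold form
    rw [lk_kin hJ α c P hc, lk_field hJ c P hc, hmass]
    have e3 : ∀ x : E3, (∑ s : Fin 2, ∫ q, ∑ m : Mode L Λ,
        (‖fderiv ℝ (J (∑ j, c s j x • P j)) q (Pi.single m 1)‖ ^ 2 +
        ‖m.k‖ ^ 2 * q m ^ 2 * ‖J (∑ j, c s j x • P j) q‖ ^ 2)) =
        2 * (∑ s, (inner ℂ (∑ j, c s j x • P j)
          (fieldEnergy L Λ (∑ j, c s j x • P j)) : ℂ).re) +
        (∑ m : Mode L Λ, ‖m.k‖) * ∑ s, ‖∑ j, c s j x • P j‖ ^ 2 := by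
      intro x
      rw [Finset.mul_sum, Finset.mul_sum, ← Finset.sum_add_distrib]
      apply Finset.sum_congr rfl
      intro s _
      rw [lk_energy hJ]
      ring
    have e4 : ∫ x : E3, (∑ s : Fin 2, ∫ q, ∑ m : Mode L Λ,
        (‖fderiv ℝ (J (∑ j, c s j x • P j)) q (Pi.single m 1)‖ ^ 2 +
        ‖m.k‖ ^ 2 * q m ^ 2 * ‖J (∑ j, c s j x • P j) q‖ ^ 2)) =
        2 * (∫ x, ∑ s, (inner ℂ (∑ j, c s j x • P j)
          (fieldEnergy L Λ (∑ j, c s j x • P j)) : ℂ).re) +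
        (∑ m : Mode L Λ, ‖m.k‖) * ∫ x, ∑ s, ‖∑ j, c s j x • P j‖ ^ 2 := by
      simp only [e3]
      rw [integral_add (hEint.const_mul 2) (hNint.const_mul _), integral_const_mul,
        integral_const_mul]
    rw [e4]
    ring

end Pool.Agent.Helper985.PS
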