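import Pool.Agent.Helper985.PS.M_braket_hamiltonian
import Pool.Agent.Helper985.PS.M_exists_rep
import Pool.Agent.Helper985.PS.M_form_close
import Pool.Agent.Helper985.PS.M_link
import Pool.Agent.Helper985.PS.M_modefn
import Pool.Agent.Helper985.PS.Defs

set_option autoImplicit false

open MeasureTheory
open scoped Topology

namespace Pool.Agent.Helper985.PS












theorem ground_le_fderiv {ι : Type} [Fintype ι] [DecidableEq ι] (D : E3 × (ι → ℝ) → C2)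
    (hD : Differentiable ℝ D) (p v : E3 × (ι → ℝ)) (s : Fin 2) :
    fderiv ℝ (fun p => D p s) p v = (fderiv ℝ D p v) s := by
  have h1 : HasFDerivAt (fun p => D p s)
      ((PiLp.proj (𝕜 := ℝ) 2 (fun _ : Fin 2 => ℂ) s : C2 →L[ℝ] ℂ).comp (fderiv ℝ D p)) p :=
    (PiLp.proj (𝕜 := ℝ) 2 (fun _ : Fin 2 => ℂ) s : C2 →L[ℝ] ℂ).hasFDerivAt.comp p
      (hD p).hasFDerivAt
  rw [h1.fderiv]
  rfl

theorem ground_le_norm (x : C2) : ‖x‖ ^ 2 = ‖x 0‖ ^ 2 + ‖x 1‖ ^ 2 := by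
  rw [EuclideanSpace.norm_sq_eq, Fin.sum_univ_two]

theorem ground_le_fn {ι : Type} [Fintype ι] [DecidableEq ι] (D : E3 × (ι → ℝ) → C2)
    (hD : Differentiable ℝ D) (p : E3 × (ι → ℝ)) :
    fn D p = fn (fun p => D p 0) p + fn (fun p => D p 1) p := by
  unfold fn
  simp only [ground_le_fderiv D hD, ground_le_norm, mul_add, Finset.sum_add_distrib]
  ring

theorem ground_le_comb {L Λ : ℝ} (J : Fock (Mode L Λ) →ₗ[ℂ] ((Mode L Λ → ℝ) → ℂ))
    (r0 r1 : ℕ) (c0 : Fin r0 → E3 → ℂ) (c1 : Fin r1 → E3 → ℂ) (P0 : Fin r0 → Fock (Mode L Λ))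
    (P1 : Fin r1 → Fock (Mode L Λ)) (h0 : ∀ j, ContDiff ℝ SM (c0 j))
    (h1 : ∀ j, ContDiff ℝ SM (c1 j)) (h0' : ∀ j, HasCompactSupport (c0 j))
    (h1' : ∀ j, HasCompactSupport (c1 j)) :
    ∃ (r : ℕ) (c : Fin 2 → Fin r → E3 → ℂ) (P : Fin r → Fock (Mode L Λ)),
      (∀ s j, ContDiff ℝ SM (c s j)) ∧ (∀ s j, HasCompactSupport (c s j)) ∧
      (∀ x q, ∑ j, c 0 j x * J (P j) q = ∑ j, c0 j x * J (P0 j) q) ∧
      (∀ x q, ∑ j, c 1 j x * J (P j) q = ∑ j, c1 j x * J (P1 j) q) := by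
  refine ⟨r0 + r1, ![Fin.append c0 (fun _ _ => 0), Fin.append (fun _ _ => 0) c1],
    Fin.append P0 P1, ?_, ?_, ?_, ?_⟩
  · intro s j
    fin_cases s
    · change ContDiff ℝ SM ((Fin.append c0 (fun _ _ => 0) : Fin (r0 + r1) → E3 → ℂ) j)
      refine Fin.addCases (fun j => ?_) (fun j => ?_) j
      · rw [Fin.append_left]; exact h0 j
      · rw [Fin.append_right]; exact contDiff_const
    · change ContDiff ℝ SM ((Fin.append (fun _ _ => 0) c1 : Fin (r0 + r1) → E3 → ℂ) j)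
      refine Fin.addCases (fun j => ?_) (fun j => ?_) j
      · rw [Fin.append_left]; exact contDiff_const
      · rw [Fin.append_right]; exact h1 j
  · intro s j
    fin_cases s
    · change HasCompactSupport ((Fin.append c0 (fun _ _ => 0) : Fin (r0 + r1) → E3 → ℂ) j)
      refine Fin.addCases (fun j => ?_) (fun j => ?_) j
      · rw [Fin.append_left]; exact h0' j
      · rw [Fin.append_right]; exact HasCompactSupport.zero
    · change HasCompactSupport ((Fin.append (fun _ _ => 0) c1 : Fin (r0 + r1) → E3 → ℂ) j)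
      refine Fin.addCases (fun j => ?_) (fun j => ?_) j
      · rw [Fin.append_left]; exact HasCompactSupport.zero
      · rw [Fin.append_right]; exact h1' j
  · intro x q
    change ∑ j, (Fin.append c0 (fun _ _ => 0) : Fin (r0 + r1) → E3 → ℂ) j x *
      J (Fin.append P0 P1 j) q = _
    rw [Fin.sum_univ_add]
    simp only [Fin.append_left, Fin.append_right, zero_mul, Finset.sum_const_zero, add_zero]
  · intro x q
    change ∑ j, (Fin.append (fun _ _ => 0) c1 : Fin (r0 + r1) → E3 → ℂ) j x *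
      J (Fin.append P0 P1 j) q = _
    rw [Fin.sum_univ_add]
    simp only [Fin.append_left, Fin.append_right, zero_mul, Finset.sum_const_zero, zero_add]

theorem ground_le_approx {α L Λ : ℝ} (hL : 0 < L) (pol : Mode L Λ → E3)
    (hp : IsPolarisation pol) (J : Fock (Mode L Λ) →ₗ[ℂ] ((Mode L Λ → ℝ) → ℂ))
    (hJ : IsRep pol J) (Ψ : E3 × (Mode L Λ → ℝ) → C2) (hΨ : ContDiff ℝ SM Ψ)
    (hΨc : HasCompactSupport Ψ) (δ : ℝ) (hδ : 0 < δ) :
    ∃ (r : ℕ) (c : Fin 2 → Fin r → E3 → ℂ) (P : Fin r → Fock (Mode L Λ)),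
      (∀ s j, ContDiff ℝ SM (c s j)) ∧ (∀ s j, HasCompactSupport (c s j)) ∧
      |form α (fun m : Mode L Λ => ‖m.k‖) (modeFn pol) (fun p : E3 × (Mode L Λ → ℝ) =>
        (WithLp.toLp 2 (fun s : Fin 2 => ∑ j, c s j p.1 * J (P j) p.2) : C2)) -
        form α (fun m : Mode L Λ => ‖m.k‖) (modeFn pol) Ψ| ≤ δ ∧
      |(∫ p : E3 × (Mode L Λ → ℝ),
        ‖(WithLp.toLp 2 (fun s : Fin 2 => ∑ j, c s j p.1 * J (P j) p.2) : C2)‖ ^ 2) -
        ∫ p, ‖Ψ p‖ ^ 2| ≤ δ := by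
  have hb : ∃ C : ℝ, ∀ (m : Mode L Λ) x, ‖modeFn pol m x‖ ≤ C := by
    refine ⟨Real.sqrt (2 / L ^ 3), fun m x => ?_⟩
    have := Real.abs_le_sqrt (norm_modeFn_sq hL pol hp m x)
    rwa [abs_of_nonneg (norm_nonneg _)] at this
  obtain ⟨ε, hε, hclose⟩ := form_close α (fun m : Mode L Λ => ‖m.k‖) (modeFn pol)
    (fun m => (smooth_modeFn pol m).continuous) hb Ψ hΨ hΨc δ hδ
  have hcomp : ∀ s : Fin 2, ContDiff ℝ SM (fun p => Ψ p s) := fun s =>
    (PiLp.proj (𝕜 := ℝ) 2 (fun _ : Fin 2 => ℂ) s : C2 →L[ℝ] ℂ).contDiff.comp hΨ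
  have hcc : ∀ s : Fin 2, HasCompactSupport (fun p => Ψ p s) := fun s =>
    hΨc.comp_left (g := fun x : C2 => x s) rfl
  obtain ⟨r0, c0, P0, h01, h02, h03, h04⟩ := hJ.approx _ (hcomp 0) (hcc 0) (ε / 2) (half_pos hε)
  obtain ⟨r1, c1, P1, h11, h12, h13, h14⟩ := hJ.approx _ (hcomp 1) (hcc 1) (ε / 2) (half_pos hε)
  obtain ⟨r, c, P, hc1, hc2, hc3, hc4⟩ := ground_le_comb J r0 r1 c0 c1 P0 P1 h01 h11 h02 h12
  refine ⟨r, c, P, hc1, hc2, ?_⟩
  obtain ⟨Φ, hΦ⟩ : ∃ Φ : E3 × (Mode L Λ → ℝ) → C2, Φ = fun p : E3 × (Mode L Λ → ℝ) =>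
        (WithLp.toLp 2 (fun s : Fin 2 => ∑ j, c s j p.1 * J (P j) p.2) : C2) := ⟨_, rfl⟩
  have hΦs : ContDiff ℝ SM Φ := by
    rw [hΦ, contDiff_piLp]
    intro s
    change ContDiff ℝ SM fun p : E3 × (Mode L Λ → ℝ) => ∑ j, c s j p.1 * J (P j) p.2
    refine ContDiff.sum fun j _ => ?_
    exact ((hc1 s j).comp contDiff_fst).mul ((hJ.smooth (P j)).comp contDiff_snd)
  have hD : Differentiable ℝ (fun p => Ψ p - Φ p) :=
    (hΨ.sub hΦs).differentiable (by simp)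
  have e0 : (fun p : E3 × (Mode L Λ → ℝ) => (Ψ p - Φ p) 0) =
      fun p : E3 × (Mode L Λ → ℝ) => Ψ p 0 - ∑ j, c0 j p.1 * J (P0 j) p.2 := by
    funext p
    rw [← hc3, hΦ]
    rfl
  have e1 : (fun p : E3 × (Mode L Λ → ℝ) => (Ψ p - Φ p) 1) =
      fun p : E3 × (Mode L Λ → ℝ) => Ψ p 1 - ∑ j, c1 j p.1 * J (P1 j) p.2 := by
    funext p
    rw [← hc4, hΦ]
    rfl
  have hfn : fn (fun p => Ψ p - Φ p) = fun p =>
      fn (fun p : E3 × (Mode L Λ → ℝ) => Ψ p 0 - ∑ j, c0 j p.1 * J (P0 j) p.2) p +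
      fn (fun p : E3 × (Mode L Λ → ℝ) => Ψ p 1 - ∑ j, c1 j p.1 * J (P1 j) p.2) p := by
    funext p
    rw [ground_le_fn _ hD, e0, e1]
  have hint : Integrable (fn (fun p => Ψ p - Φ p)) := by
    rw [hfn]
    exact h03.add h13
  have hle : ∫ p, fn (fun p => Ψ p - Φ p) p ≤ ε := by
    rw [hfn, integral_add h03 h13]
    linarith
  have := hclose Φ hΦs hint hle
  rw [hΦ] at this
  exact this

/-- trial states in the Schroedinger representation bound the self-energy -/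
theorem ground_le {α L Λ : ℝ} (hα : 0 ≤ α) (hL : 0 < L) (pol : Mode L Λ → E3)
    (hp : IsPolarisation pol) (Ψ : E3 × (Mode L Λ → ℝ) → C2) (hΨ : ContDiff ℝ SM Ψ)
    (hΨc : HasCompactSupport Ψ) (h0 : 0 < ∫ p, ‖Ψ p‖ ^ 2) (E : ℝ)
    (hE : form α (fun m => ‖m.k‖) (modeFn pol) Ψ ≤ E * ∫ p, ‖Ψ p‖ ^ 2) :
    (energies α L Λ pol).Nonempty ∧ groundEnergy α L Λ pol ≤ E := by
  obtain ⟨J, hJ⟩ := exists_rep hL pol hp
  obtain ⟨N, hN⟩ : ∃ N, N = ∫ p, ‖Ψ p‖ ^ 2 := ⟨_, rfl⟩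
  rw [← hN] at h0 hE
  -- the trial states
  have key : ∀ δ : ℝ, 0 < δ → δ < N → ∃ e ∈ energies α L Λ pol, ∃ n : ℝ, N - δ ≤ n ∧
      e * n ≤ E * N + δ := by
    intro δ hδ hδN
    obtain ⟨r, c, P, hc1, hc2, hc3, hc4⟩ := ground_le_approx (α := α) hL pol hp J hJ Ψ hΨ hΨc δ hδ
    obtain ⟨l1, l2, l3⟩ := link hα hL pol J hJ r c P hc1 hc2
    rw [← l2, ← hN] at hc4
    rw [← l3] at hc3
    obtain ⟨F, hF⟩ : ∃ F : WaveFunction (Mode L Λ), F = fun (s : Fin 2) (x : E3) =>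
      ∑ j, c s j x • P j := ⟨_, rfl⟩
    rw [← hF] at hc3 hc4 l1
    have hn : N - δ ≤ (braket F F).re := by
      have := (abs_le.1 hc4).1
      linarith
    have hnpos : 0 < (braket F F).re := by linarith
    have hF0 : F ≠ 0 := by
      intro h
      rw [h] at hnpos
      unfold braket at hnpos
      simp at hnpos
    refine ⟨_, ⟨F, l1, hF0, rfl⟩, (braket F F).re, hn, ?_⟩
    rw [div_mul_cancel₀ _ hnpos.ne']
    have := (abs_le.1 hc3).2
    linarith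
  have hne : (energies α L Λ pol).Nonempty := by
    obtain ⟨e, he, -⟩ := key (N / 2) (by linarith) (by linarith)
    exact ⟨e, he⟩
  refine ⟨hne, ?_⟩
  obtain ⟨g, hg⟩ : ∃ g, g = groundEnergy α L Λ pol := ⟨_, rfl⟩
  have hg0 : 0 ≤ g := by
    rw [hg]
    exact Real.sInf_nonneg fun e he => energies_nonneg hL pol e he
  have hbdd : BddBelow (energies α L Λ pol) := ⟨0, fun e he => energies_nonneg hL pol e he⟩
  rw [← hg]
  have hfin : g * N ≤ E * N := by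
    refine le_of_forall_pos_le_add fun η hη => ?_
    obtain ⟨δ, hδ1, hδ2, hδ3⟩ : ∃ δ : ℝ, 0 < δ ∧ δ < N ∧ δ * (1 + g) ≤ η := by
      refine ⟨min (η / (1 + g)) (N / 2), lt_min (by positivity) (by linarith), ?_, ?_⟩
      · exact (min_le_right _ _).trans_lt (by linarith)
      · calc min (η / (1 + g)) (N / 2) * (1 + g) ≤ η / (1 + g) * (1 + g) :=
            mul_le_mul_of_nonneg_right (min_le_left _ _) (by linarith)
          _ = η := div_mul_cancel₀ _ (by linarith)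
    obtain ⟨e, he, n, hn1, hn2⟩ := key δ hδ1 hδ2
    have hge : g ≤ e := by
      rw [hg]
      exact csInf_le hbdd he
    have h1 : g * (N - δ) ≤ e * n :=
      (mul_le_mul_of_nonneg_left hn1 hg0).trans
        (mul_le_mul_of_nonneg_right hge (by linarith))
    nlinarith
  exact le_of_mul_le_mul_right hfin h0

end Pool.Agent.Helper985.PS
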