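import Pool.Agent.Helper985.PS.M_pauli
import Pool.Agent.Helper985.PS.Defs

set_option autoImplicit false

open MeasureTheory
open scoped Topology

namespace Pool.Agent.Helper985.PS



theorem hopf_smooth (N : ℕ) : ContDiff ℝ SM (hopf N) := by
  have hn : ContDiff ℝ SM (fun y : E3 => 1 + ‖y‖ ^ 2) := contDiff_const.add (contDiff_norm_sq ℝ)
  have hpos : ∀ y : E3, 1 + ‖y‖ ^ 2 ≠ 0 := fun y => by positivity
  have hc : ∀ i : Fin 3, ContDiff ℝ SM (fun y : E3 => ((y i : ℝ) : ℂ)) := fun i =>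
    Complex.ofRealCLM.contDiff.comp (EuclideanSpace.proj (𝕜 := ℝ) i).contDiff
  have hr : ContDiff ℝ SM (fun y : E3 => (((1 + ‖y‖ ^ 2) ^ (-(3 / 2) : ℝ) : ℝ) : ℂ)) :=
    Complex.ofRealCLM.contDiff.comp (hn.rpow_const_of_ne hpos)
  have hnC : ContDiff ℝ SM (fun y : E3 => ((1 + ‖y‖ ^ 2 : ℝ) : ℂ)) :=
    Complex.ofRealCLM.contDiff.comp hn
  have hz : ContDiff ℝ SM z2 := by
    unfold z2
    simp only [div_eq_mul_inv]
    refine ContDiff.mul (contDiff_const.mul ((hc 0).add (contDiff_const.mul (hc 1))))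
      (hnC.inv ?_)
    intro y
    exact_mod_cast hpos y
  have hs : ContDiff ℝ SM (fun y : E3 => (((1 + ‖y‖ ^ 2) ^ (-(3 / 2) : ℝ) : ℝ) : ℂ) * z2 y ^ N) :=
    hr.mul (hz.pow N)
  rw [contDiff_piLp]
  intro i
  fin_cases i
  · have h1 := hs.mul (contDiff_const.add (contDiff_const.mul (hc 2)) :
      ContDiff ℝ SM (fun y : E3 => 1 + Complex.I * ((y 2 : ℝ) : ℂ)))
    exact h1
  · have h1 := hs.mul ((contDiff_const.mul (hc 0)).sub (hc 1) :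
      ContDiff ℝ SM (fun y : E3 => Complex.I * ((y 0 : ℝ) : ℂ) - ((y 1 : ℝ) : ℂ)))
    exact h1

theorem hopf_norm (N : ℕ) (y : E3) :
    ‖hopf N y‖ ^ 2 = ((1 + ‖y‖ ^ 2) ^ 2)⁻¹ * (4 * rho y ^ 2 / (1 + ‖y‖ ^ 2) ^ 2) ^ N := by
  have hy : ‖y‖ ^ 2 = y 0 ^ 2 + y 1 ^ 2 + y 2 ^ 2 := by
    rw [EuclideanSpace.norm_sq_eq, Fin.sum_univ_three]
    simp [sq_abs]
  have hpos : 0 < 1 + ‖y‖ ^ 2 := by positivity
  have hrho : rho y ^ 2 = y 0 ^ 2 + y 1 ^ 2 := Real.sq_sqrt (by positivity)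
  have hz : ‖z2 y‖ ^ 2 = 4 * rho y ^ 2 / (1 + ‖y‖ ^ 2) ^ 2 := by
    unfold z2
    rw [norm_div, norm_mul, norm_mul, Complex.norm_I, Complex.norm_real, Real.norm_eq_abs,
      abs_of_pos hpos, div_pow, mul_pow, hrho]
    congr 1
    have h1 : ‖((y 0 : ℝ) : ℂ) + Complex.I * ((y 1 : ℝ) : ℂ)‖ ^ 2 = y 0 ^ 2 + y 1 ^ 2 := by
      rw [← Complex.normSq_eq_norm_sq, Complex.normSq_apply]
      simp
      ring
    rw [h1]
    norm_num
  have hv : ‖(WithLp.toLp 2 ![1 + Complex.I * (y 2 : ℂ), Complex.I * (y 0 : ℂ) - (y 1 : ℂ)] : C2)‖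
      ^ 2 = 1 + ‖y‖ ^ 2 := by
    rw [EuclideanSpace.norm_sq_eq, Fin.sum_univ_two, hy]
    simp only [Matrix.cons_val_zero, Matrix.cons_val_one]
    rw [← Complex.normSq_eq_norm_sq, ← Complex.normSq_eq_norm_sq, Complex.normSq_apply,
      Complex.normSq_apply]
    simp
    ring
  have hr : ((1 + ‖y‖ ^ 2) ^ (-(3 / 2) : ℝ)) ^ 2 * (1 + ‖y‖ ^ 2) = ((1 + ‖y‖ ^ 2) ^ 2)⁻¹ := by
    rw [← Real.rpow_natCast, ← Real.rpow_mul hpos.le]
    have h1 : (-(3 / 2) : ℝ) * ((2 : ℕ) : ℝ) = -3 := by norm_num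
    rw [h1, Real.rpow_neg hpos.le]
    have h2 : (1 + ‖y‖ ^ 2) ^ (3 : ℝ) = (1 + ‖y‖ ^ 2) ^ 3 := by
      rw [← Real.rpow_natCast]
      norm_num
    rw [h2]
    field_simp
  unfold hopf
  rw [norm_smul, mul_pow, hv, norm_mul, mul_pow, Complex.norm_real, Real.norm_eq_abs, sq_abs,
    norm_pow, ← pow_mul, mul_comm N 2, pow_mul, hz, ← hr]
  ring

end Pool.Agent.Helper985.PS
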