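import Pool.Agent.Helper985.PS.M_hopf_basic
import Pool.Agent.Helper985.PS.Defs

set_option autoImplicit false

open MeasureTheory
open scoped Topology

namespace Pool.Agent.Helper985.PS




theorem hopf_conc_rho (y : E3) : 0 ≤ rho y ∧ rho y ^ 2 = y 0 ^ 2 + y 1 ^ 2 :=
  ⟨Real.sqrt_nonneg _, Real.sq_sqrt (by positivity)⟩

theorem hopf_conc_nsq (y : E3) : ‖y‖ ^ 2 = rho y ^ 2 + y 2 ^ 2 := by
  rw [EuclideanSpace.real_norm_sq_eq, Fin.sum_univ_three, (hopf_conc_rho y).2]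

theorem hopf_conc_cont : Continuous rho := by
  unfold rho
  fun_prop

theorem hopf_conc_D2cont : Continuous D2 := by
  unfold D2
  have := hopf_conc_cont
  fun_prop

theorem hopf_conc_D2nn (y : E3) : 0 ≤ D2 y := by
  unfold D2
  positivity

/-- bounds on the norm near the ring -/
theorem hopf_conc_n3 {y : E3} (h : D2 y ≤ 1 / 16) : ‖y‖ ^ 2 ≤ 3 := by
  rw [hopf_conc_nsq]
  unfold D2 at h
  have h2 := sq_nonneg (y 2)
  have h3 : (rho y - 1) ^ 2 ≤ (1 / 4) ^ 2 := by nlinarith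
  have h4 := abs_le_of_sq_le_sq' h3 (by norm_num)
  have h5 : rho y ^ 2 ≤ (5 / 4) ^ 2 := by
    have := (hopf_conc_rho y).1
    nlinarith [h4.1, h4.2]
  nlinarith [sq_nonneg (rho y - 1)]

theorem hopf_conc_mem {y : E3} (h : D2 y ≤ 1 / 16) : y ∈ Metric.closedBall (0 : E3) 2 := by
  rw [Metric.mem_closedBall, dist_zero_right]
  have := hopf_conc_n3 h
  nlinarith [norm_nonneg y]

theorem hopf_conc_F (y : E3) : 4 * rho y ^ 2 / (1 + ‖y‖ ^ 2) ^ 2 =
    1 - D2 y * ((1 + ‖y‖ ^ 2 + 2 * rho y) / (1 + ‖y‖ ^ 2) ^ 2) := by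
  have hp : (0 : ℝ) < (1 + ‖y‖ ^ 2) ^ 2 := by positivity
  have hD : D2 y = 1 + ‖y‖ ^ 2 - 2 * rho y := by
    rw [hopf_conc_nsq]
    unfold D2
    ring
  rw [hD]
  field_simp
  ring

theorem hopf_conc_Fnn (y : E3) : 0 ≤ 4 * rho y ^ 2 / (1 + ‖y‖ ^ 2) ^ 2 := by positivity

theorem hopf_conc_Fub {y : E3} (h : D2 y ≤ 1 / 16) :
    4 * rho y ^ 2 / (1 + ‖y‖ ^ 2) ^ 2 ≤ Real.exp (-(D2 y / 4)) := by
  have h3 := hopf_conc_n3 h
  have hp : (0 : ℝ) < (1 + ‖y‖ ^ 2) ^ 2 := by positivity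
  have h4 : 1 / 4 ≤ (1 + ‖y‖ ^ 2 + 2 * rho y) / (1 + ‖y‖ ^ 2) ^ 2 := by
    rw [le_div_iff₀ hp]
    nlinarith [(hopf_conc_rho y).1, sq_nonneg ‖y‖]
  rw [hopf_conc_F]
  have h5 : D2 y * (1 / 4) ≤ D2 y * ((1 + ‖y‖ ^ 2 + 2 * rho y) / (1 + ‖y‖ ^ 2) ^ 2) :=
    mul_le_mul_of_nonneg_left h4 (hopf_conc_D2nn y)
  have h6 := Real.add_one_le_exp (-(D2 y / 4))
  linarith

theorem hopf_conc_Flb (y : E3) : 1 - 2 * D2 y ≤ 4 * rho y ^ 2 / (1 + ‖y‖ ^ 2) ^ 2 := by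
  have hp : (0 : ℝ) < (1 + ‖y‖ ^ 2) ^ 2 := by positivity
  have h4 : (1 + ‖y‖ ^ 2 + 2 * rho y) / (1 + ‖y‖ ^ 2) ^ 2 ≤ 2 := by
    rw [div_le_iff₀ hp]
    have h1 := hopf_conc_nsq y
    nlinarith [(hopf_conc_rho y).1, sq_nonneg ‖y‖, sq_nonneg (rho y - 1), sq_nonneg (y 2)]
  rw [hopf_conc_F]
  have h5 : D2 y * ((1 + ‖y‖ ^ 2 + 2 * rho y) / (1 + ‖y‖ ^ 2) ^ 2) ≤ D2 y * 2 :=
    mul_le_mul_of_nonneg_left h4 (hopf_conc_D2nn y)
  linarith

/-- pointwise upper bound -/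
theorem hopf_conc_ub (N : ℕ) {y : E3} (h : D2 y ≤ 1 / 16) {s : ℝ} (hs : s ≤ D2 y) :
    ‖hopf N y‖ ^ 2 ≤ Real.exp (-(s / 4) * N) := by
  rw [hopf_norm]
  have h1 : ((1 + ‖y‖ ^ 2) ^ 2)⁻¹ ≤ 1 := by
    apply inv_le_one_of_one_le₀
    nlinarith [sq_nonneg ‖y‖]
  have h2 : 4 * rho y ^ 2 / (1 + ‖y‖ ^ 2) ^ 2 ≤ Real.exp (-(s / 4)) :=
    (hopf_conc_Fub h).trans (Real.exp_le_exp.2 (by linarith))
  have h3 : (4 * rho y ^ 2 / (1 + ‖y‖ ^ 2) ^ 2) ^ N ≤ Real.exp (-(s / 4) * N) := by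
    rw [mul_comm (-(s / 4)) (N : ℝ), Real.exp_nat_mul]
    exact pow_le_pow_left₀ (hopf_conc_Fnn y) h2 N
  calc ((1 + ‖y‖ ^ 2) ^ 2)⁻¹ * (4 * rho y ^ 2 / (1 + ‖y‖ ^ 2) ^ 2) ^ N
      ≤ 1 * Real.exp (-(s / 4) * N) :=
        mul_le_mul h1 h3 (pow_nonneg (hopf_conc_Fnn y) N) zero_le_one
    _ = _ := one_mul _

theorem hopf_conc_D2ball {y : E3} : D2 y ≤ ‖y - gam 0‖ ^ 2 := by
  have h1 : ‖y - gam 0‖ ^ 2 = (y 0 - 1) ^ 2 + y 1 ^ 2 + y 2 ^ 2 := by
    rw [EuclideanSpace.real_norm_sq_eq, Fin.sum_univ_three]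
    simp [gam]
  rw [h1]
  unfold D2
  have h2 := hopf_conc_rho y
  have h3 : y 0 ≤ rho y := by
    apply Real.le_sqrt_of_sq_le
    nlinarith [sq_nonneg (y 1)]
  nlinarith [h2.2]

/-- pointwise lower bound -/
theorem hopf_conc_lb {N : ℕ} (hN : 1 ≤ N) {y : E3}
    (hy : y ∈ Metric.ball (gam 0) (1 / (8 * (N : ℝ)))) :
    D2 y ≤ 1 / 64 ∧ 1 / 32 ≤ ‖hopf N y‖ ^ 2 := by
  have hN1 : (1 : ℝ) ≤ N := by exact_mod_cast hN
  have hN0 : (0 : ℝ) < N := by linarith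
  rw [Metric.mem_ball, dist_eq_norm] at hy
  have h1 : ‖y - gam 0‖ ^ 2 ≤ (1 / (8 * (N : ℝ))) ^ 2 :=
    pow_le_pow_left₀ (norm_nonneg _) hy.le 2
  have h2 : D2 y ≤ (1 / (8 * (N : ℝ))) ^ 2 := hopf_conc_D2ball.trans h1
  have h3 : (1 / (8 * (N : ℝ))) ^ 2 = 1 / 64 * (1 / (N : ℝ) ^ 2) := by
    field_simp
    norm_num
  have h4 : (N : ℝ) * (1 / (N : ℝ) ^ 2) ≤ 1 := by
    have : (N : ℝ) * (1 / (N : ℝ) ^ 2) = 1 / N := by field_simp
    rw [this, div_le_one hN0]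
    exact hN1
  have h4' : 1 / (N : ℝ) ^ 2 ≤ 1 := by
    rw [div_le_one (by positivity)]
    nlinarith
  have h5 : D2 y ≤ 1 / 64 := by
    rw [h3] at h2
    linarith
  refine ⟨h5, ?_⟩
  have h6 : ‖y‖ ^ 2 ≤ 3 := hopf_conc_n3 (by linarith)
  rw [hopf_norm]
  have h7 : (1 / 16 : ℝ) ≤ ((1 + ‖y‖ ^ 2) ^ 2)⁻¹ := by
    rw [← one_div]
    apply one_div_le_one_div_of_le (by positivity)
    nlinarith [sq_nonneg ‖y‖]
  have h8 : (1 / 2 : ℝ) ≤ (4 * rho y ^ 2 / (1 + ‖y‖ ^ 2) ^ 2) ^ N := by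
    have h9 : 1 + (N : ℝ) * (-(2 * D2 y)) ≤ (1 + (-(2 * D2 y))) ^ N :=
      one_add_mul_le_pow (by linarith) N
    have h10 : (1 + (-(2 * D2 y))) ^ N ≤ (4 * rho y ^ 2 / (1 + ‖y‖ ^ 2) ^ 2) ^ N :=
      pow_le_pow_left₀ (by linarith) (by linarith [hopf_conc_Flb y]) N
    have h11 : (N : ℝ) * D2 y ≤ 1 / 64 := by
      calc (N : ℝ) * D2 y ≤ N * (1 / 64 * (1 / (N : ℝ) ^ 2)) := by
            rw [h3] at h2
            exact mul_le_mul_of_nonneg_left h2 hN0.le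
        _ = 1 / 64 * (N * (1 / (N : ℝ) ^ 2)) := by ring
        _ ≤ 1 / 64 * 1 := mul_le_mul_of_nonneg_left h4 (by norm_num)
        _ = 1 / 64 := by norm_num
    linarith
  calc (1 / 32 : ℝ) = 1 / 16 * (1 / 2) := by norm_num
    _ ≤ _ := mul_le_mul h7 h8 (by norm_num) (by positivity)

theorem hopf_conc_w (η : E3 → ℝ) (N : ℕ) (y : E3) :
    ‖(η y : ℂ) • hopf N y‖ ^ 2 = η y ^ 2 * ‖hopf N y‖ ^ 2 := by
  rw [norm_smul, mul_pow, Complex.norm_real, Real.norm_eq_abs, sq_abs]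

theorem hopf_conc_wcont {η : E3 → ℝ} (hη : ContDiff ℝ SM η) (N : ℕ) :
    Continuous (fun y => ‖(η y : ℂ) • hopf N y‖ ^ 2) := by
  have h1 := (hopf_smooth N).continuous
  have h2 := hη.continuous
  exact (((Complex.continuous_ofReal.comp h2).smul h1).norm).pow 2

theorem hopf_conc_supp {η : E3 → ℝ} (h0 : ∀ y, 1 / 16 ≤ D2 y → η y = 0) {y : E3}
    (hy : y ∉ Metric.closedBall (0 : E3) 2) : η y = 0 := by
  by_contra h
  apply hy
  apply hopf_conc_mem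
  by_contra h2
  exact h (h0 y (not_le.1 h2).le)

theorem hopf_conc_cs {η : E3 → ℝ} (h0 : ∀ y, 1 / 16 ≤ D2 y → η y = 0) (g : E3 → ℝ)
    (hg : ∀ y, η y = 0 → g y = 0) : HasCompactSupport g :=
  HasCompactSupport.intro (isCompact_closedBall (0 : E3) 2) fun _ hy =>
    hg _ (hopf_conc_supp h0 hy)

theorem hopf_conc_wint {η : E3 → ℝ} (hη : ContDiff ℝ SM η)
    (h0 : ∀ y, 1 / 16 ≤ D2 y → η y = 0) (N : ℕ) :
    Integrable (fun y => ‖(η y : ℂ) • hopf N y‖ ^ 2) :=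
  (hopf_conc_wcont hη N).integrable_of_hasCompactSupport
    (hopf_conc_cs h0 _ fun y hy => by simp [hy])

/-- lower bound of the mass -/
theorem hopf_conc_mass : ∃ c : ℝ, 0 < c ∧ ∀ (η : E3 → ℝ), ContDiff ℝ SM η →
    (∀ y, D2 y ≤ 1 / 64 → η y = 1) → (∀ y, 1 / 16 ≤ D2 y → η y = 0) → ∀ N : ℕ, 1 ≤ N →
    c / (N : ℝ) ^ 3 ≤ ∫ y, ‖(η y : ℂ) • hopf N y‖ ^ 2 := by
  have hv : 0 < (volume (Metric.ball (0 : E3) 1)).toReal :=
    ENNReal.toReal_pos (Metric.measure_ball_pos volume _ one_pos).ne' measure_ball_lt_top.ne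
  refine ⟨(volume (Metric.ball (0 : E3) 1)).toReal / 16384, by positivity, ?_⟩
  intro η hη h1 h0 N hN
  have hN1 : (1 : ℝ) ≤ N := by exact_mod_cast hN
  have hN0 : (0 : ℝ) < N := by linarith
  have hint := hopf_conc_wint hη h0 N
  have hA : (1 / 32 : ℝ) * volume.real (Metric.ball (gam 0) (1 / (8 * (N : ℝ)))) ≤
      ∫ y in Metric.ball (gam 0) (1 / (8 * (N : ℝ))), ‖(η y : ℂ) • hopf N y‖ ^ 2 := by
    refine setIntegral_ge_of_const_le_real measurableSet_ball measure_ball_lt_top.ne ?_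
      hint.integrableOn
    intro y hy
    have h := hopf_conc_lb hN hy
    rw [hopf_conc_w, h1 y h.1, one_pow, one_mul]
    exact h.2
  have hB : ∫ y in Metric.ball (gam 0) (1 / (8 * (N : ℝ))), ‖(η y : ℂ) • hopf N y‖ ^ 2 ≤
      ∫ y, ‖(η y : ℂ) • hopf N y‖ ^ 2 :=
    setIntegral_le_integral hint (Filter.Eventually.of_forall fun y => by positivity)
  have hC : volume.real (Metric.ball (gam 0) (1 / (8 * (N : ℝ)))) =
      (1 / (8 * (N : ℝ))) ^ 3 * (volume (Metric.ball (0 : E3) 1)).toReal := by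
    rw [measureReal_def, Measure.addHaar_ball volume _ (by positivity), ENNReal.toReal_mul,
      ENNReal.toReal_ofReal (by positivity)]
    simp
  rw [hC] at hA
  refine le_trans (le_of_eq ?_) (hA.trans hB)
  field_simp
  norm_num

/-- concentration of the zero modes on the ring -/
theorem hopf_conc (η : E3 → ℝ) (hη : ContDiff ℝ SM η) (h01 : ∀ y, 0 ≤ η y ∧ η y ≤ 1)
    (h1 : ∀ y, D2 y ≤ 1 / 64 → η y = 1) (h0 : ∀ y, 1 / 16 ≤ D2 y → η y = 0) :
    ∃ C : ℝ, 0 < C ∧ ∀ N : ℕ, 2 ≤ N →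
      (0 < ∫ y, ‖(η y : ℂ) • hopf N y‖ ^ 2) ∧
      (∫ y, D2 y * ‖(η y : ℂ) • hopf N y‖ ^ 2 ≤
        C * (Real.log N / N) * ∫ y, ‖(η y : ℂ) • hopf N y‖ ^ 2) ∧
      (∫ y in {y : E3 | 1 / 64 ≤ D2 y ∧ D2 y ≤ 1 / 16}, ‖hopf N y‖ ^ 2 ≤
        C / (N : ℝ) ^ 8 * ∫ y, ‖(η y : ℂ) • hopf N y‖ ^ 2) := by
  obtain ⟨c, hc, hmass⟩ := hopf_conc_mass
  set V : ℝ := volume.real (Metric.closedBall (0 : E3) 2) with hVdef
  have hV : 0 ≤ V := measureReal_nonneg
  have hl2 : 0 < Real.log 2 := Real.log_pos one_lt_two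
  set C : ℝ := 16 + V / (c * Real.log 2) + V * (256 ^ 11 * (Nat.factorial 11 : ℕ)) / c with hCdef
  have hC1 : 16 + V / (c * Real.log 2) ≤ C := by
    have : 0 ≤ V * (256 ^ 11 * (Nat.factorial 11 : ℕ)) / c := by positivity
    linarith
  have hC2 : V * (256 ^ 11 * (Nat.factorial 11 : ℕ)) / c ≤ C := by
    have : 0 ≤ V / (c * Real.log 2) := by positivity
    linarith
  have hC0 : 0 < C := by
    have : 0 ≤ V / (c * Real.log 2) := by positivity
    linarith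
  refine ⟨C, hC0, ?_⟩
  intro N hN
  have hN1 : 1 ≤ N := by omega
  have hN2 : (2 : ℝ) ≤ N := by exact_mod_cast hN
  have hN0 : (0 : ℝ) < N := by linarith
  have hm := hmass η hη h1 h0 N hN1
  set μ : ℝ := ∫ y, ‖(η y : ℂ) • hopf N y‖ ^ 2 with hμdef
  have hμ : 0 < μ := lt_of_lt_of_le (by positivity) hm
  have hcμ : 1 / (N : ℝ) ^ 3 ≤ μ / c := by
    rw [le_div_iff₀ hc]
    calc 1 / (N : ℝ) ^ 3 * c = c / (N : ℝ) ^ 3 := by ring
      _ ≤ μ := hm
  have hint := hopf_conc_wint hη h0 N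
  have hlogN : Real.log 2 ≤ Real.log N := Real.log_le_log two_pos hN2
  refine ⟨hμ, ?_, ?_⟩
  · -- second claim
    set s : ℝ := 16 * (Real.log N / N) with hsdef
    have hs0 : 0 ≤ s := by
      have : 0 ≤ Real.log N := hl2.le.trans hlogN
      positivity
    have hexp : Real.exp (-(s / 4) * N) = 1 / (N : ℝ) ^ 4 := by
      have e1 : -(s / 4) * N = -(4 * Real.log N) := by
        rw [hsdef]
        field_simp
        ring
      rw [e1, Real.exp_neg]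
      have e2 : (4 : ℝ) * Real.log N = ((4 : ℕ) : ℝ) * Real.log N := by norm_num
      rw [e2, Real.exp_nat_mul, Real.exp_log hN0, one_div]
    have hpt : ∀ y, D2 y * ‖(η y : ℂ) • hopf N y‖ ^ 2 ≤
        s * ‖(η y : ℂ) • hopf N y‖ ^ 2 +
          (Metric.closedBall (0 : E3) 2).indicator (fun _ => Real.exp (-(s / 4) * N)) y := by
      intro y
      by_cases hy : η y = 0
      · have : ‖(η y : ℂ) • hopf N y‖ ^ 2 = 0 := by simp [hy]
        rw [this, mul_zero, mul_zero, zero_add]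
        exact Set.indicator_nonneg (fun _ _ => (Real.exp_pos _).le) y
      · have hD : D2 y ≤ 1 / 16 := by
          by_contra h2
          exact hy (h0 y (not_le.1 h2).le)
        have hmem := hopf_conc_mem hD
        rw [Set.indicator_of_mem hmem]
        have hw0 : 0 ≤ ‖(η y : ℂ) • hopf N y‖ ^ 2 := by positivity
        rcases le_total (D2 y) s with hle | hle
        · have := mul_le_mul_of_nonneg_right hle hw0
          have := (Real.exp_pos (-(s / 4) * N)).le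
          linarith
        · have hu := hopf_conc_ub N hD hle
          have h2 : ‖(η y : ℂ) • hopf N y‖ ^ 2 ≤ Real.exp (-(s / 4) * N) := by
            rw [hopf_conc_w]
            have h3 : η y ^ 2 ≤ 1 := by
              have := h01 y
              nlinarith
            calc η y ^ 2 * ‖hopf N y‖ ^ 2 ≤ 1 * ‖hopf N y‖ ^ 2 :=
                  mul_le_mul_of_nonneg_right h3 (by positivity)
              _ = ‖hopf N y‖ ^ 2 := one_mul _
              _ ≤ _ := hu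
          have h4 : D2 y * ‖(η y : ℂ) • hopf N y‖ ^ 2 ≤ 1 * ‖(η y : ℂ) • hopf N y‖ ^ 2 :=
            mul_le_mul_of_nonneg_right (by linarith) hw0
          have h5 : 0 ≤ s * ‖(η y : ℂ) • hopf N y‖ ^ 2 := mul_nonneg hs0 hw0
          linarith
    have hind : Integrable ((Metric.closedBall (0 : E3) 2).indicator
        (fun _ => Real.exp (-(s / 4) * N))) := by
      refine (integrable_indicator_iff measurableSet_closedBall).2 ?_
      exact integrableOn_const (isCompact_closedBall (0 : E3) 2).measure_lt_top.ne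
    have hI : ∫ y, D2 y * ‖(η y : ℂ) • hopf N y‖ ^ 2 ≤ s * μ + V * (1 / (N : ℝ) ^ 4) := by
      have hle := integral_mono_of_nonneg (μ := (volume : Measure E3))
        (f := fun y => D2 y * ‖(η y : ℂ) • hopf N y‖ ^ 2)
        (g := fun y => s * ‖(η y : ℂ) • hopf N y‖ ^ 2 +
          (Metric.closedBall (0 : E3) 2).indicator (fun _ => Real.exp (-(s / 4) * N)) y)
        (Filter.Eventually.of_forall fun y => mul_nonneg (hopf_conc_D2nn y) (by positivity))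
        ((hint.const_mul s).add hind) (Filter.Eventually.of_forall hpt)
      rw [integral_add (hint.const_mul s) hind, integral_const_mul,
        integral_indicator measurableSet_closedBall, setIntegral_const, hexp, smul_eq_mul] at hle
      exact hle
    refine hI.trans ?_
    have hx : V * (1 / (N : ℝ) ^ 4) ≤ V / (c * Real.log 2) * (Real.log N / N) * μ := by
      have e1 : V * (1 / (N : ℝ) ^ 4) = V * (1 / (N : ℝ)) * (1 / (N : ℝ) ^ 3) := by
        field_simp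
      have e2 : V / (c * Real.log 2) * (Real.log N / N) * μ =
          V * (1 / (N : ℝ)) * (μ / c) * (Real.log N / Real.log 2) := by
        field_simp
      rw [e1, e2]
      have h5 : 1 ≤ Real.log N / Real.log 2 := by
        rw [le_div_iff₀ hl2, one_mul]
        exact hlogN
      have h6 : 0 ≤ V * (1 / (N : ℝ)) := by positivity
      calc V * (1 / (N : ℝ)) * (1 / (N : ℝ) ^ 3) ≤ V * (1 / (N : ℝ)) * (μ / c) :=
            mul_le_mul_of_nonneg_left hcμ h6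
        _ = V * (1 / (N : ℝ)) * (μ / c) * 1 := (mul_one _).symm
        _ ≤ _ := mul_le_mul_of_nonneg_left h5 (by positivity)
    have hL : 0 ≤ Real.log N / N * μ := by
      have : 0 ≤ Real.log N := hl2.le.trans hlogN
      positivity
    calc s * μ + V * (1 / (N : ℝ) ^ 4)
        ≤ 16 * (Real.log N / N) * μ + V / (c * Real.log 2) * (Real.log N / N) * μ := by
          rw [hsdef]
          linarith
      _ = (16 + V / (c * Real.log 2)) * (Real.log N / N * μ) := by ring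
      _ ≤ C * (Real.log N / N * μ) := mul_le_mul_of_nonneg_right hC1 hL
      _ = C * (Real.log N / N) * μ := by ring
  · -- third claim
    set A : Set E3 := {y : E3 | 1 / 64 ≤ D2 y ∧ D2 y ≤ 1 / 16} with hA
    have hAsub : A ⊆ Metric.closedBall (0 : E3) 2 := fun y hy => hopf_conc_mem hy.2
    have hAlt : volume A < ⊤ :=
      lt_of_le_of_lt (measure_mono hAsub) (isCompact_closedBall (0 : E3) 2).measure_lt_top
    have h2 := norm_setIntegral_le_of_norm_le_const (μ := (volume : Measure E3)) (s := A)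
      (f := fun y => ‖hopf N y‖ ^ 2) (C := Real.exp (-((1 / 64) / 4) * N)) hAlt (by
        intro y hy
        rw [Real.norm_eq_abs, abs_of_nonneg (by positivity)]
        exact hopf_conc_ub N hy.2 hy.1)
    have h3 : volume.real A ≤ V :=
      measureReal_mono hAsub (isCompact_closedBall (0 : E3) 2).measure_lt_top.ne
    have h4 : ∫ y in A, ‖hopf N y‖ ^ 2 ≤ Real.exp (-((1 / 64) / 4) * N) * V := by
      calc ∫ y in A, ‖hopf N y‖ ^ 2 ≤ ‖∫ y in A, ‖hopf N y‖ ^ 2‖ := Real.le_norm_self _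
        _ ≤ Real.exp (-((1 / 64) / 4) * N) * volume.real A := h2
        _ ≤ _ := mul_le_mul_of_nonneg_left h3 (Real.exp_pos _).le
    have h5 : Real.exp (-((1 / 64) / 4) * N) ≤
        256 ^ 11 * (Nat.factorial 11 : ℕ) / (N : ℝ) ^ 11 := by
      have e1 : (-((1 / 64 : ℝ) / 4) * N) = -((N : ℝ) / 256) := by ring
      rw [e1, Real.exp_neg]
      have h6 := Real.pow_div_factorial_le_exp (x := (N : ℝ) / 256) (by positivity) 11
      rw [inv_le_comm₀ (Real.exp_pos _) (by positivity)]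
      refine le_trans (le_of_eq ?_) h6
      rw [div_pow, inv_div]
      field_simp
    refine h4.trans ?_
    have h7 : (1 : ℝ) / (N : ℝ) ^ 11 = 1 / (N : ℝ) ^ 8 * (1 / (N : ℝ) ^ 3) := by
      field_simp
    calc Real.exp (-((1 / 64) / 4) * N) * V
        ≤ 256 ^ 11 * (Nat.factorial 11 : ℕ) / (N : ℝ) ^ 11 * V :=
          mul_le_mul_of_nonneg_right h5 hV
      _ = V * (256 ^ 11 * (Nat.factorial 11 : ℕ)) * (1 / (N : ℝ) ^ 11) := by ring
      _ = V * (256 ^ 11 * (Nat.factorial 11 : ℕ)) * (1 / (N : ℝ) ^ 8) * (1 / (N : ℝ) ^ 3) := by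
          rw [h7]; ring
      _ ≤ V * (256 ^ 11 * (Nat.factorial 11 : ℕ)) * (1 / (N : ℝ) ^ 8) * (μ / c) :=
          mul_le_mul_of_nonneg_left hcμ (by positivity)
      _ = V * (256 ^ 11 * (Nat.factorial 11 : ℕ)) / c * (1 / (N : ℝ) ^ 8 * μ) := by ring
      _ ≤ C * (1 / (N : ℝ) ^ 8 * μ) := mul_le_mul_of_nonneg_right hC2 (by positivity)
      _ = C / (N : ℝ) ^ 8 * μ := by ring

end Pool.Agent.Helper985.PS
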