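import Pool.Agent.Helper985.PS.M_hopf_basic
import Pool.Agent.Helper985.PS.Defs

set_option autoImplicit false

open MeasureTheory
open scoped Topology

namespace Pool.Agent.Helper985.PS



theorem hz_G (N : ℕ) (s : ℝ → ℝ) (u : ℝ → ℂ) (s' : ℝ) (u' : ℂ) (t : ℝ) (hs : HasDerivAt s s' t)
    (hu : HasDerivAt u u' t) (hpos : 0 < s t) :
    HasDerivAt (fun t => (((s t) ^ (-(3 / 2) : ℝ) : ℝ) : ℂ) * (2 * Complex.I * u t / ((s t : ℝ) : ℂ)) ^ N)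
      ((((s t) ^ (-(3 / 2) : ℝ) : ℝ) : ℂ) / ((s t : ℝ) : ℂ) *
        (-(3 / 2 + (N : ℂ)) * (s' : ℂ) * (2 * Complex.I * u t / ((s t : ℝ) : ℂ)) ^ N
          + 2 * Complex.I * u' * ((N : ℂ) * (2 * Complex.I * u t / ((s t : ℝ) : ℂ)) ^ (N - 1)))) t := by
  have hne : s t ≠ 0 := hpos.ne'
  have hneC : ((s t : ℝ) : ℂ) ≠ 0 := by exact_mod_cast hne
  have h1 : HasDerivAt (fun t => (s t) ^ (-(3 / 2) : ℝ)) (s' * (-(3 / 2)) * (s t) ^ (-(3 / 2) - 1 : ℝ)) t :=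
    hs.rpow_const (Or.inl hne)
  have h2 := h1.ofReal_comp
  have h3 : HasDerivAt (fun t => ((s t : ℝ) : ℂ)) (s' : ℂ) t := hs.ofReal_comp
  have h4 := ((hu.const_mul (2 * Complex.I)).div h3 hneC).pow N
  have h5 := h2.mul h4
  have h6 : (s t) ^ (-(3 / 2) - 1 : ℝ) = (s t) ^ (-(3 / 2) : ℝ) / s t := by
    rw [Real.rpow_sub hpos, Real.rpow_one]
  have h7 : (N : ℂ) * (2 * Complex.I * u t / ((s t : ℝ) : ℂ)) ^ (N - 1) * (2 * Complex.I * u t / ((s t : ℝ) : ℂ))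
      = (N : ℂ) * (2 * Complex.I * u t / ((s t : ℝ) : ℂ)) ^ N := by
    cases N with
    | zero => simp
    | succ k =>
      rw [mul_assoc, Nat.add_sub_cancel, ← pow_succ]
  refine HasDerivAt.congr_deriv h5 ?_
  rw [h6]
  simp only [Pi.div_apply, Pi.pow_apply]
  push_cast
  generalize ((((s t) ^ (-(3 / 2) : ℝ) : ℝ) : ℂ)) = P at *
  generalize hZ : (2 * Complex.I * u t / ((s t : ℝ) : ℂ)) = Z at *
  have h8 : 2 * Complex.I * u t = Z * ((s t : ℝ) : ℂ) := by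
    rw [← hZ]
    field_simp
  rw [h8]
  generalize Z ^ N = Zn at *
  generalize hZm : (N : ℂ) * Z ^ (N - 1) = Zm at *
  field_simp
  linear_combination (-2 * P * (s' : ℂ)) * h7

theorem hz_norm (y : E3) : ‖y‖ ^ 2 = y 0 ^ 2 + y 1 ^ 2 + y 2 ^ 2 := by
  rw [EuclideanSpace.real_norm_sq_eq, Fin.sum_univ_three]

theorem hz_comp (N : ℕ) (y d : E3) (i : Fin 2) :
    HasDerivAt (fun t : ℝ => (hopf N (y + t • d)) i) ((fderiv ℝ (hopf N) y d) i) 0 := by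
  have h1 : HasFDerivAt (hopf N) (fderiv ℝ (hopf N) y) y :=
    ((hopf_smooth N).differentiable (by simp [SM]) y).hasFDerivAt
  have h2 : HasDerivAt (fun t : ℝ => y + t • d) d 0 := by
    have := ((hasDerivAt_id (0 : ℝ)).smul_const d).const_add y
    simpa using this
  have h3 : HasDerivAt (fun t : ℝ => hopf N (y + t • d)) (fderiv ℝ (hopf N) y d) 0 := by
    apply HasFDerivAt.comp_hasDerivAt (0 : ℝ) (f := fun t : ℝ => y + t • d) (l := hopf N) _ h2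
    simpa using h1
  have h4 := (((EuclideanSpace.proj i : C2 →L[ℂ] ℂ).restrictScalars ℝ).hasFDerivAt
    (x := hopf N (y + (0 : ℝ) • d))).comp_hasDerivAt (0 : ℝ) h3
  exact h4

theorem hz_fd (N : ℕ) (y d : E3) (s P Zn Zm : ℂ) (hs : s = ((1 + ‖y‖ ^ 2 : ℝ) : ℂ))
    (hP : P = (((1 + ‖y‖ ^ 2) ^ (-(3 / 2) : ℝ) : ℝ) : ℂ)) (hZn : Zn = z2 y ^ N)
    (hZm : Zm = (N : ℂ) * z2 y ^ (N - 1)) :
    (fderiv ℝ (hopf N) y d) 0 = P / s *
        (-(3 / 2 + (N : ℂ)) * (2 * (y 0 * d 0 + y 1 * d 1 + y 2 * d 2) : ℝ) * Zn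
          + 2 * Complex.I * ((d 0 : ℂ) + Complex.I * (d 1 : ℂ)) * Zm) * (1 + Complex.I * (y 2 : ℂ))
        + P * Zn * (Complex.I * (d 2 : ℂ)) ∧
    (fderiv ℝ (hopf N) y d) 1 = P / s *
        (-(3 / 2 + (N : ℂ)) * (2 * (y 0 * d 0 + y 1 * d 1 + y 2 * d 2) : ℝ) * Zn
          + 2 * Complex.I * ((d 0 : ℂ) + Complex.I * (d 1 : ℂ)) * Zm) * (Complex.I * (y 0 : ℂ) - (y 1 : ℂ))
        + P * Zn * (Complex.I * (d 0 : ℂ) - (d 1 : ℂ)) := by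
  have hc : ∀ k : Fin 3, HasDerivAt (fun t : ℝ => (y + t • d) k) (d k) 0 := by
    intro k
    have := ((hasDerivAt_id (0 : ℝ)).mul_const (d k)).const_add (y k)
    simpa using this
  have hcC : ∀ k : Fin 3, HasDerivAt (fun t : ℝ => (((y + t • d) k : ℝ) : ℂ)) ((d k : ℝ) : ℂ) 0 :=
    fun k => (hc k).ofReal_comp
  have hsd : HasDerivAt (fun t : ℝ => 1 + ‖y + t • d‖ ^ 2) (2 * (y 0 * d 0 + y 1 * d 1 + y 2 * d 2)) 0 := by
    have h1 : (fun t : ℝ => 1 + ‖y + t • d‖ ^ 2) = fun t : ℝ => 1 + ((y + t • d) 0 ^ 2 + (y + t • d) 1 ^ 2 + (y + t • d) 2 ^ 2) := by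
      funext t
      rw [hz_norm]
    rw [h1]
    have h2 := ((((hc 0).pow 2).add ((hc 1).pow 2)).add ((hc 2).pow 2)).const_add 1
    refine HasDerivAt.congr_deriv h2 ?_
    simp
    ring
  have hud : HasDerivAt (fun t : ℝ => (((y + t • d) 0 : ℝ) : ℂ) + Complex.I * (((y + t • d) 1 : ℝ) : ℂ))
      (((d 0 : ℝ) : ℂ) + Complex.I * ((d 1 : ℝ) : ℂ)) 0 := (hcC 0).add ((hcC 1).const_mul Complex.I)
  have hG := hz_G N (fun t : ℝ => 1 + ‖y + t • d‖ ^ 2) _ _ _ 0 hsd hud (by positivity)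
  have hy0 : y + (0 : ℝ) • d = y := by simp
  have hz : 2 * Complex.I * ((y 0 : ℂ) + Complex.I * (y 1 : ℂ)) / ((1 + ‖y‖ ^ 2 : ℝ) : ℂ) = z2 y := rfl
  simp only [hy0] at hG
  rw [hz, ← hP, ← hs, ← hZn, ← hZm] at hG
  constructor
  · have h1 := hz_comp N y d 0
    have h2 : HasDerivAt (fun t : ℝ => 1 + Complex.I * (((y + t • d) 2 : ℝ) : ℂ)) (Complex.I * ((d 2 : ℝ) : ℂ)) 0 :=
      ((hcC 2).const_mul Complex.I).const_add 1
    have h3 := hG.mul h2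
    have h4 := h1.unique (f := fun t : ℝ => (hopf N (y + t • d)) 0) (h3.congr_of_eventuallyEq (Filter.Eventually.of_forall fun t => by
      simp [hopf, z2]))
    rw [h4]
    simp only [hy0]
    rw [hz, ← hP, ← hZn]
  · have h1 := hz_comp N y d 1
    have h2 : HasDerivAt (fun t : ℝ => Complex.I * (((y + t • d) 0 : ℝ) : ℂ) - (((y + t • d) 1 : ℝ) : ℂ)) (Complex.I * ((d 0 : ℝ) : ℂ) - ((d 1 : ℝ) : ℂ)) 0 :=
      ((hcC 0).const_mul Complex.I).sub (hcC 1)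
    have h3 := hG.mul h2
    have h4 := h1.unique (f := fun t : ℝ => (hopf N (y + t • d)) 1) (h3.congr_of_eventuallyEq (Filter.Eventually.of_forall fun t => by
      simp [hopf, z2]))
    rw [h4]
    simp only [hy0]
    rw [hz, ← hP, ← hZn]

/-- the zero mode equation -/
theorem hopf_zero (N : ℕ) (y : E3) :
    (∑ j : Fin 3, (-Complex.I) • sg (ee j) (fderiv ℝ (hopf N) y (ee j))) =
      ((2 * N + 3 : ℝ) : ℂ) • sg (afield y) (hopf N y) := by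
  obtain ⟨s, hs⟩ : ∃ s : ℂ, s = ((1 + ‖y‖ ^ 2 : ℝ) : ℂ) := ⟨_, rfl⟩
  obtain ⟨P, hP⟩ : ∃ P : ℂ, P = (((1 + ‖y‖ ^ 2) ^ (-(3 / 2) : ℝ) : ℝ) : ℂ) := ⟨_, rfl⟩
  obtain ⟨Zn, hZn⟩ : ∃ Zn : ℂ, Zn = z2 y ^ N := ⟨_, rfl⟩
  obtain ⟨Zm, hZm⟩ : ∃ Zm : ℂ, Zm = (N : ℂ) * z2 y ^ (N - 1) := ⟨_, rfl⟩
  have hs0 : s ≠ 0 := by
    rw [hs]
    have : (1 + ‖y‖ ^ 2 : ℝ) ≠ 0 := by positivity
    exact_mod_cast this
  have hs2 : s = 1 + (y 0 : ℂ) ^ 2 + (y 1 : ℂ) ^ 2 + (y 2 : ℂ) ^ 2 := by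
    rw [hs, hz_norm]
    push_cast
    ring
  have hrel : Zm * (2 * Complex.I * ((y 0 : ℂ) + Complex.I * (y 1 : ℂ))) = N * Zn * s := by
    have h1 : 2 * Complex.I * ((y 0 : ℂ) + Complex.I * (y 1 : ℂ)) = z2 y * s := by
      rw [z2, ← hs]
      field_simp
    rw [h1, hZm, hZn]
    cases N with
    | zero => simp
    | succ k =>
      rw [Nat.add_sub_cancel, pow_succ]
      ring
  have h0 := hz_fd N y (ee 0) s P Zn Zm hs hP hZn hZm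
  have h1 := hz_fd N y (ee 1) s P Zn Zm hs hP hZn hZm
  have h2 := hz_fd N y (ee 2) s P Zn Zm hs hP hZn hZm
  have hI : Complex.I ^ 2 = -1 := Complex.I_sq
  have hh0 : (hopf N y) 0 = P * Zn * (1 + Complex.I * (y 2 : ℂ)) := by
    simp [hopf, hP, hZn]
  have hh1 : (hopf N y) 1 = P * Zn * (Complex.I * (y 0 : ℂ) - (y 1 : ℂ)) := by
    simp [hopf, hP, hZn]
  have e1 : ∀ j k : Fin 3, ee j k = if k = j then 1 else 0 := by
    intro j k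
    simp [ee, PiLp.single_apply]
  simp only [e1] at h0 h1 h2
  simp only [Fin.isValue, Fin.reduceEq, if_true, if_false, mul_one, mul_zero, add_zero, zero_add,
    Complex.ofReal_zero, Complex.ofReal_one, sub_zero, zero_sub, Complex.ofReal_mul, Complex.ofReal_ofNat] at h0 h1 h2
  have hlhs0 : (∑ j : Fin 3, (-Complex.I) • sg (ee j) (fderiv ℝ (hopf N) y (ee j))) 0 =
      -Complex.I * ((fderiv ℝ (hopf N) y (ee 0)) 1 - Complex.I * (fderiv ℝ (hopf N) y (ee 1)) 1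
        + (fderiv ℝ (hopf N) y (ee 2)) 0) := by
    simp [Fin.sum_univ_three, sg, sigma, e1, Matrix.mulVec, dotProduct]
    ring
  have hlhs1 : (∑ j : Fin 3, (-Complex.I) • sg (ee j) (fderiv ℝ (hopf N) y (ee j))) 1 =
      -Complex.I * ((fderiv ℝ (hopf N) y (ee 0)) 0 + Complex.I * (fderiv ℝ (hopf N) y (ee 1)) 0
        - (fderiv ℝ (hopf N) y (ee 2)) 1) := by
    simp [Fin.sum_univ_three, sg, sigma, e1, Matrix.mulVec, dotProduct]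
    ring
  have hrhs0 : (((2 * N + 3 : ℝ) : ℂ) • sg (afield y) (hopf N y)) 0 =
      (2 * (N : ℂ) + 3) * ((1 - (s - 1) + 2 * (y 2 : ℂ) ^ 2) / s ^ 2 * (hopf N y) 0 +
        ((2 * (y 2 : ℂ) * (y 0 : ℂ) - 2 * (y 1 : ℂ)) / s ^ 2 - Complex.I * ((2 * (y 2 : ℂ) * (y 1 : ℂ) + 2 * (y 0 : ℂ)) / s ^ 2)) * (hopf N y) 1) := by
    simp [sg, sigma, afield, Matrix.mulVec, dotProduct, hs]
  have hrhs1 : (((2 * N + 3 : ℝ) : ℂ) • sg (afield y) (hopf N y)) 1 =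
      (2 * (N : ℂ) + 3) * (((2 * (y 2 : ℂ) * (y 0 : ℂ) - 2 * (y 1 : ℂ)) / s ^ 2 + Complex.I * ((2 * (y 2 : ℂ) * (y 1 : ℂ) + 2 * (y 0 : ℂ)) / s ^ 2)) * (hopf N y) 0
       - (1 - (s - 1) + 2 * (y 2 : ℂ) ^ 2) / s ^ 2 * (hopf N y) 1) := by
    simp [sg, sigma, afield, Matrix.mulVec, dotProduct, hs]
    left
    ring
  obtain ⟨Q, hQ⟩ : ∃ Q : ℂ, P = Q * s ^ 2 := ⟨P / s ^ 2, by field_simp⟩
  have d1 : P / s = Q * s := by
    rw [hQ]
    field_simp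
  have d2 : ∀ X Y : ℂ, X / s ^ 2 * (P * Zn * Y) = X * (Q * Zn * Y) := by
    intro X Y
    rw [hQ]
    field_simp
  have d3 : ∀ X X' Y : ℂ, (X / s ^ 2 - Complex.I * (X' / s ^ 2)) * (P * Zn * Y) = (X - Complex.I * X') * (Q * Zn * Y) := by
    intro X X' Y
    rw [hQ]
    field_simp
  have d4 : ∀ X X' Y : ℂ, (X / s ^ 2 + Complex.I * (X' / s ^ 2)) * (P * Zn * Y) = (X + Complex.I * X') * (Q * Zn * Y) := by
    intro X X' Y
    rw [hQ]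
    field_simp
  have hI3 : Complex.I ^ 3 = -Complex.I := Complex.I_pow_three
  have hI4 : Complex.I ^ 4 = 1 := Complex.I_pow_four
  have hI5 : Complex.I ^ 5 = Complex.I := by rw [pow_succ, hI4, one_mul]
  ext i
  fin_cases i
  · show (∑ j : Fin 3, (-Complex.I) • sg (ee j) (fderiv ℝ (hopf N) y (ee j))) 0 = (((2 * N + 3 : ℝ) : ℂ) • sg (afield y) (hopf N y)) 0
    rw [hlhs0, hrhs0, hh0, hh1, h0.2, h1.2, h2.1, d1, d2, d3, hQ]
    linear_combination (norm := (ring_nf; simp only [hI, hI3, hI4, hI5]; ring)) (2 * s * Q) * hrel + ((3 + 2 * N) * Q * Zn * (s + 2 * (1 + Complex.I * (y 2 : ℂ)))) * hs2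
  · show (∑ j : Fin 3, (-Complex.I) • sg (ee j) (fderiv ℝ (hopf N) y (ee j))) 1 = (((2 * N + 3 : ℝ) : ℂ) • sg (afield y) (hopf N y)) 1
    rw [hlhs1, hrhs1, hh0, hh1, h0.1, h1.1, h2.2, d1, d2, d4]
    linear_combination (norm := (ring_nf; simp only [hI, hI3, hI4, hI5]; ring)) (0 : ℂ) * hrel


end Pool.Agent.Helper985.PS
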