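import Pool.Agent.Helper985.PS.M_trace_ineq
import Pool.Agent.Helper985.PS.Defs

set_option autoImplicit false

open MeasureTheory
open scoped Topology

namespace Pool.Agent.Helper985.PS



/-- if `(y·v)² ≤ B v·Tv` for all `v` then `y·(ω+T)⁻¹y ≤ B` -/
theorem inv_le {ι : Type} [Fintype ι] [DecidableEq ι] (ω : ι → ℝ) (hω : ∀ m, 0 < ω m)
    (T : Matrix ι ι ℝ) (hT : T.PosSemidef) (y : ι → ℝ) (B : ℝ) (hB : 0 ≤ B)
    (h : ∀ v : ι → ℝ, (∑ m, y m * v m) ^ 2 ≤ B * (v ⬝ᵥ (T.mulVec v))) :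
    y ⬝ᵥ ((Matrix.diagonal ω + T)⁻¹.mulVec y) ≤ B := by
  have hΓ := (trace_ineq ω hω T hT).1
  set Γ := Matrix.diagonal ω + T with hΓd
  have hdet : IsUnit Γ.det := hΓ.det_pos.ne'.isUnit
  set v := Γ⁻¹.mulVec y with hv
  have h1 : Γ.mulVec v = y := by
    rw [hv, Matrix.mulVec_mulVec, Matrix.mul_nonsing_inv _ hdet, Matrix.one_mulVec]
  have h2 : v ⬝ᵥ (T.mulVec v) ≤ y ⬝ᵥ v := by
    have h3 : v ⬝ᵥ (Γ.mulVec v) = v ⬝ᵥ ((Matrix.diagonal ω).mulVec v) + v ⬝ᵥ (T.mulVec v) := by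
      rw [hΓd, Matrix.add_mulVec, dotProduct_add]
    rw [h1, dotProduct_comm] at h3
    have h4 : 0 ≤ v ⬝ᵥ ((Matrix.diagonal ω).mulVec v) := by
      simp only [dotProduct, Matrix.mulVec_diagonal]
      refine Finset.sum_nonneg fun m _ => ?_
      have := (hω m).le
      nlinarith [mul_nonneg this (mul_self_nonneg (v m))]
    linarith
  have h5 := h v
  have h6 : ∑ m, y m * v m = y ⬝ᵥ v := rfl
  rw [h6] at h5
  by_contra hcon
  push Not at hcon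
  have h7 : B * (v ⬝ᵥ (T.mulVec v)) ≤ B * (y ⬝ᵥ v) := mul_le_mul_of_nonneg_left h2 hB
  nlinarith

end Pool.Agent.Helper985.PS
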