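import Pool.Agent.Helper985.PS.M_Wm_basic
import Pool.Agent.Helper985.PS.M_band_ball
import Pool.Agent.Helper985.PS.M_card_mode
import Pool.Agent.Helper985.PS.M_circ_bound
import Pool.Agent.Helper985.PS.M_exists_gauge
import Pool.Agent.Helper985.PS.M_modefn
import Pool.Agent.Helper985.PS.Defs

set_option autoImplicit false

open MeasureTheory
open scoped Topology

namespace Pool.Agent.Helper985.PS












theorem rg_grad_scale (f : E3 → ℝ) (hf : Differentiable ℝ f) (a R : ℝ) (hR : R ≠ 0) (x : E3) :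
    gradient (fun x => a * R * f (R⁻¹ • x)) x = a • gradient f (R⁻¹ • x) := by
  refine ext_inner_right ℝ fun y => ?_
  rw [inner_gradient_left, real_inner_smul_left, inner_gradient_left]
  have h1 : HasFDerivAt (fun x : E3 => R⁻¹ • x) (R⁻¹ • ContinuousLinearMap.id ℝ E3) x :=
    (hasFDerivAt_id x).const_smul R⁻¹
  have h2 : HasFDerivAt (fun x => f (R⁻¹ • x))
      ((fderiv ℝ f (R⁻¹ • x)).comp (R⁻¹ • ContinuousLinearMap.id ℝ E3)) x :=
    (hf (R⁻¹ • x)).hasFDerivAt.comp x h1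
  have h3 := h2.const_mul (a * R)
  rw [h3.fderiv]
  show a * R * (fderiv ℝ f (R⁻¹ • x) (R⁻¹ • y)) = a * (fderiv ℝ f (R⁻¹ • x) y)
  rw [map_smul, smul_eq_mul]
  field_simp

theorem rg_grad_sum {ι : Type} [Fintype ι] (f : ι → E3 → ℝ) (hf : ∀ m, Differentiable ℝ (f m))
    (c : ι → ℝ) (y : E3) :
    gradient (fun y => ∑ m, c m * f m y) y = ∑ m, c m • gradient (f m) y := by
  refine ext_inner_right ℝ fun w => ?_
  rw [inner_gradient_left, sum_inner]
  have h1 : HasFDerivAt (fun y => ∑ m, c m * f m y) (∑ m, c m • fderiv ℝ (f m) y) y :=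
    HasFDerivAt.fun_sum fun m _ => ((hf m) y).hasFDerivAt.const_mul (c m)
  rw [h1.fderiv, ContinuousLinearMap.sum_apply]
  refine Finset.sum_congr rfl fun m _ => ?_
  rw [real_inner_smul_left, inner_gradient_left]
  rfl

theorem rg_fderiv_scale (U : E3 → E3) (hU : Differentiable ℝ U) (R : ℝ) (hR : 0 < R) (z : E3) :
    ‖fderiv ℝ (fun y => U (R • y)) z‖ = R * ‖fderiv ℝ U (R • z)‖ := by
  have h1 : HasFDerivAt (fun x : E3 => R • x) (R • ContinuousLinearMap.id ℝ E3) z :=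
    (hasFDerivAt_id z).const_smul R
  have h2 : HasFDerivAt (fun x => U (R • x))
      ((fderiv ℝ U (R • z)).comp (R • ContinuousLinearMap.id ℝ E3)) z :=
    (hU (R • z)).hasFDerivAt.comp z h1
  rw [h2.fderiv, ContinuousLinearMap.comp_smul, ContinuousLinearMap.comp_id, norm_smul,
    Real.norm_eq_abs, abs_of_pos hR]

theorem rg_continuous_gam : Continuous gam := by
  unfold gam
  refine (PiLp.continuous_toLp 2 _).comp (continuous_pi fun i => ?_)
  fin_cases i
  · exact Real.continuous_cos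
  · exact Real.continuous_sin
  · exact continuous_const

theorem rg_continuous_tau : Continuous tau := by
  unfold tau
  refine (PiLp.continuous_toLp 2 _).comp (continuous_pi fun i => ?_)
  fin_cases i
  · exact Real.continuous_sin.neg
  · exact Real.continuous_cos
  · exact continuous_const

theorem rg_circ_sum {ι : Type} [Fintype ι] (u : ι → E3 → E3) (hu : ∀ m, Continuous (u m))
    (c : ι → ℝ) : circ (fun y => ∑ m, c m • u m y) = ∑ m, c m * circ (u m) := by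
  unfold circ
  have h1 : ∀ s : ℝ, inner ℝ (∑ m, c m • u m (gam s)) (tau s) =
      ∑ m, c m * inner ℝ (u m (gam s)) (tau s) := by
    intro s
    rw [sum_inner]
    refine Finset.sum_congr rfl fun m _ => ?_
    rw [real_inner_smul_left]
  simp only [h1]
  rw [intervalIntegral.integral_finsetSum, Finset.mul_sum]
  · refine Finset.sum_congr rfl fun m _ => ?_
    rw [intervalIntegral.integral_const_mul]
    ring
  · intro m _
    refine Continuous.intervalIntegrable ?_ _ _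
    exact continuous_const.mul (((hu m).comp rg_continuous_gam).inner rg_continuous_tau)

theorem rg_form {ι : Type} [Fintype ι] (W : Matrix ι ι ℝ) (M : ι → ℝ) (t t' : ℝ) (v : ι → ℝ) :
    v ⬝ᵥ ((t • W + t' • Matrix.vecMulVec M M).mulVec v) =
      t * (v ⬝ᵥ (W.mulVec v)) + t' * (∑ m, v m * M m) ^ 2 := by
  rw [Matrix.add_mulVec, Matrix.smul_mulVec, Matrix.smul_mulVec, dotProduct_add,
    dotProduct_smul, dotProduct_smul, smul_eq_mul, smul_eq_mul, Matrix.vecMulVec_mulVec]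
  congr 2
  have : (∑ m, v m * M m) = v ⬝ᵥ M := rfl
  rw [this, dotProduct_smul, op_smul_eq_mul, dotProduct_comm M v]
  ring

theorem rg_D2_nonneg (y : E3) : 0 ≤ D2 y := by
  unfold D2
  positivity

/-- the gauge functions and the squeezing matrix -/
theorem ring_gauge (α : ℝ) (hα : 0 < α) : ∃ C : ℝ, 0 < C ∧ ∀ (L Λ R t t' : ℝ), 0 < R →
    8 * R ≤ L → 1 ≤ Λ * R → 0 < t → 0 < t' → ∀ (pol : Mode L Λ → E3), IsPolarisation pol →
    ∃ (θ : Mode L Λ → E3 → ℝ) (T : Matrix (Mode L Λ) (Mode L Λ) ℝ), T.PosSemidef ∧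
      (∀ m, ContDiff ℝ SM (θ m)) ∧
      T.trace ≤ C * (t * (Λ * R) ^ 3 + t' * (Λ ^ 2 / R)) ∧
      (∀ x, ∑ m, θ m x ^ 2 ≤ C * (R ^ 2 * Λ ^ 3)) ∧
      ∀ x, D2 (R⁻¹ • x) ≤ 1 / 16 → ∀ v : Mode L Λ → ℝ,
        ‖∑ m, v m • (Real.sqrt α • modeFn pol m x - gradient (θ m) x)‖ ^ 2 ≤
          (C * (D2 (R⁻¹ • x) * (R ^ 2 * Λ ^ 5) / t + 1 / t')) * (v ⬝ᵥ (T.mulVec v)) := by
  obtain ⟨C1, hC1, hcard⟩ := card_mode
  obtain ⟨C2, hC2, htr⟩ := Wm_trace
  obtain ⟨C3, hC3, hband⟩ := band_ball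
  obtain ⟨C4, hC4, hcirc⟩ := circ_bound
  obtain ⟨Θ, Cg, hCg, g1, g2, g3, g4⟩ := exists_gauge
  obtain ⟨C, hC⟩ : ∃ C, C = C2 + C4 + 2 * C1 * α * Cg ^ 2 + 2 * α * Cg ^ 2 * (C3 + 1) := ⟨_, rfl⟩
  have hCa : 0 < 2 * C1 * α * Cg ^ 2 := by positivity
  have hCb : 0 < 2 * α * Cg ^ 2 * (C3 + 1) := by positivity
  have hCpos : 0 < C := by rw [hC]; positivity
  refine ⟨C, hCpos, ?_⟩
  intro L Λ R t t' hR hRL hΛR ht ht' pol hp
  have hL : 0 < L := by linarith
  have hΛ : 0 < Λ := by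
    by_contra h
    push Not at h
    nlinarith
  have hLΛ : 1 ≤ L * Λ := by nlinarith
  have hR0 : R ≠ 0 := hR.ne'
  obtain ⟨u, hu⟩ : ∃ u : Mode L Λ → E3 → E3, u = fun m y => modeFn pol m (R • y) := ⟨_, rfl⟩
  have hus : ∀ m, ContDiff ℝ SM (u m) := by
    intro m
    rw [hu]
    exact (smooth_modeFn pol m).comp (contDiff_const_smul R)
  obtain ⟨M, hM⟩ : ∃ M : Mode L Λ → ℝ, M = fun m => circ (u m) := ⟨_, rfl⟩
  have hMsq : ∑ m, M m * M m = circSq pol R := by
    rw [hM, circSq]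
    refine Finset.sum_congr rfl fun m _ => ?_
    rw [hu]
    ring
  have hΘs : ∀ m, ContDiff ℝ SM (Θ (u m)) := fun m => g2 (u m) (hus m)
  have hΘd : ∀ m, Differentiable ℝ (Θ (u m)) := fun m => (hΘs m).differentiable (by simp)
  obtain ⟨W, hW⟩ : ∃ W, W = Wm pol R := ⟨_, rfl⟩
  have hWn : ∀ v : Mode L Λ → ℝ, 0 ≤ v ⬝ᵥ (W.mulVec v) := by
    intro v
    rw [hW, Wm_form hL hR pol hp v]
    refine integral_nonneg fun y => ?_
    show (0 : ℝ) ≤ ((1 + ‖y‖ / R) ^ 8)⁻¹ * ‖vecPot (modeFn pol) v y‖ ^ 2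
    positivity
  refine ⟨fun m x => Real.sqrt α * R * Θ (u m) (R⁻¹ • x), t • W + t' • Matrix.vecMulVec M M,
    ?_, ?_, ?_, ?_, ?_⟩
  · rw [Matrix.posSemidef_iff_dotProduct_mulVec]
    constructor
    · ext m n
      have h1 : W n m = W m n := by
        rw [hW]
        show (∫ y, ((1 + ‖y‖ / R) ^ 8)⁻¹ * inner ℝ (modeFn pol n y) (modeFn pol m y)) =
          ∫ y, ((1 + ‖y‖ / R) ^ 8)⁻¹ * inner ℝ (modeFn pol m y) (modeFn pol n y)
        refine integral_congr_ae (Filter.Eventually.of_forall fun y => ?_)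
        show ((1 + ‖y‖ / R) ^ 8)⁻¹ * inner ℝ (modeFn pol n y) (modeFn pol m y) =
          ((1 + ‖y‖ / R) ^ 8)⁻¹ * inner ℝ (modeFn pol m y) (modeFn pol n y)
        rw [real_inner_comm]
      show t * W n m + t' * (M n * M m) = t * W m n + t' * (M m * M n)
      rw [h1]
      ring
    · intro v
      have h0 : star v = v := by
        funext m
        exact star_trivial (v m)
      rw [h0, rg_form]
      have := hWn v
      positivity
  · intro m
    exact contDiff_const.mul ((hΘs m).comp (contDiff_const_smul R⁻¹))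
  · have h1 : (t • W + t' • Matrix.vecMulVec M M).trace = t * W.trace + t' * ∑ m, M m * M m := by
      rw [Matrix.trace_add, Matrix.trace_smul, Matrix.trace_smul, Matrix.trace_vecMulVec]
      rfl
    rw [h1, hMsq]
    have h2 := htr L Λ R hL hLΛ hR pol hp
    rw [← hW] at h2
    have h3 := hcirc L Λ R hR hΛ hΛR hRL pol hp
    have h4 : C2 * (Λ * R) ^ 3 ≤ C * (Λ * R) ^ 3 :=
      mul_le_mul_of_nonneg_right (by rw [hC]; linarith) (by positivity)
    have h5 : C4 * Λ ^ 2 / R ≤ C * (Λ ^ 2 / R) := by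
      rw [mul_div_assoc]
      exact mul_le_mul_of_nonneg_right (by rw [hC]; linarith) (by positivity)
    calc t * W.trace + t' * circSq pol R
        ≤ t * (C * (Λ * R) ^ 3) + t' * (C * (Λ ^ 2 / R)) :=
          add_le_add (mul_le_mul_of_nonneg_left (h2.trans h4) ht.le)
            (mul_le_mul_of_nonneg_left (h3.trans h5) ht'.le)
      _ = C * (t * (Λ * R) ^ 3 + t' * (Λ ^ 2 / R)) := by ring
  · intro x
    have h1 : ∀ m, (Real.sqrt α * R * Θ (u m) (R⁻¹ • x)) ^ 2 ≤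
        α * R ^ 2 * Cg ^ 2 * (2 / L ^ 3) := by
      intro m
      have h2 : |Θ (u m) (R⁻¹ • x)| ≤ Cg * Real.sqrt (2 / L ^ 3) := by
        refine g3 (u m) (hus m) _ (fun z _ => ?_) _
        apply Real.le_sqrt_of_sq_le
        rw [hu]
        exact norm_modeFn_sq hL pol hp m (R • z)
      have h3 : (Θ (u m) (R⁻¹ • x)) ^ 2 ≤ Cg ^ 2 * (2 / L ^ 3) := by
        have h4 : (Cg * Real.sqrt (2 / L ^ 3)) ^ 2 = Cg ^ 2 * (2 / L ^ 3) := by
          rw [mul_pow, Real.sq_sqrt (by positivity)]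
        rw [← h4, ← sq_abs]
        exact pow_le_pow_left₀ (abs_nonneg _) h2 2
      calc (Real.sqrt α * R * Θ (u m) (R⁻¹ • x)) ^ 2
          = α * R ^ 2 * (Θ (u m) (R⁻¹ • x)) ^ 2 := by
            rw [mul_pow, mul_pow, Real.sq_sqrt hα.le]
        _ ≤ α * R ^ 2 * (Cg ^ 2 * (2 / L ^ 3)) :=
            mul_le_mul_of_nonneg_left h3 (by positivity)
        _ = _ := by ring
    have h5 := hcard L Λ hL hLΛ
    calc ∑ m, (Real.sqrt α * R * Θ (u m) (R⁻¹ • x)) ^ 2
        ≤ ∑ _m : Mode L Λ, α * R ^ 2 * Cg ^ 2 * (2 / L ^ 3) := Finset.sum_le_sum fun m _ => h1 m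
      _ = (Fintype.card (Mode L Λ) : ℝ) * (α * R ^ 2 * Cg ^ 2 * (2 / L ^ 3)) := by
          rw [Finset.sum_const, Finset.card_univ, nsmul_eq_mul]
      _ ≤ (C1 * (L * Λ) ^ 3) * (α * R ^ 2 * Cg ^ 2 * (2 / L ^ 3)) :=
          mul_le_mul_of_nonneg_right h5 (by positivity)
      _ = (2 * C1 * α * Cg ^ 2) * (R ^ 2 * Λ ^ 3) := by
          field_simp
      _ ≤ C * (R ^ 2 * Λ ^ 3) :=
          mul_le_mul_of_nonneg_right (by rw [hC]; linarith) (by positivity)
  · intro x hx v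
    obtain ⟨y, hy⟩ : ∃ y, y = R⁻¹ • x := ⟨_, rfl⟩
    rw [← hy] at hx
    obtain ⟨U, hU⟩ : ∃ U : E3 → E3, U = fun y => ∑ m, v m • u m y := ⟨_, rfl⟩
    have hUs : ContDiff ℝ SM U := by
      rw [hU]
      exact ContDiff.sum fun m _ => (hus m).const_smul (v m)
    have hvp : ContDiff ℝ SM (vecPot (modeFn pol) v) := by
      unfold vecPot
      exact ContDiff.sum fun m _ => (smooth_modeFn pol m).const_smul (v m)
    have hUv : U = fun y => vecPot (modeFn pol) v (R • y) := by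
      rw [hU, hu]
      rfl
    have hgrad : ∀ m, gradient (fun x => Real.sqrt α * R * Θ (u m) (R⁻¹ • x)) x =
        Real.sqrt α • gradient (Θ (u m)) y := by
      intro m
      rw [hy]
      exact rg_grad_scale (Θ (u m)) (hΘd m) (Real.sqrt α) R hR0 x
    have hgU : gradient (Θ U) y = ∑ m, v m • gradient (Θ (u m)) y := by
      have h1 : Θ U = fun y => ∑ m, v m * Θ (u m) y := by
        rw [hU]
        exact g1 (Mode L Λ) v u hus
      rw [h1]
      exact rg_grad_sum (fun m => Θ (u m)) hΘd v y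
    have hux : ∀ m, modeFn pol m x = u m y := by
      intro m
      rw [hu, hy]
      show modeFn pol m x = modeFn pol m (R • R⁻¹ • x)
      rw [smul_inv_smul₀ hR0]
    have hsum : (∑ m, v m • (Real.sqrt α • modeFn pol m x -
        gradient (fun x => Real.sqrt α * R * Θ (u m) (R⁻¹ • x)) x)) =
        Real.sqrt α • (U y - gradient (Θ U) y) := by
      rw [hgU, hU]
      show _ = Real.sqrt α • ((∑ m, v m • u m y) - ∑ m, v m • gradient (Θ (u m)) y)
      rw [← Finset.sum_sub_distrib, Finset.smul_sum]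
      refine Finset.sum_congr rfl fun m _ => ?_
      rw [hgrad, hux, ← smul_sub, ← smul_sub, smul_comm]
    obtain ⟨w, hw⟩ : ∃ w, w = v ⬝ᵥ (W.mulVec v) := ⟨_, rfl⟩
    have hw0 : 0 ≤ w := hw ▸ hWn v
    obtain ⟨S, hS⟩ : ∃ S, S = R * Real.sqrt (C3 * Λ ^ 5 * w) := ⟨_, rfl⟩
    have hS2 : S ^ 2 = R ^ 2 * (C3 * Λ ^ 5 * w) := by
      rw [hS, mul_pow, Real.sq_sqrt (by positivity)]
    have hSb : ∀ z : E3, ‖z‖ ≤ 2 → ‖fderiv ℝ U z‖ ≤ S := by
      intro z hz
      rw [hUv, rg_fderiv_scale _ (hvp.differentiable (by simp)) R hR z, hS]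
      apply mul_le_mul_of_nonneg_left _ hR.le
      apply Real.le_sqrt_of_sq_le
      rw [hw, hW]
      refine hband L Λ R hL hΛ hR hΛR pol hp v (R • z) ?_
      rw [norm_smul, Real.norm_eq_abs, abs_of_pos hR]
      nlinarith
    have hg := g4 U hUs S hSb y hx
    have hcU : circ U = ∑ m, v m * M m := by
      rw [hU, hM]
      exact rg_circ_sum u (fun m => (hus m).continuous) v
    have hD0 := rg_D2_nonneg y
    show ‖∑ m, v m • (Real.sqrt α • modeFn pol m x -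
        gradient (fun x => Real.sqrt α * R * Θ (u m) (R⁻¹ • x)) x)‖ ^ 2 ≤ _
    rw [hsum, norm_smul, Real.norm_eq_abs, abs_of_nonneg (Real.sqrt_nonneg α), mul_pow,
      Real.sq_sqrt hα.le, rg_form, ← hw, ← hcU, ← hy]
    obtain ⟨c, hc⟩ : ∃ c, c = circ U := ⟨_, rfl⟩
    obtain ⟨D, hD⟩ : ∃ D, D = D2 y := ⟨_, rfl⟩
    rw [← hc, ← hD] at hg
    rw [← hD] at hD0
    rw [← hc, ← hD]
    have h1 : ‖U y - gradient (Θ U) y‖ ^ 2 ≤ Cg ^ 2 * (2 * (D * S ^ 2 + c ^ 2)) := by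
      have h2 : ‖U y - gradient (Θ U) y‖ ^ 2 ≤ (Cg * (Real.sqrt D * S + |c|)) ^ 2 :=
        pow_le_pow_left₀ (norm_nonneg _) hg 2
      refine h2.trans ?_
      rw [mul_pow]
      apply mul_le_mul_of_nonneg_left _ (by positivity)
      have h3 : (Real.sqrt D * S + |c|) ^ 2 ≤ 2 * ((Real.sqrt D * S) ^ 2 + |c| ^ 2) := by
        nlinarith [sq_nonneg (Real.sqrt D * S - |c|)]
      rw [mul_pow, Real.sq_sqrt hD0, sq_abs] at h3
      exact h3
    have h4 : α * ‖U y - gradient (Θ U) y‖ ^ 2 ≤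
        2 * α * Cg ^ 2 * (D * (R ^ 2 * (C3 * Λ ^ 5 * w)) + c ^ 2) := by
      rw [hS2] at h1
      calc α * ‖U y - gradient (Θ U) y‖ ^ 2
          ≤ α * (Cg ^ 2 * (2 * (D * (R ^ 2 * (C3 * Λ ^ 5 * w)) + c ^ 2))) :=
            mul_le_mul_of_nonneg_left h1 hα.le
        _ = _ := by ring
    refine h4.trans ?_
    obtain ⟨Q, hQ⟩ : ∃ Q, Q = t * w + t' * c ^ 2 := ⟨_, rfl⟩
    rw [← hQ]
    have hQ1 : t * w ≤ Q := by
      rw [hQ]
      have : 0 ≤ t' * c ^ 2 := by positivity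
      linarith
    have hQ2 : t' * c ^ 2 ≤ Q := by
      rw [hQ]
      have : 0 ≤ t * w := by positivity
      linarith
    have hQ0 : 0 ≤ Q := by
      have : 0 ≤ t * w := by positivity
      linarith
    have h5 : w ≤ Q / t := by
      rw [le_div_iff₀ ht]
      linarith
    have h6 : c ^ 2 ≤ Q / t' := by
      rw [le_div_iff₀ ht']
      linarith
    have h7 : D * (R ^ 2 * (C3 * Λ ^ 5 * w)) ≤ D * (R ^ 2 * (C3 * Λ ^ 5 * (Q / t))) := by
      apply mul_le_mul_of_nonneg_left _ hD0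
      apply mul_le_mul_of_nonneg_left _ (by positivity)
      exact mul_le_mul_of_nonneg_left h5 (by positivity)
    obtain ⟨A, hA⟩ : ∃ A, A = D * (R ^ 2 * Λ ^ 5) / t * Q := ⟨_, rfl⟩
    have hA0 : 0 ≤ A := by rw [hA]; positivity
    obtain ⟨B, hB⟩ : ∃ B, B = 1 / t' * Q := ⟨_, rfl⟩
    have hB0 : 0 ≤ B := by rw [hB]; positivity
    have h8 : D * (R ^ 2 * (C3 * Λ ^ 5 * (Q / t))) = C3 * A := by
      rw [hA]
      ring
    have h9 : Q / t' = B := by
      rw [hB]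
      ring
    calc 2 * α * Cg ^ 2 * (D * (R ^ 2 * (C3 * Λ ^ 5 * w)) + c ^ 2)
        ≤ 2 * α * Cg ^ 2 * (C3 * A + B) := by
          apply mul_le_mul_of_nonneg_left _ (by positivity)
          rw [← h8, ← h9]
          exact add_le_add h7 h6
      _ ≤ 2 * α * Cg ^ 2 * ((C3 + 1) * (A + B)) := by
          apply mul_le_mul_of_nonneg_left _ (by positivity)
          nlinarith [mul_nonneg hC3.le hB0]
      _ = (2 * α * Cg ^ 2 * (C3 + 1)) * (A + B) := by ring
      _ ≤ C * (A + B) := by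
          apply mul_le_mul_of_nonneg_right _ (by positivity)
          rw [hC]
          linarith
      _ = C * (D * (R ^ 2 * Λ ^ 5) / t + 1 / t') * Q := by
          rw [hA, hB]
          ring

end Pool.Agent.Helper985.PS
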