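import Pool.Agent.Helper985.PS.M_classical
import Pool.Agent.Helper985.PS.M_exists_cutoff
import Pool.Agent.Helper985.PS.M_hopf_basic
import Pool.Agent.Helper985.PS.M_hopf_conc
import Pool.Agent.Helper985.PS.M_hopf_zero
import Pool.Agent.Helper985.PS.M_modefn
import Pool.Agent.Helper985.PS.M_pauli
import Pool.Agent.Helper985.PS.Defs

set_option autoImplicit false

open MeasureTheory
open scoped Topology

namespace Pool.Agent.Helper985.PS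















theorem rs_line {F : Type*} [NormedAddCommGroup F] [NormedSpace ℝ F] {f : E3 → F}
    (hf : Differentiable ℝ f) (x v : E3) :
    HasDerivAt (fun t : ℝ => f (x + t • v)) (fderiv ℝ f x v) 0 := by
  have hc : HasDerivAt (fun s : ℝ => x + s • v) v 0 := by
    have h1 : HasDerivAt (fun s : ℝ => s • v) ((1 : ℝ) • v) 0 := (hasDerivAt_id (0 : ℝ)).smul_const v
    rw [one_smul] at h1
    exact h1.const_add x
  have hG' : HasFDerivAt f (fderiv ℝ f x) (x + (0 : ℝ) • v) := by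
    rw [zero_smul, add_zero]
    exact (hf x).hasFDerivAt
  exact hG'.comp_hasDerivAt (0 : ℝ) hc

theorem rs_line_scaled {F : Type*} [NormedAddCommGroup F] [NormedSpace ℝ F] {f : E3 → F}
    (hf : Differentiable ℝ f) (R : ℝ) (x v : E3) :
    HasDerivAt (fun t : ℝ => f (R⁻¹ • (x + t • v))) (R⁻¹ • fderiv ℝ f (R⁻¹ • x) v) 0 := by
  have h := rs_line hf (R⁻¹ • x) (R⁻¹ • v)
  rw [map_smul] at h
  refine h.congr_of_eventuallyEq (Filter.Eventually.of_forall fun t => ?_)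
  show f (R⁻¹ • (x + t • v)) = f (R⁻¹ • x + t • R⁻¹ • v)
  rw [smul_add, smul_comm R⁻¹ t v]

/-- the state -/
noncomputable def rsChi (η lam : E3 → ℝ) (R : ℝ) (N : ℕ) (x : E3) : C2 :=
  Complex.exp (-(Complex.I * (((2 * N + 3 : ℝ) * lam x : ℝ) : ℂ))) •
    ((η (R⁻¹ • x) : ℂ) • hopf N (R⁻¹ • x))

theorem rsChi_smooth {η lam : E3 → ℝ} (hη : ContDiff ℝ SM η) (hlam : ContDiff ℝ SM lam) (R : ℝ)
    (N : ℕ) : ContDiff ℝ SM (rsChi η lam R N) := by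
  unfold rsChi
  have h1 : ContDiff ℝ SM (fun x : E3 => R⁻¹ • x) := contDiff_const_smul _
  have h2 : ContDiff ℝ SM (fun x : E3 => ((η (R⁻¹ • x) : ℝ) : ℂ)) :=
    Complex.ofRealCLM.contDiff.comp (hη.comp h1)
  have h3 : ContDiff ℝ SM (fun x : E3 => hopf N (R⁻¹ • x)) := (hopf_smooth N).comp h1
  have h4 : ContDiff ℝ SM (fun x : E3 => (((2 * N + 3 : ℝ) * lam x : ℝ) : ℂ)) :=
    Complex.ofRealCLM.contDiff.comp (contDiff_const.mul hlam)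
  have h5 : ContDiff ℝ SM (fun x : E3 =>
      Complex.exp (-(Complex.I * (((2 * N + 3 : ℝ) * lam x : ℝ) : ℂ)))) :=
    ((contDiff_const.mul h4).neg).cexp
  exact h5.smul (h2.smul h3)

theorem rs_norm_exp (r : ℝ) : ‖Complex.exp (-(Complex.I * (r : ℂ)))‖ = 1 := by
  rw [Complex.norm_exp]
  simp

theorem rsChi_norm (η lam : E3 → ℝ) (R : ℝ) (N : ℕ) (x : E3) :
    ‖rsChi η lam R N x‖ = ‖(η (R⁻¹ • x) : ℂ) • hopf N (R⁻¹ • x)‖ := by
  unfold rsChi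
  rw [norm_smul, rs_norm_exp, one_mul]

theorem rs_sg_sub (v w : E3) (s : C2) : sg (v - w) s = sg v s - sg w s := by
  have h1 : v - w = v + (-1 : ℝ) • w := by rw [neg_one_smul, sub_eq_add_neg]
  rw [h1, sg_add, sg_smul]
  push_cast
  rw [neg_one_smul, sub_eq_add_neg]

theorem rs_grad (f : E3 → ℝ) (x : E3) (j : Fin 3) :
    (gradient f x) j = fderiv ℝ f x (ee j) := by
  have h : inner ℝ (gradient f x) (ee j) = fderiv ℝ f x (ee j) := by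
    unfold gradient
    rw [InnerProductSpace.toDual_symm_apply]
  rw [← h]
  unfold ee
  rw [EuclideanSpace.inner_single_right]
  simp

theorem rs_grad_norm (f : E3 → ℝ) (x : E3) : ‖gradient f x‖ = ‖fderiv ℝ f x‖ := by
  unfold gradient
  exact LinearIsometryEquiv.norm_map _ _

theorem rs_coe_smul (r : ℝ) (s : C2) : r • s = (r : ℂ) • s := by
  ext i
  simp

theorem rs_fderiv {η lam : E3 → ℝ} (hη : ContDiff ℝ SM η) (hlam : ContDiff ℝ SM lam) (R : ℝ)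
    (N : ℕ) (x v : E3) : fderiv ℝ (rsChi η lam R N) x v =
      Complex.exp (-(Complex.I * (((2 * N + 3 : ℝ) * lam x : ℝ) : ℂ))) •
        ((η (R⁻¹ • x) : ℂ) • ((R⁻¹ : ℝ) : ℂ) • fderiv ℝ (hopf N) (R⁻¹ • x) v +
          ((R⁻¹ * fderiv ℝ η (R⁻¹ • x) v : ℝ) : ℂ) • hopf N (R⁻¹ • x)) +
      (Complex.exp (-(Complex.I * (((2 * N + 3 : ℝ) * lam x : ℝ) : ℂ))) *
        (-(Complex.I * (((2 * N + 3 : ℝ) * fderiv ℝ lam x v : ℝ) : ℂ)))) •
        ((η (R⁻¹ • x) : ℂ) • hopf N (R⁻¹ • x)) := by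
  have h0 := rs_line ((rsChi_smooth hη hlam R N).differentiable (by simp)) x v
  have hE : HasDerivAt (fun t : ℝ => Complex.exp (-(Complex.I *
      (((2 * N + 3 : ℝ) * lam (x + t • v) : ℝ) : ℂ))))
      (Complex.exp (-(Complex.I * (((2 * N + 3 : ℝ) * lam x : ℝ) : ℂ))) *
        (-(Complex.I * (((2 * N + 3 : ℝ) * fderiv ℝ lam x v : ℝ) : ℂ)))) 0 := by
    have h1 := (((rs_line (hlam.differentiable (by simp)) x v).const_mul
      (2 * N + 3 : ℝ)).ofReal_comp.const_mul Complex.I).fun_neg.cexp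
    simpa using h1
  have hH : HasDerivAt (fun t : ℝ => ((η (R⁻¹ • (x + t • v)) : ℝ) : ℂ))
      (((R⁻¹ * fderiv ℝ η (R⁻¹ • x) v : ℝ) : ℂ)) 0 := by
    have h1 := (rs_line_scaled (hη.differentiable (by simp)) R x v).ofReal_comp
    exact h1
  have hK : HasDerivAt (fun t : ℝ => hopf N (R⁻¹ • (x + t • v)))
      (((R⁻¹ : ℝ) : ℂ) • fderiv ℝ (hopf N) (R⁻¹ • x) v) 0 := by
    have h1 := rs_line_scaled ((hopf_smooth N).differentiable (by simp)) R x v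
    rwa [rs_coe_smul] at h1
  have h1 := hE.fun_smul (hH.fun_smul hK)
  have h2 := h0.unique h1
  rw [h2]
  simp only [zero_smul, add_zero]

theorem rs_vecPot {L Λ : ℝ} (pol : Mode L Λ → E3) (c : Mode L Λ → ℝ) (r : ℝ) (x : E3) :
    vecPot (modeFn pol) (fun m => r * c m) x = r • vecPot (modeFn pol) c x := by
  unfold vecPot
  rw [Finset.smul_sum]
  refine Finset.sum_congr rfl fun m _ => ?_
  rw [mul_smul]

theorem rs_pauli (α : ℝ) (hα : 0 < α) {L Λ : ℝ} (pol : Mode L Λ → E3) (c : Mode L Λ → ℝ)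
    {η lam : E3 → ℝ} (hη : ContDiff ℝ SM η) (hlam : ContDiff ℝ SM lam) (R : ℝ) (N : ℕ) (x : E3) :
    pauli0 α (modeFn pol) (fun m => -((2 * N + 3 : ℝ) / Real.sqrt α) * c m) (rsChi η lam R N) x =
      (Complex.exp (-(Complex.I * (((2 * N + 3 : ℝ) * lam x : ℝ) : ℂ))) *
        (-Complex.I * ((R⁻¹ : ℝ) : ℂ))) •
          sg (gradient η (R⁻¹ • x)) (hopf N (R⁻¹ • x)) +
      (Complex.exp (-(Complex.I * (((2 * N + 3 : ℝ) * lam x : ℝ) : ℂ))) *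
        ((2 * N + 3 : ℝ) : ℂ)) •
          sg (R⁻¹ • afield (R⁻¹ • x) - vecPot (modeFn pol) c x - gradient lam x)
            ((η (R⁻¹ • x) : ℂ) • hopf N (R⁻¹ • x)) := by
  unfold pauli0
  rw [rs_vecPot]
  have hterm : ∀ j : Fin 3, (-Complex.I) • sg (ee j) (fderiv ℝ (rsChi η lam R N) x (ee j)) =
      (Complex.exp (-(Complex.I * (((2 * N + 3 : ℝ) * lam x : ℝ) : ℂ))) * (η (R⁻¹ • x) : ℂ) *
        ((R⁻¹ : ℝ) : ℂ)) • ((-Complex.I) • sg (ee j) (fderiv ℝ (hopf N) (R⁻¹ • x) (ee j))) +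
      (Complex.exp (-(Complex.I * (((2 * N + 3 : ℝ) * lam x : ℝ) : ℂ))) *
        (-Complex.I * ((R⁻¹ : ℝ) : ℂ))) •
          (((gradient η (R⁻¹ • x)) j : ℂ) • sg (ee j) (hopf N (R⁻¹ • x))) +
      (Complex.exp (-(Complex.I * (((2 * N + 3 : ℝ) * lam x : ℝ) : ℂ))) * (η (R⁻¹ • x) : ℂ) *
        (-((2 * N + 3 : ℝ) : ℂ))) •
          (((gradient lam x) j : ℂ) • sg (ee j) (hopf N (R⁻¹ • x))) := by
    intro j
    rw [rs_fderiv hη hlam, rs_grad, rs_grad]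
    simp only [sg_add_right, sg_smul_right]
    generalize sg (ee j) (fderiv ℝ (hopf N) (R⁻¹ • x) (ee j)) = A
    generalize sg (ee j) (hopf N (R⁻¹ • x)) = B
    generalize Complex.exp (-(Complex.I * (((2 * N + 3 : ℝ) * lam x : ℝ) : ℂ))) = E0
    rw [Complex.ofReal_mul (2 * (N : ℝ) + 3), Complex.ofReal_mul R⁻¹]
    generalize ((2 * (N : ℝ) + 3 : ℝ) : ℂ) = ν
    generalize ((R⁻¹ : ℝ) : ℂ) = R'
    generalize ((fderiv ℝ η (R⁻¹ • x) (ee j) : ℝ) : ℂ) = g1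
    generalize ((fderiv ℝ lam x (ee j) : ℝ) : ℂ) = g2
    generalize ((η (R⁻¹ • x) : ℝ) : ℂ) = H0
    simp only [smul_add, smul_smul]
    rw [show -Complex.I * (E0 * -(Complex.I * (ν * g2)) * H0) = E0 * H0 * -ν * g2 by
      linear_combination (E0 * ν * g2 * H0) * Complex.I_sq]
    congr 1
    congr 1
    · congr 1
      ring
    · congr 1
      ring
  rw [Finset.sum_congr rfl fun j _ => hterm j]
  rw [Finset.sum_add_distrib, Finset.sum_add_distrib, ← Finset.smul_sum, hopf_zero,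
    ← Finset.smul_sum, sum_sg, ← Finset.smul_sum, sum_sg]
  rw [sg_smul, rs_sg_sub, rs_sg_sub, sg_smul]
  unfold rsChi
  simp only [sg_smul_right]
  have hsq : ((Real.sqrt α : ℝ) : ℂ) * ((-((2 * N + 3 : ℝ) / Real.sqrt α) : ℝ) : ℂ) =
      -((2 * N + 3 : ℝ) : ℂ) := by
    rw [← Complex.ofReal_mul, ← Complex.ofReal_neg]
    congr 1
    have : Real.sqrt α ≠ 0 := (Real.sqrt_pos.2 hα).ne'
    field_simp
  generalize sg (afield (R⁻¹ • x)) (hopf N (R⁻¹ • x)) = A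
  generalize sg (gradient η (R⁻¹ • x)) (hopf N (R⁻¹ • x)) = B
  generalize sg (gradient lam x) (hopf N (R⁻¹ • x)) = C
  generalize sg (vecPot (modeFn pol) c x) (hopf N (R⁻¹ • x)) = D
  generalize Complex.exp (-(Complex.I * (((2 * N + 3 : ℝ) * lam x : ℝ) : ℂ))) = E0
  generalize ((-((2 * N + 3 : ℝ) / Real.sqrt α) : ℝ) : ℂ) = q at hsq ⊢
  generalize ((Real.sqrt α : ℝ) : ℂ) = sα at hsq ⊢
  generalize ((2 * (N : ℝ) + 3 : ℝ) : ℂ) = ν at hsq ⊢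
  generalize ((R⁻¹ : ℝ) : ℂ) = R'
  generalize ((η (R⁻¹ • x) : ℝ) : ℂ) = H0
  have h1 : sα • q • E0 • H0 • D = (-(ν * (E0 * H0))) • D := by
    simp only [smul_smul]
    congr 1
    linear_combination (E0 * H0) * hsq
  rw [h1]
  module

theorem rs_afield_smooth : ContDiff ℝ SM afield := by
  have hn : ContDiff ℝ SM (fun y : E3 => (1 + ‖y‖ ^ 2)) := contDiff_const.add (contDiff_norm_sq ℝ)
  have hi : ∀ i : Fin 3, ContDiff ℝ SM (fun y : E3 => y i) := fun i =>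
    (contDiff_euclidean.1 (contDiff_id : ContDiff ℝ SM (id : E3 → E3))) i
  have hd : ContDiff ℝ SM (fun y : E3 => (1 + ‖y‖ ^ 2) ^ 2) := hn.pow 2
  have hne : ∀ y : E3, (1 + ‖y‖ ^ 2) ^ 2 ≠ 0 := fun y => by positivity
  rw [contDiff_euclidean]
  intro i
  fin_cases i
  · show ContDiff ℝ SM (fun y : E3 => (2 * y 2 * y 0 - 2 * y 1) / (1 + ‖y‖ ^ 2) ^ 2)
    exact (((contDiff_const.mul (hi 2)).mul (hi 0)).sub (contDiff_const.mul (hi 1))).div hd hne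
  · show ContDiff ℝ SM (fun y : E3 => (2 * y 2 * y 1 + 2 * y 0) / (1 + ‖y‖ ^ 2) ^ 2)
    exact (((contDiff_const.mul (hi 2)).mul (hi 1)).add (contDiff_const.mul (hi 0))).div hd hne
  · show ContDiff ℝ SM (fun y : E3 => (1 - ‖y‖ ^ 2 + 2 * y 2 ^ 2) / (1 + ‖y‖ ^ 2) ^ 2)
    exact (((contDiff_const.sub (contDiff_norm_sq ℝ)).add
      (contDiff_const.mul ((hi 2).pow 2)))).div hd hne

theorem rs_cut : ∃ a : E3 → E3, ContDiff ℝ SM a ∧ (∀ y : E3, 4 ≤ ‖y‖ → a y = 0) ∧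
    ∀ y : E3, ‖y‖ ≤ 2 → a y = afield y := by
  let ζ : ContDiffBump (0 : E3) := ⟨2, 4, by norm_num, by norm_num⟩
  refine ⟨fun y => ζ y • afield y, ?_, ?_, ?_⟩
  · exact (ζ.contDiff (n := (⊤ : ℕ∞))).smul rs_afield_smooth
  · intro y hy
    have h : ζ y = 0 := ζ.zero_of_le_dist (by rw [dist_zero_right]; exact hy)
    show ζ y • afield y = 0
    rw [h, zero_smul]
  · intro y hy
    have h : ζ y = 1 := ζ.one_of_mem_closedBall (by rw [mem_closedBall_zero_iff]; exact hy)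
    show ζ y • afield y = afield y
    rw [h, one_smul]

theorem rs_bound (y : E3) (h : D2 y ≤ 1 / 16) : ‖y‖ ≤ 2 := by
  unfold D2 at h
  have h0 : 0 ≤ rho y := Real.sqrt_nonneg _
  have h1 : rho y ^ 2 = y 0 ^ 2 + y 1 ^ 2 := Real.sq_sqrt (by positivity)
  have h2 : ‖y‖ ^ 2 = y 0 ^ 2 + y 1 ^ 2 + y 2 ^ 2 := by
    rw [EuclideanSpace.norm_sq_eq, Fin.sum_univ_three]
    simp only [Real.norm_eq_abs, sq_abs]
  have h3 : rho y ≤ 5 / 4 := by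
    by_contra hc
    push Not at hc
    nlinarith [sq_nonneg (y 2)]
  have h4 : ‖y‖ ^ 2 ≤ 2 ^ 2 := by
    nlinarith [sq_nonneg (rho y - 1)]
  exact le_of_sq_le_sq h4 (by norm_num)

theorem rs_D2_cont : Continuous D2 := by
  unfold D2 rho
  fun_prop

theorem rs_fderiv_zero {η : E3 → ℝ} (h1 : ∀ y, D2 y ≤ 1 / 64 → η y = 1)
    (h0 : ∀ y, 1 / 16 ≤ D2 y → η y = 0) (y : E3) (hy : ¬ (1 / 64 ≤ D2 y ∧ D2 y ≤ 1 / 16)) :
    fderiv ℝ η y = 0 := by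
  rw [not_and_or, not_le, not_le] at hy
  rcases hy with hy | hy
  · have ho : IsOpen {z : E3 | D2 z < 1 / 64} := isOpen_lt rs_D2_cont continuous_const
    have he : η =ᶠ[𝓝 y] fun _ => (1 : ℝ) := by
      filter_upwards [ho.mem_nhds hy] with z hz
      exact h1 z (le_of_lt hz)
    rw [he.fderiv_eq]
    simp
  · have ho : IsOpen {z : E3 | 1 / 16 < D2 z} := isOpen_lt continuous_const rs_D2_cont
    have he : η =ᶠ[𝓝 y] fun _ => (0 : ℝ) := by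
      filter_upwards [ho.mem_nhds hy] with z hz
      exact h0 z (le_of_lt hz)
    rw [he.fderiv_eq]
    simp

/-- the region of the cutoff -/
def rsS : Set E3 := {y : E3 | 1 / 64 ≤ D2 y ∧ D2 y ≤ 1 / 16}

theorem rsS_closed : IsClosed rsS :=
  (isClosed_le continuous_const rs_D2_cont).inter (isClosed_le rs_D2_cont continuous_const)

theorem rsS_compact : IsCompact rsS :=
  (isCompact_closedBall (0 : E3) 2).of_isClosed_subset rsS_closed fun y hy =>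
    mem_closedBall_zero_iff.2 (rs_bound y hy.2)

theorem rs_int_S (N : ℕ) : IntegrableOn (fun y => ‖hopf N y‖ ^ 2) rsS := by
  have hc : Continuous (fun y => ‖hopf N y‖ ^ 2) := ((hopf_smooth N).continuous.norm).pow 2
  exact hc.continuousOn.integrableOn_compact rsS_compact

theorem rs_int_Phi {η : E3 → ℝ} (hη : ContDiff ℝ SM η) (hs : HasCompactSupport η) (N : ℕ) :
    Integrable (fun y => ‖(η y : ℂ) • hopf N y‖ ^ 2) := by
  have hc1 : Continuous (fun y : E3 => ((η y : ℝ) : ℂ)) :=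
    Complex.continuous_ofReal.comp hη.continuous
  have hc : Continuous (fun y => ‖(η y : ℂ) • hopf N y‖ ^ 2) :=
    ((hc1.smul (hopf_smooth N).continuous).norm).pow 2
  refine hc.integrable_of_hasCompactSupport ?_
  refine hs.mono ?_
  intro y hy
  rw [Function.mem_support] at hy ⊢
  intro h
  apply hy
  rw [h]
  simp

theorem rs_int_comp (f : E3 → ℝ) (R : ℝ) (hR : 0 < R) :
    ∫ x, f (R⁻¹ • x) = R ^ 3 * ∫ y, f y := by
  have h := MeasureTheory.Measure.integral_comp_inv_smul_of_nonneg (volume : Measure E3) f hR.le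
  rw [h, smul_eq_mul]
  congr 2
  simp

theorem rs_pointwise (α : ℝ) (hα : 0 < α) {L Λ : ℝ} (pol : Mode L Λ → E3) (c : Mode L Λ → ℝ)
    {η lam : E3 → ℝ} (hη : ContDiff ℝ SM η) (hlam : ContDiff ℝ SM lam) (R : ℝ) (hR : 0 < R)
    (N : ℕ) (Cη : ℝ) (hCη : ∀ y, ‖fderiv ℝ η y‖ ≤ Cη)
    (h1 : ∀ y, D2 y ≤ 1 / 64 → η y = 1) (h0 : ∀ y, 1 / 16 ≤ D2 y → η y = 0)
    (a : E3 → E3) (ha : ∀ y : E3, ‖y‖ ≤ 2 → a y = afield y) (ε : ℝ) (hε : 0 ≤ ε)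
    (herr : ∀ x : E3, ‖x‖ ≤ 4 * R →
          ‖R⁻¹ • a (R⁻¹ • x) - vecPot (modeFn pol) c x - gradient lam x‖ ≤ ε) (x : E3) :
    ‖pauli0 α (modeFn pol) (fun m => -((2 * N + 3 : ℝ) / Real.sqrt α) * c m)
        (rsChi η lam R N) x‖ ^ 2 ≤
      2 * (R⁻¹ * Cη) ^ 2 * rsS.indicator (fun y => ‖hopf N y‖ ^ 2) (R⁻¹ • x) +
        2 * ((2 * N + 3) * ε) ^ 2 * ‖(η (R⁻¹ • x) : ℂ) • hopf N (R⁻¹ • x)‖ ^ 2 := by
  rw [rs_pauli α hα pol c hη hlam R N x]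
  have hν : (0 : ℝ) ≤ 2 * N + 3 := by positivity
  have e1 : ‖Complex.exp (-(Complex.I * (((2 * N + 3 : ℝ) * lam x : ℝ) : ℂ))) *
        (-Complex.I * ((R⁻¹ : ℝ) : ℂ))‖ = R⁻¹ := by
    rw [norm_mul, rs_norm_exp, one_mul, norm_mul, norm_neg, Complex.norm_I, one_mul,
      Complex.norm_real, Real.norm_eq_abs, abs_of_pos (inv_pos.2 hR)]
  have e2 : ‖Complex.exp (-(Complex.I * (((2 * N + 3 : ℝ) * lam x : ℝ) : ℂ))) *
        ((2 * N + 3 : ℝ) : ℂ)‖ = 2 * N + 3 := by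
    rw [norm_mul, rs_norm_exp, one_mul, Complex.norm_real, Real.norm_eq_abs, abs_of_nonneg hν]
  have hP : (R⁻¹ * ‖gradient η (R⁻¹ • x)‖ * ‖hopf N (R⁻¹ • x)‖) ^ 2 ≤
      (R⁻¹ * Cη) ^ 2 * rsS.indicator (fun y => ‖hopf N y‖ ^ 2) (R⁻¹ • x) := by
    by_cases hy : R⁻¹ • x ∈ rsS
    · rw [Set.indicator_of_mem hy, ← mul_pow]
      have hg : ‖gradient η (R⁻¹ • x)‖ ≤ Cη := by
        rw [rs_grad_norm]
        exact hCη _
      have hRi : 0 ≤ R⁻¹ := inv_nonneg.2 hR.le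
      refine pow_le_pow_left₀ (by positivity) ?_ 2
      gcongr
    · rw [Set.indicator_of_notMem hy, rs_grad_norm,
        rs_fderiv_zero h1 h0 _ hy]
      simp
  have hQ : ((2 * N + 3) * ‖R⁻¹ • afield (R⁻¹ • x) - vecPot (modeFn pol) c x - gradient lam x‖ *
      ‖(η (R⁻¹ • x) : ℂ) • hopf N (R⁻¹ • x)‖) ^ 2 ≤
      ((2 * N + 3) * ε) ^ 2 * ‖(η (R⁻¹ • x) : ℂ) • hopf N (R⁻¹ • x)‖ ^ 2 := by
    rw [← mul_pow]
    by_cases hy : D2 (R⁻¹ • x) ≤ 1 / 16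
    · have hb := rs_bound _ hy
      have hx : ‖x‖ ≤ 4 * R := by
        rw [norm_smul, Real.norm_eq_abs, abs_of_pos (inv_pos.2 hR), inv_mul_le_iff₀ hR] at hb
        nlinarith
      have he := herr x hx
      rw [ha _ hb] at he
      refine pow_le_pow_left₀ (by positivity) ?_ 2
      gcongr
    · have hz : η (R⁻¹ • x) = 0 := h0 _ (le_of_lt (not_le.1 hy))
      rw [hz]
      simp
  have htri : ‖(Complex.exp (-(Complex.I * (((2 * N + 3 : ℝ) * lam x : ℝ) : ℂ))) *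
        (-Complex.I * ((R⁻¹ : ℝ) : ℂ))) •
          sg (gradient η (R⁻¹ • x)) (hopf N (R⁻¹ • x)) +
      (Complex.exp (-(Complex.I * (((2 * N + 3 : ℝ) * lam x : ℝ) : ℂ))) *
        ((2 * N + 3 : ℝ) : ℂ)) •
          sg (R⁻¹ • afield (R⁻¹ • x) - vecPot (modeFn pol) c x - gradient lam x)
            ((η (R⁻¹ • x) : ℂ) • hopf N (R⁻¹ • x))‖ ≤
      R⁻¹ * ‖gradient η (R⁻¹ • x)‖ * ‖hopf N (R⁻¹ • x)‖ +
      (2 * N + 3) * ‖R⁻¹ • afield (R⁻¹ • x) - vecPot (modeFn pol) c x - gradient lam x‖ *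
      ‖(η (R⁻¹ • x) : ℂ) • hopf N (R⁻¹ • x)‖ := by
    refine (norm_add_le _ _).trans (le_of_eq ?_)
    rw [norm_smul, norm_smul, e1, e2, norm_sg, norm_sg, mul_assoc, mul_assoc]
  refine (pow_le_pow_left₀ (norm_nonneg _) htri 2).trans ?_
  have h2 : ∀ p q : ℝ, (p + q) ^ 2 ≤ 2 * p ^ 2 + 2 * q ^ 2 := by
    intro p q
    nlinarith [sq_nonneg (p - q)]
  refine (h2 _ _).trans ?_
  linarith

/-- the electron state on the ring of radius `R`, with its classical field -/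
theorem ring_state (α : ℝ) (hα : 0 < α) : ∃ C : ℝ, 0 < C ∧ ∀ (L Λ R : ℝ) (N : ℕ), 0 < R →
    8 * R ≤ L → 1 ≤ Λ * R → 2 ≤ N → ∀ (pol : Mode L Λ → E3), IsPolarisation pol →
    ∃ (χ : E3 → C2) (q0 : Mode L Λ → ℝ), ContDiff ℝ SM χ ∧ HasCompactSupport χ ∧
      (0 < ∫ x, ‖χ x‖ ^ 2) ∧ (∀ x, χ x ≠ 0 → D2 (R⁻¹ • x) ≤ 1 / 16) ∧
      (∫ x, D2 (R⁻¹ • x) * ‖χ x‖ ^ 2 ≤ C * (Real.log N / N) * ∫ x, ‖χ x‖ ^ 2) ∧
      (∫ x, ‖pauli0 α (modeFn pol) q0 χ x‖ ^ 2 ≤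
        C * ((R ^ 2 * (N : ℝ) ^ 8)⁻¹ + (N : ℝ) ^ 2 / (R ^ 2 * (Λ * R) ^ 24)) *
          ∫ x, ‖χ x‖ ^ 2) ∧
      (∑ m, ‖m.k‖ ^ 2 * q0 m ^ 2 ≤ C * (N : ℝ) ^ 2 / R) := by
  obtain ⟨η, Cη, hCη0, hη, h01, h1, h0, hCη, hηs⟩ := exists_cutoff
  obtain ⟨a, ha, has, haf⟩ := rs_cut
  obtain ⟨Cc, hCc0, hcl⟩ := classical a ha has
  obtain ⟨Ch, hCh0, hconc⟩ := hopf_conc η hη h01 h1 h0
  refine ⟨Ch + 2 * Cη ^ 2 * Ch + 32 * Cc ^ 2 + 16 * Cc / α, by positivity, ?_⟩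
  intro L Λ R N hR hRL hΛR hN pol hpol
  obtain ⟨c, lam, hlam, hsum, herr⟩ := hcl L Λ R hR hRL hΛR pol hpol
  obtain ⟨hI0, hI1, hI2⟩ := hconc N hN
  have hN2 : (2 : ℝ) ≤ N := by exact_mod_cast hN
  have hN0 : (0 : ℝ) < N := by linarith
  have hR3 : (0 : ℝ) < R ^ 3 := by positivity
  have hnorm : ∫ x, ‖rsChi η lam R N x‖ ^ 2 = R ^ 3 * ∫ y, ‖(η y : ℂ) • hopf N y‖ ^ 2 := by
    rw [← rs_int_comp (fun y => ‖(η y : ℂ) • hopf N y‖ ^ 2) R hR]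
    refine integral_congr_ae (Filter.Eventually.of_forall fun x => ?_)
    show ‖rsChi η lam R N x‖ ^ 2 = ‖(η (R⁻¹ • x) : ℂ) • hopf N (R⁻¹ • x)‖ ^ 2
    rw [rsChi_norm]
  refine ⟨rsChi η lam R N, fun m => -((2 * N + 3 : ℝ) / Real.sqrt α) * c m,
    rsChi_smooth hη hlam R N, ?_, ?_, ?_, ?_, ?_, ?_⟩
  · have hs1 : HasCompactSupport (fun x : E3 => η (R⁻¹ • x)) :=
      hηs.comp_smul (inv_ne_zero hR.ne')
    refine hs1.mono ?_
    intro x hx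
    rw [Function.mem_support] at hx ⊢
    intro h
    apply hx
    unfold rsChi
    rw [h]
    simp
  · rw [hnorm]
    exact mul_pos hR3 hI0
  · intro x hx
    by_contra hc
    apply hx
    have hz : η (R⁻¹ • x) = 0 := h0 _ (le_of_lt (not_le.1 hc))
    unfold rsChi
    rw [hz]
    simp
  · have e : ∫ x, D2 (R⁻¹ • x) * ‖rsChi η lam R N x‖ ^ 2 =
        R ^ 3 * ∫ y, D2 y * ‖(η y : ℂ) • hopf N y‖ ^ 2 := by
      rw [← rs_int_comp (fun y => D2 y * ‖(η y : ℂ) • hopf N y‖ ^ 2) R hR]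
      refine integral_congr_ae (Filter.Eventually.of_forall fun x => ?_)
      show D2 (R⁻¹ • x) * ‖rsChi η lam R N x‖ ^ 2 =
        D2 (R⁻¹ • x) * ‖(η (R⁻¹ • x) : ℂ) • hopf N (R⁻¹ • x)‖ ^ 2
      rw [rsChi_norm]
    rw [e, hnorm]
    have hlog : 0 ≤ Real.log N / N := by
      have := Real.log_nonneg (by linarith : (1 : ℝ) ≤ N)
      positivity
    have hCge : Ch ≤ Ch + 2 * Cη ^ 2 * Ch + 32 * Cc ^ 2 + 16 * Cc / α := by
      have : 0 ≤ 2 * Cη ^ 2 * Ch + 32 * Cc ^ 2 + 16 * Cc / α := by positivity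
      linarith
    calc R ^ 3 * ∫ y, D2 y * ‖(η y : ℂ) • hopf N y‖ ^ 2
        ≤ R ^ 3 * (Ch * (Real.log N / N) * ∫ y, ‖(η y : ℂ) • hopf N y‖ ^ 2) := by gcongr
      _ ≤ R ^ 3 * ((Ch + 2 * Cη ^ 2 * Ch + 32 * Cc ^ 2 + 16 * Cc / α) * (Real.log N / N) *
          ∫ y, ‖(η y : ℂ) • hopf N y‖ ^ 2) := by gcongr
      _ = _ := by ring
  · have hΛR0 : 0 < Λ * R := by linarith
    have hε : (0 : ℝ) ≤ Cc / R * ((Λ * R) ^ 12)⁻¹ := by positivity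
    have hpt := rs_pointwise α hα pol c hη hlam R hR N Cη hCη h1 h0 a haf _ hε herr
    set ε : ℝ := Cc / R * ((Λ * R) ^ 12)⁻¹ with hεdef
    let F : E3 → ℝ := fun y => 2 * (R⁻¹ * Cη) ^ 2 * rsS.indicator (fun y => ‖hopf N y‖ ^ 2) y +
        2 * ((2 * N + 3) * ε) ^ 2 * ‖(η y : ℂ) • hopf N y‖ ^ 2
    have hFi1 : Integrable (rsS.indicator (fun y => ‖hopf N y‖ ^ 2)) :=
      (rs_int_S N).integrable_indicator rsS_closed.measurableSet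
    have hFi2 := rs_int_Phi hη hηs N
    have hF : Integrable F := (hFi1.const_mul _).add (hFi2.const_mul _)
    have hF' : Integrable (fun x => F (R⁻¹ • x)) :=
      (integrable_comp_smul_iff volume F (inv_ne_zero hR.ne')).2 hF
    have hFint : ∫ y, F y = 2 * (R⁻¹ * Cη) ^ 2 * (∫ y in rsS, ‖hopf N y‖ ^ 2) +
        2 * ((2 * N + 3) * ε) ^ 2 * ∫ y, ‖(η y : ℂ) • hopf N y‖ ^ 2 := by
      show ∫ y, (2 * (R⁻¹ * Cη) ^ 2 * rsS.indicator (fun y => ‖hopf N y‖ ^ 2) y +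
        2 * ((2 * N + 3) * ε) ^ 2 * ‖(η y : ℂ) • hopf N y‖ ^ 2) = _
      rw [integral_add (hFi1.const_mul _) (hFi2.const_mul _), integral_const_mul,
        integral_const_mul, integral_indicator rsS_closed.measurableSet]
    have hle : ∫ x, ‖pauli0 α (modeFn pol) (fun m => -((2 * N + 3 : ℝ) / Real.sqrt α) * c m)
        (rsChi η lam R N) x‖ ^ 2 ≤ ∫ x, F (R⁻¹ • x) :=
      integral_mono_of_nonneg (Filter.Eventually.of_forall fun x => by positivity) hF'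
        (Filter.Eventually.of_forall hpt)
    rw [rs_int_comp F R hR, hFint] at hle
    rw [hnorm]
    refine hle.trans ?_
    have hI2' : ∫ y in rsS, ‖hopf N y‖ ^ 2 ≤
        Ch / (N : ℝ) ^ 8 * ∫ y, ‖(η y : ℂ) • hopf N y‖ ^ 2 := hI2
    generalize (∫ y in rsS, ‖hopf N y‖ ^ 2) = J at hI2'
    generalize (∫ y, ‖(η y : ℂ) • hopf N y‖ ^ 2) = I0 at hI0 hI2'
    have hν : (2 * (N : ℝ) + 3) ^ 2 ≤ 16 * (N : ℝ) ^ 2 := by nlinarith
    have hb1 : 2 * (R⁻¹ * Cη) ^ 2 * J ≤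
        (2 * Cη ^ 2 * Ch) * ((R ^ 2 * (N : ℝ) ^ 8)⁻¹ * I0) := by
      calc 2 * (R⁻¹ * Cη) ^ 2 * J ≤ 2 * (R⁻¹ * Cη) ^ 2 * (Ch / (N : ℝ) ^ 8 * I0) := by gcongr
        _ = _ := by field_simp
    have hb2 : 2 * ((2 * N + 3) * ε) ^ 2 * I0 ≤
        (32 * Cc ^ 2) * ((N : ℝ) ^ 2 / (R ^ 2 * (Λ * R) ^ 24) * I0) := by
      have e3 : ε ^ 2 = Cc ^ 2 / (R ^ 2 * (Λ * R) ^ 24) := by
        rw [hεdef]
        generalize Λ * R = P at hΛR0
        field_simp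
      calc 2 * ((2 * N + 3) * ε) ^ 2 * I0 = 2 * ((2 * (N : ℝ) + 3) ^ 2 * ε ^ 2) * I0 := by ring
        _ ≤ 2 * (16 * (N : ℝ) ^ 2 * ε ^ 2) * I0 := by gcongr
        _ = _ := by rw [e3]; ring
    have hX : 0 ≤ (R ^ 2 * (N : ℝ) ^ 8)⁻¹ * I0 := by positivity
    have hY : 0 ≤ (N : ℝ) ^ 2 / (R ^ 2 * (Λ * R) ^ 24) * I0 := by positivity
    have hrest : (2 * Cη ^ 2 * Ch) * ((R ^ 2 * (N : ℝ) ^ 8)⁻¹ * I0) +
        (32 * Cc ^ 2) * ((N : ℝ) ^ 2 / (R ^ 2 * (Λ * R) ^ 24) * I0) ≤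
        (Ch + 2 * Cη ^ 2 * Ch + 32 * Cc ^ 2 + 16 * Cc / α) *
          ((R ^ 2 * (N : ℝ) ^ 8)⁻¹ + (N : ℝ) ^ 2 / (R ^ 2 * (Λ * R) ^ 24)) * I0 := by
      have hp1 : 0 ≤ Ch := hCh0.le
      have hp2 : 0 ≤ 2 * Cη ^ 2 * Ch := by positivity
      have hp3 : 0 ≤ 32 * Cc ^ 2 := by positivity
      have hp4 : 0 ≤ 16 * Cc / α := by positivity
      generalize (R ^ 2 * (N : ℝ) ^ 8)⁻¹ = X at hX
      generalize (N : ℝ) ^ 2 / (R ^ 2 * (Λ * R) ^ 24) = Y at hY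
      generalize 2 * Cη ^ 2 * Ch = p2 at hp2
      generalize 32 * Cc ^ 2 = p3 at hp3
      generalize 16 * Cc / α = p4 at hp4
      have e4 : (Ch + p2 + p3 + p4) * (X + Y) * I0 = p2 * (X * I0) + p3 * (Y * I0) +
        (Ch * (X * I0) + p3 * (X * I0) + p4 * (X * I0) + Ch * (Y * I0) + p2 * (Y * I0) +
          p4 * (Y * I0)) := by ring
      rw [e4]
      have := mul_nonneg hp1 hX
      have := mul_nonneg hp3 hX
      have := mul_nonneg hp4 hX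
      have := mul_nonneg hp1 hY
      have := mul_nonneg hp2 hY
      have := mul_nonneg hp4 hY
      linarith
    calc R ^ 3 * (2 * (R⁻¹ * Cη) ^ 2 * J + 2 * ((2 * N + 3) * ε) ^ 2 * I0)
        ≤ R ^ 3 * ((Ch + 2 * Cη ^ 2 * Ch + 32 * Cc ^ 2 + 16 * Cc / α) *
          ((R ^ 2 * (N : ℝ) ^ 8)⁻¹ + (N : ℝ) ^ 2 / (R ^ 2 * (Λ * R) ^ 24)) * I0) := by
          refine mul_le_mul_of_nonneg_left ?_ hR3.le
          linarith
      _ = _ := by ring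
  · have e5 : ∑ m : Mode L Λ, ‖m.k‖ ^ 2 * (-((2 * N + 3 : ℝ) / Real.sqrt α) * c m) ^ 2 =
        ((2 * N + 3 : ℝ) ^ 2 / α) * ∑ m : Mode L Λ, ‖m.k‖ ^ 2 * c m ^ 2 := by
      rw [Finset.mul_sum]
      refine Finset.sum_congr rfl fun m _ => ?_
      rw [mul_pow, neg_sq, div_pow, Real.sq_sqrt hα.le]
      ring
    show ∑ m : Mode L Λ, ‖m.k‖ ^ 2 * (-((2 * N + 3 : ℝ) / Real.sqrt α) * c m) ^ 2 ≤ _
    rw [e5]
    have hν : (2 * (N : ℝ) + 3) ^ 2 ≤ 16 * (N : ℝ) ^ 2 := by nlinarith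
    have hsn : 0 ≤ ∑ m : Mode L Λ, ‖m.k‖ ^ 2 * c m ^ 2 :=
      Finset.sum_nonneg fun m _ => by positivity
    calc ((2 * N + 3 : ℝ) ^ 2 / α) * ∑ m : Mode L Λ, ‖m.k‖ ^ 2 * c m ^ 2
        ≤ (16 * (N : ℝ) ^ 2 / α) * (Cc / R) := by gcongr
      _ = (16 * Cc / α) * (N : ℝ) ^ 2 / R := by field_simp
      _ ≤ (Ch + 2 * Cη ^ 2 * Ch + 32 * Cc ^ 2 + 16 * Cc / α) * (N : ℝ) ^ 2 / R := by
        gcongr
        have : 0 ≤ Ch + 2 * Cη ^ 2 * Ch + 32 * Cc ^ 2 := by positivity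
        linarith

end Pool.Agent.Helper985.PS
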