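import Pool.Agent.Helper985.PS.Defs

set_option autoImplicit false

open MeasureTheory
open scoped Topology

namespace Pool.Agent.Helper985.PS





theorem trial_aux_phase {ι : Type} [Fintype ι] (θ : ι → E3 → ℝ) (hθ : ∀ m, ContDiff ℝ SM (θ m))
    (q0 : ι → ℝ) : ContDiff ℝ SM (fun p : E3 × (ι → ℝ) => ∑ m, (p.2 m - q0 m) * θ m p.1) := by
  apply ContDiff.sum
  intro m _
  apply ContDiff.mul
  · apply ContDiff.sub _ contDiff_const
    exact (ContinuousLinearMap.proj (R := ℝ) (φ := fun _ : ι => ℝ) m).contDiff.comp contDiff_snd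
  · exact (hθ m).comp contDiff_fst

theorem trial_smooth {ι : Type} [Fintype ι] (χ : E3 → C2) (hχ : ContDiff ℝ SM χ)
    (hχc : HasCompactSupport χ) (θ : ι → E3 → ℝ) (hθ : ∀ m, ContDiff ℝ SM (θ m)) (q0 : ι → ℝ)
    (F : (ι → ℝ) → ℝ) (hF : ContDiff ℝ SM F) (hFc : HasCompactSupport F) :
    ContDiff ℝ SM (trial χ θ q0 F) ∧ HasCompactSupport (trial χ θ q0 F) := by
  constructor
  · have h1 : ContDiff ℝ SM (fun p : E3 × (ι → ℝ) => ((F (p.2 - q0) : ℝ) : ℂ)) :=
      Complex.ofRealCLM.contDiff.comp (hF.comp (contDiff_snd.sub contDiff_const))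
    have h2 : ContDiff ℝ SM (fun p : E3 × (ι → ℝ) =>
        Complex.exp (-Complex.I * ((∑ m, (p.2 m - q0 m) * θ m p.1 : ℝ) : ℂ))) := by
      apply ContDiff.cexp
      exact contDiff_const.mul (Complex.ofRealCLM.contDiff.comp (trial_aux_phase θ hθ q0))
    have h3 : ContDiff ℝ SM (fun p : E3 × (ι → ℝ) => χ p.1) := hχ.comp contDiff_fst
    exact (h1.mul h2).smul h3
  · refine HasCompactSupport.intro
      (K := tsupport χ ×ˢ ((fun q => q + q0) '' tsupport F)) ?_ ?_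
    · exact hχc.isCompact.prod (hFc.isCompact.image (continuous_id.add continuous_const))
    · intro p hp
      rw [Set.mem_prod, not_and_or] at hp
      unfold trial
      rcases hp with hp | hp
      · rw [image_eq_zero_of_notMem_tsupport hp, smul_zero]
      · have h1 : F (p.2 - q0) = 0 := by
          apply image_eq_zero_of_notMem_tsupport
          intro h
          exact hp ⟨p.2 - q0, h, sub_add_cancel _ _⟩
        rw [h1]
        simp

theorem trial_norm {ι : Type} [Fintype ι] (χ : E3 → C2) (hχ : ContDiff ℝ SM χ)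
    (hχc : HasCompactSupport χ) (θ : ι → E3 → ℝ) (hθ : ∀ m, ContDiff ℝ SM (θ m)) (q0 : ι → ℝ)
    (F : (ι → ℝ) → ℝ) (hF : ContDiff ℝ SM F) (hFc : HasCompactSupport F)
    (hF1 : ∫ q, F q ^ 2 = 1) :
    ∫ p, ‖trial χ θ q0 F p‖ ^ 2 = ∫ x, ‖χ x‖ ^ 2 := by
  have h1 : ∀ p : E3 × (ι → ℝ), ‖trial χ θ q0 F p‖ ^ 2 = ‖χ p.1‖ ^ 2 * F (p.2 - q0) ^ 2 := by
    intro p
    unfold trial
    rw [norm_smul, norm_mul, Complex.norm_exp]
    have h2 : (-Complex.I * ((∑ m, (p.2 m - q0 m) * θ m p.1 : ℝ) : ℂ)).re = 0 := by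
      rw [neg_mul, Complex.neg_re, Complex.I_mul_re, Complex.ofReal_im]
      simp
    rw [h2, Real.exp_zero, mul_one, mul_pow, Complex.norm_real, Real.norm_eq_abs, sq_abs]
    ring
  simp only [h1]
  rw [MeasureTheory.Measure.volume_eq_prod]
  rw [MeasureTheory.integral_prod_mul (fun x : E3 => ‖χ x‖ ^ 2) (fun q : ι → ℝ => F (q - q0) ^ 2)]
  rw [MeasureTheory.integral_sub_right_eq_self (fun q : ι → ℝ => F q ^ 2) q0, hF1, mul_one]

end Pool.Agent.Helper985.PS
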