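import Pool.Agent.Helper985.PS.M_trial_basic
import Pool.Agent.Helper985.PS.Defs

set_option autoImplicit false

open MeasureTheory
open scoped Topology

namespace Pool.Agent.Helper985.PS






theorem tf_ne : SM ≠ 0 := by
  unfold SM
  simp

theorem tf_deriv {ι : Type} [Fintype ι] [DecidableEq ι] (χ : E3 → C2)
    (hχ : ContDiff ℝ SM χ)
    (hχc : HasCompactSupport χ) (θ : ι → E3 → ℝ) (hθ : ∀ m, ContDiff ℝ SM (θ m)) (q0 : ι → ℝ)
    (F : (ι → ℝ) → ℝ) (hF : ContDiff ℝ SM F) (hFc : HasCompactSupport F)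
    (p : E3 × (ι → ℝ)) (m : ι) :
    ‖fderiv ℝ (trial χ θ q0 F) p (0, Pi.single m 1)‖ ^ 2 =
      ((fderiv ℝ F (p.2 - q0) (Pi.single m 1)) ^ 2 + θ m p.1 ^ 2 * F (p.2 - q0) ^ 2) *
        ‖χ p.1‖ ^ 2 := by
  have hd : DifferentiableAt ℝ (trial χ θ q0 F) p :=
    (trial_smooth χ hχ hχc θ hθ q0 F hF hFc).1.differentiable tf_ne p
  have h1 := hd.hasFDerivAt.hasLineDerivAt (0, Pi.single m 1)
  have hFd : DifferentiableAt ℝ F (p.2 - q0) := hF.differentiable tf_ne _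
  have hF1 := hFd.hasFDerivAt.hasLineDerivAt (Pi.single m 1)
  have hF2 : HasDerivAt (fun t : ℝ => ((F (p.2 - q0 + t • Pi.single m 1) : ℝ) : ℂ))
      ((fderiv ℝ F (p.2 - q0) (Pi.single m 1) : ℝ) : ℂ) 0 := HasDerivAt.ofReal_comp hF1
  set S0 : ℝ := ∑ n, (p.2 n - q0 n) * θ n p.1 with hS0
  have hE : HasDerivAt (fun t : ℝ => Complex.exp (-Complex.I * ((S0 + t * θ m p.1 : ℝ) : ℂ)))
      (Complex.exp (-Complex.I * ((S0 + 0 * θ m p.1 : ℝ) : ℂ)) *
        (-Complex.I * ((1 * θ m p.1 : ℝ) : ℂ))) 0 :=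
    ((((hasDerivAt_id (0 : ℝ)).mul_const (θ m p.1)).const_add S0).ofReal_comp.const_mul
      (-Complex.I)).cexp
  have h2 := (hF2.mul hE).smul_const (χ p.1)
  have hfun : (fun t : ℝ => trial χ θ q0 F (p + t • ((0 : E3), (Pi.single m 1 : ι → ℝ)))) =
      fun t : ℝ => (((F (p.2 - q0 + t • Pi.single m 1) : ℝ) : ℂ) *
        Complex.exp (-Complex.I * ((S0 + t * θ m p.1 : ℝ) : ℂ))) • χ p.1 := by
    funext t
    unfold trial
    have e1 : (p + t • ((0 : E3), (Pi.single m 1 : ι → ℝ))).1 = p.1 := by simp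
    have e2 : (p + t • ((0 : E3), (Pi.single m 1 : ι → ℝ))).2 = p.2 + t • Pi.single m 1 := by simp
    rw [e1, e2]
    have e3 : p.2 + t • (Pi.single m 1 : ι → ℝ) - q0 = p.2 - q0 + t • Pi.single m 1 := by abel
    rw [e3]
    have e4 : ∑ n, ((p.2 + t • (Pi.single m 1 : ι → ℝ)) n - q0 n) * θ n p.1 =
        S0 + t * θ m p.1 := by
      have : ∀ n, ((p.2 + t • (Pi.single m 1 : ι → ℝ)) n - q0 n) * θ n p.1 =
          (p.2 n - q0 n) * θ n p.1 + t * (if n = m then θ n p.1 else 0) := by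
        intro n
        by_cases h : n = m
        · subst h; simp; ring
        · simp [h]
      rw [Finset.sum_congr rfl fun n _ => this n, Finset.sum_add_distrib, ← Finset.mul_sum,
        Finset.sum_ite_eq' Finset.univ m, if_pos (Finset.mem_univ m)]
    rw [e4]
  have h1' : HasDerivAt (fun t : ℝ => trial χ θ q0 F (p + t • ((0 : E3), (Pi.single m 1 : ι → ℝ))))
      (fderiv ℝ (trial χ θ q0 F) p (0, Pi.single m 1)) 0 := h1
  rw [hfun] at h1'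
  have h3 := h1'.unique h2
  rw [h3, norm_smul, mul_pow]
  congr 1
  have e5 : p.2 - q0 + (0 : ℝ) • (Pi.single m 1 : ι → ℝ) = p.2 - q0 := by simp
  rw [e5]
  set a : ℝ := fderiv ℝ F (p.2 - q0) (Pi.single m 1)
  set b : ℝ := F (p.2 - q0)
  set c : ℝ := θ m p.1
  set T : ℝ := S0 + 0 * c
  have e6 : (a : ℂ) * Complex.exp (-Complex.I * (T : ℂ)) + (b : ℂ) *
      (Complex.exp (-Complex.I * (T : ℂ)) * (-Complex.I * ((1 * c : ℝ) : ℂ))) =
      ((a : ℂ) + ((-(b * c) : ℝ) : ℂ) * Complex.I) * Complex.exp (((-T : ℝ) : ℂ) * Complex.I) := by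
    have : -Complex.I * (T : ℂ) = ((-T : ℝ) : ℂ) * Complex.I := by push_cast; ring
    rw [this]
    push_cast
    ring
  rw [e6, norm_mul, Complex.norm_exp_ofReal_mul_I, mul_one, ← Complex.normSq_eq_norm_sq,
    Complex.normSq_add_mul_I]
  ring

theorem tf_norm {ι : Type} [Fintype ι] (χ : E3 → C2)
    (θ : ι → E3 → ℝ) (q0 : ι → ℝ) (F : (ι → ℝ) → ℝ) (p : E3 × (ι → ℝ)) :
    ‖trial χ θ q0 F p‖ ^ 2 = F (p.2 - q0) ^ 2 * ‖χ p.1‖ ^ 2 := by
  unfold trial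
  have : ∀ T : ℝ, -Complex.I * (T : ℂ) = ((-T : ℝ) : ℂ) * Complex.I := by
    intro T; push_cast; ring
  rw [this, norm_smul, norm_mul, Complex.norm_exp_ofReal_mul_I, mul_one, mul_pow,
    Complex.norm_real, Real.norm_eq_abs, sq_abs]

theorem tf_hcs {X : Type} [TopologicalSpace X] (f : X → ℝ) (hf : HasCompactSupport f) :
    HasCompactSupport fun x => f x ^ 2 := by
  have h := hf.comp_left (g := fun s : ℝ => s ^ 2) (by simp)
  exact h

theorem tf_hcsn (χ : E3 → C2) (hf : HasCompactSupport χ) :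
    HasCompactSupport fun x => ‖χ x‖ ^ 2 := tf_hcs _ hf.norm

theorem tf_iA (χ : E3 → C2) (cχ : Continuous χ) (hχc : HasCompactSupport χ) :
    Integrable fun x => ‖χ x‖ ^ 2 := by
  have c : Continuous fun x => ‖χ x‖ ^ 2 := by fun_prop
  exact c.integrable_of_hasCompactSupport (tf_hcsn χ hχc)

theorem tf_iC {ι : Type} [Fintype ι] (χ : E3 → C2) (cχ : Continuous χ)
    (hχc : HasCompactSupport χ) (θ : ι → E3 → ℝ) (cθ : ∀ m, Continuous (θ m)) :
    Integrable fun x => (∑ m, θ m x ^ 2) * ‖χ x‖ ^ 2 := by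
  have c1 : Continuous fun x => (∑ m, θ m x ^ 2) :=
    continuous_finsetSum _ fun m _ => (cθ m).pow 2
  have c2 : Continuous fun x => ‖χ x‖ ^ 2 := by fun_prop
  have c : Continuous fun x => (∑ m, θ m x ^ 2) * ‖χ x‖ ^ 2 := c1.mul c2
  exact c.integrable_of_hasCompactSupport (tf_hcsn χ hχc).mul_left

theorem tf_odd {ι : Type} [Fintype ι] (F : (ι → ℝ) → ℝ) (hFe : ∀ q, F (-q) = F q) (m : ι) :
    ∫ q : ι → ℝ, q m * F q ^ 2 = 0 := by
  have h1 : ∫ q : ι → ℝ, (-q) m * F (-q) ^ 2 = ∫ q : ι → ℝ, q m * F q ^ 2 :=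
    integral_neg_eq_self (fun q : ι → ℝ => q m * F q ^ 2) volume
  have h2 : ∫ q : ι → ℝ, (-q) m * F (-q) ^ 2 = - ∫ q : ι → ℝ, q m * F q ^ 2 := by
    rw [← integral_neg]
    congr 1
    funext q
    rw [hFe, Pi.neg_apply]; ring
  linarith

/-- the function of the amplitudes -/
noncomputable def tfB {ι : Type} [Fintype ι] [DecidableEq ι] (ω : ι → ℝ) (q0 : ι → ℝ)
    (F : (ι → ℝ) → ℝ) (q : ι → ℝ) : ℝ :=
  ∑ m, ((fderiv ℝ F q (Pi.single m 1)) ^ 2 + ω m ^ 2 * (q m + q0 m) ^ 2 * F q ^ 2)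

theorem tf_B {ι : Type} [Fintype ι] [DecidableEq ι] (ω : ι → ℝ) (q0 : ι → ℝ)
    (F : (ι → ℝ) → ℝ) (hF : ContDiff ℝ SM F) (hFc : HasCompactSupport F)
    (hFe : ∀ q, F (-q) = F q) (hF1 : ∫ q, F q ^ 2 = 1) :
    Integrable (fun q => F q ^ 2) ∧ Integrable (tfB ω q0 F) ∧ ∫ q, tfB ω q0 F q =
      (∫ q, ∑ m, ((fderiv ℝ F q (Pi.single m 1)) ^ 2 +
      ω m ^ 2 * q m ^ 2 * F q ^ 2)) + ∑ m, ω m ^ 2 * q0 m ^ 2 := by
  have cF : Continuous F := hF.continuous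
  have cdF : ∀ m : ι, Continuous fun q => fderiv ℝ F q (Pi.single m 1) := fun m =>
    (hF.continuous_fderiv tf_ne).clm_apply continuous_const
  have sdF : ∀ m : ι, HasCompactSupport fun q => fderiv ℝ F q (Pi.single m 1) := by
    intro m
    have h := (hFc.fderiv (𝕜 := ℝ)).comp_left
      (g := fun L : (ι → ℝ) →L[ℝ] ℝ => L (Pi.single m 1)) (by simp)
    exact h
  have sF2 : HasCompactSupport fun q => F q ^ 2 := tf_hcs F hFc
  have cF2 : Continuous fun q => F q ^ 2 := cF.pow 2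
  have iF2 : Integrable fun q => F q ^ 2 := cF2.integrable_of_hasCompactSupport sF2
  have idF : ∀ m : ι, Integrable fun q => (fderiv ℝ F q (Pi.single m 1)) ^ 2 := by
    intro m
    have c : Continuous fun q => (fderiv ℝ F q (Pi.single m 1)) ^ 2 := (cdF m).pow 2
    exact c.integrable_of_hasCompactSupport (tf_hcs _ (sdF m))
  have iq2 : ∀ m : ι, Integrable fun q : ι → ℝ => q m ^ 2 * F q ^ 2 := by
    intro m
    have c1 : Continuous fun q : ι → ℝ => q m ^ 2 := (continuous_apply m).pow 2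
    have c : Continuous fun q : ι → ℝ => q m ^ 2 * F q ^ 2 := c1.mul cF2
    exact c.integrable_of_hasCompactSupport sF2.mul_left
  have iq1 : ∀ m : ι, Integrable fun q : ι → ℝ => q m * F q ^ 2 := by
    intro m
    have c1 : Continuous fun q : ι → ℝ => q m := continuous_apply m
    have c : Continuous fun q : ι → ℝ => q m * F q ^ 2 := c1.mul cF2
    exact c.integrable_of_hasCompactSupport sF2.mul_left
  have i1 : ∀ m, Integrable fun q : ι → ℝ => (fderiv ℝ F q (Pi.single m 1)) ^ 2 +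
      ω m ^ 2 * (q m ^ 2 * F q ^ 2) := fun m => (idF m).add ((iq2 m).const_mul _)
  have i2 : ∀ m, Integrable fun q : ι → ℝ => (2 * ω m ^ 2 * q0 m) * (q m * F q ^ 2) +
      (ω m ^ 2 * q0 m ^ 2) * F q ^ 2 := fun m => ((iq1 m).const_mul _).add (iF2.const_mul _)
  have j1 : Integrable fun q : ι → ℝ => ∑ m, ((fderiv ℝ F q (Pi.single m 1)) ^ 2 +
      ω m ^ 2 * (q m ^ 2 * F q ^ 2)) := integrable_finsetSum _ fun m _ => i1 m
  have j2 : Integrable fun q : ι → ℝ => ∑ m, ((2 * ω m ^ 2 * q0 m) * (q m * F q ^ 2) +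
      (ω m ^ 2 * q0 m ^ 2) * F q ^ 2) := integrable_finsetSum _ fun m _ => i2 m
  have e1 : tfB ω q0 F = fun q => (∑ m, ((fderiv ℝ F q (Pi.single m 1)) ^ 2 +
      ω m ^ 2 * (q m ^ 2 * F q ^ 2))) + (∑ m, ((2 * ω m ^ 2 * q0 m) * (q m * F q ^ 2) +
        (ω m ^ 2 * q0 m ^ 2) * F q ^ 2)) := by
    funext q
    unfold tfB
    rw [← Finset.sum_add_distrib]
    exact Finset.sum_congr rfl fun m _ => by ring
  refine ⟨iF2, ?_, ?_⟩
  · rw [e1]
    exact j1.add j2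
  · rw [e1, integral_add j1 j2]
    congr 1
    · congr 1
      funext q
      exact Finset.sum_congr rfl fun m _ => by ring
    · rw [integral_finsetSum _ fun m _ => i2 m]
      refine Finset.sum_congr rfl fun m _ => ?_
      rw [integral_add ((iq1 m).const_mul _) (iF2.const_mul _), integral_const_mul,
        integral_const_mul, tf_odd F hFe, hF1]
      ring

theorem tf_pt {ι : Type} [Fintype ι] [DecidableEq ι] (ω : ι → ℝ) (χ : E3 → C2)
    (hχ : ContDiff ℝ SM χ)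
    (hχc : HasCompactSupport χ) (θ : ι → E3 → ℝ) (hθ : ∀ m, ContDiff ℝ SM (θ m)) (q0 : ι → ℝ)
    (F : (ι → ℝ) → ℝ) (hF : ContDiff ℝ SM F) (hFc : HasCompactSupport F)
    (p : E3 × (ι → ℝ)) : ∑ m, (‖fderiv ℝ (trial χ θ q0 F) p (0, Pi.single m 1)‖ ^ 2 +
      ω m ^ 2 * p.2 m ^ 2 * ‖trial χ θ q0 F p‖ ^ 2) =
      ((∑ m, θ m p.1 ^ 2) * ‖χ p.1‖ ^ 2) * (F (p.2 - q0) ^ 2) +
        ‖χ p.1‖ ^ 2 * tfB ω q0 F (p.2 - q0) := by
  unfold tfB
  rw [Finset.sum_mul, Finset.sum_mul, Finset.mul_sum, ← Finset.sum_add_distrib]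
  refine Finset.sum_congr rfl fun m _ => ?_
  rw [tf_deriv χ hχ hχc θ hθ q0 F hF hFc, tf_norm, Pi.sub_apply]
  ring

theorem tf_prod {ι : Type} [Fintype ι] (A C : E3 → ℝ) (B D : (ι → ℝ) → ℝ) (q0 : ι → ℝ)
    (iA : Integrable A) (iC : Integrable C) (iB : Integrable B) (iD : Integrable D) :
    ∫ p : E3 × (ι → ℝ), (C p.1 * D (p.2 - q0) + A p.1 * B (p.2 - q0)) =
      (∫ x, C x) * (∫ q, D q) + (∫ x, A x) * ∫ q, B q := by
  have iDs : Integrable fun q : ι → ℝ => D (q - q0) := iD.comp_sub_right q0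
  have iBs : Integrable fun q : ι → ℝ => B (q - q0) := iB.comp_sub_right q0
  rw [Measure.volume_eq_prod]
  have h1 : Integrable (fun p : E3 × (ι → ℝ) => C p.1 * D (p.2 - q0))
      ((volume : Measure E3).prod volume) := iC.mul_prod iDs
  have h2 : Integrable (fun p : E3 × (ι → ℝ) => A p.1 * B (p.2 - q0))
      ((volume : Measure E3).prod volume) := iA.mul_prod iBs
  rw [integral_add h1 h2]
  have h3 : ∫ p : E3 × (ι → ℝ), C p.1 * D (p.2 - q0) ∂((volume : Measure E3).prod volume) =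
      (∫ x, C x) * ∫ q, D (q - q0) :=
    integral_prod_mul (μ := (volume : Measure E3)) (ν := (volume : Measure (ι → ℝ))) C
      (fun q => D (q - q0))
  have h4 : ∫ p : E3 × (ι → ℝ), A p.1 * B (p.2 - q0) ∂((volume : Measure E3).prod volume) =
      (∫ x, A x) * ∫ q, B (q - q0) :=
    integral_prod_mul (μ := (volume : Measure E3)) (ν := (volume : Measure (ι → ℝ))) A
      (fun q => B (q - q0))
  rw [h3, h4, integral_sub_right_eq_self D q0, integral_sub_right_eq_self B q0]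

theorem trial_field {ι : Type} [Fintype ι] [DecidableEq ι] (ω : ι → ℝ) (χ : E3 → C2)
    (hχ : ContDiff ℝ SM χ)
    (hχc : HasCompactSupport χ) (θ : ι → E3 → ℝ) (hθ : ∀ m, ContDiff ℝ SM (θ m)) (q0 : ι → ℝ)
    (F : (ι → ℝ) → ℝ) (hF : ContDiff ℝ SM F) (hFc : HasCompactSupport F)
    (hFe : ∀ q, F (-q) = F q) (hF1 : ∫ q, F q ^ 2 = 1) :
    ∫ p, ∑ m, (‖fderiv ℝ (trial χ θ q0 F) p (0, Pi.single m 1)‖ ^ 2 +
      ω m ^ 2 * p.2 m ^ 2 * ‖trial χ θ q0 F p‖ ^ 2) =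
      (∫ x, (∑ m, θ m x ^ 2) * ‖χ x‖ ^ 2) +
      ((∫ q, ∑ m, ((fderiv ℝ F q (Pi.single m 1)) ^ 2 + ω m ^ 2 * q m ^ 2 * F q ^ 2)) +
        ∑ m, ω m ^ 2 * q0 m ^ 2) * ∫ x, ‖χ x‖ ^ 2 := by
  obtain ⟨iF2, iB, hB⟩ := tf_B ω q0 F hF hFc hFe hF1
  have hpt : (fun p : E3 × (ι → ℝ) => ∑ m, (‖fderiv ℝ (trial χ θ q0 F) p (0, Pi.single m 1)‖ ^ 2 +
      ω m ^ 2 * p.2 m ^ 2 * ‖trial χ θ q0 F p‖ ^ 2)) = fun p : E3 × (ι → ℝ) =>
      ((fun x => (∑ m, θ m x ^ 2) * ‖χ x‖ ^ 2) p.1 * (fun q => F q ^ 2) (p.2 - q0) +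
        (fun x => ‖χ x‖ ^ 2) p.1 * tfB ω q0 F (p.2 - q0)) := by
    funext p
    exact tf_pt ω χ hχ hχc θ hθ q0 F hF hFc p
  rw [hpt, tf_prod (fun x => ‖χ x‖ ^ 2) (fun x => (∑ m, θ m x ^ 2) * ‖χ x‖ ^ 2)
    (tfB ω q0 F) (fun q => F q ^ 2) q0 (tf_iA χ hχ.continuous hχc)
    (tf_iC χ hχ.continuous hχc θ fun m => (hθ m).continuous) iB iF2, hB, hF1]
  ring

end Pool.Agent.Helper985.PS
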