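import Pool.Agent.Helper985.PS.M_pauli
import Pool.Agent.Helper985.PS.M_trial_basic
import Pool.Agent.Helper985.PS.Defs

set_option autoImplicit false

open MeasureTheory
open scoped Topology

namespace Pool.Agent.Helper985.PS












theorem tk985_sg_cont {X : Type*} [TopologicalSpace X] {f : X → E3} {g : X → C2}
    (hf : Continuous f) (hg : Continuous g) : Continuous fun p => sg (f p) (g p) := by
  unfold sg sigma
  refine (PiLp.continuous_toLp 2 _).comp ?_
  refine continuous_pi fun i => ?_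
  have hf0 : Continuous fun p => (f p).ofLp 0 := by fun_prop
  have hf1 : Continuous fun p => (f p).ofLp 1 := by fun_prop
  have hf2 : Continuous fun p => (f p).ofLp 2 := by fun_prop
  have hg0 : Continuous fun p => (g p).ofLp 0 := by fun_prop
  have hg1 : Continuous fun p => (g p).ofLp 1 := by fun_prop
  fin_cases i <;> simp [Matrix.mulVec, dotProduct, Fin.sum_univ_two] <;> fun_prop

theorem tk985_smul_cont {X : Type*} [TopologicalSpace X] (c : ℂ) (u : X → C2)
    (hu : Continuous u) : Continuous fun p => c • u p := by fun_prop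

theorem tk985_sg_zero (v : E3) : sg v 0 = 0 := by
  have := sg_smul_right v 0 0
  simpa using this

theorem tk985_zero_sg (s : C2) : sg 0 s = 0 := by
  have := sg_smul 0 0 s
  simpa using this

theorem tk985_sg_sum {ι : Type} [Fintype ι] (v : ι → E3) (s : C2) :
    sg (∑ m, v m) s = ∑ m, sg (v m) s := by
  classical
  have : ∀ t : Finset ι, sg (∑ m ∈ t, v m) s = ∑ m ∈ t, sg (v m) s := by
    intro t
    induction t using Finset.induction_on with
    | empty => simp [tk985_zero_sg]
    | insert a t ha ih => rw [Finset.sum_insert ha, Finset.sum_insert ha, sg_add, ih]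
  exact this _

theorem tk985_fderiv {ι : Type} [Fintype ι] (χ : E3 → C2) (hχ : ContDiff ℝ SM χ)
    (hχc : HasCompactSupport χ) (θ : ι → E3 → ℝ) (hθ : ∀ m, ContDiff ℝ SM (θ m)) (q0 : ι → ℝ)
    (F : (ι → ℝ) → ℝ) (hF : ContDiff ℝ SM F) (hFc : HasCompactSupport F) (x v : E3) (q : ι → ℝ) :
    fderiv ℝ (trial χ θ q0 F) (x, q) (v, 0) =
      (((F (q - q0) : ℝ) : ℂ) *
        Complex.exp (-Complex.I * ((∑ m, (q m - q0 m) * θ m x : ℝ) : ℂ))) •
        (fderiv ℝ χ x v +
          (-Complex.I * ((∑ m, (q m - q0 m) * fderiv ℝ (θ m) x v : ℝ) : ℂ)) • χ x) := by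
  have hsm := (trial_smooth χ hχ hχc θ hθ q0 F hF hFc).1
  have hd : HasFDerivAt (trial χ θ q0 F) (fderiv ℝ (trial χ θ q0 F) (x, q)) (x, q) :=
    ((hsm.differentiable (by simp)) (x, q)).hasFDerivAt
  have h1 : HasFDerivAt (fun y : E3 => trial χ θ q0 F (y, q))
      ((fderiv ℝ (trial χ θ q0 F) (x, q)).comp (ContinuousLinearMap.inl ℝ E3 (ι → ℝ))) x :=
    HasFDerivAt.comp (𝕜 := ℝ) (g := trial χ θ q0 F) (f := fun e : E3 => (e, q)) x hd
      (hasFDerivAt_prodMk_left x q)
  have hχd : HasFDerivAt χ (fderiv ℝ χ x) x := ((hχ.differentiable (by simp)) x).hasFDerivAt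
  have hθd : ∀ m, HasFDerivAt (θ m) (fderiv ℝ (θ m) x) x :=
    fun m => (((hθ m).differentiable (by simp)) x).hasFDerivAt
  have hφ : HasFDerivAt (fun y : E3 => ∑ m, (q m - q0 m) * θ m y)
      (∑ m, (q m - q0 m) • fderiv ℝ (θ m) x) x :=
    HasFDerivAt.fun_sum fun m _ => (hθd m).const_mul _
  have hφc : HasFDerivAt (fun y : E3 => ((∑ m, (q m - q0 m) * θ m y : ℝ) : ℂ))
      (Complex.ofRealCLM.comp (∑ m, (q m - q0 m) • fderiv ℝ (θ m) x)) x :=
    Complex.ofRealCLM.hasFDerivAt.comp x hφ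
  have hE := ((hφc.const_mul (-Complex.I)).cexp.const_mul (((F (q - q0) : ℝ) : ℂ))).smul hχd
  have h2 := h1.unique hE
  have h3 := congrArg (fun L : E3 →L[ℝ] C2 => L v) h2
  simp only [ContinuousLinearMap.comp_apply, ContinuousLinearMap.inl_apply] at h3
  rw [h3]
  simp only [ContinuousLinearMap.add_apply, ContinuousLinearMap.smul_apply,
    ContinuousLinearMap.smulRight_apply, ContinuousLinearMap.comp_apply,
    ContinuousLinearMap.sum_apply, Complex.ofRealCLM_apply, smul_eq_mul, smul_add, smul_smul]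
  congr 2
  ring

theorem tk985_grad (f : E3 → ℝ) (x : E3) (j : Fin 3) :
    (gradient f x) j = fderiv ℝ f x (ee j) := by
  unfold gradient ee
  rw [← InnerProductSpace.toDual_symm_apply (𝕜 := ℝ), EuclideanSpace.inner_single_right]
  simp

theorem tk985_point {ι : Type} [Fintype ι] (α : ℝ) (e : ι → E3 → E3)
    (χ : E3 → C2) (hχ : ContDiff ℝ SM χ)
    (hχc : HasCompactSupport χ) (θ : ι → E3 → ℝ) (hθ : ∀ m, ContDiff ℝ SM (θ m)) (q0 : ι → ℝ)
    (F : (ι → ℝ) → ℝ) (hF : ContDiff ℝ SM F) (hFc : HasCompactSupport F) (x : E3) (q : ι → ℝ) :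
    pauli α e (trial χ θ q0 F) (x, q) =
      (((F (q - q0) : ℝ) : ℂ) *
        Complex.exp (-Complex.I * ((∑ m, (q m - q0 m) * θ m x : ℝ) : ℂ))) •
        (pauli0 α e q0 χ x +
          sg (∑ m, (q - q0) m • (Real.sqrt α • e m x - gradient (θ m) x)) (χ x)) := by
  set E : ℂ := (((F (q - q0) : ℝ) : ℂ) *
        Complex.exp (-Complex.I * ((∑ m, (q m - q0 m) * θ m x : ℝ) : ℂ))) with hE
  have htr : trial χ θ q0 F (x, q) = E • χ x := rfl
  have hS : ∑ j : Fin 3, (((∑ m, (q m - q0 m) * fderiv ℝ (θ m) x (ee j) : ℝ) : ℂ)) •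
      sg (ee j) (χ x) = sg (∑ m, (q m - q0 m) • gradient (θ m) x) (χ x) := by
    rw [← sum_sg]
    refine Finset.sum_congr rfl fun j _ => ?_
    congr 2
    simp [tk985_grad]
  have hG : (∑ m, (q - q0) m • (Real.sqrt α • e m x - gradient (θ m) x)) =
      Real.sqrt α • (∑ m, (q m - q0 m) • e m x) + (-1 : ℝ) • ∑ m, (q m - q0 m) • gradient (θ m) x := by
    rw [Finset.smul_sum, Finset.smul_sum, ← Finset.sum_add_distrib]
    refine Finset.sum_congr rfl fun m _ => ?_
    simp only [Pi.sub_apply]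
    module
  have hV : vecPot e q x = vecPot e q0 x + ∑ m, (q m - q0 m) • e m x := by
    unfold vecPot
    rw [← Finset.sum_add_distrib]
    refine Finset.sum_congr rfl fun m _ => ?_
    module
  unfold pauli pauli0
  simp only [tk985_fderiv χ hχ hχc θ hθ q0 F hF hFc, htr]
  rw [← hE, hG, sg_add, sg_smul, sg_smul, hV, ← hS]
  simp only [sg_smul_right, sg_add_right, sg_add, Fin.sum_univ_three]
  simp only [smul_add, smul_smul]
  have hI : ∀ z : ℂ, (-Complex.I) * (E * (-Complex.I * z)) = -(E * z) := by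
    intro z
    have : Complex.I * Complex.I = -1 := Complex.I_mul_I
    linear_combination (E * z) * this
  simp only [hI]
  push_cast
  module

theorem trial_kin {ι : Type} [Fintype ι] (α : ℝ) (hα : 0 ≤ α) (e : ι → E3 → E3)
    (he : ∀ m, ContDiff ℝ SM (e m)) (χ : E3 → C2) (hχ : ContDiff ℝ SM χ)
    (hχc : HasCompactSupport χ) (θ : ι → E3 → ℝ) (hθ : ∀ m, ContDiff ℝ SM (θ m)) (q0 : ι → ℝ)
    (F : (ι → ℝ) → ℝ) (hF : ContDiff ℝ SM F) (hFc : HasCompactSupport F)
    (hFe : ∀ q, F (-q) = F q) (hF1 : ∫ q, F q ^ 2 = 1) :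
    ∫ p, ‖pauli α e (trial χ θ q0 F) p‖ ^ 2 =
      (∫ x, ‖pauli0 α e q0 χ x‖ ^ 2) +
      ∫ x, (∫ q : ι → ℝ, ‖∑ m, q m • (Real.sqrt α • e m x - gradient (θ m) x)‖ ^ 2 * F q ^ 2) *
        ‖χ x‖ ^ 2 := by
  classical
  have hΨ := trial_smooth χ hχ hχc θ hθ q0 F hF hFc
  have hec : ∀ m, Continuous (e m) := fun m => (he m).continuous
  have hΨc : Continuous (trial χ θ q0 F) := hΨ.1.continuous
  have hΨd : Continuous (fderiv ℝ (trial χ θ q0 F)) := hΨ.1.continuous_fderiv (by simp)
  have hpc : Continuous (pauli α e (trial χ θ q0 F)) := by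
    unfold pauli
    refine Continuous.add ?_ ?_
    · refine continuous_finsetSum _ fun j _ => ?_
      exact tk985_smul_cont _ _
        (tk985_sg_cont continuous_const (hΨd.clm_apply continuous_const))
    · refine tk985_smul_cont _ _ (tk985_sg_cont ?_ hΨc)
      unfold vecPot
      refine continuous_finsetSum _ fun m _ => ?_
      have := hec m
      fun_prop
  have hps : HasCompactSupport (fun p => ‖pauli α e (trial χ θ q0 F) p‖ ^ 2) := by
    refine HasCompactSupport.intro hΨ.2 fun p hp => ?_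
    have h1 : trial χ θ q0 F p = 0 := image_eq_zero_of_notMem_tsupport hp
    have h2 : fderiv ℝ (trial χ θ q0 F) p = 0 := fderiv_of_notMem_tsupport ℝ hp
    unfold pauli
    simp [h1, h2, tk985_sg_zero]
  have hint : Integrable (fun p => ‖pauli α e (trial χ θ q0 F) p‖ ^ 2) :=
    (hpc.norm.pow 2).integrable_of_hasCompactSupport hps
  have hχd : Continuous (fderiv ℝ χ) := hχ.continuous_fderiv (by simp)
  have hP : Continuous (pauli0 α e q0 χ) := by
    unfold pauli0
    refine Continuous.add ?_ ?_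
    · refine continuous_finsetSum _ fun j _ => ?_
      exact tk985_smul_cont _ _
        (tk985_sg_cont continuous_const (hχd.clm_apply continuous_const))
    · refine tk985_smul_cont _ _ (tk985_sg_cont ?_ hχ.continuous)
      unfold vecPot
      refine continuous_finsetSum _ fun m _ => ?_
      have := hec m
      fun_prop
  have hPs : HasCompactSupport (fun x => ‖pauli0 α e q0 χ x‖ ^ 2) := by
    refine HasCompactSupport.intro hχc fun p hp => ?_
    have h1 : χ p = 0 := image_eq_zero_of_notMem_tsupport hp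
    have h2 : fderiv ℝ χ p = 0 := fderiv_of_notMem_tsupport ℝ hp
    unfold pauli0
    simp [h1, h2, tk985_sg_zero]
  have hPint : Integrable (fun x => ‖pauli0 α e q0 χ x‖ ^ 2) :=
    (hP.norm.pow 2).integrable_of_hasCompactSupport hPs
  -- inner integral
  have hinner : ∀ x, ∫ q, ‖pauli α e (trial χ θ q0 F) (x, q)‖ ^ 2 =
      ‖pauli0 α e q0 χ x‖ ^ 2 +
      (∫ q : ι → ℝ, ‖∑ m, q m • (Real.sqrt α • e m x - gradient (θ m) x)‖ ^ 2 * F q ^ 2) *
        ‖χ x‖ ^ 2 := by
    intro x
    set G : (ι → ℝ) → E3 := fun q => ∑ m, q m • (Real.sqrt α • e m x - gradient (θ m) x) with hG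
    set P : C2 := pauli0 α e q0 χ x with hPdef
    have hGc : Continuous G := by
      rw [hG]
      fun_prop
    have hGneg : ∀ q, G (-q) = - G q := by
      intro q
      simp [hG]
    have hFcont : Continuous F := hF.continuous
    have hpt : ∀ q, ‖pauli α e (trial χ θ q0 F) (x, q)‖ ^ 2 =
        (fun r => F r ^ 2 * ‖P + sg (G r) (χ x)‖ ^ 2) (q - q0) := by
      intro q
      rw [tk985_point α e χ hχ hχc θ hθ q0 F hF hFc x q, norm_smul, mul_pow]
      congr 1
      rw [norm_mul, Complex.norm_real, mul_pow, Complex.norm_exp]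
      have : (-Complex.I * ((∑ m, (q m - q0 m) * θ m x : ℝ) : ℂ)).re = 0 := by
        simp [Complex.mul_re]
      rw [this]
      simp
    simp_rw [hpt]
    rw [integral_sub_right_eq_self (μ := (volume : Measure (ι → ℝ)))
      (fun r => F r ^ 2 * ‖P + sg (G r) (χ x)‖ ^ 2) q0]
    have hsgc : Continuous fun r => sg (G r) (χ x) := tk985_sg_cont hGc continuous_const
    have hF2 : HasCompactSupport (fun r => F r ^ 2) := by
      have := hFc.comp_left (g := fun t : ℝ => t ^ 2) (by simp)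
      exact this
    have hi : ∀ (u : (ι → ℝ) → ℝ), Continuous u → Integrable (fun r => F r ^ 2 * u r) := by
      intro u hu
      exact ((hFcont.pow 2).mul hu).integrable_of_hasCompactSupport hF2.mul_right
    have hi1 : Integrable (fun r => F r ^ 2 * ‖P + sg (G r) (χ x)‖ ^ 2) :=
      hi _ (by fun_prop)
    have hneg : ∫ r, F r ^ 2 * ‖P + sg (G r) (χ x)‖ ^ 2 =
        ∫ r, F r ^ 2 * ‖P - sg (G r) (χ x)‖ ^ 2 := by
      rw [← integral_neg_eq_self (μ := (volume : Measure (ι → ℝ)))
        (fun r => F r ^ 2 * ‖P + sg (G r) (χ x)‖ ^ 2)]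
      congr 1
      funext r
      rw [hFe, hGneg]
      have : sg (-G r) (χ x) = - sg (G r) (χ x) := by
        have := sg_smul (-1) (G r) (χ x)
        simpa using this
      rw [this, ← sub_eq_add_neg]
    have hi2 : Integrable (fun r => F r ^ 2 * ‖P - sg (G r) (χ x)‖ ^ 2) :=
      hi _ (by fun_prop)
    have hsum : ∫ r, (F r ^ 2 * ‖P + sg (G r) (χ x)‖ ^ 2 + F r ^ 2 * ‖P - sg (G r) (χ x)‖ ^ 2) =
        2 * (‖P‖ ^ 2 + (∫ q : ι → ℝ, ‖G q‖ ^ 2 * F q ^ 2) * ‖χ x‖ ^ 2) := by
      have hpw : ∀ r, F r ^ 2 * ‖P + sg (G r) (χ x)‖ ^ 2 + F r ^ 2 * ‖P - sg (G r) (χ x)‖ ^ 2 =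
          (2 * ‖P‖ ^ 2) * F r ^ 2 + (2 * ‖χ x‖ ^ 2) * (‖G r‖ ^ 2 * F r ^ 2) := by
        intro r
        have h := parallelogram_law_with_norm ℝ P (sg (G r) (χ x))
        have h' : ‖P + sg (G r) (χ x)‖ ^ 2 + ‖P - sg (G r) (χ x)‖ ^ 2 =
            2 * (‖P‖ ^ 2 + ‖sg (G r) (χ x)‖ ^ 2) := by nlinarith [h]
        rw [norm_sg] at h'
        rw [← mul_add, h']
        ring
      simp_rw [hpw]
      have hF2i : Integrable (fun r => F r ^ 2) := by
        have := hi (fun _ => 1) continuous_const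
        simpa using this
      have hGi : Integrable (fun r => ‖G r‖ ^ 2 * F r ^ 2) := by
        have := hi (fun r => ‖G r‖ ^ 2) (by fun_prop)
        refine this.congr (Filter.Eventually.of_forall fun r => ?_)
        simp only
        ring
      rw [integral_add (hF2i.const_mul _) (hGi.const_mul _), integral_const_mul,
        integral_const_mul, hF1]
      ring
    rw [integral_add hi1 hi2, ← hneg] at hsum
    linarith
  have hvol : (volume : Measure (E3 × (ι → ℝ))) = (volume : Measure E3).prod volume :=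
    Measure.volume_eq_prod _ _
  have hint' : Integrable (fun p => ‖pauli α e (trial χ θ q0 F) p‖ ^ 2)
      ((volume : Measure E3).prod (volume : Measure (ι → ℝ))) := by
    rw [← hvol]; exact hint
  have h1 : ∫ p, ‖pauli α e (trial χ θ q0 F) p‖ ^ 2 =
      ∫ x, ∫ q, ‖pauli α e (trial χ θ q0 F) (x, q)‖ ^ 2 := by
    rw [hvol]
    exact integral_prod _ hint'
  have hleft := hint'.integral_prod_left
  simp_rw [hinner] at h1 hleft
  rw [h1]
  have hA : Integrable (fun x => (∫ q : ι → ℝ,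
      ‖∑ m, q m • (Real.sqrt α • e m x - gradient (θ m) x)‖ ^ 2 * F q ^ 2) * ‖χ x‖ ^ 2) := by
    refine (hleft.sub hPint).congr (Filter.Eventually.of_forall fun x => ?_)
    simp
  exact integral_add hPint hA

end Pool.Agent.Helper985.PS
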