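import Pool.Agent.Helper985.PS.M_gaussF
import Pool.Agent.Helper985.PS.M_inv_le
import Pool.Agent.Helper985.PS.M_trial_basic
import Pool.Agent.Helper985.PS.M_trial_field
import Pool.Agent.Helper985.PS.M_trial_kin
import Pool.Agent.Helper985.PS.Defs

set_option autoImplicit false

open MeasureTheory
open scoped Topology

namespace Pool.Agent.Helper985.PS










theorem up_normsq {ι : Type} [Fintype ι] (g : ι → E3) (q : ι → ℝ) :
    ‖∑ m, q m • g m‖ ^ 2 = ∑ i : Fin 3, (∑ m, (g m) i * q m) ^ 2 := by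
  rw [EuclideanSpace.real_norm_sq_eq]
  refine Finset.sum_congr rfl (fun i _ => ?_)
  congr 1
  simp [mul_comm]

theorem up_int_sq {ι : Type} [Fintype ι] (F : (ι → ℝ) → ℝ) (hF : Continuous F)
    (hFc : HasCompactSupport F) (y : ι → ℝ) :
    Integrable (fun q : ι → ℝ => (∑ m, y m * q m) ^ 2 * F q ^ 2) := by
  apply Continuous.integrable_of_hasCompactSupport
  · fun_prop
  · have h1 : HasCompactSupport (fun q => F q ^ 2) :=
      hFc.comp_left (g := fun t : ℝ => t ^ 2) (by simp)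
    exact h1.mul_left

theorem up_grad {f : E3 → ℝ} (hf : ContDiff ℝ SM f) : Continuous (gradient f) := by
  have h1 : Continuous (fderiv ℝ f) := hf.continuous_fderiv (by simp)
  exact (InnerProductSpace.toDual ℝ E3).symm.continuous.comp h1

theorem up_pt {ι : Type} [Fintype ι] [DecidableEq ι] (ω : ι → ℝ) (hω : ∀ m, 0 < ω m)
    (T : Matrix ι ι ℝ) (hT : T.PosSemidef) (ε' : ℝ) (F : (ι → ℝ) → ℝ) (hF : Continuous F)
    (hFc : HasCompactSupport F)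
    (hFq : ∀ y : ι → ℝ, ∫ q, (∑ m, y m * q m) ^ 2 * F q ^ 2 ≤
        (1 / 2) * (y ⬝ᵥ ((Matrix.diagonal ω + T)⁻¹.mulVec y)) + ε' * ∑ m, y m ^ 2)
    (g : ι → E3) (B : ℝ) (hB0 : 0 ≤ B)
    (hB : ∀ v : ι → ℝ, ‖∑ m, v m • g m‖ ^ 2 ≤ B * (v ⬝ᵥ (T.mulVec v))) :
    ∫ q : ι → ℝ, ‖∑ m, q m • g m‖ ^ 2 * F q ^ 2 ≤ (3 / 2) * B + ε' * ∑ m, ‖g m‖ ^ 2 := by
  have h1 : ∀ q : ι → ℝ, ‖∑ m, q m • g m‖ ^ 2 * F q ^ 2 =
      ∑ i : Fin 3, (∑ m, (g m) i * q m) ^ 2 * F q ^ 2 := by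
    intro q
    rw [up_normsq, Finset.sum_mul]
  simp only [h1]
  rw [integral_finsetSum _ (fun i _ => up_int_sq F hF hFc (fun m => (g m) i))]
  have h2 : ∀ i : Fin 3, ∫ q : ι → ℝ, (∑ m, (g m) i * q m) ^ 2 * F q ^ 2 ≤
      (1 / 2) * B + ε' * ∑ m, ((g m) i) ^ 2 := by
    intro i
    have h3 := hFq (fun m => (g m) i)
    have h4 := inv_le ω hω T hT (fun m => (g m) i) B hB0 (by
      intro v
      refine le_trans ?_ (hB v)
      rw [up_normsq]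
      exact Finset.single_le_sum (f := fun i : Fin 3 => (∑ m, (g m) i * v m) ^ 2)
        (fun i _ => sq_nonneg _) (Finset.mem_univ i))
    linarith
  calc _ ≤ ∑ i : Fin 3, ((1 / 2) * B + ε' * ∑ m, ((g m) i) ^ 2) :=
        Finset.sum_le_sum (fun i _ => h2 i)
    _ = (3 / 2) * B + ε' * ∑ m, ‖g m‖ ^ 2 := by
        have e : ∑ m, ‖g m‖ ^ 2 = ∑ i : Fin 3, ∑ m, ((g m) i) ^ 2 := by
          simp only [EuclideanSpace.real_norm_sq_eq]
          exact Finset.sum_comm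
        rw [e, Finset.mul_sum, Finset.sum_add_distrib]
        congr 1
        rw [Finset.sum_const, Finset.card_univ, Fintype.card_fin, nsmul_eq_mul]
        push_cast
        ring

/-- the general upper bound -/
theorem upper {ι : Type} [Fintype ι] [DecidableEq ι] (α : ℝ) (hα : 0 ≤ α) (ω : ι → ℝ)
    (hω : ∀ m, 0 < ω m) (e : ι → E3 → E3)
    (he : ∀ m, ContDiff ℝ SM (e m)) (χ : E3 → C2) (hχ : ContDiff ℝ SM χ)
    (hχc : HasCompactSupport χ) (θ : ι → E3 → ℝ) (hθ : ∀ m, ContDiff ℝ SM (θ m)) (q0 : ι → ℝ)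
    (T : Matrix ι ι ℝ) (hT : T.PosSemidef) (B : E3 → ℝ) (hB0 : ∀ x, 0 ≤ B x) (hBc : Continuous B)
    (hB : ∀ x, χ x ≠ 0 → ∀ v : ι → ℝ,
      ‖∑ m, v m • (Real.sqrt α • e m x - gradient (θ m) x)‖ ^ 2 ≤ B x * (v ⬝ᵥ (T.mulVec v)))
    (ε : ℝ) (hε : 0 < ε) :
    ∃ Ψ : E3 × (ι → ℝ) → C2, ContDiff ℝ SM Ψ ∧ HasCompactSupport Ψ ∧
      (∫ p, ‖Ψ p‖ ^ 2 = ∫ x, ‖χ x‖ ^ 2) ∧
      form α ω e Ψ ≤ (1 / 2) * (∫ x, ‖pauli0 α e q0 χ x‖ ^ 2) +
        (3 / 4) * (∫ x, B x * ‖χ x‖ ^ 2) + (1 / 2) * (∫ x, (∑ m, θ m x ^ 2) * ‖χ x‖ ^ 2) +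
        ((1 / 4) * T.trace + (1 / 2) * ∑ m, ω m ^ 2 * q0 m ^ 2) * (∫ x, ‖χ x‖ ^ 2) + ε := by
  obtain ⟨g, hg⟩ : ∃ g : ι → E3 → E3, ∀ m x, g m x = Real.sqrt α • e m x - gradient (θ m) x :=
    ⟨_, fun m x => rfl⟩
  have hgc : ∀ m, Continuous (g m) := by
    intro m
    have : g m = fun x => Real.sqrt α • e m x - gradient (θ m) x := funext (hg m)
    rw [this]
    exact ((he m).continuous.const_smul (Real.sqrt α)).sub (up_grad (hθ m))
  have hχ2 : HasCompactSupport (fun x => ‖χ x‖ ^ 2) :=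
    hχc.comp_left (g := fun t : C2 => ‖t‖ ^ 2) (by simp)
  have hχcont : Continuous (fun x => ‖χ x‖ ^ 2) := hχ.continuous.norm.pow 2
  have hGi : Integrable (fun x => (∑ m, ‖g m x‖ ^ 2) * ‖χ x‖ ^ 2) := by
    apply Continuous.integrable_of_hasCompactSupport
    · exact (continuous_finsetSum _ (fun m _ => (hgc m).norm.pow 2)).mul hχcont
    · exact hχ2.mul_left
  have hBi : Integrable (fun x => B x * ‖χ x‖ ^ 2) := by
    apply Continuous.integrable_of_hasCompactSupport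
    · exact hBc.mul hχcont
    · exact hχ2.mul_left
  obtain ⟨C, hC⟩ : ∃ C : ℝ, C = (∫ x, (∑ m, ‖g m x‖ ^ 2) * ‖χ x‖ ^ 2) := ⟨_, rfl⟩
  obtain ⟨N, hN⟩ : ∃ N : ℝ, N = ∫ x, ‖χ x‖ ^ 2 := ⟨_, rfl⟩
  have hC0 : 0 ≤ C := by
    rw [hC]
    exact integral_nonneg (fun x => by positivity)
  have hN0 : 0 ≤ N := by
    rw [hN]
    exact integral_nonneg (fun x => by positivity)
  obtain ⟨ε', hε', hε2⟩ : ∃ ε' : ℝ, 0 < ε' ∧ ε' * (C + N) ≤ ε := by
    refine ⟨ε / (C + N + 1), by positivity, ?_⟩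
    rw [div_mul_eq_mul_div, div_le_iff₀ (by positivity)]
    nlinarith
  obtain ⟨F, hF, hFc, hFe, hF1, hFk, hFq⟩ := gaussF ω hω T hT ε' hε'
  refine ⟨trial χ θ q0 F, (trial_smooth χ hχ hχc θ hθ q0 F hF hFc).1,
    (trial_smooth χ hχ hχc θ hθ q0 F hF hFc).2, trial_norm χ hχ hχc θ hθ q0 F hF hFc hF1, ?_⟩
  unfold form
  rw [trial_kin α hα e he χ hχ hχc θ hθ q0 F hF hFc hFe hF1,
    trial_field ω χ hχ hχc θ hθ q0 F hF hFc hFe hF1,
    trial_norm χ hχ hχc θ hθ q0 F hF hFc hF1]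
  simp only [← hg] at hB ⊢
  have hkey : ∫ x, (∫ q : ι → ℝ, ‖∑ m, q m • g m x‖ ^ 2 * F q ^ 2) * ‖χ x‖ ^ 2 ≤
      (3 / 2) * (∫ x, B x * ‖χ x‖ ^ 2) + ε' * C := by
    have h1 : ∫ x, (∫ q : ι → ℝ, ‖∑ m, q m • g m x‖ ^ 2 * F q ^ 2) * ‖χ x‖ ^ 2 ≤
        ∫ x, ((3 / 2) * (B x * ‖χ x‖ ^ 2) + ε' * ((∑ m, ‖g m x‖ ^ 2) * ‖χ x‖ ^ 2)) := by
      apply integral_mono_of_nonneg
      · exact Filter.Eventually.of_forall (fun x => mul_nonneg
          (integral_nonneg (fun q => by positivity)) (by positivity))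
      · exact (hBi.const_mul _).add (hGi.const_mul _)
      · refine Filter.Eventually.of_forall (fun x => ?_)
        simp only
        by_cases hx : χ x = 0
        · rw [hx]
          simp
        · have h2 := up_pt ω hω T hT ε' F hF.continuous hFc hFq (fun m => g m x) (B x) (hB0 x)
            (hB x hx)
          have h3 := mul_le_mul_of_nonneg_right h2 (by positivity : 0 ≤ ‖χ x‖ ^ 2)
          calc _ ≤ _ := h3
            _ = _ := by ring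
    refine h1.trans (le_of_eq ?_)
    rw [integral_add (hBi.const_mul _) (hGi.const_mul _), integral_const_mul, integral_const_mul,
      hC]
  rw [← hN]
  have h5 := mul_le_mul_of_nonneg_right hFk hN0
  obtain ⟨K, hK⟩ : ∃ K : ℝ, K = ∫ q, ∑ m, ((fderiv ℝ F q (Pi.single m 1)) ^ 2 +
    ω m ^ 2 * q m ^ 2 * F q ^ 2) := ⟨_, rfl⟩
  rw [← hK] at h5 ⊢
  have hCN : 0 ≤ ε' * (C + N) := by positivity
  nlinarith

end Pool.Agent.Helper985.PS
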