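import Pool.Agent.Helper985.PS.M_modefn
import Pool.Agent.Helper985.PS.M_ring_gauge
import Pool.Agent.Helper985.PS.M_ring_state
import Pool.Agent.Helper985.PS.M_upper
import Pool.Agent.Helper985.PS.Defs

set_option autoImplicit false

open MeasureTheory
open scoped Topology

namespace Pool.Agent.Helper985.PS






theorem h400_D2_cont : Continuous D2 := by
  unfold D2 rho
  fun_prop

theorem h400_D2_nonneg (y : E3) : 0 ≤ D2 y := by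
  unfold D2
  positivity

theorem h400_logN (s : ℝ) (hs : 1 < s) (N : ℕ) (h1 : s ^ 13 ≤ N) (h2 : (N : ℝ) ≤ 2 * s ^ 13) :
    Real.log N / N ≤ 13 / s ^ 12 := by
  have hs0 : 0 < s := by linarith
  have hN0 : (0 : ℝ) < N := lt_of_lt_of_le (by positivity) h1
  have h3 : Real.log N ≤ 13 * s := by
    calc Real.log N ≤ Real.log (2 * s ^ 13) := Real.log_le_log hN0 h2
      _ = Real.log 2 + 13 * Real.log s := by
          rw [Real.log_mul (by norm_num) (by positivity), Real.log_pow]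
          norm_num
      _ ≤ 1 + 13 * (s - 1) := by
          have h4 := Real.log_le_sub_one_of_pos hs0
          have h5 := Real.log_le_sub_one_of_pos (show (0 : ℝ) < 2 by norm_num)
          linarith
      _ ≤ 13 * s := by linarith
  calc Real.log N / N ≤ 13 * s / s ^ 13 := by
        apply div_le_div₀ (by positivity) h3 (by positivity) h1
    _ = 13 / s ^ 12 := by
        field_simp

theorem h400_intB (χ : E3 → C2) (hχ : Continuous χ) (hχc : HasCompactSupport χ) (R a b : ℝ) :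
    Integrable (fun x => D2 (R⁻¹ • x) * ‖χ x‖ ^ 2) ∧ Integrable (fun x => ‖χ x‖ ^ 2) ∧
    ∫ x, (a * D2 (R⁻¹ • x) + b) * ‖χ x‖ ^ 2 = a * (∫ x, D2 (R⁻¹ • x) * ‖χ x‖ ^ 2) + b * ∫ x, ‖χ x‖ ^ 2 := by
  have hc0 : HasCompactSupport (fun x => ‖χ x‖ ^ 2) := by
    apply hχc.comp_left (g := fun v => ‖v‖ ^ 2)
    simp
  have hI2 : Integrable (fun x => ‖χ x‖ ^ 2) :=
    (by fun_prop : Continuous (fun x => ‖χ x‖ ^ 2)).integrable_of_hasCompactSupport hc0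
  have hD : Continuous (fun x : E3 => D2 (R⁻¹ • x)) := h400_D2_cont.comp (by fun_prop)
  have hI1 : Integrable (fun x => D2 (R⁻¹ • x) * ‖χ x‖ ^ 2) := by
    apply Continuous.integrable_of_hasCompactSupport
    · exact hD.mul (by fun_prop)
    · exact hc0.mul_left
  refine ⟨hI1, hI2, ?_⟩
  rw [← integral_const_mul, ← integral_const_mul, ← integral_add (hI1.const_mul a) (hI2.const_mul b)]
  congr 1
  funext x
  ring

/-- the upper bound on the energy -/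
theorem main_bound (α : ℝ) (hα : 0 < α) : ∃ C : ℝ, 0 < C ∧ ∀ (L Λ : ℝ), 2 ≤ Λ →
    8 * Λ ^ (-(24 / 25) : ℝ) ≤ L → ∀ (pol : Mode L Λ → E3), IsPolarisation pol →
    ∃ Ψ : E3 × (Mode L Λ → ℝ) → C2, ContDiff ℝ SM Ψ ∧ HasCompactSupport Ψ ∧
      (0 < ∫ p, ‖Ψ p‖ ^ 2) ∧
      form α (fun m => ‖m.k‖) (modeFn pol) Ψ ≤ C * Λ ^ (37 / 25 : ℝ) * ∫ p, ‖Ψ p‖ ^ 2 := by
  obtain ⟨C1, hC1, h1⟩ := ring_state α hα
  obtain ⟨C2, hC2, h2⟩ := ring_gauge α hα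
  refine ⟨(5/2) * C1 + (3/4) * (C2 * (13 * C1 + 1)) + (1/2) * C2 + (1/2) * C2 + 2 * C1 + 1, by positivity, ?_⟩
  intro L Λ hΛ hL pol hpol
  obtain ⟨s, hs⟩ : ∃ s, s = Λ ^ (1/50 : ℝ) := ⟨_, rfl⟩
  have hΛ0 : 0 < Λ := by linarith
  have hs1 : 1 < s := by rw [hs]; exact Real.one_lt_rpow (by linarith) (by norm_num)
  have hs0 : 0 < s := by linarith
  have hΛs : Λ = s ^ 50 := by
    rw [hs, ← Real.rpow_natCast, ← Real.rpow_mul hΛ0.le]; norm_num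
  have hR : Λ ^ (-(24/25) : ℝ) = (s ^ 48)⁻¹ := by
    rw [hs, ← Real.rpow_natCast, ← Real.rpow_mul hΛ0.le, ← Real.rpow_neg hΛ0.le]; norm_num
  have h37 : Λ ^ (37/25 : ℝ) = s ^ 74 := by
    rw [hs, ← Real.rpow_natCast, ← Real.rpow_mul hΛ0.le]; norm_num
  obtain ⟨R, hRdef⟩ : ∃ R, R = (s^48)⁻¹ := ⟨_, rfl⟩
  rw [hR, ← hRdef] at hL
  rw [h37]
  have hR0 : 0 < R := by rw [hRdef]; positivity
  have hΛR : Λ * R = s ^ 2 := by
    rw [hΛs, hRdef]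
    field_simp
  have hΛR1 : 1 ≤ Λ * R := by
    rw [hΛR]
    exact one_le_pow₀ hs1.le
  obtain ⟨N, hN⟩ : ∃ N, N = ⌈s ^ 13⌉₊ := ⟨_, rfl⟩
  have hN1 : s ^ 13 ≤ N := by rw [hN]; exact Nat.le_ceil _
  have hs13 : 1 < s ^ 13 := one_lt_pow₀ hs1 (by norm_num)
  have hN2 : (N : ℝ) ≤ 2 * s ^ 13 := by
    have := Nat.ceil_lt_add_one (show 0 ≤ s ^ 13 by positivity)
    rw [← hN] at this
    linarith
  have hN3 : 2 ≤ N := by
    have h3 : (1 : ℝ) < N := lt_of_lt_of_le hs13 hN1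
    have h4 : 1 < N := by exact_mod_cast h3
    omega
  have hN0 : (0 : ℝ) < N := by linarith
  obtain ⟨χ, q0, hχ, hχc, hM, hsupp, hD2, hpau, hq0⟩ := h1 L Λ R N hR0 hL hΛR1 hN3 pol hpol
  obtain ⟨θ, T, hT, hθ, htr, hθ2, hB⟩ := h2 L Λ R (s ^ 68) ((s ^ 74)⁻¹) hR0 hL hΛR1 (by positivity) (by positivity) pol hpol
  obtain ⟨M, hMdef⟩ : ∃ M, M = ∫ x, ‖χ x‖ ^ 2 := ⟨_, rfl⟩
  rw [← hMdef] at hM hD2 hpau
  have hχcont : Continuous χ := hχ.continuous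
  have hω : ∀ m : Mode L Λ, 0 < ‖m.k‖ := fun m => m.1.2.1
  obtain ⟨Ψ, hΨ1, hΨ2, hΨ3, hΨ4⟩ := upper α hα.le (fun m : Mode L Λ => ‖m.k‖) hω (modeFn pol)
    (fun m => smooth_modeFn pol m) χ hχ hχc θ hθ q0 T hT
    (fun x => C2 * (D2 (R⁻¹ • x) * (R ^ 2 * Λ ^ 5) / (s ^ 68) + 1 / ((s ^ 74)⁻¹)))
    (fun x => by
      have := h400_D2_nonneg (R⁻¹ • x)
      positivity)
    (by
      have hD : Continuous (fun x : E3 => D2 (R⁻¹ • x)) := h400_D2_cont.comp (by fun_prop)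
      fun_prop)
    (fun x hx v => hB x (hsupp x hx) v) M hM
  refine ⟨Ψ, hΨ1, hΨ2, ?_, ?_⟩
  · rw [hΨ3, ← hMdef]; exact hM
  rw [hΨ3, ← hMdef]
  rw [← hMdef] at hΨ4
  refine hΨ4.trans ?_
  have hs74 : (1 : ℝ) ≤ s ^ 74 := one_le_pow₀ hs1.le
  -- kinetic
  have ea : (∫ x, ‖pauli0 α (modeFn pol) q0 χ x‖ ^ 2) ≤ C1 * (5 * s ^ 74) * M := by
    refine hpau.trans ?_
    apply mul_le_mul_of_nonneg_right _ hM.le
    apply mul_le_mul_of_nonneg_left _ hC1.le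
    have hR2 : R ^ 2 = (s ^ 96)⁻¹ := by
      rw [hRdef, inv_pow, ← pow_mul]
    have e1 : (R ^ 2 * (N : ℝ) ^ 8)⁻¹ ≤ s ^ 74 := by
      have h3 : (s ^ 13) ^ 8 ≤ (N : ℝ) ^ 8 := pow_le_pow_left₀ (by positivity) hN1 8
      have h4 : 1 ≤ R ^ 2 * (N : ℝ) ^ 8 := by
        rw [hR2]
        have h5 : (s ^ 96)⁻¹ * (s ^ 13) ^ 8 ≤ (s ^ 96)⁻¹ * (N : ℝ) ^ 8 :=
          mul_le_mul_of_nonneg_left h3 (by positivity)
        have h6 : (s ^ 96)⁻¹ * (s ^ 13) ^ 8 = s ^ 8 := by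
          field_simp
        have h7 : (1 : ℝ) ≤ s ^ 8 := one_le_pow₀ hs1.le
        linarith
      have h8 := inv_le_one_of_one_le₀ h4
      linarith
    have e2 : (N : ℝ) ^ 2 / (R ^ 2 * (Λ * R) ^ 24) ≤ 4 * s ^ 74 := by
      rw [hΛR, hR2]
      have h3 : (N : ℝ) ^ 2 ≤ (2 * s ^ 13) ^ 2 := pow_le_pow_left₀ hN0.le hN2 2
      rw [div_le_iff₀ (by positivity)]
      have h4 : 4 * s ^ 74 * ((s ^ 96)⁻¹ * (s ^ 2) ^ 24) = (2 * s ^ 13) ^ 2 := by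
        field_simp
        ring
      rw [h4]
      exact h3
    linarith
  -- B term
  have eb : (∫ x, C2 * (D2 (R⁻¹ • x) * (R ^ 2 * Λ ^ 5) / (s ^ 68) + 1 / ((s ^ 74)⁻¹)) * ‖χ x‖ ^ 2) ≤
      C2 * (13 * C1 + 1) * s ^ 74 * M := by
    have hI := (h400_intB χ hχcont hχc R (C2 * s ^ 86) (C2 * s ^ 74)).2.2
    have e1 : (fun x : E3 => C2 * (D2 (R⁻¹ • x) * (R ^ 2 * Λ ^ 5) / (s ^ 68) + 1 / ((s ^ 74)⁻¹)) * ‖χ x‖ ^ 2) =
        fun x => (C2 * s ^ 86 * D2 (R⁻¹ • x) + C2 * s ^ 74) * ‖χ x‖ ^ 2 := by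
      funext x
      have e2 : R ^ 2 * Λ ^ 5 / s ^ 68 = s ^ 86 := by
        rw [hRdef, hΛs]
        field_simp
      have e3 : 1 / ((s ^ 74)⁻¹) = s ^ 74 := by rw [one_div, inv_inv]
      rw [e3, mul_div_assoc, e2]
      ring
    rw [e1, hI, ← hMdef]
    have h3 := h400_logN s hs1 N hN1 hN2
    have h4 : (∫ x, D2 (R⁻¹ • x) * ‖χ x‖ ^ 2) ≤ C1 * (13 / s ^ 12) * M := by
      refine hD2.trans ?_
      apply mul_le_mul_of_nonneg_right _ hM.le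
      exact mul_le_mul_of_nonneg_left h3 hC1.le
    have h5 : C2 * s ^ 86 * (∫ x, D2 (R⁻¹ • x) * ‖χ x‖ ^ 2) ≤ C2 * s ^ 86 * (C1 * (13 / s ^ 12) * M) :=
      mul_le_mul_of_nonneg_left h4 (by positivity)
    have h6 : C2 * s ^ 86 * (C1 * (13 / s ^ 12) * M) = C2 * (13 * C1) * s ^ 74 * M := by
      field_simp
    rw [h6] at h5
    linarith
  -- theta term
  have ec : (∫ x, (∑ m, θ m x ^ 2) * ‖χ x‖ ^ 2) ≤ C2 * s ^ 74 * M := by
    have hI2 := (h400_intB χ hχcont hχc R 0 0).2.1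
    have h3 : (∫ x, (∑ m, θ m x ^ 2) * ‖χ x‖ ^ 2) ≤ ∫ x, (C2 * (R ^ 2 * Λ ^ 3)) * ‖χ x‖ ^ 2 := by
      apply integral_mono_of_nonneg
      · exact Filter.Eventually.of_forall (fun x => by
          show 0 ≤ (∑ m, θ m x ^ 2) * ‖χ x‖ ^ 2
          positivity)
      · exact hI2.const_mul _
      · exact Filter.Eventually.of_forall (fun x =>
          mul_le_mul_of_nonneg_right (hθ2 x) (by positivity))
    rw [integral_const_mul, ← hMdef] at h3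
    refine h3.trans ?_
    apply mul_le_mul_of_nonneg_right _ hM.le
    apply mul_le_mul_of_nonneg_left _ hC2.le
    have e2 : R ^ 2 * Λ ^ 3 = s ^ 54 := by
      rw [hRdef, hΛs]
      field_simp
    rw [e2]
    exact pow_le_pow_right₀ hs1.le (by norm_num)
  -- trace
  have ed : T.trace ≤ C2 * (2 * s ^ 74) := by
    refine htr.trans ?_
    apply mul_le_mul_of_nonneg_left _ hC2.le
    rw [hΛR]
    have e1 : s ^ 68 * (s ^ 2) ^ 3 = s ^ 74 := by ring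
    have e2 : (s ^ 74)⁻¹ * (Λ ^ 2 / R) = s ^ 74 := by
      rw [hRdef, hΛs]
      field_simp
    rw [e1, e2]
    linarith
  -- classical field
  have ee : (∑ m : Mode L Λ, ‖m.k‖ ^ 2 * q0 m ^ 2) ≤ C1 * (4 * s ^ 74) := by
    refine hq0.trans ?_
    rw [mul_div_assoc]
    apply mul_le_mul_of_nonneg_left _ hC1.le
    have h3 : (N : ℝ) ^ 2 ≤ (2 * s ^ 13) ^ 2 := pow_le_pow_left₀ hN0.le hN2 2
    rw [div_le_iff₀ hR0, hRdef]
    have h4 : 4 * s ^ 74 * (s ^ 48)⁻¹ = (2 * s ^ 13) ^ 2 := by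
      field_simp
      ring
    rw [h4]
    exact h3
  have hf : ((1 / 4) * T.trace + (1 / 2) * ∑ m : Mode L Λ, ‖m.k‖ ^ 2 * q0 m ^ 2) * M ≤
      ((1 / 4) * (C2 * (2 * s ^ 74)) + (1 / 2) * (C1 * (4 * s ^ 74))) * M :=
    mul_le_mul_of_nonneg_right (by linarith) hM.le
  have hg : M ≤ s ^ 74 * M := le_mul_of_one_le_left hM.le hs74
  nlinarith [ea, eb, ec, hf, hg]

end Pool.Agent.Helper985.PS
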