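import Pool.Agent.Helper985.PS.Defs

set_option autoImplicit false

open MeasureTheory
open scoped Topology

namespace Pool.Agent.Helper985.PS

/-- Polarisation vectors exist for every box and cutoff. -/
theorem exists_polarisation (L Λ : ℝ) : ∃ pol : Mode L Λ → E3, IsPolarisation pol := by
  have : Fact (Module.finrank ℝ E3 = 2 + 1) := ⟨by simp⟩
  have hk : ∀ n : Momentum L Λ, waveVector L n.1 ≠ 0 := by
    intro n h
    have h1 := n.2.1
    rw [h, norm_zero] at h1
    exact lt_irrefl _ h1
  refine ⟨fun m => ((OrthonormalBasis.fromOrthogonalSpanSingleton (𝕜 := ℝ) 2 (hk m.1)) m.2 : E3), ?_, ?_⟩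
  · intro n μ ν
    have h1 := (OrthonormalBasis.fromOrthogonalSpanSingleton (𝕜 := ℝ) 2 (hk n)).orthonormal
    have h2 := (orthonormal_iff_ite.mp h1) μ ν
    rw [Submodule.coe_inner] at h2
    exact h2
  · intro m
    have h1 := ((OrthonormalBasis.fromOrthogonalSpanSingleton (𝕜 := ℝ) 2 (hk m.1)) m.2).2
    rw [Submodule.mem_orthogonal_singleton_iff_inner_left] at h1
    exact h1

end Pool.Agent.Helper985.PS
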